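import Pool.Graph.R_seed8.W762.RK2.EXP4b

set_option autoImplicit false

/-! Moments of the local count: expansion of the `k`-th power into symbols. -/

namespace Pool.Agent.H457.A

open Finset Pool.Agent.W262.RK Pool.Agent.W108.RK Pool.Agent.W762.RK2

/-- vectors of length `k` of pairs of bits -/
abbrev Vk (k : ℕ) : Type := Fin k → ZMod 2 × ZMod 2

/-- pairing -/
def dt {k : ℕ} (x v : Vk k) : ZMod 2 := ∑ r, ((x r).1 * (v r).1 + (x r).2 * (v r).2)

/-- bit to Bool -/
def zb (a : ZMod 2) : Bool := decide (a = 1)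

/-- number of prime factors -/
def om (n : ℕ) : ℕ := n.primeFactors.card

section defs

variable {J : Type} [Fintype J] [DecidableEq J] {k : ℕ}

/-- the index set -/
def IK (P : J → Vk k → Vk k → Bool) : Type :=
  {i : J × Vk k × Vk k // P i.1 i.2.1 i.2.2 = true}

instance (P : J → Vk k → Vk k → Bool) : Fintype (IK P) := by unfold IK; infer_instance

instance (P : J → Vk k → Vk k → Bool) : DecidableEq (IK P) := by
  unfold IK; exact Subtype.instDecidableEq

/-- links -/
def LK (P : J → Vk k → Vk k → Bool) (i i' : IK P) : Bool := decide (dt i'.1.2.2 i.1.2.1 = 1)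

/-- weights -/
def wK (P : J → Vk k → Vk k → Bool) (W : J → ℝ) (i : IK P) : ℝ := W i.1.1

/-- constants -/
def κK (P : J → Vk k → Vk k → Bool) (kc : J → Vk k → Vk k → ℤ) (i : IK P) : ℤ :=
  kc i.1.1 i.1.2.1 i.1.2.2

/-- local conditions for a tuple -/
def LLg (Lc : J → Bool → ℕ → Bool → Bool → Bool → Bool → Prop) (s : J → ℕ) (E : Finset ℕ) (p : ℕ)
    (v w h g : Bool) : Prop := ∀ j, p ∣ s j → Lc j (decide (p ∈ E)) p v w h g

/-- the flagged primes -/
def PF (fl : J → Bool) (s : J → ℕ) : Finset ℕ :=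
  (∏ j ∈ univ.filter (fun j => fl j = true), s j).primeFactors

/-- the average over the signs of the `k`-th power of the local count -/
noncomputable def NBg (fl : J → Bool) (Lc : J → Bool → ℕ → Bool → Bool → Bool → Bool → Prop)
    (k : ℕ) (s : J → ℕ) : ℝ :=
  (1 / 2) ^ (PF fl s).card * ∑ E ∈ (PF fl s).powerset, (NL (∏ j, s j) (LLg Lc s E) : ℝ) ^ k

/-- the local identity at the prime `p` -/
def LocId (P : J → Vk k → Vk k → Bool) (W : J → ℝ) (kc : J → Vk k → Vk k → ℤ)
    (Lc : J → Bool → ℕ → Bool → Bool → Bool → Bool → Prop) (p : ℕ) : Prop :=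
  ∀ (j : J) (v : Vk k) (h g : Fin k → Bool),
    (∏ r, ind (Lc j true p (zb (v r).1) (zb (v r).2) (h r) (g r)) +
      ∏ r, ind (Lc j false p (zb (v r).1) (zb (v r).2) (h r) (g r))) / 2 =
      ∑ x : Vk k, if P j v x = true then W j * Jr (kc j v x) p *
        ∏ r, ((if (x r).1 = 1 then sg (h r) else 1) * (if (x r).2 = 1 then sg (g r) else 1)) else 0

end defs

section big

variable {J : Type} [Fintype J] [DecidableEq J] {z y : ℕ} {k : ℕ}

/-- first bit -/
def c1 (r : Fin k) (x : Option (J × Vk k)) : Bool := x.elim false fun a => zb (a.2 r).1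

/-- second bit -/
def c2 (r : Fin k) (x : Option (J × Vk k)) : Bool := x.elim false fun a => zb (a.2 r).2

/-- first divisor -/
def E1 (ξ : Pr z y → Option (J × Vk k)) (r : Fin k) : ℕ := nb fun p => c1 r (ξ p)

/-- second divisor -/
def E2 (ξ : Pr z y → Option (J × Vk k)) (r : Fin k) : ℕ := nb fun p => c2 r (ξ p)

/-- the tuple -/
def SK (ξ : Pr z y → Option (J × Vk k)) : J → ℕ := Dl fun p => (ξ p).map Prod.fst

lemma E1_dvd (ξ : Pr z y → Option (J × Vk k)) (r : Fin k) : E1 ξ r ∣ ∏ j, SK ξ j := by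
  unfold SK E1
  rw [prod_Dl]
  refine nb_dvd fun p hp => ?_
  cases h : ξ p with
  | none => rw [h] at hp; exact absurd hp (by simp [c1])
  | some a => rfl

lemma E2_dvd (ξ : Pr z y → Option (J × Vk k)) (r : Fin k) : E2 ξ r ∣ ∏ j, SK ξ j := by
  unfold SK E2
  rw [prod_Dl]
  refine nb_dvd fun p hp => ?_
  cases h : ξ p with
  | none => rw [h] at hp; exact absurd hp (by simp [c2])
  | some a => rfl

lemma prod_SK_ne (ξ : Pr z y → Option (J × Vk k)) : ∏ j, SK ξ j ≠ 0 := by
  unfold SK
  rw [prod_Dl]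
  exact nb_ne_zero _

lemma zb_inj {a b : ZMod 2} (h : zb a = zb b) : a = b := by
  revert a b
  decide

lemma zb_ite (q : Bool) : zb (if q = true then 1 else 0) = q := by
  cases q <;> decide

lemma sum_bigk (F : (J → ℕ) → (Fin k → ℕ × ℕ) → ℝ) :
    ∑ s ∈ Tup J z y, ∑ d ∈ Fintype.piFinset
        (fun _ : Fin k => (∏ j, s j).divisors ×ˢ (∏ j, s j).divisors), F s d =
      ∑ ξ : Pr z y → Option (J × Vk k), F (SK ξ) (fun r => (E1 ξ r, E2 ξ r)) := by
  rw [Finset.sum_sigma']
  symm
  refine Finset.sum_bij (fun ξ _ => ⟨SK ξ, fun r => (E1 ξ r, E2 ξ r)⟩) ?_ ?_ ?_ (fun _ _ => rfl)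
  · intro ξ _
    rw [Finset.mem_sigma, Fintype.mem_piFinset]
    refine ⟨Dl_mem _, fun r => ?_⟩
    rw [Finset.mem_product]
    exact ⟨Nat.mem_divisors.2 ⟨E1_dvd ξ r, prod_SK_ne ξ⟩,
      Nat.mem_divisors.2 ⟨E2_dvd ξ r, prod_SK_ne ξ⟩⟩
  · intro ξ _ ξ' _ h
    have h1 : SK ξ = SK ξ' := congrArg Sigma.fst h
    have h2 : (fun r => (E1 ξ r, E2 ξ r)) = (fun r => (E1 ξ' r, E2 ξ' r)) :=
      congrArg Sigma.snd h
    have h3 : ∀ r, E1 ξ r = E1 ξ' r := fun r => congrArg Prod.fst (congrFun h2 r)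
    have h4 : ∀ r, E2 ξ r = E2 ξ' r := fun r => congrArg Prod.snd (congrFun h2 r)
    funext p
    have e1 : (ξ p).map Prod.fst = (ξ' p).map Prod.fst := congrFun (Dl_inj h1) p
    have e2 : ∀ r, c1 r (ξ p) = c1 r (ξ' p) := fun r => congrFun (nb_inj (h3 r)) p
    have e3 : ∀ r, c2 r (ξ p) = c2 r (ξ' p) := fun r => congrFun (nb_inj (h4 r)) p
    cases hx : ξ p with
    | none =>
      cases hx' : ξ' p with
      | none => rfl
      | some a' => rw [hx, hx'] at e1; exact absurd e1 (by simp)
    | some a =>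
      cases hx' : ξ' p with
      | none => rw [hx, hx'] at e1; exact absurd e1 (by simp)
      | some a' =>
        rw [hx, hx'] at e1 e2 e3
        obtain ⟨j, v⟩ := a
        obtain ⟨j', v'⟩ := a'
        have e4 : j = j' := by simpa using e1
        have e5 : v = v' := by
          funext r
          exact Prod.ext (zb_inj (e2 r)) (zb_inj (e3 r))
        rw [e4, e5]
  · rintro ⟨s, d⟩ hs
    rw [Finset.mem_sigma, Fintype.mem_piFinset] at hs
    obtain ⟨hs, hd⟩ := hs
    simp only at hs hd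
    have hd1' : ∀ r, (d r).1 ∣ ∏ j, s j := fun r => (Nat.mem_divisors.1 (mem_product.1 (hd r)).1).1
    have hd2' : ∀ r, (d r).2 ∣ ∏ j, s j := fun r => (Nat.mem_divisors.1 (mem_product.1 (hd r)).2).1
    have hPP : ∏ j, s j ∣ PP z y := by
      rw [← Dl_lab hs, prod_Dl]
      exact nb_dvd_PP _
    have hn : ∀ p : Pr z y, lab s p = none → ¬ (p : ℕ) ∣ ∏ j, s j := by
      intro p hp h
      rw [← Dl_lab hs, prod_Dl, dvd_nb, hp] at h
      exact absurd h (by simp)
    refine ⟨fun p => (lab s p).map fun j => (j, fun r =>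
      (if decide ((p : ℕ) ∣ (d r).1) = true then 1 else 0,
        if decide ((p : ℕ) ∣ (d r).2) = true then 1 else 0)),
      Finset.mem_univ _, ?_⟩
    set ξ : Pr z y → Option (J × Vk k) := fun p => (lab s p).map fun j => (j, fun r =>
      (if decide ((p : ℕ) ∣ (d r).1) = true then 1 else 0,
        if decide ((p : ℕ) ∣ (d r).2) = true then 1 else 0)) with hξ
    have e1 : SK ξ = s := by
      unfold SK
      conv_rhs => rw [← Dl_lab hs]
      congr 1
      funext p
      simp only [hξ]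
      cases lab s p <;> rfl
    have e2 : ∀ r, E1 ξ r = (d r).1 := by
      intro r
      unfold E1
      conv_rhs => rw [← nb_eq ((hd1' r).trans hPP)]
      congr 1
      funext p
      simp only [hξ]
      cases hp : lab s p with
      | none =>
        have : ¬ (p : ℕ) ∣ (d r).1 := fun h => hn p hp (h.trans (hd1' r))
        simp only [c1, Option.map_none, Option.elim]
        exact (decide_eq_false this).symm
      | some j =>
        simp only [c1, Option.map_some, Option.elim]
        exact zb_ite _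
    have e3 : ∀ r, E2 ξ r = (d r).2 := by
      intro r
      unfold E2
      conv_rhs => rw [← nb_eq ((hd2' r).trans hPP)]
      congr 1
      funext p
      simp only [hξ]
      cases hp : lab s p with
      | none =>
        have : ¬ (p : ℕ) ∣ (d r).2 := fun h => hn p hp (h.trans (hd2' r))
        simp only [c2, Option.map_none, Option.elim]
        exact (decide_eq_false this).symm
      | some j =>
        simp only [c2, Option.map_some, Option.elim]
        exact zb_ite _
    rw [e1]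
    congr 1
    funext r
    rw [e2, e3]

end big

section average

variable {J : Type} [Fintype J] [DecidableEq J] {z y : ℕ} {k : ℕ}

/-- the local indicator -/
noncomputable def Ik (Lc : J → Bool → ℕ → Bool → Bool → Bool → Bool → Prop) (s : J → ℕ)
    (d : Fin k → ℕ × ℕ) (neg : Bool) (p : ℕ) : ℝ :=
  ∏ r, ind (∀ j, p ∣ s j →
    Lc j neg p (dv p (d r).1) (dv p (d r).2) (sgn p (d r).1) (sgn p (d r).2))

lemma NBg_eq (fl : J → Bool) (Lc : J → Bool → ℕ → Bool → Bool → Bool → Bool → Prop)
    (hfl : ∀ j, fl j = false → ∀ p v w h g, Lc j true p v w h g = Lc j false p v w h g)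
    {s : J → ℕ} (hs : s ∈ Tup J z y) :
    NBg fl Lc k s = ∑ d ∈ Fintype.piFinset
        (fun _ : Fin k => (∏ j, s j).divisors ×ˢ (∏ j, s j).divisors),
      ∏ p ∈ (∏ j, s j).primeFactors, (Ik Lc s d true p + Ik Lc s d false p) / 2 := by
  classical
  have hne : ∏ j, s j ≠ 0 := Finset.prod_ne_zero_iff.2 fun j _ => (sqf_of_mem hs j).ne_zero
  have h1 : ∀ E : Finset ℕ, (NL (∏ j, s j) (LLg Lc s E) : ℝ) ^ k =
      ∑ d ∈ Fintype.piFinset (fun _ : Fin k => (∏ j, s j).divisors ×ˢ (∏ j, s j).divisors),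
        ∏ p ∈ (∏ j, s j).primeFactors, Ik Lc s d (decide (p ∈ E)) p := by
    intro E
    have h2 : (NL (∏ j, s j) (LLg Lc s E) : ℝ) =
        ∑ d ∈ (∏ j, s j).divisors ×ˢ (∏ j, s j).divisors, ∏ p ∈ (∏ j, s j).primeFactors,
          ind (∀ j, p ∣ s j → Lc j (decide (p ∈ E)) p (dv p d.1) (dv p d.2) (sgn p d.1)
            (sgn p d.2)) := by
      unfold NL
      rw [Finset.card_filter]
      push_cast
      refine Finset.sum_congr rfl fun d _ => ?_
      rw [prod_ind]
      unfold ind LLg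
      congr
    have h3 : (NL (∏ j, s j) (LLg Lc s E) : ℝ) ^ k =
        ∏ _r : Fin k, (NL (∏ j, s j) (LLg Lc s E) : ℝ) := by
      rw [Finset.prod_const, card_univ, Fintype.card_fin]
    rw [h3, h2, Finset.prod_univ_sum]
    refine Finset.sum_congr rfl fun d _ => ?_
    unfold Ik
    rw [Finset.prod_comm]
  unfold NBg
  rw [Finset.sum_congr rfl fun E _ => h1 E, Finset.sum_comm, Finset.mul_sum]
  refine Finset.sum_congr rfl fun d _ => ?_
  refine avg (PF fl s) (∏ j, s j).primeFactors ?_ (Ik Lc s d) ?_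
  · unfold PF
    refine Nat.primeFactors_mono ?_ hne
    exact Finset.prod_dvd_prod_of_subset _ _ _ (Finset.filter_subset _ _)
  · intro p hp hpA
    unfold Ik
    refine Finset.prod_congr rfl fun r _ => ?_
    congr 1
    refine propext (forall_congr' fun j => ?_)
    refine forall_congr' fun hj => ?_
    rw [hfl]
    by_contra hc
    rw [Bool.not_eq_false] at hc
    apply hpA
    unfold PF
    refine Nat.mem_primeFactors.2 ⟨Nat.prime_of_mem_primeFactors hp, ?_, ?_⟩
    · exact hj.trans (Finset.dvd_prod_of_mem _ (Finset.mem_filter.2 ⟨Finset.mem_univ _, hc⟩))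
    · exact Finset.prod_ne_zero_iff.2 fun j _ => (sqf_of_mem hs j).ne_zero

end average

end Pool.Agent.H457.A
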