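import Pool.Agent.H457.A.EPu
import Pool.Agent.H457.A.Expk

set_option autoImplicit false
set_option linter.unusedSectionVars false

/-! The abstract bound for sums of products of Jacobi symbols restricted to typical tuples:
preparations. -/

namespace Pool.Agent.H457.A

open Finset Filter Pool.Agent.W262.RK Pool.Agent.W262.RK.AT Pool.Agent.W655.RK
open Pool.Agent.W762.RK2 (Pr sum_Tup prod_gw Dl)

lemma gw_theta (w θ : ℝ) (c d : ℕ) : gw (w * θ) c d = gw w c d * θ ^ om d := by
  unfold gw om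
  rw [← Finset.prod_const, ← Finset.prod_mul_distrib]
  exact prod_congr rfl fun p _ => by ring

/-- bounds for a general weight -/
structure GB (W : ℝ) (c z : ℕ) (C : ℝ) : Prop where
  C1 : 1 ≤ C
  F1 : ∀ y, z < y → ∑ d ∈ (PP z y).divisors, gw W c d ≤ C * (Real.log y) ^ W
  F2 : ∀ y V : ℕ, z < y → 2 ≤ V →
    ∑ d ∈ (PP z y).divisors.filter (fun d => d ≤ V), gw W c d ≤ C * (Real.log V) ^ W

theorem gb (c : ℕ) : ∃ B : ℝ, 0 ≤ B ∧ ∀ z : ℕ, 2 * c + 2 ≤ z → ∀ W : ℝ, 0 ≤ W →
    GB W c z (Real.exp (W * B)) := by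
  obtain ⟨C0, hC0, hmer⟩ := mertens
  obtain ⟨K, hK, hsq⟩ := sum_inv_sq
  refine ⟨C0 + 2 * c * K, by positivity, fun z hz W hW => ?_⟩
  have hc0 : (0 : ℝ) ≤ c := Nat.cast_nonneg c
  have hp3 : ∀ y, ∀ p ∈ PS z y, (2 * c + 3 : ℝ) ≤ p := fun y p hp => by
    have := PS_lt hp
    exact_mod_cast (by omega : 2 * c + 3 ≤ p)
  have hlog : ∀ y : ℕ, 2 ≤ y → 0 < Real.log y := fun y hy =>
    Real.log_pos (by exact_mod_cast (by omega : 1 < y))
  have main : ∀ y : ℕ, 2 ≤ y → ∑ d ∈ (PP z y).divisors, gw W c d ≤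
      Real.exp (W * (C0 + 2 * c * K)) * (Real.log y) ^ W := by
    intro y hy
    have h1 : ∑ d ∈ (PP z y).divisors, gw W c d = ∏ p ∈ PS z y, (1 + W / ((p : ℝ) - c)) := by
      unfold PP gw
      exact sum_mult (PS z y) (fun p hp => PS_prime hp) (fun p => W / ((p : ℝ) - c))
    rw [h1]
    refine (prod_le_exp _ _ fun p hp => ?_).trans ?_
    · have := hp3 y p hp
      have h2 : 0 ≤ W / ((p : ℝ) - c) := div_nonneg hW (by linarith)
      linarith
    · rw [Real.rpow_def_of_pos (hlog y hy), ← Real.exp_add, Real.exp_le_exp]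
      have h2 : ∀ p ∈ PS z y, W / ((p : ℝ) - c) ≤ W * (1 / (p : ℝ) + 2 * c * (1 / (p : ℝ) ^ 2)) := by
        intro p hp
        have h3 := hp3 y p hp
        have hp0 : (0 : ℝ) < p := by linarith
        have hpc : (0 : ℝ) < (p : ℝ) - c := by linarith
        rw [div_eq_mul_one_div]
        apply mul_le_mul_of_nonneg_left _ hW
        have e : 1 / (p : ℝ) + 2 * c * (1 / (p : ℝ) ^ 2) = (p + 2 * c) / p ^ 2 := by
          field_simp
        rw [e, div_le_div_iff₀ hpc (by positivity)]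
        nlinarith
      calc ∑ p ∈ PS z y, W / ((p : ℝ) - c) ≤
            ∑ p ∈ PS z y, W * (1 / (p : ℝ) + 2 * c * (1 / (p : ℝ) ^ 2)) := sum_le_sum h2
        _ = W * (∑ p ∈ PS z y, 1 / (p : ℝ) + 2 * c * ∑ p ∈ PS z y, 1 / (p : ℝ) ^ 2) := by
            rw [← mul_sum, sum_add_distrib, ← mul_sum]
        _ ≤ W * ((Real.log (Real.log y) + C0) + 2 * c * K) := by
            apply mul_le_mul_of_nonneg_left _ hW
            exact add_le_add (hmer z y hy) (mul_le_mul_of_nonneg_left (hsq _) (by positivity))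
        _ = _ := by ring
  have hnn : ∀ y, ∀ d ∈ (PP z y).divisors, 0 ≤ gw W c d := fun y d hd =>
    gw_nonneg hW (by omega) hd
  refine ⟨Real.one_le_exp (by positivity), fun y hy => main y (by omega), fun y V hy hV => ?_⟩
  have hpf : ∀ y d, d ∈ (PP z y).divisors → d.primeFactors ⊆ PS z y := by
    intro y d hd
    rw [← PP_primeFactors z y]
    exact Nat.primeFactors_mono (Nat.dvd_of_mem_divisors hd) (Nat.mem_divisors.1 hd).2
  have hsub : (PP z y).divisors.filter (fun d => d ≤ V) ⊆ (PP z (min y V)).divisors := by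
    intro d hd
    rw [mem_filter] at hd
    have h1 := hpf y d hd.1
    have h2 : Squarefree d := dv_squarefree hd.1
    rw [Nat.mem_divisors]
    refine ⟨?_, PP_ne_zero _ _⟩
    rw [← Nat.prod_primeFactors_of_squarefree h2]
    refine Finset.prod_dvd_prod_of_subset _ _ _ fun p hp => ?_
    have h3 := h1 hp
    have h4 : p ≤ d := Nat.le_of_mem_primeFactors hp
    exact mem_filter.2 ⟨mem_Ioc.2 ⟨PS_lt h3, le_min (PS_le h3) (h4.trans hd.2)⟩, PS_prime h3⟩
  have hmin2 : 2 ≤ min y V := le_min (by omega) hV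
  refine (sum_le_sum_of_subset_of_nonneg hsub fun d hd _ => hnn _ d hd).trans
    ((main _ hmin2).trans ?_)
  apply mul_le_mul_of_nonneg_left _ (Real.exp_pos _).le
  refine Real.rpow_le_rpow (hlog _ hmin2).le ?_ hW
  exact Real.log_le_log (by exact_mod_cast (by omega : 0 < min y V))
    (by exact_mod_cast min_le_right y V)

section typ

variable {ι J : Type} [Fintype ι] [DecidableEq ι] [Fintype J] [DecidableEq J]

/-- the numbers of the prime factors of the components -/
def Om (pi : ι → J) (d : ι → ℕ) (j : J) : ℕ := ∑ i ∈ univ.filter (fun i => pi i = j), om (d i)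

/-- typical numbers of prime factors -/
def Ty (ε l : ℝ) (n : J → ℕ) : Prop := ∀ j, |(n j : ℝ) - Real.log l| ≤ ε * Real.log l

open Classical in
/-- the restricted summand -/
noncomputable def HT (w : ι → ℝ) (L : ι → ι → Bool) (κ : ι → ℤ) (c : ℕ) (pi : ι → J) (ε l : ℝ)
    (d : ι → ℕ) : ℝ := if Ty ε l (Om pi d) then HH w L κ c d else 0

lemma prod_theta (pi : ι → J) (θ : J → ℝ) (d : ι → ℕ) :
    ∏ j, θ j ^ Om pi d j = ∏ i, θ (pi i) ^ om (d i) := by
  unfold Om
  rw [← Finset.prod_fiberwise univ pi (fun i => θ (pi i) ^ om (d i))]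
  refine prod_congr rfl fun j _ => ?_
  rw [← Finset.prod_pow_eq_pow_sum]
  refine prod_congr rfl fun i hi => ?_
  rw [(mem_filter.1 hi).2]

/-- Rankin's trick -/
lemma rankin_eq (w : ι → ℝ) (c : ℕ) (pi : ι → J) (θ : J → ℝ) (t : ι → Finset ℕ) :
    ∑ d ∈ Fintype.piFinset t, (∏ i, gw (w i) c (d i)) * ∏ j, θ j ^ Om pi d j =
      ∏ i, ∑ m ∈ t i, gw (w i * θ (pi i)) c m := by
  rw [prod_univ_sum]
  refine sum_congr rfl fun d _ => ?_
  rw [prod_theta, ← prod_mul_distrib]
  refine prod_congr rfl fun i _ => ?_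
  rw [gw_theta]

/-- product of the sums over the cells -/
lemma cells_prod {c z : ℕ} (hz : 2 * c + 2 ≤ z) (u : ι → ℝ) (hu : ∀ i, 0 ≤ u i) (A : ℕ)
    (π : ι → Fin 4) (h3 : ∀ k, π k ≠ 3) {a : ℝ}
    (ha : ∑ k ∈ univ.filter (fun k => π k = 2), u k < a) :
    ∃ C' : ℝ, ∀ y, z < y →
      ∏ i, ∑ m ∈ cell z y (VV A (Real.log y)) (YY A (Real.log y)) (π i), gw (u i) c m ≤
        C' * (Real.log y) ^ a := by
  obtain ⟨B, hB0, hB⟩ := gb c
  set S := ∑ k ∈ univ.filter (fun k => π k = 2), u k with hS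
  set S' := ∑ k ∈ univ.filter (fun k => ¬ π k = 2), u k with hS'
  have hS'0 : 0 ≤ S' := sum_nonneg fun i _ => hu i
  obtain ⟨M, hM⟩ := exists_nat_ge S'
  obtain ⟨C1, hC1, h1⟩ := log_VV_pow_le A M (sub_pos.2 ha)
  refine ⟨(∏ i, Real.exp (u i * B)) * C1, fun y hy => ?_⟩
  have hz2 : 2 ≤ z := by omega
  have hly := one_le_log hz2 hy
  have hly0 : 0 < Real.log y := by linarith
  set l := Real.log y with hl
  set V := VV A l with hV
  set Y := YY A l with hY
  have hV3 : 3 ≤ V := three_le_VV A l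
  have hlV : 1 ≤ Real.log V := one_le_log_VV A l
  have hlV0 : 0 < Real.log V := by linarith
  have hcell : ∀ i, ∑ m ∈ cell z y V Y (π i), gw (u i) c m ≤
      Real.exp (u i * B) * (if π i = 2 then l ^ u i else (Real.log V) ^ u i) := by
    intro i
    have hG := hB z hz (u i) (hu i)
    have hnn : ∀ m ∈ (PP z y).divisors, 0 ≤ gw (u i) c m := fun m hm =>
      gw_nonneg (hu i) (by omega) hm
    by_cases h2 : π i = 2
    · rw [if_pos h2]
      exact (sum_le_sum_of_subset_of_nonneg (cell_sub _ _ _ _ _) fun m hm _ => hnn m hm).trans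
        (hG.F1 y hy)
    · rw [if_neg h2]
      have hsub : cell z y V Y (π i) ⊆ (PP z y).divisors.filter (fun d => d ≤ V) := by
        intro m hm
        rw [mem_filter]
        refine ⟨cell_sub _ _ _ _ _ hm, ?_⟩
        have h3i := h3 i
        have : π i = 0 ∨ π i = 1 := by
          revert h2 h3i
          generalize π i = r
          revert r
          decide
        rcases this with h | h
        · rw [h] at hm
          have := cell_zero hm
          omega
        · rw [h] at hm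
          exact (cell_one hm).2
      exact (sum_le_sum_of_subset_of_nonneg hsub fun m hm _ => hnn m (mem_filter.1 hm).1).trans
        (hG.F2 y V hy (by omega))
  have hcell0 : ∀ i ∈ (univ : Finset ι), 0 ≤ ∑ m ∈ cell z y V Y (π i), gw (u i) c m :=
    fun i _ => sum_nonneg fun m hm => gw_nonneg (hu i) (by omega) (cell_sub _ _ _ _ _ hm)
  calc ∏ i, ∑ m ∈ cell z y V Y (π i), gw (u i) c m
      ≤ ∏ i, (Real.exp (u i * B) * (if π i = 2 then l ^ u i else (Real.log V) ^ u i)) :=
        prod_le_prod hcell0 fun i _ => hcell i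
    _ = (∏ i, Real.exp (u i * B)) * (l ^ S * (Real.log V) ^ S') := by
        rw [prod_mul_distrib, prod_ite, ← Real.rpow_sum_of_pos hly0, ← Real.rpow_sum_of_pos hlV0]
    _ ≤ (∏ i, Real.exp (u i * B)) * (l ^ S * (C1 * l ^ (a - S))) := by
        apply mul_le_mul_of_nonneg_left _ (prod_nonneg fun _ _ => (Real.exp_pos _).le)
        apply mul_le_mul_of_nonneg_left _ (by positivity)
        refine le_trans ?_ (h1 l hly)
        rw [← Real.rpow_natCast]
        exact Real.rpow_le_rpow_of_exponent_le hlV hM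
    _ = (∏ i, Real.exp (u i * B)) * C1 * (l ^ S * l ^ (a - S)) := by ring
    _ = _ := by rw [← Real.rpow_add hly0]; congr 2; ring

end typ

end Pool.Agent.H457.A
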