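import Pool.Agent.H457.A.ATt1

set_option autoImplicit false
set_option linter.unusedSectionVars false

/-! The abstract bound restricted to typical tuples: huge and linked variables. Adapted from
`Pool.Agent.W262.RK.AT3`, `AT4`. -/

namespace Pool.Agent.H457.A

open Finset Pool.Agent.W262.RK Pool.Agent.W262.RK.AT Pool.Agent.W655.RK

variable {ι J : Type} [Fintype ι] [DecidableEq ι] [Fintype J] [DecidableEq J]

variable {w : ι → ℝ} {L : ι → ι → Bool} {κ : ι → ℤ} {c z : ℕ} {C : ℝ}

/-- trivial bound -/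
lemma trivT (hw : ∀ i, 0 ≤ w i) (hz : c ≤ z) {y : ℕ} {t : ι → Finset ℕ}
    (ht : ∀ i, t i ⊆ (PP z y).divisors) (pi : ι → J) (ε l : ℝ) :
    |∑ d ∈ Fintype.piFinset t, HT w L κ c pi ε l d| ≤ ∏ i, ∑ m ∈ t i, gw (w i) c m := by
  rw [prod_univ_sum]
  refine (abs_sum_le_sum_abs _ _).trans (sum_le_sum fun d hd => ?_)
  rw [Fintype.mem_piFinset] at hd
  have h1 := abs_HH_le (L := L) (κ := κ) hw hz fun i => ht i (hd i)
  unfold HT
  split_ifs
  · exact h1
  · rw [abs_zero]
    exact prod_nonneg fun i _ => gw_nonneg (hw i) hz (ht i (hd i))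

/-- a huge variable -/
lemma huge_prod (hB : Bd w κ c z C) (A : ℕ) (π : ι → Fin 4) {k : ι}
    (hk : π k = 3) : ∃ C' : ℝ, ∀ y, z < y →
      ∏ i, ∑ m ∈ cell z y (VV A (Real.log y)) (YY A (Real.log y)) (π i), gw (w i) c m ≤ C' := by
  have hcz : c ≤ z := by have := hB.zc; omega
  have hC0 : 0 ≤ C := zero_le_one.trans hB.C1
  refine ⟨C ^ (Fintype.card ι + 1) * (Fintype.card ι + 2).factorial, fun y hy => ?_⟩
  have hly := one_le_log hB.z2 hy
  have hly0 : 0 < Real.log y := by linarith
  set l := Real.log y with hl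
  set V := VV A l with hV
  set Y := YY A l with hY
  have h1 : ∏ i, ∑ m ∈ cell z y V Y (π i), gw (w i) c m ≤
      ∏ i, ∑ m ∈ cell z y V Y (π i), gw (w i) c m * hh m := by
    apply prod_le_prod
    · intro i _
      exact sum_nonneg fun m hm => gw_nonneg (hB.w0 i).le hcz (cell_sub _ _ _ _ _ hm)
    · intro i _
      exact sum_le_sum fun m hm => gw_le_hh hB i (cell_sub _ _ _ _ _ hm)
  refine h1.trans ?_
  rw [← mul_prod_erase univ _ (mem_univ k), hk]
  have h2 : ∑ m ∈ cell z y V Y 3, gw (w k) c m * hh m ≤ C * Real.exp (-l) * l ^ 2 := by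
    have hV3 := three_le_VV A l
    have hVY := VV_le_YY A l
    calc ∑ m ∈ cell z y V Y 3, gw (w k) c m * hh m
        ≤ ∑ m ∈ (PP z y).divisors.filter (fun d => Y < d), gw (w k) c m * hh m := by
          apply sum_le_sum_of_subset_of_nonneg
          · intro m hm
            rw [mem_filter]
            exact ⟨cell_sub _ _ _ _ _ hm, cell_three hm⟩
          · intro m hm _
            exact gh_nonneg hB k (mem_filter.1 hm).1
      _ ≤ C * Real.exp (-(Real.log Y / Real.log y)) * (Real.log y) ^ 2 :=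
          hB.F3 k y Y hy (by omega)
      _ ≤ C * Real.exp (-l) * l ^ 2 := by
          apply mul_le_mul_of_nonneg_right _ (by positivity)
          apply mul_le_mul_of_nonneg_left _ hC0
          apply Real.exp_le_exp.2
          rw [neg_le_neg_iff, le_div_iff₀ hly0]
          have := log_YY_ge A l
          nlinarith
  have h3 : ∏ b ∈ univ.erase k, ∑ m ∈ cell z y V Y (π b), gw (w b) c m * hh m ≤
      (C * l) ^ (Fintype.card ι) := by
    have hCl : 1 ≤ C * l := by nlinarith [hB.C1]
    calc _ ≤ ∏ b ∈ univ.erase k, (C * l) := by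
          apply prod_le_prod
          · intro b _
            exact sum_nonneg fun m hm => gh_nonneg hB b (cell_sub _ _ _ _ _ hm)
          · intro b _
            exact cs_any hB hy V Y b (π b)
      _ = (C * l) ^ (univ.erase k).card := by rw [prod_const]
      _ ≤ _ := by
          apply pow_le_pow_right₀ hCl
          exact (card_le_card (erase_subset _ _)).trans (le_of_eq card_univ)
  have h5 := exp_neg_pow (Fintype.card ι + 2) hly
  calc _ ≤ C * Real.exp (-l) * l ^ 2 * (C * l) ^ (Fintype.card ι) := by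
        apply mul_le_mul h2 h3 _ (by positivity)
        exact prod_nonneg fun b _ => sum_nonneg fun m hm => gh_nonneg hB b (cell_sub _ _ _ _ _ hm)
    _ = C ^ (Fintype.card ι + 1) * (Real.exp (-l) * l ^ (Fintype.card ι + 2)) := by ring
    _ ≤ C ^ (Fintype.card ι + 1) * (Fintype.card ι + 2).factorial :=
        mul_le_mul_of_nonneg_left h5 (by positivity)

lemma pair_inner' (hB : Bd w κ c z C) {C2 : ℝ} {E2 : ℕ} (h2 : BW C2 E2) {i j : ι} (hij : i ≠ j)
    (hLi : L i i = false) (hL1 : L i j = true) (hL2 : L j i = false) {y V Y : ℕ} (hV : 2 ≤ V)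
    (hVY : V ≤ Y) {e : ι → ℕ} (he : ∀ b, e b ∈ (PP z y).divisors) (S1 S2 : Finset ℕ)
    (hS1 : S1 ⊆ lg z y V Y) (hS2 : S2 ⊆ lg z y V Y) :
    |∑ n ∈ S2, ∑ m ∈ S1,
        HH w L κ c (Function.update (Function.update e j n) i m)| ≤
      (∏ k ∈ (univ.erase i).erase j, gw (w k) c (e k)) *
        (C2 * (Real.log Y) ^ E2 * (V : ℝ) ^ (-(1 / 6 : ℝ))) := by
  classical
  have hcz : c ≤ z := by have := hB.zc; omega
  obtain ⟨q, a, b, hq, ha, hb, h⟩ := HH_pair (L := L) hB hij hLi hL1 hL2 he
  have hP0 : 0 ≤ ∏ k ∈ (univ.erase i).erase j, gw (w k) c (e k) :=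
    prod_nonneg fun k _ => gw_nonneg (hB.w0 k).le hcz (he k)
  set a' : ℕ → ℝ := fun m => if m ∈ S1 then gw (w i) c m * a m else 0 with ha'
  set b' : ℕ → ℝ := fun m => if m ∈ S2 then gw (w j) c m * b m else 0 with hb'
  have hsub : lg z y V Y ⊆ Ioc V Y := by
    intro m hm
    rw [mem_Ioc]
    exact (mem_filter.1 hm).2
  have hDv : ∀ m ∈ lg z y V Y, m ∈ (PP z y).divisors := fun m hm => (mem_filter.1 hm).1
  have bd : ∀ (S : Finset ℕ), S ⊆ lg z y V Y → ∀ (k : ι) (f : ℕ → ℝ), (∀ m, |f m| ≤ 1) → ∀ m,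
      |if m ∈ S then gw (w k) c m * f m else 0| ≤ 1 / (m : ℝ) := by
    intro S hS k f hf m
    split_ifs with hm
    · have g0 := gw_nonneg (hB.w0 k).le hcz (hDv m (hS hm))
      rw [abs_mul, abs_of_nonneg g0]
      exact (mul_le_of_le_one_right g0 (hf m)).trans
        (gw_le (hB.w0 k).le (hB.w1 k) hB.zc (hDv m (hS hm)))
    · simp
  have od : ∀ (S : Finset ℕ), S ⊆ lg z y V Y → ∀ (k : ι) (f : ℕ → ℝ) (m : ℕ),
      (if m ∈ S then gw (w k) c m * f m else 0) ≠ 0 → Odd m ∧ Squarefree m := by
    intro S hS k f m hm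
    by_cases h1 : m ∈ S
    · exact ⟨dv_odd hB.z2 (hDv m (hS h1)), dv_squarefree (hDv m (hS h1))⟩
    · rw [if_neg h1] at hm
      exact absurd rfl hm
  have hmain := h2 V Y hV hVY a' b' (bd S1 hS1 i a ha) (bd S2 hS2 j b hb) (od S1 hS1 i a)
    (od S2 hS2 j b)
  have heq : ∑ n ∈ S2, ∑ m ∈ S1,
      HH w L κ c (Function.update (Function.update e j n) i m) =
      q * ∑ m ∈ Ioc V Y, ∑ n ∈ Ioc V Y, a' m * b' n * Jr m n := by
    rw [sum_comm]
    have e1 : ∑ m ∈ Ioc V Y, ∑ n ∈ Ioc V Y, a' m * b' n * Jr m n =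
        ∑ m ∈ S1, ∑ n ∈ S2, a' m * b' n * Jr m n := by
      rw [← sum_subset (hS1.trans hsub)]
      · apply sum_congr rfl
        intro m _
        rw [← sum_subset (hS2.trans hsub)]
        intro n _ hn
        rw [hb']
        simp only
        rw [if_neg hn]
        ring
      · intro m _ hm
        apply sum_eq_zero
        intro n _
        rw [ha']
        simp only
        rw [if_neg hm]
        ring
    rw [e1, mul_sum]
    apply sum_congr rfl
    intro m hm
    rw [mul_sum]
    apply sum_congr rfl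
    intro n hn
    rw [h m (hDv m (hS1 hm)) n (hDv n (hS2 hn)), ha', hb']
    simp only
    rw [if_pos hm, if_pos hn]
    ring
  rw [heq, abs_mul]
  exact mul_le_mul hq hmain (abs_nonneg _) hP0

/-- two linked large variables -/
lemma pair_case' (hB : Bd w κ c z C) {C2 : ℝ} {E2 : ℕ} (hC2 : 0 ≤ C2) (h2 : BW C2 E2) {i j : ι}
    (hij : i ≠ j) (hLi : L i i = false) (hL1 : L i j = true) (hL2 : L j i = false)
    {y V Y : ℕ} (hy : z < y) (hV : 2 ≤ V) (hVY : V ≤ Y) {t : ι → Finset ℕ}
    (ht : ∀ b, t b ⊆ (PP z y).divisors) (hti : t i ⊆ lg z y V Y) (htj : t j ⊆ lg z y V Y) :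
    |∑ d ∈ Fintype.piFinset t, HH w L κ c d| ≤
      (C * Real.log y) ^ (Fintype.card ι) * (C2 * (Real.log Y) ^ E2 * (V : ℝ) ^ (-(1 / 6 : ℝ))) := by
  classical
  have hcz : c ≤ z := by have := hB.zc; omega
  have hC0 : 0 ≤ C := zero_le_one.trans hB.C1
  have hly : 1 ≤ Real.log y := by
    have h3 : 3 ≤ y := by have := hB.z2; omega
    rw [Real.le_log_iff_exp_le (by exact_mod_cast (by omega : 0 < y))]
    have h1 : (3 : ℝ) ≤ y := by exact_mod_cast h3
    have h2 := Real.exp_one_lt_d9
    linarith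
  have hlY : 0 ≤ Real.log Y := Real.log_natCast_nonneg Y
  rw [sum_update t i, sum_update (Function.update t i {1}) j, Function.update_of_ne hij.symm]
  refine (abs_sum_le_sum_abs _ _).trans ?_
  have hQ : 0 ≤ C2 * (Real.log Y) ^ E2 * (V : ℝ) ^ (-(1 / 6 : ℝ)) := by positivity
  have hstep : ∀ e ∈ Fintype.piFinset (Function.update (Function.update t i {1}) j {1}),
      |∑ n ∈ t j, ∑ m ∈ t i,
        HH w L κ c (Function.update (Function.update e j n) i m)| ≤
      (∏ k ∈ univ.erase j, (if k = i then 1 else gw (w k) c (e k))) *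
        (C2 * (Real.log Y) ^ E2 * (V : ℝ) ^ (-(1 / 6 : ℝ))) := by
    intro e he
    have he' : ∀ b, e b ∈ (PP z y).divisors := by
      intro b
      have := Fintype.mem_piFinset.1 he b
      by_cases hb : b = j
      · subst hb
        rw [Function.update_self, mem_singleton] at this
        rw [this]
        exact one_mem_dv z y
      · rw [Function.update_of_ne hb] at this
        by_cases hb' : b = i
        · subst hb'
          rw [Function.update_self, mem_singleton] at this
          rw [this]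
          exact one_mem_dv z y
        · rw [Function.update_of_ne hb'] at this
          exact ht b this
    refine (pair_inner' hB h2 hij hLi hL1 hL2 hV hVY he' (t i) (t j) hti htj).trans ?_
    apply mul_le_mul_of_nonneg_right _ hQ
    apply le_of_eq
    have him : i ∈ univ.erase j := mem_erase.2 ⟨hij, mem_univ i⟩
    rw [← mul_prod_erase _ _ him, if_pos rfl, one_mul]
    have : (univ.erase i).erase j = (univ.erase j).erase i := by
      ext k
      simp only [mem_erase, mem_univ, and_true]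
      tauto
    rw [this]
    apply prod_congr rfl
    intro k hk
    rw [if_neg (mem_erase.1 hk).1]
  refine (sum_le_sum hstep).trans ?_
  rw [← sum_mul, sum_others j (Function.update t i {1}) (fun k m => if k = i then 1 else gw (w k) c m)]
  apply mul_le_mul_of_nonneg_right _ hQ
  have hCl : 1 ≤ C * Real.log y := by nlinarith [hB.C1]
  have hf : ∀ k ∈ univ.erase j, ∑ m ∈ Function.update t i {1} k,
      (if k = i then 1 else gw (w k) c m) ≤ C * Real.log y := by
    intro k _
    by_cases hk : k = i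
    · subst hk
      rw [Function.update_self]
      simpa using hCl
    · rw [Function.update_of_ne hk]
      simp only [if_neg hk]
      calc ∑ m ∈ t k, gw (w k) c m ≤ ∑ m ∈ (PP z y).divisors, gw (w k) c m :=
            sum_le_sum_of_subset_of_nonneg (ht k) fun m hm _ => gw_nonneg (hB.w0 k).le hcz hm
        _ ≤ ∑ m ∈ (PP z y).divisors, gw (w k) c m * hh m := sum_le_sum fun m hm => gw_le_hh hB k hm
        _ ≤ C * (Real.log y) ^ (w k) := hB.F1 k y hy
        _ ≤ C * Real.log y := by
          apply mul_le_mul_of_nonneg_left _ hC0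
          calc (Real.log y) ^ (w k) ≤ (Real.log y) ^ (1 : ℝ) :=
                Real.rpow_le_rpow_of_exponent_le hly (by have := hB.w1 k; linarith)
            _ = Real.log y := Real.rpow_one _
  have hf0 : ∀ k ∈ univ.erase j, 0 ≤ ∑ m ∈ Function.update t i {1} k,
      (if k = i then 1 else gw (w k) c m) := by
    intro k _
    apply sum_nonneg
    intro m hm
    by_cases hk : k = i
    · rw [if_pos hk]; exact zero_le_one
    · rw [if_neg hk]
      rw [Function.update_of_ne hk] at hm
      exact gw_nonneg (hB.w0 k).le hcz (ht k hm)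
  calc ∏ k ∈ univ.erase j, ∑ m ∈ Function.update t i {1} k, (if k = i then 1 else gw (w k) c m)
      ≤ ∏ k ∈ univ.erase j, (C * Real.log y) := prod_le_prod hf0 hf
    _ = (C * Real.log y) ^ (univ.erase j).card := by rw [prod_const]
    _ ≤ (C * Real.log y) ^ (Fintype.card ι) := by
      apply pow_le_pow_right₀ hCl
      exact (card_le_card (erase_subset _ _)).trans (le_of_eq card_univ)

/-- decomposition according to the numbers of prime factors -/
lemma by_om (t : ι → Finset ℕ) (B : ℕ) (hBt : ∀ b, ∀ m ∈ t b, om m ≤ B) (pi : ι → J) (ε l : ℝ) :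
    ∑ d ∈ Fintype.piFinset t, HT w L κ c pi ε l d =
      ∑ a ∈ Fintype.piFinset (fun _ : ι => range (B + 1)),
        if (∀ j, |((∑ i ∈ univ.filter (fun i => pi i = j), a i : ℕ) : ℝ) - Real.log l| ≤
          ε * Real.log l) then
        ∑ d ∈ Fintype.piFinset (fun b => (t b).filter (fun m => om m = a b)), HH w L κ c d else 0 := by
  classical
  rw [← sum_fiberwise_of_maps_to (s := Fintype.piFinset t)
    (t := Fintype.piFinset (fun _ : ι => range (B + 1))) (g := fun d b => om (d b))
    (f := fun d => HT w L κ c pi ε l d)]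
  · apply sum_congr rfl
    intro a _
    have hset : (Fintype.piFinset t).filter (fun d => (fun b => om (d b)) = a) =
        Fintype.piFinset (fun b => (t b).filter (fun m => om m = a b)) := by
      ext d
      simp only [mem_filter, Fintype.mem_piFinset, funext_iff]
      constructor
      · rintro ⟨h1, h2⟩ b
        exact ⟨h1 b, h2 b⟩
      · intro h
        exact ⟨fun b => (h b).1, fun b => (h b).2⟩
    rw [hset]
    have hOm : ∀ d ∈ Fintype.piFinset (fun b => (t b).filter (fun m => om m = a b)),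
        ∀ j, Om pi d j = ∑ i ∈ univ.filter (fun i => pi i = j), a i := by
      intro d hd j
      unfold Om
      apply sum_congr rfl
      intro i _
      exact (mem_filter.1 (Fintype.mem_piFinset.1 hd i)).2
    split_ifs with hT
    · apply sum_congr rfl
      intro d hd
      unfold HT Ty
      rw [if_pos]
      intro j
      rw [hOm d hd j]
      exact hT j
    · apply sum_eq_zero
      intro d hd
      unfold HT Ty
      rw [if_neg]
      intro h
      apply hT
      intro j
      rw [← hOm d hd j]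
      exact h j
  · intro d hd
    rw [Fintype.mem_piFinset] at hd ⊢
    intro b
    rw [mem_range]
    have := hBt b (d b) (hd b)
    omega

lemma om_le_log {m Y : ℕ} (hm : 0 < m) (hY : m ≤ Y) : om m ≤ Nat.log 2 Y := by
  have h1 : 2 ^ om m ≤ m := by
    unfold om
    have h2 : ∏ p ∈ m.primeFactors, p ≤ m := Nat.le_of_dvd hm (Nat.prod_primeFactors_dvd m)
    refine le_trans ?_ h2
    rw [← prod_const]
    exact prod_le_prod' fun p hp => (Nat.prime_of_mem_primeFactors hp).two_le
  exact (Nat.le_log_of_pow_le (by norm_num) (h1.trans hY))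

lemma natlog_le {Y : ℕ} (hY : 1 ≤ Y) : (Nat.log 2 Y : ℝ) ≤ 2 * Real.log Y := by
  have h1 : 2 ^ Nat.log 2 Y ≤ Y := Nat.pow_log_le_self 2 (by omega)
  have h2 : (Nat.log 2 Y : ℝ) * Real.log 2 ≤ Real.log Y := by
    rw [← Real.log_pow]
    exact Real.log_le_log (by positivity) (by exact_mod_cast h1)
  have h3 := Real.log_two_gt_d9
  have h4 : (0 : ℝ) ≤ Nat.log 2 Y := Nat.cast_nonneg _
  nlinarith

/-- two linked large variables -/
lemma link_caseT (hB : Bd w κ c z C) {C2 : ℝ} {E2 : ℕ} (hC2 : 0 ≤ C2) (h2 : BW C2 E2)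
    (hL : ∀ i, L i i = false) {A : ℕ} (hA : 6 * (3 * Fintype.card ι + 2 * E2) ≤ A) (pi : ι → J)
    (ε : ℝ) (π : ι → Fin 4) (h3 : ∀ k, π k ≠ 3) {i j : ι} (hi : π i = 2) (hj : π j = 2)
    (hij : L i j ≠ L j i) :
    ∃ C' : ℝ, ∀ y, z < y →
      |∑ d ∈ Fintype.piFinset (fun b => cell z y (VV A (Real.log y)) (YY A (Real.log y)) (π b)),
        HT w L κ c pi ε (Real.log y) d| ≤ C' := by
  classical
  have hC0 : 0 ≤ C := zero_le_one.trans hB.C1
  refine ⟨(2 * (A + 3) + 1) ^ (Fintype.card ι) * (C ^ (Fintype.card ι) * C2 * (A + 3) ^ E2),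
    fun y hy => ?_⟩
  have hly := one_le_log hB.z2 hy
  have hly0 : 0 < Real.log y := by linarith
  set l := Real.log y with hl
  set V := VV A l with hV
  set Y := YY A l with hY
  have hV3 : 3 ≤ V := three_le_VV A l
  have hVY : V ≤ Y := VV_le_YY A l
  have hne : i ≠ j := by rintro rfl; exact hij rfl
  have hc2 : ∀ b, π b = 2 → cell z y V Y (π b) = lg z y V Y := fun b hb => by
    rw [hb]; exact cell_two (by omega)
  have hlY : Real.log Y ≤ (A + 3) * l ^ 2 := log_YY_le hly
  have hlY0 : 0 ≤ Real.log Y := Real.log_natCast_nonneg Y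
  have hom : ∀ b, ∀ m ∈ cell z y V Y (π b), om m ≤ Nat.log 2 Y := by
    intro b m hm
    refine om_le_log (dv_pos (cell_sub _ _ _ _ _ hm)) ?_
    have h3b := h3 b
    have : π b = 0 ∨ π b = 1 ∨ π b = 2 := by
      revert h3b
      generalize π b = r
      revert r
      decide
    rcases this with h | h | h
    · rw [h] at hm
      have := cell_zero hm
      omega
    · rw [h] at hm
      have := cell_one hm
      omega
    · rw [hc2 b h] at hm
      exact (mem_filter.1 hm).2.2
  rw [by_om _ (Nat.log 2 Y) hom]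
  have hpiece : ∀ a : ι → ℕ, |∑ d ∈ Fintype.piFinset
      (fun b => (cell z y V Y (π b)).filter (fun m => om m = a b)), HH w L κ c d| ≤
      (C * l) ^ (Fintype.card ι) * (C2 * (Real.log Y) ^ E2 * (V : ℝ) ^ (-(1 / 6 : ℝ))) := by
    intro a
    have hs : ∀ b, (cell z y V Y (π b)).filter (fun m => om m = a b) ⊆ (PP z y).divisors :=
      fun b => (filter_subset _ _).trans (cell_sub _ _ _ _ _)
    have hs2 : ∀ b, π b = 2 → (cell z y V Y (π b)).filter (fun m => om m = a b) ⊆ lg z y V Y :=
      fun b hb => (filter_subset _ _).trans (hc2 b hb).subset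
    rcases h1 : L i j with _ | _
    · rcases h1' : L j i with _ | _
      · rw [h1, h1'] at hij; exact absurd rfl hij
      · exact pair_case' hB hC2 h2 hne.symm (hL j) h1' h1 hy (by omega) hVY hs (hs2 j hj) (hs2 i hi)
    · rcases h1' : L j i with _ | _
      · exact pair_case' hB hC2 h2 hne (hL i) h1 h1' hy (by omega) hVY hs (hs2 i hi) (hs2 j hj)
      · rw [h1, h1'] at hij; exact absurd rfl hij
  set Q := (C * l) ^ (Fintype.card ι) * (C2 * (Real.log Y) ^ E2 * (V : ℝ) ^ (-(1 / 6 : ℝ))) with hQ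
  have hQ0 : 0 ≤ Q := by positivity
  have hsum : |∑ a ∈ Fintype.piFinset (fun _ : ι => range (Nat.log 2 Y + 1)),
        if (∀ j, |((∑ i ∈ univ.filter (fun i => pi i = j), a i : ℕ) : ℝ) - Real.log l| ≤
          ε * Real.log l) then
        ∑ d ∈ Fintype.piFinset (fun b => (cell z y V Y (π b)).filter (fun m => om m = a b)),
          HH w L κ c d else 0| ≤ (Nat.log 2 Y + 1 : ℝ) ^ (Fintype.card ι) * Q := by
    refine (abs_sum_le_sum_abs _ _).trans ?_
    refine (sum_le_sum (g := fun _ => Q) fun a _ => ?_).trans (le_of_eq ?_)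
    · split_ifs
      · exact hpiece a
      · rw [abs_zero]; exact hQ0
    · rw [sum_const, Fintype.card_piFinset, prod_const, card_range, card_univ, nsmul_eq_mul]
      push_cast
      rfl
  refine hsum.trans ?_
  have hN : (Nat.log 2 Y + 1 : ℝ) ≤ (2 * (A + 3) + 1) * l ^ 2 := by
    have h4 := natlog_le (Y := Y) (by omega)
    have h5 : 1 ≤ l ^ 2 := one_le_pow₀ hly
    nlinarith
  have h4 : (V : ℝ) ^ (-(1 / 6 : ℝ)) ≤ (l ^ (3 * Fintype.card ι + 2 * E2))⁻¹ := by
    have h5 : l ^ (6 * (3 * Fintype.card ι + 2 * E2)) ≤ V :=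
      (pow_le_pow_right₀ hly hA).trans (VV_ge A l)
    have h6 : (0 : ℝ) < l ^ (6 * (3 * Fintype.card ι + 2 * E2)) := by positivity
    have h7 : (V : ℝ) ^ (-(1 / 6 : ℝ)) ≤ (l ^ (6 * (3 * Fintype.card ι + 2 * E2))) ^ (-(1 / 6 : ℝ)) :=
      Real.rpow_le_rpow_of_nonpos h6 h5 (by norm_num)
    refine h7.trans (le_of_eq ?_)
    rw [← Real.rpow_natCast l, ← Real.rpow_mul hly0.le, ← Real.rpow_natCast l,
      ← Real.rpow_neg hly0.le]
    congr 1
    push_cast
    ring
  have hQle : Q ≤ (C * l) ^ (Fintype.card ι) * (C2 * ((A + 3) * l ^ 2) ^ E2 *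
          (l ^ (3 * Fintype.card ι + 2 * E2))⁻¹) := by
    apply mul_le_mul_of_nonneg_left _ (by positivity)
    apply mul_le_mul _ h4 (by positivity) (by positivity)
    exact mul_le_mul_of_nonneg_left (pow_le_pow_left₀ hlY0 hlY _) hC2
  calc (Nat.log 2 Y + 1 : ℝ) ^ (Fintype.card ι) * Q
      ≤ ((2 * (A + 3) + 1) * l ^ 2) ^ (Fintype.card ι) *
        ((C * l) ^ (Fintype.card ι) * (C2 * ((A + 3) * l ^ 2) ^ E2 *
          (l ^ (3 * Fintype.card ι + 2 * E2))⁻¹)) := by
        apply mul_le_mul _ hQle hQ0 (by positivity)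
        exact pow_le_pow_left₀ (by positivity) hN _
    _ = _ := by
        have e : l ^ (3 * Fintype.card ι + 2 * E2) = (l ^ Fintype.card ι) * (l ^ 2) ^ Fintype.card ι *
            (l ^ 2) ^ E2 := by
          rw [← pow_mul, ← pow_mul, ← pow_add, ← pow_add]
          congr 1
          ring
        rw [e, mul_pow, mul_pow, mul_pow]
        have h1 : l ^ Fintype.card ι ≠ 0 := by positivity
        have h2 : (l ^ 2) ^ Fintype.card ι ≠ 0 := by positivity
        have h3 : (l ^ 2) ^ E2 ≠ 0 := by positivity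
        field_simp

end Pool.Agent.H457.A
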