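import Pool.Agent.H457.A.ATt2

set_option autoImplicit false
set_option linter.unusedSectionVars false

/-! The abstract bound restricted to typical tuples: unlinked large variables. -/

namespace Pool.Agent.H457.A

open Finset Pool.Agent.W262.RK Pool.Agent.W262.RK.AT Pool.Agent.W655.RK

variable {ι J : Type} [Fintype ι] [DecidableEq ι] [Fintype J] [DecidableEq J]

variable {w : ι → ℝ} {L : ι → ι → Bool} {κ : ι → ℤ} {c z : ℕ} {C : ℝ}

/-- the weight of the component `j` -/
def xw (w : ι → ℝ) (pi : ι → J) (U : Finset ι) (j : J) : ℝ := ∑ i ∈ U.filter (fun i => pi i = j), w i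

lemma sum_xw (w : ι → ℝ) (pi : ι → J) (U : Finset ι) : ∑ j, xw w pi U j = ∑ i ∈ U, w i := by
  unfold xw
  exact sum_fiberwise U pi w

lemma sum_xw_theta (w : ι → ℝ) (pi : ι → J) (U : Finset ι) (θ : J → ℝ) :
    ∑ i ∈ U, w i * θ (pi i) = ∑ j, xw w pi U j * θ j := by
  unfold xw
  rw [← sum_fiberwise U pi (fun i => w i * θ (pi i))]
  refine sum_congr rfl fun j _ => ?_
  rw [sum_mul]
  refine sum_congr rfl fun i hi => ?_
  rw [(mem_filter.1 hi).2]

/-- typical tuples and Rankin's trick -/
lemma ty_one_le {ε l : ℝ} (hl : 1 ≤ l) {n : J → ℕ} (h : Ty ε l n) (θ : J → ℝ) (hθ : ∀ j, 0 < θ j) :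
    1 ≤ (∏ j, θ j ^ n j) * l ^ (∑ j, (-Real.log (θ j) + ε * |Real.log (θ j)|)) := by
  have hl0 : 0 < l := by linarith
  have hll : 0 ≤ Real.log l := Real.log_nonneg hl
  have e1 : ∏ j, θ j ^ n j = Real.exp (∑ j, (n j : ℝ) * Real.log (θ j)) := by
    rw [Real.exp_sum]
    refine prod_congr rfl fun j _ => ?_
    rw [mul_comm, Real.exp_mul, Real.exp_log (hθ j), Real.rpow_natCast]
  rw [e1, Real.rpow_def_of_pos hl0, ← Real.exp_add]
  apply Real.one_le_exp
  rw [mul_sum, ← sum_add_distrib]
  apply sum_nonneg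
  intro j _
  have h1 := h j
  have h2 : |((n j : ℝ) - Real.log l) * Real.log (θ j)| ≤ ε * Real.log l * |Real.log (θ j)| := by
    rw [abs_mul]
    exact mul_le_mul_of_nonneg_right h1 (abs_nonneg _)
  have h3 := neg_abs_le (((n j : ℝ) - Real.log l) * Real.log (θ j))
  nlinarith

/-- unlinked large variables, Rankin's trick -/
lemma thetaT (hB : Bd w κ c z C) (hz : 2 * c + 2 ≤ z) (A : ℕ) (pi : ι → J) (ε : ℝ)
    (π : ι → Fin 4) (h3 : ∀ k, π k ≠ 3) (θ : J → ℝ) (hθ : ∀ j, 0 < θ j) {a : ℝ}
    (ha : ∑ j, (xw w pi (univ.filter (fun k => π k = 2)) j * θ j - Real.log (θ j) +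
      ε * |Real.log (θ j)|) < a) :
    ∃ C' : ℝ, ∀ y, z < y →
      |∑ d ∈ Fintype.piFinset (fun b => cell z y (VV A (Real.log y)) (YY A (Real.log y)) (π b)),
        HT w L κ c pi ε (Real.log y) d| ≤ C' * (Real.log y) ^ a := by
  have hcz : c ≤ z := by omega
  set e := ∑ j, (-Real.log (θ j) + ε * |Real.log (θ j)|) with he
  have hS : ∑ k ∈ univ.filter (fun k => π k = 2), w k * θ (pi k) < a - e := by
    rw [sum_xw_theta w pi _ θ]
    have : ∑ j, xw w pi (univ.filter (fun k => π k = 2)) j * θ j + e =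
        ∑ j, (xw w pi (univ.filter (fun k => π k = 2)) j * θ j - Real.log (θ j) +
      ε * |Real.log (θ j)|) := by
      rw [he, ← sum_add_distrib]
      exact sum_congr rfl fun j _ => by ring
    linarith
  obtain ⟨C', hC'⟩ := cells_prod hz (fun i => w i * θ (pi i))
    (fun i => mul_nonneg (hB.w0 i).le (hθ _).le) A π h3 hS
  refine ⟨C', fun y hy => ?_⟩
  have hly := one_le_log hB.z2 hy
  have hly0 : 0 < Real.log y := by linarith
  have h1 := hC' y hy
  set l := Real.log y with hl
  set t : ι → Finset ℕ := fun b => cell z y (VV A l) (YY A l) (π b) with ht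
  have hstep : |∑ d ∈ Fintype.piFinset t, HT w L κ c pi ε l d| ≤
      (∑ d ∈ Fintype.piFinset t, (∏ i, gw (w i) c (d i)) * ∏ j, θ j ^ Om pi d j) * l ^ e := by
    rw [sum_mul]
    refine (abs_sum_le_sum_abs _ _).trans (sum_le_sum fun d hd => ?_)
    rw [Fintype.mem_piFinset] at hd
    have hdv : ∀ i, d i ∈ (PP z y).divisors := fun i => cell_sub _ _ _ _ _ (hd i)
    have h0 : 0 ≤ ∏ i, gw (w i) c (d i) := prod_nonneg fun i _ => gw_nonneg (hB.w0 i).le hcz (hdv i)
    have hθ0 : 0 ≤ ∏ j, θ j ^ Om pi d j := prod_nonneg fun j _ => pow_nonneg (hθ j).le _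
    unfold HT
    split_ifs with hT
    · have h2 := ty_one_le hly hT θ hθ
      have h3 := abs_HH_le (L := L) (κ := κ) (fun i => (hB.w0 i).le) hcz hdv
      calc |HH w L κ c d| ≤ (∏ i, gw (w i) c (d i)) * 1 := by rw [mul_one]; exact h3
        _ ≤ (∏ i, gw (w i) c (d i)) * ((∏ j, θ j ^ Om pi d j) * l ^ e) :=
            mul_le_mul_of_nonneg_left h2 h0
        _ = _ := by ring
    · rw [abs_zero]
      positivity
  refine hstep.trans ?_
  rw [rankin_eq]
  calc (∏ i, ∑ m ∈ t i, gw (w i * θ (pi i)) c m) * l ^ e ≤ C' * l ^ (a - e) * l ^ e :=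
        mul_le_mul_of_nonneg_right h1 (Real.rpow_nonneg hly0.le _)
    _ = C' * l ^ a := by
        rw [mul_assoc, ← Real.rpow_add hly0]
        congr 2
        ring

/-- not typical -/
lemma not_ty_one_le {ε l : ℝ} (hε : 0 < ε) (hε1 : ε < 1) (hl : 1 ≤ l) {n : J → ℕ}
    (h : ¬ Ty ε l n) :
    1 ≤ ∑ j, ((1 + ε) ^ n j * l ^ (-((1 + ε) * Real.log (1 + ε))) +
      (1 - ε) ^ n j * l ^ (-((1 - ε) * Real.log (1 - ε)))) := by
  have hl0 : 0 < l := by linarith
  have hll : 0 ≤ Real.log l := Real.log_nonneg hl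
  unfold Ty at h
  push Not at h
  obtain ⟨j, hj⟩ := h
  have e1 : ∀ (θ : ℝ), 0 < θ → ∀ m : ℕ, θ ^ m * l ^ (-(θ * Real.log θ)) =
      Real.exp (((m : ℝ) - θ * Real.log l) * Real.log θ) := by
    intro θ hθ m
    rw [Real.rpow_def_of_pos hl0, ← Real.rpow_natCast, Real.rpow_def_of_pos hθ, ← Real.exp_add]
    congr 1
    ring
  have h0 : ∀ i ∈ (univ : Finset J), 0 ≤ ((1 + ε) ^ n i * l ^ (-((1 + ε) * Real.log (1 + ε))) +
      (1 - ε) ^ n i * l ^ (-((1 - ε) * Real.log (1 - ε)))) := by
    intro i _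
    have : 0 ≤ 1 - ε := by linarith
    positivity
  refine le_trans ?_ (single_le_sum h0 (mem_univ j))
  rw [e1 (1 + ε) (by linarith), e1 (1 - ε) (by linarith)]
  rcases lt_abs.1 hj with h1 | h1
  · have h2 : 1 ≤ Real.exp (((n j : ℝ) - (1 + ε) * Real.log l) * Real.log (1 + ε)) := by
      apply Real.one_le_exp
      apply mul_nonneg
      · nlinarith
      · exact Real.log_nonneg (by linarith)
    have h3 := Real.exp_pos (((n j : ℝ) - (1 - ε) * Real.log l) * Real.log (1 - ε))
    linarith
  · have h2 : 1 ≤ Real.exp (((n j : ℝ) - (1 - ε) * Real.log l) * Real.log (1 - ε)) := by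
      apply Real.one_le_exp
      apply mul_nonneg_of_nonpos_of_nonpos
      · nlinarith
      · exact Real.log_nonpos (by linarith) (by linarith)
    have h3 := Real.exp_pos (((n j : ℝ) - (1 + ε) * Real.log l) * Real.log (1 + ε))
    linarith

lemma sub_mul_log_lt {θ : ℝ} (hθ : 0 < θ) (h1 : θ ≠ 1) : θ - θ * Real.log θ < 1 := by
  have h2 : Real.log (1 / θ) < 1 / θ - 1 := by
    apply Real.log_lt_sub_one_of_pos (by positivity)
    intro h
    apply h1
    field_simp at h
    linarith
  rw [one_div, Real.log_inv] at h2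
  have h3 := mul_lt_mul_of_pos_left h2 hθ
  have h4 : θ * (θ⁻¹ - 1) = 1 - θ := by
    rw [mul_sub, mul_inv_cancel₀ hθ.ne', mul_one]
  rw [h4] at h3
  linarith

/-- the part of the atypical tuples -/
lemma atypT (hB : Bd w κ c z C) (hz : 2 * c + 2 ≤ z) (A : ℕ) (pi : ι → J) {ε : ℝ} (hε : 0 < ε)
    (hε1 : ε < 1) (π : ι → Fin 4) (h3 : ∀ k, π k ≠ 3)
    (hx : ∀ j, xw w pi (univ.filter (fun k => π k = 2)) j = 1) :
    ∃ (a C' : ℝ), a < Fintype.card J ∧ ∀ y, z < y →
      ∑ d ∈ Fintype.piFinset (fun b => cell z y (VV A (Real.log y)) (YY A (Real.log y)) (π b)),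
        |HH w L κ c d - HT w L κ c pi ε (Real.log y) d| ≤ C' * (Real.log y) ^ a := by
  classical
  have hcz : c ≤ z := by omega
  set N : ℝ := ((Fintype.card J : ℕ) : ℝ) with hN
  -- the exponents
  have key : ∀ θ : ℝ, 0 < θ → θ ≠ 1 → ∀ j : J, ∃ (C' : ℝ), ∀ y, z < y →
      (∏ i, ∑ m ∈ cell z y (VV A (Real.log y)) (YY A (Real.log y)) (π i),
        gw (w i * (if pi i = j then θ else 1)) c m) * (Real.log y) ^ (-(θ * Real.log θ)) ≤
        C' * (Real.log y) ^ ((N + (N - 1 + (θ - θ * Real.log θ))) / 2) := by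
    intro θ hθ hθ1 j
    have hlt := sub_mul_log_lt hθ hθ1
    set a := (N + (N - 1 + (θ - θ * Real.log θ))) / 2 with ha
    have hS : ∑ k ∈ univ.filter (fun k => π k = 2), w k * (if pi k = j then θ else 1) <
        a + θ * Real.log θ := by
      have h1 := sum_xw_theta w pi (univ.filter (fun k => π k = 2)) (fun i => if i = j then θ else 1)
      rw [h1]
      have h2 : ∑ i, xw w pi (univ.filter (fun k => π k = 2)) i * (if i = j then θ else 1) =
          N - 1 + θ := by
        have h4 : ∀ i ∈ (univ : Finset J), xw w pi (univ.filter (fun k => π k = 2)) i *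
            (if i = j then θ else 1) = 1 + (if i = j then θ - 1 else 0) := by
          intro i _
          rw [hx i]
          split_ifs <;> ring
        rw [sum_congr rfl h4, sum_add_distrib, sum_ite_eq' univ j, if_pos (mem_univ j)]
        simp [hN]
        ring
      rw [h2, ha]
      linarith
    obtain ⟨C', hC'⟩ := cells_prod hz (fun i => w i * (if pi i = j then θ else 1))
      (fun i => mul_nonneg (hB.w0 i).le (by split_ifs; exact hθ.le; exact zero_le_one)) A π h3 hS
    refine ⟨C', fun y hy => ?_⟩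
    have hly := one_le_log hB.z2 hy
    have hly0 : 0 < Real.log y := by linarith
    calc _ ≤ C' * (Real.log y) ^ (a + θ * Real.log θ) * (Real.log y) ^ (-(θ * Real.log θ)) :=
          mul_le_mul_of_nonneg_right (hC' y hy) (Real.rpow_nonneg hly0.le _)
      _ = _ := by
          rw [mul_assoc, ← Real.rpow_add hly0]
          congr 2
          ring
  choose Cp hCp using key (1 + ε) (by linarith) (by linarith)
  choose Cm hCm using key (1 - ε) (by linarith) (by linarith)
  have hlt1 := sub_mul_log_lt (θ := 1 + ε) (by linarith) (by linarith)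
  have hlt2 := sub_mul_log_lt (θ := 1 - ε) (by linarith) (by linarith)
  set a1 := (N + (N - 1 + ((1 + ε) - (1 + ε) * Real.log (1 + ε)))) / 2 with ha1
  set a2 := (N + (N - 1 + ((1 - ε) - (1 - ε) * Real.log (1 - ε)))) / 2 with ha2
  refine ⟨max a1 a2, ∑ j, (|Cp j| + |Cm j|), max_lt (by rw [ha1]; linarith) (by rw [ha2]; linarith),
    fun y hy => ?_⟩
  have hly := one_le_log hB.z2 hy
  have hly0 : 0 < Real.log y := by linarith
  have hCp' := fun j => hCp j y hy
  have hCm' := fun j => hCm j y hy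
  set l := Real.log y with hl
  set t : ι → Finset ℕ := fun b => cell z y (VV A l) (YY A l) (π b) with ht
  have hprodθ : ∀ (θ : ℝ) (j : J) (d : ι → ℕ),
      ∏ i, (if i = j then θ else 1) ^ Om pi d i = θ ^ Om pi d j := by
    intro θ j d
    rw [prod_eq_single j]
    · rw [if_pos rfl]
    · intro b _ hb
      rw [if_neg hb, one_pow]
    · intro h; exact absurd (mem_univ j) h
  have hstep : ∑ d ∈ Fintype.piFinset t, |HH w L κ c d - HT w L κ c pi ε l d| ≤
      ∑ j, ((∏ i, ∑ m ∈ t i, gw (w i * (if pi i = j then (1 + ε) else 1)) c m) *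
        l ^ (-((1 + ε) * Real.log (1 + ε))) +
        (∏ i, ∑ m ∈ t i, gw (w i * (if pi i = j then (1 - ε) else 1)) c m) *
        l ^ (-((1 - ε) * Real.log (1 - ε)))) := by
    have h1 : ∀ (θ : ℝ) (j : J), ∏ i, ∑ m ∈ t i, gw (w i * (if pi i = j then θ else 1)) c m =
        ∑ d ∈ Fintype.piFinset t, (∏ i, gw (w i) c (d i)) * θ ^ Om pi d j := by
      intro θ j
      have h2 := rankin_eq w c pi (fun i => if i = j then θ else 1) t
      rw [← h2]
      exact sum_congr rfl fun d _ => by rw [hprodθ]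
    simp only [h1, sum_mul, ← sum_add_distrib]
    rw [sum_comm]
    refine sum_le_sum fun d hd => ?_
    rw [Fintype.mem_piFinset] at hd
    have hdv : ∀ i, d i ∈ (PP z y).divisors := fun i => cell_sub _ _ _ _ _ (hd i)
    have h0 : 0 ≤ ∏ i, gw (w i) c (d i) := prod_nonneg fun i _ => gw_nonneg (hB.w0 i).le hcz (hdv i)
    have h4 : ∑ j, ((∏ i, gw (w i) c (d i)) * (1 + ε) ^ Om pi d j *
        l ^ (-((1 + ε) * Real.log (1 + ε))) + (∏ i, gw (w i) c (d i)) * (1 - ε) ^ Om pi d j *
        l ^ (-((1 - ε) * Real.log (1 - ε)))) = (∏ i, gw (w i) c (d i)) *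
        ∑ j, ((1 + ε) ^ Om pi d j * l ^ (-((1 + ε) * Real.log (1 + ε))) +
          (1 - ε) ^ Om pi d j * l ^ (-((1 - ε) * Real.log (1 - ε)))) := by
      rw [mul_sum]
      exact sum_congr rfl fun j _ => by ring
    rw [h4]
    unfold HT
    split_ifs with hT
    · rw [sub_self, abs_zero]
      apply mul_nonneg h0
      apply sum_nonneg
      intro j _
      have : 0 ≤ 1 - ε := by linarith
      positivity
    · rw [sub_zero]
      have h5 := abs_HH_le (L := L) (κ := κ) (fun i => (hB.w0 i).le) hcz hdv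
      exact h5.trans (le_mul_of_one_le_right h0 (not_ty_one_le hε hε1 hly hT))
  refine hstep.trans ?_
  rw [sum_mul]
  refine sum_le_sum fun j _ => ?_
  have g1 : Cp j * l ^ a1 ≤ |Cp j| * l ^ (max a1 a2) :=
    (mul_le_mul_of_nonneg_right (le_abs_self _) (Real.rpow_nonneg hly0.le _)).trans
      (mul_le_mul_of_nonneg_left (Real.rpow_le_rpow_of_exponent_le hly (le_max_left _ _))
        (abs_nonneg _))
  have g2 : Cm j * l ^ a2 ≤ |Cm j| * l ^ (max a1 a2) :=
    (mul_le_mul_of_nonneg_right (le_abs_self _) (Real.rpow_nonneg hly0.le _)).trans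
      (mul_le_mul_of_nonneg_left (Real.rpow_le_rpow_of_exponent_le hly (le_max_right _ _))
        (abs_nonneg _))
  have g3 := hCp' j
  have g4 := hCm' j
  rw [add_mul (|Cp j|)]
  exact add_le_add (g3.trans g1) (g4.trans g2)

/-- maximal unlinked large variables and a small variable different from 1 -/
lemma max_case' (hB : Bd w κ c z C) (hL : ∀ i, L i i = false) (A : ℕ) (π : ι → Fin 4)
    (h3 : ∀ k, π k ≠ 3) {i j : ι} (hi : π i = 2) (hj : π j = 1) (hij : L i j ≠ L j i)
    (hun : ∀ k, π k = 2 → L i k = L k i) :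
    ∃ C' : ℝ, ∀ y, z < y →
      |∑ d ∈ Fintype.piFinset (fun b => cell z y (VV A (Real.log y)) (YY A (Real.log y)) (π b)),
        HH w L κ c d| ≤
        C' * (Real.log y) ^ (∑ k ∈ univ.filter (fun k => π k = 2), w k - w i / 2) := by
  have hC0 : 0 ≤ C := zero_le_one.trans hB.C1
  have hne : j ≠ i := by rintro rfl; exact hij rfl
  set S := ∑ k ∈ univ.filter (fun k => π k = 2), w k with hS
  set M := Fintype.card ι with hM
  obtain ⟨C1, hC1, h1⟩ := log_VV_pow_le A (M + 1) (half_pos (hB.w0 i))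
  refine ⟨C ^ M * C1 * (C * (M + 1) + C + C * 2), fun y hy => ?_⟩
  have hly := one_le_log hB.z2 hy
  have hly0 : 0 < Real.log y := by linarith
  set l := Real.log y with hl
  set V := VV A l with hV
  set Y := YY A l with hY
  have hV3 : 3 ≤ V := three_le_VV A l
  have hVY : V ≤ Y := VV_le_YY A l
  have hlV : 1 ≤ Real.log V := one_le_log_VV A l
  have hcase := char_case (L := L) hB i (hL i) (V := V) (Y := Y) hy (by omega) hVY
    (t := fun b => cell z y V Y (π b)) (fun b => cell_sub _ _ _ _ _)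
    (by simp only [hi]; exact cell_two (by omega)) M (by
      intro e he
      have hmem : ∀ b, b ≠ i → e b ∈ cell z y V Y (π b) := by
        intro b hb
        have := Fintype.mem_piFinset.1 he b
        rwa [Function.update_of_ne hb] at this
      have hjf : j ∈ (univ.erase i).filter (fun b => L i b ≠ L b i) := by
        rw [mem_filter, mem_erase]
        exact ⟨⟨hne, mem_univ j⟩, hij⟩
      have hje : 1 < e j ∧ e j ≤ V := by
        have := hmem j hne
        rw [hj] at this
        exact cell_one this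
      have hpos : ∀ b ∈ (univ.erase i).filter (fun b => L i b ≠ L b i), 0 < e b ∧ e b ≤ V := by
        intro b hb
        rw [mem_filter, mem_erase] at hb
        have hm := hmem b hb.1.1
        refine ⟨dv_pos (cell_sub _ _ _ _ _ hm), ?_⟩
        have h2 : π b ≠ 2 := fun h => hb.2 (hun b h)
        have : π b = 0 ∨ π b = 1 := by
          have h3b := h3 b
          revert h2 h3b
          generalize π b = r
          revert r
          decide
        rcases this with h | h
        · rw [h] at hm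
          have := cell_zero hm
          omega
        · rw [h] at hm
          exact (cell_one hm).2
      constructor
      · unfold lk
        rw [← mul_prod_erase _ _ hjf]
        have : 0 < ∏ b ∈ ((univ.erase i).filter (fun b => L i b ≠ L b i)).erase j, e b :=
          prod_pos fun b hb => (hpos b (mem_erase.1 hb).2).1
        nlinarith [hje.1]
      · unfold lk
        calc ∏ b ∈ (univ.erase i).filter (fun b => L i b ≠ L b i), e b
            ≤ ∏ b ∈ (univ.erase i).filter (fun b => L i b ≠ L b i), V :=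
              prod_le_prod' fun b hb => (hpos b hb).2
          _ = V ^ ((univ.erase i).filter (fun b => L i b ≠ L b i)).card := by rw [prod_const]
          _ ≤ V ^ M := Nat.pow_le_pow_right (by omega)
              ((card_le_card (subset_univ _)).trans (le_of_eq card_univ)))
  refine hcase.trans ?_
  have hPL := prod_low hB hy (V := V) (Y := Y) hV3 π (univ.erase i) fun k _ => h3 k
  have hsum : ∑ k ∈ (univ.erase i).filter (fun k => π k = 2), w k = S - w i := by
    have : (univ.erase i).filter (fun k => π k = 2) = (univ.filter (fun k => π k = 2)).erase i := by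
      ext k
      simp only [mem_filter, mem_erase, mem_univ, and_true, true_and]
    rw [this, hS, ← add_sum_erase _ _ (show i ∈ univ.filter (fun k => π k = 2) by
      rw [mem_filter]; exact ⟨mem_univ i, hi⟩)]
    ring
  rw [hsum] at hPL
  have hlY : l ≤ Real.log Y / l := by
    rw [le_div_iff₀ hly0]
    have := log_YY_ge A l
    nlinarith
  have hbr : C * (M * Real.log V) ^ (w i) + C * (Real.log V) ^ (w i) +
      C * Real.exp (-(Real.log Y / Real.log y)) * (Real.log y) ^ 2 ≤
      (C * (M + 1) + C + C * 2) * Real.log V := by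
    have hM0 : (0 : ℝ) ≤ M := Nat.cast_nonneg M
    have e1 : (M * Real.log V) ^ (w i) ≤ (M + 1) * Real.log V := by
      have a1 : (M * Real.log V) ^ (w i) ≤ ((M + 1) * Real.log V) ^ (w i) :=
        Real.rpow_le_rpow (by positivity) (by nlinarith) (hB.w0 i).le
      have a2 : 1 ≤ (M + 1) * Real.log V := by nlinarith
      have a3 : ((M + 1) * Real.log V) ^ (w i) ≤ ((M + 1) * Real.log V) ^ (1 : ℝ) :=
        Real.rpow_le_rpow_of_exponent_le a2 (by have := hB.w1 i; linarith)
      rw [Real.rpow_one] at a3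
      exact a1.trans a3
    have e2 : (Real.log V) ^ (w i) ≤ Real.log V := by
      have a3 : (Real.log V) ^ (w i) ≤ (Real.log V) ^ (1 : ℝ) :=
        Real.rpow_le_rpow_of_exponent_le hlV (by have := hB.w1 i; linarith)
      rwa [Real.rpow_one] at a3
    have e3 : Real.exp (-(Real.log Y / l)) * l ^ 2 ≤ 2 := by
      have a1 : Real.exp (-(Real.log Y / l)) ≤ Real.exp (-l) := Real.exp_le_exp.2 (by linarith)
      have a2 := exp_neg_pow 2 hly
      have a3 : ((Nat.factorial 2 : ℕ) : ℝ) = 2 := by norm_num [Nat.factorial]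
      rw [a3] at a2
      exact (mul_le_mul_of_nonneg_right a1 (by positivity)).trans a2
    have e4 : C * Real.exp (-(Real.log Y / l)) * l ^ 2 ≤ C * 2 * Real.log V := by
      have b1 : C * (Real.exp (-(Real.log Y / l)) * l ^ 2) ≤ C * 2 :=
        mul_le_mul_of_nonneg_left e3 hC0
      have b2 : C * 2 ≤ C * 2 * Real.log V := le_mul_of_one_le_right (by positivity) hlV
      calc _ = C * (Real.exp (-(Real.log Y / l)) * l ^ 2) := by ring
        _ ≤ _ := b1.trans b2
    have e5 := mul_le_mul_of_nonneg_left e1 hC0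
    have e6 := mul_le_mul_of_nonneg_left e2 hC0
    calc _ ≤ C * ((M + 1) * Real.log V) + C * Real.log V + C * 2 * Real.log V :=
          add_le_add (add_le_add e5 e6) e4
      _ = _ := by ring
  have hbr0 : 0 ≤ C * (M * Real.log V) ^ (w i) + C * (Real.log V) ^ (w i) +
      C * Real.exp (-(Real.log Y / Real.log y)) * (Real.log y) ^ 2 := by positivity
  have hVp := h1 l hly
  calc _ ≤ (C ^ M * l ^ (S - w i) * (Real.log V) ^ M) *
        ((C * (M + 1) + C + C * 2) * Real.log V) :=
        mul_le_mul hPL hbr hbr0 (by positivity)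
    _ = C ^ M * (C * (M + 1) + C + C * 2) * l ^ (S - w i) * (Real.log V) ^ (M + 1) := by ring
    _ ≤ C ^ M * (C * (M + 1) + C + C * 2) * l ^ (S - w i) * (C1 * l ^ (w i / 2)) :=
        mul_le_mul_of_nonneg_left hVp (by positivity)
    _ = C ^ M * C1 * (C * (M + 1) + C + C * 2) * (l ^ (S - w i) * l ^ (w i / 2)) := by ring
    _ = C ^ M * C1 * (C * (M + 1) + C + C * 2) * l ^ (S - w i / 2) := by
        rw [← Real.rpow_add hly0]; congr 2; ring

end Pool.Agent.H457.A
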