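import Pool.Agent.H457.A.T2a
import Pool.Graph.R_seed8.W340.RT.SVR2
import Pool.Graph.R_seed8.W216.RT.AVH
import Pool.Graph.R_seed8.W29.RT.CNT2
import Pool.Graph.R_seed8.W571.RT.LocM
import Pool.Graph.R_seed8.W571.RT.Rank2
import Pool.Graph.R_seed8.W230.RT.Avg2

set_option autoImplicit false
set_option linter.unusedSectionVars false

/-! The tail of the rank in the families given by binary linear forms, with multiplicities. -/

namespace Pool.Agent.H457.A

open Finset Pool.Agent.W262.RK Pool.Agent.W307.RT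

variable {J : Type} [Fintype J] [DecidableEq J]

/-- the members of the family -/
def TXb (α β : J → ℤ) (X : ℕ) : Finset (ℕ × ℕ) :=
  (Icc 1 X ×ˢ Icc 1 X).filter (fun t : ℕ × ℕ => t.1.Coprime t.2 ∧
    (∀ j, fv α β (t.1 : ℤ) (t.2 : ℤ) j ≠ 0) ∧
    ∀ j, (fv α β (t.1 : ℤ) (t.2 : ℤ) j).natAbs ≤ X ^ 2)

/-- the rank of the member -/
noncomputable def rkb (cls : J → Fin 4) (a : Fin 3 → ℤ) (μ : J → ℕ) (α β : J → ℤ)
    (t : ℕ × ℕ) : ℕ :=
  Module.finrank ℤ (EAB (FM cls a μ (fv α β (t.1 : ℤ) (t.2 : ℤ)) 0)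
    (FM cls a μ (fv α β (t.1 : ℤ) (t.2 : ℤ)) 1)).toAffine.Point

lemma res_of_fv (α β : J → ℤ) (u v : ℤ) (j l : J) :
    Res α β j l * v = α j * fv α β u v l - α l * fv α β u v j ∧
    Res α β j l * u = β l * fv α β u v j - β j * fv α β u v l := by
  unfold Res fv
  constructor <;> ring

lemma fvb_not_dvd {α β : J → ℤ} {z : ℕ} (hB : Bg α β z) {p : ℕ} (hp : p.Prime) (hzp : z < p)
    {t : ℕ × ℕ} (ht : t.1.Coprime t.2) {j l : J} (hjl : j ≠ l)
    (h : (p : ℤ) ∣ fv α β (t.1 : ℤ) (t.2 : ℤ) j ∧ (p : ℤ) ∣ fv α β (t.1 : ℤ) (t.2 : ℤ) l) :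
    False := by
  have hpI : Prime (p : ℤ) := Nat.prime_iff_prime_int.1 hp
  have hR := (hB.2 p hp hzp).2 j l hjl
  obtain ⟨e1, e2⟩ := res_of_fv α β (t.1 : ℤ) (t.2 : ℤ) j l
  have h1 : (p : ℤ) ∣ Res α β j l * (t.2 : ℤ) := by
    rw [e1]
    exact dvd_sub (h.2.mul_left _) (h.1.mul_left _)
  have h2 : (p : ℤ) ∣ Res α β j l * (t.1 : ℤ) := by
    rw [e2]
    exact dvd_sub (h.1.mul_left _) (h.2.mul_left _)
  have h3 : p ∣ t.2 := by
    rcases hpI.dvd_or_dvd h1 with h | h
    · exact absurd h hR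
    · exact_mod_cast h
  have h4 : p ∣ t.1 := by
    rcases hpI.dvd_or_dvd h2 with h | h
    · exact absurd h hR
    · exact_mod_cast h
  have h5 := Nat.dvd_gcd h4 h3
  rw [ht] at h5
  exact hp.one_lt.ne' (Nat.dvd_one.1 h5)

open Classical in
/-- **The tail for positive coprime parameters.** -/
theorem bf_tail (cls : J → Fin 4) (hT : Tri cls) (a : Fin 3 → ℤ) (μ : J → ℕ) (α β : J → ℤ)
    (hcls : ∀ j, cls j ≠ 3) (ha : ∀ k, a k ≠ 0) (hμ : ∀ j, 1 ≤ μ j) (hα : ∀ j, α j ≠ 0)
    (hR : ∀ j l, j ≠ l → Res α β j l ≠ 0) (hev : ∀ k, Even (∑ l ∈ fc cls k, μ l))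
    (hodd : ∀ j, Odd (μ j) ∨ IsSquare (kapM cls a μ α β j))
    (hF : ∀ u v : ℤ, FM cls a μ (fv α β u v) 0 - FM cls a μ (fv α β u v) 1 =
      FM cls a μ (fv α β u v) 2) :
    ∃ C c : ℝ, 0 < C ∧ 0 < c ∧ ∀ r : ℕ, ∀ᶠ X : ℕ in Filter.atTop,
      (((Icc 1 X ×ˢ Icc 1 X).filter (fun t : ℕ × ℕ => t.1.Coprime t.2 ∧
        (∀ j, fv α β (t.1 : ℤ) (t.2 : ℤ) j ≠ 0) ∧ r ≤ rkb cls a μ α β t)).card : ℝ) ≤
        C * Real.exp (-(c * (r * Real.log r))) * X ^ 2 := by
  set κ : J → Fin 3 → ℤ := fun j i => if i = 0 then kapM cls a μ α β j else 1 with hκdef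
  have hκM : ∀ j, kapM cls a μ α β j ≠ 0 := Pool.Agent.W230.RT.kapM_ne ha hR
  have hκ0 : ∀ j i, κ j i ≠ 0 := by
    intro j i
    rw [hκdef]
    simp only
    split_ifs
    · exact hκM j
    · norm_num
  set N := Fintype.card J with hN
  set z : ℕ := (2 * N + 2) + ∑ k, (a k).natAbs + ∑ j, (α j).natAbs +
    ∑ j, ∑ l, (Res α β j l).natAbs + ∑ j, (kapM cls a μ α β j).natAbs with hz
  have hB : Bg α β z := by
    refine ⟨by omega, fun p hp hzp => ⟨fun j h => ?_, fun j l hjl h => ?_⟩⟩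
    · have h1 := Nat.le_of_dvd (Int.natAbs_pos.2 (hα j)) (Int.natCast_dvd.1 h)
      have h2 := single_le_sum (f := fun j => (α j).natAbs) (fun _ _ => Nat.zero_le _) (mem_univ j)
      omega
    · have h1 := Nat.le_of_dvd (Int.natAbs_pos.2 (hR j l hjl)) (Int.natCast_dvd.1 h)
      have h2 := single_le_sum (f := fun l => (Res α β j l).natAbs) (fun _ _ => Nat.zero_le _)
        (mem_univ l)
      have h3 := single_le_sum (f := fun j => ∑ l, (Res α β j l).natAbs) (fun _ _ => Nat.zero_le _)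
        (mem_univ j)
      omega
  have hpa : ∀ p : ℕ, p.Prime → z < p → ∀ k, ¬ (p : ℤ) ∣ a k := by
    intro p hp hzp k h
    have h1 := Nat.le_of_dvd (Int.natAbs_pos.2 (ha k)) (Int.natCast_dvd.1 h)
    have h2 := single_le_sum (f := fun k => (a k).natAbs) (fun _ _ => Nat.zero_le _) (mem_univ k)
    omega
  have hκMz : ∀ j, (kapM cls a μ α β j).natAbs ≤ z := by
    intro j
    have h2 := single_le_sum (f := fun j => (kapM cls a μ α β j).natAbs)
      (fun _ _ => Nat.zero_le _) (mem_univ j)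
    omega
  have hκP : ∀ j, (κ j 0).natAbs * (κ j 1).natAbs * (κ j 2).natAbs ≤ z := by
    intro j
    rw [hκdef]
    simpa using hκMz j
  obtain ⟨C1, K0, y0, hC1, hK0, hcnt⟩ := Pool.Agent.W29.RT.cnt2_of
    Pool.Agent.W340.RT.SVR2.svr2 Pool.Agent.W216.RT.AVH.avh J α β z hB
  obtain ⟨C, c, hC, hc, hmain⟩ := abs_tail J K0 (4 * N)
  set Cc : ℝ := C1 + 1 with hCc
  have hPF : ∀ s : J → ℕ, PF (fl4 cls (fun _ => false)) s = ∅ := by
    intro s
    rw [PF_false]
    unfold P3
    rw [filter_eq_empty_iff.2 (fun j _ => hcls j), prod_empty, Nat.primeFactors_one]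
  have hLL : ∀ s : J → ℕ, ∀ E : Finset ℕ, LLs cls κ s E =
      LLs cls (fun j _ => kapM cls a μ α β j) s E := by
    intro s E
    funext p v w h g
    unfold LLs LL
    have hcases : ∀ j, cls j = 0 ∨ cls j = 1 ∨ cls j = 2 := by
      intro j
      have := hcls j
      revert this
      generalize cls j = c
      revert c
      decide
    apply propext
    refine forall_congr' fun j => imp_congr_right fun hj => ?_
    rcases hcases j with hc | hc | hc
    · rw [if_pos hc, if_pos hc]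
      rw [hκdef]
      simp only [if_true]
    · have h0 : cls j ≠ 0 := by rw [hc]; decide
      rw [if_neg h0, if_neg h0, if_pos hc, if_pos hc]
      rw [hκdef]
      simp only [if_true]
    · have h0 : cls j ≠ 0 := by rw [hc]; decide
      have h1 : cls j ≠ 1 := by rw [hc]; decide
      rw [if_neg h0, if_neg h0, if_neg h1, if_neg h1, if_pos hc, if_pos hc]
      rw [hκdef]
      simp only [if_true]
  have hrank2 : RANK2 := Pool.Agent.W571.RT.rank2_of Pool.Agent.W571.RT.locm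
  have hFam : Fam cls (fun _ => false) κ z (TXb α β)
      (fun t : ℕ × ℕ => fv α β (t.1 : ℤ) (t.2 : ℤ))
      (fun _ _ => (∅ : Finset ℕ)) (rkb cls a μ α β) (fun X : ℕ => (X : ℝ) ^ 2) Cc K0
        y0 (z + 2) (4 * N) :=
    { S0 := fun X => by positivity
      C0 := by positivity
      card := by
        intro X
        have h1 : (TXb α β X).card ≤ X * X := by
          refine (card_le_card (filter_subset _ _)).trans ?_
          rw [card_product]
          simp
        have h2 : ((TXb α β X).card : ℝ) ≤ (X : ℝ) ^ 2 := by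
          rw [sq]
          exact_mod_cast h1
        have h3 : (0 : ℝ) ≤ (X : ℝ) ^ 2 := by positivity
        nlinarith
      good := by
        intro X t ht
        unfold TXb at ht
        rw [mem_filter] at ht
        exact ⟨ht.2.2.1, fun p hp hzp j l hjl h => fvb_not_dvd hB hp hzp ht.2.1 hjl h⟩
      neg_sub := by
        intro t s
        exact empty_subset _
      cnt := by
        intro X y Y hy0 hzy hyX s hs v hv u hu h8 E T' hT' hω
        rw [hPF]
        have h1 := hcnt X y Y hy0 hzy hyX s hs v hv u hu h8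
        have h2 : T' ⊆ (Icc 1 X ×ˢ Icc 1 X).filter (fun t : ℕ × ℕ => t.1.Coprime t.2 ∧
            S1 z y (fv α β (t.1 : ℤ) (t.2 : ℤ)) = s ∧
            S2 z y (fv α β (t.1 : ℤ) (t.2 : ℤ)) = v ∧
            ∀ j, (u j : ℤ) ∣ fv α β (t.1 : ℤ) (t.2 : ℤ) j) := by
          intro t ht
          have h3 := hT' ht
          obtain ⟨e1, e2, e3, -⟩ := hω t ht
          unfold TXb at h3
          rw [mem_filter] at h3 ⊢
          exact ⟨h3.1, h3.2.1, e1, e2, e3⟩
        have h3 : (T'.card : ℝ) ≤ _ := le_trans (by exact_mod_cast card_le_card h2) h1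
        refine h3.trans ?_
        have hcz : N ≤ z := by omega
        have hg : 0 ≤ (X : ℝ) ^ 2 * (∏ j, gw 1 N (s j)) *
            (∏ j, gw 1 N (v j) / v j) * (∏ j, 1 / (u j : ℝ)) / (Real.log y) ^ N := by
          apply div_nonneg _ (pow_nonneg (Real.log_natCast_nonneg _) _)
          refine mul_nonneg (mul_nonneg (mul_nonneg (by positivity)
            (prod_nonneg fun j _ => gw_nn hcz hs j)) (prod_nonneg fun j _ =>
              div_nonneg (gw_nn hcz hv j) (Nat.cast_nonneg _)))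
            (prod_nonneg fun j _ => by positivity)
        have e1 : C1 * (X : ℝ) ^ 2 * (∏ j, gw 1 N (s j)) *
            (∏ j, gw 1 N (v j) / v j) * (∏ j, 1 / (u j : ℝ)) / (Real.log y) ^ N =
            C1 * ((X : ℝ) ^ 2 * (∏ j, gw 1 N (s j)) *
            (∏ j, gw 1 N (v j) / v j) * (∏ j, 1 / (u j : ℝ)) / (Real.log y) ^ N) := by ring
        have e2 : Cc * (X : ℝ) ^ 2 * (1 / 2) ^ (∅ : Finset ℕ).card * (∏ j, gw 1 N (s j)) *
            (∏ j, gw 1 N (v j) / v j) * (∏ j, 1 / (u j : ℝ)) / (Real.log y) ^ N =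
            Cc * ((X : ℝ) ^ 2 * (∏ j, gw 1 N (s j)) *
            (∏ j, gw 1 N (v j) / v j) * (∏ j, 1 / (u j : ℝ)) / (Real.log y) ^ N) := by
          rw [card_empty, pow_zero]
          ring
        rw [e1, e2]
        exact mul_le_mul_of_nonneg_right (by rw [hCc]; linarith) hg
      rank := by
        intro X y k' hy hzy hXy t ht
        unfold TXb at ht
        rw [mem_filter] at ht
        obtain ⟨ht1, htc, ht0, htX⟩ := ht
        have hX1 : 1 ≤ X := by
          have := (mem_Icc.1 (mem_product.1 ht1).1)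
          omega
        have hcop : IsCoprime (t.1 : ℤ) (t.2 : ℤ) := Nat.isCoprime_iff_coprime.2 htc
        have hr := hrank2 J cls a μ α β z hcls ha hμ hB hpa hev hκM hκMz hodd hF X y k'
          (t.1 : ℤ) (t.2 : ℤ) hcop ht0 htX hX1 hy hXy
        rw [LC4_false, hLL]
        have e : (2 : ℝ) ^ (4 * N * k') = (16 ^ N) ^ k' := by
          rw [← pow_mul, show (16 : ℝ) = 2 ^ 4 by norm_num, ← pow_mul]
          congr 1
          ring
        rw [e]
        have hr' : ((2 ^ rkb cls a μ α β t : ℕ) : ℝ) ≤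
            ((4 ^ (z + 2) * (16 ^ Fintype.card J) ^ k' *
            4 ^ (∑ j, (S2 z y (fv α β (t.1 : ℤ) (t.2 : ℤ)) j).primeFactors.card) *
            NL (∏ j, S1 z y (fv α β (t.1 : ℤ) (t.2 : ℤ)) j)
              (LLs cls (fun j _ => kapM cls a μ α β j)
              (S1 z y (fv α β (t.1 : ℤ) (t.2 : ℤ))) ∅) : ℕ) : ℝ) := by exact_mod_cast hr
        push_cast at hr'
        exact hr' }
  -- the constants for the small `r`
  set r1 : ℕ := 8 * (z + 2) with hr1
  set C' : ℝ := C * Cc + Real.exp (c * (r1 * Real.log r1)) with hC'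
  have hCc0 : 0 < Cc := by positivity
  refine ⟨C', c, by positivity, hc, fun r => ?_⟩
  rcases Nat.lt_or_ge r r1 with hrr | hrr
  · filter_upwards with X
    have h1 : (((Icc 1 X ×ˢ Icc 1 X).filter (fun t : ℕ × ℕ => t.1.Coprime t.2 ∧
        (∀ j, fv α β (t.1 : ℤ) (t.2 : ℤ) j ≠ 0) ∧ r ≤ rkb cls a μ α β t)).card : ℝ) ≤
        (X : ℝ) ^ 2 := by
      have : ((Icc 1 X ×ˢ Icc 1 X).filter (fun t : ℕ × ℕ => t.1.Coprime t.2 ∧
        (∀ j, fv α β (t.1 : ℤ) (t.2 : ℤ) j ≠ 0) ∧ r ≤ rkb cls a μ α β t)).card ≤ X * X := by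
        refine (card_le_card (filter_subset _ _)).trans ?_
        rw [card_product]
        simp
      rw [sq]
      exact_mod_cast this
    refine h1.trans ?_
    have h2 : (r : ℝ) * Real.log r ≤ r1 * Real.log r1 := by
      rcases Nat.eq_zero_or_pos r with h | h
      · subst h
        simp only [Nat.cast_zero, Real.log_zero, mul_zero]
        exact mul_nonneg (Nat.cast_nonneg _) (Real.log_natCast_nonneg _)
      · have hr1 : (0 : ℝ) < r := by exact_mod_cast h
        have hr2 : (r : ℝ) ≤ r1 := by exact_mod_cast hrr.le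
        exact mul_le_mul hr2 (Real.log_le_log hr1 hr2) (Real.log_natCast_nonneg _)
          (Nat.cast_nonneg _)
    have h3 : 1 ≤ C' * Real.exp (-(c * (r * Real.log r))) := by
      calc (1 : ℝ) = Real.exp (c * (r * Real.log r)) * Real.exp (-(c * (r * Real.log r))) := by
            rw [← Real.exp_add]; simp
        _ ≤ _ := by
            apply mul_le_mul_of_nonneg_right _ (Real.exp_pos _).le
            have := Real.exp_le_exp.2 (mul_le_mul_of_nonneg_left h2 hc.le)
            have h5 : 0 < C * Cc := by positivity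
            rw [hC']
            linarith
    have h4 : (0 : ℝ) ≤ (X : ℝ) ^ 2 := by positivity
    nlinarith
  · have hm := hmain cls (fun _ => false) κ z (ℕ × ℕ) (TXb α β)
      (fun t : ℕ × ℕ => fv α β (t.1 : ℤ) (t.2 : ℤ))
      (fun _ _ => (∅ : Finset ℕ)) (rkb cls a μ α β) (fun X : ℕ => (X : ℝ) ^ 2) Cc
        y0 (z + 2) hT (by omega) hκ0 hκP hFam r hrr
    filter_upwards [hm, Filter.eventually_ge_atTop
      (∑ j, ((α j).natAbs + (β j).natAbs) + 1)] with X hX hXge
    have h1 : (Icc 1 X ×ˢ Icc 1 X).filter (fun t : ℕ × ℕ => t.1.Coprime t.2 ∧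
        (∀ j, fv α β (t.1 : ℤ) (t.2 : ℤ) j ≠ 0) ∧ r ≤ rkb cls a μ α β t) ⊆
        (TXb α β X).filter (fun t : ℕ × ℕ => r ≤ rkb cls a μ α β t) := by
      intro t ht
      unfold TXb
      rw [mem_filter] at ht
      rw [mem_filter, mem_filter]
      refine ⟨⟨ht.1, ht.2.1, ht.2.2.1, fun j => ?_⟩, ht.2.2.2⟩
      unfold fv
      have h3 := Int.natAbs_add_le (α j * (t.1 : ℤ)) (β j * (t.2 : ℤ))
      rw [Int.natAbs_mul, Int.natAbs_mul, Int.natAbs_natCast, Int.natAbs_natCast] at h3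
      have h4 := single_le_sum (f := fun j => (α j).natAbs + (β j).natAbs)
        (fun _ _ => Nat.zero_le _) (mem_univ j)
      have ht1 := mem_product.1 ht.1
      have h5 := (mem_Icc.1 ht1.1).2
      have h6 := (mem_Icc.1 ht1.2).2
      have h7 : (α j).natAbs + (β j).natAbs ≤ X := by
        omega
      calc (α j * (t.1 : ℤ) + β j * (t.2 : ℤ)).natAbs
          ≤ (α j).natAbs * t.1 + (β j).natAbs * t.2 := h3
        _ ≤ (α j).natAbs * X + (β j).natAbs * X := by
            exact Nat.add_le_add (Nat.mul_le_mul_left _ h5) (Nat.mul_le_mul_left _ h6)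
        _ = ((α j).natAbs + (β j).natAbs) * X := by ring
        _ ≤ X * X := Nat.mul_le_mul_right _ h7
        _ = X ^ 2 := (sq X).symm
    have h2 : (((Icc 1 X ×ˢ Icc 1 X).filter (fun t : ℕ × ℕ => t.1.Coprime t.2 ∧
        (∀ j, fv α β (t.1 : ℤ) (t.2 : ℤ) j ≠ 0) ∧ r ≤ rkb cls a μ α β t)).card : ℝ) ≤
        ((TXb α β X).filter (fun t : ℕ × ℕ => r ≤ rkb cls a μ α β t)).card := by
      exact_mod_cast card_le_card h1
    refine h2.trans (hX.trans ?_)
    apply mul_le_mul_of_nonneg_right _ (by positivity)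
    apply mul_le_mul_of_nonneg_right _ (Real.exp_pos _).le
    rw [hC']
    have := Real.exp_pos (c * (r1 * Real.log r1))
    linarith

end Pool.Agent.H457.A
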