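import Pool.Agent.H457.A.BF2
import Pool.Graph.R_seed8.W307.RT.Main6

/-!
# The tail of the rank over all elliptic curves over `ℚ` with a subgroup `Z/2 x Z/6`, by height
-/

set_option autoImplicit false

namespace Pool.Agent.H457.A

open Finset Filter Pool.Agent.W262.RK Pool.Agent.W307.RT

open Classical in
/-- the curves of rank at least `r` -/
noncomputable def CRm (m r H : ℕ) : Finset (ℤ × ℤ) :=
  (Cv m H).filter (fun c => r ≤ Module.finrank ℤ (Sh c.1 c.2).toAffine.Point)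

/-- from the box to the curves -/
lemma final_tail {m k : ℕ} {M N : ℤ → ℤ → ℤ} (hk : 1 ≤ k) (hP : PAR m k M N) (hL : LOW m k)
    (S : ℕ → ℕ → Finset (ℤ × ℤ))
    (hS : ∀ r T : ℕ, ∀ t : ℤ × ℤ, t ∈ Box T → IsCoprime t.1 t.2 → M t.1 t.2 ≠ 0 → N t.1 t.2 ≠ 0 →
      M t.1 t.2 ≠ N t.1 t.2 →
      r ≤ Module.finrank ℤ (EAB (-(M t.1 t.2)) (-(N t.1 t.2))).toAffine.Point → t ∈ S r T)
    (hbox : ∃ C c : ℝ, 0 < C ∧ 0 < c ∧ ∀ r : ℕ, ∀ᶠ T : ℕ in Filter.atTop,
      ((S r T).card : ℝ) ≤ C * Real.exp (-(c * (r * Real.log r))) * T ^ 2) :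
    ∃ C c : ℝ, 0 < C ∧ 0 < c ∧ ∀ r : ℕ, ∀ᶠ H : ℕ in atTop,
      ((CRm m r H).card : ℝ) ≤ C * Real.exp (-(c * (r * Real.log r))) * (Cv m H).card := by
  classical
  obtain ⟨C0', F, hF⟩ := hP
  obtain ⟨c1, C1, T0, hc1, hlow⟩ := hL
  obtain ⟨C, c, hC, hc, hb⟩ := hbox
  set C0 := C0' + 1 with hC0
  set D := C0 * C1 + 1 with hD
  have hD1 : 1 ≤ D := by omega
  have hDR : (0 : ℝ) < D := by exact_mod_cast hD1
  refine ⟨C * (2 * (D : ℝ)) ^ 2 / c1, c, by positivity, hc, fun r => ?_⟩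
  obtain ⟨M1, hM1⟩ := eventually_atTop.1 (hb r)
  filter_upwards [eventually_ge_atTop ((M1 + D * (T0 + 1) + 1) ^ k)] with H hH
  set T := Nat.findGreatest (fun t => t ^ k ≤ C0 * H) (C0 * H) with hT
  have hle : ∀ x : ℕ, x ^ k ≤ C0 * H → x ≤ T := by
    intro x hx
    apply Nat.le_findGreatest
    · exact (Nat.le_self_pow (by omega) x).trans hx
    · exact hx
  have hTk : T ^ k ≤ C0 * H := by
    have : (fun t => t ^ k ≤ C0 * H) T :=
      Nat.findGreatest_spec (P := fun t => t ^ k ≤ C0 * H) (Nat.zero_le _)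
        (by rw [zero_pow (by omega)]; exact Nat.zero_le _)
    exact this
  have hTM : M1 + D * (T0 + 1) + 1 ≤ T := by
    apply hle
    exact hH.trans (Nat.le_mul_of_pos_left _ (by omega))
  -- the map into the pairs
  have hcard : (CRm m r H).card ≤ (S r T).card := by
    apply card_le_card_of_injOn F
    · intro x hx
      rw [Finset.mem_coe, CRm, mem_filter] at hx
      obtain ⟨hx1, hx2⟩ := hx
      obtain ⟨a0, a1, a2, a3, a4, a5, a6⟩ := (hF H).2 x hx1
      have b1 : (F x).1.natAbs ≤ T :=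
        hle _ (a4.trans (Nat.mul_le_mul_right _ (by omega)))
      have b2 : (F x).2.natAbs ≤ T :=
        hle _ (a5.trans (Nat.mul_le_mul_right _ (by omega)))
      rw [Finset.mem_coe]
      exact hS r T (F x) (mem_Box.2 ⟨b1, b2⟩) a0 a1 a2 a3 (by rw [← a6]; exact hx2)
    · intro x hx y hy hxy
      rw [Finset.mem_coe, CRm, mem_filter] at hx hy
      exact (hF H).1 hx.1 hy.1 hxy
  have h1 : ((CRm m r H).card : ℝ) ≤ C * Real.exp (-(c * (r * Real.log r))) * (T : ℝ) ^ 2 :=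
    le_trans (by exact_mod_cast hcard) (hM1 T (by omega))
  set T' := T / D with hT'
  have hT'0 : T0 + 1 ≤ T' := by
    rw [hT', Nat.le_div_iff_mul_le hD1, mul_comm]
    omega
  have h2 : T' * D ≤ T := Nat.div_mul_le_self T D
  have h3 : C1 * T' ^ k ≤ H := by
    have a1 : (T' * D) ^ k ≤ C0 * H := (Nat.pow_le_pow_left h2 k).trans hTk
    rw [mul_pow] at a1
    have a2 : D ≤ D ^ k := Nat.le_self_pow (by omega) D
    have a3 : T' ^ k * (C0 * C1) ≤ C0 * H :=
      (Nat.mul_le_mul_left _ (by omega : C0 * C1 ≤ D ^ k)).trans a1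
    have a4 : C0 * (C1 * T' ^ k) ≤ C0 * H := by
      calc C0 * (C1 * T' ^ k) = T' ^ k * (C0 * C1) := by ring
        _ ≤ _ := a3
    exact Nat.le_of_mul_le_mul_left a4 (by omega)
  have h4 := hlow T' H (by omega) h3
  have h5 : T ≤ 2 * D * T' := by
    have a1 : T < D * (T' + 1) := by
      rw [mul_comm]
      exact Nat.lt_mul_of_div_lt (by rw [← hT']; omega) hD1
    have a2 : D * (T' + 1) ≤ 2 * D * T' := by nlinarith
    omega
  have h6 : (T : ℝ) ≤ 2 * D * T' := by exact_mod_cast h5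
  set E := Real.exp (-(c * (r * Real.log r))) with hE
  have hE0 : 0 < E := Real.exp_pos _
  calc _ ≤ C * E * (T : ℝ) ^ 2 := h1
    _ ≤ C * E * (2 * D * T') ^ 2 := by
      apply mul_le_mul_of_nonneg_left _ (by positivity)
      exact pow_le_pow_left₀ (Nat.cast_nonneg T) h6 2
    _ = C * (2 * (D : ℝ)) ^ 2 / c1 * E * (c1 * (T' : ℝ) ^ 2) := by
      field_simp
    _ ≤ _ := mul_le_mul_of_nonneg_left h4 (by positivity)

/-- the natural forms for `Z/2 x Z/6` -/
def a6' : Fin 6 → ℤ := ![1, 1, 0, 2, 1, 1]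
/-- the natural forms for `Z/2 x Z/6` -/
def b6' : Fin 6 → ℤ := ![0, 2, 1, 1, -1, 1]

lemma FM60' (u v : ℤ) : FM c6 (fun _ => -1) m6 (fv a6' b6' u v) 0 = -(M6 u v) := by
  unfold FM M6
  rw [fc60, prod_pair (by decide)]
  change (-1 : ℤ) * ((1 * u + 0 * v) ^ 3 * (1 * u + 2 * v) ^ 1) = _
  ring

lemma FM61' (u v : ℤ) : FM c6 (fun _ => -1) m6 (fv a6' b6' u v) 1 = -(N6 u v) := by
  unfold FM N6
  rw [fc61, prod_pair (by decide)]
  change (-1 : ℤ) * ((0 * u + 1 * v) ^ 3 * (2 * u + 1 * v) ^ 1) = _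
  ring

lemma FM62' (u v : ℤ) : FM c6 (fun _ => -1) m6 (fv a6' b6' u v) 2 =
    -(M6 u v) + N6 u v := by
  unfold FM M6 N6
  rw [fc62, prod_pair (by decide)]
  change (-1 : ℤ) * ((1 * u + -1 * v) ^ 1 * (1 * u + 1 * v) ^ 3) = _
  ring

lemma tri6 : Tri c6 := by
  left
  unfold nc c6
  decide

/-- **All the curves with a subgroup `Z/2 x Z/6`.** -/
theorem height_tail6 : ∃ C c : ℝ, 0 < C ∧ 0 < c ∧ ∀ r : ℕ, ∀ᶠ H : ℕ in atTop,
    ((CRm 6 r H).card : ℝ) ≤ C * Real.exp (-(c * (r * Real.log r))) * (Cv 6 H).card := by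
  classical
  refine final_tail (by norm_num) (Pool.Agent.W135.RT.par6_of Pool.Agent.W261.RT.iso)
    Pool.Agent.W376.RTL.low6
    (fun r T => (Box T).filter (Bz c6 (fun _ => -1) m6 a6' b6' r)) ?_
    (bf_box c6 tri6 (fun _ => -1) m6 a6' b6' (by decide) (by decide) (by decide)
      (by decide) (by decide) (by decide) (fun j => Or.inl (by revert j; decide))
      (fun u v => by rw [FM60', FM61', FM62']; ring))
  intro r T t ht hco hM hN hMN hr
  rw [mem_filter]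
  refine ⟨ht, hco, ?_, ?_⟩
  · intro k
    fin_cases k
    · change FM c6 _ m6 _ 0 ≠ 0
      rw [FM60']
      exact neg_ne_zero.2 hM
    · change FM c6 _ m6 _ 1 ≠ 0
      rw [FM61']
      exact neg_ne_zero.2 hN
    · change FM c6 _ m6 _ 2 ≠ 0
      rw [FM62']
      intro h
      exact hMN (by linarith)
  · unfold rkz
    rw [FM60', FM61']
    exact hr

end Pool.Agent.H457.A
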