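import Pool.Agent.H457.A.T1h

set_option autoImplicit false
set_option linter.unusedSectionVars false

/-! All the pairs: the theorem. -/

namespace Pool.Agent.H457.A

open Finset Pool.Agent.W262.RK Pool.Agent.W307.RT Pool.Agent.W29.RT

lemma sum_sq1 (n : ℕ) : ∑ D ∈ Icc 1 n, (1 : ℝ) / (D : ℝ) ^ 2 ≤ 2 := by
  rcases Nat.eq_zero_or_pos n with h | h
  · subst h
    simp
  have h1 : Icc 1 n = insert 1 (Ioc 1 n) := by
    ext x
    simp only [mem_Icc, mem_insert, mem_Ioc]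
    omega
  rw [h1, sum_insert (by simp)]
  have h2 := sum_Ioc_inv_sq_le_sub (α := ℝ) (k := 1) (n := n) one_ne_zero h
  have h3 : ∑ D ∈ Ioc 1 n, (1 : ℝ) / (D : ℝ) ^ 2 = ∑ D ∈ Ioc 1 n, ((D : ℝ) ^ 2)⁻¹ :=
    sum_congr rfl fun D _ => one_div _
  rw [h3]
  have h4 : (0 : ℝ) ≤ (n : ℝ)⁻¹ := by positivity
  have h5 : (1 : ℝ) / ((1 : ℕ) : ℝ) ^ 2 = 1 := by norm_num
  have h6 : (((1 : ℕ) : ℝ))⁻¹ = 1 := by norm_num
  rw [h6] at h2
  rw [h5]
  linarith

lemma sum_sq2 {k : ℕ} (hk : 0 < k) (n : ℕ) :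
    ∑ D ∈ Icc (k + 1) n, (1 : ℝ) / (D : ℝ) ^ 2 ≤ 1 / k := by
  rcases Nat.lt_or_ge n k with h | h
  · rw [Icc_eq_empty (by omega), sum_empty]
    positivity
  have h1 : Icc (k + 1) n = Ioc k n := by
    ext x
    simp only [mem_Icc, mem_Ioc]
    omega
  rw [h1]
  have h2 := sum_Ioc_inv_sq_le_sub (α := ℝ) (k := k) (n := n) hk.ne' h
  have h3 : ∑ D ∈ Ioc k n, (1 : ℝ) / (D : ℝ) ^ 2 = ∑ D ∈ Ioc k n, ((D : ℝ) ^ 2)⁻¹ :=
    sum_congr rfl fun D _ => one_div _
  rw [h3, one_div]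
  have h4 : (0 : ℝ) ≤ (n : ℝ)⁻¹ := by positivity
  linarith

/-- **The tail of the rank over all the pairs.** -/
theorem pairs_tail : ∃ C c : ℝ, 0 < C ∧ 0 < c ∧ ∀ r : ℕ, ∀ᶠ T : ℕ in Filter.atTop,
    ((SR r T).card : ℝ) ≤ C * Real.exp (-(c * (r * Real.log r))) * T ^ 2 := by
  classical
  obtain ⟨C1, c, hC1, hc, hc128, r0, hr0, hper⟩ := perD
  set C2 : ℝ := 72 * C1 + 5 with hC2
  refine ⟨C2 + 9 * Real.exp (c * (r0 * Real.log r0)), c, by positivity, hc, fun r => ?_⟩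
  rcases Nat.lt_or_ge r r0 with hrr | hrr
  · -- small `r`
    filter_upwards [Filter.eventually_ge_atTop 1] with T hT
    have hTr : (1 : ℝ) ≤ T := by exact_mod_cast hT
    have h1 : ((SR r T).card : ℝ) ≤ 9 * (T : ℝ) ^ 2 := by
      have h2 : (SR r T).card ≤ (2 * T + 1) * (2 * T + 1) := by
        unfold SR
        refine (card_le_card (filter_subset _ _)).trans ?_
        rw [card_product, Int.card_Icc]
        have : ((T : ℤ) + 1 - -(T : ℤ)).toNat = 2 * T + 1 := by omega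
        rw [this]
      have h3 : ((SR r T).card : ℝ) ≤ (2 * T + 1) * (2 * T + 1) := by exact_mod_cast h2
      nlinarith
    refine h1.trans ?_
    have h2 : (r : ℝ) * Real.log r ≤ r0 * Real.log r0 := by
      rcases Nat.eq_zero_or_pos r with h | h
      · subst h
        simp only [Nat.cast_zero, Real.log_zero, mul_zero]
        exact mul_nonneg (Nat.cast_nonneg _) (Real.log_natCast_nonneg _)
      · have hr1 : (0 : ℝ) < r := by exact_mod_cast h
        have hr2 : (r : ℝ) ≤ r0 := by exact_mod_cast hrr.le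
        exact mul_le_mul hr2 (Real.log_le_log hr1 hr2) (Real.log_natCast_nonneg _)
          (Nat.cast_nonneg _)
    have h3 : 9 ≤ (C2 + 9 * Real.exp (c * (r0 * Real.log r0))) *
        Real.exp (-(c * (r * Real.log r))) := by
      calc (9 : ℝ) = 9 * Real.exp (c * (r * Real.log r)) * Real.exp (-(c * (r * Real.log r))) := by
            rw [mul_assoc, ← Real.exp_add]; simp
        _ ≤ _ := by
            apply mul_le_mul_of_nonneg_right _ (Real.exp_pos _).le
            have := Real.exp_le_exp.2 (mul_le_mul_of_nonneg_left h2 hc.le)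
            have h5 : 0 < C2 := by positivity
            linarith
    exact mul_le_mul_of_nonneg_right h3 (by positivity)
  · -- large `r`
    set D1 : ℕ := r ^ (r / 64) with hD1
    have hr1 : 1024 ≤ r := hr0.trans hrr
    have hD1pos : 0 < D1 := by positivity
    set E : ℝ := Real.exp (-(c * (r * Real.log r))) with hE
    have hE0 : 0 < E := Real.exp_pos _
    have hev : ∀ᶠ T : ℕ in Filter.atTop, ∀ q ∈ Icc 1 D1 ×ˢ sgs,
        (((TA3 q.2.1 q.2.2 (3 * T / q.1)).filter (fun t => r ≤ rk3 q.2.1 q.2.2 q.1 t)).card : ℝ) ≤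
          C1 * E * ((3 * T / q.1 : ℕ) : ℝ) ^ 2 := by
      rw [Filter.eventually_all_finset]
      intro q hq
      rw [mem_product, mem_Icc, mem_sgs] at hq
      have h1 := hper r hrr q.1 hq.1.1 hq.1.2 q.2.1 q.2.2 hq.2.1 hq.2.2
      have h2 : Filter.Tendsto (fun T : ℕ => 3 * T / q.1) Filter.atTop Filter.atTop := by
        have h3 : Filter.Tendsto (fun T : ℕ => T / q.1) Filter.atTop Filter.atTop :=
          Filter.tendsto_atTop_atTop.2 fun b => ⟨b * q.1, fun T hT =>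
            (Nat.le_div_iff_mul_le (by omega)).2 hT⟩
        have h4 : Filter.Tendsto (fun T : ℕ => 3 * T) Filter.atTop Filter.atTop :=
          Filter.tendsto_atTop_atTop.2 fun b => ⟨b, fun T hT => by omega⟩
        exact h3.comp h4
      exact h2.eventually h1
    filter_upwards [hev, Filter.eventually_ge_atTop ⌈3 / E⌉₊, Filter.eventually_ge_atTop 1]
      with T hT1 hT2 hT3
    have hTr : (1 : ℝ) ≤ T := by exact_mod_cast hT3
    have hT2' : 3 ≤ E * T := by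
      have : 3 / E ≤ T := (Nat.le_ceil _).trans (by exact_mod_cast hT2)
      rw [div_le_iff₀ hE0] at this
      linarith
    have hcard : ((SR r T).card : ℝ) ≤
        ∑ q ∈ Icc 1 D1 ×ˢ sgs, (((TA3 q.2.1 q.2.2 (3 * T / q.1)).filter
          (fun t => r ≤ rk3 q.2.1 q.2.2 q.1 t)).card : ℝ) +
        ∑ D ∈ Icc (D1 + 1) T, (2 * ((T / D : ℕ) : ℝ)) * (2 * ((T / D : ℕ) : ℝ)) + (2 * T + 1) := by
      exact_mod_cast card_cover r T D1
    -- the first sum
    have s1 : ∑ q ∈ Icc 1 D1 ×ˢ sgs, (((TA3 q.2.1 q.2.2 (3 * T / q.1)).filter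
          (fun t => r ≤ rk3 q.2.1 q.2.2 q.1 t)).card : ℝ) ≤ 72 * C1 * E * (T : ℝ) ^ 2 := by
      have h1 : ∀ q ∈ Icc 1 D1 ×ˢ sgs, (((TA3 q.2.1 q.2.2 (3 * T / q.1)).filter
          (fun t => r ≤ rk3 q.2.1 q.2.2 q.1 t)).card : ℝ) ≤
          9 * C1 * E * (T : ℝ) ^ 2 * (1 / (q.1 : ℝ) ^ 2) := by
        intro q hq
        refine (hT1 q hq).trans ?_
        rw [mem_product, mem_Icc] at hq
        have hq0 : (0 : ℝ) < q.1 := by exact_mod_cast hq.1.1
        have h2 : ((3 * T / q.1 : ℕ) : ℝ) ≤ 3 * T / q.1 := by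
          have := Nat.cast_div_le (α := ℝ) (m := 3 * T) (n := q.1)
          push_cast at this
          exact this
        have h3 : ((3 * T / q.1 : ℕ) : ℝ) ^ 2 ≤ (3 * T / q.1) ^ 2 :=
          pow_le_pow_left₀ (Nat.cast_nonneg _) h2 2
        calc C1 * E * ((3 * T / q.1 : ℕ) : ℝ) ^ 2 ≤ C1 * E * (3 * T / q.1) ^ 2 :=
              mul_le_mul_of_nonneg_left h3 (by positivity)
          _ = _ := by
              field_simp
              ring
      refine (sum_le_sum h1).trans ?_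
      rw [← mul_sum, sum_product]
      have h2 : ∑ D ∈ Icc 1 D1, ∑ _ε ∈ sgs, (1 : ℝ) / (D : ℝ) ^ 2 =
          4 * ∑ D ∈ Icc 1 D1, (1 : ℝ) / (D : ℝ) ^ 2 := by
        rw [mul_sum]
        refine sum_congr rfl fun D _ => ?_
        rw [sum_const, nsmul_eq_mul]
        have : sgs.card = 4 := by decide
        rw [this]
        norm_num
      have h3 : ∑ D ∈ Icc 1 D1, ∑ ε ∈ sgs, (1 : ℝ) / ((((D, ε) : ℕ × ℤ × ℤ).1 : ℕ) : ℝ) ^ 2 =
          ∑ D ∈ Icc 1 D1, ∑ _ε ∈ sgs, (1 : ℝ) / (D : ℝ) ^ 2 := rfl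
      rw [h3, h2]
      have h4 := sum_sq1 D1
      have h5 : 0 ≤ 9 * C1 * E * (T : ℝ) ^ 2 := by positivity
      nlinarith
    -- the second sum
    have s2 : ∑ D ∈ Icc (D1 + 1) T, (2 * ((T / D : ℕ) : ℝ)) * (2 * ((T / D : ℕ) : ℝ)) ≤
        4 * E * (T : ℝ) ^ 2 := by
      have h1 : ∀ D ∈ Icc (D1 + 1) T, (2 * ((T / D : ℕ) : ℝ)) * (2 * ((T / D : ℕ) : ℝ)) ≤
          4 * (T : ℝ) ^ 2 * (1 / (D : ℝ) ^ 2) := by
        intro D hD
        rw [mem_Icc] at hD
        have hD0 : (0 : ℝ) < D := by exact_mod_cast (by omega : 0 < D)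
        have h2 : ((T / D : ℕ) : ℝ) ≤ T / D := Nat.cast_div_le
        have h3 : ((T / D : ℕ) : ℝ) ^ 2 ≤ (T / D) ^ 2 :=
          pow_le_pow_left₀ (Nat.cast_nonneg _) h2 2
        calc (2 * ((T / D : ℕ) : ℝ)) * (2 * ((T / D : ℕ) : ℝ)) = 4 * ((T / D : ℕ) : ℝ) ^ 2 := by ring
          _ ≤ 4 * (T / D) ^ 2 := by linarith
          _ = _ := by
              field_simp
      refine (sum_le_sum h1).trans ?_
      rw [← mul_sum]
      have h2 := sum_sq2 hD1pos T
      have hrpos : (0 : ℝ) < r := by exact_mod_cast (by omega : 0 < r)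
      have h3 : (1 : ℝ) / D1 ≤ E := by
        have e1 : (D1 : ℝ) = Real.exp (((r / 64 : ℕ) : ℝ) * Real.log r) := by
          rw [hD1]
          push_cast
          rw [mul_comm, ← Real.rpow_def_of_pos hrpos, Real.rpow_natCast]
        rw [e1, one_div, ← Real.exp_neg, hE]
        apply Real.exp_le_exp.2
        have h4 : r ≤ 64 * (r / 64) + 63 := by omega
        have h5 : (r : ℝ) ≤ 64 * ((r / 64 : ℕ) : ℝ) + 63 := by exact_mod_cast h4
        have h6 : (1024 : ℝ) ≤ r := by exact_mod_cast hr1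
        have h7 : (r : ℝ) / 128 ≤ ((r / 64 : ℕ) : ℝ) := by linarith
        have h8 : 0 ≤ Real.log r := Real.log_natCast_nonneg r
        have h9 : (r : ℝ) / 128 * Real.log r ≤ ((r / 64 : ℕ) : ℝ) * Real.log r :=
          mul_le_mul_of_nonneg_right h7 h8
        have h10 : c * (r * Real.log r) ≤ 1 / 128 * (r * Real.log r) :=
          mul_le_mul_of_nonneg_right hc128 (by positivity)
        linarith
      have h4 : 0 ≤ 4 * (T : ℝ) ^ 2 := by positivity
      calc 4 * (T : ℝ) ^ 2 * ∑ D ∈ Icc (D1 + 1) T, 1 / (D : ℝ) ^ 2 ≤ 4 * (T : ℝ) ^ 2 * E :=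
            mul_le_mul_of_nonneg_left (h2.trans h3) h4
        _ = _ := by ring
    -- the last term
    have s3 : 2 * (T : ℝ) + 1 ≤ E * (T : ℝ) ^ 2 := by nlinarith
    have hpos : 0 ≤ 9 * Real.exp (c * (r0 * Real.log r0)) * E * (T : ℝ) ^ 2 := by positivity
    calc ((SR r T).card : ℝ) ≤ 72 * C1 * E * (T : ℝ) ^ 2 + 4 * E * (T : ℝ) ^ 2 +
          E * (T : ℝ) ^ 2 := hcard.trans (add_le_add (add_le_add s1 s2) s3)
      _ = C2 * E * (T : ℝ) ^ 2 := by rw [hC2]; ring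
      _ ≤ C2 * E * (T : ℝ) ^ 2 + 9 * Real.exp (c * (r0 * Real.log r0)) * E * (T : ℝ) ^ 2 := by
          linarith
      _ = _ := by ring

end Pool.Agent.H457.A
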