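import Pool.Agent.H457.A.BF2
import Pool.Agent.H457.A.T1i
import Pool.Graph.R_seed8.W261.RT.Iso

/-!
# The rational fibres of an elliptic surface
-/

set_option autoImplicit false
set_option linter.unusedSectionVars false

namespace Pool.Agent.H457.A

open Finset Filter Pool.Agent.W262.RK Pool.Agent.W307.RT

/-- the rational numbers of height at most `X` -/
noncomputable def QH (X : ℕ) : Finset ℚ :=
  ((Icc (-(X : ℤ)) X) ×ˢ (Icc (1 : ℤ) X)).image (fun p : ℤ × ℤ => (p.1 : ℚ) / p.2)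

lemma mem_QH {X : ℕ} {t : ℚ} (h : t ∈ QH X) : t.num.natAbs ≤ X ∧ t.den ≤ X := by
  unfold QH at h
  rw [mem_image] at h
  obtain ⟨⟨m, n⟩, h1, h2⟩ := h
  rw [mem_product, mem_Icc, mem_Icc] at h1
  simp only at h1 h2
  obtain ⟨⟨h3, h4⟩, h5, h6⟩ := h1
  have hn : n ≠ 0 := by omega
  have h7 : t.num ∣ m := by
    rw [← h2, ← Rat.divInt_eq_div]
    exact Rat.num_dvd m hn
  have h8 : (t.den : ℤ) ∣ n := by
    rw [← h2, ← Rat.divInt_eq_div]
    exact Rat.den_dvd m n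
  constructor
  · rcases eq_or_ne m 0 with h | h
    · subst h
      have : t = 0 := by rw [← h2]; simp
      rw [this]
      simp
    · have h9 := Nat.le_of_dvd (Int.natAbs_pos.2 h) (Int.natAbs_dvd_natAbs.2 h7)
      omega
  · have h9 := Int.le_of_dvd (by omega) h8
    omega

/-- many coprime pairs -/
lemma coprime_card (X : ℕ) : (X : ℝ) ^ 2 / 4 ≤
    (((Icc 1 X ×ˢ Icc 1 X).filter (fun t : ℕ × ℕ => t.1.Coprime t.2)).card : ℝ) := by
  classical
  have h1 := card_filter_add_card_filter_not (s := Icc 1 X ×ˢ Icc 1 X)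
    (fun t : ℕ × ℕ => t.1.Coprime t.2)
  have h2 : (Icc 1 X ×ˢ Icc 1 X).card = X * X := by
    rw [card_product]
    simp
  rw [h2] at h1
  have h3 : (Icc 1 X ×ˢ Icc 1 X).filter (fun t : ℕ × ℕ => ¬ t.1.Coprime t.2) ⊆
      (Icc 2 X).biUnion (fun d => ((Icc 1 X).filter (d ∣ ·)) ×ˢ ((Icc 1 X).filter (d ∣ ·))) := by
    intro t ht
    rw [mem_filter, mem_product, mem_Icc, mem_Icc] at ht
    obtain ⟨⟨⟨g1, g2⟩, g3, g4⟩, g5⟩ := ht
    rw [mem_biUnion]
    refine ⟨Nat.gcd t.1 t.2, ?_, ?_⟩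
    · rw [mem_Icc]
      have g6 : 0 < Nat.gcd t.1 t.2 := Nat.gcd_pos_of_pos_left _ (by omega)
      have g7 : Nat.gcd t.1 t.2 ≠ 1 := g5
      have g8 : Nat.gcd t.1 t.2 ≤ t.1 := Nat.le_of_dvd (by omega) (Nat.gcd_dvd_left _ _)
      omega
    · rw [mem_product, mem_filter, mem_filter, mem_Icc, mem_Icc]
      exact ⟨⟨⟨g1, g2⟩, Nat.gcd_dvd_left _ _⟩, ⟨g3, g4⟩, Nat.gcd_dvd_right _ _⟩
  have h4 : ∀ d ∈ Icc 2 X, ((((Icc 1 X).filter (d ∣ ·)) ×ˢ ((Icc 1 X).filter (d ∣ ·))).card : ℝ) ≤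
      (X : ℝ) ^ 2 * (1 / (d : ℝ) ^ 2) := by
    intro d hd
    rw [mem_Icc] at hd
    have g1 : ((Icc 1 X).filter (d ∣ ·)).card ≤ X / d := by
      have g2 : (Icc 1 X).filter (d ∣ ·) = (Ioc 0 X).filter (d ∣ ·) := by
        congr 1
      rw [g2, Nat.Ioc_filter_dvd_card_eq_div]
    have g3 : (((Icc 1 X).filter (d ∣ ·)).card : ℝ) ≤ (X : ℝ) / d :=
      le_trans (by exact_mod_cast g1) Nat.cast_div_le
    have g4 : (0 : ℝ) < d := by exact_mod_cast (by omega : 0 < d)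
    rw [card_product]
    push_cast
    calc (((Icc 1 X).filter (d ∣ ·)).card : ℝ) * (((Icc 1 X).filter (d ∣ ·)).card : ℝ) ≤
          ((X : ℝ) / d) * (X / d) := mul_le_mul g3 g3 (Nat.cast_nonneg _) (by positivity)
      _ = _ := by field_simp
  have h5 : (((Icc 1 X ×ˢ Icc 1 X).filter (fun t : ℕ × ℕ => ¬ t.1.Coprime t.2)).card : ℝ) ≤
      3 / 4 * (X : ℝ) ^ 2 := by
    have g1 : (((Icc 1 X ×ˢ Icc 1 X).filter (fun t : ℕ × ℕ => ¬ t.1.Coprime t.2)).card : ℝ) ≤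
        ∑ d ∈ Icc 2 X, (X : ℝ) ^ 2 * (1 / (d : ℝ) ^ 2) := by
      have g0 := (card_le_card h3).trans card_biUnion_le
      refine le_trans (Nat.cast_le.2 g0) ?_
      rw [Nat.cast_sum]
      exact sum_le_sum h4
    refine g1.trans ?_
    rw [← mul_sum, mul_comm]
    apply mul_le_mul_of_nonneg_right _ (by positivity)
    rcases Nat.lt_or_ge X 2 with hX | hX
    · rw [Icc_eq_empty (by omega), sum_empty]
      norm_num
    · have g2 : Icc 2 X = insert 2 (Icc (2 + 1) X) := by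
        ext x
        simp only [mem_insert, mem_Icc]
        omega
      rw [g2, sum_insert (by simp)]
      have g3 := sum_sq2 (k := 2) (by norm_num) X
      push_cast at g3 ⊢
      linarith
  have h6 : ((((Icc 1 X ×ˢ Icc 1 X).filter (fun t : ℕ × ℕ => t.1.Coprime t.2)).card : ℕ) : ℝ) +
      (((Icc 1 X ×ˢ Icc 1 X).filter (fun t : ℕ × ℕ => ¬ t.1.Coprime t.2)).card : ℝ) =
      (X : ℝ) * X := by exact_mod_cast h1
  nlinarith

lemma card_QH (X : ℕ) : (X : ℝ) ^ 2 / 4 ≤ ((QH X).card : ℝ) := by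
  refine (coprime_card X).trans ?_
  rw [Nat.cast_le]
  apply card_le_card_of_injOn (fun t : ℕ × ℕ => (t.1 : ℚ) / t.2)
  · intro t ht
    rw [mem_coe, mem_filter, mem_product, mem_Icc, mem_Icc] at ht
    rw [mem_coe]
    unfold QH
    rw [mem_image]
    refine ⟨((t.1 : ℤ), (t.2 : ℤ)), ?_, ?_⟩
    · rw [mem_product, mem_Icc, mem_Icc]
      simp only
      omega
    · simp
  · intro t ht t' ht' h
    rw [mem_coe, mem_filter, mem_product, mem_Icc, mem_Icc] at ht ht'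
    simp only at h
    have e1 : ((t.1 : ℚ) / (t.2 : ℚ)).num = t.1 :=
      Rat.num_div_eq_of_coprime (a := (t.1 : ℤ)) (b := (t.2 : ℤ)) (by omega)
        (by simpa using ht.2)
    have e2 : (((t.1 : ℚ) / (t.2 : ℚ)).den : ℤ) = t.2 :=
      Rat.den_div_eq_of_coprime (a := (t.1 : ℤ)) (b := (t.2 : ℤ)) (by omega)
        (by simpa using ht.2)
    have e3 : ((t'.1 : ℚ) / (t'.2 : ℚ)).num = t'.1 :=
      Rat.num_div_eq_of_coprime (a := (t'.1 : ℤ)) (b := (t'.2 : ℤ)) (by omega)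
        (by simpa using ht'.2)
    have e4 : (((t'.1 : ℚ) / (t'.2 : ℚ)).den : ℤ) = t'.2 :=
      Rat.den_div_eq_of_coprime (a := (t'.1 : ℤ)) (b := (t'.2 : ℤ)) (by omega)
        (by simpa using ht'.2)
    rw [h] at e1 e2
    refine Prod.ext ?_ ?_
    · rw [e1] at e3
      exact_mod_cast e3
    · rw [e2] at e4
      exact_mod_cast e4

end Pool.Agent.H457.A
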