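import Pool.Agent.H457.A.BF4

/-!
# The rational fibres of an elliptic surface, II
-/

set_option autoImplicit false
set_option linter.unusedSectionVars false

namespace Pool.Agent.H457.A

open Finset Filter Pool.Agent.W262.RK Pool.Agent.W307.RT

variable {J : Type} [Fintype J] [DecidableEq J]

/-- `D_k(t)`: the product over the forms of the class `k` at the rational number `t` -/
def DQ (cls : J → Fin 3) (a : Fin 3 → ℤ) (μ : J → ℕ) (α β : J → ℤ) (k : Fin 3) (t : ℚ) : ℚ :=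
  (a k : ℚ) * ∏ j ∈ univ.filter (fun j => cls j = k), ((α j : ℚ) * t + β j) ^ μ j

/-- the class in `Fin 4` -/
def cl4 (cls : J → Fin 3) (j : J) : Fin 4 := (cls j).castSucc

lemma fc_cl4 (cls : J → Fin 3) (k : Fin 3) : fc (cl4 cls) k = univ.filter (fun j => cls j = k) := by
  unfold fc cl4
  apply filter_congr
  intro j _
  exact Fin.castSucc_inj

lemma DQ_eq (cls : J → Fin 3) (a : Fin 3 → ℤ) (μ : J → ℕ) (α β : J → ℤ) {m : ℕ}
    (hdeg : ∀ k, ∑ j ∈ univ.filter (fun j => cls j = k), μ j = 2 * m) (k : Fin 3) (u v : ℤ)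
    (hv : v ≠ 0) :
    (FM (cl4 cls) a μ (fv α β u v) k : ℚ) =
      (v : ℚ) ^ (2 * m) * DQ cls a μ α β k ((u : ℚ) / v) := by
  have hv' : (v : ℚ) ≠ 0 := by exact_mod_cast hv
  unfold FM DQ
  rw [fc_cl4]
  push_cast
  rw [mul_left_comm]
  congr 1
  rw [← hdeg k, ← prod_pow_eq_pow_sum, ← prod_mul_distrib]
  apply prod_congr rfl
  intro j _
  rw [← mul_pow]
  congr 1
  unfold fv
  push_cast
  field_simp

/-- the curve `y² = x (x - A) (x - B)` with rational coefficients -/
def EQ (A B : ℚ) : WeierstrassCurve ℚ := ⟨0, -(A + B), 0, A * B, 0⟩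

lemma rank_EQ (cls : J → Fin 3) (a : Fin 3 → ℤ) (μ : J → ℕ) (α β : J → ℤ) {m : ℕ}
    (hdeg : ∀ k, ∑ j ∈ univ.filter (fun j => cls j = k), μ j = 2 * m) (u v : ℤ)
    (hv : v ≠ 0) :
    Module.finrank ℤ (EQ (DQ cls a μ α β 0 ((u : ℚ) / v))
      (DQ cls a μ α β 1 ((u : ℚ) / v))).toAffine.Point = rkz (cl4 cls) a μ α β (u, v) := by
  have hv' : (v : ℚ) ^ m ≠ 0 := pow_ne_zero _ (by exact_mod_cast hv)
  have h0 := DQ_eq cls a μ α β hdeg 0 u v hv
  have h1 := DQ_eq cls a μ α β hdeg 1 u v hv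
  unfold rkz EAB
  simp only
  obtain ⟨e⟩ := Pool.Agent.W261.RT.iso
    (-((FM (cl4 cls) a μ (fv α β u v) 0 : ℚ) + FM (cl4 cls) a μ (fv α β u v) 1))
    ((FM (cl4 cls) a μ (fv α β u v) 0 : ℚ) * FM (cl4 cls) a μ (fv α β u v) 1) 0 0
    ((v : ℚ) ^ m) hv'
  have h2 := e.toIntLinearEquiv.finrank_eq
  rw [h2]
  have h3 : (EQ (DQ cls a μ α β 0 ((u : ℚ) / v)) (DQ cls a μ α β 1 ((u : ℚ) / v))) =
      (⟨0, (-((FM (cl4 cls) a μ (fv α β u v) 0 : ℚ) + FM (cl4 cls) a μ (fv α β u v) 1) + 3 * 0) /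
        ((v : ℚ) ^ m) ^ 2, 0,
        ((FM (cl4 cls) a μ (fv α β u v) 0 : ℚ) * FM (cl4 cls) a μ (fv α β u v) 1 +
          2 * 0 * (-((FM (cl4 cls) a μ (fv α β u v) 0 : ℚ) + FM (cl4 cls) a μ (fv α β u v) 1)) +
          3 * 0 ^ 2) / ((v : ℚ) ^ m) ^ 4,
        (0 + 0 * ((FM (cl4 cls) a μ (fv α β u v) 0 : ℚ) * FM (cl4 cls) a μ (fv α β u v) 1) +
          0 ^ 2 * (-((FM (cl4 cls) a μ (fv α β u v) 0 : ℚ) + FM (cl4 cls) a μ (fv α β u v) 1)) +
          0 ^ 3) / ((v : ℚ) ^ m) ^ 6⟩ : WeierstrassCurve ℚ) := by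
    unfold EQ
    rw [h0, h1]
    have e1 : (v : ℚ) ^ (2 * m) = ((v : ℚ) ^ m) ^ 2 := by rw [← pow_mul, mul_comm]
    rw [e1]
    congr 1
    · field_simp
      ring
    · field_simp
      ring
    · simp
  rw [h3]

/-- the polynomial identity at all the rational numbers gives the homogeneous one -/
lemma hom_id (cls : J → Fin 3) (a : Fin 3 → ℤ) (μ : J → ℕ) (α β : J → ℤ) {m : ℕ}
    (hdeg : ∀ k, ∑ j ∈ univ.filter (fun j => cls j = k), μ j = 2 * m)
    (hF : ∀ t : ℚ, DQ cls a μ α β 0 t - DQ cls a μ α β 1 t = DQ cls a μ α β 2 t) (u v : ℤ) :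
    FM (cl4 cls) a μ (fv α β u v) 0 - FM (cl4 cls) a μ (fv α β u v) 1 =
      FM (cl4 cls) a μ (fv α β u v) 2 := by
  have h1 : ∀ w : ℤ, w ≠ 0 → FM (cl4 cls) a μ (fv α β u w) 0 - FM (cl4 cls) a μ (fv α β u w) 1 =
      FM (cl4 cls) a μ (fv α β u w) 2 := by
    intro w hw
    have h := hF ((u : ℚ) / w)
    have h0 := DQ_eq cls a μ α β hdeg 0 u w hw
    have h1 := DQ_eq cls a μ α β hdeg 1 u w hw
    have h2 := DQ_eq cls a μ α β hdeg 2 u w hw
    have h3 : ((FM (cl4 cls) a μ (fv α β u w) 0 : ℤ) : ℚ) - FM (cl4 cls) a μ (fv α β u w) 1 =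
        FM (cl4 cls) a μ (fv α β u w) 2 := by
      rw [h0, h1, h2, ← h]
      ring
    exact_mod_cast h3
  -- the polynomials in `v`
  set G : Fin 3 → Polynomial ℤ := fun k => Polynomial.C (a k) *
    ∏ l ∈ fc (cl4 cls) k, (Polynomial.C (α l * u) + Polynomial.C (β l) * Polynomial.X) ^ μ l
    with hG
  have hGe : ∀ (k : Fin 3) (w : ℤ), (G k).eval w = FM (cl4 cls) a μ (fv α β u w) k := by
    intro k w
    rw [hG]
    unfold FM fv
    simp only [Polynomial.eval_mul, Polynomial.eval_C, Polynomial.eval_prod,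
      Polynomial.eval_pow, Polynomial.eval_add, Polynomial.eval_X]
  have h2 : G 0 - G 1 = G 2 := by
    apply Polynomial.eq_of_infinite_eval_eq
    apply Set.Infinite.mono (s := {x : ℤ | x ≠ 0})
    · intro w hw
      rw [Set.mem_ofPred_eq, Polynomial.eval_sub, hGe, hGe, hGe]
      exact h1 w hw
    · exact Set.Infinite.mono (s := Set.Ioi (0 : ℤ)) (fun x hx => (ne_of_gt hx : x ≠ 0))
        (Set.Ioi_infinite 0)
  rw [← hGe, ← hGe, ← hGe, ← h2, Polynomial.eval_sub]

open Classical in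
/-- **The rational fibres.** -/
theorem fib_tail (cls : J → Fin 3) (a : Fin 3 → ℤ) (μ : J → ℕ) (α β : J → ℤ) (m : ℕ)
    (ha : ∀ k, a k ≠ 0) (hμ : ∀ j, Odd (μ j))
    (hR : ∀ j l, j ≠ l → α j * β l ≠ α l * β j)
    (hdeg : ∀ k, ∑ j ∈ univ.filter (fun j => cls j = k), μ j = 2 * m)
    (htri : ∀ k k' k'' : Fin 3, k' ≠ k'' → k ≠ k' → k ≠ k'' →
      (univ.filter (fun j => cls j = k)).card <
        (univ.filter (fun j => cls j = k')).card + (univ.filter (fun j => cls j = k'')).card)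
    (hF : ∀ t : ℚ, DQ cls a μ α β 0 t - DQ cls a μ α β 1 t = DQ cls a μ α β 2 t) :
    ∃ C c : ℝ, 0 < C ∧ 0 < c ∧ ∀ r : ℕ, ∀ᶠ X : ℕ in Filter.atTop,
      (((QH X).filter (fun t : ℚ => (∀ k, DQ cls a μ α β k t ≠ 0) ∧
        r ≤ Module.finrank ℤ (EQ (DQ cls a μ α β 0 t) (DQ cls a μ α β 1 t)).toAffine.Point)).card :
          ℝ) ≤ C * Real.exp (-(c * (r * Real.log r))) * (QH X).card := by
  have hnc : ∀ k : Fin 3, nc (cl4 cls) k.castSucc = (univ.filter (fun j => cls j = k)).card := by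
    intro k
    unfold nc cl4
    congr 1
    apply filter_congr
    intro j _
    exact Fin.castSucc_inj
  have hT : Tri (cl4 cls) := by
    left
    have e0 := hnc 0
    have e1 := hnc 1
    have e2 := hnc 2
    change nc (cl4 cls) 0 = _ at e0
    change nc (cl4 cls) 1 = _ at e1
    change nc (cl4 cls) 2 = _ at e2
    rw [e0, e1, e2]
    exact ⟨htri 0 1 2 (by decide) (by decide) (by decide),
      htri 1 0 2 (by decide) (by decide) (by decide),
      htri 2 0 1 (by decide) (by decide) (by decide)⟩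
  have hαβ : ∀ j, α j ≠ 0 ∨ β j ≠ 0 := by
    intro j
    by_contra h
    push Not at h
    obtain ⟨h1, h2⟩ := h
    have h3 : ∀ l, l = j := by
      intro l
      by_contra h4
      exact hR j l (Ne.symm h4) (by rw [h1, h2]; ring)
    have h5 : ∀ k : Fin 3, (univ.filter (fun i => cls i = k)).card =
        if cls j = k then 1 else 0 := by
      intro k
      split_ifs with h6
      · rw [card_eq_one]
        refine ⟨j, ?_⟩
        ext l
        simp only [mem_filter, mem_univ, true_and, mem_singleton]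
        constructor
        · intro _
          exact h3 l
        · intro h7
          rw [h7, h6]
      · rw [card_eq_zero, filter_eq_empty_iff]
        intro l _ h7
        rw [h3 l] at h7
        exact h6 h7
    have a0 := htri 0 1 2 (by decide) (by decide) (by decide)
    have a1 := htri 1 0 2 (by decide) (by decide) (by decide)
    have a2 := htri 2 0 1 (by decide) (by decide) (by decide)
    rw [h5, h5, h5] at a0 a1 a2
    rcases (by decide : ∀ x : Fin 3, x = 0 ∨ x = 1 ∨ x = 2) (cls j) with h | h | h <;>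
      rw [h] at a0 a1 a2 <;> revert a0 a1 a2 <;> decide
  obtain ⟨C, c, hC, hc, h⟩ := bf_box (cl4 cls) hT a μ α β
    (fun j => (Fin.castSucc_lt_last _).ne) ha (fun j => (hμ j).pos) hαβ
    (fun j l hjl => by
      unfold Res
      exact sub_ne_zero.2 (by
        intro h
        exact hR j l hjl h))
    (fun k => by rw [fc_cl4, hdeg k]; exact even_two_mul m) (fun j => Or.inl (hμ j))
    (hom_id cls a μ α β hdeg hF)
  refine ⟨4 * C, c, by positivity, hc, fun r => ?_⟩
  filter_upwards [h r] with X hX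
  have h1 : ((QH X).filter (fun t : ℚ => (∀ k, DQ cls a μ α β k t ≠ 0) ∧
        r ≤ Module.finrank ℤ (EQ (DQ cls a μ α β 0 t)
          (DQ cls a μ α β 1 t)).toAffine.Point)).card ≤
      ((Box X).filter (Bz (cl4 cls) a μ α β r)).card := by
    apply card_le_card_of_injOn (fun t : ℚ => (t.num, (t.den : ℤ)))
    · intro t ht
      rw [mem_coe, mem_filter] at ht
      obtain ⟨h1, h2, h3⟩ := ht
      obtain ⟨h4, h5⟩ := mem_QH h1
      have hd : (t.den : ℤ) ≠ 0 := by exact_mod_cast t.den_nz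
      have ht : t = (t.num : ℚ) / ((t.den : ℤ) : ℚ) := by
        push_cast
        exact (Rat.num_div_den t).symm
      rw [mem_coe, mem_filter]
      refine ⟨mem_Box.2 ⟨h4, by simpa using h5⟩, ?_, ?_, ?_⟩
      · rw [Int.isCoprime_iff_gcd_eq_one]
        exact t.reduced
      · intro k h6
        have h7 := DQ_eq cls a μ α β hdeg k t.num t.den hd
        rw [← ht] at h7
        simp only at h6
        rw [h6, Int.cast_zero] at h7
        exact (mul_ne_zero (pow_ne_zero _ (by exact_mod_cast t.den_nz)) (h2 k)) h7.symm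
      · rw [← rank_EQ cls a μ α β hdeg t.num t.den hd, ← ht]
        exact h3
    · intro t ht t' ht' h
      have e1 := congrArg Prod.fst h
      have e2 := congrArg Prod.snd h
      simp only at e1 e2
      exact Rat.ext e1 (by exact_mod_cast e2)
  have h2 := card_QH X
  have h3 : 0 < Real.exp (-(c * (r * Real.log r))) := Real.exp_pos _
  calc _ ≤ (((Box X).filter (Bz (cl4 cls) a μ α β r)).card : ℝ) := by exact_mod_cast h1
    _ ≤ C * Real.exp (-(c * (r * Real.log r))) * X ^ 2 := hX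
    _ = 4 * C * Real.exp (-(c * (r * Real.log r))) * ((X : ℝ) ^ 2 / 4) := by ring
    _ ≤ _ := mul_le_mul_of_nonneg_left h2 (by positivity)

end Pool.Agent.H457.A
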