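import Pool.Agent.H457.A.Comb

set_option autoImplicit false
set_option linter.unusedSectionVars false

/-! The moments of the local count over the typical tuples. -/

namespace Pool.Agent.H457.A

open Finset Pool.Agent.W262.RK Pool.Agent.W262.RK.AT

lemma bw_exists : ∃ (C2 : ℝ) (E2 : ℕ), 0 ≤ C2 ∧ BW C2 E2 := by
  obtain ⟨C2, E2, h2⟩ := Pool.Agent.W655.RK.blw_of (_root_.W37.RK.bl_of Pool.Agent.W505.RK.ls)
  exact ⟨|C2|, E2, abs_nonneg _, fun V Y hV hVY a b ha hb ha' hb' =>
    (h2 V Y hV hVY a b ha hb ha' hb').trans (by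
      apply mul_le_mul_of_nonneg_right _ (by positivity)
      exact mul_le_mul_of_nonneg_right (le_abs_self C2)
        (pow_nonneg (Real.log_natCast_nonneg Y) _))⟩

lemma bd_exists {ι : Type} [Fintype ι] [DecidableEq ι] (w : ι → ℝ) (κ : ι → ℤ) (c z : ℕ)
    (hw : ∀ i, 0 < w i ∧ w i ≤ 1 / 2) (hκ : ∀ i, κ i ≠ 0 ∧ (κ i).natAbs ≤ z)
    (hz : 2 * c + 2 ≤ z) : ∃ C : ℝ, Bd w κ c z C := by
  have hepu := epu_of Pool.Agent.W586.RK.UB.ub
  choose CE hCE using fun i => hepu (w i) c z (κ i) (hw i).1 (hw i).2 (hκ i).1 hz (hκ i).2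
  choose CF hCF1 hCF2 hCF3 using fun i => fullu (w i) c z (hw i).1 (hw i).2 hz
  set C : ℝ := 1 + ∑ i, (|CE i| + |CF i|) with hC
  have hCi : ∀ i, |CE i| + |CF i| ≤ C := by
    intro i
    have h1 : |CE i| + |CF i| ≤ ∑ i, (|CE i| + |CF i|) :=
      single_le_sum (f := fun i => |CE i| + |CF i|) (fun j _ => by positivity) (mem_univ i)
    linarith
  have hCE' : ∀ i, CE i ≤ C := fun i => by
    have := le_abs_self (CE i)
    have := abs_nonneg (CF i)
    linarith [hCi i]
  have hCF' : ∀ i, CF i ≤ C := fun i => by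
    have := le_abs_self (CF i)
    have := abs_nonneg (CE i)
    linarith [hCi i]
  exact ⟨C,
    { w0 := fun i => (hw i).1
      w1 := fun i => (hw i).2
      z2 := by omega
      zc := by omega
      C1 := by
        rw [hC]
        have : 0 ≤ ∑ i, (|CE i| + |CF i|) := sum_nonneg fun i _ => by positivity
        linarith
      F1 := fun i y hy => (hCF1 i y hy).trans (mul_le_mul_of_nonneg_right (hCF' i)
        (Real.rpow_nonneg (Real.log_natCast_nonneg y) _))
      F2 := fun i y V hy hV => (hCF2 i y V hy hV).trans (mul_le_mul_of_nonneg_right (hCF' i)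
        (Real.rpow_nonneg (Real.log_natCast_nonneg V) _))
      F3 := fun i y Y hy hY => (hCF3 i y Y hy hY).trans (by
        apply mul_le_mul_of_nonneg_right _ (by positivity)
        exact mul_le_mul_of_nonneg_right (hCF' i) (Real.exp_pos _).le)
      E := fun i y R r e hy hR hr hs hp => (hCE i y R r e hy hR hr hs hp).trans (by
        apply mul_le_mul_of_nonneg_right _ (hh_nonneg _)
        exact mul_le_mul_of_nonneg_right (hCE' i)
          (Real.rpow_nonneg (Real.log_natCast_nonneg r) _)) }⟩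

variable {J : Type} [Fintype J] [DecidableEq J] {k : ℕ}

/-- the components with random signs -/
def fl4 (cls : J → Fin 4) (f : J → Bool) (j : J) : Bool := decide (cls j = 3) || f j

lemma LC4_fl (cls : J → Fin 4) (f : J → Bool) (κ : J → Fin 3 → ℤ) (j : J)
    (h : fl4 cls f j = false) (p : ℕ) (v w h' g : Bool) :
    LC4 cls f κ j true p v w h' g = LC4 cls f κ j false p v w h' g := by
  unfold fl4 at h
  rw [Bool.or_eq_false_iff, decide_eq_false_iff_not] at h
  obtain ⟨h1, h2⟩ := h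
  unfold LC4 LF
  rw [h2]
  have hcase : cls j = 0 ∨ cls j = 1 ∨ cls j = 2 := by
    revert h1
    generalize cls j = c
    revert c
    decide
  rcases hcase with h | h | h <;> simp [h]

lemma A4_inV : ∀ (c : Fin 4) (v x : Z2), A4 c v x = true → c ≠ 3 →
    (v = 0 ∨ v = ez c) ∧ (x = 0 ∨ x = (ez c).swap) := by
  decide

lemma P4_inV (cls : J → Fin 4) (f : J → Bool) (j : J) (v x : Vk k)
    (h : P4 k cls f j v x = true) (hc : cls j ≠ 3) : inV (cls j) (v, x) := by
  unfold P4 at h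
  rw [Bool.and_eq_true, decide_eq_true_eq] at h
  exact fun r => A4_inV _ _ _ (h.1 r) hc

lemma om_prod {α : Type} (s : Finset α) (d : α → ℕ) (h0 : ∀ i ∈ s, d i ≠ 0)
    (hc : ∀ i ∈ s, ∀ j ∈ s, i ≠ j → (d i).Coprime (d j)) :
    om (∏ i ∈ s, d i) = ∑ i ∈ s, om (d i) := by
  classical
  induction s using Finset.induction_on with
  | empty => simp [om]
  | insert a s ha ih =>
    rw [prod_insert ha, sum_insert ha, ← ih (fun i hi => h0 i (mem_insert_of_mem hi))
      (fun i hi j hj => hc i (mem_insert_of_mem hi) j (mem_insert_of_mem hj))]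
    unfold om
    have hcop : (d a).Coprime (∏ i ∈ s, d i) := by
      rw [Nat.coprime_prod_right_iff]
      intro b hb
      exact hc a (mem_insert_self a s) b (mem_insert_of_mem hb) (by rintro rfl; exact ha hb)
    rw [hcop.primeFactors_mul, card_union_of_disjoint hcop.disjoint_primeFactors]

lemma om_SD (P : J → Vk k → Vk k → Bool) {z y : ℕ} {d : IK P → ℕ} (hd : d ∈ Tup (IK P) z y)
    (j : J) : om (SD P d j) = Om (fun i : IK P => i.1.1) d j := by
  unfold SD Om
  have hd' := hd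
  unfold Tup at hd'
  rw [mem_filter, Fintype.mem_piFinset] at hd'
  exact om_prod _ _ (fun i _ => dv_ne_zero (hd'.1 i)) (fun i _ j _ hij => hd'.2 i j hij)

lemma W4_bd (cls : J → Fin 4) (hk : 1 ≤ k) (j : J) : 0 < W4 k cls j ∧ W4 k cls j ≤ 1 / 2 := by
  unfold W4
  constructor
  · split_ifs <;> positivity
  · have h1 : (if cls j = 3 then (1 / 4 : ℝ) else 1 / 2) ≤ 1 / 2 := by split_ifs <;> norm_num
    have h0 : (0 : ℝ) ≤ (if cls j = 3 then (1 / 4 : ℝ) else 1 / 2) := by split_ifs <;> norm_num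
    calc _ ≤ (if cls j = 3 then (1 / 4 : ℝ) else 1 / 2) ^ 1 :=
          pow_le_pow_of_le_one h0 (by linarith) hk
      _ ≤ 1 / 2 := by rw [pow_one]; exact h1

lemma card_IK (P : J → Vk k → Vk k → Bool) :
    Fintype.card (IK P) ≤ Fintype.card J * 16 ^ k := by
  rw [← card_M, ← Fintype.card_prod]
  exact Fintype.card_le_of_injective (fun i : IK P => i.1) Subtype.val_injective

open Classical in
/-- **The moments of the local count over the typical tuples.** -/
theorem mom_typ (cls : J → Fin 4) (f : J → Bool) (κ : J → Fin 3 → ℤ) (c z : ℕ) (hT : Tri cls)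
    (hz : 2 * c + 2 ≤ z) (hκ : ∀ j i, κ j i ≠ 0)
    (hκz : ∀ j, (κ j 0).natAbs * (κ j 1).natAbs * (κ j 2).natAbs ≤ z) {CJ : ℝ}
    (hG : GB (Fintype.card J : ℝ) c z CJ) (hk : 1 ≤ k) :
    ∃ ε0 : ℝ, 0 < ε0 ∧ ∀ ε, 0 < ε → ε ≤ ε0 → ∀ᶠ y : ℕ in Filter.atTop,
      ∑ s ∈ Tup J z y, (if Ty ε (Real.log y) (fun j => om (s j)) then (1 : ℝ) else 0) *
        (NBg (fl4 cls f) (LC4 cls f κ) k s * ∏ j, gw 1 c (s j)) ≤
        (2 ^ (Fintype.card J * 16 ^ k) * CJ + 1) * (Real.log y) ^ (Fintype.card J : ℝ) := by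
  set P := P4 k cls f with hP
  obtain ⟨C, hB⟩ := bd_exists (wK P (W4 k cls)) (κK P (kc4 cls κ)) c z
    (fun i => W4_bd cls hk i.1.1) (fun i => by
      have h := kc4_bd cls κ hκ i.1.1 i.1.2.1 i.1.2.2
      exact ⟨h.2, h.1.trans (hκz _)⟩) hz
  obtain ⟨C2, E2, hC2, h2⟩ := bw_exists
  obtain ⟨ε0, hε0, hmain⟩ := at_typ (L := LK P) hB hz hC2 h2
    (fun i => by
      unfold LK
      rw [orth4 cls f i.1.1 i.1.2.1 i.1.2.2 i.2]
      decide) (fun i : IK P => i.1.1)
    (hu_of cls hT P (fun j v x h hc => P4_inV cls f j v x h hc)) hG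
  refine ⟨ε0, hε0, fun ε hε hε1 => ?_⟩
  filter_upwards [hmain ε hε hε1] with y hy
  have hloc : ∀ p ∈ PS z y, LocId P (W4 k cls) (kc4 cls κ) (LC4 cls f κ) p := by
    intro p hp
    obtain ⟨⟨hzp, -⟩, hpp⟩ := mem_PS.1 hp
    refine locId4 cls f κ hpp (by omega) fun j i hd => ?_
    have h3 := Nat.le_of_dvd (Int.natAbs_pos.mpr (hκ j i)) (Int.natCast_dvd.1 hd)
    have h4 := hκz j
    have q0 := Int.natAbs_pos.2 (hκ j 0)
    have q1 := Int.natAbs_pos.2 (hκ j 1)
    have q2 := Int.natAbs_pos.2 (hκ j 2)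
    have h5 : (κ j i).natAbs ≤ (κ j 0).natAbs * (κ j 1).natAbs * (κ j 2).natAbs := by
      fin_cases i
      · simp only [Fin.zero_eta]
        rw [mul_assoc]
        exact Nat.le_mul_of_pos_right _ (by positivity)
      · simp only [Fin.mk_one]
        rw [mul_comm (κ j 0).natAbs, mul_assoc]
        exact Nat.le_mul_of_pos_right _ (by positivity)
      · show (κ j 2).natAbs ≤ _
        exact Nat.le_mul_of_pos_left _ (by positivity)
    omega
  rw [expk (fl4 cls f) (LC4 cls f κ) (fun j hj p v w h g => LC4_fl cls f κ j hj p v w h g)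
    (W4 k cls) (kc4 cls κ) c (fun j v x h => orth4 cls f j v x h) hloc
    (fun s => if Ty ε (Real.log y) (fun j => om (s j)) then (1 : ℝ) else 0)]
  have heq : ∑ d ∈ Tup (IK P) z y,
      (if Ty ε (Real.log y) (fun j => om (SD P d j)) then (1 : ℝ) else 0) *
        ((∏ i, gw (wK P (W4 k cls) i) c (d i)) *
          Pool.Agent.W262.RK.Sym (LK P) (κK P (kc4 cls κ)) d) =
      ∑ d ∈ Fintype.piFinset (fun _ : IK P => (PP z y).divisors),
        HT (wK P (W4 k cls)) (LK P) (κK P (kc4 cls κ)) c (fun i : IK P => i.1.1) ε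
          (Real.log y) d := by
    unfold Tup
    rw [sum_filter]
    refine sum_congr rfl fun d hd => ?_
    unfold HT HH
    by_cases hc : ∀ i j, i ≠ j → (d i).Coprime (d j)
    · have hd' : d ∈ Tup (IK P) z y := by
        unfold Tup
        exact mem_filter.2 ⟨hd, hc⟩
      have hom : (fun j => om (SD P d j)) = Om (fun i : IK P => i.1.1) d :=
        funext fun j => om_SD P hd' j
      rw [if_pos hc, if_pos hc, hom]
      split_ifs
      · rw [one_mul]
      · rw [zero_mul]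
    · rw [if_neg hc, if_neg hc]
      simp
  rw [heq]
  refine (le_abs_self _).trans (hy.trans ?_)
  apply mul_le_mul_of_nonneg_right _ (Real.rpow_nonneg (Real.log_natCast_nonneg y) _)
  have h6 : (2 : ℝ) ^ Fintype.card (IK P) ≤ 2 ^ (Fintype.card J * 16 ^ k) :=
    pow_le_pow_right₀ (by norm_num) (card_IK P)
  have hCJ : 0 ≤ CJ := zero_le_one.trans hG.C1
  nlinarith

end Pool.Agent.H457.A
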