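import Pool.Agent.H457.A.Comb2
import Pool.Agent.H457.A.Mom

set_option autoImplicit false
set_option linter.unusedSectionVars false

/-! The moments of the local count over the typical tuples, the case of equality in the triangle
inequality. -/

namespace Pool.Agent.H457.A

open Finset Pool.Agent.W262.RK Pool.Agent.W262.RK.AT

variable {J : Type} [Fintype J] [DecidableEq J] {k : ℕ}

open Classical in
/-- **The moments of the local count over the typical tuples.** -/
theorem mom_typ' (cls : J → Fin 4) (f : J → Bool) (κ : J → Fin 3 → ℤ) (c z : ℕ) (hT : Tri2 cls f κ)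
    (hz : 2 * c + 2 ≤ z) (hκ : ∀ j i, κ j i ≠ 0)
    (hκz : ∀ j, (κ j 0).natAbs * (κ j 1).natAbs * (κ j 2).natAbs ≤ z) {CJ : ℝ}
    (hG : GB (Fintype.card J : ℝ) c z CJ) (hk : 1 ≤ k) :
    ∃ ε0 : ℝ, 0 < ε0 ∧ ∀ ε, 0 < ε → ε ≤ ε0 → ∀ᶠ y : ℕ in Filter.atTop,
      ∑ s ∈ Tup J z y, (if Ty ε (Real.log y) (fun j => om (s j)) then (1 : ℝ) else 0) *
        (NBg (fl4 cls f) (LC4 cls f κ) k s * ∏ j, gw 1 c (s j)) ≤
        (2 ^ (Fintype.card J * 16 ^ k) * CJ + 1) * (Real.log y) ^ (Fintype.card J : ℝ) := by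
  set P := P4 k cls f with hP
  obtain ⟨C, hB⟩ := bd_exists (wK P (W4 k cls)) (κK P (kc4 cls κ)) c z
    (fun i => W4_bd cls hk i.1.1) (fun i => by
      have h := kc4_bd cls κ hκ i.1.1 i.1.2.1 i.1.2.2
      exact ⟨h.2, h.1.trans (hκz _)⟩) hz
  obtain ⟨C2, E2, hC2, h2⟩ := bw_exists
  obtain ⟨ε0, hε0, hmain⟩ := at_typ' (L := LK P) hB hz hC2 h2
    (fun i => by
      unfold LK
      rw [orth4 cls f i.1.1 i.1.2.1 i.1.2.2 i.2]
      decide) (fun i => (kc4_bd cls κ hκ i.1.1 i.1.2.1 i.1.2.2).2)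
    (fun i => (kc4_bd cls κ hκ i.1.1 i.1.2.1 i.1.2.2).1.trans (hκz _)) (fun i : IK P => i.1.1)
    (hu_of' cls f κ hT (fun j v x h hc => P4_inV cls f j v x h hc)) hG
  refine ⟨ε0, hε0, fun ε hε hε1 => ?_⟩
  filter_upwards [hmain ε hε hε1] with y hy
  have hloc : ∀ p ∈ PS z y, LocId P (W4 k cls) (kc4 cls κ) (LC4 cls f κ) p := by
    intro p hp
    obtain ⟨⟨hzp, -⟩, hpp⟩ := mem_PS.1 hp
    refine locId4 cls f κ hpp (by omega) fun j i hd => ?_
    have h3 := Nat.le_of_dvd (Int.natAbs_pos.mpr (hκ j i)) (Int.natCast_dvd.1 hd)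
    have h4 := hκz j
    have q0 := Int.natAbs_pos.2 (hκ j 0)
    have q1 := Int.natAbs_pos.2 (hκ j 1)
    have q2 := Int.natAbs_pos.2 (hκ j 2)
    have h5 : (κ j i).natAbs ≤ (κ j 0).natAbs * (κ j 1).natAbs * (κ j 2).natAbs := by
      fin_cases i
      · simp only [Fin.zero_eta]
        rw [mul_assoc]
        exact Nat.le_mul_of_pos_right _ (by positivity)
      · simp only [Fin.mk_one]
        rw [mul_comm (κ j 0).natAbs, mul_assoc]
        exact Nat.le_mul_of_pos_right _ (by positivity)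
      · show (κ j 2).natAbs ≤ _
        exact Nat.le_mul_of_pos_left _ (by positivity)
    omega
  rw [expk (fl4 cls f) (LC4 cls f κ) (fun j hj p v w h g => LC4_fl cls f κ j hj p v w h g)
    (W4 k cls) (kc4 cls κ) c (fun j v x h => orth4 cls f j v x h) hloc
    (fun s => if Ty ε (Real.log y) (fun j => om (s j)) then (1 : ℝ) else 0)]
  have heq : ∑ d ∈ Tup (IK P) z y,
      (if Ty ε (Real.log y) (fun j => om (SD P d j)) then (1 : ℝ) else 0) *
        ((∏ i, gw (wK P (W4 k cls) i) c (d i)) *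
          Pool.Agent.W262.RK.Sym (LK P) (κK P (kc4 cls κ)) d) =
      ∑ d ∈ Fintype.piFinset (fun _ : IK P => (PP z y).divisors),
        HT (wK P (W4 k cls)) (LK P) (κK P (kc4 cls κ)) c (fun i : IK P => i.1.1) ε
          (Real.log y) d := by
    unfold Tup
    rw [sum_filter]
    refine sum_congr rfl fun d hd => ?_
    unfold HT HH
    by_cases hc : ∀ i j, i ≠ j → (d i).Coprime (d j)
    · have hd' : d ∈ Tup (IK P) z y := by
        unfold Tup
        exact mem_filter.2 ⟨hd, hc⟩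
      have hom : (fun j => om (SD P d j)) = Om (fun i : IK P => i.1.1) d :=
        funext fun j => om_SD P hd' j
      rw [if_pos hc, if_pos hc, hom]
      split_ifs
      · rw [one_mul]
      · rw [zero_mul]
    · rw [if_neg hc, if_neg hc]
      simp
  rw [heq]
  refine (le_abs_self _).trans (hy.trans ?_)
  apply mul_le_mul_of_nonneg_right _ (Real.rpow_nonneg (Real.log_natCast_nonneg y) _)
  have h6 : (2 : ℝ) ^ Fintype.card (IK P) ≤ 2 ^ (Fintype.card J * 16 ^ k) :=
    pow_le_pow_right₀ (by norm_num) (card_IK P)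
  have hCJ : 0 ≤ CJ := zero_le_one.trans hG.C1
  nlinarith

end Pool.Agent.H457.A
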