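import Pool.Agent.H457.A.Fin2
import Pool.Agent.H457.A.Mom2

set_option autoImplicit false
set_option linter.unusedSectionVars false

/-! Rank tails from local counts: the theorem, the case of equality. -/

namespace Pool.Agent.H457.A

open Finset Pool.Agent.W262.RK Pool.Agent.W307.RT

open Classical in
/-- **The super-exponential tail of the rank in a family with local counts.** -/
theorem abs_tail' (J : Type) [Fintype J] [DecidableEq J] (K0 L : ℕ) :
    ∃ C c : ℝ, 0 < C ∧ 0 < c ∧ ∀ (cls : J → Fin 4) (f : J → Bool) (κ : J → Fin 3 → ℤ) (z : ℕ)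
      (Ω : Type) (T : ℕ → Finset Ω) (F : Ω → J → ℤ) (neg : Ω → (J → ℕ) → Finset ℕ) (R : Ω → ℕ)
      (S : ℕ → ℝ) (Cc : ℝ) (y0 a : ℕ), Tri2 cls f κ → 2 * Fintype.card J + 2 ≤ z →
      (∀ j i, κ j i ≠ 0) →
      (∀ j, (κ j 0).natAbs * (κ j 1).natAbs * (κ j 2).natAbs ≤ z) →
      Fam cls f κ z T F neg R S Cc K0 y0 a L → ∀ r : ℕ, 8 * a ≤ r →
      ∀ᶠ X : ℕ in Filter.atTop, (((T X).filter (fun ω => r ≤ R ω)).card : ℝ) ≤
        C * Cc * Real.exp (-(c * (r * Real.log r))) * S X := by
  obtain ⟨B, hB0, hB⟩ := gb (Fintype.card J)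
  obtain ⟨B', hB'0, hB'⟩ := tail J
  set N := Fintype.card J with hN
  have hN0 : (0 : ℝ) ≤ N := Nat.cast_nonneg N
  set m : ℕ := 8 * (L + 1) with hm
  have hm1 : 8 ≤ m := by omega
  have hmr : (8 : ℝ) ≤ m := by exact_mod_cast hm1
  set c : ℝ := 1 / (96 * m) with hc
  have hc0 : 0 < c := by positivity
  have hc16 : c ≤ 1 / 16 := by
    rw [hc]
    apply one_div_le_one_div_of_le (by norm_num)
    linarith
  set Q : ℝ := 16 * (3 * N + 2 + N * B) + 2 * Real.log (2 * m) + 48 * B' with hQ
  have hlm : 0 ≤ Real.log (2 * m) := Real.log_nonneg (by linarith)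
  set r0 : ℕ := ⌈Real.exp Q⌉₊ + m * (K0 + 18) with hr0
  refine ⟨3 + Real.exp (c * (r0 * Real.log r0)), c, by positivity, hc0, ?_⟩
  intro cls f κ z Ω T F neg R S Cc y0 a hT hz hκ hκz hF r har
  have hS0 := hF.S0
  have hC0 := hF.C0
  rcases Nat.lt_or_ge r r0 with hrr | hrr
  · -- small `r`
    filter_upwards with X
    have h1 : (((T X).filter (fun ω => r ≤ R ω)).card : ℝ) ≤ Cc * S X :=
      le_trans (by exact_mod_cast card_le_card (filter_subset _ _)) (hF.card X)
    refine h1.trans ?_
    have h2 : (r : ℝ) * Real.log r ≤ r0 * Real.log r0 := by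
      rcases Nat.eq_zero_or_pos r with h | h
      · subst h
        simp only [Nat.cast_zero, Real.log_zero, mul_zero]
        exact mul_nonneg (Nat.cast_nonneg _) (Real.log_natCast_nonneg _)
      · have hr1 : (0 : ℝ) < r := by exact_mod_cast h
        have hr2 : (r : ℝ) ≤ r0 := by exact_mod_cast hrr.le
        exact mul_le_mul hr2 (Real.log_le_log hr1 hr2) (Real.log_natCast_nonneg _)
          (Nat.cast_nonneg _)
    have h3 : 1 ≤ (3 + Real.exp (c * (r0 * Real.log r0))) *
        Real.exp (-(c * (r * Real.log r))) := by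
      calc (1 : ℝ) = Real.exp (c * (r * Real.log r)) * Real.exp (-(c * (r * Real.log r))) := by
            rw [← Real.exp_add]; simp
        _ ≤ _ := by
            apply mul_le_mul_of_nonneg_right _ (Real.exp_pos _).le
            have := Real.exp_le_exp.2 (mul_le_mul_of_nonneg_left h2 hc0.le)
            linarith
    have h4 : 0 ≤ Cc * S X := mul_nonneg hC0 (hS0 X)
    calc Cc * S X = Cc * S X * 1 := (mul_one _).symm
      _ ≤ Cc * S X * ((3 + Real.exp (c * (r0 * Real.log r0))) *
        Real.exp (-(c * (r * Real.log r)))) := mul_le_mul_of_nonneg_left h3 h4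
      _ = _ := by ring
  -- large `r`
  set K : ℕ := r / m with hK
  set k : ℕ := Nat.log 16 r with hk
  have hQ0 : 0 ≤ Q := by positivity
  have hrexp : Real.exp Q ≤ r := by
    have h1 : Real.exp Q ≤ (⌈Real.exp Q⌉₊ : ℝ) := Nat.le_ceil _
    have h2 : (⌈Real.exp Q⌉₊ : ℝ) ≤ r := by exact_mod_cast (by omega : ⌈Real.exp Q⌉₊ ≤ r)
    exact h1.trans h2
  have hr0' : (0 : ℝ) < r := (Real.exp_pos _).trans_le hrexp
  have hr1 : 1 ≤ r := by exact_mod_cast hr0'
  have hlogr : Q ≤ Real.log r := by
    rw [Real.le_log_iff_exp_le hr0']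
    exact hrexp
  have hKge : K0 + 18 ≤ K := by
    rw [hK, Nat.le_div_iff_mul_le (by omega), mul_comm]
    omega
  have hK1 : 1 ≤ K := by omega
  have hmK : m * K ≤ r := Nat.mul_div_le r m
  have hrK : r < m * (K + 1) := by
    exact Nat.lt_mul_div_succ r (by omega)
  have hLK : 8 * (L * K) ≤ r := by
    calc 8 * (L * K) ≤ m * K := by rw [hm]; nlinarith
      _ ≤ r := hmK
  set r' : ℕ := r - (2 * a + L * K) with hr'
  have hrr' : r = 2 * a + L * K + r' := by omega
  have hr'2 : r ≤ 2 * r' := by omega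
  have hk1 : 16 ^ k ≤ r := Nat.pow_log_le_self 16 (by omega)
  have hk2 : r < 16 ^ (k + 1) := Nat.lt_pow_succ_log_self (by norm_num) r
  have hlog2 := Real.log_two_gt_d9
  have hlog2' := Real.log_two_lt_d9
  have hkr : Real.log r / (4 * Real.log 2) - 1 ≤ k := by
    have h1 : Real.log r ≤ Real.log ((16 : ℝ) ^ (k + 1)) := by
      apply Real.log_le_log hr0'
      exact_mod_cast hk2.le
    have h2 : Real.log ((16 : ℝ) ^ (k + 1)) = (k + 1) * (4 * Real.log 2) := by
      rw [Real.log_pow, show (16 : ℝ) = 2 ^ 4 by norm_num, Real.log_pow]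
      push_cast
      ring
    rw [h2] at h1
    rw [sub_le_iff_le_add, div_le_iff₀ (by positivity)]
    exact h1
  have hk3 : 1 ≤ k := by
    have h1 : 16 ≤ r := by
      have h2 : 8 * 18 ≤ m * K := Nat.mul_le_mul hm1 (by omega)
      omega
    rw [hk]
    exact Nat.log_pos (by norm_num) h1
  obtain ⟨ε0, hε0, hmom⟩ := mom_typ' cls f κ N z hT hz hκ hκz (hB z hz N hN0) hk3
  set ε := min ε0 (1 / 2) with hε
  have hεpos : 0 < ε := lt_min hε0 (by norm_num)
  have hε1 : ε < 1 := lt_of_le_of_lt (min_le_right _ _) (by norm_num)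
  have hmom' := hmom ε hεpos (min_le_left _ _)
  obtain ⟨b, C', hb, hC', haty⟩ := hF.aty hz hεpos hε1
  -- the target
  set E : ℝ := Real.exp (-(c * (r * Real.log r))) with hE
  have hE0 : 0 < E := Real.exp_pos _
  have hatyE : ∀ᶠ y : ℕ in Filter.atTop, C' * (Real.log y) ^ (b - N : ℝ) ≤ E := by
    have h1 : Filter.Tendsto (fun y : ℕ => C' * (Real.log y) ^ (-(N - b) : ℝ)) Filter.atTop
        (nhds (C' * 0)) :=
      ((tendsto_rpow_neg_atTop (by linarith : (0 : ℝ) < N - b)).comp
        (Real.tendsto_log_atTop.comp tendsto_natCast_atTop_atTop)).const_mul C'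
    rw [mul_zero] at h1
    filter_upwards [h1.eventually (gt_mem_nhds hE0)] with y hy
    rw [show (b - N : ℝ) = -(N - b) by ring]
    exact le_of_lt hy
  have hyt := yy_tendsto hK1
  filter_upwards [Filter.eventually_ge_atTop (Xt z y0 K), Filter.eventually_ge_atTop 1,
    hyt.eventually (Filter.eventually_ge_atTop (y0 + z + 1)), hyt.eventually hmom',
    hyt.eventually hatyE] with X hX hX1 hy hm1 ha1
  set y := yy K X 0 with hy'
  have hyp := yy_pow hK1 hX1 0
  have hyl := yy_lt (X := X) hK1 0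
  rw [pow_zero, mul_one, ← hy'] at hyp hyl
  have hyX : y ^ K0 ≤ X := (Nat.pow_le_pow_right hyp.1 (by omega)).trans hyp.2
  have p1 := hB' z hz Ω (T X) F (S X) Cc K0 y0 X K (hS0 X) hC0 (hF.good X) (hF.cb X)
    (by omega) hX
  have p2 := haty X y (by omega) (by omega) hyX
  have p3 := hF.typ hz (X := X) (y := y) (K := K) (k := k) (ε := ε) (CJ := Real.exp (N * B))
    (by omega) (by omega) hyX hyl hrr' hm1
  have hCS : 0 ≤ Cc * S X := mul_nonneg hC0 (hS0 X)
  have hcover : (T X).filter (fun ω => r ≤ R ω) ⊆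
      (T X).filter (fun ω => X < (∏ j, rp z (yy K X 0) (F ω j)) ^ 8) ∪
      ((T X).filter (fun ω => (∏ j, rp z y (F ω j)) ^ 8 ≤ X ∧
        ¬ Ty ε (Real.log y) (fun j => om (S1 z y (F ω) j))) ∪
      (T X).filter (fun ω => r ≤ R ω ∧ (∏ j, rp z y (F ω j)) ^ 8 ≤ X ∧
        Ty ε (Real.log y) (fun j => om (S1 z y (F ω) j)))) := by
    intro ω hω
    rw [mem_filter] at hω
    rw [mem_union, mem_union, mem_filter, mem_filter, mem_filter]
    by_cases h1 : X < (∏ j, rp z (yy K X 0) (F ω j)) ^ 8
    · exact Or.inl ⟨hω.1, h1⟩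
    · rw [not_lt] at h1
      by_cases h2 : Ty ε (Real.log y) (fun j => om (S1 z y (F ω) j))
      · exact Or.inr (Or.inr ⟨hω.1, hω.2, h1, h2⟩)
      · exact Or.inr (Or.inl ⟨hω.1, h1, h2⟩)
  have hcard := (card_le_card hcover).trans ((card_union_le _ _).trans
    (Nat.add_le_add_left (card_union_le _ _) _))
  have hcardr : (((T X).filter (fun ω => r ≤ R ω)).card : ℝ) ≤
      ((T X).filter (fun ω => X < (∏ j, rp z (yy K X 0) (F ω j)) ^ 8)).card +
      ((((T X).filter (fun ω => (∏ j, rp z y (F ω j)) ^ 8 ≤ X ∧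
        ¬ Ty ε (Real.log y) (fun j => om (S1 z y (F ω) j)))).card : ℝ) +
      ((T X).filter (fun ω => r ≤ R ω ∧ (∏ j, rp z y (F ω j)) ^ 8 ≤ X ∧
        Ty ε (Real.log y) (fun j => om (S1 z y (F ω) j)))).card) := by
    exact_mod_cast hcard
  -- the first part
  have hKr : (r : ℝ) / (2 * m) ≤ K := by
    have h1 : (r : ℝ) < m * (K + 1) := by exact_mod_cast hrK
    have h2 : (1 : ℝ) ≤ K := by exact_mod_cast hK1
    rw [div_le_iff₀ (by positivity)]
    nlinarith
  have hKpos : (0 : ℝ) < K := by exact_mod_cast hK1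
  have e1 : Real.exp (B' * K - K * Real.log K / 24) ≤ E := by
    rw [hE]
    apply Real.exp_le_exp.2
    have h1 : Real.log r - Real.log (2 * m) ≤ Real.log K := by
      rw [← Real.log_div hr0'.ne' (by positivity)]
      exact Real.log_le_log (by positivity) hKr
    have h2 : Real.log r / 2 ≤ Real.log K - 24 * B' := by
      have h3 : 2 * Real.log (2 * m) + 48 * B' ≤ Real.log r := by
        refine le_trans ?_ hlogr
        rw [hQ]
        have : 0 ≤ 16 * (3 * (N : ℝ) + 2 + N * B) := by positivity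
        linarith
      linarith
    have h4 : 0 ≤ Real.log r / 2 := by
      have := hQ0.trans hlogr
      linarith
    have h5 : (r : ℝ) / (2 * m) * (Real.log r / 2) ≤ K * (Real.log K - 24 * B') :=
      mul_le_mul hKr h2 h4 hKpos.le
    have h6 : c * (r * Real.log r) = ((r : ℝ) / (2 * m) * (Real.log r / 2)) / 24 := by
      rw [hc]
      field_simp
      ring
    rw [h6]
    linarith
  -- the third part
  have e3 : (2 ^ (N * 16 ^ k) * Real.exp (N * B) + 1) * Real.exp (N * (2 * 4 ^ k)) *
      (1 / 2) ^ (r' * k) ≤ E := by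
    have hkR : (16 : ℝ) ^ k ≤ r := by exact_mod_cast hk1
    have hk4 : (4 : ℝ) ^ k ≤ r := (pow_le_pow_left₀ (by norm_num) (by norm_num) k).trans hkR
    have h1 : (2 : ℝ) ^ (N * 16 ^ k) ≤ Real.exp (N * r) := by
      have e : (2 : ℝ) ^ (N * 16 ^ k) = Real.exp (Real.log 2 * (N * 16 ^ k)) := by
        rw [← Real.rpow_natCast, Real.rpow_def_of_pos (by norm_num)]
        push_cast
        ring_nf
      rw [e]
      apply Real.exp_le_exp.2
      have h2 : (N : ℝ) * 16 ^ k ≤ N * r := mul_le_mul_of_nonneg_left hkR hN0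
      have h3 : 0 ≤ (N : ℝ) * 16 ^ k := by positivity
      nlinarith
    have h2 : (2 : ℝ) ^ (N * 16 ^ k) * Real.exp (N * B) + 1 ≤
        Real.exp (N * r + N * B + 1) := by
      have h3 : (2 : ℝ) ^ (N * 16 ^ k) * Real.exp (N * B) ≤ Real.exp (N * r + N * B) := by
        rw [Real.exp_add]
        exact mul_le_mul_of_nonneg_right h1 (Real.exp_pos _).le
      have h4 : 1 ≤ Real.exp (N * r + N * B) := Real.one_le_exp (by positivity)
      rw [Real.exp_add _ 1]
      have h5 := Real.exp_one_gt_d9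
      nlinarith
    have h3 : Real.exp (N * (2 * 4 ^ k)) ≤ Real.exp (2 * N * r) := by
      apply Real.exp_le_exp.2
      nlinarith
    have h4 : ((1 : ℝ) / 2) ^ (r' * k) = Real.exp (-(Real.log 2 * (r' * k))) := by
      rw [one_div, inv_pow, Real.exp_neg, ← Real.rpow_natCast,
        Real.rpow_def_of_pos (by norm_num)]
      push_cast
      rfl
    rw [h4]
    calc _ ≤ Real.exp (N * r + N * B + 1) * Real.exp (2 * N * r) *
          Real.exp (-(Real.log 2 * (r' * k))) := by
          apply mul_le_mul_of_nonneg_right _ (Real.exp_pos _).le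
          exact mul_le_mul h2 h3 (Real.exp_pos _).le (Real.exp_pos _).le
      _ = Real.exp (N * r + N * B + 1 + 2 * N * r - Real.log 2 * (r' * k)) := by
          rw [← Real.exp_add, ← Real.exp_add]
          congr 1
      _ ≤ E := by
          rw [hE]
          apply Real.exp_le_exp.2
          have hr'r : (r : ℝ) / 2 ≤ r' := by
            have : (r : ℝ) ≤ 2 * r' := by exact_mod_cast hr'2
            linarith
          have hkk : 0 ≤ (k : ℝ) := Nat.cast_nonneg k
          have h5 : (r : ℝ) / 2 * k ≤ r' * k := mul_le_mul_of_nonneg_right hr'r hkk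
          have h6 : (r : ℝ) / 2 * (Real.log r / (4 * Real.log 2) - 1) ≤ r / 2 * k :=
            mul_le_mul_of_nonneg_left hkr (by positivity)
          have h7 : Real.log 2 * ((r : ℝ) / 2 * (Real.log r / (4 * Real.log 2) - 1)) =
              r * Real.log r / 8 - r / 2 * Real.log 2 := by
            field_simp
            ring
          have h8 : Real.log 2 * ((r : ℝ) / 2 * (Real.log r / (4 * Real.log 2) - 1)) ≤
              Real.log 2 * (r' * k) := mul_le_mul_of_nonneg_left (h6.trans h5) (by linarith)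
          rw [h7] at h8
          have h9 : 16 * (3 * N + 2 + N * B) ≤ Real.log r := by
            refine le_trans ?_ hlogr
            rw [hQ]
            linarith
          have h10 : (r : ℝ) * (16 * (3 * N + 2 + N * B)) ≤ r * Real.log r :=
            mul_le_mul_of_nonneg_left h9 hr0'.le
          have hr1' : (1 : ℝ) ≤ r := by exact_mod_cast hr1
          have h11 : N * B ≤ r * (N * B) := by
            have : 0 ≤ N * B := by positivity
            nlinarith
          have h12 : 0 ≤ (r : ℝ) * Real.log r :=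
            mul_nonneg hr0'.le (Real.log_natCast_nonneg _)
          have h13 : c * (r * Real.log r) ≤ 1 / 16 * (r * Real.log r) :=
            mul_le_mul_of_nonneg_right hc16 h12
          nlinarith
  have hE3 : 0 ≤ Real.exp (c * (r0 * Real.log r0)) := (Real.exp_pos _).le
  calc (((T X).filter (fun ω => r ≤ R ω)).card : ℝ)
      ≤ Cc * S X * E + (Cc * S X * E + Cc * S X * E) := by
        refine hcardr.trans (add_le_add (p1.trans ?_) (add_le_add (p2.trans ?_) (p3.trans ?_)))
        · exact mul_le_mul_of_nonneg_left e1 hCS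
        · exact mul_le_mul_of_nonneg_left ha1 hCS
        · rw [mul_assoc, mul_assoc, ← mul_assoc (2 ^ (N * 16 ^ k) * Real.exp (N * B) + 1)]
          exact mul_le_mul_of_nonneg_left e3 hCS
    _ = 3 * Cc * E * S X := by ring
    _ ≤ (3 + Real.exp (c * (r0 * Real.log r0))) * Cc * E * S X := by
        have h1 : 0 ≤ Cc * E * S X := by
          have := mul_nonneg hCS hE0.le
          nlinarith
        nlinarith

end Pool.Agent.H457.A
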