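import Pool.Agent.H457.A.BF2
import Pool.Agent.H457.A.BF6

set_option autoImplicit false
set_option linter.unusedSectionVars false

/-! The tail of the rank in the families given by binary linear forms: all the coprime pairs of a
box; the case of equality. -/

namespace Pool.Agent.H457.A

open Finset Pool.Agent.W262.RK Pool.Agent.W307.RT

variable {J : Type} [Fintype J] [DecidableEq J]

open Classical in
/-- the box, when infinity is not a zero -/
theorem bf_box0' (cls : J → Fin 4) (a : Fin 3 → ℤ) (μ : J → ℕ) (α β : J → ℤ)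
    (hT : Tri2 cls (fun _ => false) (fun j i => if i = 0 then kapM cls a μ α β j else 1))
    (hcls : ∀ j, cls j ≠ 3) (ha : ∀ k, a k ≠ 0) (hμ : ∀ j, 1 ≤ μ j) (hα : ∀ j, α j ≠ 0)
    (hR : ∀ j l, j ≠ l → Res α β j l ≠ 0) (hev : ∀ k, Even (∑ l ∈ fc cls k, μ l))
    (hodd : ∀ j, Odd (μ j) ∨ IsSquare (kapM cls a μ α β j))
    (hF : ∀ u v : ℤ, FM cls a μ (fv α β u v) 0 - FM cls a μ (fv α β u v) 1 =
      FM cls a μ (fv α β u v) 2) :
    ∃ C c : ℝ, 0 < C ∧ 0 < c ∧ ∀ r : ℕ, ∀ᶠ T : ℕ in Filter.atTop,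
      (((Box T).filter (Bz cls a μ α β r)).card : ℝ) ≤
        C * Real.exp (-(c * (r * Real.log r))) * T ^ 2 := by
  have hquad : ∀ e ∈ sgs, ∃ C c : ℝ, 0 < C ∧ 0 < c ∧ ∀ r : ℕ, ∀ᶠ X : ℕ in Filter.atTop,
      (((Icc 1 X ×ˢ Icc 1 X).filter (fun t : ℕ × ℕ =>
        Bz cls a μ α β r (e.1 * ((t.1 : ℕ) : ℤ), e.2 * ((t.2 : ℕ) : ℤ)))).card : ℝ) ≤
        C * Real.exp (-(c * (r * Real.log r))) * X ^ 2 := by
    intro e he
    have he' := mem_sgs.1 he
    have he1 : e.1 ≠ 0 := by rcases he'.1 with h | h <;> rw [h] <;> norm_num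
    have he2 : e.2 ≠ 0 := by rcases he'.2 with h | h <;> rw [h] <;> norm_num
    have hk := fun j => kapM_sign cls a μ α β hev he j
    obtain ⟨C, c, hC, hc, h⟩ := bf_tail' cls a μ (fun j => e.1 * α j) (fun j => e.2 * β j)
      (by simp only [hk]; exact hT)
      hcls ha hμ (fun j => mul_ne_zero he1 (hα j))
      (fun j l hjl => by
        rw [Res_sign]
        exact mul_ne_zero (mul_ne_zero he1 he2) (hR j l hjl)) hev
      (fun j => by rw [hk j]; exact hodd j)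
      (fun u v => by simp only [fv_sign]; exact hF _ _)
    refine ⟨C, c, hC, hc, fun r => ?_⟩
    filter_upwards [h r] with X hX
    refine le_trans ?_ hX
    rw [Nat.cast_le]
    apply card_le_card
    intro t ht
    rw [mem_filter] at ht ⊢
    obtain ⟨h0, h1, h2, h3⟩ := ht
    refine ⟨h0, ?_, ?_, ?_⟩
    · rw [Int.isCoprime_iff_gcd_eq_one] at h1
      have h4 : Int.gcd (e.1 * ((t.1 : ℕ) : ℤ)) (e.2 * ((t.2 : ℕ) : ℤ)) = Nat.gcd t.1 t.2 := by
        rcases he'.1 with h3 | h3 <;> rcases he'.2 with h4 | h4 <;> rw [h3, h4] <;> simp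
      rw [h4] at h1
      exact h1
    · rw [fv_sign]
      exact fv_ne_zero hcls hμ (a := a) h2
    · unfold rkz at h3
      unfold rkb
      rw [fv_sign]
      exact h3
  choose! Ce ce hCe hce hev' using hquad
  have hne : sgs.Nonempty := ⟨(1, 1), mem_sgs.2 ⟨Or.inl rfl, Or.inl rfl⟩⟩
  obtain ⟨e0, he0, hmin⟩ := exists_min_image sgs ce hne
  set c := ce e0 with hc
  set C : ℝ := ∑ e ∈ sgs, Ce e + 1 with hCdef
  have hC0 : 0 < ∑ e ∈ sgs, Ce e := sum_pos hCe hne
  refine ⟨C, c, by positivity, hce e0 he0, fun r => ?_⟩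
  set E : ℝ := Real.exp (-(c * (r * Real.log r))) with hE
  have hE0 : 0 < E := Real.exp_pos _
  have hall : ∀ᶠ X : ℕ in Filter.atTop, ∀ e ∈ sgs,
      (((Icc 1 X ×ˢ Icc 1 X).filter (fun t : ℕ × ℕ =>
        Bz cls a μ α β r (e.1 * ((t.1 : ℕ) : ℤ), e.2 * ((t.2 : ℕ) : ℤ)))).card : ℝ) ≤
        Ce e * Real.exp (-(ce e * (r * Real.log r))) * X ^ 2 := by
    rw [Filter.eventually_all_finset]
    intro e he
    exact hev' e he r
  filter_upwards [hall, Filter.eventually_ge_atTop ⌈4 / E⌉₊, Filter.eventually_ge_atTop 1]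
    with X hX hX1 hX2
  set g : ℤ × ℤ → ℝ := fun t => if Bz cls a μ α β r t then 1 else 0 with hg
  have hg0 : ∀ t, 0 ≤ g t := fun t => by rw [hg]; simp only; split_ifs <;> norm_num
  have hg1 : ∀ t, g t ≤ 1 := fun t => by rw [hg]; simp only; split_ifs <;> norm_num
  have hgc : ∀ t, g t ≠ 0 → IsCoprime t.1 t.2 := by
    intro t ht
    by_contra h
    apply ht
    rw [hg]
    simp only
    rw [if_neg (fun h' => h h'.1)]
  have h1 := box_le g hg0 hgc X
  have h2 : (((Box X).filter (Bz cls a μ α β r)).card : ℝ) = ∑ t ∈ Box X, g t := by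
    rw [hg, sum_ite, sum_const_zero, add_zero, sum_const, nsmul_eq_mul, mul_one]
  rw [h2]
  refine h1.trans ?_
  have h3 : ∑ e ∈ sgs, ∑ t ∈ Icc 1 X ×ˢ Icc 1 X,
      g (e.1 * ((t.1 : ℕ) : ℤ), e.2 * ((t.2 : ℕ) : ℤ)) ≤ (∑ e ∈ sgs, Ce e) * E * X ^ 2 := by
    rw [sum_mul, sum_mul]
    apply sum_le_sum
    intro e he
    have h4 : ∑ t ∈ Icc 1 X ×ˢ Icc 1 X, g (e.1 * ((t.1 : ℕ) : ℤ), e.2 * ((t.2 : ℕ) : ℤ)) =
        (((Icc 1 X ×ˢ Icc 1 X).filter (fun t : ℕ × ℕ =>
        Bz cls a μ α β r (e.1 * ((t.1 : ℕ) : ℤ), e.2 * ((t.2 : ℕ) : ℤ)))).card : ℝ) := by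
      rw [hg]
      simp only
      rw [sum_ite, sum_const_zero, add_zero, sum_const, nsmul_eq_mul, mul_one]
    rw [h4]
    refine (hX e he).trans ?_
    apply mul_le_mul_of_nonneg_right _ (by positivity)
    exact mul_le_mul_of_nonneg_left (exp_mono_c (hmin e he) r) (hCe e he).le
  have h4 : g (0, 1) + g (0, -1) + g (1, 0) + g (-1, 0) ≤ E * X ^ 2 := by
    have hXr : (1 : ℝ) ≤ X := by exact_mod_cast hX2
    have h5 : 4 / E ≤ X := (Nat.le_ceil _).trans (by exact_mod_cast hX1)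
    rw [div_le_iff₀ hE0] at h5
    have := hg1 (0, 1)
    have := hg1 (0, -1)
    have := hg1 (1, 0)
    have := hg1 (-1, 0)
    have h6 : E * X ≤ E * X ^ 2 := by
      apply mul_le_mul_of_nonneg_left _ hE0.le
      nlinarith
    linarith
  calc _ ≤ (∑ e ∈ sgs, Ce e) * E * X ^ 2 + E * X ^ 2 := add_le_add h3 h4
    _ = C * E * X ^ 2 := by rw [hCdef]; ring

open Classical in
/-- **All the coprime pairs of a box.** -/
theorem bf_box' (cls : J → Fin 4) (a : Fin 3 → ℤ) (μ : J → ℕ) (α β : J → ℤ)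
    (hT : Tri2 cls (fun _ => false) (fun j i => if i = 0 then kapM cls a μ α β j else 1))
    (hcls : ∀ j, cls j ≠ 3) (ha : ∀ k, a k ≠ 0) (hμ : ∀ j, 1 ≤ μ j)
    (hαβ : ∀ j, α j ≠ 0 ∨ β j ≠ 0)
    (hR : ∀ j l, j ≠ l → Res α β j l ≠ 0) (hev : ∀ k, Even (∑ l ∈ fc cls k, μ l))
    (hodd : ∀ j, Odd (μ j) ∨ IsSquare (kapM cls a μ α β j))
    (hF : ∀ u v : ℤ, FM cls a μ (fv α β u v) 0 - FM cls a μ (fv α β u v) 1 =
      FM cls a μ (fv α β u v) 2) :
    ∃ C c : ℝ, 0 < C ∧ 0 < c ∧ ∀ r : ℕ, ∀ᶠ T : ℕ in Filter.atTop,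
      (((Box T).filter (Bz cls a μ α β r)).card : ℝ) ≤
        C * Real.exp (-(c * (r * Real.log r))) * T ^ 2 := by
  obtain ⟨q, hq⟩ := exists_shift α β hαβ
  set α' : J → ℤ := fun j => α j + q * β j with hα'
  have hfv : ∀ u v : ℤ, fv α' β u (v - q * u) = fv α β u v := by
    intro u v
    funext j
    unfold fv
    rw [hα']
    ring
  have hfv' : ∀ u v : ℤ, fv α' β u v = fv α β u (v + q * u) := by
    intro u v
    funext j
    unfold fv
    rw [hα']
    ring
  have hRes : ∀ j l, Res α' β j l = Res α β j l := by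
    intro j l
    unfold Res
    rw [hα']
    ring
  have hkap : ∀ j, kapM cls a μ α' β j = kapM cls a μ α β j := by
    intro j
    unfold kapM
    simp only [hRes]
  obtain ⟨C, c, hC, hc, h⟩ := bf_box0' cls a μ α' β (by simp only [hkap]; exact hT) hcls ha hμ hq
    (fun j l hjl => by rw [hRes]; exact hR j l hjl) hev (fun j => by rw [hkap]; exact hodd j)
    (fun u v => by rw [hfv']; exact hF _ _)
  refine ⟨C * ((q : ℝ) + 1) ^ 2, c, by positivity, hc, fun r => ?_⟩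
  have h1 : Filter.Tendsto (fun T : ℕ => (q + 1) * T) Filter.atTop Filter.atTop :=
    Filter.tendsto_atTop_atTop.2 fun b => ⟨b, fun T hT => by
      have : T ≤ (q + 1) * T := Nat.le_mul_of_pos_left _ (Nat.succ_pos q)
      omega⟩
  filter_upwards [h1.eventually (h r)] with T hT'
  set g : ℤ × ℤ → ℝ := fun t => if Bz cls a μ α' β r t then 1 else 0 with hg
  have hg0 : ∀ t, 0 ≤ g t := fun t => by rw [hg]; simp only; split_ifs <;> norm_num
  have h2 := box_shift g hg0 q T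
  have h3 : (((Box T).filter (Bz cls a μ α β r)).card : ℝ) =
      ∑ t ∈ Box T, g (t.1, t.2 - q * t.1) := by
    rw [hg]
    simp only
    rw [sum_ite, sum_const_zero, add_zero, sum_const, nsmul_eq_mul, mul_one]
    congr 2
    apply filter_congr
    intro t _
    unfold Bz rkz
    simp only
    rw [hfv]
    have h7 : IsCoprime t.1 (t.2 - q * t.1) ↔ IsCoprime t.1 t.2 := by
      have : t.2 - q * t.1 = t.2 + (-(q : ℤ)) * t.1 := by ring
      rw [this]
      exact IsCoprime.add_mul_right_right_iff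
    rw [h7]
  have h4 : (((Box ((q + 1) * T)).filter (Bz cls a μ α' β r)).card : ℝ) =
      ∑ t ∈ Box ((q + 1) * T), g t := by
    rw [hg, sum_ite, sum_const_zero, add_zero, sum_const, nsmul_eq_mul, mul_one]
  rw [h3]
  refine h2.trans ?_
  rw [← h4]
  refine hT'.trans (le_of_eq ?_)
  push_cast
  ring

end Pool.Agent.H457.A
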