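import Pool.Agent.H457.A.BF3
import Pool.Agent.H457.A.BF7
import Pool.Graph.R_seed8.W307.RT.Main4

/-!
# The tail of the rank over all elliptic curves over `ℚ` with a subgroup `Z/2 x Z/4`, by height
-/

set_option autoImplicit false

namespace Pool.Agent.H457.A

open Finset Filter Pool.Agent.W262.RK Pool.Agent.W307.RT

/-- the natural forms for `Z/2 x Z/4` -/
def a4' : Fin 4 → ℤ := ![1, 0, 1, 1]
/-- the natural forms for `Z/2 x Z/4` -/
def b4' : Fin 4 → ℤ := ![0, 1, -1, 1]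

lemma FM40' (u v : ℤ) : FM c4 (fun _ => -1) m4 (fv a4' b4' u v) 0 = -(M4 u v) := by
  unfold FM M4
  rw [fc40, prod_singleton]
  change (-1 : ℤ) * (1 * u + 0 * v) ^ 2 = _
  ring

lemma FM41' (u v : ℤ) : FM c4 (fun _ => -1) m4 (fv a4' b4' u v) 1 = -(N4 u v) := by
  unfold FM N4
  rw [fc41, prod_singleton]
  change (-1 : ℤ) * (0 * u + 1 * v) ^ 2 = _
  ring

lemma FM42' (u v : ℤ) : FM c4 (fun _ => -1) m4 (fv a4' b4' u v) 2 = -(M4 u v) + N4 u v := by
  unfold FM M4 N4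
  rw [fc42, prod_pair (by decide)]
  change (-1 : ℤ) * ((1 * u + -1 * v) ^ 1 * (1 * u + 1 * v) ^ 1) = _
  ring

lemma tri24 : Tri2 c4 (fun _ => false)
    (fun j i => if i = 0 then kapM c4 (fun _ => -1) m4 a4' b4' j else 1) := by
  refine ⟨by unfold nc c4; decide, fun c hc3 _ hc => ?_⟩
  have hc2 : c = 2 := by
    have h : ∀ c : Fin 4, c ≠ 3 → nc c4 0 + nc c4 1 + nc c4 2 = 2 * nc c4 c → c = 2 := by
      unfold nc c4
      decide
    exact h c hc3 hc
  refine ⟨2, by rw [hc2]; decide, Or.inr ?_⟩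
  show IsSquare (-kapM c4 (fun _ => -1) m4 a4' b4' 2)
  refine ⟨1, ?_⟩
  decide

lemma odd4 : ∀ j : Fin 4, Odd (m4 j) ∨ IsSquare (kapM c4 (fun _ => -1) m4 a4' b4' j) := by
  intro j
  fin_cases j
  · exact Or.inr ⟨1, by decide⟩
  · exact Or.inr ⟨1, by decide⟩
  · exact Or.inl (by decide)
  · exact Or.inl (by decide)

/-- **All the curves with a subgroup `Z/2 x Z/4`.** -/
theorem height_tail4 : ∃ C c : ℝ, 0 < C ∧ 0 < c ∧ ∀ r : ℕ, ∀ᶠ H : ℕ in atTop,
    ((CRm 4 r H).card : ℝ) ≤ C * Real.exp (-(c * (r * Real.log r))) * (Cv 4 H).card := by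
  classical
  refine final_tail (by norm_num) (Pool.Agent.W605.RT.par4_of Pool.Agent.W261.RT.iso)
    Pool.Agent.W29.RT.low4
    (fun r T => (Box T).filter (Bz c4 (fun _ => -1) m4 a4' b4' r)) ?_
    (bf_box' c4 (fun _ => -1) m4 a4' b4' tri24 (by decide) (by decide) (by decide)
      (by decide) (by decide) (by decide) odd4
      (fun u v => by rw [FM40', FM41', FM42']; ring))
  intro r T t ht hco hM hN hMN hr
  rw [mem_filter]
  refine ⟨ht, hco, ?_, ?_⟩
  · intro k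
    fin_cases k
    · change FM c4 _ m4 _ 0 ≠ 0
      rw [FM40']
      exact neg_ne_zero.2 hM
    · change FM c4 _ m4 _ 1 ≠ 0
      rw [FM41']
      exact neg_ne_zero.2 hN
    · change FM c4 _ m4 _ 2 ≠ 0
      rw [FM42']
      intro h
      exact hMN (by linarith)
  · unfold rkz
    rw [FM40', FM41']
    exact hr

end Pool.Agent.H457.A
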