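import Pool.Agent.H457.A.Loc2
import Pool.Agent.H457.A.ATt4

set_option autoImplicit false
set_option linter.unusedSectionVars false

/-! Combinatorics of the unlinked sets of types: isotropic subspaces and three transversal
Lagrangian subspaces. -/

namespace Pool.Agent.H457.A

open Finset Pool.Agent.W262.RK

section symplectic

variable {k : ℕ}

lemma dt_add_left (x x' v : Vk k) : dt (x + x') v = dt x v + dt x' v := by
  unfold dt
  rw [← sum_add_distrib]
  refine sum_congr rfl fun r _ => ?_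
  simp only [Pi.add_apply, Prod.fst_add, Prod.snd_add]
  ring

lemma dt_add_right (x v v' : Vk k) : dt x (v + v') = dt x v + dt x v' := by
  unfold dt
  rw [← sum_add_distrib]
  refine sum_congr rfl fun r _ => ?_
  simp only [Pi.add_apply, Prod.fst_add, Prod.snd_add]
  ring

lemma dt_smul_left (a : ZMod 2) (x v : Vk k) : dt (a • x) v = a * dt x v := by
  unfold dt
  rw [mul_sum]
  refine sum_congr rfl fun r _ => ?_
  simp only [Pi.smul_apply, Prod.smul_fst, Prod.smul_snd, smul_eq_mul]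
  ring

lemma dt_smul_right (a : ZMod 2) (x v : Vk k) : dt x (a • v) = a * dt x v := by
  unfold dt
  rw [mul_sum]
  refine sum_congr rfl fun r _ => ?_
  simp only [Pi.smul_apply, Prod.smul_fst, Prod.smul_snd, smul_eq_mul]
  ring

/-- the symplectic form -/
def Bf (k : ℕ) : LinearMap.BilinForm (ZMod 2) (Vk k × Vk k) :=
  LinearMap.mk₂ (ZMod 2) (fun m n => dt n.2 m.1 + dt m.2 n.1)
    (fun m m' n => by
      simp only [Prod.fst_add, Prod.snd_add, dt_add_left, dt_add_right]; ring)
    (fun a m n => by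
      simp only [Prod.smul_fst, Prod.smul_snd, dt_smul_left, dt_smul_right, smul_eq_mul]; ring)
    (fun m n n' => by
      simp only [Prod.fst_add, Prod.snd_add, dt_add_left, dt_add_right]; ring)
    (fun a m n => by
      simp only [Prod.smul_fst, Prod.smul_snd, dt_smul_left, dt_smul_right, smul_eq_mul]; ring)

lemma Bf_apply (m n : Vk k × Vk k) : Bf k m n = dt n.2 m.1 + dt m.2 n.1 := rfl

lemma dt_single (r : Fin k) (a : Z2) (v : Vk k) :
    dt (Pi.single r a) v = a.1 * (v r).1 + a.2 * (v r).2 := by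
  unfold dt
  rw [sum_eq_single r]
  · simp
  · intro b _ hb
    rw [Pi.single_eq_of_ne hb]
    simp
  · intro h; exact absurd (mem_univ r) h

lemma dt_single' (r : Fin k) (a : Z2) (x : Vk k) :
    dt x (Pi.single r a) = (x r).1 * a.1 + (x r).2 * a.2 := by
  unfold dt
  rw [sum_eq_single r]
  · simp
  · intro b _ hb
    rw [Pi.single_eq_of_ne hb]
    simp
  · intro h; exact absurd (mem_univ r) h

lemma dt_zero_left (v : Vk k) : dt 0 v = 0 := by
  unfold dt
  simp

lemma dt_zero_right (x : Vk k) : dt x 0 = 0 := by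
  unfold dt
  simp

lemma Bf_ker : LinearMap.ker (Bf k) = ⊥ := by
  rw [LinearMap.ker_eq_bot']
  intro m hm
  have h : ∀ n : Vk k × Vk k, dt n.2 m.1 + dt m.2 n.1 = 0 := fun n => by
    rw [← Bf_apply, hm]
    rfl
  refine Prod.ext ?_ ?_
  · funext r
    have h1 := h (0, Pi.single r (1, 0))
    have h2 := h (0, Pi.single r (0, 1))
    rw [dt_zero_right, dt_single] at h1 h2
    refine Prod.ext ?_ ?_
    · simpa using h1
    · simpa using h2
  · funext r
    have h1 := h (Pi.single r (1, 0), 0)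
    have h2 := h (Pi.single r (0, 1), 0)
    rw [dt_zero_left, dt_single'] at h1 h2
    refine Prod.ext ?_ ?_
    · simpa using h1
    · simpa using h2

lemma card_M : Fintype.card (Vk k × Vk k) = 16 ^ k := by
  rw [Fintype.card_prod, Fintype.card_fun, Fintype.card_prod, ZMod.card, Fintype.card_fin,
    ← mul_pow]
  norm_num

open Classical in
/-- an isotropic subspace is small -/
lemma iso_card (S : Submodule (ZMod 2) (Vk k × Vk k))
    (hS : ∀ m ∈ S, ∀ n ∈ S, Bf k m n = 0) :
    (univ.filter (fun m => m ∈ S)).card ^ 2 ≤ 16 ^ k := by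
  have h1 : (univ.filter (fun m => m ∈ S)).card = Fintype.card S := by
    rw [Fintype.card_subtype]
  have h2 : S ≤ (Bf k).orthogonal S := by
    intro m hm
    rw [LinearMap.BilinForm.mem_orthogonal_iff]
    intro n hn
    exact hS n hn m hm
  have h3 := LinearMap.BilinForm.finrank_add_finrank_orthogonal' (B := Bf k) S
  have h4 : (S ⊓ (Bf k).ker : Submodule (ZMod 2) (Vk k × Vk k)) = ⊥ := by
    rw [Bf_ker, inf_bot_eq]
  rw [h4, finrank_bot, add_zero] at h3
  have h5 := Submodule.finrank_mono h2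
  rw [h1, Module.card_eq_pow_finrank (K := ZMod 2) (V := S), ZMod.card, ← pow_mul, ← card_M,
    Module.card_eq_pow_finrank (K := ZMod 2) (V := Vk k × Vk k), ZMod.card]
  apply Nat.pow_le_pow_right (by norm_num)
  omega

open Classical in
/-- two transversal pieces -/
lemma piece_card (S : Submodule (ZMod 2) (Vk k × Vk k)) (V V' : (Vk k × Vk k) → Prop)
    (hV : ∀ m n, V m → V n → V (m - n)) (hV' : ∀ m n, V' m → V' n → V' (m - n))
    (hVV : ∀ m, V m → V' m → m = 0) :
    (univ.filter (fun m => m ∈ S ∧ V m)).card * (univ.filter (fun m => m ∈ S ∧ V' m)).card ≤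
      (univ.filter (fun m => m ∈ S)).card := by
  rw [← card_product]
  apply card_le_card_of_injOn (fun q : (Vk k × Vk k) × (Vk k × Vk k) => q.1 + q.2)
  · rintro ⟨m, n⟩ h
    rw [mem_coe, mem_product, mem_filter, mem_filter] at h
    rw [mem_coe, mem_filter]
    exact ⟨mem_univ _, S.add_mem h.1.2.1 h.2.2.1⟩
  · rintro ⟨m, n⟩ h ⟨m', n'⟩ h' he
    rw [mem_coe, mem_product, mem_filter, mem_filter] at h h'
    simp only at h h' he
    have e1 : m - m' = n' - n := by
      have := he
      rw [sub_eq_sub_iff_add_eq_add, this, add_comm]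
    have h1 := hVV (m - m') (hV _ _ h.1.2.2 h'.1.2.2) (by
      rw [e1]; exact hV' _ _ h'.2.2.2 h.2.2.2)
    have h2 : m = m' := sub_eq_zero.1 h1
    rw [h1] at e1
    have h3 : n' = n := sub_eq_zero.1 e1.symm
    rw [h2, h3]

/-- the three Lagrangian subspaces -/
def inV (c : Fin 4) (m : Vk k × Vk k) : Prop :=
  ∀ r, (m.1 r = 0 ∨ m.1 r = ez c) ∧ (m.2 r = 0 ∨ m.2 r = (ez c).swap)

lemma z2_sub : ∀ (e a b : Z2), (a = 0 ∨ a = e) → (b = 0 ∨ b = e) → (a - b = 0 ∨ a - b = e) := by
  decide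

lemma inV_sub (c : Fin 4) (m n : Vk k × Vk k) (hm : inV c m) (hn : inV c n) : inV c (m - n) :=
  fun r => ⟨z2_sub _ _ _ (hm r).1 (hn r).1, z2_sub _ _ _ (hm r).2 (hn r).2⟩

lemma ez_ne : ∀ c c' : Fin 4, c ≠ 3 → c' ≠ 3 → c ≠ c' → ∀ a : Z2,
    ((a = 0 ∨ a = ez c) → (a = 0 ∨ a = ez c') → a = 0) ∧
    ((a = 0 ∨ a = (ez c).swap) → (a = 0 ∨ a = (ez c').swap) → a = 0) := by
  decide

lemma inV_zero {c c' : Fin 4} (h : c ≠ 3) (h' : c' ≠ 3) (hne : c ≠ c') (m : Vk k × Vk k)
    (hm : inV c m) (hm' : inV c' m) : m = 0 := by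
  refine Prod.ext ?_ ?_
  · funext r
    exact (ez_ne c c' h h' hne (m.1 r)).1 (hm r).1 (hm' r).1
  · funext r
    exact (ez_ne c c' h h' hne (m.2 r)).2 (hm r).2 (hm' r).2

end symplectic

section weights

variable {J : Type} [Fintype J] [DecidableEq J]

/-- from upper bounds for the weights -/
lemma dicho {x b : J → ℝ} (_hx0 : ∀ j, 0 ≤ x j) (hb : ∀ j, 0 < b j) (hxb : ∀ j, x j ≤ b j)
    (hs : ∑ j, Real.log (b j) ≤ 0) (hs1 : ∑ j, Real.log (b j) = 0 → ∀ j, b j = 1) :
    (∀ j, x j = 1) ∨ ∃ θ : J → ℝ, (∀ j, 0 < θ j) ∧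
      ∑ j, (x j * θ j - Real.log (θ j)) < (Fintype.card J : ℝ) := by
  by_cases h : (∀ j, x j = b j) ∧ ∑ j, Real.log (b j) = 0
  · left
    intro j
    rw [h.1 j, hs1 h.2 j]
  · right
    refine ⟨fun j => 1 / b j, fun j => by have := hb j; positivity, ?_⟩
    have e : ∀ j, x j * (1 / b j) - Real.log (1 / b j) = x j / b j + Real.log (b j) := by
      intro j
      rw [one_div, Real.log_inv]
      ring
    simp only [e]
    rw [sum_add_distrib]
    have h1 : ∀ j, x j / b j ≤ 1 := fun j => by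
      rw [div_le_one (hb j)]
      exact hxb j
    have h2 : ∑ j, x j / b j ≤ (Fintype.card J : ℝ) := by
      calc ∑ j, x j / b j ≤ ∑ _j : J, (1 : ℝ) := sum_le_sum fun j _ => h1 j
        _ = _ := by simp
    by_cases h3 : ∑ j, Real.log (b j) = 0
    · have h4 : ∃ j, x j ≠ b j := by
        by_contra hcon
        push Not at hcon
        exact h ⟨hcon, h3⟩
      obtain ⟨j, hj⟩ := h4
      have h5 : ∑ j, x j / b j < ∑ _j : J, (1 : ℝ) := by
        apply sum_lt_sum (fun j _ => h1 j)
        refine ⟨j, mem_univ j, ?_⟩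
        rw [div_lt_one (hb j)]
        exact lt_of_le_of_ne (hxb j) hj
      have h6 : ∑ _j : J, (1 : ℝ) = (Fintype.card J : ℝ) := by simp
      rw [h3, add_zero]
      linarith
    · have h4 := lt_of_le_of_ne hs h3
      linarith

end weights

section main

variable {J : Type} [Fintype J] [DecidableEq J] {k : ℕ}

/-- the number of the forms of a class -/
def nc (cls : J → Fin 4) (c : Fin 4) : ℕ := (univ.filter (fun j => cls j = c)).card

/-- strict triangle inequality, or no forms -/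
def Tri (cls : J → Fin 4) : Prop :=
  (nc cls 0 < nc cls 1 + nc cls 2 ∧ nc cls 1 < nc cls 0 + nc cls 2 ∧
    nc cls 2 < nc cls 0 + nc cls 1) ∨ (nc cls 0 = 0 ∧ nc cls 1 = 0 ∧ nc cls 2 = 0)

lemma tri_sum {n0 n1 n2 : ℕ} {a b c : ℝ}
    (h : (n0 < n1 + n2 ∧ n1 < n0 + n2 ∧ n2 < n0 + n1) ∨ (n0 = 0 ∧ n1 = 0 ∧ n2 = 0))
    (hab : a + b ≤ 0) (hac : a + c ≤ 0) (hbc : b + c ≤ 0) :
    n0 * a + n1 * b + n2 * c ≤ 0 ∧ (n0 * a + n1 * b + n2 * c = 0 →
      (n0 = 0 ∨ a = 0) ∧ (n1 = 0 ∨ b = 0) ∧ (n2 = 0 ∨ c = 0)) := by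
  rcases h with ⟨h0, h1, h2⟩ | ⟨h0, h1, h2⟩
  · have g0 : (n0 : ℝ) + 1 ≤ n1 + n2 := by exact_mod_cast h0
    have g1 : (n1 : ℝ) + 1 ≤ n0 + n2 := by exact_mod_cast h1
    have g2 : (n2 : ℝ) + 1 ≤ n0 + n1 := by exact_mod_cast h2
    have p0 : (0 : ℝ) ≤ n0 := Nat.cast_nonneg _
    have p1 : (0 : ℝ) ≤ n1 := Nat.cast_nonneg _
    have p2 : (0 : ℝ) ≤ n2 := Nat.cast_nonneg _
    by_cases ha : 0 < a
    · have hb : b ≤ -a := by linarith
      have hc : c ≤ -a := by linarith
      have : n0 * a + n1 * b + n2 * c < 0 := by nlinarith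
      exact ⟨this.le, fun h => absurd h this.ne⟩
    by_cases hb : 0 < b
    · have ha' : a ≤ -b := by linarith
      have hc : c ≤ -b := by linarith
      have : n0 * a + n1 * b + n2 * c < 0 := by nlinarith
      exact ⟨this.le, fun h => absurd h this.ne⟩
    by_cases hc : 0 < c
    · have ha' : a ≤ -c := by linarith
      have hb' : b ≤ -c := by linarith
      have : n0 * a + n1 * b + n2 * c < 0 := by nlinarith
      exact ⟨this.le, fun h => absurd h this.ne⟩
    push Not at ha hb hc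
    have q0 : n0 * a ≤ 0 := mul_nonpos_of_nonneg_of_nonpos p0 ha
    have q1 : n1 * b ≤ 0 := mul_nonpos_of_nonneg_of_nonpos p1 hb
    have q2 : n2 * c ≤ 0 := mul_nonpos_of_nonneg_of_nonpos p2 hc
    refine ⟨by linarith, fun h => ?_⟩
    have r0 : n0 * a = 0 := by linarith
    have r1 : n1 * b = 0 := by linarith
    have r2 : n2 * c = 0 := by linarith
    refine ⟨?_, ?_, ?_⟩
    · rcases mul_eq_zero.1 r0 with h | h
      · left; exact_mod_cast h
      · right; exact h
    · rcases mul_eq_zero.1 r1 with h | h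
      · left; exact_mod_cast h
      · right; exact h
    · rcases mul_eq_zero.1 r2 with h | h
      · left; exact_mod_cast h
      · right; exact h
  · subst h0 h1 h2
    simp

lemma sum_cls (cls : J → Fin 4) (g : Fin 4 → ℝ) (h3 : g 3 = 0) :
    ∑ j, g (cls j) = nc cls 0 * g 0 + nc cls 1 * g 1 + nc cls 2 * g 2 := by
  rw [← sum_fiberwise univ cls (fun j => g (cls j)), Fin.sum_univ_four]
  have h : ∀ c : Fin 4, ∑ j ∈ univ.filter (fun j => cls j = c), g (cls j) = nc cls c * g c := by
    intro c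
    unfold nc
    rw [← nsmul_eq_mul, ← sum_const]
    exact sum_congr rfl fun j hj => by rw [(mem_filter.1 hj).2]
  rw [h, h, h, h, h3]
  ring

/-- the hypothesis about the unlinked sets holds -/
theorem hu_of (cls : J → Fin 4) (hT : Tri cls) (P : J → Vk k → Vk k → Bool)
    (hP : ∀ j v x, P j v x = true → cls j ≠ 3 → inV (cls j) (v, x)) :
    HU (wK P (W4 k cls)) (LK P) (fun i : IK P => i.1.1) := by
  classical
  intro U hU
  set S : Submodule (ZMod 2) (Vk k × Vk k) :=
    Submodule.span (ZMod 2) ((U.image (fun i : IK P => i.1.2) : Finset (Vk k × Vk k)) :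
      Set (Vk k × Vk k)) with hS
  have hUS : ∀ i ∈ U, i.1.2 ∈ S := fun i hi =>
    Submodule.subset_span (mem_coe.2 (mem_image_of_mem _ hi))
  have h01 : ∀ a b : ZMod 2, (a = 1 ↔ b = 1) → a + b = 0 := by decide
  have hlink : ∀ i ∈ U, ∀ j ∈ U, Bf k i.1.2 j.1.2 = 0 := by
    intro i hi j hj
    rw [Bf_apply]
    apply h01
    have := hU i hi j hj
    unfold LK at this
    exact decide_eq_decide.1 this
  have hiso : ∀ m ∈ S, ∀ n ∈ S, Bf k m n = 0 := by
    intro m hm n hn
    induction hm using Submodule.span_induction with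
    | mem m hm =>
      obtain ⟨i, hi, rfl⟩ := mem_image.1 (mem_coe.1 hm)
      induction hn using Submodule.span_induction with
      | mem n hn =>
        obtain ⟨j, hj, rfl⟩ := mem_image.1 (mem_coe.1 hn)
        exact hlink i hi j hj
      | zero => rw [map_zero]
      | add a b _ _ ha hb => rw [map_add, ha, hb, add_zero]
      | smul a b _ hb => rw [map_smul, hb, smul_zero]
    | zero => rw [map_zero]; rfl
    | add a b _ _ ha hb => rw [map_add, LinearMap.add_apply, ha, hb, add_zero]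
    | smul a b _ hb => rw [map_smul, LinearMap.smul_apply, hb, smul_zero]
  have hcard := iso_card S hiso
  set NS : ℕ := (univ.filter (fun m => m ∈ S)).card with hNS
  have hNS4 : NS ≤ 4 ^ k := by
    have e : (16 : ℕ) ^ k = (4 ^ k) ^ 2 := by
      rw [← pow_mul, mul_comm, pow_mul]
      norm_num
    rw [e] at hcard
    exact (Nat.pow_le_pow_iff_left two_ne_zero).1 hcard
  set N : Fin 4 → ℕ := fun c => (univ.filter (fun m => m ∈ S ∧ inV c m)).card with hN
  have hN1 : ∀ c, 1 ≤ N c := by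
    intro c
    apply Nat.succ_le_of_lt
    rw [hN]
    simp only
    rw [card_pos]
    exact ⟨0, mem_filter.2 ⟨mem_univ _, S.zero_mem, fun r => ⟨Or.inl rfl, Or.inl rfl⟩⟩⟩
  have hNN : ∀ c c', c ≠ 3 → c' ≠ 3 → c ≠ c' → N c * N c' ≤ 4 ^ k := fun c c' h h' hne =>
    (piece_card S (inV c) (inV c') (inV_sub c) (inV_sub c') (inV_zero h h' hne)).trans hNS4
  -- the upper bounds
  set b : Fin 4 → ℝ := fun c => if c = 3 then 1 else (N c : ℝ) / 2 ^ k with hb
  have hb0 : ∀ c, 0 < b c := by
    intro c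
    rw [hb]
    simp only
    split_ifs
    · exact one_pos
    · have : (0 : ℝ) < N c := by exact_mod_cast hN1 c
      positivity
  have hbb : ∀ c c', c ≠ 3 → c' ≠ 3 → c ≠ c' → Real.log (b c) + Real.log (b c') ≤ 0 := by
    intro c c' h h' hne
    rw [← Real.log_mul (hb0 c).ne' (hb0 c').ne']
    apply Real.log_nonpos (mul_pos (hb0 c) (hb0 c')).le
    rw [hb]
    simp only
    rw [if_neg h, if_neg h', div_mul_div_comm, div_le_one (by positivity)]
    have h1 : ((N c * N c' : ℕ) : ℝ) ≤ ((4 ^ k : ℕ) : ℝ) := by exact_mod_cast hNN c c' h h' hne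
    push_cast at h1
    calc (N c : ℝ) * N c' ≤ 4 ^ k := h1
      _ = 2 ^ k * 2 ^ k := by rw [← mul_pow]; norm_num
  have hW0 : ∀ j, 0 ≤ W4 k cls j := by
    intro j
    unfold W4
    split_ifs <;> positivity
  have hxw : ∀ j, xw (wK P (W4 k cls)) (fun i : IK P => i.1.1) U j =
      ((U.filter (fun i : IK P => i.1.1 = j)).card : ℝ) * W4 k cls j := by
    intro j
    unfold xw wK
    rw [← nsmul_eq_mul, ← sum_const]
    exact sum_congr rfl fun i hi => by rw [(mem_filter.1 hi).2]
  have hx0 : ∀ j, 0 ≤ xw (wK P (W4 k cls)) (fun i : IK P => i.1.1) U j := fun j => by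
    rw [hxw]
    exact mul_nonneg (Nat.cast_nonneg _) (hW0 j)
  have hinj : ∀ j, Set.InjOn (fun i : IK P => i.1.2) (U.filter (fun i : IK P => i.1.1 = j)) := by
    intro j i hi i' hi' h
    rw [mem_coe, mem_filter] at hi hi'
    apply Subtype.ext
    exact Prod.ext (hi.2.trans hi'.2.symm) h
  have hxb : ∀ j, xw (wK P (W4 k cls)) (fun i : IK P => i.1.1) U j ≤ b (cls j) := by
    intro j
    rw [hxw, hb]
    simp only
    unfold W4
    by_cases hc : cls j = 3
    · rw [if_pos hc, if_pos hc]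
      have h1 : (U.filter (fun i : IK P => i.1.1 = j)).card ≤ NS := by
        apply card_le_card_of_injOn (fun i : IK P => i.1.2) _ (hinj j)
        intro i hi
        rw [mem_coe, mem_filter] at hi
        exact mem_coe.2 (mem_filter.2 ⟨mem_univ _, hUS i hi.1⟩)
      have h2 : ((U.filter (fun i : IK P => i.1.1 = j)).card : ℝ) ≤ 4 ^ k := by
        exact_mod_cast h1.trans hNS4
      calc _ ≤ (4 : ℝ) ^ k * (1 / 4) ^ k := mul_le_mul_of_nonneg_right h2 (by positivity)
        _ = 1 := by rw [← mul_pow]; norm_num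
    · rw [if_neg hc, if_neg hc]
      have h1 : (U.filter (fun i : IK P => i.1.1 = j)).card ≤ N (cls j) := by
        apply card_le_card_of_injOn (fun i : IK P => i.1.2) _ (hinj j)
        intro i hi
        rw [mem_coe, mem_filter] at hi
        refine mem_coe.2 (mem_filter.2 ⟨mem_univ _, hUS i hi.1, ?_⟩)
        have h3 := hP _ _ _ i.2 (by rw [hi.2]; exact hc)
        rw [hi.2] at h3
        exact h3
      have h2 : ((U.filter (fun i : IK P => i.1.1 = j)).card : ℝ) ≤ N (cls j) := by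
        exact_mod_cast h1
      calc _ ≤ (N (cls j) : ℝ) * (1 / 2) ^ k := mul_le_mul_of_nonneg_right h2 (by positivity)
        _ = _ := by rw [one_div, inv_pow]; rfl
  have hb3 : Real.log (b 3) = 0 := by
    rw [hb]
    simp
  have hsum := sum_cls cls (fun c => Real.log (b c)) hb3
  have htri := tri_sum hT (hbb 0 1 (by decide) (by decide) (by decide))
    (hbb 0 2 (by decide) (by decide) (by decide)) (hbb 1 2 (by decide) (by decide) (by decide))
  refine dicho (b := fun j => b (cls j)) hx0 (fun j => hb0 _) hxb ?_ ?_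
  · rw [hsum]
    exact htri.1
  · intro h0 j
    rw [hsum] at h0
    obtain ⟨q0, q1, q2⟩ := htri.2 h0
    have hlog : ∀ c, Real.log (b c) = 0 → b c = 1 := fun c hc =>
      Real.eq_one_of_pos_of_log_eq_zero (hb0 c) hc
    have hnc : ∀ c, cls j = c → nc cls c ≠ 0 := by
      intro c hc
      unfold nc
      exact (card_pos.2 ⟨j, mem_filter.2 ⟨mem_univ _, hc⟩⟩).ne'
    show b (cls j) = 1
    have hcase : cls j = 0 ∨ cls j = 1 ∨ cls j = 2 ∨ cls j = 3 := by
      generalize cls j = c
      revert c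
      decide
    rcases hcase with h | h | h | h
    · rw [h]
      exact hlog 0 (q0.resolve_left (hnc 0 h))
    · rw [h]
      exact hlog 1 (q1.resolve_left (hnc 1 h))
    · rw [h]
      exact hlog 2 (q2.resolve_left (hnc 2 h))
    · rw [h]
      exact hlog 3 hb3

end main

end Pool.Agent.H457.A
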