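import Pool.Agent.H457.A.NE9

set_option autoImplicit false
set_option linter.unusedSectionVars false

/-! The abstract bound restricted to typical tuples, the case of equality is allowed. -/

namespace Pool.Agent.H457.A

open Finset Pool.Agent.W262.RK Pool.Agent.W262.RK.AT Pool.Agent.W655.RK

variable {ι J : Type} [Fintype ι] [DecidableEq ι] [Fintype J] [DecidableEq J]

variable {w : ι → ℝ} {L : ι → ι → Bool} {κ : ι → ℤ} {c z : ℕ} {C : ℝ}

lemma small_of' {F : ℕ → ℝ} {C' a N : ℝ}
    (h : ∀ᶠ y : ℕ in Filter.atTop, F y ≤ C' * (Real.log y) ^ a) (ha : a < N) {η : ℝ} (hη : 0 < η) :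
    ∀ᶠ y : ℕ in Filter.atTop, F y ≤ η * (Real.log y) ^ N := by
  have h1 : Filter.Tendsto (fun y : ℕ => (Real.log y) ^ (N - a)) Filter.atTop Filter.atTop :=
    (tendsto_rpow_atTop (sub_pos.2 ha)).comp
      (Real.tendsto_log_atTop.comp tendsto_natCast_atTop_atTop)
  filter_upwards [h1.eventually_ge_atTop (C' / η), Filter.eventually_gt_atTop 2, h] with y hy1 hy2 hy3
  have hly := one_le_log (z := 2) le_rfl hy2
  have hly0 : 0 < Real.log y := by linarith
  rw [div_le_iff₀ hη] at hy1
  calc F y ≤ C' * (Real.log y) ^ a := hy3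
    _ ≤ ((Real.log y) ^ (N - a) * η) * (Real.log y) ^ a :=
        mul_le_mul_of_nonneg_right hy1 (Real.rpow_nonneg hly0.le _)
    _ = η * ((Real.log y) ^ (N - a) * (Real.log y) ^ a) := by ring
    _ = η * (Real.log y) ^ N := by rw [← Real.rpow_add hly0]; congr 2; ring

/-- the hypothesis about the unlinked sets, the case of equality is allowed -/
def HU' (w : ι → ℝ) (L : ι → ι → Bool) (κ : ι → ℤ) (pi : ι → J) : Prop :=
  ∀ U : Finset ι, (∀ i ∈ U, ∀ j ∈ U, L i j = L j i) → (∀ j, xw w pi U j = 1) ∨
    (∃ θ : J → ℝ, (∀ j, 0 < θ j) ∧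
      ∑ j, (xw w pi U j * θ j - Real.log (θ j)) < (Fintype.card J : ℝ)) ∨
    ∃ θ : J → ℝ, (∀ j, 0 < θ j) ∧
      ∑ j, (xw w pi U j * θ j - Real.log (θ j)) ≤ (Fintype.card J : ℝ) ∧
      ∃ (T : Finset ι) (g : ι → Bool), T ⊆ U ∧ TC L κ T g

/-- **The bound for the sum over the typical tuples.** -/
theorem at_typ' (hB : Bd w κ c z C) (hz : 2 * c + 2 ≤ z) {C2 : ℝ} {E2 : ℕ} (hC2 : 0 ≤ C2)
    (h2 : BW C2 E2) (hL : ∀ i, L i i = false) (hκ0 : ∀ i, κ i ≠ 0)
    (hκz : ∀ i, (κ i).natAbs ≤ z) (pi : ι → J) (hU : HU' w L κ pi) {CJ : ℝ}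
    (hG : GB (Fintype.card J : ℝ) c z CJ) :
    ∃ ε0 : ℝ, 0 < ε0 ∧ ∀ ε, 0 < ε → ε ≤ ε0 → ∀ᶠ y : ℕ in Filter.atTop,
      |∑ d ∈ Fintype.piFinset (fun _ : ι => (PP z y).divisors),
        HT w L κ c pi ε (Real.log y) d| ≤
        (2 ^ Fintype.card ι * CJ + 1) * (Real.log y) ^ (Fintype.card J : ℝ) := by
  classical
  set N : ℝ := ((Fintype.card J : ℕ) : ℝ) with hN
  -- the choice of `ε0`
  have hε : ∀ U : Finset ι, ∃ εU : ℝ, 0 < εU ∧ ∀ ε, 0 < ε → ε ≤ εU →
      (∀ i ∈ U, ∀ j ∈ U, L i j = L j i) → (∀ j, xw w pi U j = 1) ∨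
      (∃ θ : J → ℝ, (∀ j, 0 < θ j) ∧ ∃ a, a < N ∧
        ∑ j, (xw w pi U j * θ j - Real.log (θ j) + ε * |Real.log (θ j)|) < a) ∨
      ∃ θ : J → ℝ, (∀ j, 0 < θ j) ∧ ∃ a, a < N ∧ 0 ≤ a ∧
        ∃ (T : Finset ι) (g : ι → Bool), T ⊆ U ∧ TC L κ T g ∧ ∀ l ∈ T,
        ∑ j, (xw w pi U j * θ j - Real.log (θ j) + ε * |Real.log (θ j)|) -
          w l * θ (pi l) / 2 < a := by
    intro U
    by_cases hun : ∀ i ∈ U, ∀ j ∈ U, L i j = L j i
    · rcases hU U hun with h | ⟨θ, hθ, hθ2⟩ | ⟨θ, hθ, hθ2, T, g, hTU, hT⟩
      · exact ⟨1, one_pos, fun ε _ _ _ => Or.inl h⟩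
      · set T := ∑ j, |Real.log (θ j)| with hT
        have hT0 : 0 ≤ T := sum_nonneg fun _ _ => abs_nonneg _
        set G := N - ∑ j, (xw w pi U j * θ j - Real.log (θ j)) with hG
        have hG0 : 0 < G := sub_pos.2 hθ2
        refine ⟨G / (4 * (1 + T)), by positivity, fun ε hε hε2 _ => Or.inr (Or.inl ⟨θ, hθ,
          N - G / 2, by linarith, ?_⟩)⟩
        rw [sum_add_distrib, ← mul_sum, ← hT]
        have h1 : ε * T ≤ G / 4 := by
          calc ε * T ≤ G / (4 * (1 + T)) * (1 + T) :=
                mul_le_mul hε2 (by linarith) hT0 (by positivity)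
            _ = G / 4 := by field_simp
        have h2 : ∑ j, (xw w pi U j * θ j - Real.log (θ j)) = N - G := by rw [hG]; ring
        rw [h2]
        linarith
      · set T' := ∑ j, |Real.log (θ j)| with hT'
        have hT0 : 0 ≤ T' := sum_nonneg fun _ _ => abs_nonneg _
        have hTne : T.Nonempty := by
          by_contra hne
          rw [not_nonempty_iff_eq_empty] at hne
          have h1 := hT.odd
          rw [hne] at h1
          simp at h1
        have hN0 : 0 < N := by
          rw [hN]
          exact_mod_cast Fintype.card_pos_iff.2 ⟨pi hTne.choose⟩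
        set δ := T.inf' hTne (fun l => w l * θ (pi l) / 2) with hδ
        have hδ0 : 0 < δ := by
          refine (lt_inf'_iff _).2 fun l _ => ?_
          have := mul_pos (hB.w0 l) (hθ (pi l))
          linarith
        have hδl : ∀ l ∈ T, δ ≤ w l * θ (pi l) / 2 := fun l hl => inf'_le _ hl
        refine ⟨δ / (4 * (1 + T')), by positivity, fun ε hε hε2 _ => Or.inr (Or.inr ⟨θ, hθ,
          max 0 (N - δ / 2), max_lt hN0 (by linarith), le_max_left _ _, T, g, hTU, hT,
          fun l hl => ?_⟩)⟩
        rw [sum_add_distrib, ← mul_sum, ← hT']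
        have h1 : ε * T' ≤ δ / 4 := by
          calc ε * T' ≤ δ / (4 * (1 + T')) * (1 + T') :=
                mul_le_mul hε2 (by linarith) hT0 (by positivity)
            _ = δ / 4 := by field_simp
        have h2 := hδl l hl
        have h4 : N - δ / 2 ≤ max 0 (N - δ / 2) := le_max_right _ _
        linarith
    · exact ⟨1, one_pos, fun ε _ _ h => absurd h hun⟩
  choose εU hεU0 hεU using hε
  set ε0 := min (1 / 2) ((univ : Finset (Finset ι)).inf' univ_nonempty εU) with hε0
  have hε0U : ∀ U, ε0 ≤ εU U := fun U => (min_le_right _ _).trans (inf'_le _ (mem_univ U))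
  refine ⟨ε0, lt_min (by norm_num) ((lt_inf'_iff _).2 fun U _ => hεU0 U), fun ε hε hε1 => ?_⟩
  have hεlt : ε < 1 := by
    have : ε0 ≤ 1 / 2 := min_le_left _ _
    linarith
  set A := 6 * (3 * Fintype.card ι + 2 * E2) with hA
  set S : (ι → Fin 4) → ℕ → ℝ := fun π y =>
    |∑ d ∈ Fintype.piFinset (fun b => cell z y (VV A (Real.log y)) (YY A (Real.log y)) (π b)),
        HT w L κ c pi ε (Real.log y) d| with hS
  set g : (ι → Fin 4) → ℝ := fun π => if ∀ k, π k = 0 ∨ π k = 2 then CJ else 0 with hg
  have hCJ : 0 ≤ CJ := zero_le_one.trans hG.C1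
  have hg0 : ∀ π, 0 ≤ g π := fun π => by rw [hg]; simp only; split_ifs; exact hCJ; exact le_rfl
  -- all patterns
  have hpat : ∀ π : ι → Fin 4, ∀ η > 0, ∀ᶠ y : ℕ in Filter.atTop,
      S π y ≤ (g π + η) * (Real.log y) ^ N := by
    intro π η hη
    have hred : (∃ a C', a < N ∧ ∀ y : ℕ, z < y → S π y ≤ C' * (Real.log y) ^ a) →
        ∀ᶠ y : ℕ in Filter.atTop, S π y ≤ (g π + η) * (Real.log y) ^ N := by
      rintro ⟨a, C', ha, h⟩
      filter_upwards [small_of hB.z2 h ha hη] with y hy
      refine hy.trans (mul_le_mul_of_nonneg_right ?_ ?_)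
      · linarith [hg0 π]
      · exact Real.rpow_nonneg (Real.log_natCast_nonneg y) _
    have hNpos : ∀ k : ι, 0 < N := fun k => by
      rw [hN]
      exact_mod_cast Fintype.card_pos_iff.2 ⟨pi k⟩
    by_cases h3 : ∃ k, π k = 3
    · obtain ⟨k, hk⟩ := h3
      obtain ⟨C', hC'⟩ := huge_prod hB A π hk
      refine hred ⟨0, C', hNpos k, fun y hy => ?_⟩
      rw [Real.rpow_zero, mul_one]
      exact (trivT (fun i => (hB.w0 i).le) (by omega) (fun i => cell_sub _ _ _ _ _) pi ε _).trans
        (hC' y hy)
    push Not at h3
    by_cases hl : ∃ i j, π i = 2 ∧ π j = 2 ∧ L i j ≠ L j i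
    · obtain ⟨i, j, hi, hj, hij⟩ := hl
      obtain ⟨C', hC'⟩ := link_caseT hB hC2 h2 hL le_rfl pi ε π h3 hi hj hij
      refine hred ⟨0, C', hNpos i, fun y hy => ?_⟩
      rw [Real.rpow_zero, mul_one]
      exact hC' y hy
    push Not at hl
    set U := univ.filter (fun k => π k = 2) with hUdef
    have hun : ∀ i ∈ U, ∀ j ∈ U, L i j = L j i := fun i hi j hj =>
      hl i j (mem_filter.1 hi).2 (mem_filter.1 hj).2
    rcases hεU U ε hε (hε1.trans (hε0U U)) hun with hgood | ⟨θ, hθ, a, ha, hθ2⟩ |
      ⟨θ, hθ, a, ha, ha0, T, gT, hTU, hT, hθ2⟩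
    · by_cases h1 : ∃ j, π j = 1
      · obtain ⟨j, hj⟩ := h1
        have hjn : j ∉ U := by
          rw [hUdef, mem_filter, hj]
          rintro ⟨-, h⟩
          exact absurd h (by decide)
        have hex : ∃ i, π i = 2 ∧ L i j ≠ L j i := by
          by_contra hcon
          push Not at hcon
          have hun' : ∀ a ∈ insert j U, ∀ b ∈ insert j U, L a b = L b a := by
            intro a ha b hb
            rw [mem_insert] at ha hb
            rcases ha with rfl | ha
            · rcases hb with rfl | hb
              · rfl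
              · exact (hcon b (mem_filter.1 hb).2).symm
            · rcases hb with rfl | hb
              · exact hcon a (mem_filter.1 ha).2
              · exact hl a b (mem_filter.1 ha).2 (mem_filter.1 hb).2
          have hge : ∀ i, xw w pi U i ≤ xw w pi (insert j U) i := by
            intro i
            unfold xw
            apply sum_le_sum_of_subset_of_nonneg
            · exact filter_subset_filter _ (subset_insert _ _)
            · intro k _ _
              exact (hB.w0 k).le
          rcases hU _ hun' with h | ⟨θ, hθ, hθ2⟩ | ⟨θ, hθ, hθ2, -⟩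
          · have h4 := h (pi j)
            unfold xw at h4
            rw [filter_insert, if_pos rfl, sum_insert (fun h => hjn (mem_filter.1 h).1)] at h4
            have h5 := hgood (pi j)
            unfold xw at h5
            have := hB.w0 j
            linarith
          · have h6 : N ≤ ∑ j_1, (xw w pi (insert j U) j_1 * θ j_1 - Real.log (θ j_1)) := by
              calc N = ∑ _i : J, (1 : ℝ) := by simp [hN]
                _ ≤ _ := by
                  apply sum_le_sum
                  intro i _
                  have h7 := hge i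
                  rw [hgood i] at h7
                  have h8 := Real.log_le_sub_one_of_pos (hθ i)
                  have h9 := mul_le_mul_of_nonneg_right h7 (hθ i).le
                  linarith
            linarith
          · have hins : ∀ i, xw w pi (insert j U) i = 1 + (if pi j = i then w j else 0) := by
              intro i
              rw [← hgood i]
              unfold xw
              rw [filter_insert]
              split_ifs with hji
              · rw [sum_insert (fun h => hjn (mem_filter.1 h).1)]
                ring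
              · ring
            have h6 : N + w j * θ (pi j) ≤
                ∑ j_1, (xw w pi (insert j U) j_1 * θ j_1 - Real.log (θ j_1)) := by
              calc N + w j * θ (pi j) =
                    ∑ i : J, ((1 : ℝ) + (if pi j = i then w j * θ i else 0)) := by
                    rw [sum_add_distrib, sum_ite_eq univ (pi j) (fun i => w j * θ i),
                      if_pos (mem_univ _)]
                    simp [hN]
                _ ≤ _ := by
                  apply sum_le_sum
                  intro i _
                  rw [hins i]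
                  have h8 := Real.log_le_sub_one_of_pos (hθ i)
                  split_ifs <;> linarith
            have h9 := mul_pos (hB.w0 j) (hθ (pi j))
            linarith
        obtain ⟨i, hi, hij⟩ := hex
        obtain ⟨C1, hC1⟩ := max_case' hB hL A π h3 hi hj hij (fun k hk => hl i k hi hk)
        obtain ⟨a, C3, ha, hC3⟩ := atypT (L := L) hB hz A pi hε hεlt π h3 hgood
        have hsum : ∑ i ∈ U, w i = N := by
          rw [← sum_xw w pi U, sum_congr rfl fun j _ => hgood j]
          simp [hN]
        rw [hsum] at hC1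
        refine hred ⟨max (N - w i / 2) a, |C1| + |C3|, max_lt (by linarith [hB.w0 i]) ha,
          fun y hy => ?_⟩
        have hly := one_le_log hB.z2 hy
        have hly0 : 0 < Real.log y := by linarith
        have g1 := hC1 y hy
        have g2 := hC3 y hy
        have g3 : S π y ≤ |∑ d ∈ Fintype.piFinset
            (fun b => cell z y (VV A (Real.log y)) (YY A (Real.log y)) (π b)), HH w L κ c d| +
            ∑ d ∈ Fintype.piFinset
              (fun b => cell z y (VV A (Real.log y)) (YY A (Real.log y)) (π b)),
              |HH w L κ c d - HT w L κ c pi ε (Real.log y) d| := by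
          have e : ∑ d ∈ Fintype.piFinset
              (fun b => cell z y (VV A (Real.log y)) (YY A (Real.log y)) (π b)),
              HT w L κ c pi ε (Real.log y) d =
              ∑ d ∈ Fintype.piFinset
              (fun b => cell z y (VV A (Real.log y)) (YY A (Real.log y)) (π b)), HH w L κ c d -
              ∑ d ∈ Fintype.piFinset
              (fun b => cell z y (VV A (Real.log y)) (YY A (Real.log y)) (π b)),
              (HH w L κ c d - HT w L κ c pi ε (Real.log y) d) := by
            rw [← sum_sub_distrib]
            exact sum_congr rfl fun d _ => by ring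
          rw [hS]
          simp only
          rw [e]
          refine (abs_sub _ _).trans ?_
          have := abs_sum_le_sum_abs (fun d => HH w L κ c d - HT w L κ c pi ε (Real.log y) d)
            (Fintype.piFinset
              (fun b => cell z y (VV A (Real.log y)) (YY A (Real.log y)) (π b)))
          linarith
        have g4 : C1 * (Real.log y) ^ (N - w i / 2) ≤
            |C1| * (Real.log y) ^ (max (N - w i / 2) a) :=
          (mul_le_mul_of_nonneg_right (le_abs_self _) (Real.rpow_nonneg hly0.le _)).trans
            (mul_le_mul_of_nonneg_left (Real.rpow_le_rpow_of_exponent_le hly (le_max_left _ _))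
              (abs_nonneg _))
        have g5 : C3 * (Real.log y) ^ a ≤
            |C3| * (Real.log y) ^ (max (N - w i / 2) a) :=
          (mul_le_mul_of_nonneg_right (le_abs_self _) (Real.rpow_nonneg hly0.le _)).trans
            (mul_le_mul_of_nonneg_left (Real.rpow_le_rpow_of_exponent_le hly (le_max_right _ _))
              (abs_nonneg _))
        rw [add_mul]
        linarith
      · push Not at h1
        have h02 : ∀ k, π k = 0 ∨ π k = 2 := by
          intro k
          have a1 := h1 k
          have a3 := h3 k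
          revert a1 a3
          generalize π k = r
          revert r
          decide
        filter_upwards [Filter.eventually_gt_atTop z] with y hy
        have h5 := diagT (L := L) hB hz A pi ε π h02 hgood hG y hy
        refine h5.trans (mul_le_mul_of_nonneg_right ?_
          (Real.rpow_nonneg (Real.log_natCast_nonneg y) _))
        rw [hg]
        simp only
        rw [if_pos h02]
        linarith
    · obtain ⟨C', hC'⟩ := thetaT (L := L) hB hz A pi ε π h3 θ hθ hθ2
      exact hred ⟨a, C', ha, hC'⟩
    · obtain ⟨C', -, hC'⟩ := ne_case (L := L) hB hz hκ0 hκz hL A pi ε θ hθ π h3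
        (fun i j hi hj => hl i j hi hj) hT (fun l hl => (mem_filter.1 (hTU hl)).2) ha0 hθ2
      filter_upwards [small_of' hC' ha hη] with y hy
      refine hy.trans (mul_le_mul_of_nonneg_right ?_ ?_)
      · linarith [hg0 π]
      · exact Real.rpow_nonneg (Real.log_natCast_nonneg y) _
  -- summation over the patterns
  set Q : ℝ := ((Fintype.card (ι → Fin 4) : ℕ) : ℝ) with hQ
  have hQ0 : 0 < Q := by
    rw [hQ]
    exact_mod_cast Fintype.card_pos
  have hall : ∀ᶠ y : ℕ in Filter.atTop, ∀ π : ι → Fin 4,
      S π y ≤ (g π + 1 / Q) * (Real.log y) ^ N := by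
    rw [Filter.eventually_all]
    intro π
    exact hpat π (1 / Q) (by positivity)
  filter_upwards [hall] with y hy
  rw [patterns z y (VV A (Real.log y)) (YY A (Real.log y))]
  refine (abs_sum_le_sum_abs _ _).trans ((sum_le_sum fun π _ => hy π).trans (le_of_eq ?_))
  rw [← sum_mul, sum_add_distrib]
  congr 1
  congr 1
  · rw [hg, sum_ite, sum_const_zero, add_zero, sum_const, nsmul_eq_mul]
    congr 1
    have h6 : (univ.filter (fun π : ι → Fin 4 => ∀ k, π k = 0 ∨ π k = 2)) =
        Fintype.piFinset (fun _ => ({0, 2} : Finset (Fin 4))) := by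
      ext π
      simp [Fintype.mem_piFinset]
    rw [h6, Fintype.card_piFinset, prod_const, card_univ]
    have : ({0, 2} : Finset (Fin 4)).card = 2 := by decide
    rw [this]
    push_cast
    rfl
  · rw [sum_const, nsmul_eq_mul, card_univ, ← hQ]
    field_simp

end Pool.Agent.H457.A
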