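import Pool.Agent.H457.A.Comb
import Pool.Agent.H457.A.NE10

set_option autoImplicit false
set_option linter.unusedSectionVars false

/-! Combinatorics of the unlinked sets of types: the case of equality in the triangle inequality. -/

namespace Pool.Agent.H457.A

open Finset Pool.Agent.W262.RK

section bits

variable {k : ℕ}

/-- the space of the pairs of rows of bits -/
abbrev Mb (k : ℕ) : Type := (Fin k → ZMod 2) × (Fin k → ZMod 2)

/-- the symplectic form on the bits -/
def Bb (k : ℕ) : LinearMap.BilinForm (ZMod 2) (Mb k) :=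
  LinearMap.mk₂ (ZMod 2) (fun m n => ∑ r, (m.1 r * n.2 r + m.2 r * n.1 r))
    (fun m m' n => by
      simp only [Prod.fst_add, Prod.snd_add, Pi.add_apply, ← sum_add_distrib]
      exact sum_congr rfl fun r _ => by ring)
    (fun a m n => by
      simp only [Prod.smul_fst, Prod.smul_snd, Pi.smul_apply, smul_eq_mul, mul_sum]
      exact sum_congr rfl fun r _ => by ring)
    (fun m n n' => by
      simp only [Prod.fst_add, Prod.snd_add, Pi.add_apply, ← sum_add_distrib]
      exact sum_congr rfl fun r _ => by ring)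
    (fun a m n => by
      simp only [Prod.smul_fst, Prod.smul_snd, Pi.smul_apply, smul_eq_mul, mul_sum]
      exact sum_congr rfl fun r _ => by ring)

lemma Bb_apply (m n : Mb k) : Bb k m n = ∑ r, (m.1 r * n.2 r + m.2 r * n.1 r) := rfl

lemma Bb_ker : LinearMap.ker (Bb k) = ⊥ := by
  rw [LinearMap.ker_eq_bot']
  intro m hm
  have h : ∀ n : Mb k, ∑ r, (m.1 r * n.2 r + m.2 r * n.1 r) = 0 := fun n => by
    rw [← Bb_apply, hm]
    rfl
  refine Prod.ext ?_ ?_
  · funext r
    have h1 := h (0, Pi.single r 1)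
    simpa [Pi.single_apply] using h1
  · funext r
    have h1 := h (Pi.single r 1, 0)
    simpa [Pi.single_apply] using h1

lemma card_Mb : Fintype.card (Mb k) = 4 ^ k := by
  rw [Fintype.card_prod, Fintype.card_fun, ZMod.card, Fintype.card_fin, ← mul_pow]
  norm_num

open Classical in
/-- an isotropic subspace of the space of bits is small -/
lemma isob_card (S : Submodule (ZMod 2) (Mb k)) (hS : ∀ m ∈ S, ∀ n ∈ S, Bb k m n = 0) :
    (univ.filter (fun m => m ∈ S)).card ≤ 2 ^ k := by
  have h1 : (univ.filter (fun m => m ∈ S)).card = Fintype.card S := by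
    rw [Fintype.card_subtype]
  have h2 : S ≤ (Bb k).orthogonal S := by
    intro m hm
    rw [LinearMap.BilinForm.mem_orthogonal_iff]
    intro n hn
    exact hS n hn m hm
  have h3 := LinearMap.BilinForm.finrank_add_finrank_orthogonal' (B := Bb k) S
  have h4 : (S ⊓ (Bb k).ker : Submodule (ZMod 2) (Mb k)) = ⊥ := by
    rw [Bb_ker, inf_bot_eq]
  rw [h4, finrank_bot, add_zero] at h3
  have h5 := Submodule.finrank_mono h2
  have h6 : (univ.filter (fun m => m ∈ S)).card ^ 2 ≤ (2 ^ k) ^ 2 := by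
    have h7 : (2 ^ k) ^ 2 = Fintype.card (Mb k) := by
      rw [card_Mb, ← pow_mul, mul_comm, pow_mul]
      norm_num
    rw [h7, h1, Module.card_eq_pow_finrank (K := ZMod 2) (V := S), ZMod.card, ← pow_mul,
      Module.card_eq_pow_finrank (K := ZMod 2) (V := Mb k), ZMod.card]
    apply Nat.pow_le_pow_right (by norm_num)
    omega
  exact (Nat.pow_le_pow_iff_left two_ne_zero).1 h6

/-- the parametrization of the Lagrangian subspace -/
def psi (k : ℕ) (c : Fin 4) : Mb k →ₗ[ZMod 2] (Vk k × Vk k) where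
  toFun b := (fun r => b.1 r • ez c, fun r => b.2 r • (ez c).swap)
  map_add' b b' := by
    refine Prod.ext ?_ ?_
    · funext r
      exact add_smul (b.1 r) (b'.1 r) (ez c)
    · funext r
      exact add_smul (b.2 r) (b'.2 r) (ez c).swap
  map_smul' a b := by
    refine Prod.ext ?_ ?_
    · funext r
      exact mul_smul a (b.1 r) (ez c)
    · funext r
      exact mul_smul a (b.2 r) (ez c).swap

lemma psi_fst (c : Fin 4) (b : Mb k) (r : Fin k) : (psi k c b).1 r = b.1 r • ez c := rfl

lemma psi_snd (c : Fin 4) (b : Mb k) (r : Fin k) : (psi k c b).2 r = b.2 r • (ez c).swap := rfl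

lemma z2_smul : ∀ (c : Fin 4) (a : ZMod 2), (a • ez c = 0 ∨ a • ez c = ez c) ∧
    (a • (ez c).swap = 0 ∨ a • (ez c).swap = (ez c).swap) := by decide

lemma psi_inV (c : Fin 4) (b : Mb k) : inV c (psi k c b) := fun r =>
  ⟨by rw [psi_fst]; exact (z2_smul c _).1, by rw [psi_snd]; exact (z2_smul c _).2⟩

lemma z2_par : ∀ (c : Fin 4) (a : Z2), (a = 0 ∨ a = ez c → ∃ t : ZMod 2, t • ez c = a) ∧
    (a = 0 ∨ a = (ez c).swap → ∃ t : ZMod 2, t • (ez c).swap = a) := by decide

lemma psi_surj (c : Fin 4) (m : Vk k × Vk k) (hm : inV c m) : ∃ b, psi k c b = m := by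
  choose f hf using fun r => (z2_par c (m.1 r)).1 (hm r).1
  choose g hg using fun r => (z2_par c (m.2 r)).2 (hm r).2
  refine ⟨(f, g), Prod.ext ?_ ?_⟩
  · funext r
    rw [psi_fst]
    exact hf r
  · funext r
    rw [psi_snd]
    exact hg r

lemma nz_smul : ∀ (c : Fin 4) (a b : ZMod 2), nz (a • ez c) (b • (ez c).swap) = a * b := by
  decide

lemma nz_psi (c : Fin 4) (b : Mb k) :
    ∑ r, nz ((psi k c b).1 r) ((psi k c b).2 r) = ∑ r, b.1 r * b.2 r := by
  refine sum_congr rfl fun r _ => ?_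
  rw [psi_fst, psi_snd, nz_smul]

lemma z2_pair : ∀ (c : Fin 4) (a b : Z2), c ≠ 3 → (a = 0 ∨ a = ez c) →
    (b = 0 ∨ b = (ez c).swap) → b.1 * a.1 + b.2 * a.2 = 0 := by decide

lemma dt_inV {c : Fin 4} (hc : c ≠ 3) {m n : Vk k × Vk k} (hm : inV c m) (hn : inV c n) :
    dt n.2 m.1 = 0 := by
  unfold dt
  exact sum_eq_zero fun r _ => z2_pair c _ _ hc (hm r).1 (hn r).2

open Classical in
/-- a large subspace is not isotropic -/
lemma exists_pair (S : Submodule (ZMod 2) (Vk k × Vk k)) (c : Fin 4)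
    (h : 2 ^ k < (univ.filter (fun m => m ∈ S ∧ inV c m)).card) :
    ∃ b1 b2 : Mb k, psi k c b1 ∈ S ∧ psi k c b2 ∈ S ∧ Bb k b1 b2 = 1 := by
  by_contra hcon
  push Not at hcon
  have h01 : ∀ a : ZMod 2, a ≠ 1 → a = 0 := by decide
  have h1 := isob_card (S.comap (psi k c)) (fun m hm n hn => h01 _ (hcon m n hm hn))
  have h2 : (univ.filter (fun m => m ∈ S ∧ inV c m)).card ≤
      (univ.filter (fun m => m ∈ S.comap (psi k c))).card := by
    refine (card_le_card ?_).trans (card_image_le (s := univ.filter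
      (fun m => m ∈ S.comap (psi k c))) (f := psi k c))
    intro m hm
    rw [mem_filter] at hm
    obtain ⟨b, hb⟩ := psi_surj c m hm.2.2
    rw [mem_image]
    refine ⟨b, mem_filter.2 ⟨mem_univ _, ?_⟩, hb⟩
    rw [Submodule.mem_comap, hb]
    exact hm.2.1
  omega

end bits

section main

variable {J : Type} [Fintype J] [DecidableEq J] {k : ℕ}

lemma q_add (b b' : Mb k) : ∑ r, (b + b').1 r * (b + b').2 r =
    ∑ r, b.1 r * b.2 r + ∑ r, b'.1 r * b'.2 r + Bb k b b' := by
  rw [Bb_apply, ← sum_add_distrib, ← sum_add_distrib]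
  refine sum_congr rfl fun r _ => ?_
  simp only [Prod.fst_add, Prod.snd_add, Pi.add_apply]
  ring

lemma zmod2_dbl (a : ZMod 2) : a + a = 0 := by
  revert a
  decide

open Classical in
/-- the three indices -/
lemma tc_of (cls : J → Fin 4) (f : J → Bool) (κ : J → Fin 3 → ℤ)
    (S : Submodule (ZMod 2) (Vk k × Vk k)) (c : Fin 4) (hc3 : c ≠ 3)
    (U : Finset (IK (P4 k cls f))) (j : J) (hj : cls j = c)
    (hfj : f j = true ∨ IsSquare (-κ j 0))
    (hfull : ∀ m ∈ S, inV c m → ∃ i ∈ U, i.1 = (j, m))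
    (hN : 2 ^ k < (univ.filter (fun m => m ∈ S ∧ inV c m)).card) :
    ∃ (T : Finset (IK (P4 k cls f))) (g : IK (P4 k cls f) → Bool), T ⊆ U ∧
      TC (LK (P4 k cls f)) (κK (P4 k cls f) (kc4 cls κ)) T g := by
  obtain ⟨b1, b2, hb1, hb2, hB⟩ := exists_pair S c hN
  have hb3 : psi k c (b1 + b2) ∈ S := by
    rw [map_add]
    exact S.add_mem hb1 hb2
  obtain ⟨i1, hi1, e1⟩ := hfull _ hb1 (psi_inV c b1)
  obtain ⟨i2, hi2, e2⟩ := hfull _ hb2 (psi_inV c b2)
  obtain ⟨i3, hi3, e3⟩ := hfull _ hb3 (psi_inV c (b1 + b2))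
  set q : Mb k → ZMod 2 := fun b => ∑ r, b.1 r * b.2 r with hq
  have hq3 : q (b1 + b2) = q b1 + q b2 + 1 := by
    rw [hq]
    simp only
    rw [← hB]
    exact q_add b1 b2
  have hnz : ∀ (i : IK (P4 k cls f)) (b : Mb k), i.1 = (j, psi k c b) →
      ∑ r, nz (i.1.2.1 r) (i.1.2.2 r) = q b := by
    intro i b hi
    rw [hi]
    exact nz_psi c b
  have hinV : ∀ (i : IK (P4 k cls f)) (b : Mb k), i.1 = (j, psi k c b) → inV c i.1.2 := by
    intro i b hi
    rw [hi]
    exact psi_inV c b
  -- the elements are different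
  have hne12 : i1 ≠ i2 := by
    intro h
    have h1 : psi k c b1 = psi k c b2 := by
      have : i1.1 = i2.1 := by rw [h]
      rw [e1, e2] at this
      exact (Prod.ext_iff.1 this).2
    have h2 : q (b1 + b2) = 0 := by
      rw [← hnz i3 (b1 + b2) e3, e3, map_add, h1]
      refine sum_eq_zero fun r _ => ?_
      have : ((psi k c b2) + (psi k c b2)).1 r = 0 := by
        rw [Prod.fst_add, Pi.add_apply]
        have : ∀ a : Z2, a + a = 0 := by decide
        exact this _
      show nz (((psi k c b2) + (psi k c b2)).1 r) _ = 0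
      rw [this]
      unfold nz
      simp
    have h3 : q b1 = q b2 := by
      rw [← hnz i1 b1 e1, ← hnz i2 b2 e2, h]
    rw [hq3, h3, zmod2_dbl, zero_add] at h2
    exact absurd h2 (by decide)
  have hinj : ∀ b b' : Mb k, psi k c b = psi k c b' → q b = q b' := by
    intro b b' h
    rw [hq]
    simp only
    rw [← nz_psi c b, ← nz_psi c b', h]
  have hz2 : ∀ a : Z2, a + a = 0 := by decide
  have hdbl : ∀ m : Vk k × Vk k, m + m = 0 := by
    intro m
    refine Prod.ext ?_ ?_
    · funext r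
      exact hz2 _
    · funext r
      exact hz2 _
  have hzero : ∀ b b' : Mb k, psi k c (b + b') = psi k c b → Bb k b b' = 0 := by
    intro b b' h
    have h1 : psi k c b' = 0 := by
      rw [map_add] at h
      simpa using h
    have h2 := hinj _ _ h
    have h3 : q b' = 0 := by
      have h4 := hinj b' 0 (by rw [h1, map_zero])
      rw [h4, hq]
      simp
    have h4 : q (b + b') = q b + q b' + Bb k b b' := q_add b b'
    rw [h2, h3, add_zero] at h4
    simpa using h4
  have hsym : Bb k b2 b1 = Bb k b1 b2 := by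
    rw [Bb_apply, Bb_apply]
    exact sum_congr rfl fun r _ => by ring
  have hne13 : i1 ≠ i3 := by
    intro h
    have h1 : psi k c (b1 + b2) = psi k c b1 := by
      have : i1.1 = i3.1 := by rw [h]
      rw [e1, e3] at this
      exact (Prod.ext_iff.1 this).2.symm
    have := hzero b1 b2 h1
    rw [hB] at this
    exact absurd this (by decide)
  have hne23 : i2 ≠ i3 := by
    intro h
    have h1 : psi k c (b2 + b1) = psi k c b2 := by
      have : i2.1 = i3.1 := by rw [h]
      rw [e2, e3] at this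
      rw [add_comm b2 b1]
      exact (Prod.ext_iff.1 this).2.symm
    have := hzero b2 b1 h1
    rw [hsym, hB] at this
    exact absurd this (by decide)
  set T : Finset (IK (P4 k cls f)) := {i1, i2, i3} with hT
  have hsumT : ∀ F : IK (P4 k cls f) → ZMod 2, ∑ l ∈ T, F l = F i1 + F i2 + F i3 := by
    intro F
    rw [hT, sum_insert, sum_insert, sum_singleton]
    · ring
    · rw [mem_singleton]
      exact hne23
    · rw [mem_insert, mem_singleton]
      push Not
      exact ⟨hne12, hne13⟩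
  have hTV : ∀ l ∈ T, inV c l.1.2 ∧ l.1.1 = j := by
    intro l hl
    rw [hT, mem_insert, mem_insert, mem_singleton] at hl
    rcases hl with rfl | rfl | rfl
    · exact ⟨hinV _ _ e1, by rw [e1]⟩
    · exact ⟨hinV _ _ e2, by rw [e2]⟩
    · exact ⟨hinV _ _ e3, by rw [e3]⟩
  refine ⟨T, fun i => decide (∑ r, nz (i.1.2.1 r) (i.1.2.2 r) = 1), ?_, ?_, ?_, ?_, ?_⟩
  · intro l hl
    rw [hT, mem_insert, mem_insert, mem_singleton] at hl
    rcases hl with rfl | rfl | rfl
    · exact hi1
    · exact hi2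
    · exact hi3
  · intro l hl l' hl'
    unfold LK
    rw [dt_inV hc3 (hTV l hl).1 (hTV l' hl').1]
    decide
  · intro a _
    rw [← ZMod.natCast_eq_zero_iff_even, card_filter]
    push_cast
    have h1 : ∀ t : ZMod 2, (if decide (t = 1) = true then (1 : ZMod 2) else 0) = t := by decide
    have h2 : ∀ l, (if LK (P4 k cls f) a l = true then (1 : ZMod 2) else 0) =
        dt l.1.2.2 a.1.2.1 := by
      intro l
      unfold LK
      exact h1 _
    simp only [h2]
    rw [hsumT, e1, e2, e3]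
    simp only
    rw [map_add, Prod.snd_add, dt_add_left]
    have : ∀ s t : ZMod 2, s + t + (s + t) = 0 := by decide
    exact this _ _
  · intro l hl
    obtain ⟨-, hlj⟩ := hTV l hl
    have hκl : κK (P4 k cls f) (kc4 cls κ) l =
        pz (κ j 0) (∑ r, nz (l.1.2.1 r) (l.1.2.2 r)) := by
      unfold κK kc4
      rw [hlj, hj, if_neg hc3]
    rw [hκl]
    by_cases hg : ∑ r, nz (l.1.2.1 r) (l.1.2.2 r) = 1
    · rw [decide_eq_true hg, if_pos rfl]
      unfold pz
      rw [if_pos hg]
      rcases hfj with hf | hf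
      · exfalso
        have hP := l.2
        unfold P4 at hP
        rw [Bool.and_eq_true, decide_eq_true_eq, decide_eq_true_eq] at hP
        have h1 := hP.2
        rw [hlj, hj, hf] at h1
        unfold ν4 at h1
        simp only [if_neg hc3, if_true] at h1
        rw [hg] at h1
        exact absurd h1 (by decide)
      · exact hf
    · rw [decide_eq_false hg]
      simp only [Bool.false_eq_true, if_false]
      unfold pz
      rw [if_neg hg]
      exact ⟨1, rfl⟩
  · rw [← ZMod.natCast_eq_one_iff_odd, card_filter]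
    push_cast
    have h1 : ∀ t : ZMod 2, (if decide (t = 1) = true then (1 : ZMod 2) else 0) = t := by decide
    simp only [h1]
    rw [hsumT, hnz i1 b1 e1, hnz i2 b2 e2, hnz i3 (b1 + b2) e3, hq3]
    have : ∀ s t : ZMod 2, s + t + (s + t + 1) = 1 := by decide
    exact this _ _

/-- triangle inequality; in the case of equality a sign condition -/
def Tri2 (cls : J → Fin 4) (f : J → Bool) (κ : J → Fin 3 → ℤ) : Prop :=
  (nc cls 0 ≤ nc cls 1 + nc cls 2 ∧ nc cls 1 ≤ nc cls 0 + nc cls 2 ∧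
    nc cls 2 ≤ nc cls 0 + nc cls 1) ∧
  ∀ c : Fin 4, c ≠ 3 → 0 < nc cls c → nc cls 0 + nc cls 1 + nc cls 2 = 2 * nc cls c →
    ∃ j, cls j = c ∧ (f j = true ∨ IsSquare (-κ j 0))

lemma tri_sum2 {n0 n1 n2 : ℕ} {a b c : ℝ}
    (h : n0 ≤ n1 + n2 ∧ n1 ≤ n0 + n2 ∧ n2 ≤ n0 + n1)
    (hab : a + b ≤ 0) (hac : a + c ≤ 0) (hbc : b + c ≤ 0) :
    n0 * a + n1 * b + n2 * c ≤ 0 ∧ (n0 * a + n1 * b + n2 * c = 0 →
      ((n0 = 0 ∨ a = 0) ∧ (n1 = 0 ∨ b = 0) ∧ (n2 = 0 ∨ c = 0)) ∨
      (0 < n0 ∧ 0 < a ∧ n0 + n1 + n2 = 2 * n0) ∨ (0 < n1 ∧ 0 < b ∧ n0 + n1 + n2 = 2 * n1) ∨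
      (0 < n2 ∧ 0 < c ∧ n0 + n1 + n2 = 2 * n2)) := by
  obtain ⟨h0, h1, h2⟩ := h
  have g0 : (n0 : ℝ) ≤ n1 + n2 := by exact_mod_cast h0
  have g1 : (n1 : ℝ) ≤ n0 + n2 := by exact_mod_cast h1
  have g2 : (n2 : ℝ) ≤ n0 + n1 := by exact_mod_cast h2
  have p0 : (0 : ℝ) ≤ n0 := Nat.cast_nonneg _
  have p1 : (0 : ℝ) ≤ n1 := Nat.cast_nonneg _
  have p2 : (0 : ℝ) ≤ n2 := Nat.cast_nonneg _
  by_cases ha : 0 < a
  · have hb : b ≤ -a := by linarith
    have hc : c ≤ -a := by linarith
    have hle : n0 * a + n1 * b + n2 * c ≤ (n0 - n1 - n2 : ℝ) * a := by nlinarith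
    have hle2 : (n0 - n1 - n2 : ℝ) * a ≤ 0 := by nlinarith
    refine ⟨hle.trans hle2, fun h => ?_⟩
    rw [h] at hle
    have h5 : (0 : ℝ) ≤ n0 - n1 - n2 := by
      by_contra hneg
      push Not at hneg
      have := mul_neg_of_neg_of_pos hneg ha
      linarith
    have h6 : n1 + n2 ≤ n0 := by
      have : (n1 : ℝ) + n2 ≤ n0 := by linarith
      exact_mod_cast this
    rcases Nat.eq_zero_or_pos n0 with h7 | h7
    · left
      refine ⟨Or.inl h7, Or.inl (by omega), Or.inl (by omega)⟩
    · right; left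
      exact ⟨h7, ha, by omega⟩
  by_cases hb : 0 < b
  · have ha' : a ≤ -b := by linarith
    have hc : c ≤ -b := by linarith
    have hle : n0 * a + n1 * b + n2 * c ≤ (n1 - n0 - n2 : ℝ) * b := by nlinarith
    have hle2 : (n1 - n0 - n2 : ℝ) * b ≤ 0 := by nlinarith
    refine ⟨hle.trans hle2, fun h => ?_⟩
    rw [h] at hle
    have h5 : (0 : ℝ) ≤ n1 - n0 - n2 := by
      by_contra hneg
      push Not at hneg
      have := mul_neg_of_neg_of_pos hneg hb
      linarith
    have h6 : n0 + n2 ≤ n1 := by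
      have : (n0 : ℝ) + n2 ≤ n1 := by linarith
      exact_mod_cast this
    rcases Nat.eq_zero_or_pos n1 with h7 | h7
    · left
      refine ⟨Or.inl (by omega), Or.inl h7, Or.inl (by omega)⟩
    · right; right; left
      exact ⟨h7, hb, by omega⟩
  by_cases hc : 0 < c
  · have ha' : a ≤ -c := by linarith
    have hb' : b ≤ -c := by linarith
    have hle : n0 * a + n1 * b + n2 * c ≤ (n2 - n0 - n1 : ℝ) * c := by nlinarith
    have hle2 : (n2 - n0 - n1 : ℝ) * c ≤ 0 := by nlinarith
    refine ⟨hle.trans hle2, fun h => ?_⟩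
    rw [h] at hle
    have h5 : (0 : ℝ) ≤ n2 - n0 - n1 := by
      by_contra hneg
      push Not at hneg
      have := mul_neg_of_neg_of_pos hneg hc
      linarith
    have h6 : n0 + n1 ≤ n2 := by
      have : (n0 : ℝ) + n1 ≤ n2 := by linarith
      exact_mod_cast this
    rcases Nat.eq_zero_or_pos n2 with h7 | h7
    · left
      refine ⟨Or.inl (by omega), Or.inl (by omega), Or.inl h7⟩
    · right; right; right
      exact ⟨h7, hc, by omega⟩
  push Not at ha hb hc
  have q0 : n0 * a ≤ 0 := mul_nonpos_of_nonneg_of_nonpos p0 ha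
  have q1 : n1 * b ≤ 0 := mul_nonpos_of_nonneg_of_nonpos p1 hb
  have q2 : n2 * c ≤ 0 := mul_nonpos_of_nonneg_of_nonpos p2 hc
  refine ⟨by linarith, fun h => Or.inl ?_⟩
  have r0 : n0 * a = 0 := by linarith
  have r1 : n1 * b = 0 := by linarith
  have r2 : n2 * c = 0 := by linarith
  refine ⟨?_, ?_, ?_⟩
  · rcases mul_eq_zero.1 r0 with h | h
    · left; exact_mod_cast h
    · right; exact h
  · rcases mul_eq_zero.1 r1 with h | h
    · left; exact_mod_cast h
    · right; exact h
  · rcases mul_eq_zero.1 r2 with h | h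
    · left; exact_mod_cast h
    · right; exact h

lemma dicho2 {x b : J → ℝ} (hb : ∀ j, 0 < b j) (hxb : ∀ j, x j ≤ b j)
    (hs : ∑ j, Real.log (b j) ≤ 0) :
    (∑ j, Real.log (b j) = 0 ∧ ∀ j, x j = b j) ∨ ∃ θ : J → ℝ, (∀ j, 0 < θ j) ∧
      ∑ j, (x j * θ j - Real.log (θ j)) < (Fintype.card J : ℝ) := by
  by_cases h : (∀ j, x j = b j) ∧ ∑ j, Real.log (b j) = 0
  · exact Or.inl ⟨h.2, h.1⟩
  · right
    refine ⟨fun j => 1 / b j, fun j => one_div_pos.2 (hb j), ?_⟩
    have e : ∀ j, x j * (1 / b j) - Real.log (1 / b j) = x j / b j + Real.log (b j) := by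
      intro j
      rw [one_div, Real.log_inv]
      ring
    simp only [e]
    rw [sum_add_distrib]
    have h1 : ∀ j, x j / b j ≤ 1 := fun j => by
      rw [div_le_one (hb j)]
      exact hxb j
    have h2 : ∑ j, x j / b j ≤ (Fintype.card J : ℝ) := by
      calc ∑ j, x j / b j ≤ ∑ _j : J, (1 : ℝ) := sum_le_sum fun j _ => h1 j
        _ = _ := by simp
    by_cases h3 : ∑ j, Real.log (b j) = 0
    · have h4 : ∃ j, x j ≠ b j := by
        by_contra hcon
        push Not at hcon
        exact h ⟨hcon, h3⟩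
      obtain ⟨j, hj⟩ := h4
      have h5 : ∑ j, x j / b j < ∑ _j : J, (1 : ℝ) := by
        apply sum_lt_sum (fun j _ => h1 j)
        refine ⟨j, mem_univ j, ?_⟩
        rw [div_lt_one (hb j)]
        exact lt_of_le_of_ne (hxb j) hj
      have h6 : ∑ _j : J, (1 : ℝ) = (Fintype.card J : ℝ) := by simp
      rw [h3, add_zero]
      linarith
    · have h4 := lt_of_le_of_ne hs h3
      linarith

/-- the hypothesis about the unlinked sets holds -/
theorem hu_of' (cls : J → Fin 4) (f : J → Bool) (κ : J → Fin 3 → ℤ) (hT : Tri2 cls f κ)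
    (hP : ∀ j (v x : Vk k), P4 k cls f j v x = true → cls j ≠ 3 → inV (cls j) (v, x)) :
    HU' (wK (P4 k cls f) (W4 k cls)) (LK (P4 k cls f)) (κK (P4 k cls f) (kc4 cls κ))
      (fun i : IK (P4 k cls f) => i.1.1) := by
  classical
  set P := P4 k cls f with hPdef
  intro U hU
  set S : Submodule (ZMod 2) (Vk k × Vk k) :=
    Submodule.span (ZMod 2) ((U.image (fun i : IK P => i.1.2) : Finset (Vk k × Vk k)) :
      Set (Vk k × Vk k)) with hS
  have hUS : ∀ i ∈ U, i.1.2 ∈ S := fun i hi =>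
    Submodule.subset_span (mem_coe.2 (mem_image_of_mem _ hi))
  have h01 : ∀ a b : ZMod 2, (a = 1 ↔ b = 1) → a + b = 0 := by decide
  have hlink : ∀ i ∈ U, ∀ j ∈ U, Bf k i.1.2 j.1.2 = 0 := by
    intro i hi j hj
    rw [Bf_apply]
    apply h01
    have := hU i hi j hj
    unfold LK at this
    exact decide_eq_decide.1 this
  have hiso : ∀ m ∈ S, ∀ n ∈ S, Bf k m n = 0 := by
    intro m hm n hn
    induction hm using Submodule.span_induction with
    | mem m hm =>
      obtain ⟨i, hi, rfl⟩ := mem_image.1 (mem_coe.1 hm)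
      induction hn using Submodule.span_induction with
      | mem n hn =>
        obtain ⟨j, hj, rfl⟩ := mem_image.1 (mem_coe.1 hn)
        exact hlink i hi j hj
      | zero => rw [map_zero]
      | add a b _ _ ha hb => rw [map_add, ha, hb, add_zero]
      | smul a b _ hb => rw [map_smul, hb, smul_zero]
    | zero => rw [map_zero]; rfl
    | add a b _ _ ha hb => rw [map_add, LinearMap.add_apply, ha, hb, add_zero]
    | smul a b _ hb => rw [map_smul, LinearMap.smul_apply, hb, smul_zero]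
  have hcard := iso_card S hiso
  set NS : ℕ := (univ.filter (fun m => m ∈ S)).card with hNS
  have hNS4 : NS ≤ 4 ^ k := by
    have e : (16 : ℕ) ^ k = (4 ^ k) ^ 2 := by
      rw [← pow_mul, mul_comm, pow_mul]
      norm_num
    rw [e] at hcard
    exact (Nat.pow_le_pow_iff_left two_ne_zero).1 hcard
  set N : Fin 4 → ℕ := fun c => (univ.filter (fun m => m ∈ S ∧ inV c m)).card with hN
  have hN1 : ∀ c, 1 ≤ N c := by
    intro c
    apply Nat.succ_le_of_lt
    rw [hN]
    simp only
    rw [card_pos]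
    exact ⟨0, mem_filter.2 ⟨mem_univ _, S.zero_mem, fun r => ⟨Or.inl rfl, Or.inl rfl⟩⟩⟩
  have hNN : ∀ c c', c ≠ 3 → c' ≠ 3 → c ≠ c' → N c * N c' ≤ 4 ^ k := fun c c' h h' hne =>
    (piece_card S (inV c) (inV c') (inV_sub c) (inV_sub c') (inV_zero h h' hne)).trans hNS4
  -- the upper bounds
  set b : Fin 4 → ℝ := fun c => if c = 3 then 1 else (N c : ℝ) / 2 ^ k with hb
  have hb0 : ∀ c, 0 < b c := by
    intro c
    rw [hb]
    simp only
    split_ifs
    · exact one_pos
    · have : (0 : ℝ) < N c := by exact_mod_cast hN1 c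
      exact div_pos this (pow_pos two_pos k)
  have hbb : ∀ c c', c ≠ 3 → c' ≠ 3 → c ≠ c' → Real.log (b c) + Real.log (b c') ≤ 0 := by
    intro c c' h h' hne
    rw [← Real.log_mul (hb0 c).ne' (hb0 c').ne']
    apply Real.log_nonpos (mul_pos (hb0 c) (hb0 c')).le
    rw [hb]
    simp only
    rw [if_neg h, if_neg h', div_mul_div_comm,
      div_le_one (mul_pos (pow_pos two_pos k) (pow_pos two_pos k))]
    have h1 : ((N c * N c' : ℕ) : ℝ) ≤ ((4 ^ k : ℕ) : ℝ) := by exact_mod_cast hNN c c' h h' hne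
    push_cast at h1
    calc (N c : ℝ) * N c' ≤ 4 ^ k := h1
      _ = 2 ^ k * 2 ^ k := by rw [← mul_pow]; norm_num
  have hW0 : ∀ j, 0 ≤ W4 k cls j := by
    intro j
    unfold W4
    split_ifs <;> positivity
  have hxw : ∀ j, xw (wK P (W4 k cls)) (fun i : IK P => i.1.1) U j =
      ((U.filter (fun i : IK P => i.1.1 = j)).card : ℝ) * W4 k cls j := by
    intro j
    unfold xw wK
    rw [← nsmul_eq_mul, ← sum_const]
    exact sum_congr rfl fun i hi => by rw [(mem_filter.1 hi).2]
  have hx0 : ∀ j, 0 ≤ xw (wK P (W4 k cls)) (fun i : IK P => i.1.1) U j := fun j => by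
    rw [hxw]
    exact mul_nonneg (Nat.cast_nonneg _) (hW0 j)
  have hinj : ∀ j, Set.InjOn (fun i : IK P => i.1.2) (U.filter (fun i : IK P => i.1.1 = j)) := by
    intro j i hi i' hi' h
    rw [mem_coe, mem_filter] at hi hi'
    apply Subtype.ext
    exact Prod.ext (hi.2.trans hi'.2.symm) h
  have hxb : ∀ j, xw (wK P (W4 k cls)) (fun i : IK P => i.1.1) U j ≤ b (cls j) := by
    intro j
    rw [hxw, hb]
    simp only
    unfold W4
    by_cases hc : cls j = 3
    · rw [if_pos hc, if_pos hc]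
      have h1 : (U.filter (fun i : IK P => i.1.1 = j)).card ≤ NS := by
        apply card_le_card_of_injOn (fun i : IK P => i.1.2) _ (hinj j)
        intro i hi
        rw [mem_coe, mem_filter] at hi
        exact mem_coe.2 (mem_filter.2 ⟨mem_univ _, hUS i hi.1⟩)
      have h2 : ((U.filter (fun i : IK P => i.1.1 = j)).card : ℝ) ≤ 4 ^ k := by
        exact_mod_cast h1.trans hNS4
      calc _ ≤ (4 : ℝ) ^ k * (1 / 4) ^ k := mul_le_mul_of_nonneg_right h2 (by positivity)
        _ = 1 := by rw [← mul_pow]; norm_num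
    · rw [if_neg hc, if_neg hc]
      have h1 : (U.filter (fun i : IK P => i.1.1 = j)).card ≤ N (cls j) := by
        apply card_le_card_of_injOn (fun i : IK P => i.1.2) _ (hinj j)
        intro i hi
        rw [mem_coe, mem_filter] at hi
        refine mem_coe.2 (mem_filter.2 ⟨mem_univ _, hUS i hi.1, ?_⟩)
        have h3 := hP _ _ _ i.2 (by rw [hi.2]; exact hc)
        rw [hi.2] at h3
        exact h3
      have h2 : ((U.filter (fun i : IK P => i.1.1 = j)).card : ℝ) ≤ N (cls j) := by
        exact_mod_cast h1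
      calc _ ≤ (N (cls j) : ℝ) * (1 / 2) ^ k := mul_le_mul_of_nonneg_right h2 (by positivity)
        _ = _ := by rw [one_div, inv_pow]; rfl
  have hb3 : Real.log (b 3) = 0 := by
    rw [hb]
    simp
  have hsum := sum_cls cls (fun c => Real.log (b c)) hb3
  have htri := tri_sum2 hT.1 (hbb 0 1 (by decide) (by decide) (by decide))
    (hbb 0 2 (by decide) (by decide) (by decide)) (hbb 1 2 (by decide) (by decide) (by decide))
  have hs0 : ∑ j, Real.log (b (cls j)) ≤ 0 := by
    rw [hsum]
    exact htri.1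
  rcases dicho2 (b := fun j => b (cls j)) (fun j => hb0 _) hxb hs0 with ⟨h0, hxe⟩ | h
  swap
  · exact Or.inr (Or.inl h)
  rw [hsum] at h0
  have hlog : ∀ c, Real.log (b c) = 0 → b c = 1 := fun c hc =>
    Real.eq_one_of_pos_of_log_eq_zero (hb0 c) hc
  have hcase : ∀ j, cls j = 0 ∨ cls j = 1 ∨ cls j = 2 ∨ cls j = 3 := by
    intro j
    generalize cls j = c
    revert c
    decide
  -- the case of equality
  have heq : ∀ c : Fin 4, c ≠ 3 → 0 < nc cls c → 0 < Real.log (b c) →
      nc cls 0 + nc cls 1 + nc cls 2 = 2 * nc cls c →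
      ∃ θ : J → ℝ, (∀ j, 0 < θ j) ∧
      ∑ j, (xw (wK P (W4 k cls)) (fun i : IK P => i.1.1) U j * θ j - Real.log (θ j)) ≤
        (Fintype.card J : ℝ) ∧
      ∃ (T : Finset (IK P)) (g : IK P → Bool), T ⊆ U ∧ TC (LK P) (κK P (kc4 cls κ)) T g := by
    intro c hc3 hc hlb hcn
    obtain ⟨j, hj, hfj⟩ := hT.2 c hc3 hc hcn
    refine ⟨fun j => 1 / b (cls j), fun j => one_div_pos.2 (hb0 (cls j)), ?_, ?_⟩
    · have e : ∀ j, xw (wK P (W4 k cls)) (fun i : IK P => i.1.1) U j * (1 / b (cls j)) -
          Real.log (1 / b (cls j)) = 1 + Real.log (b (cls j)) := by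
        intro j
        rw [one_div, Real.log_inv, hxe j, mul_inv_cancel₀ (hb0 (cls j)).ne']
        ring
      simp only [e]
      rw [sum_add_distrib, sum_const, nsmul_eq_mul, mul_one, card_univ]
      linarith
    · have hNc : 2 ^ k < N c := by
        have h1 : 1 < b c := (Real.log_pos_iff (hb0 c).le).1 hlb
        rw [hb] at h1
        simp only at h1
        rw [if_neg hc3, lt_div_iff₀ (pow_pos two_pos k), one_mul] at h1
        exact_mod_cast h1
      refine tc_of cls f κ S c hc3 U j hj hfj ?_ hNc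
      -- all the types of the class
      have hcardj : (U.filter (fun i : IK P => i.1.1 = j)).card = N c := by
        have h1 := hxe j
        rw [hxw, hb] at h1
        simp only at h1
        unfold W4 at h1
        rw [hj, if_neg hc3, if_neg hc3, one_div, inv_pow] at h1
        have h2 : (0 : ℝ) < 2 ^ k := pow_pos two_pos k
        rw [div_eq_mul_inv] at h1
        have h3 : ((U.filter (fun i : IK P => i.1.1 = j)).card : ℝ) = N c :=
          mul_right_cancel₀ (inv_ne_zero h2.ne') h1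
        exact_mod_cast h3
      have himg : (U.filter (fun i : IK P => i.1.1 = j)).image (fun i : IK P => i.1.2) =
          univ.filter (fun m => m ∈ S ∧ inV c m) := by
        apply eq_of_subset_of_card_le
        · intro m hm
          obtain ⟨i, hi, rfl⟩ := mem_image.1 hm
          rw [mem_filter] at hi
          refine mem_filter.2 ⟨mem_univ _, hUS i hi.1, ?_⟩
          have h3 := hP _ _ _ i.2 (by rw [hi.2, hj]; exact hc3)
          rw [hi.2, hj] at h3
          exact h3
        · rw [card_image_of_injOn (hinj j), hcardj]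
      intro m hm hmV
      have h1 : m ∈ (U.filter (fun i : IK P => i.1.1 = j)).image (fun i : IK P => i.1.2) := by
        rw [himg]
        exact mem_filter.2 ⟨mem_univ _, hm, hmV⟩
      obtain ⟨i, hi, hie⟩ := mem_image.1 h1
      rw [mem_filter] at hi
      exact ⟨i, hi.1, Prod.ext hi.2 hie⟩
  rcases htri.2 h0 with ⟨q0, q1, q2⟩ | ⟨h1, h2, h3⟩ | ⟨h1, h2, h3⟩ | ⟨h1, h2, h3⟩
  · left
    intro j
    rw [hxe j]
    have hnc : ∀ c, cls j = c → nc cls c ≠ 0 := by
      intro c hc
      unfold nc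
      exact (card_pos.2 ⟨j, mem_filter.2 ⟨mem_univ _, hc⟩⟩).ne'
    show b (cls j) = 1
    rcases hcase j with h | h | h | h
    · rw [h]
      exact hlog 0 (q0.resolve_left (hnc 0 h))
    · rw [h]
      exact hlog 1 (q1.resolve_left (hnc 1 h))
    · rw [h]
      exact hlog 2 (q2.resolve_left (hnc 2 h))
    · rw [h]
      exact hlog 3 hb3
  · exact Or.inr (Or.inr (heq 0 (by decide) h1 h2 h3))
  · exact Or.inr (Or.inr (heq 1 (by decide) h1 h2 h3))
  · exact Or.inr (Or.inr (heq 2 (by decide) h1 h2 h3))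

end main

end Pool.Agent.H457.A
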