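import Mathlib

set_option autoImplicit false

/-! The minimal discriminant of `y² = x³ + A x + B` and the discriminant of the reduced short
model. -/

namespace Pool.Agent.H457.A

open Finset

/-- the curve `y² = x³ + A x + B` -/
def Es (A B : ℤ) : WeierstrassCurve ℚ := ⟨0, 0, 0, (A : ℚ), (B : ℚ)⟩

/-- the discriminants (absolute values) of the integral Weierstrass equations of `y² = x³ + A x + B` -/
def DS (A B : ℤ) : Set ℕ := {n | ∃ W : WeierstrassCurve ℤ,
  (∃ C : WeierstrassCurve.VariableChange ℚ, C • W.map (Int.castRingHom ℚ) = Es A B) ∧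
    W.Δ.natAbs = n}

/-- the absolute value of the minimal discriminant -/
noncomputable def mD (A B : ℤ) : ℕ := sInf (DS A B)

lemma mD_le (A B : ℤ) : mD A B ≤ 16 * (4 * A ^ 3 + 27 * B ^ 2).natAbs := by
  apply Nat.sInf_le
  refine ⟨⟨0, 0, 0, A, B⟩, ⟨1, ?_⟩, ?_⟩
  · rw [one_smul]
    rfl
  · have e : (⟨0, 0, 0, A, B⟩ : WeierstrassCurve ℤ).Δ = -(16 * (4 * A ^ 3 + 27 * B ^ 2)) := by
      simp only [WeierstrassCurve.Δ, WeierstrassCurve.b₂, WeierstrassCurve.b₄,
        WeierstrassCurve.b₆, WeierstrassCurve.b₈]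
      ring
    rw [e, Int.natAbs_neg, Int.natAbs_mul]
    rfl

lemma dvd_six {n : ℕ} (h1 : ∀ p : ℕ, p.Prime → p ∣ n → p = 2 ∨ p = 3)
    (h4 : ¬ 4 ∣ n) (h9 : ¬ 9 ∣ n) : n ∣ 6 := by
  have hsq : Squarefree n := by
    rw [Nat.squarefree_iff_prime_squarefree]
    intro p hp hpp
    rcases h1 p hp (Dvd.dvd.trans (Dvd.intro p rfl) hpp) with rfl | rfl
    · exact h4 hpp
    · exact h9 hpp
  rw [← Nat.prod_primeFactors_of_squarefree hsq]
  have hsub : n.primeFactors ⊆ {2, 3} := by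
    intro p hp
    rw [Nat.mem_primeFactors] at hp
    rcases h1 p hp.1 hp.2.1 with h | h <;> simp [h]
  have h := prod_dvd_prod_of_subset n.primeFactors {2, 3} (fun p : ℕ => p) hsub
  simpa using h

/-- denominators -/
lemma den_dvd {c a : ℤ} {u : ℚ} {k : ℕ} (h : (c : ℚ) = a * u ^ k) : ((u.den : ℤ)) ^ k ∣ a := by
  have hd : (u.den : ℚ) ≠ 0 := by exact_mod_cast u.den_nz
  have e : u = u.num / u.den := (Rat.num_div_den u).symm
  have h1 : (c : ℚ) * (u.den : ℚ) ^ k = a * (u.num : ℚ) ^ k := by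
    rw [h, e, div_pow]
    simp only [Rat.num_div_den]
    field_simp
  have h2 : c * (u.den : ℤ) ^ k = a * u.num ^ k := by exact_mod_cast h1
  have hcop : IsCoprime ((u.den : ℤ) ^ k) (u.num ^ k) := by
    apply IsCoprime.pow
    rw [Int.isCoprime_iff_gcd_eq_one]
    have := u.reduced
    rw [Nat.Coprime, Nat.gcd_comm] at this
    exact this
  exact hcop.dvd_of_dvd_mul_right (Dvd.intro_left c h2)

lemma le_mD {A B : ℤ}
    (hmin : ∀ p : ℕ, p.Prime → ¬ ((p : ℤ) ^ 4 ∣ A ∧ (p : ℤ) ^ 6 ∣ B)) :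
    16 * (4 * A ^ 3 + 27 * B ^ 2).natAbs ≤ 6 ^ 12 * mD A B := by
  have hne : (DS A B).Nonempty := ⟨_, ⟨0, 0, 0, A, B⟩, ⟨1, by rw [one_smul]; rfl⟩, rfl⟩
  obtain ⟨W, ⟨C, hC⟩, hW⟩ := Nat.sInf_mem hne
  change W.Δ.natAbs = mD A B at hW
  rw [← hW]
  set u : ℚ := (C.u : ℚ) with hu
  have hu0 : u ≠ 0 := C.u.ne_zero
  have huinv : ((C.u⁻¹ : ℚˣ) : ℚ) = u⁻¹ := by rw [hu, Units.val_inv_eq_inv_val]
  have h4 := WeierstrassCurve.variableChange_c₄ (W.map (Int.castRingHom ℚ)) C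
  have h6 := WeierstrassCurve.variableChange_c₆ (W.map (Int.castRingHom ℚ)) C
  have h12 := WeierstrassCurve.variableChange_Δ (W.map (Int.castRingHom ℚ)) C
  rw [hC, huinv, WeierstrassCurve.map_c₄] at h4
  rw [hC, huinv, WeierstrassCurve.map_c₆] at h6
  rw [hC, huinv, WeierstrassCurve.map_Δ] at h12
  have e4 : (Es A B).c₄ = ((-(48 * A) : ℤ) : ℚ) := by
    unfold Es
    simp only [WeierstrassCurve.c₄, WeierstrassCurve.b₂, WeierstrassCurve.b₄]
    push_cast
    ring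
  have e6 : (Es A B).c₆ = ((-(864 * B) : ℤ) : ℚ) := by
    unfold Es
    simp only [WeierstrassCurve.c₆, WeierstrassCurve.b₂, WeierstrassCurve.b₄, WeierstrassCurve.b₆]
    push_cast
    ring
  have e12 : (Es A B).Δ = ((-(16 * (4 * A ^ 3 + 27 * B ^ 2)) : ℤ) : ℚ) := by
    unfold Es
    simp only [WeierstrassCurve.Δ, WeierstrassCurve.b₂, WeierstrassCurve.b₄,
      WeierstrassCurve.b₆, WeierstrassCurve.b₈]
    push_cast
    ring
  rw [e4] at h4
  rw [e6] at h6
  rw [e12] at h12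
  simp only [eq_intCast] at h4 h6 h12
  have g4 : (W.c₄ : ℚ) = ((-(48 * A) : ℤ) : ℚ) * u ^ 4 := by
    rw [h4]
    field_simp
  have g6 : (W.c₆ : ℚ) = ((-(864 * B) : ℤ) : ℚ) * u ^ 6 := by
    rw [h6]
    field_simp
  have g12 : (W.Δ : ℚ) = ((-(16 * (4 * A ^ 3 + 27 * B ^ 2)) : ℤ) : ℚ) * u ^ 12 := by
    rw [h12]
    field_simp
  have d4 : ((u.den : ℤ)) ^ 4 ∣ 48 * A := (dvd_neg.1 (den_dvd g4))
  have d6 : ((u.den : ℤ)) ^ 6 ∣ 864 * B := (dvd_neg.1 (den_dvd g6))
  set n := u.den with hn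
  have hn0 : 0 < n := u.den_pos
  have hn6 : n ∣ 6 := by
    apply dvd_six
    · intro p hp hpn
      by_contra hcon
      push Not at hcon
      have hpz : Prime (p : ℤ) := Nat.prime_iff_prime_int.1 hp
      have hpnz : (p : ℤ) ∣ (n : ℤ) := Int.natCast_dvd_natCast.2 hpn
      have k1 : (p : ℤ) ^ 4 ∣ 48 * A := (pow_dvd_pow_of_dvd hpnz 4).trans d4
      have k2 : (p : ℤ) ^ 6 ∣ 864 * B := (pow_dvd_pow_of_dvd hpnz 6).trans d6
      have hc : ∀ q : ℕ, (∀ r : ℕ, r.Prime → r ∣ q → r = 2 ∨ r = 3) → p.Coprime q := by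
        intro q hq
        rw [hp.coprime_iff_not_dvd]
        intro h
        rcases hq p hp h with h | h
        · exact hcon.1 h
        · exact hcon.2 h
      have c1 : IsCoprime ((p : ℤ) ^ 4) 48 := by
        apply IsCoprime.pow_left
        have := hc 48 (by
          intro r hr h
          have : r ∣ 2 ^ 4 * 3 := h
          rcases (hr.dvd_mul).1 this with h | h
          · left; exact (Nat.prime_dvd_prime_iff_eq hr Nat.prime_two).1 (hr.dvd_of_dvd_pow h)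
          · right; exact (Nat.prime_dvd_prime_iff_eq hr Nat.prime_three).1 h)
        exact_mod_cast Nat.isCoprime_iff_coprime.2 this
      have c2 : IsCoprime ((p : ℤ) ^ 6) 864 := by
        apply IsCoprime.pow_left
        have := hc 864 (by
          intro r hr h
          have : r ∣ 2 ^ 5 * 3 ^ 3 := h
          rcases (hr.dvd_mul).1 this with h | h
          · left; exact (Nat.prime_dvd_prime_iff_eq hr Nat.prime_two).1 (hr.dvd_of_dvd_pow h)
          · right; exact (Nat.prime_dvd_prime_iff_eq hr Nat.prime_three).1 (hr.dvd_of_dvd_pow h))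
        exact_mod_cast Nat.isCoprime_iff_coprime.2 this
      exact hmin p hp ⟨c1.dvd_of_dvd_mul_left k1, c2.dvd_of_dvd_mul_left k2⟩
    · intro h
      obtain ⟨q, hq⟩ := h
      have k1 : (4 : ℤ) ^ 4 ∣ 48 * A := by
        refine Dvd.dvd.trans ?_ d4
        rw [hq]
        push_cast
        rw [mul_pow]
        exact Dvd.intro _ rfl
      have k2 : (4 : ℤ) ^ 6 ∣ 864 * B := by
        refine Dvd.dvd.trans ?_ d6
        rw [hq]
        push_cast
        rw [mul_pow]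
        exact Dvd.intro _ rfl
      refine hmin 2 Nat.prime_two ⟨?_, ?_⟩
      · push_cast; omega
      · push_cast; omega
    · intro h
      obtain ⟨q, hq⟩ := h
      have k1 : (9 : ℤ) ^ 4 ∣ 48 * A := by
        refine Dvd.dvd.trans ?_ d4
        rw [hq]
        push_cast
        rw [mul_pow]
        exact Dvd.intro _ rfl
      have k2 : (9 : ℤ) ^ 6 ∣ 864 * B := by
        refine Dvd.dvd.trans ?_ d6
        rw [hq]
        push_cast
        rw [mul_pow]
        exact Dvd.intro _ rfl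
      refine hmin 3 Nat.prime_three ⟨?_, ?_⟩
      · push_cast; omega
      · push_cast; omega
  have hn6' : n ≤ 6 := Nat.le_of_dvd (by norm_num) hn6
  -- the inequality
  have hnum : u.num ≠ 0 := Rat.num_ne_zero.2 hu0
  have hd : (n : ℚ) ≠ 0 := by exact_mod_cast hn0.ne'
  have e : u = u.num / n := (Rat.num_div_den u).symm
  have h1 : (W.Δ : ℚ) * (n : ℚ) ^ 12 =
      ((-(16 * (4 * A ^ 3 + 27 * B ^ 2)) : ℤ) : ℚ) * (u.num : ℚ) ^ 12 := by
    rw [g12]
    have e2 : u ^ 12 * (n : ℚ) ^ 12 = (u.num : ℚ) ^ 12 := by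
      rw [← mul_pow]
      congr 1
      rw [hn]
      exact Rat.mul_den_eq_num u
    rw [mul_assoc, e2]
  have h2 : W.Δ * (n : ℤ) ^ 12 = -(16 * (4 * A ^ 3 + 27 * B ^ 2)) * u.num ^ 12 := by
    exact_mod_cast h1
  have h3 := congrArg Int.natAbs h2
  rw [Int.natAbs_mul, Int.natAbs_mul, Int.natAbs_neg, Int.natAbs_mul, Int.natAbs_pow,
    Int.natAbs_pow, Int.natAbs_natCast] at h3
  have h4' : (16 : ℤ).natAbs = 16 := rfl
  rw [h4'] at h3
  have h5 : 1 ≤ u.num.natAbs ^ 12 := Nat.one_le_pow _ _ (Int.natAbs_pos.2 hnum)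
  calc 16 * (4 * A ^ 3 + 27 * B ^ 2).natAbs
      ≤ 16 * (4 * A ^ 3 + 27 * B ^ 2).natAbs * u.num.natAbs ^ 12 := Nat.le_mul_of_pos_right _ h5
    _ = W.Δ.natAbs * n ^ 12 := h3.symm
    _ ≤ W.Δ.natAbs * 6 ^ 12 := Nat.mul_le_mul_left _ (Nat.pow_le_pow_left hn6' 12)
    _ = 6 ^ 12 * W.Δ.natAbs := mul_comm _ _

end Pool.Agent.H457.A
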