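import Pool.Agent.H457.A.T1j
import Pool.Agent.H457.A.DM1

set_option autoImplicit false

/-! The pairs `(a, b)` with `|a| b² ≤ M³`, and the parametrisation by these. -/

namespace Pool.Agent.H457.A

open Finset Filter Pool.Agent.W262.RK Pool.Agent.W307.RT
open Pool.Agent.H457.B (Rel2 core2 rel2_unique)

/-- the pairs of rank at least `r` with `|a| b² ≤ M³` -/
noncomputable def PR (r M : ℕ) : Finset (ℤ × ℤ) :=
  (Icc (-((M : ℤ) ^ 3)) ((M : ℤ) ^ 3) ×ˢ Icc (-((M : ℤ) ^ 3)) ((M : ℤ) ^ 3)).filter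
    (fun p : ℤ × ℤ => p.1 ≠ 0 ∧ p.2 ≠ 0 ∧ p.1 ≠ p.2 ∧ p.1.natAbs ≤ p.2.natAbs ∧
      p.1.natAbs * p.2.natAbs ^ 2 ≤ M ^ 3 ∧ r ≤ rkE p)

lemma sum_inv_sqrt (n : ℕ) : ∑ a ∈ Icc 1 n, (1 : ℝ) / Real.sqrt a ≤ 2 * Real.sqrt n := by
  induction n with
  | zero => simp
  | succ n ih =>
    rw [← Finset.insert_Icc_right_eq_Icc_add_one (by omega), sum_insert (by simp)]
    have h0 : (0 : ℝ) < Real.sqrt ((n + 1 : ℕ) : ℝ) := Real.sqrt_pos.2 (by positivity)
    have h1 : (0 : ℝ) ≤ Real.sqrt n := Real.sqrt_nonneg _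
    have h2 : Real.sqrt ((n + 1 : ℕ) : ℝ) ^ 2 = n + 1 := by
      rw [Real.sq_sqrt (by positivity)]
      push_cast
      ring
    have h3 : Real.sqrt n ^ 2 = n := Real.sq_sqrt (Nat.cast_nonneg n)
    have h4 : 1 / Real.sqrt ((n + 1 : ℕ) : ℝ) ≤
        2 * (Real.sqrt ((n + 1 : ℕ) : ℝ) - Real.sqrt n) := by
      rw [div_le_iff₀ h0]
      nlinarith [sq_nonneg (Real.sqrt ((n + 1 : ℕ) : ℝ) - Real.sqrt n)]
    linarith

/-- the pairs with a small first coordinate -/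
noncomputable def PS' (κ M : ℕ) : Finset (ℤ × ℤ) :=
  (Icc (-((M / κ ^ 2 : ℕ) : ℤ)) ((M / κ ^ 2 : ℕ) : ℤ)).biUnion (fun a =>
    if a = 0 then ∅ else ((Icc (-((Nat.sqrt (M ^ 3 / a.natAbs) : ℕ) : ℤ))
      ((Nat.sqrt (M ^ 3 / a.natAbs) : ℕ) : ℤ)).erase 0).image (fun b => (a, b)))

lemma box_split (N : ℕ) :
    Icc (-(N : ℤ)) (N : ℤ) = (Icc (1 : ℕ) N).image (fun a : ℕ => (a : ℤ)) ∪
        ((Icc (1 : ℕ) N).image (fun a : ℕ => -(a : ℤ)) ∪ {0}) := by
  ext x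
  simp only [mem_Icc, mem_union, mem_image, mem_singleton]
  constructor
  · intro h
    rcases lt_trichotomy x 0 with hx | hx | hx
    · right; left
      exact ⟨x.natAbs, by omega, by omega⟩
    · right; right; exact hx
    · left
      exact ⟨x.natAbs, by omega, by omega⟩
  · rintro (⟨a, ha, rfl⟩ | ⟨a, ha, rfl⟩ | rfl) <;> omega

lemma card_erase_box (q : ℕ) : ((Icc (-(q : ℤ)) (q : ℤ)).erase 0).card ≤ 2 * q := by
  have hq0 : (0 : ℤ) ∈ Icc (-(q : ℤ)) (q : ℤ) :=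
    mem_Icc.2 ⟨neg_nonpos.2 (Int.natCast_nonneg q), Int.natCast_nonneg q⟩
  rw [card_erase_of_mem hq0, Int.card_Icc]
  omega

lemma card_PS' {κ : ℕ} (hκ : 1 ≤ κ) (M : ℕ) : ((PS' κ M).card : ℝ) ≤ 8 * (M : ℝ) ^ 2 / κ := by
  classical
  set N := M / κ ^ 2 with hN
  have h1 : (PS' κ M).card ≤ ∑ a ∈ Icc (-(N : ℤ)) (N : ℤ),
      (if a = 0 then 0 else 2 * Nat.sqrt (M ^ 3 / a.natAbs)) := by
    refine card_biUnion_le.trans (sum_le_sum fun a _ => ?_)
    split_ifs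
    · simp
    · exact card_image_le.trans (card_erase_box _)
  have h2 : ∑ a ∈ Icc (-(N : ℤ)) (N : ℤ),
      (if a = 0 then 0 else 2 * Nat.sqrt (M ^ 3 / a.natAbs)) =
      2 * ∑ a ∈ Icc 1 N, 2 * Nat.sqrt (M ^ 3 / a) := by
    rw [box_split N, sum_union, sum_union, sum_image, sum_image]
    · simp only [sum_singleton, if_true, add_zero]
      have e1 : ∀ a ∈ Icc 1 N, (if (a : ℤ) = 0 then 0 else 2 * Nat.sqrt (M ^ 3 / (a : ℤ).natAbs)) =
          2 * Nat.sqrt (M ^ 3 / a) := by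
        intro a ha
        rw [mem_Icc] at ha
        rw [if_neg (by omega), Int.natAbs_natCast]
      have e2 : ∀ a ∈ Icc 1 N,
          (if -(a : ℤ) = 0 then 0 else 2 * Nat.sqrt (M ^ 3 / (-(a : ℤ)).natAbs)) =
          2 * Nat.sqrt (M ^ 3 / a) := by
        intro a ha
        rw [mem_Icc] at ha
        rw [if_neg (by omega), Int.natAbs_neg, Int.natAbs_natCast]
      rw [sum_congr rfl e1, sum_congr rfl e2]
      ring
    · intro a _ b _ h
      simp only at h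
      omega
    · intro a _ b _ h
      simp only at h
      omega
    · rw [disjoint_singleton_right, mem_image]
      rintro ⟨a, ha, h⟩
      rw [mem_Icc] at ha
      omega
    · rw [disjoint_left]
      intro x hx hx'
      rw [mem_image] at hx
      rw [mem_union, mem_image, mem_singleton] at hx'
      obtain ⟨a, ha, rfl⟩ := hx
      rw [mem_Icc] at ha
      rcases hx' with ⟨b, hb, h⟩ | h
      · omega
      · omega
  have hM0 : (0 : ℝ) ≤ M := Nat.cast_nonneg M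
  have h3 : ∀ a ∈ Icc 1 N, ((2 * Nat.sqrt (M ^ 3 / a) : ℕ) : ℝ) ≤
      2 * Real.sqrt ((M : ℝ) ^ 3) * (1 / Real.sqrt a) := by
    intro a ha
    rw [mem_Icc] at ha
    have ha0 : (0 : ℝ) < a := by exact_mod_cast ha.1
    have g1 : ((Nat.sqrt (M ^ 3 / a) : ℕ) : ℝ) ≤ Real.sqrt ((M : ℝ) ^ 3 / a) := by
      apply Real.le_sqrt_of_sq_le
      have g2 : (Nat.sqrt (M ^ 3 / a)) ^ 2 ≤ M ^ 3 / a := Nat.sqrt_le' _
      have g3 : (((Nat.sqrt (M ^ 3 / a)) ^ 2 : ℕ) : ℝ) ≤ ((M ^ 3 / a : ℕ) : ℝ) := by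
        exact_mod_cast g2
      have g4 : ((M ^ 3 / a : ℕ) : ℝ) ≤ ((M ^ 3 : ℕ) : ℝ) / a := Nat.cast_div_le
      push_cast at g3 g4
      exact g3.trans g4
    rw [Real.sqrt_div (by positivity)] at g1
    push_cast
    calc (2 : ℝ) * (Nat.sqrt (M ^ 3 / a) : ℕ) ≤ 2 * (Real.sqrt ((M : ℝ) ^ 3) / Real.sqrt a) := by
          linarith
      _ = _ := by ring
  have hκr : (1 : ℝ) ≤ κ := by exact_mod_cast hκ
  have h4 : Real.sqrt (N : ℝ) ≤ Real.sqrt M / κ := by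
    have g1 : (N : ℝ) ≤ (M : ℝ) / (κ : ℝ) ^ 2 := by
      rw [hN]
      have := Nat.cast_div_le (α := ℝ) (m := M) (n := κ ^ 2)
      push_cast at this
      exact this
    refine (Real.sqrt_le_sqrt g1).trans (le_of_eq ?_)
    rw [Real.sqrt_div hM0, Real.sqrt_sq (by linarith)]
  have h5 : Real.sqrt ((M : ℝ) ^ 3) * Real.sqrt M = (M : ℝ) ^ 2 := by
    rw [← Real.sqrt_mul (by positivity)]
    have : (M : ℝ) ^ 3 * M = (M ^ 2) ^ 2 := by ring
    rw [this, Real.sqrt_sq (by positivity)]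
  calc ((PS' κ M).card : ℝ) ≤ ((2 * ∑ a ∈ Icc 1 N, 2 * Nat.sqrt (M ^ 3 / a) : ℕ) : ℝ) := by
        rw [← h2]
        exact_mod_cast h1
    _ = 2 * ∑ a ∈ Icc 1 N, ((2 * Nat.sqrt (M ^ 3 / a) : ℕ) : ℝ) := by push_cast; ring
    _ ≤ 2 * ∑ a ∈ Icc 1 N, 2 * Real.sqrt ((M : ℝ) ^ 3) * (1 / Real.sqrt a) := by
        have := sum_le_sum h3
        linarith
    _ = 4 * Real.sqrt ((M : ℝ) ^ 3) * ∑ a ∈ Icc 1 N, 1 / Real.sqrt a := by
        rw [← mul_sum]; ring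
    _ ≤ 4 * Real.sqrt ((M : ℝ) ^ 3) * (2 * (Real.sqrt M / κ)) := by
        apply mul_le_mul_of_nonneg_left _ (by positivity)
        exact (sum_inv_sqrt N).trans (by linarith)
    _ = 8 * (Real.sqrt ((M : ℝ) ^ 3) * Real.sqrt M) / κ := by ring
    _ = _ := by rw [h5]

lemma PR_sub {r κ M : ℕ} (hκ : 1 ≤ κ) : PR r M ⊆ SR r (κ * M) ∪ PS' κ M := by
  classical
  rintro ⟨a, b⟩ h
  unfold PR at h
  rw [mem_filter] at h
  obtain ⟨-, ha, hb, hab, hle, hM, hr⟩ := h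
  simp only at ha hb hab hle hM
  rw [mem_union]
  rcases Nat.lt_or_ge (κ * M) b.natAbs with hbb | hbb
  · right
    unfold PS'
    rw [mem_biUnion]
    have ha1 : 1 ≤ a.natAbs := Int.natAbs_pos.2 ha
    have hMp : 0 < M := by
      rcases Nat.eq_zero_or_pos M with h | h
      · subst h
        have : 0 < a.natAbs * b.natAbs ^ 2 := by
          have := Int.natAbs_pos.2 hb
          positivity
        omega
      · exact h
    have h1 : a.natAbs * κ ^ 2 ≤ M := by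
      have h2 : a.natAbs * (κ * M) ^ 2 ≤ M ^ 3 :=
        (Nat.mul_le_mul_left _ (Nat.pow_le_pow_left hbb.le 2)).trans hM
      have h3 : M ^ 2 * (a.natAbs * κ ^ 2) ≤ M ^ 2 * M := by
        calc M ^ 2 * (a.natAbs * κ ^ 2) = a.natAbs * (κ * M) ^ 2 := by ring
          _ ≤ M ^ 3 := h2
          _ = M ^ 2 * M := by ring
      exact Nat.le_of_mul_le_mul_left h3 (by positivity)
    have h2 : a.natAbs ≤ M / κ ^ 2 := (Nat.le_div_iff_mul_le (by positivity)).2 h1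
    have h3 : b.natAbs ≤ Nat.sqrt (M ^ 3 / a.natAbs) := by
      rw [Nat.le_sqrt', Nat.le_div_iff_mul_le ha1, mul_comm]
      exact hM
    refine ⟨a, mem_Icc.2 ⟨by omega, by omega⟩, ?_⟩
    rw [if_neg ha, mem_image]
    exact ⟨b, mem_erase.2 ⟨hb, mem_Icc.2 ⟨by omega, by omega⟩⟩, rfl⟩
  · left
    unfold SR
    rw [mem_filter, mem_product, mem_Icc, mem_Icc]
    simp only
    refine ⟨⟨⟨by omega, by omega⟩, by omega, by omega⟩, ha, hb, hab, hr⟩

/-- **The tail of the rank over the pairs with `|a| b² ≤ M³`.** -/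
theorem region_tail : ∃ C c : ℝ, 0 < C ∧ 0 < c ∧ ∀ r : ℕ, ∀ᶠ M : ℕ in Filter.atTop,
    ((PR r M).card : ℝ) ≤ C * Real.exp (-(c * (r * Real.log r))) * M ^ 2 := by
  classical
  obtain ⟨C, c, hC, hc, h⟩ := pairs_tail
  refine ⟨4 * C + 8, c / 3, by positivity, by positivity, fun r => ?_⟩
  set x : ℝ := c * (r * Real.log r) with hx
  have hx0 : 0 ≤ x := mul_nonneg hc.le (mul_nonneg (Nat.cast_nonneg _) (Real.log_natCast_nonneg _))
  set κ : ℕ := ⌈Real.exp (x / 3)⌉₊ with hκ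
  have h1e : 1 ≤ Real.exp (x / 3) := Real.one_le_exp (by positivity)
  have hκ1 : Real.exp (x / 3) ≤ κ := Nat.le_ceil _
  have hκ2 : (κ : ℝ) ≤ 2 * Real.exp (x / 3) := by
    have := (Nat.ceil_lt_add_one (by linarith : (0 : ℝ) ≤ Real.exp (x / 3))).le
    linarith
  have hκ3 : 1 ≤ κ := by
    have : (1 : ℝ) ≤ κ := h1e.trans hκ1
    exact_mod_cast this
  have hκr : (0 : ℝ) < κ := by exact_mod_cast hκ3
  have htend : Filter.Tendsto (fun M : ℕ => κ * M) Filter.atTop Filter.atTop :=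
    Filter.tendsto_atTop_atTop.2 fun b => ⟨b, fun M hM => hM.trans (Nat.le_mul_of_pos_left _ hκ3)⟩
  filter_upwards [htend.eventually (h r)] with M hM
  have h2 : ((PR r M).card : ℝ) ≤ (SR r (κ * M)).card + (PS' κ M).card := by
    exact_mod_cast (card_le_card (PR_sub hκ3)).trans (card_union_le _ _)
  have h3 := card_PS' hκ3 M
  have hE : Real.exp (-(c / 3 * (r * Real.log r))) = Real.exp (-(x / 3)) := by
    congr 1
    rw [hx]
    ring
  rw [hE]
  have hM2 : (0 : ℝ) ≤ (M : ℝ) ^ 2 := by positivity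
  have h4 : ((SR r (κ * M)).card : ℝ) ≤ 4 * C * Real.exp (-(x / 3)) * (M : ℝ) ^ 2 := by
    refine hM.trans ?_
    push_cast
    have e1 : (κ : ℝ) ^ 2 ≤ 4 * (Real.exp (x / 3)) ^ 2 := by
      calc (κ : ℝ) ^ 2 ≤ (2 * Real.exp (x / 3)) ^ 2 := pow_le_pow_left₀ hκr.le hκ2 2
        _ = _ := by ring
    have e2 : Real.exp (-x) * (Real.exp (x / 3)) ^ 2 = Real.exp (-(x / 3)) := by
      rw [← Real.exp_nat_mul, ← Real.exp_add]
      congr 1
      push_cast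
      ring
    calc C * Real.exp (-x) * (κ * M : ℝ) ^ 2 = C * Real.exp (-x) * (M : ℝ) ^ 2 * (κ : ℝ) ^ 2 := by
          ring
      _ ≤ C * Real.exp (-x) * (M : ℝ) ^ 2 * (4 * (Real.exp (x / 3)) ^ 2) :=
          mul_le_mul_of_nonneg_left e1 (by positivity)
      _ = 4 * C * (Real.exp (-x) * (Real.exp (x / 3)) ^ 2) * (M : ℝ) ^ 2 := by ring
      _ = _ := by rw [e2]
  have h5 : 8 * (M : ℝ) ^ 2 / κ ≤ 8 * Real.exp (-(x / 3)) * (M : ℝ) ^ 2 := by
    rw [div_le_iff₀ hκr, Real.exp_neg]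
    have e1 : 1 ≤ (Real.exp (x / 3))⁻¹ * κ := by
      rw [← div_eq_inv_mul, one_le_div (Real.exp_pos _)]
      exact hκ1
    nlinarith
  linarith [h2, h3, h4, h5]

/-- the parameters with the closest roots first -/
lemma rel2_order {A B : ℤ} {ab : ℤ × ℤ} (h : Rel2 (A, B) ab) : ∃ ab', Rel2 (A, B) ab' ∧
    ab'.1.natAbs ≤ ab'.2.natAbs ∧ ab'.1.natAbs ≤ (ab'.1 - ab'.2).natAbs := by
  obtain ⟨e1, e2, h1, n12, n13, n23, hA, hB⟩ := h
  simp only at hA hB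
  have perm : ∀ f1 f2 : ℤ, f1 ≠ f2 → 2 * f1 + f2 ≠ 0 → f1 + 2 * f2 ≠ 0 →
      A = -(f1 ^ 2 + f1 * f2 + f2 ^ 2) → B = f1 * f2 * (f1 + f2) →
      Rel2 (A, B) (f2 - f1, -2 * f1 - f2) := fun f1 f2 a1 a2 a3 a4 a5 =>
    ⟨f1, f2, rfl, a1, a2, a3, a4, a5⟩
  -- the differences
  set x := e2 - e1 with hx
  set y := -2 * e1 - e2 with hy
  have hxy : x - y = e1 + 2 * e2 := by rw [hx, hy]; ring
  by_cases c1 : x.natAbs ≤ y.natAbs ∧ x.natAbs ≤ (x - y).natAbs
  · exact ⟨(x, y), ⟨e1, e2, rfl, n12, n13, n23, hA, hB⟩, c1.1, c1.2⟩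
  · by_cases c2 : y.natAbs ≤ x.natAbs ∧ y.natAbs ≤ (x - y).natAbs
    · -- roots `e1`, `e3`
      have h2 := perm e1 (-e1 - e2) (by omega) (by omega) (by omega) (by rw [hA]; ring)
        (by rw [hB]; ring)
      have e : ((-e1 - e2) - e1, -2 * e1 - (-e1 - e2)) = (y, x) := by
        rw [hx, hy]
        ext <;> simp <;> ring
      rw [e] at h2
      refine ⟨(y, x), h2, c2.1, ?_⟩
      simp only
      rw [← Int.natAbs_neg (y - x)]
      have : -(y - x) = x - y := by ring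
      rw [this]
      exact c2.2
    · -- roots `e2`, `e3`
      have h2 := perm e2 (-e1 - e2) (by omega) (by omega) (by omega) (by rw [hA]; ring)
        (by rw [hB]; ring)
      have e : ((-e1 - e2) - e2, -2 * e2 - (-e1 - e2)) = (y - x, -x) := by
        rw [hx, hy]
        ext <;> simp <;> ring
      rw [e] at h2
      refine ⟨(y - x, -x), h2, ?_, ?_⟩
      · simp only
        omega
      · simp only
        have : y - x - -x = y := by ring
        rw [this]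
        omega

end Pool.Agent.H457.A
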