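import Pool.Agent.H457.A.DM2

set_option autoImplicit false

/-!
# The tail of the rank over all elliptic curves over `ℚ` with full rational 2-torsion, by the
minimal discriminant
-/

namespace Pool.Agent.H457.A

open Finset Filter Pool.Agent.W262.RK Pool.Agent.W307.RT
open Pool.Agent.H457.B (Rel2 core2 rel2_unique)

/-- the curves with full rational 2-torsion whose minimal discriminant is at most `X` -/
def DF (X : ℕ) : Set (ℤ × ℤ) := {c | 4 * c.1 ^ 3 + 27 * c.2 ^ 2 ≠ 0 ∧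
  (∀ p : ℕ, p.Prime → ¬ ((p : ℤ) ^ 4 ∣ c.1 ∧ (p : ℤ) ^ 6 ∣ c.2)) ∧ HasT 2 (Sh c.1 c.2) ∧
  mD c.1 c.2 ≤ X}

/-- those of rank at least `r` -/
def DFR (r X : ℕ) : Set (ℤ × ℤ) :=
  {c | c ∈ DF X ∧ r ≤ Module.finrank ℤ (Sh c.1 c.2).toAffine.Point}

/-- the parameters -/
def Par (c ab : ℤ × ℤ) : Prop := Rel2 c ab ∧ ab.1.natAbs ≤ ab.2.natAbs ∧
  ab.1.natAbs ≤ (ab.1 - ab.2).natAbs

open Classical in
/-- the parameters, chosen -/
noncomputable def G2 (c : ℤ × ℤ) : ℤ × ℤ := if h : ∃ ab, Par c ab then h.choose else (0, 0)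

lemma G2_spec {c : ℤ × ℤ} {X : ℕ} (h : c ∈ DF X) : Par c (G2 c) := by
  have h1 : ∃ ab, Par c ab := by
    obtain ⟨ab, hab⟩ := core2 (A := c.1) (B := c.2) h.1 h.2.2.1
    obtain ⟨ab', h1, h2, h3⟩ := rel2_order hab
    exact ⟨ab', h1, h2, h3⟩
  unfold G2
  rw [dif_pos h1]
  exact h1.choose_spec

lemma G2_inj (X : ℕ) : Set.InjOn G2 (DF X) := by
  intro c hc c' hc' h
  have r := (G2_spec hc).1
  have r' := (G2_spec hc').1
  rw [← h] at r'
  exact rel2_unique r r'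

lemma rel2_rank {c ab : ℤ × ℤ} (h : Rel2 c ab) :
    Module.finrank ℤ (Sh c.1 c.2).toAffine.Point = rkE ab := by
  obtain ⟨A, B⟩ := c
  obtain ⟨e1, e2, h1, n12, n13, n23, hA, hB⟩ := h
  change A = _ at hA
  change B = _ at hB
  subst h1
  obtain ⟨φ⟩ := Pool.Agent.W261.RT.iso 0 A B e1 1 one_ne_zero
  have hW : (⟨0, ((0 : ℚ) + 3 * e1) / (1 : ℚ) ^ 2, 0,
      ((A : ℚ) + 2 * e1 * 0 + 3 * (e1 : ℚ) ^ 2) / (1 : ℚ) ^ 4,
      ((B : ℚ) + e1 * A + (e1 : ℚ) ^ 2 * 0 + (e1 : ℚ) ^ 3) / (1 : ℚ) ^ 6⟩ :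
      WeierstrassCurve ℚ) = EAB (e2 - e1) (-2 * e1 - e2) := by
    unfold EAB
    simp only [WeierstrassCurve.mk.injEq, true_and]
    refine ⟨?_, ?_, ?_⟩
    · push_cast; ring
    · rw [hA]; push_cast; ring
    · rw [hA, hB]; push_cast; ring
  rw [hW] at φ
  change Module.finrank ℤ (Sh A B).toAffine.Point =
    Module.finrank ℤ (EAB (e2 - e1) (-2 * e1 - e2)).toAffine.Point
  exact LinearEquiv.finrank_eq φ.toIntLinearEquiv

/-- the parameters of a curve of small discriminant -/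
lemma G2_mem {c : ℤ × ℤ} {X M r : ℕ} (h : c ∈ DFR r X) (hM : 6 ^ 12 * X < M ^ 6) :
    G2 c ∈ PR r M := by
  obtain ⟨h1, h2⟩ := h
  obtain ⟨g1, g2, g3⟩ := G2_spec h1
  have hr := rel2_rank g1
  obtain ⟨hD, hmin, -, hX⟩ := h1
  have hd := le_mD hmin
  set ab := G2 c with hab
  clear_value ab
  obtain ⟨a, b⟩ := ab
  obtain ⟨e1, e2, k1, n12, n13, n23, hA, hB⟩ := g1
  rw [Prod.mk.injEq] at k1
  obtain ⟨k1, k2⟩ := k1
  simp only at g2 g3
  have ha0 : a ≠ 0 := by omega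
  have hb0 : b ≠ 0 := by omega
  have hne : a ≠ b := by omega
  have hdisc : 4 * c.1 ^ 3 + 27 * c.2 ^ 2 = -((a * b * (a - b)) ^ 2) := by
    rw [hA, hB, k1, k2]
    ring
  have hdn : (4 * c.1 ^ 3 + 27 * c.2 ^ 2).natAbs =
      (a.natAbs * b.natAbs * (a - b).natAbs) ^ 2 := by
    rw [hdisc, Int.natAbs_neg, Int.natAbs_pow, Int.natAbs_mul, Int.natAbs_mul]
  rw [hdn] at hd
  have hb2 : b.natAbs ≤ 2 * (a - b).natAbs := by omega
  have hkey : (a.natAbs * b.natAbs ^ 2) ^ 2 ≤ 6 ^ 12 * X := by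
    have e1 : a.natAbs * b.natAbs ^ 2 ≤ 2 * (a.natAbs * b.natAbs * (a - b).natAbs) := by
      calc a.natAbs * b.natAbs ^ 2 = a.natAbs * b.natAbs * b.natAbs := by ring
        _ ≤ a.natAbs * b.natAbs * (2 * (a - b).natAbs) := Nat.mul_le_mul_left _ hb2
        _ = _ := by ring
    calc (a.natAbs * b.natAbs ^ 2) ^ 2 ≤ (2 * (a.natAbs * b.natAbs * (a - b).natAbs)) ^ 2 :=
          Nat.pow_le_pow_left e1 2
      _ = 4 * (a.natAbs * b.natAbs * (a - b).natAbs) ^ 2 := by ring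
      _ ≤ 16 * (a.natAbs * b.natAbs * (a - b).natAbs) ^ 2 := Nat.mul_le_mul_right _ (by norm_num)
      _ ≤ 6 ^ 12 * mD c.1 c.2 := hd
      _ ≤ 6 ^ 12 * X := Nat.mul_le_mul_left _ hX
  have hlt : a.natAbs * b.natAbs ^ 2 < M ^ 3 := by
    have e1 : (a.natAbs * b.natAbs ^ 2) ^ 2 < (M ^ 3) ^ 2 := by
      rw [← pow_mul]
      exact lt_of_le_of_lt hkey hM
    exact lt_of_pow_lt_pow_left₀ 2 (Nat.zero_le _) e1
  have hap : 1 ≤ a.natAbs := Int.natAbs_pos.2 ha0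
  have hbp : 1 ≤ b.natAbs := Int.natAbs_pos.2 hb0
  have hb3 : b.natAbs ≤ M ^ 3 := by
    calc b.natAbs ≤ b.natAbs ^ 2 := Nat.le_self_pow (by norm_num) _
      _ ≤ a.natAbs * b.natAbs ^ 2 := Nat.le_mul_of_pos_left _ hap
      _ ≤ M ^ 3 := hlt.le
  have ha3 : a.natAbs ≤ M ^ 3 := g2.trans hb3
  unfold PR
  rw [mem_filter, mem_product, mem_Icc, mem_Icc]
  simp only
  have hMM : ((M ^ 3 : ℕ) : ℤ) = (M : ℤ) ^ 3 := by push_cast; rfl
  rw [← hMM]
  refine ⟨⟨⟨by omega, by omega⟩, by omega, by omega⟩, ha0, hb0, hne, g2, hlt.le, ?_⟩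
  rw [← hr]
  exact h2

lemma DF_eq (X : ℕ) : DF X = DFR 0 X := by
  ext c
  unfold DFR
  simp

lemma DF_finite (X : ℕ) : (DF X).Finite := by
  have hM : 6 ^ 12 * X < (6 ^ 12 * X + 1) ^ 6 := by
    calc 6 ^ 12 * X < 6 ^ 12 * X + 1 := Nat.lt_succ_self _
      _ ≤ _ := Nat.le_self_pow (by norm_num) _
  apply Set.Finite.of_finite_image (f := G2) _ (G2_inj X)
  apply (PR 0 (6 ^ 12 * X + 1)).finite_toSet.subset
  rintro _ ⟨c, hc, rfl⟩
  rw [DF_eq] at hc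
  exact Finset.mem_coe.2 (G2_mem hc hM)

lemma DFR_card {r X M : ℕ} (hM : 6 ^ 12 * X < M ^ 6) : (DFR r X).ncard ≤ (PR r M).card := by
  rw [← Set.ncard_coe_finset]
  apply Set.ncard_le_ncard_of_injOn G2
  · intro c hc
    exact Finset.mem_coe.2 (G2_mem hc hM)
  · intro c hc c' hc' h
    exact G2_inj X hc.1 hc'.1 h

lemma Cv_sub (X : ℕ) : ((Cv 2 (X / 32) : Finset (ℤ × ℤ)) : Set (ℤ × ℤ)) ⊆ DF X := by
  classical
  intro c hc
  rw [Finset.mem_coe] at hc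
  simp only [Cv, Finset.mem_filter] at hc
  obtain ⟨-, hD, hH1, hH2, hmin, hT⟩ := hc
  refine ⟨hD, hmin, hT, (mD_le c.1 c.2).trans ?_⟩
  have h1 : |4 * c.1 ^ 3 + 27 * c.2 ^ 2| ≤ 2 * ((X / 32 : ℕ) : ℤ) := by
    calc |4 * c.1 ^ 3 + 27 * c.2 ^ 2| ≤ |4 * c.1 ^ 3| + |27 * c.2 ^ 2| := abs_add_le _ _
      _ = 4 * |c.1| ^ 3 + 27 * c.2 ^ 2 := by
        rw [abs_mul, abs_pow, abs_of_nonneg (by positivity : (0 : ℤ) ≤ 27 * c.2 ^ 2)]
        rfl
      _ ≤ _ := by linarith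
  have h2 : (((4 * c.1 ^ 3 + 27 * c.2 ^ 2).natAbs : ℕ) : ℤ) = |4 * c.1 ^ 3 + 27 * c.2 ^ 2| :=
    Int.natCast_natAbs _
  rw [← h2] at h1
  omega

/-- the counting function is of order `X ^ (1/3)`, and the tail -/
theorem disc_tail : ∃ C c c1 c2 : ℝ, 0 < C ∧ 0 < c ∧ 0 < c1 ∧
    (∀ᶠ X : ℕ in atTop, c1 * (X : ℝ) ^ (1 / 3 : ℝ) ≤ (DF X).ncard ∧
      ((DF X).ncard : ℝ) ≤ c2 * (X : ℝ) ^ (1 / 3 : ℝ)) ∧
    ∀ r : ℕ, ∀ᶠ X : ℕ in atTop,
    ((DFR r X).ncard : ℝ) ≤ C * Real.exp (-(c * (r * Real.log r))) * (DF X).ncard := by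
  classical
  obtain ⟨c1, C1, T0, hc1, hlow⟩ := Pool.Agent.H457.B.low2
  obtain ⟨C, c, hC, hc, hb⟩ := region_tail
  set C0 : ℕ := 6 ^ 12 with hC0
  have hC01 : 1 ≤ C0 := by rw [hC0]; norm_num
  clear_value C0
  set D := C0 * (32 * C1) + 1 with hD
  have hD1 : 1 ≤ D := by omega
  have hDR : (0 : ℝ) < D := by exact_mod_cast hD1
  -- the scale
  have hscale : ∀ M0 : ℕ, ∀ᶠ X : ℕ in atTop, ∃ M : ℕ, M0 ≤ M ∧ C0 * X < M ^ 6 ∧
      c1 / (4 * D) ^ 2 * (M : ℝ) ^ 2 ≤ (DF X).ncard ∧ (M : ℝ) ≤ 2 * (C0 : ℝ) * (X : ℝ) ^ (1 / 6 : ℝ) ∧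
      (X : ℝ) ^ (1 / 6 : ℝ) ≤ M := by
    intro M0
    filter_upwards [eventually_ge_atTop ((M0 + D * (T0 + 1) + 1) ^ 6)] with X hX
    set T := Nat.findGreatest (fun t => t ^ 6 ≤ C0 * X) (C0 * X) with hT
    have hle : ∀ x : ℕ, x ^ 6 ≤ C0 * X → x ≤ T := by
      intro x hx
      apply Nat.le_findGreatest
      · exact (Nat.le_self_pow (by omega) x).trans hx
      · exact hx
    have hTk : T ^ 6 ≤ C0 * X := by
      have : (fun t => t ^ 6 ≤ C0 * X) T :=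
        Nat.findGreatest_spec (P := fun t => t ^ 6 ≤ C0 * X) (Nat.zero_le _)
          (by rw [zero_pow (by omega)]; exact Nat.zero_le _)
      exact this
    have hTM : M0 + D * (T0 + 1) + 1 ≤ T := by
      apply hle
      exact hX.trans (Nat.le_mul_of_pos_left _ (by omega))
    have hlt : C0 * X < (T + 1) ^ 6 := by
      by_contra hcon
      have := hle (T + 1) (by omega)
      omega
    set T' := T / D with hT'
    have hT'0 : T0 + 1 ≤ T' := by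
      rw [hT', Nat.le_div_iff_mul_le hD1, mul_comm]
      omega
    have h2 : T' * D ≤ T := Nat.div_mul_le_self T D
    have h3 : C1 * T' ^ 6 ≤ X / 32 := by
      rw [Nat.le_div_iff_mul_le (by norm_num)]
      have a1 : (T' * D) ^ 6 ≤ C0 * X := (Nat.pow_le_pow_left h2 6).trans hTk
      rw [mul_pow] at a1
      have a2 : D ≤ D ^ 6 := Nat.le_self_pow (by omega) D
      have a3 : T' ^ 6 * (C0 * (32 * C1)) ≤ C0 * X :=
        (Nat.mul_le_mul_left _ (by omega : C0 * (32 * C1) ≤ D ^ 6)).trans a1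
      have a4 : C0 * (C1 * T' ^ 6 * 32) ≤ C0 * X := by
        calc C0 * (C1 * T' ^ 6 * 32) = T' ^ 6 * (C0 * (32 * C1)) := by ring
          _ ≤ _ := a3
      exact Nat.le_of_mul_le_mul_left a4 (by omega)
    have h4 := hlow T' (X / 32) (by omega) h3
    have h4' : c1 * (T' : ℝ) ^ 2 ≤ (DF X).ncard := by
      refine h4.trans ?_
      have := Set.ncard_le_ncard (Cv_sub X) (DF_finite X)
      rw [Set.ncard_coe_finset] at this
      exact_mod_cast this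
    have h5 : T + 1 ≤ 4 * D * T' := by
      have a1 : T < D * (T' + 1) := by
        rw [mul_comm]
        exact Nat.lt_mul_of_div_lt (by rw [← hT']; omega) hD1
      have a2 : D * (T' + 1) ≤ 2 * D * T' := by nlinarith
      have a3 : 1 ≤ D * T' := Nat.mul_pos hD1 (by omega)
      nlinarith
    have h6 : ((T + 1 : ℕ) : ℝ) ≤ 4 * D * T' := by exact_mod_cast h5
    have hXR : (0 : ℝ) ≤ X := Nat.cast_nonneg X
    have hroot : ∀ y : ℝ, 0 ≤ y → (y ^ 6) ^ (1 / 6 : ℝ) = y := by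
      intro y hy
      rw [← Real.rpow_natCast, ← Real.rpow_mul hy]
      norm_num
    refine ⟨T + 1, by omega, hlt, ?_, ?_, ?_⟩
    · calc c1 / (4 * D) ^ 2 * ((T + 1 : ℕ) : ℝ) ^ 2 ≤ c1 / (4 * D) ^ 2 * (4 * D * T') ^ 2 := by
            apply mul_le_mul_of_nonneg_left _ (by positivity)
            exact pow_le_pow_left₀ (Nat.cast_nonneg _) h6 2
        _ = c1 * (T' : ℝ) ^ 2 := by field_simp
        _ ≤ _ := h4'
    · have g1 : ((T : ℝ)) ^ 6 ≤ (C0 : ℝ) ^ 6 * X := by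
        have e1 : ((T ^ 6 : ℕ) : ℝ) ≤ ((C0 * X : ℕ) : ℝ) := by exact_mod_cast hTk
        push_cast at e1
        refine e1.trans (mul_le_mul_of_nonneg_right ?_ hXR)
        have : (1 : ℝ) ≤ C0 := by exact_mod_cast hC01
        exact le_self_pow₀ this (by norm_num)
      have g2 : (T : ℝ) ≤ C0 * (X : ℝ) ^ (1 / 6 : ℝ) := by
        have e1 := Real.rpow_le_rpow (by positivity) g1 (by norm_num : (0 : ℝ) ≤ 1 / 6)
        rw [hroot _ (Nat.cast_nonneg T), Real.mul_rpow (by positivity) hXR,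
          hroot _ (Nat.cast_nonneg C0)] at e1
        exact e1
      have g3 : (1 : ℝ) ≤ T := by
        have : 1 ≤ T := by omega
        exact_mod_cast this
      push_cast
      linarith
    · have g1 : (X : ℝ) ≤ ((T + 1 : ℕ) : ℝ) ^ 6 := by
        have : X ≤ (T + 1) ^ 6 := (Nat.le_mul_of_pos_left _ (by omega)).trans hlt.le
        exact_mod_cast this
      have e1 := Real.rpow_le_rpow hXR g1 (by norm_num : (0 : ℝ) ≤ 1 / 6)
      rw [hroot _ (Nat.cast_nonneg _)] at e1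
      exact e1
  have hsq : ∀ X : ℕ, ((X : ℝ) ^ (1 / 6 : ℝ)) ^ 2 = (X : ℝ) ^ (1 / 3 : ℝ) := by
    intro X
    rw [← Real.rpow_natCast, ← Real.rpow_mul (Nat.cast_nonneg X)]
    norm_num
  refine ⟨C * (4 * (D : ℝ)) ^ 2 / c1, c, c1 / (4 * D) ^ 2, C * (2 * C0) ^ 2, by positivity, hc,
    by positivity, ?_, fun r => ?_⟩
  · obtain ⟨M0, hM0⟩ := eventually_atTop.1 (hb 0)
    filter_upwards [hscale M0] with X hX
    obtain ⟨M, h1, h2, h3, h4, h5⟩ := hX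
    constructor
    · refine le_trans ?_ h3
      rw [← hsq]
      apply mul_le_mul_of_nonneg_left _ (by positivity)
      exact pow_le_pow_left₀ (by positivity) h5 2
    · have g1 : ((DF X).ncard : ℝ) ≤ (PR 0 M).card := by
        rw [DF_eq]
        exact_mod_cast DFR_card (r := 0) (hC0 ▸ h2)
      have g2 := hM0 M h1
      simp only [Nat.cast_zero, zero_mul, mul_zero, neg_zero, Real.exp_zero, mul_one] at g2
      calc ((DF X).ncard : ℝ) ≤ C * (M : ℝ) ^ 2 := g1.trans g2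
        _ ≤ C * (2 * C0 * (X : ℝ) ^ (1 / 6 : ℝ)) ^ 2 := by
          apply mul_le_mul_of_nonneg_left _ hC.le
          exact pow_le_pow_left₀ (Nat.cast_nonneg _) h4 2
        _ = C * (2 * C0) ^ 2 * ((X : ℝ) ^ (1 / 6 : ℝ)) ^ 2 := by ring
        _ = _ := by rw [hsq]
  · obtain ⟨M0, hM0⟩ := eventually_atTop.1 (hb r)
    filter_upwards [hscale M0] with X hX
    obtain ⟨M, h1, h2, h3, -, -⟩ := hX
    have g1 : ((DFR r X).ncard : ℝ) ≤ (PR r M).card := by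
      exact_mod_cast DFR_card (r := r) (hC0 ▸ h2)
    have g2 := hM0 M h1
    set E := Real.exp (-(c * (r * Real.log r))) with hE
    have hE0 : 0 < E := Real.exp_pos _
    calc ((DFR r X).ncard : ℝ) ≤ C * E * (M : ℝ) ^ 2 := g1.trans g2
      _ = C * (4 * (D : ℝ)) ^ 2 / c1 * E * (c1 / (4 * D) ^ 2 * (M : ℝ) ^ 2) := by
        field_simp
      _ ≤ _ := mul_le_mul_of_nonneg_left h3 (by positivity)

end Pool.Agent.H457.A
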