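import Pool.Graph.R_seed8.W655.RK.Ep
import Pool.Graph.R_seed8.W262.RK.F4c

set_option autoImplicit false

/-! Uniform versions of `EP` and `FULL` (the range of `z` is explicit). Adapted from
`Pool.Agent.W655.RK`. -/

namespace Pool.Agent.H457.A

open Finset Pool.Agent.W262.RK Pool.Agent.W655.RK

/-- FULL with an explicit range of `z` -/
def FULLu : Prop := ∀ (w : ℝ) (c z : ℕ), 0 < w → w ≤ 1 / 2 → 2 * c + 2 ≤ z → ∃ C : ℝ,
  (∀ y, z < y → ∑ d ∈ (PP z y).divisors, gw w c d * hh d ≤ C * (Real.log y) ^ w) ∧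
  (∀ y V : ℕ, z < y → 2 ≤ V →
    ∑ d ∈ (PP z y).divisors.filter (fun d => d ≤ V), gw w c d * hh d ≤ C * (Real.log V) ^ w) ∧
  (∀ y Y : ℕ, z < y → 1 ≤ Y →
    ∑ d ∈ (PP z y).divisors.filter (fun d => Y < d), gw w c d * hh d ≤
      C * Real.exp (-(Real.log Y / Real.log y)) * (Real.log y) ^ 2)

theorem fullu : FULLu := by
  intro w c z hw hw2 hz
  obtain ⟨C0, hC0, hmer⟩ := mertens
  obtain ⟨K, hK, hsq⟩ := sum_inv_sq
  have hz2 : 2 ≤ z := by omega
  set φ : ℕ → ℝ := fun p => w / ((p : ℝ) - c) * (1 + 2 / (p : ℝ)) with hφ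
  set B : ℝ := w * C0 + (6 * c + 2) * K with hB
  have hB0 : 0 ≤ B := by positivity
  have hφ0 : ∀ y, ∀ p ∈ PS z y, 0 ≤ φ p := fun y p hp => (weight_le w c z p hw hw2 hz (PS_lt hp)).1
  have hsum : ∀ y : ℕ, 2 ≤ y → ∑ p ∈ PS z y, φ p ≤ w * Real.log (Real.log y) + B := by
    intro y hy
    calc ∑ p ∈ PS z y, φ p ≤ ∑ p ∈ PS z y, (w * (1 / (p : ℝ)) + (6 * c + 2) * (1 / (p : ℝ) ^ 2)) :=
          Finset.sum_le_sum fun p hp => (weight_le w c z p hw hw2 hz (PS_lt hp)).2
      _ = w * ∑ p ∈ PS z y, 1 / (p : ℝ) + (6 * c + 2) * ∑ p ∈ PS z y, 1 / (p : ℝ) ^ 2 := by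
          rw [Finset.sum_add_distrib, Finset.mul_sum, Finset.mul_sum]
      _ ≤ w * (Real.log (Real.log y) + C0) + (6 * c + 2) * K := by
          refine add_le_add (mul_le_mul_of_nonneg_left (hmer z y hy) hw.le)
            (mul_le_mul_of_nonneg_left (hsq _) (by positivity))
      _ = _ := by rw [hB]; ring
  have hlog : ∀ y : ℕ, 2 ≤ y → 0 < Real.log y := fun y hy =>
    Real.log_pos (by exact_mod_cast (by omega : 1 < y))
  have main : ∀ y : ℕ, 2 ≤ y → ∑ d ∈ (PP z y).divisors, gw w c d * hh d ≤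
      Real.exp B * (Real.log y) ^ w := by
    intro y hy
    simp only [gw_hh]
    unfold PP
    rw [sum_mult (PS z y) (fun p hp => PS_prime hp) φ]
    refine (prod_le_exp _ _ fun p hp => by have := hφ0 y p hp; linarith).trans ?_
    rw [Real.rpow_def_of_pos (hlog y hy), ← Real.exp_add, Real.exp_le_exp]
    have := hsum y hy
    linarith
  have hnn : ∀ d : ℕ, (∀ p ∈ d.primeFactors, z < p) → 0 ≤ gw w c d * hh d := by
    intro d hd
    rw [gw_hh]
    exact Finset.prod_nonneg fun p hp => (weight_le w c z p hw hw2 hz (hd p hp)).1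
  have hpf : ∀ y d, d ∈ (PP z y).divisors → d.primeFactors ⊆ PS z y := by
    intro y d hd
    have h1 : (PP z y).primeFactors = PS z y := Nat.primeFactors_prod fun p hp => PS_prime hp
    rw [← h1]
    exact Nat.primeFactors_mono (Nat.dvd_of_mem_divisors hd) (Nat.mem_divisors.1 hd).2
  refine ⟨Real.exp (3 * (B + 1)), ?_, ?_, ?_⟩
  · intro y hy
    refine (main y (by omega)).trans ?_
    refine mul_le_mul_of_nonneg_right ?_ (Real.rpow_nonneg (hlog y (by omega)).le _)
    rw [Real.exp_le_exp]
    linarith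
  · intro y V hy hV
    have hsub : (PP z y).divisors.filter (fun d => d ≤ V) ⊆ (PP z (min y V)).divisors := by
      intro d hd
      rw [mem_filter] at hd
      have h1 := hpf y d hd.1
      have hd0 : d ≠ 0 := (Nat.pos_of_mem_divisors hd.1).ne'
      have h2 : Squarefree d := (prod_primes_squarefree (PS z y) fun p hp => PS_prime hp).squarefree_of_dvd
        (Nat.dvd_of_mem_divisors hd.1)
      rw [Nat.mem_divisors]
      refine ⟨?_, (prod_primes_squarefree (PS z (min y V)) fun p hp => PS_prime hp).ne_zero⟩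
      rw [← Nat.prod_primeFactors_of_squarefree h2]
      refine Finset.prod_dvd_prod_of_subset _ _ _ fun p hp => ?_
      have h3 := h1 hp
      have h4 : p ≤ d := Nat.le_of_mem_primeFactors hp
      exact mem_filter.2 ⟨mem_Ioc.2 ⟨PS_lt h3, le_min (PS_le h3) (h4.trans hd.2)⟩, PS_prime h3⟩
    have h1 : ∑ d ∈ (PP z y).divisors.filter (fun d => d ≤ V), gw w c d * hh d ≤
        ∑ d ∈ (PP z (min y V)).divisors, gw w c d * hh d := by
      refine Finset.sum_le_sum_of_subset_of_nonneg hsub fun d hd _ => hnn d fun p hp => ?_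
      exact PS_lt (hpf _ d hd hp)
    have hmin2 : 2 ≤ min y V := le_min (by omega) hV
    refine h1.trans ((main _ hmin2).trans ?_)
    have h2 : (Real.log (min y V : ℕ)) ^ w ≤ (Real.log V) ^ w := by
      refine Real.rpow_le_rpow (hlog _ hmin2).le ?_ hw.le
      exact Real.log_le_log (by exact_mod_cast (by omega : 0 < min y V))
        (by exact_mod_cast min_le_right y V)
    refine mul_le_mul ?_ h2 (Real.rpow_nonneg (hlog _ hmin2).le _) (Real.exp_pos _).le
    rw [Real.exp_le_exp]
    linarith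
  · intro y Y hy hY
    have hy3 : 3 ≤ y := by omega
    have hly := hlog y (by omega)
    have hly1 : 1 ≤ Real.log y := by
      rw [Real.le_log_iff_exp_le (by positivity)]
      have := Real.exp_one_lt_d9
      have h3 : (3:ℝ) ≤ y := by exact_mod_cast hy3
      linarith
    have hY0 : (0:ℝ) < Y := by exact_mod_cast hY
    set ψ : ℕ → ℝ := fun p => φ p * Real.exp (Real.log p / Real.log y) with hψ
    have hterm : ∀ d ∈ (PP z y).divisors.filter (fun d => Y < d), gw w c d * hh d ≤
        Real.exp (-(Real.log Y / Real.log y)) * ∏ p ∈ d.primeFactors, ψ p := by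
      intro d hd
      rw [mem_filter] at hd
      have h1 := hpf y d hd.1
      have hd0 : 0 < d := Nat.pos_of_mem_divisors hd.1
      have h2 : Squarefree d := (prod_primes_squarefree (PS z y) fun p hp => PS_prime hp).squarefree_of_dvd
        (Nat.dvd_of_mem_divisors hd.1)
      have h3 : ∏ p ∈ d.primeFactors, Real.exp (Real.log p / Real.log y) =
          Real.exp (Real.log d / Real.log y) := by
        rw [← Real.exp_sum, ← Finset.sum_div, ← Real.log_prod]
        · congr 3
          conv_rhs => rw [← Nat.prod_primeFactors_of_squarefree h2]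
          push_cast
          rfl
        · intro p hp
          exact_mod_cast (Nat.prime_of_mem_primeFactors hp).ne_zero
      rw [hψ, Finset.prod_mul_distrib, h3, gw_hh]
      have h4 : 0 ≤ ∏ p ∈ d.primeFactors, φ p :=
        Finset.prod_nonneg fun p hp => hφ0 y p (h1 hp)
      have h5 : 1 ≤ Real.exp (-(Real.log Y / Real.log y)) * Real.exp (Real.log d / Real.log y) := by
        rw [← Real.exp_add]
        apply Real.one_le_exp
        rw [neg_add_eq_sub, ← sub_div]
        refine div_nonneg (sub_nonneg.2 (Real.log_le_log hY0 ?_)) hly.le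
        exact_mod_cast hd.2.le
      calc ∏ p ∈ d.primeFactors, φ p = (∏ p ∈ d.primeFactors, φ p) * 1 := (mul_one _).symm
        _ ≤ (∏ p ∈ d.primeFactors, φ p) * (Real.exp (-(Real.log Y / Real.log y)) *
            Real.exp (Real.log d / Real.log y)) := mul_le_mul_of_nonneg_left h5 h4
        _ = _ := by ring
    have hψ0 : ∀ p ∈ PS z y, 0 ≤ ψ p := fun p hp => mul_nonneg (hφ0 y p hp) (Real.exp_pos _).le
    have hψe : ∀ p ∈ PS z y, ψ p ≤ φ p * Real.exp 1 := by
      intro p hp
      refine mul_le_mul_of_nonneg_left ?_ (hφ0 y p hp)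
      rw [Real.exp_le_exp, div_le_one hly]
      exact Real.log_le_log (by exact_mod_cast (PS_prime hp).pos) (by exact_mod_cast PS_le hp)
    calc ∑ d ∈ (PP z y).divisors.filter (fun d => Y < d), gw w c d * hh d
        ≤ ∑ d ∈ (PP z y).divisors.filter (fun d => Y < d),
            Real.exp (-(Real.log Y / Real.log y)) * ∏ p ∈ d.primeFactors, ψ p :=
          Finset.sum_le_sum hterm
      _ ≤ ∑ d ∈ (PP z y).divisors,
            Real.exp (-(Real.log Y / Real.log y)) * ∏ p ∈ d.primeFactors, ψ p := by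
          refine Finset.sum_le_sum_of_subset_of_nonneg (filter_subset _ _) fun d hd _ => ?_
          exact mul_nonneg (Real.exp_pos _).le (Finset.prod_nonneg fun p hp => hψ0 p (hpf y d hd hp))
      _ = Real.exp (-(Real.log Y / Real.log y)) * ∏ p ∈ PS z y, (1 + ψ p) := by
          rw [← Finset.mul_sum]
          congr 1
          exact sum_mult (PS z y) (fun p hp => PS_prime hp) ψ
      _ ≤ Real.exp (-(Real.log Y / Real.log y)) *
            (Real.exp (3 * (B + 1)) * (Real.log y) ^ 2) := by
          refine mul_le_mul_of_nonneg_left ?_ (Real.exp_pos _).le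
          refine (prod_le_exp _ _ fun p hp => by have := hψ0 p hp; linarith).trans ?_
          have h6 : (Real.log y) ^ 2 = Real.exp (2 * Real.log (Real.log y)) := by
            rw [mul_comm, Real.exp_mul, Real.exp_log hly]
            norm_num
          rw [h6, ← Real.exp_add, Real.exp_le_exp]
          have h7 : ∑ p ∈ PS z y, ψ p ≤ (w * Real.log (Real.log y) + B) * Real.exp 1 := by
            calc ∑ p ∈ PS z y, ψ p ≤ ∑ p ∈ PS z y, φ p * Real.exp 1 := Finset.sum_le_sum hψe
              _ = (∑ p ∈ PS z y, φ p) * Real.exp 1 := by rw [Finset.sum_mul]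
              _ ≤ _ := mul_le_mul_of_nonneg_right (hsum y (by omega)) (Real.exp_pos _).le
          have h8 : 0 ≤ Real.log (Real.log y) := Real.log_nonneg hly1
          have h9 := Real.exp_one_lt_d9
          have h10 : w * Real.exp 1 ≤ 2 := by nlinarith [Real.exp_pos 1]
          have h11 : w * Real.log (Real.log y) * Real.exp 1 ≤ 2 * Real.log (Real.log y) := by
            calc w * Real.log (Real.log y) * Real.exp 1 = (w * Real.exp 1) * Real.log (Real.log y) := by ring
              _ ≤ _ := mul_le_mul_of_nonneg_right h10 h8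
          have h12 : B * Real.exp 1 ≤ 3 * B := by nlinarith
          linarith
      _ = _ := by ring


/-- EP with an explicit range of `z` -/
def EPu : Prop := ∀ (w : ℝ) (c z : ℕ) (κ : ℤ), 0 < w → w ≤ 1 / 2 → κ ≠ 0 → 2 * c + 2 ≤ z →
  κ.natAbs ≤ z → ∃ C : ℝ, ∀ (y R r : ℕ) (e : Bool), z < y → R ≠ 0 → 1 < r → Squarefree r →
    (∀ p : ℕ, p.Prime → p ∣ r → z < p) →
    |∑ d ∈ (PP z y).divisors.filter (fun d => d.Coprime R),
        gw w c d * (Jr d r * Jr κ d * x4 e d)| ≤ C * (Real.log r) ^ w * hh R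

theorem epu_of (h : UB) : EPu := by
  intro w c z κ hw hw2 hκ hzc hzκ
  obtain ⟨K, hK, hsq⟩ := sum_inv_sq
  have hz2 : 2 ≤ z := by omega
  obtain ⟨C, hC⟩ := h κ z hκ hz2 hzκ
  refine ⟨Real.exp (w * C + c * K), fun y R r e hy hR hr hrs hrp => ?_⟩
  classical
  have hr3 : 3 ≤ r := by
    obtain ⟨p, hp, hpr⟩ := Nat.exists_prime_and_dvd (by omega : r ≠ 1)
    have h1 := hrp p hp hpr
    have h2 := Nat.le_of_dvd (by omega) hpr
    omega
  have hlr : 0 < Real.log r := Real.log_pos (by exact_mod_cast (by omega : 1 < r))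
  set S' := (PS z y).filter (fun p => ¬ p ∣ R) with hS'
  have hS'p : ∀ p ∈ S', p.Prime := fun p hp => PS_prime (mem_filter.1 hp).1
  have hset : (PP z y).divisors.filter (fun d => d.Coprime R) = (∏ p ∈ S', p).divisors := by
    have hsq1 := prod_primes_squarefree (PS z y) fun p hp => PS_prime hp
    have hsq2 := prod_primes_squarefree S' hS'p
    ext d
    rw [mem_filter, Nat.mem_divisors, Nat.mem_divisors]
    constructor
    · rintro ⟨⟨hd, -⟩, hc⟩
      refine ⟨?_, hsq2.ne_zero⟩
      have hsd : Squarefree d := hsq1.squarefree_of_dvd hd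
      rw [← Nat.prod_primeFactors_of_squarefree hsd]
      refine Finset.prod_dvd_prod_of_subset _ _ _ fun p hp => ?_
      have hpp := Nat.prime_of_mem_primeFactors hp
      have hpd := Nat.dvd_of_mem_primeFactors hp
      have h1 : p ∈ PS z y := by
        rw [← Nat.primeFactors_prod (s := PS z y) fun p hp => PS_prime hp]
        exact Nat.primeFactors_mono hd hsq1.ne_zero hp
      refine mem_filter.2 ⟨h1, fun hpR => ?_⟩
      have := Nat.dvd_gcd hpd hpR
      rw [hc.gcd_eq_one] at this
      exact hpp.one_lt.ne' (Nat.dvd_one.1 this)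
    · rintro ⟨hd, -⟩
      refine ⟨⟨hd.trans (Finset.prod_dvd_prod_of_subset _ _ _ (filter_subset _ _)),
        hsq1.ne_zero⟩, ?_⟩
      refine Nat.Coprime.coprime_dvd_left hd ?_
      exact Nat.Coprime.prod_left fun p hp =>
        ((hS'p p hp).coprime_iff_not_dvd).2 (mem_filter.1 hp).2
  set φ : ℕ → ℝ := fun p => w / ((p : ℝ) - c) * chr κ r e p with hφ
  have hsum : ∑ d ∈ (PP z y).divisors.filter (fun d => d.Coprime R),
      gw w c d * (Jr d r * Jr κ d * x4 e d) = ∏ p ∈ S', (1 + φ p) := by
    rw [hset, ← sum_mult S' hS'p φ]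
    refine Finset.sum_congr rfl fun d hd => ?_
    have hsd : Squarefree d :=
      (prod_primes_squarefree S' hS'p).squarefree_of_dvd (Nat.dvd_of_mem_divisors hd)
    show gw w c d * chr κ r e d = _
    have h1 : chr κ r e d = ∏ p ∈ d.primeFactors, chr κ r e p := by
      rw [← chr_prod κ r e _ fun p hp => Nat.prime_of_mem_primeFactors hp,
        Nat.prod_primeFactors_of_squarefree hsd]
    rw [h1, gw, ← Finset.prod_mul_distrib]
  rw [hsum]
  have hp3 : ∀ p ∈ PS z y, (2 * c + 3 : ℝ) ≤ p := fun p hp => by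
    have := PS_lt hp
    exact_mod_cast (by omega : 2 * c + 3 ≤ p)
  have hc0 : (0:ℝ) ≤ c := Nat.cast_nonneg c
  have hfac : ∀ p ∈ S', 0 ≤ 1 + φ p := by
    intro p hp
    have h1 := hp3 p (mem_filter.1 hp).1
    have h2 : 0 < (p : ℝ) - c := by linarith
    have h3 : w / ((p : ℝ) - c) ≤ 1 := by
      rw [div_le_one h2]
      linarith
    have h4 := (abs_le.1 (chr_abs κ r e p)).1
    have h5 : 0 ≤ w / ((p : ℝ) - c) := by positivity
    simp only [hφ]
    nlinarith
  rw [abs_of_nonneg (Finset.prod_nonneg hfac)]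
  refine (prod_le_exp S' φ hfac).trans ?_
  -- the exponent
  have hterm : ∀ p ∈ S', φ p ≤ w * (chr κ r e p / p) + c * (1 / (p : ℝ) ^ 2) := by
    intro p hp
    have h1 := hp3 p (mem_filter.1 hp).1
    have h2 : 0 < (p : ℝ) - c := by linarith
    have hp0 : (0:ℝ) < p := by linarith
    have h4 := (abs_le.1 (chr_abs κ r e p)).2
    simp only [hφ]
    have h5 : w / ((p : ℝ) - c) * chr κ r e p =
        w * (chr κ r e p / p) + (w * c / (p * (p - c))) * chr κ r e p := by
      field_simp
      ring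
    rw [h5]
    have h6 : 0 ≤ w * c / (p * (p - c)) := by positivity
    have h7 : w * c / (p * (p - c)) ≤ c * (1 / (p : ℝ) ^ 2) := by
      rw [mul_one_div, div_le_div_iff₀ (by positivity) (by positivity)]
      have h8 : w * p ≤ p - c := by nlinarith
      have h9 : 0 ≤ (c : ℝ) * p := by positivity
      nlinarith
    nlinarith
  have hexp : ∑ p ∈ S', φ p ≤ w * (Real.log (Real.log r) + C) + c * K +
      ∑ p ∈ (PS z y).filter (fun p => p ∣ R), w / p := by
    have hub := hC y r e hy hr hrs hrp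
    have hub' : ∑ p ∈ PS z y, chr κ r e p / (p : ℝ) ≤ Real.log (Real.log r) + C := hub
    have hsplit := Finset.sum_filter_add_sum_filter_not (PS z y) (fun p => p ∣ R)
      (fun p => chr κ r e p / (p : ℝ))
    have h1 : ∑ p ∈ S', chr κ r e p / (p : ℝ) ≤ (Real.log (Real.log r) + C) +
        ∑ p ∈ (PS z y).filter (fun p => p ∣ R), 1 / (p : ℝ) := by
      have h2 : -∑ p ∈ (PS z y).filter (fun p => p ∣ R), 1 / (p : ℝ) ≤
          ∑ p ∈ (PS z y).filter (fun p => p ∣ R), chr κ r e p / (p : ℝ) := by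
        rw [← Finset.sum_neg_distrib]
        refine Finset.sum_le_sum fun p _ => ?_
        rw [← neg_div]
        exact div_le_div_of_nonneg_right (abs_le.1 (chr_abs κ r e p)).1 (Nat.cast_nonneg p)
      linarith
    calc ∑ p ∈ S', φ p ≤ ∑ p ∈ S', (w * (chr κ r e p / p) + c * (1 / (p : ℝ) ^ 2)) :=
          Finset.sum_le_sum hterm
      _ = w * ∑ p ∈ S', chr κ r e p / p + c * ∑ p ∈ S', 1 / (p : ℝ) ^ 2 := by
          rw [Finset.sum_add_distrib, Finset.mul_sum, Finset.mul_sum]
      _ ≤ w * ((Real.log (Real.log r) + C) +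
            ∑ p ∈ (PS z y).filter (fun p => p ∣ R), 1 / (p : ℝ)) + c * K :=
          add_le_add (mul_le_mul_of_nonneg_left h1 hw.le) (mul_le_mul_of_nonneg_left (hsq _) hc0)
      _ = _ := by
          rw [mul_add, Finset.mul_sum]
          simp only [mul_one_div]
          ring
  have hhh : Real.exp (∑ p ∈ (PS z y).filter (fun p => p ∣ R), w / p) ≤ hh R := by
    rw [Real.exp_sum]
    unfold hh
    have hsub : (PS z y).filter (fun p => p ∣ R) ⊆ R.primeFactors := by
      intro p hp
      rw [mem_filter] at hp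
      exact Nat.mem_primeFactors.2 ⟨PS_prime hp.1, hp.2, hR⟩
    calc ∏ p ∈ (PS z y).filter (fun p => p ∣ R), Real.exp (w / p)
        ≤ ∏ p ∈ (PS z y).filter (fun p => p ∣ R), (1 + 2 / (p : ℝ)) := by
          refine Finset.prod_le_prod (fun p _ => (Real.exp_pos _).le) fun p hp => ?_
          have h1 := hp3 p (mem_filter.1 hp).1
          have hp0 : (0:ℝ) < p := by linarith
          have h2 : w / (p : ℝ) ≤ 1 / 2 := by
            rw [div_le_iff₀ hp0]
            linarith
          refine (exp_small _ (by positivity) h2).trans ?_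
          have h3 : w / (p : ℝ) ≤ 1 / p := div_le_div_of_nonneg_right (by linarith) hp0.le
          have h4 : 2 / (p : ℝ) = 2 * (1 / p) := by ring
          rw [h4]
          linarith
      _ ≤ ∏ p ∈ R.primeFactors, (1 + 2 / (p : ℝ)) := by
          refine Finset.prod_le_prod_of_subset_of_one_le hsub (fun p _ => by positivity)
            fun p _ _ => ?_
          have : (0:ℝ) ≤ 2 / (p : ℝ) := by positivity
          linarith
  calc Real.exp (∑ p ∈ S', φ p) ≤ Real.exp (w * (Real.log (Real.log r) + C) + c * K +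
        ∑ p ∈ (PS z y).filter (fun p => p ∣ R), w / p) := Real.exp_le_exp.2 hexp
    _ = Real.exp (w * C + c * K) * (Real.log r) ^ w *
        Real.exp (∑ p ∈ (PS z y).filter (fun p => p ∣ R), w / p) := by
        rw [Real.rpow_def_of_pos hlr, ← Real.exp_add, ← Real.exp_add]
        congr 1
        ring
    _ ≤ _ := mul_le_mul_of_nonneg_left hhh (by positivity)



end Pool.Agent.H457.A
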