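import Pool.Agent.H457.A.Expk

set_option autoImplicit false
set_option linter.unusedSectionVars false

/-! Moments of the local count: expansion of the `k`-th power into symbols, second part. -/

namespace Pool.Agent.H457.A

open Finset Pool.Agent.W262.RK Pool.Agent.W108.RK Pool.Agent.W762.RK2

section final

variable {J : Type} [Fintype J] [DecidableEq J] {z y : ℕ} {k : ℕ}

/-- the local term -/
noncomputable def TmK (Lc : J → Bool → ℕ → Bool → Bool → Bool → Bool → Prop) (c : ℕ)
    (ξ : Pr z y → Option (J × Vk k)) (p : Pr z y) : ℝ :=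
  (ξ p).elim 1 fun a => 1 / ((p : ℝ) - c) *
    ((∏ r, ind (Lc a.1 true p (zb (a.2 r).1) (zb (a.2 r).2) (sgn p (E1 ξ r)) (sgn p (E2 ξ r))) +
      ∏ r, ind (Lc a.1 false p (zb (a.2 r).1) (zb (a.2 r).2) (sgn p (E1 ξ r))
        (sgn p (E2 ξ r)))) / 2)

lemma lhsK_eq (fl : J → Bool) (Lc : J → Bool → ℕ → Bool → Bool → Bool → Bool → Prop)
    (hfl : ∀ j, fl j = false → ∀ p v w h g, Lc j true p v w h g = Lc j false p v w h g) (c : ℕ)
    (Φ : (J → ℕ) → ℝ) :
    ∑ s ∈ Tup J z y, Φ s * (NBg fl Lc k s * ∏ j, gw 1 c (s j)) =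
      ∑ ξ : Pr z y → Option (J × Vk k), Φ (SK ξ) * ∏ p, TmK Lc c ξ p := by
  have h1 : ∀ s ∈ Tup J z y, Φ s * (NBg fl Lc k s * ∏ j, gw 1 c (s j)) =
      ∑ d ∈ Fintype.piFinset (fun _ : Fin k => (∏ j, s j).divisors ×ˢ (∏ j, s j).divisors),
        Φ s * ((∏ p ∈ (∏ j, s j).primeFactors, (Ik Lc s d true p + Ik Lc s d false p) / 2) *
          ∏ j, gw 1 c (s j)) := by
    intro s hs
    rw [NBg_eq fl Lc hfl hs, Finset.sum_mul, Finset.mul_sum]
  rw [Finset.sum_congr rfl h1, sum_bigk fun s d =>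
    Φ s * ((∏ p ∈ (∏ j, s j).primeFactors, (Ik Lc s d true p + Ik Lc s d false p) / 2) *
          ∏ j, gw 1 c (s j))]
  refine Finset.sum_congr rfl fun ξ _ => ?_
  congr 1
  have h2 : ∏ j, gw 1 c (SK ξ j) = ∏ p : Pr z y, ((ξ p).map Prod.fst).elim 1
      fun _ => 1 / ((p : ℝ) - c) := prod_gw (fun _ => 1) c _
  have h3 : ∏ j, SK ξ j = nb fun p => ((ξ p).map Prod.fst).isSome := prod_Dl _
  rw [h2, h3, prod_pf _ fun p => (Ik Lc (SK ξ) (fun r => (E1 ξ r, E2 ξ r)) true p +
    Ik Lc (SK ξ) (fun r => (E1 ξ r, E2 ξ r)) false p) / 2, ← Finset.prod_mul_distrib]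
  refine Finset.prod_congr rfl fun p _ => ?_
  unfold TmK
  cases hx : ξ p with
  | none => simp
  | some a =>
    have h4 : ∀ neg, Ik Lc (SK ξ) (fun r => (E1 ξ r, E2 ξ r)) neg p =
        ∏ r, ind (Lc a.1 neg p (zb (a.2 r).1) (zb (a.2 r).2) (sgn p (E1 ξ r))
          (sgn p (E2 ξ r))) := by
      intro neg
      unfold Ik
      refine Finset.prod_congr rfl fun r _ => ?_
      have e1 : dv p (E1 ξ r : ℤ) = zb (a.2 r).1 := by
        have : c1 r (ξ p) = zb (a.2 r).1 := by rw [hx]; rfl
        rw [← this]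
        unfold dv
        rw [Bool.eq_iff_iff, decide_eq_true_iff, Int.natCast_dvd_natCast]
        exact dvd_nb _ p
      have e2 : dv p (E2 ξ r : ℤ) = zb (a.2 r).2 := by
        have : c2 r (ξ p) = zb (a.2 r).2 := by rw [hx]; rfl
        rw [← this]
        unfold dv
        rw [Bool.eq_iff_iff, decide_eq_true_iff, Int.natCast_dvd_natCast]
        exact dvd_nb _ p
      have e3 : ∀ j, (p : ℕ) ∣ SK ξ j ↔ j = a.1 := by
        intro j
        unfold SK Dl
        rw [dvd_nb, decide_eq_true_iff]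
        show (ξ p).map Prod.fst = some j ↔ j = a.1
        rw [hx]
        simp [eq_comm]
      congr 1
      simp only [e1, e2, e3, forall_eq]
    simp only [h4]
    simp only [Option.map_some, Option.isSome_some, if_true, Option.elim]
    ring

variable {P : J → Vk k → Vk k → Bool}

lemma sum_IK (F : J × Vk k × Vk k → ℝ) :
    ∑ i : IK P, F i.1 = ∑ r : J × Vk k × Vk k, if P r.1 r.2.1 r.2.2 = true then F r else 0 := by
  rw [← Finset.sum_filter]
  exact (Finset.sum_subtype (univ.filter fun r : J × Vk k × Vk k =>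
    P r.1 r.2.1 r.2.2 = true) (fun x => by simp) F).symm

/-- forget the character -/
def fgK (x : Option (IK P)) : Option (J × Vk k) := x.map fun i => (i.1.1, i.1.2.1)

/-- the local factor -/
noncomputable def GK (W : J → ℝ) (kc : J → Vk k → Vk k → ℤ) (c : ℕ)
    (ξ : Pr z y → Option (J × Vk k)) (p : Pr z y) (x : Option (IK P)) : ℝ :=
  x.elim 1 fun i => 1 / ((p : ℝ) - c) * (W i.1.1 * Jr (kc i.1.1 i.1.2.1 i.1.2.2) p *
    ∏ r, ((if (i.1.2.2 r).1 = 1 then sg (sgn p (E1 ξ r)) else 1) *
      (if (i.1.2.2 r).2 = 1 then sg (sgn p (E2 ξ r)) else 1)))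

lemma sum_GK (W : J → ℝ) (kc : J → Vk k → Vk k → ℤ) (c : ℕ)
    (Lc : J → Bool → ℕ → Bool → Bool → Bool → Bool → Prop)
    (ξ : Pr z y → Option (J × Vk k)) (p : Pr z y) (hloc : LocId P W kc Lc p) :
    ∑ x ∈ univ.filter (fun x : Option (IK P) => fgK x = ξ p), GK W kc c ξ p x =
      TmK Lc c ξ p := by
  rw [Finset.sum_filter, Fintype.sum_option]
  unfold TmK
  cases hx : ξ p with
  | none => simp [fgK, GK]
  | some a =>
    obtain ⟨j, v⟩ := a
    have h0 : (if fgK (none : Option (IK P)) = some (j, v) then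
        GK W kc c ξ p (none : Option (IK P)) else 0) = 0 := by
      rw [if_neg]
      simp [fgK]
    rw [h0, zero_add]
    set F : J × Vk k × Vk k → ℝ := fun r : J × Vk k × Vk k =>
          if r.1 = j ∧ r.2.1 = v then 1 / ((p : ℝ) - c) * (W r.1 *
            Jr (kc r.1 r.2.1 r.2.2) p *
            ∏ t, ((if (r.2.2 t).1 = 1 then sg (sgn p (E1 ξ t)) else 1) *
            (if (r.2.2 t).2 = 1 then sg (sgn p (E2 ξ t)) else 1))) else 0 with hF
    have h1 : ∀ i : IK P, (if fgK (some i) = some (j, v) then GK W kc c ξ p (some i) else 0) =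
        F i.1 := by
      intro i
      refine if_congr ?_ rfl rfl
      simp only [fgK, Option.map_some, Option.some.injEq, Prod.mk.injEq]
    refine (Finset.sum_congr rfl fun i _ => h1 i).trans ((sum_IK F).trans ?_)
    rw [Fintype.sum_prod_type, Finset.sum_eq_single j]
    · rw [Fintype.sum_prod_type, Finset.sum_eq_single v]
      · show _ = 1 / ((p : ℝ) - c) * _
        rw [hloc j v, Finset.mul_sum]
        refine Finset.sum_congr rfl fun x _ => ?_
        simp only [hF, and_self, if_true, mul_ite, mul_zero]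
      · intro v' _ hv'
        refine Finset.sum_eq_zero fun x _ => ?_
        simp [hF, hv']
      · intro h
        exact absurd (Finset.mem_univ _) h
    · intro j' _ hj'
      refine Finset.sum_eq_zero fun x _ => ?_
      simp [hF, hj']
    · intro h
      exact absurd (Finset.mem_univ _) h

/-- power with an exponent modulo two -/
def pw (x : ℝ) (a : ZMod 2) : ℝ := if a = 1 then x else 1

lemma pw_zero (x : ℝ) : pw x 0 = 1 := by unfold pw; rw [if_neg (by decide)]

lemma pw_add {x : ℝ} (hx : x * x = 1) (a b : ZMod 2) : pw x (a + b) = pw x a * pw x b := by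
  have h : ∀ a b : ZMod 2, (a = 0 ∨ a = 1) ∧ (b = 0 ∨ b = 1) := by decide
  obtain ⟨h1, h2⟩ := h a b
  rcases h1 with rfl | rfl <;> rcases h2 with rfl | rfl
  · simp [pw_zero]
  · simp [pw_zero]
  · simp [pw_zero]
  · have e : (1 : ZMod 2) + 1 = 0 := by decide
    rw [e, pw_zero]
    unfold pw
    rw [if_pos rfl, hx]

lemma pw_sum {x : ℝ} (hx : x * x = 1) {α : Type} (s : Finset α) (f : α → ZMod 2) :
    pw x (∑ a ∈ s, f a) = ∏ a ∈ s, pw x (f a) := by
  classical
  induction s using Finset.induction_on with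
  | empty => simp [pw_zero]
  | insert a s ha ih => rw [Finset.sum_insert ha, Finset.prod_insert ha, pw_add hx, ih]

lemma pw_mul (x : ℝ) (a b : ZMod 2) :
    pw x (a * b) = if a = 1 then (if zb b = true then x else 1) else 1 := by
  have h : ∀ a b : ZMod 2, (a = 0 ∨ a = 1) ∧ (b = 0 ∨ b = 1) := by decide
  obtain ⟨h1, h2⟩ := h a b
  unfold pw zb
  rcases h1 with rfl | rfl <;> rcases h2 with rfl | rfl <;> simp

/-- the vector of a label -/
def vv (x : Option (J × Vk k)) : Vk k := x.elim 0 fun a => a.2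

lemma c1_eq (r : Fin k) (x : Option (J × Vk k)) : c1 r x = zb (vv x r).1 := by
  cases x with
  | none => simp [c1, vv, zb]
  | some a => rfl

lemma c2_eq (r : Fin k) (x : Option (J × Vk k)) : c2 r x = zb (vv x r).2 := by
  cases x with
  | none => simp [c2, vv, zb]
  | some a => rfl

lemma bitsK (q p : Pr z y) (x v : Vk k) (h : q = p → dt x v = 0) :
    (if decide (dt x v = 1) = true then Jr (q : ℕ) p else 1) =
      ∏ r, ((if (x r).1 = 1 then (if q ≠ p ∧ zb (v r).1 = true then Jr (q : ℕ) p else 1) else 1) *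
      (if (x r).2 = 1 then (if q ≠ p ∧ zb (v r).2 = true then Jr (q : ℕ) p else 1) else 1)) := by
  by_cases hqp : q = p
  · rw [h hqp]
    simp [hqp]
  · have hJ : Jr (q : ℕ) p * Jr (q : ℕ) p = 1 := by
      have hnd : ¬ ((p : ℕ) : ℤ) ∣ ((q : ℕ) : ℤ) := by
        rw [Int.natCast_dvd_natCast]
        intro hd
        exact hqp (Subtype.ext ((Nat.prime_dvd_prime_iff_eq (Pr_prime p) (Pr_prime q)).1 hd).symm)
      rw [← sg_sg0 (Pr_prime p) hnd]
      unfold sg
      split_ifs <;> norm_num
    have h1 : (if decide (dt x v = 1) = true then Jr (q : ℕ) p else 1) =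
        pw (Jr (q : ℕ) p) (dt x v) := by
      unfold pw
      simp only [decide_eq_true_eq]
    rw [h1]
    unfold dt
    rw [pw_sum hJ]
    refine Finset.prod_congr rfl fun r _ => ?_
    rw [pw_add hJ, pw_mul, pw_mul]
    simp only [ne_eq, hqp, not_false_eq_true, true_and]

lemma rhsK_term (W : J → ℝ) (kc : J → Vk k → Vk k → ℤ) (c : ℕ)
    (horth : ∀ j v x, P j v x = true → dt x v = 0)
    (ξ : Pr z y → Option (J × Vk k)) (l : Pr z y → Option (IK P))
    (h : ∀ p, fgK (l p) = ξ p) :
    (∏ i, gw (wK P W i) c (Dl l i)) * Pool.Agent.W262.RK.Sym (LK P) (κK P kc) (Dl l) =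
      ∏ p, GK W kc c ξ p (l p) := by
  rw [prod_gw, Sym_Dl, ← Finset.prod_mul_distrib, ← Finset.prod_mul_distrib]
  refine Finset.prod_congr rfl fun p _ => ?_
  cases hl : l p with
  | none =>
    have h0 : ∀ q, lk (LK P) (l q) none = false := by
      intro q
      cases l q <;> rfl
    simp [h0, GK]
  | some i =>
    have hAl := horth _ _ _ i.2
    have h1 : ∀ q, lk (LK P) (l q) (some i) = decide (dt i.1.2.2 (vv (ξ q)) = 1) := by
      intro q
      rw [← h q]
      cases hq : l q with
      | none =>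
        simp [lk, fgK, vv, dt]
      | some i' => rfl
    have h2 : ∏ q : Pr z y, (if lk (LK P) (l q) (some i) = true then Jr (q : ℕ) p else 1) =
        ∏ r, ((if (i.1.2.2 r).1 = 1 then sg (sgn p (E1 ξ r)) else 1) *
          (if (i.1.2.2 r).2 = 1 then sg (sgn p (E2 ξ r)) else 1)) := by
      have h3 : ∀ a : ZMod 2, ∀ b : Pr z y → Bool, (if a = 1 then sg (sgn p (nb b : ℤ)) else 1) =
          ∏ q : Pr z y, if a = 1 then (if q ≠ p ∧ b q = true then Jr (q : ℕ) p else 1)
            else 1 := by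
        intro a b
        by_cases ha : a = 1
        · simp only [if_pos ha]
          exact sgn_nb b p
        · simp only [if_neg ha, Finset.prod_const_one]
      unfold E1 E2
      simp only [h3, ← Finset.prod_mul_distrib]
      rw [Finset.prod_comm]
      refine Finset.prod_congr rfl fun q _ => ?_
      rw [h1]
      have h4 := bitsK q p i.1.2.2 (vv (ξ q)) (fun hqp => by
        rw [hqp, ← h p, hl]
        exact hAl)
      rw [h4]
      refine Finset.prod_congr rfl fun r _ => ?_
      rw [c1_eq, c2_eq]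
    rw [h2]
    simp only [GK, Option.elim, wK, κK]
    ring

/-- the tuple of a tuple of indices -/
def SD (P : J → Vk k → Vk k → Bool) (d : IK P → ℕ) (j : J) : ℕ :=
  ∏ i ∈ univ.filter (fun i : IK P => i.1.1 = j), d i

lemma SD_Dl (l : Pr z y → Option (IK P)) (ξ : Pr z y → Option (J × Vk k))
    (h : ∀ p, fgK (l p) = ξ p) : SD P (Dl l) = SK ξ := by
  funext j
  unfold SD SK Dl nb
  rw [Finset.prod_comm]
  refine Finset.prod_congr rfl fun p _ => ?_
  beta_reduce
  rw [← h p]
  cases hl : l p with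
  | none => simp [fgK]
  | some i =>
    simp only [decide_eq_true_eq, Option.some.injEq, fgK, Option.map_some]
    by_cases hj : i.1.1 = j
    · rw [if_pos hj, Finset.prod_eq_single i]
      · rw [if_pos rfl]
      · intro b _ hb
        rw [if_neg (fun h => hb h.symm)]
      · intro h'
        exact (h' (Finset.mem_filter.2 ⟨Finset.mem_univ i, hj⟩)).elim
    · rw [if_neg hj]
      refine Finset.prod_eq_one fun b hb => ?_
      rw [if_neg]
      rintro rfl
      exact hj (Finset.mem_filter.1 hb).2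

/-- the expansion of the `k`-th moment of the local count -/
theorem expk (fl : J → Bool) (Lc : J → Bool → ℕ → Bool → Bool → Bool → Bool → Prop)
    (hfl : ∀ j, fl j = false → ∀ p v w h g, Lc j true p v w h g = Lc j false p v w h g)
    (W : J → ℝ) (kc : J → Vk k → Vk k → ℤ) (c : ℕ)
    (horth : ∀ j v x, P j v x = true → dt x v = 0)
    (hloc : ∀ p ∈ PS z y, LocId P W kc Lc p) (Φ : (J → ℕ) → ℝ) :
    ∑ s ∈ Tup J z y, Φ s * (NBg fl Lc k s * ∏ j, gw 1 c (s j)) =
      ∑ d ∈ Tup (IK P) z y, Φ (SD P d) * ((∏ i, gw (wK P W i) c (d i)) *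
        Pool.Agent.W262.RK.Sym (LK P) (κK P kc) d) := by
  classical
  rw [lhsK_eq fl Lc hfl c Φ, sum_Tup, ← Finset.sum_fiberwise univ
    (fun (l : Pr z y → Option (IK P)) => fun p => fgK (l p))]
  refine Finset.sum_congr rfl fun ξ _ => ?_
  have h1 : (univ.filter fun l : Pr z y → Option (IK P) => (fun p => fgK (l p)) = ξ) =
      Fintype.piFinset (fun p => univ.filter (fun x : Option (IK P) => fgK x = ξ p)) := by
    ext l
    simp only [Finset.mem_filter, Finset.mem_univ, true_and, Fintype.mem_piFinset, funext_iff]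
  rw [h1, Finset.prod_congr rfl fun p _ => (sum_GK W kc c Lc ξ p (hloc p p.2)).symm,
    Finset.prod_univ_sum, Finset.mul_sum]
  refine Finset.sum_congr rfl fun l hl => ?_
  rw [Fintype.mem_piFinset] at hl
  have hl' : ∀ p, fgK (l p) = ξ p := fun p => (Finset.mem_filter.1 (hl p)).2
  rw [rhsK_term W kc c horth ξ l hl', SD_Dl l ξ hl']

end final

end Pool.Agent.H457.A
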