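import Pool.Agent.H457.A.Tail2
import Pool.Agent.H457.A.Mom

set_option autoImplicit false
set_option linter.unusedSectionVars false

/-! Rank tails from local counts: preparations. -/

namespace Pool.Agent.H457.A

open Finset Pool.Agent.W262.RK Pool.Agent.W307.RT
open Pool.Agent.W45.RT (splitSum S1_mem S2_mem S1_mul_S2)

variable {J : Type} [Fintype J] [DecidableEq J]

/-- the atypical tuples -/
lemma aty_sum (J : Type) [Fintype J] [DecidableEq J] (c z : ℕ) (hz : 2 * c + 2 ≤ z) {ε : ℝ}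
    (hε : 0 < ε) (hε1 : ε < 1) :
    ∃ a C' : ℝ, a < Fintype.card J ∧ 0 ≤ C' ∧ ∀ y : ℕ, z < y → ∀ A : Finset (J → ℕ),
      A ⊆ Tup J z y → (∀ s ∈ A, ¬ Ty ε (Real.log y) (fun j => om (s j))) →
      ∑ s ∈ A, ∏ j, gw 1 c (s j) ≤ C' * (Real.log y) ^ a := by
  classical
  obtain ⟨B, hB0, hB⟩ := gb c
  set N : ℝ := ((Fintype.card J : ℕ) : ℝ) with hN
  have hlt1 := sub_mul_log_lt (θ := 1 + ε) (by linarith) (by linarith)
  have hlt2 := sub_mul_log_lt (θ := 1 - ε) (by linarith) (by linarith)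
  set a1 := N - 1 + ((1 + ε) - (1 + ε) * Real.log (1 + ε)) with ha1
  set a2 := N - 1 + ((1 - ε) - (1 - ε) * Real.log (1 - ε)) with ha2
  -- the constants
  set Q : ℝ := Real.exp (N * (2 * B)) with hQ
  have hN0 : 0 ≤ N := by rw [hN]; positivity
  refine ⟨max a1 a2, N * (Q + Q), max_lt (by rw [ha1]; linarith) (by rw [ha2]; linarith),
    by positivity, fun y hy A hA hty => ?_⟩
  have hz2 : 2 ≤ z := by omega
  have hly := AT.one_le_log hz2 hy
  have hly0 : 0 < Real.log y := by linarith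
  set l := Real.log y with hl
  have hprodθ : ∀ (θ : ℝ) (j : J) (d : J → ℕ),
      ∏ i, (if i = j then θ else 1) ^ om (d i) = θ ^ om (d j) := by
    intro θ j d
    rw [prod_eq_single j]
    · rw [if_pos rfl]
    · intro b _ hb
      rw [if_neg hb, one_pow]
    · intro h; exact absurd (mem_univ j) h
  have hTdv : ∀ s ∈ Tup J z y, ∀ i, s i ∈ (PP z y).divisors := by
    intro s hs
    unfold Tup at hs
    rw [mem_filter, Fintype.mem_piFinset] at hs
    exact hs.1
  have hgn : ∀ s ∈ Tup J z y, 0 ≤ ∏ j, gw 1 c (s j) := fun s hs =>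
    prod_nonneg fun j _ => gw_nonneg zero_le_one (by omega) (hTdv s hs j)
  have key : ∀ θ : ℝ, 0 < θ → θ ≤ 2 → ∀ j : J, ∑ s ∈ Tup J z y, (∏ i, gw 1 c (s i)) *
      θ ^ om (s j) ≤ Q * l ^ (N - 1 + θ) := by
    intro θ hθ hθ2 j
    have h1 : ∑ s ∈ Tup J z y, (∏ i, gw 1 c (s i)) * θ ^ om (s j) ≤
        ∑ s ∈ Fintype.piFinset (fun _ : J => (PP z y).divisors), (∏ i, gw 1 c (s i)) *
          θ ^ om (s j) := by
      unfold Tup
      apply sum_le_sum_of_subset_of_nonneg (filter_subset _ _)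
      intro s hs _
      rw [Fintype.mem_piFinset] at hs
      exact mul_nonneg (prod_nonneg fun j _ => gw_nonneg zero_le_one (by omega) (hs j))
        (by positivity)
    refine h1.trans ?_
    have h2 : ∀ s : J → ℕ, (∏ i, gw 1 c (s i)) * θ ^ om (s j) =
        ∏ i, gw (if i = j then θ else 1) c (s i) := by
      intro s
      rw [← hprodθ θ j s, ← prod_mul_distrib]
      refine prod_congr rfl fun i _ => ?_
      have := gw_theta 1 (if i = j then θ else 1) c (s i)
      rw [one_mul] at this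
      rw [this]
    rw [sum_congr rfl fun s _ => h2 s, ← prod_univ_sum (fun _ : J => (PP z y).divisors)
      (fun i m => gw (if i = j then θ else 1) c m)]
    have h3 : ∀ i ∈ (univ : Finset J), ∑ m ∈ (PP z y).divisors, gw (if i = j then θ else 1) c m ≤
        Real.exp (2 * B) * l ^ (if i = j then θ else 1 : ℝ) := by
      intro i _
      have hw0 : (0 : ℝ) ≤ (if i = j then θ else 1) := by
        split_ifs
        · exact hθ.le
        · exact zero_le_one
      refine ((hB z hz _ hw0).F1 y hy).trans ?_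
      apply mul_le_mul_of_nonneg_right _ (Real.rpow_nonneg hly0.le _)
      apply Real.exp_le_exp.2
      apply mul_le_mul_of_nonneg_right _ hB0
      split_ifs
      · exact hθ2
      · norm_num
    refine (prod_le_prod (fun i _ => sum_nonneg fun m hm => gw_nonneg (by
      split_ifs
      · exact hθ.le
      · exact zero_le_one) (by omega) hm) h3).trans (le_of_eq ?_)
    rw [prod_mul_distrib, prod_const, card_univ, ← Real.rpow_sum_of_pos hly0, ← Real.exp_nat_mul,
      hQ]
    congr 2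
    have h4 : ∀ i ∈ (univ : Finset J), (if i = j then θ else 1 : ℝ) =
        1 + (if i = j then θ - 1 else 0) := by
      intro i _
      split_ifs <;> ring
    rw [sum_congr rfl h4, sum_add_distrib, sum_ite_eq' univ j, if_pos (mem_univ j)]
    simp [hN]
    ring
  calc ∑ s ∈ A, ∏ j, gw 1 c (s j)
      ≤ ∑ s ∈ A, ∑ j, ((∏ i, gw 1 c (s i)) * (1 + ε) ^ om (s j) *
          l ^ (-((1 + ε) * Real.log (1 + ε))) + (∏ i, gw 1 c (s i)) * (1 - ε) ^ om (s j) *
          l ^ (-((1 - ε) * Real.log (1 - ε)))) := by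
        refine sum_le_sum fun s hs => ?_
        have h4 : ∑ j, ((∏ i, gw 1 c (s i)) * (1 + ε) ^ om (s j) *
            l ^ (-((1 + ε) * Real.log (1 + ε))) + (∏ i, gw 1 c (s i)) * (1 - ε) ^ om (s j) *
            l ^ (-((1 - ε) * Real.log (1 - ε)))) = (∏ i, gw 1 c (s i)) *
            ∑ j, ((1 + ε) ^ om (s j) * l ^ (-((1 + ε) * Real.log (1 + ε))) +
              (1 - ε) ^ om (s j) * l ^ (-((1 - ε) * Real.log (1 - ε)))) := by
          rw [mul_sum]
          exact sum_congr rfl fun j _ => by ring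
        rw [h4]
        exact le_mul_of_one_le_right (hgn s (hA hs)) (not_ty_one_le hε hε1 hly (hty s hs))
    _ ≤ ∑ s ∈ Tup J z y, ∑ j, ((∏ i, gw 1 c (s i)) * (1 + ε) ^ om (s j) *
          l ^ (-((1 + ε) * Real.log (1 + ε))) + (∏ i, gw 1 c (s i)) * (1 - ε) ^ om (s j) *
          l ^ (-((1 - ε) * Real.log (1 - ε)))) := by
        apply sum_le_sum_of_subset_of_nonneg hA
        intro s hs _
        apply sum_nonneg
        intro j _
        have h5 : 0 ≤ 1 - ε := by linarith
        have h6 := hgn s hs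
        positivity
    _ = ∑ j, ((∑ s ∈ Tup J z y, (∏ i, gw 1 c (s i)) * (1 + ε) ^ om (s j)) *
          l ^ (-((1 + ε) * Real.log (1 + ε))) +
          (∑ s ∈ Tup J z y, (∏ i, gw 1 c (s i)) * (1 - ε) ^ om (s j)) *
          l ^ (-((1 - ε) * Real.log (1 - ε)))) := by
        rw [sum_comm]
        refine sum_congr rfl fun j _ => ?_
        rw [sum_add_distrib, sum_mul, sum_mul]
    _ ≤ ∑ _j : J, (Q + Q) * l ^ (max a1 a2) := by
        refine sum_le_sum fun j _ => ?_
        have g1 := key (1 + ε) (by linarith) (by linarith) j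
        have g2 := key (1 - ε) (by linarith) (by linarith) j
        have hQ0 : 0 ≤ Q := (Real.exp_pos _).le
        have e1 : (∑ s ∈ Tup J z y, (∏ i, gw 1 c (s i)) * (1 + ε) ^ om (s j)) *
            l ^ (-((1 + ε) * Real.log (1 + ε))) ≤ Q * l ^ (max a1 a2) := by
          calc _ ≤ Q * l ^ (N - 1 + (1 + ε)) * l ^ (-((1 + ε) * Real.log (1 + ε))) :=
                mul_le_mul_of_nonneg_right g1 (Real.rpow_nonneg hly0.le _)
            _ = Q * l ^ a1 := by
                rw [mul_assoc, ← Real.rpow_add hly0]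
                congr 2
                rw [ha1]
                ring
            _ ≤ _ := mul_le_mul_of_nonneg_left
                (Real.rpow_le_rpow_of_exponent_le hly (le_max_left _ _)) hQ0
        have e2 : (∑ s ∈ Tup J z y, (∏ i, gw 1 c (s i)) * (1 - ε) ^ om (s j)) *
            l ^ (-((1 - ε) * Real.log (1 - ε))) ≤ Q * l ^ (max a1 a2) := by
          calc _ ≤ Q * l ^ (N - 1 + (1 - ε)) * l ^ (-((1 - ε) * Real.log (1 - ε))) :=
                mul_le_mul_of_nonneg_right g2 (Real.rpow_nonneg hly0.le _)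
            _ = Q * l ^ a2 := by
                rw [mul_assoc, ← Real.rpow_add hly0]
                congr 2
                rw [ha2]
                ring
            _ ≤ _ := mul_le_mul_of_nonneg_left
                (Real.rpow_le_rpow_of_exponent_le hly (le_max_right _ _)) hQ0
        rw [add_mul Q]
        exact add_le_add e1 e2
    _ = _ := by
        rw [sum_const, nsmul_eq_mul, card_univ, ← hN]
        ring

/-- the sum over the squares -/
lemma sumV (z : ℕ) (hz : 2 * Fintype.card J + 2 ≤ z) (b : ℝ) (hb : 0 ≤ b) (y : ℕ) (hy : z < y) :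
    ∑ v ∈ Tup J z y, ∏ j, (b ^ om (v j) * (gw 1 (Fintype.card J) (v j) / v j)) ≤
      Real.exp (Fintype.card J * (2 * b)) := by
  set c := Fintype.card J with hc
  set h : ℕ → ℝ := fun p => b * ((1 / ((p : ℝ) - c)) / p) with hh
  have hpc : ∀ p ∈ PS z y, (p : ℝ) / 2 ≤ (p : ℝ) - c ∧ (0 : ℝ) < p := by
    intro p hp
    have h1 := (mem_PS.1 hp).1.1
    have h2 : 2 * (c : ℝ) ≤ p := by exact_mod_cast (by omega : 2 * c ≤ p)
    have h3 : (0 : ℝ) < p := by exact_mod_cast (mem_PS.1 hp).2.pos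
    exact ⟨by linarith, h3⟩
  have hnn : ∀ p ∈ PS z y, 0 ≤ h p := by
    intro p hp
    obtain ⟨h1, h2⟩ := hpc p hp
    have h3 : 0 < (p : ℝ) - c := by linarith
    simp only [hh]
    positivity
  have e : ∀ v ∈ Tup J z y, ∏ j, (b ^ om (v j) * (gw 1 c (v j) / v j)) =
      ∏ j, ∏ p ∈ (v j).primeFactors, h p := by
    intro v hv
    refine prod_congr rfl fun j _ => ?_
    have h1 : ∏ p ∈ (v j).primeFactors, ((1 / ((p : ℝ) - c)) / p) =
        (∏ p ∈ (v j).primeFactors, 1 / ((p : ℝ) - c)) / ∏ p ∈ (v j).primeFactors, (p : ℝ) :=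
      prod_div_distrib _ _
    rw [hh, prod_mul_distrib, prod_const, h1, ← Pool.Agent.W591.RK2.cast_eq
      (dv_squarefree (Pool.Agent.W591.RK2.mem_Tup' hv j))]
    rfl
  rw [sum_congr rfl e]
  refine (Pool.Agent.W591.RK2.gen J z y h hnn).trans
    (Real.exp_le_exp.2 (mul_le_mul_of_nonneg_left ?_ (Nat.cast_nonneg _)))
  have hbd : ∀ p ∈ PS z y, h p ≤ 2 * b * (1 / (p : ℝ) ^ 2) := by
    intro p hp
    obtain ⟨h1, h2⟩ := hpc p hp
    have h3 : 0 < (p : ℝ) - c := by linarith
    have h7 : 1 / ((p : ℝ) - c) ≤ 2 / p := by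
      rw [div_le_div_iff₀ h3 h2]
      linarith
    have h8 : (1 / ((p : ℝ) - c)) / p ≤ (2 / p) / p := div_le_div_of_nonneg_right h7 h2.le
    have h9 : (2 / (p : ℝ)) / p = 2 * (1 / (p : ℝ) ^ 2) := by
      field_simp
    calc h p ≤ b * (2 * (1 / (p : ℝ) ^ 2)) :=
          mul_le_mul_of_nonneg_left (h8.trans (le_of_eq h9)) hb
      _ = _ := by ring
  calc ∑ p ∈ PS z y, h p ≤ ∑ p ∈ PS z y, 2 * b * (1 / (p : ℝ) ^ 2) := sum_le_sum hbd
    _ = 2 * b * ∑ p ∈ PS z y, 1 / (p : ℝ) ^ 2 := by rw [mul_sum]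
    _ ≤ 2 * b * 1 :=
        mul_le_mul_of_nonneg_left (Pool.Agent.W591.RK2.sum_sq_le z y (by omega)) (by positivity)
    _ = _ := mul_one _

lemma yy_tendsto {K : ℕ} (hK : 1 ≤ K) :
    Filter.Tendsto (fun X => yy K X 0) Filter.atTop Filter.atTop := by
  rw [Filter.tendsto_atTop]
  intro b
  filter_upwards [Filter.eventually_ge_atTop (b ^ K)] with X hX
  apply le_yy hK
  rw [pow_zero, mul_one]
  exact hX

end Pool.Agent.H457.A
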