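import Pool.Agent.H457.A.Fin1

set_option autoImplicit false
set_option linter.unusedSectionVars false

/-! Rank tails from local counts: the families and the parts of the tail. -/

namespace Pool.Agent.H457.A

open Finset Pool.Agent.W262.RK Pool.Agent.W307.RT
open Pool.Agent.W45.RT (splitSum S1_mem S2_mem S1_mul_S2)

/-- a family with local counts of the small primes and a bound of the rank by local counts -/
structure Fam {J : Type} [Fintype J] [DecidableEq J] (cls : J → Fin 4) (f : J → Bool)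
    (κ : J → Fin 3 → ℤ) (z : ℕ) {Ω : Type} (T : ℕ → Finset Ω) (F : Ω → J → ℤ)
    (neg : Ω → (J → ℕ) → Finset ℕ) (R : Ω → ℕ) (S : ℕ → ℝ) (Cc : ℝ) (K0 y0 a L : ℕ) : Prop where
  S0 : ∀ X, 0 ≤ S X
  C0 : 0 ≤ Cc
  card : ∀ X, ((T X).card : ℝ) ≤ Cc * S X
  good : ∀ X, ∀ ω ∈ T X, Gd z (F ω)
  neg_sub : ∀ ω s, neg ω s ⊆ PF (fl4 cls f) s
  cnt : ∀ X y Y : ℕ, y0 ≤ y → z < y → y ^ K0 ≤ X → ∀ s ∈ Tup J z y, ∀ v ∈ Tup J z y,
    ∀ u ∈ Tup J y Y, (∏ j, s j * v j * u j) ^ 8 ≤ X → ∀ E : Finset ℕ,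
    ∀ T' : Finset Ω, T' ⊆ T X → (∀ ω ∈ T', S1 z y (F ω) = s ∧ S2 z y (F ω) = v ∧
      (∀ j, (u j : ℤ) ∣ F ω j) ∧ neg ω s = E) →
    (T'.card : ℝ) ≤ Cc * S X * (1 / 2) ^ (PF (fl4 cls f) s).card *
      (∏ j, gw 1 (Fintype.card J) (s j)) * (∏ j, gw 1 (Fintype.card J) (v j) / v j) *
      (∏ j, 1 / (u j : ℝ)) / (Real.log y) ^ (Fintype.card J)
  rank : ∀ X y k' : ℕ, 1 ≤ y → z < y → X < (y + 1) ^ k' → ∀ ω ∈ T X, (2 : ℝ) ^ (R ω) ≤
    4 ^ a * 2 ^ (L * k') * 4 ^ (∑ j, om (S2 z y (F ω) j)) *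
      NL (∏ j, S1 z y (F ω) j) (LLg (LC4 cls f κ) (S1 z y (F ω)) (neg ω (S1 z y (F ω))))

variable {J : Type} [Fintype J] [DecidableEq J] {cls : J → Fin 4} {f : J → Bool}
  {κ : J → Fin 3 → ℤ} {z : ℕ} {Ω : Type} {T : ℕ → Finset Ω} {F : Ω → J → ℤ}
  {neg : Ω → (J → ℕ) → Finset ℕ} {R : Ω → ℕ} {S : ℕ → ℝ} {Cc : ℝ} {K0 y0 a L : ℕ}

open Classical in
/-- the count without signs -/
lemma Fam.cb (hF : Fam cls f κ z T F neg R S Cc K0 y0 a L) (X : ℕ) :
    CB z K0 y0 X Cc (S X) (T X) F := by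
  intro y Y hy0 hzy hyX s hs v hv u hu hsvu T' hT' hω
  set P := PF (fl4 cls f) s with hP
  set B : ℝ := Cc * S X * (∏ j, gw 1 (Fintype.card J) (s j)) *
      (∏ j, gw 1 (Fintype.card J) (v j) / v j) * (∏ j, 1 / (u j : ℝ)) /
      (Real.log y) ^ (Fintype.card J) with hB
  have h1 : T' ⊆ P.powerset.biUnion (fun E => T'.filter (fun ω => neg ω s = E)) := by
    intro ω hω'
    rw [mem_biUnion]
    exact ⟨neg ω s, mem_powerset.2 (hF.neg_sub ω s), mem_filter.2 ⟨hω', rfl⟩⟩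
  have h2 : ∀ E ∈ P.powerset, ((T'.filter (fun ω => neg ω s = E)).card : ℝ) ≤
      (1 / 2) ^ P.card * B := by
    intro E _
    refine (hF.cnt X y Y hy0 hzy hyX s hs v hv u hu hsvu E _ ((filter_subset _ _).trans hT')
      (fun ω hω' => ?_)).trans (le_of_eq ?_)
    · rw [mem_filter] at hω'
      obtain ⟨e1, e2, e3⟩ := hω ω hω'.1
      exact ⟨e1, e2, e3, hω'.2⟩
    · rw [hB]
      ring
  calc (T'.card : ℝ) ≤ ((P.powerset.biUnion (fun E => T'.filter (fun ω => neg ω s = E))).card : ℝ) := by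
        exact_mod_cast card_le_card h1
    _ ≤ ∑ E ∈ P.powerset, ((T'.filter (fun ω => neg ω s = E)).card : ℝ) := by
        exact_mod_cast card_biUnion_le
    _ ≤ ∑ E ∈ P.powerset, (1 / 2) ^ P.card * B := sum_le_sum h2
    _ = B := by
        rw [sum_const, card_powerset, nsmul_eq_mul, ← mul_assoc]
        push_cast
        rw [← mul_pow]
        norm_num

/-- grouping by the small prime factors -/
lemma Fam.group (hF : Fam cls f κ z T F neg R S Cc K0 y0 a L)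
    (hz : 2 * Fintype.card J + 2 ≤ z) {X y : ℕ} (hy0 : y0 ≤ y) (hzy : z < y)
    (hyX : y ^ K0 ≤ X) (P : (J → ℕ) → Prop) [DecidablePred P] (G : (J → ℕ) → Finset ℕ → ℝ) (H : (J → ℕ) → ℝ)
    (hG : ∀ s E, 0 ≤ G s E) (hH : ∀ v, 0 ≤ H v) :
    ∑ ω ∈ (T X).filter (fun ω => (∏ j, rp z y (F ω j)) ^ 8 ≤ X ∧ P (S1 z y (F ω))),
      G (S1 z y (F ω)) (neg ω (S1 z y (F ω))) * H (S2 z y (F ω)) ≤
    Cc * S X / (Real.log y) ^ (Fintype.card J) *
      (∑ s ∈ (Tup J z y).filter P, (∏ j, gw 1 (Fintype.card J) (s j)) *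
        ((1 / 2) ^ (PF (fl4 cls f) s).card * ∑ E ∈ (PF (fl4 cls f) s).powerset, G s E)) *
      (∑ v ∈ Tup J z y, H v * ∏ j, (gw 1 (Fintype.card J) (v j) / v j)) := by
  set N := Fintype.card J with hN
  have hcz : N ≤ z := by omega
  set A := (((Tup J z y).filter P ×ˢ Tup J z y).filter (fun q => (∏ j, q.1 j * q.2 j) ^ 8 ≤ X)).sigma
    (fun q => (PF (fl4 cls f) q.1).powerset) with hA
  set SS : (Σ _ : (J → ℕ) × (J → ℕ), Finset ℕ) → Finset Ω := fun q => (T X).filter (fun ω : Ω =>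
    S1 z y (F ω) = q.1.1 ∧ S2 z y (F ω) = q.1.2 ∧ neg ω q.1.1 = q.2) with hSS
  have hcov : ∀ ω ∈ (T X).filter (fun ω => (∏ j, rp z y (F ω j)) ^ 8 ≤ X ∧ P (S1 z y (F ω))),
      ∃ q ∈ A, ω ∈ SS q := by
    intro ω hω
    rw [mem_filter] at hω
    obtain ⟨h1, h2, h3⟩ := hω
    have hB := hF.good X ω h1
    refine ⟨⟨(S1 z y (F ω), S2 z y (F ω)), neg ω (S1 z y (F ω))⟩, ?_, ?_⟩
    · rw [hA, mem_sigma, mem_filter, mem_product, mem_filter]
      refine ⟨⟨⟨⟨S1_mem hB, h3⟩, S2_mem hB⟩, ?_⟩, mem_powerset.2 (hF.neg_sub _ _)⟩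
      rw [prod_congr rfl (fun j _ => S1_mul_S2 (F ω) z y j)]
      exact h2
    · rw [hSS, mem_filter]
      exact ⟨h1, rfl, rfl, rfl⟩
  refine (splitSum (R := fun ω => G (S1 z y (F ω)) (neg ω (S1 z y (F ω))) * H (S2 z y (F ω)))
    (fun ω => mul_nonneg (hG _ _) (hH _)) hcov).trans ?_
  have hlog : 0 ≤ (Real.log y) ^ N := pow_nonneg (Real.log_natCast_nonneg _) _
  have hW0 : 0 ≤ Cc * S X / (Real.log y) ^ N :=
    div_nonneg (mul_nonneg hF.C0 (hF.S0 X)) hlog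
  set W := Cc * S X / (Real.log y) ^ N with hW
  have hq : ∀ q ∈ A, ∑ ω ∈ SS q, G (S1 z y (F ω)) (neg ω (S1 z y (F ω))) * H (S2 z y (F ω)) ≤
      W * (((∏ j, gw 1 N (q.1.1 j)) * ((1 / 2) ^ (PF (fl4 cls f) q.1.1).card * G q.1.1 q.2)) *
        (H q.1.2 * ∏ j, (gw 1 N (q.1.2 j) / q.1.2 j))) := by
    intro q hq
    rw [hA, mem_sigma, mem_filter, mem_product, mem_filter] at hq
    obtain ⟨⟨⟨⟨hs, -⟩, hv⟩, h8⟩, hE⟩ := hq
    have hconst : ∑ ω ∈ SS q, G (S1 z y (F ω)) (neg ω (S1 z y (F ω))) * H (S2 z y (F ω)) =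
        ((SS q).card : ℝ) * (G q.1.1 q.2 * H q.1.2) := by
      rw [← nsmul_eq_mul, ← sum_const]
      refine sum_congr rfl fun ω hω => ?_
      rw [hSS, mem_filter] at hω
      obtain ⟨-, e1, e2, e3⟩ := hω
      rw [e1, e2, e3]
    rw [hconst]
    have h1 := hF.cnt X y y hy0 hzy hyX q.1.1 hs q.1.2 hv (fun _ => 1) (one_mem_Tup _ _)
      (by simpa using h8) q.2 (SS q) (filter_subset _ _) (fun ω hω => by
        rw [hSS, mem_filter] at hω
        obtain ⟨-, e1, e2, e3⟩ := hω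
        exact ⟨e1, e2, fun j => by simp, e3⟩)
    refine (mul_le_mul_of_nonneg_right h1 (mul_nonneg (hG _ _) (hH _))).trans (le_of_eq ?_)
    rw [hW]
    simp only [Nat.cast_one, div_one, prod_const_one]
    ring
  refine (sum_le_sum hq).trans ?_
  rw [← mul_sum, mul_assoc]
  apply mul_le_mul_of_nonneg_left _ hW0
  rw [hA, sum_sigma]
  have h2 : ∀ q : (J → ℕ) × (J → ℕ), ∑ E ∈ (PF (fl4 cls f) q.1).powerset,
      ((∏ j, gw 1 N (q.1 j)) * ((1 / 2) ^ (PF (fl4 cls f) q.1).card * G q.1 E)) *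
        (H q.2 * ∏ j, (gw 1 N (q.2 j) / q.2 j)) =
      ((∏ j, gw 1 N (q.1 j)) * ((1 / 2) ^ (PF (fl4 cls f) q.1).card *
        ∑ E ∈ (PF (fl4 cls f) q.1).powerset, G q.1 E)) *
        (H q.2 * ∏ j, (gw 1 N (q.2 j) / q.2 j)) := by
    intro q
    rw [mul_sum, mul_sum, sum_mul]
  simp only [h2]
  rw [sum_mul_sum, ← sum_product']
  refine sum_le_sum_of_subset_of_nonneg (filter_subset _ _) (fun q hq _ => ?_)
  rw [mem_product, mem_filter] at hq
  obtain ⟨⟨hs, -⟩, hv⟩ := hq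
  refine mul_nonneg (mul_nonneg (prod_nonneg fun j _ => gw_nn hcz hs j)
    (mul_nonneg (by positivity) (sum_nonneg fun E _ => hG _ _)))
    (mul_nonneg (hH _) (prod_nonneg fun j _ => div_nonneg (gw_nn hcz hv j) (Nat.cast_nonneg _)))

open Classical in
/-- the typical part -/
lemma Fam.typ (hF : Fam cls f κ z T F neg R S Cc K0 y0 a L)
    (hz : 2 * Fintype.card J + 2 ≤ z) {X y K k r r' : ℕ} {ε CJ : ℝ} (hy0 : y0 ≤ y) (hzy : z < y)
    (hyX : y ^ K0 ≤ X) (hXy : X < (y + 1) ^ K) (hr : r = 2 * a + L * K + r')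
    (hmom : ∑ s ∈ Tup J z y, (if Ty ε (Real.log y) (fun j => om (s j)) then (1 : ℝ) else 0) *
        (NBg (fl4 cls f) (LC4 cls f κ) k s * ∏ j, gw 1 (Fintype.card J) (s j)) ≤
        (2 ^ (Fintype.card J * 16 ^ k) * CJ + 1) * (Real.log y) ^ (Fintype.card J : ℝ)) :
    (((T X).filter (fun ω => r ≤ R ω ∧ (∏ j, rp z y (F ω j)) ^ 8 ≤ X ∧
      Ty ε (Real.log y) (fun j => om (S1 z y (F ω) j)))).card : ℝ) ≤
      Cc * S X * (2 ^ (Fintype.card J * 16 ^ k) * CJ + 1) *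
        Real.exp (Fintype.card J * (2 * 4 ^ k)) * (1 / 2) ^ (r' * k) := by
  set N := Fintype.card J with hN
  have hcz : N ≤ z := by omega
  set G : (J → ℕ) → Finset ℕ → ℝ := fun s E => (NL (∏ j, s j) (LLg (LC4 cls f κ) s E) : ℝ) ^ k
    with hG
  set H : (J → ℕ) → ℝ := fun v => ∏ j, ((4 : ℝ) ^ k) ^ om (v j) with hH
  set P : (J → ℕ) → Prop := fun s => Ty ε (Real.log y) (fun j => om (s j)) with hP
  have h1 := hF.group hz hy0 hzy hyX P G H (fun s E => by positivity)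
    (fun v => prod_nonneg fun j _ => by positivity)
  have hlog1 : 0 < Real.log y := Real.log_pos (by exact_mod_cast (by omega : 1 < y))
  -- the sum over `s`
  have hs : ∑ s ∈ (Tup J z y).filter P, (∏ j, gw 1 N (s j)) *
        ((1 / 2) ^ (PF (fl4 cls f) s).card * ∑ E ∈ (PF (fl4 cls f) s).powerset, G s E) ≤
      (2 ^ (N * 16 ^ k) * CJ + 1) * (Real.log y) ^ N := by
    rw [Real.rpow_natCast] at hmom
    refine le_trans (le_of_eq ?_) hmom
    rw [sum_filter]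
    refine sum_congr rfl fun s _ => ?_
    by_cases hc : Ty ε (Real.log y) (fun j => om (s j))
    · rw [if_pos (show P s from hc), if_pos hc, one_mul]
      unfold NBg
      rw [hG]
      ring
    · rw [if_neg (show ¬ P s from hc), if_neg hc, zero_mul]
  have hv : ∑ v ∈ Tup J z y, H v * ∏ j, (gw 1 N (v j) / v j) ≤ Real.exp (N * (2 * 4 ^ k)) := by
    refine le_trans (le_of_eq ?_) (sumV (J := J) z hz ((4 : ℝ) ^ k) (by positivity) y hzy)
    refine sum_congr rfl fun v _ => ?_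
    rw [hH, ← prod_mul_distrib]
  have hv0 : 0 ≤ ∑ v ∈ Tup J z y, H v * ∏ j, (gw 1 N (v j) / v j) :=
    sum_nonneg fun v hv => mul_nonneg (prod_nonneg fun j _ => by positivity)
      (prod_nonneg fun j _ => div_nonneg (gw_nn hcz hv j) (Nat.cast_nonneg _))
  have hW0 : 0 ≤ Cc * S X / (Real.log y) ^ N :=
    div_nonneg (mul_nonneg hF.C0 (hF.S0 X)) (by positivity)
  have h2 : ∑ ω ∈ (T X).filter (fun ω => (∏ j, rp z y (F ω j)) ^ 8 ≤ X ∧ P (S1 z y (F ω))),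
      G (S1 z y (F ω)) (neg ω (S1 z y (F ω))) * H (S2 z y (F ω)) ≤
      Cc * S X * (2 ^ (N * 16 ^ k) * CJ + 1) * Real.exp (N * (2 * 4 ^ k)) := by
    refine h1.trans ?_
    calc _ ≤ Cc * S X / (Real.log y) ^ N * ((2 ^ (N * 16 ^ k) * CJ + 1) * (Real.log y) ^ N) *
          Real.exp (N * (2 * 4 ^ k)) := by
          apply mul_le_mul (mul_le_mul_of_nonneg_left hs hW0) hv hv0
          apply mul_nonneg hW0
          refine le_trans (sum_nonneg fun s hs => ?_) hs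
          rw [mem_filter] at hs
          exact mul_nonneg (prod_nonneg fun j _ => gw_nn hcz hs.1 j)
            (mul_nonneg (by positivity) (sum_nonneg fun E _ => by positivity))
      _ = _ := by
          have : (Real.log y) ^ N ≠ 0 := by positivity
          field_simp
  -- Markov
  calc (((T X).filter (fun ω => r ≤ R ω ∧ (∏ j, rp z y (F ω j)) ^ 8 ≤ X ∧
      Ty ε (Real.log y) (fun j => om (S1 z y (F ω) j)))).card : ℝ)
      = ∑ ω ∈ (T X).filter (fun ω => r ≤ R ω ∧ (∏ j, rp z y (F ω j)) ^ 8 ≤ X ∧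
      Ty ε (Real.log y) (fun j => om (S1 z y (F ω) j))), (1 : ℝ) := by
        rw [sum_const, nsmul_eq_mul, mul_one]
    _ ≤ ∑ ω ∈ (T X).filter (fun ω => r ≤ R ω ∧ (∏ j, rp z y (F ω j)) ^ 8 ≤ X ∧
      Ty ε (Real.log y) (fun j => om (S1 z y (F ω) j))),
        (1 / 2) ^ (r' * k) * (G (S1 z y (F ω)) (neg ω (S1 z y (F ω))) * H (S2 z y (F ω))) := by
        refine sum_le_sum fun ω hω => ?_
        rw [mem_filter] at hω
        obtain ⟨hωT, hrR, -, -⟩ := hω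
        have h3 := hF.rank X y K (by omega) hzy hXy ω hωT
        have h4 : (2 : ℝ) ^ r ≤ 2 ^ (R ω) := pow_le_pow_right₀ (by norm_num) hrR
        have h5 : (2 : ℝ) ^ r = 4 ^ a * 2 ^ (L * K) * 2 ^ r' := by
          rw [hr, pow_add, pow_add, pow_mul]
          norm_num
        rw [h5] at h4
        set NLω : ℝ := (NL (∏ j, S1 z y (F ω) j)
          (LLg (LC4 cls f κ) (S1 z y (F ω)) (neg ω (S1 z y (F ω)))) : ℝ) with hNLω
        have h6 : (2 : ℝ) ^ r' ≤ 4 ^ (∑ j, om (S2 z y (F ω) j)) * NLω := by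
          have h7 : (0 : ℝ) < 4 ^ a * 2 ^ (L * K) := by positivity
          have h8 := h4.trans h3
          rw [mul_assoc (4 ^ a * 2 ^ (L * K) : ℝ)] at h8
          exact le_of_mul_le_mul_left h8 h7
        have h9 : (1 : ℝ) ≤ (1 / 2) ^ r' * (4 ^ (∑ j, om (S2 z y (F ω) j)) * NLω) := by
          have h10 : (1 / 2 : ℝ) ^ r' * 2 ^ r' = 1 := by
            rw [← mul_pow]; norm_num
          have h11 : (0 : ℝ) ≤ (1 / 2 : ℝ) ^ r' := by positivity
          exact h10.symm.le.trans (mul_le_mul_of_nonneg_left h6 h11)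
        have h10 := one_le_pow₀ h9 (n := k)
        refine h10.trans (le_of_eq ?_)
        rw [mul_pow, mul_pow, ← pow_mul, hG, hH]
        simp only
        rw [prod_pow_eq_pow_sum, ← pow_mul, ← pow_mul, mul_comm k]
        ring
    _ = (1 / 2) ^ (r' * k) * ∑ ω ∈ (T X).filter (fun ω => r ≤ R ω ∧
        (∏ j, rp z y (F ω j)) ^ 8 ≤ X ∧ Ty ε (Real.log y) (fun j => om (S1 z y (F ω) j))),
        (G (S1 z y (F ω)) (neg ω (S1 z y (F ω))) * H (S2 z y (F ω))) := by rw [mul_sum]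
    _ ≤ (1 / 2) ^ (r' * k) *
        ∑ ω ∈ (T X).filter (fun ω => (∏ j, rp z y (F ω j)) ^ 8 ≤ X ∧ P (S1 z y (F ω))),
          G (S1 z y (F ω)) (neg ω (S1 z y (F ω))) * H (S2 z y (F ω)) := by
        apply mul_le_mul_of_nonneg_left _ (by positivity)
        apply sum_le_sum_of_subset_of_nonneg
        · intro ω hω
          rw [mem_filter] at hω ⊢
          exact ⟨hω.1, hω.2.2.1, hω.2.2.2⟩
        · intro ω _ _
          exact mul_nonneg (pow_nonneg (Nat.cast_nonneg _) _)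
            (prod_nonneg fun j _ => by positivity)
    _ ≤ (1 / 2) ^ (r' * k) *
        (Cc * S X * (2 ^ (N * 16 ^ k) * CJ + 1) * Real.exp (N * (2 * 4 ^ k))) :=
        mul_le_mul_of_nonneg_left h2 (by positivity)
    _ = _ := by ring

open Classical in
/-- the atypical part -/
lemma Fam.aty (hF : Fam cls f κ z T F neg R S Cc K0 y0 a L)
    (hz : 2 * Fintype.card J + 2 ≤ z) {ε : ℝ} (hε : 0 < ε) (hε1 : ε < 1) :
    ∃ b C' : ℝ, b < Fintype.card J ∧ 0 ≤ C' ∧ ∀ X y : ℕ, y0 ≤ y → z < y → y ^ K0 ≤ X →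
    (((T X).filter (fun ω => (∏ j, rp z y (F ω j)) ^ 8 ≤ X ∧
      ¬ Ty ε (Real.log y) (fun j => om (S1 z y (F ω) j)))).card : ℝ) ≤
      Cc * S X * (C' * (Real.log y) ^ (b - Fintype.card J)) := by
  obtain ⟨b, C', hb, hC', hmain⟩ := aty_sum J (Fintype.card J) z hz hε hε1
  set N := Fintype.card J with hN
  refine ⟨b, C' * Real.exp (N * (2 * 1)), hb, by positivity, fun X y hy0 hzy hyX => ?_⟩
  have hcz : N ≤ z := by omega
  set P : (J → ℕ) → Prop := fun s => ¬ Ty ε (Real.log y) (fun j => om (s j)) with hP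
  have h1 := hF.group hz hy0 hzy hyX P (fun _ _ => 1) (fun _ => 1) (fun s E => zero_le_one)
    (fun v => zero_le_one)
  simp only [mul_one] at h1
  rw [sum_const, nsmul_eq_mul, mul_one] at h1
  have hlog1 : 0 < Real.log y := Real.log_pos (by exact_mod_cast (by omega : 1 < y))
  have hs : ∑ s ∈ (Tup J z y).filter P, (∏ j, gw 1 N (s j)) *
        ((1 / 2) ^ (PF (fl4 cls f) s).card * ∑ E ∈ (PF (fl4 cls f) s).powerset, (1 : ℝ)) ≤
      C' * (Real.log y) ^ b := by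
    refine le_trans (le_of_eq ?_) (hmain y hzy ((Tup J z y).filter P) (filter_subset _ _)
      (fun s hs => (mem_filter.1 hs).2))
    refine sum_congr rfl fun s _ => ?_
    rw [sum_const, card_powerset, nsmul_eq_mul, mul_one]
    push_cast
    rw [← mul_pow]
    norm_num
  have hv : ∑ v ∈ Tup J z y, 1 * ∏ j, (gw 1 N (v j) / v j) ≤ Real.exp (N * (2 * 1)) := by
    refine le_trans (le_of_eq ?_) (sumV (J := J) z hz 1 zero_le_one y hzy)
    refine sum_congr rfl fun v _ => ?_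
    rw [one_mul]
    exact prod_congr rfl fun j _ => by rw [one_pow, one_mul]
  have hW0 : 0 ≤ Cc * S X / (Real.log y) ^ N :=
    div_nonneg (mul_nonneg hF.C0 (hF.S0 X)) (by positivity)
  have hv0 : 0 ≤ ∑ v ∈ Tup J z y, 1 * ∏ j, (gw 1 N (v j) / v j) :=
    sum_nonneg fun v hv => mul_nonneg zero_le_one
      (prod_nonneg fun j _ => div_nonneg (gw_nn hcz hv j) (Nat.cast_nonneg _))
  refine h1.trans ?_
  calc _ ≤ Cc * S X / (Real.log y) ^ N * (C' * (Real.log y) ^ b) * Real.exp (N * (2 * 1)) := by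
        apply mul_le_mul (mul_le_mul_of_nonneg_left hs hW0) hv hv0
        exact mul_nonneg hW0 (by positivity)
    _ = _ := by
        rw [Real.rpow_sub hlog1, Real.rpow_natCast]
        have : (Real.log y) ^ N ≠ 0 := by positivity
        field_simp

end Pool.Agent.H457.A
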