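import Pool.Agent.H457.A.Expk2

set_option autoImplicit false
set_option linter.unusedSectionVars false

/-! The local identities for the moments. -/

namespace Pool.Agent.H457.A

open Finset Pool.Agent.W262.RK Pool.Agent.W108.RK Pool.Agent.W762.RK2

/-- the sign of `neg` -/
def ng (neg : Bool) : ℝ := if neg = true then -1 else 1

lemma ng_sq (neg : Bool) : ng neg * ng neg = 1 := by unfold ng; split_ifs <;> norm_num

/-- pairs of bits -/
abbrev Z2 : Type := ZMod 2 × ZMod 2

/-- the single expansion at a prime -/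
def Loc1 (A1 : Z2 → Z2 → Bool) (w1 : ℝ) (ν : Z2 → Z2 → ZMod 2) (K1 : Z2 → Z2 → ℝ)
    (L : Bool → Bool → Bool → Bool → Bool → Prop) : Prop :=
  ∀ (neg : Bool) (v : Z2) (h g : Bool), ind (L neg (zb v.1) (zb v.2) h g) =
    ∑ x : Z2, if A1 v x = true then w1 * pw (ng neg) (ν v x) * K1 v x *
      ((if x.1 = 1 then sg h else 1) * (if x.2 = 1 then sg g else 1)) else 0

lemma loc_prod {k : ℕ} {A1 : Z2 → Z2 → Bool} {w1 : ℝ} {ν : Z2 → Z2 → ZMod 2}
    {K1 : Z2 → Z2 → ℝ} {L : Bool → Bool → Bool → Bool → Bool → Prop}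
    (hL : Loc1 A1 w1 ν K1 L) (v : Vk k) (h g : Fin k → Bool) :
    (∏ r, ind (L true (zb (v r).1) (zb (v r).2) (h r) (g r)) +
      ∏ r, ind (L false (zb (v r).1) (zb (v r).2) (h r) (g r))) / 2 =
    ∑ x : Vk k, if (decide (∀ r, A1 (v r) (x r) = true) &&
        decide (∑ r, ν (v r) (x r) = 0)) = true then
      w1 ^ k * (∏ r, K1 (v r) (x r)) *
        ∏ r, ((if (x r).1 = 1 then sg (h r) else 1) * (if (x r).2 = 1 then sg (g r) else 1))
      else 0 := by
  have h1 : ∀ neg, ∏ r, ind (L neg (zb (v r).1) (zb (v r).2) (h r) (g r)) =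
      ∑ x : Vk k, if (∀ r, A1 (v r) (x r) = true) then
        pw (ng neg) (∑ r, ν (v r) (x r)) * (w1 ^ k * (∏ r, K1 (v r) (x r)) *
        ∏ r, ((if (x r).1 = 1 then sg (h r) else 1) * (if (x r).2 = 1 then sg (g r) else 1)))
        else 0 := by
    intro neg
    rw [prod_congr rfl fun r _ => hL neg (v r) (h r) (g r), prod_univ_sum]
    rw [show (Fintype.piFinset fun _ : Fin k => (univ : Finset Z2)) = univ from
      Fintype.piFinset_univ]
    refine sum_congr rfl fun x _ => ?_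
    by_cases hx : ∀ r, A1 (v r) (x r) = true
    · rw [if_pos hx, prod_congr rfl fun r _ => if_pos (hx r), pw_sum (ng_sq neg)]
      rw [prod_mul_distrib, prod_mul_distrib, prod_mul_distrib, prod_const, card_univ,
        Fintype.card_fin]
      ring
    · rw [if_neg hx]
      push Not at hx
      obtain ⟨r, hr⟩ := hx
      exact prod_eq_zero (mem_univ r) (if_neg hr)
  rw [h1, h1, ← sum_add_distrib, sum_div]
  refine sum_congr rfl fun x _ => ?_
  by_cases hx : ∀ r, A1 (v r) (x r) = true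
  · have hd : (decide (∀ r, A1 (v r) (x r) = true) && decide (∑ r, ν (v r) (x r) = 0)) =
        decide (∑ r, ν (v r) (x r) = 0) := by
      rw [decide_eq_true hx, Bool.true_and]
    rw [if_pos hx, if_pos hx, hd]
    have h01 : ∀ a : ZMod 2, a = 0 ∨ a = 1 := by decide
    rcases h01 (∑ r, ν (v r) (x r)) with h0 | h0
    · rw [h0]
      simp only [decide_true, if_true, pw_zero]
      ring
    · rw [h0]
      have h10 : decide ((1 : ZMod 2) = 0) = false := by decide
      rw [h10]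
      unfold pw ng
      simp
  · have hx' : ¬ (decide (∀ r, A1 (v r) (x r) = true) &&
        decide (∑ r, ν (v r) (x r) = 0)) = true := by
      simp only [Bool.and_eq_true, decide_eq_true_eq]
      rintro ⟨h1, -⟩
      exact hx h1
    rw [if_neg hx, if_neg hx, if_neg hx']
    ring

/-- the direction -/
def ez (c : Fin 4) : Z2 := if c = 0 then (1, 1) else if c = 1 then (1, 0) else (0, 1)

/-- the allowed types for the classes -/
def A4 (c : Fin 4) (v x : Z2) : Bool :=
  if c = 3 then true else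
    (decide (v = 0) || decide (v = ez c)) && (decide (x = 0) || decide (x = (ez c).swap))

/-- both nonzero -/
def nz (v x : Z2) : ZMod 2 := if v ≠ 0 ∧ x ≠ 0 then 1 else 0

/-- the sign exponent: the classes with `f = true` have random signs -/
def ν4 (f : Bool) (c : Fin 4) (v x : Z2) : ZMod 2 :=
  if c = 3 then x.1 * v.1 + x.2 * v.2 else (if f = true then nz v x else 0)

/-- the constants for one factor -/
def K4 (c : Fin 4) (κ : Fin 3 → ℤ) (p : ℕ) (v x : Z2) : ℝ :=
  if c = 3 then pw (Jr (-1) p) (x.2 * v.2) * pw (Jr (κ 0) p) ((v.1 + v.2) * (x.1 + x.2)) *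
    pw (Jr (κ 1) p) (x.1 * v.2) * pw (Jr (κ 2) p) (x.2 * v.1)
  else pw (Jr (κ 0) p) (nz v x)

/-- the local conditions with random signs for all the classes -/
def LF (f : Bool) (c : Fin 4) (κ : Fin 3 → ℤ) (neg : Bool) (p : ℕ) (v w h g : Bool) : Prop :=
  if c = 0 then v = w ∧ xor h g = (v && xor (f && neg) (sg0 p (κ 0)))
  else if c = 1 then w = false ∧ g = (v && xor (f && neg) (sg0 p (κ 0)))
  else if c = 2 then v = false ∧ h = (w && xor (f && neg) (sg0 p (κ 0)))
  else LL 3 κ neg p v w h g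

lemma LF_false (c : Fin 4) (κ : Fin 3 → ℤ) (neg : Bool) (p : ℕ) (v w h g : Bool) :
    LF false c κ neg p v w h g = LL c κ neg p v w h g := by
  unfold LF LL
  fin_cases c <;> simp

lemma loc1_LF (f : Bool) (c : Fin 4) (κ : Fin 3 → ℤ) {p : ℕ} (hp : p.Prime) (hp2 : p ≠ 2)
    (hk : ∀ i, ¬ (p : ℤ) ∣ κ i) :
    Loc1 (A4 c) (if c = 3 then 1 / 4 else 1 / 2) (ν4 f c) (K4 c κ p)
      (fun neg v w h g => LF f c κ neg p v w h g) := by
  intro neg v h g
  have hpi : Prime (p : ℤ) := Nat.prime_iff_prime_int.1 hp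
  have hmul : ∀ i j, ¬ (p : ℤ) ∣ κ i * κ j := by
    intro i j hd
    rcases hpi.dvd_or_dvd hd with h' | h'
    · exact hk i h'
    · exact hk j h'
  have hneg : ∀ i, ¬ (p : ℤ) ∣ -κ i := fun i h' => hk i ((dvd_neg).1 h')
  have h1 : ¬ (p : ℤ) ∣ -1 := by
    intro h'
    have h2 : (p : ℤ) ∣ 1 := (dvd_neg).1 h'
    exact hpi.not_isUnit (isUnit_of_dvd_one h2)
  have e0 : Jr (κ 0) p = sg (sg0 p (κ 0)) := Jr_dvd_ne hp (hk 0)
  have e1 : Jr (κ 1) p = sg (sg0 p (κ 1)) := Jr_dvd_ne hp (hk 1)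
  have e2 : Jr (κ 2) p = sg (sg0 p (κ 2)) := Jr_dvd_ne hp (hk 2)
  have em : Jr (-1) p = sg (sg0 p (-1)) := Jr_dvd_ne hp h1
  have sgx : ∀ a b : Bool, sg (xor a b) = sg a * sg b := by
    intro a b
    cases a <;> cases b <;> norm_num [sg]
  have sgi : ∀ a b : Bool, sg a = sg b → a = b := by
    intro a b
    cases a <;> cases b <;> norm_num [sg]
  have f01 : sg0 p (κ 0 * κ 1) = xor (sg0 p (κ 0)) (sg0 p (κ 1)) := by
    apply sgi
    rw [sgx, ← e0, ← e1, ← Jr_dvd_ne hp (hmul 0 1), Jr_mul_left]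
  have f02 : sg0 p (κ 0 * κ 2) = xor (sg0 p (κ 0)) (sg0 p (κ 2)) := by
    apply sgi
    rw [sgx, ← e0, ← e2, ← Jr_dvd_ne hp (hmul 0 2), Jr_mul_left]
  have fn0 : sg0 p (-κ 0) = xor (sg0 p (-1)) (sg0 p (κ 0)) := by
    apply sgi
    rw [sgx, ← e0, ← em, ← Jr_dvd_ne hp (hneg 0), ← Jr_mul_left]
    congr 1
    ring
  have fn2 : sg0 p (-κ 2) = xor (sg0 p (-1)) (sg0 p (κ 2)) := by
    apply sgi
    rw [sgx, ← e2, ← em, ← Jr_dvd_ne hp (hneg 2), ← Jr_mul_left]
    congr 1
    ring
  have h01 : ∀ a : ZMod 2, a = 0 ∨ a = 1 := by decide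
  obtain ⟨v1, v2⟩ := v
  have hsum : ∀ F : Z2 → ℝ, ∑ x : Z2, F x = F (0, 0) + F (0, 1) + (F (1, 0) + F (1, 1)) := by
    intro F
    rw [Fintype.sum_prod_type]
    have : ∀ G : ZMod 2 → ℝ, ∑ a : ZMod 2, G a = G 0 + G 1 := by
      intro G
      exact Fin.sum_univ_two G
    rw [this, this, this]
  rw [hsum]
  unfold K4 LF
  rw [e0, e1, e2, em]
  unfold LL
  rw [f01, f02, fn0, fn2]
  generalize sg0 p (κ 0) = a
  generalize sg0 p (κ 1) = b
  generalize sg0 p (κ 2) = d
  generalize sg0 p (-1) = e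
  have hz0 : zb 0 = false := by decide
  have hz1 : zb 1 = true := by decide
  have t2 : (1 : ZMod 2) + 1 = 0 := by decide
  have indb : ∀ x y : Bool, ind (x = y) = (1 + sg x * sg y) / 2 := by
    intro x y
    cases x <;> cases y <;> norm_num [ind, sg]
  have inda : ∀ P Q : Prop, ind (P ∧ Q) = ind P * ind Q := by
    intro P Q
    unfold ind
    by_cases hP : P <;> by_cases hQ : Q <;> simp [hP, hQ]
  have indF : ind False = 0 := by simp [ind]
  have sgt : sg true = -1 := by simp [sg]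
  have sgf : sg false = 1 := by simp [sg]
  have sgn' : ∀ x : Bool, sg (!x) = -sg x := by
    intro x
    cases x <;> norm_num [sg]
  have sge : ∀ x y : Bool, sg (x != y) = sg x * sg y := by
    intro x y
    cases x <;> cases y <;> norm_num [sg]
  have indn : ∀ x y : Bool, ind (¬ x = y) = (1 - sg x * sg y) / 2 := by
    intro x y
    cases x <;> cases y <;> norm_num [ind, sg]
  have sq : sg neg * sg neg = 1 := ng_sq neg
  have ngs : ng neg = sg neg := rfl
  rw [ngs]
  rcases h01 v1 with rfl | rfl <;> rcases h01 v2 with rfl | rfl <;> fin_cases c <;>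
    cases f <;> cases a <;>
    simp [A4, ν4, nz, ez, pw, hz0, hz1, t2, Prod.ext_iff, inda, indF, sgx, sgt, sgf,
      indb, indn, sgn', sge] <;>
    first
      | ring1
      | linear_combination (sg h * sg b * sg g * sg e * sg d * (1 / 4)) * sq

end Pool.Agent.H457.A
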