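import Pool.Agent.H457.A.Loc

set_option autoImplicit false
set_option linter.unusedSectionVars false

/-! The local identities for the moments: the constants. -/

namespace Pool.Agent.H457.A

open Finset Pool.Agent.W262.RK Pool.Agent.W108.RK Pool.Agent.W762.RK2

variable {J : Type} [Fintype J] [DecidableEq J] {k : ℕ}

/-- the types of the `k`-th moment -/
def P4 (k : ℕ) (cls : J → Fin 4) (f : J → Bool) (j : J) (v x : Vk k) : Bool :=
  decide (∀ r, A4 (cls j) (v r) (x r) = true) &&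
    decide (∑ r, ν4 (f j) (cls j) (v r) (x r) = 0)

/-- the weights of the `k`-th moment -/
noncomputable def W4 (k : ℕ) (cls : J → Fin 4) (j : J) : ℝ :=
  (if cls j = 3 then 1 / 4 else 1 / 2) ^ k

/-- power with an exponent modulo two -/
def pz (m : ℤ) (a : ZMod 2) : ℤ := if a = 1 then m else 1

/-- the constants of the `k`-th moment -/
def kc4 (cls : J → Fin 4) (κ : J → Fin 3 → ℤ) (j : J) (v x : Vk k) : ℤ :=
  if cls j = 3 then
    pz (-1) (∑ r, (x r).2 * (v r).2) *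
    pz (κ j 0) (∑ r, ((v r).1 + (v r).2) * ((x r).1 + (x r).2)) *
    pz (κ j 1) (∑ r, (x r).1 * (v r).2) * pz (κ j 2) (∑ r, (x r).2 * (v r).1)
  else pz (κ j 0) (∑ r, nz (v r) (x r))

/-- the local conditions -/
def LC4 (cls : J → Fin 4) (f : J → Bool) (κ : J → Fin 3 → ℤ) (j : J) (neg : Bool) (p : ℕ)
    (v w h g : Bool) : Prop := LF (f j) (cls j) (κ j) neg p v w h g

lemma Jr_pz (m : ℤ) (a : ZMod 2) (p : ℕ) : Jr (pz m a) p = pw (Jr m p) a := by
  unfold pz pw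
  split_ifs
  · rfl
  · exact Jr_one_left p

lemma Jr_sq {p : ℕ} (hp : p.Prime) {m : ℤ} (hm : ¬ (p : ℤ) ∣ m) : Jr m p * Jr m p = 1 := by
  rw [Jr_dvd_ne hp hm]
  unfold sg
  split_ifs <;> norm_num

lemma locId4 (cls : J → Fin 4) (f : J → Bool) (κ : J → Fin 3 → ℤ) {p : ℕ} (hp : p.Prime)
    (hp2 : p ≠ 2) (hk : ∀ j i, ¬ (p : ℤ) ∣ κ j i) :
    LocId (P4 k cls f) (W4 k cls) (kc4 cls κ) (LC4 cls f κ) p := by
  intro j v h g
  have hpi : Prime (p : ℤ) := Nat.prime_iff_prime_int.1 hp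
  have h1 : ¬ (p : ℤ) ∣ -1 := by
    intro h'
    have h2 : (p : ℤ) ∣ 1 := (dvd_neg).1 h'
    exact hpi.not_isUnit (isUnit_of_dvd_one h2)
  have hmain := loc_prod (loc1_LF (f j) (cls j) (κ j) hp hp2 (hk j)) v h g
  unfold LC4
  rw [hmain]
  refine sum_congr rfl fun x _ => ?_
  unfold P4
  refine if_congr Iff.rfl ?_ rfl
  unfold W4
  congr 2
  unfold kc4 K4
  by_cases hc : cls j = 3
  · simp only [if_pos hc]
    rw [Jr_mul_left, Jr_mul_left, Jr_mul_left, Jr_pz, Jr_pz, Jr_pz, Jr_pz,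
      pw_sum (Jr_sq hp h1), pw_sum (Jr_sq hp (hk j 0)), pw_sum (Jr_sq hp (hk j 1)),
      pw_sum (Jr_sq hp (hk j 2)), prod_mul_distrib, prod_mul_distrib, prod_mul_distrib]
  · simp only [if_neg hc]
    rw [Jr_pz, pw_sum (Jr_sq hp (hk j 0))]

lemma pair0 : ∀ (c : Fin 4) (v x : Z2), c ≠ 3 → A4 c v x = true →
    x.1 * v.1 + x.2 * v.2 = 0 := by
  decide

lemma orth4 (cls : J → Fin 4) (f : J → Bool) (j : J) (v x : Vk k)
    (h : P4 k cls f j v x = true) : dt x v = 0 := by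
  unfold P4 at h
  rw [Bool.and_eq_true, decide_eq_true_eq, decide_eq_true_eq] at h
  obtain ⟨h1, h2⟩ := h
  unfold dt
  by_cases hc : cls j = 3
  · unfold ν4 at h2
    simp only [if_pos hc] at h2
    exact h2
  · exact sum_eq_zero fun r _ => pair0 _ _ _ hc (h1 r)

lemma pz_abs (m : ℤ) (hm : m ≠ 0) (a : ZMod 2) : (pz m a).natAbs ≤ m.natAbs ∧ pz m a ≠ 0 := by
  have h1 := Int.natAbs_pos.2 hm
  unfold pz
  split_ifs
  · exact ⟨le_rfl, hm⟩
  · refine ⟨?_, one_ne_zero⟩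
    simp only [Int.natAbs_one]
    omega

lemma kc4_bd (cls : J → Fin 4) (κ : J → Fin 3 → ℤ) (hκ : ∀ j i, κ j i ≠ 0) (j : J) (v x : Vk k) :
    (kc4 cls κ j v x).natAbs ≤ (κ j 0).natAbs * (κ j 1).natAbs * (κ j 2).natAbs ∧
      kc4 cls κ j v x ≠ 0 := by
  have h0 := Int.natAbs_pos.2 (hκ j 0)
  have h1 := Int.natAbs_pos.2 (hκ j 1)
  have h2 := Int.natAbs_pos.2 (hκ j 2)
  unfold kc4
  split_ifs
  · have a0 := pz_abs (-1) (by norm_num) (∑ r, (x r).2 * (v r).2)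
    have a1 := pz_abs (κ j 0) (hκ j 0) (∑ r, ((v r).1 + (v r).2) * ((x r).1 + (x r).2))
    have a2 := pz_abs (κ j 1) (hκ j 1) (∑ r, (x r).1 * (v r).2)
    have a3 := pz_abs (κ j 2) (hκ j 2) (∑ r, (x r).2 * (v r).1)
    refine ⟨?_, mul_ne_zero (mul_ne_zero (mul_ne_zero a0.2 a1.2) a2.2) a3.2⟩
    rw [Int.natAbs_mul, Int.natAbs_mul, Int.natAbs_mul]
    have e0 := a0.1
    simp only [Int.natAbs_neg, Int.natAbs_one] at e0
    calc _ ≤ 1 * (κ j 0).natAbs * (κ j 1).natAbs * (κ j 2).natAbs :=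
          Nat.mul_le_mul (Nat.mul_le_mul (Nat.mul_le_mul e0 a1.1) a2.1) a3.1
      _ = _ := by ring
  · have a1 := pz_abs (κ j 0) (hκ j 0) (∑ r, nz (v r) (x r))
    refine ⟨a1.1.trans ?_, a1.2⟩
    rw [mul_assoc]
    exact Nat.le_mul_of_pos_right _ (by positivity)

end Pool.Agent.H457.A
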