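import Mathlib
import Pool.Graph.R_seed8.W29.RT.LOW4

/-!
# There are many curves with full rational 2-torsion (copy of `Pool.Agent.H514.LowTwo`)
-/

set_option autoImplicit false

namespace Pool.Agent.H457.B

open Finset Pool.Agent.W307.RT WeierstrassCurve Pool.Agent.W29.RT

/-- the curve with the roots `a`, `b`, `-a-b` -/
def c2 (t : ℕ × ℕ) : ℤ × ℤ :=
  (-((t.1 : ℤ) ^ 2 + t.1 * t.2 + (t.2 : ℤ) ^ 2), (t.1 : ℤ) * t.2 * (t.1 + t.2))

lemma hasT2 {A B : ℤ} {a b : ℚ} (hA : (A : ℚ) = -(a ^ 2 + a * b + b ^ 2))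
    (hB : (B : ℚ) = a * b * (a + b)) (h1 : a ≠ b) (h2 : 2 * a + b ≠ 0) (h3 : a + 2 * b ≠ 0) :
    HasT 2 (Sh A B) := by
  have hP : (Sh A B).toAffine.Nonsingular a 0 := by
    apply nons _ (Or.inr _)
    · rw [hA, hB]; ring
    · rw [hA]
      have : 3 * a ^ 2 + -(a ^ 2 + a * b + b ^ 2) = (a - b) * (2 * a + b) := by ring
      rw [this]
      exact mul_ne_zero (sub_ne_zero.2 h1) h2
  have hQ : (Sh A B).toAffine.Nonsingular b 0 := by
    apply nons _ (Or.inr _)
    · rw [hA, hB]; ring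
    · rw [hA]
      have : 3 * b ^ 2 + -(a ^ 2 + a * b + b ^ 2) = (b - a) * (a + 2 * b) := by ring
      rw [this]
      exact mul_ne_zero (sub_ne_zero.2 h1.symm) h3
  set P : (Sh A B).toAffine.Point := .some _ _ hP with hPd
  set Q : (Sh A B).toAffine.Point := .some _ _ hQ with hQd
  have hPP : P + P = 0 := by
    rw [hPd]
    apply Affine.Point.add_self_of_Y_eq
    rw [neg_y]; simp
  have hQQ : Q + Q = 0 := by
    rw [hQd]
    apply Affine.Point.add_self_of_Y_eq
    rw [neg_y]; simp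
  have hP0 : P ≠ 0 := Affine.Point.some_ne_zero _
  have hQ0 : Q ≠ 0 := Affine.Point.some_ne_zero _
  have hPQ : Q ≠ P := by
    intro h
    rw [hPd, hQd] at h
    have := (Affine.Point.some.inj h).1
    exact h1 this.symm
  refine ⟨P, Q, ?_, ?_, ?_⟩
  · exact addOrderOf_eq_prime (by rw [two_nsmul]; exact hPP) hP0
  · exact addOrderOf_eq_prime (by rw [two_nsmul]; exact hQQ) hQ0
  · intro h
    rw [AddSubgroup.mem_zmultiples_iff] at h
    obtain ⟨k, hk⟩ := h
    rcases Int.even_or_odd' k with ⟨m, hm | hm⟩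
    · apply hQ0
      rw [← hk, hm, mul_comm, mul_zsmul, two_zsmul, hPP, zsmul_zero]
    · apply hPQ
      rw [← hk, hm, add_zsmul, one_zsmul, mul_comm, mul_zsmul, two_zsmul, hPP, zsmul_zero, zero_add]

theorem mem_cv2 {T H a b : ℕ} (hb : 1 ≤ b) (hab : b < a) (haT : a ≤ T) (hc : a.Coprime b)
    (hH : 108 * T ^ 6 ≤ H) : c2 (a, b) ∈ Cv 2 H := by
  have hcI : IsCoprime (a : ℤ) (b : ℤ) := Nat.isCoprime_iff_coprime.2 hc
  have hbI : (1 : ℤ) ≤ b := by exact_mod_cast hb
  have habI : (b : ℤ) < a := by exact_mod_cast hab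
  have haTI : (a : ℤ) ≤ T := by exact_mod_cast haT
  have hHI : 108 * (T : ℤ) ^ 6 ≤ H := by exact_mod_cast hH
  set x : ℤ := (a : ℤ) with hx
  set y : ℤ := (b : ℤ) with hy
  have hT1 : (1 : ℤ) ≤ T := by linarith
  have hxT : x ^ 2 ≤ (T : ℤ) ^ 2 := pow_le_pow_left₀ (by linarith) haTI 2
  have hyT : y ^ 2 ≤ (T : ℤ) ^ 2 := pow_le_pow_left₀ (by linarith) (by linarith) 2
  have hxyT : x * y ≤ (T : ℤ) ^ 2 := by nlinarith
  have hxy0 : 0 < x * y := by nlinarith
  have hA0 : 0 ≤ x ^ 2 + x * y + y ^ 2 := by positivity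
  have hA : x ^ 2 + x * y + y ^ 2 ≤ 3 * (T : ℤ) ^ 2 := by linarith
  have hB0 : 0 ≤ x * y * (x + y) := by
    apply mul_nonneg hxy0.le
    linarith
  have hB : x * y * (x + y) ≤ 2 * (T : ℤ) ^ 3 := by
    calc x * y * (x + y) ≤ (T : ℤ) ^ 2 * (2 * T) := by
          apply mul_le_mul hxyT (by linarith) (by linarith) (by positivity)
      _ = 2 * (T : ℤ) ^ 3 := by ring
  have e1 : |(c2 (a, b)).1| = x ^ 2 + x * y + y ^ 2 := by
    unfold c2
    simp only
    rw [abs_neg, abs_of_nonneg hA0]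
  have hc1 : 4 * |(c2 (a, b)).1| ^ 3 ≤ H := by
    rw [e1]
    have h1 : (x ^ 2 + x * y + y ^ 2) ^ 3 ≤ (3 * (T : ℤ) ^ 2) ^ 3 := pow_le_pow_left₀ hA0 hA 3
    calc 4 * (x ^ 2 + x * y + y ^ 2) ^ 3 ≤ 4 * (3 * (T : ℤ) ^ 2) ^ 3 := by linarith
      _ = 108 * (T : ℤ) ^ 6 := by ring
      _ ≤ H := hHI
  have hc2 : 27 * (c2 (a, b)).2 ^ 2 ≤ H := by
    unfold c2
    simp only
    have h1 : (x * y * (x + y)) ^ 2 ≤ (2 * (T : ℤ) ^ 3) ^ 2 := pow_le_pow_left₀ hB0 hB 2
    calc 27 * (x * y * (x + y)) ^ 2 ≤ 27 * (2 * (T : ℤ) ^ 3) ^ 2 := by linarith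
      _ = 108 * (T : ℤ) ^ 6 := by ring
      _ ≤ H := hHI
  have b1 : |(c2 (a, b)).1| ≤ H := by
    have h1 := abs_le_cube (c2 (a, b)).1
    have h2 : 0 ≤ |(c2 (a, b)).1| := abs_nonneg _
    linarith
  have b2 : |(c2 (a, b)).2| ≤ H := by
    have h1 := abs_le_sq (c2 (a, b)).2
    have h2 : 0 ≤ (c2 (a, b)).2 ^ 2 := sq_nonneg _
    linarith
  have hne : 4 * (c2 (a, b)).1 ^ 3 + 27 * (c2 (a, b)).2 ^ 2 ≠ 0 := by
    have : 4 * (c2 (a, b)).1 ^ 3 + 27 * (c2 (a, b)).2 ^ 2 =
        -((x - y) * (2 * x + y) * (x + 2 * y)) ^ 2 := by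
      unfold c2
      simp only
      ring
    rw [this]
    have h1 : (x - y) * (2 * x + y) * (x + 2 * y) ≠ 0 := by
      apply ne_of_gt
      apply mul_pos
      · apply mul_pos <;> linarith
      · linarith
    exact neg_ne_zero.2 (pow_ne_zero 2 h1)
  unfold Cv
  simp only [mem_filter, mem_product, mem_Icc]
  refine ⟨⟨abs_le.1 b1, abs_le.1 b2⟩, hne, hc1, hc2, fun p hp h => ?_, ?_⟩
  · have hpi : Prime (p : ℤ) := Nat.prime_iff_prime_int.1 hp
    have d1 : (p : ℤ) ∣ x ^ 2 + x * y + y ^ 2 := by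
      have h1 : (p : ℤ) ∣ (c2 (a, b)).1 := (dvd_pow_self (p : ℤ) four_ne_zero).trans h.1
      unfold c2 at h1
      simp only at h1
      rw [dvd_neg] at h1
      exact h1
    have d2 : (p : ℤ) ∣ x * y * (x + y) := by
      have h1 : (p : ℤ) ∣ (c2 (a, b)).2 := (dvd_pow_self (p : ℤ) (by norm_num)).trans h.2
      unfold c2 at h1
      exact h1
    have key : (p : ℤ) ∣ x ∧ (p : ℤ) ∣ y := by
      rcases hpi.dvd_or_dvd d2 with h1 | h1
      · rcases hpi.dvd_or_dvd h1 with h2 | h2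
        · have h3 : (p : ℤ) ∣ y ^ 2 := by
            have h4 : (p : ℤ) ∣ x ^ 2 + x * y := by
              have : x ^ 2 + x * y = x * (x + y) := by ring
              rw [this]
              exact h2.mul_right _
            exact (dvd_add_right h4).1 d1
          exact ⟨h2, hpi.dvd_of_dvd_pow h3⟩
        · have h3 : (p : ℤ) ∣ x ^ 2 := by
            have h4 : (p : ℤ) ∣ x * y + y ^ 2 := by
              have : x * y + y ^ 2 = y * (x + y) := by ring
              rw [this]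
              exact h2.mul_right _
            have h5 : x ^ 2 + x * y + y ^ 2 = x ^ 2 + (x * y + y ^ 2) := by ring
            rw [h5] at d1
            exact (dvd_add_left h4).1 d1
          exact ⟨hpi.dvd_of_dvd_pow h3, h2⟩
      · have h3 : (p : ℤ) ∣ x * y := by
          have h4 : (p : ℤ) ∣ (x + y) * (x + y) := h1.mul_right _
          have h5 : x * y = (x + y) * (x + y) - (x ^ 2 + x * y + y ^ 2) := by ring
          rw [h5]
          exact dvd_sub h4 d1
        rcases hpi.dvd_or_dvd h3 with h4 | h4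
        · exact ⟨h4, (dvd_add_right h4).1 h1⟩
        · exact ⟨(dvd_add_left h4).1 h1, h4⟩
    exact hpi.not_isUnit (hcI.isUnit_of_dvd' key.1 key.2)
  · apply hasT2 (a := (x : ℚ)) (b := (y : ℚ))
    · unfold c2
      simp only [hx, hy]
      push_cast
      ring
    · unfold c2
      simp only [hx, hy]
      push_cast
      ring
    · intro h
      have : x = y := by exact_mod_cast h
      linarith
    · intro h
      have : 2 * x + y = 0 := by exact_mod_cast h
      linarith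
    · intro h
      have : x + 2 * y = 0 := by exact_mod_cast h
      linarith

lemma c2_inj {a b a' b' : ℤ} (hb : 1 ≤ b) (hab : b < a) (hb' : 1 ≤ b') (hab' : b' < a')
    (h1 : -(a ^ 2 + a * b + b ^ 2) = -(a' ^ 2 + a' * b' + b' ^ 2))
    (h2 : a * b * (a + b) = a' * b' * (a' + b')) : a = a' ∧ b = b' := by
  have H : ∀ x : ℤ, (x - a) * (x - b) * (x - (-a - b)) =
      (x - a') * (x - b') * (x - (-a' - b')) := by
    intro x
    linear_combination x * h1 + h2
  have t1 := top_root H (by linarith) (by linarith) (by linarith) (by linarith)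
  subst t1
  refine ⟨rfl, ?_⟩
  have h3 : (b - b') * (a + b + b') = 0 := by linear_combination -h1
  rcases mul_eq_zero.1 h3 with h4 | h4
  · linarith
  · exfalso
    linarith

theorem low2 : LOW 2 6 := by
  refine ⟨1 / 24, 108, 5, by norm_num, fun T H hT hH => ?_⟩
  have h1 : (SS T).card ≤ (Cv 2 H).card := by
    apply card_le_card_of_injOn (fun t => c2 (t.1, t.2))
    · intro t ht
      have ht' : t ∈ SS T := ht
      unfold SS at ht'
      rw [mem_sigma, mem_Icc, mem_filter, mem_range] at ht'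
      obtain ⟨⟨k1, k2⟩, k3, k4⟩ := ht'
      have hb : 1 ≤ t.2 := by
        rcases Nat.eq_zero_or_pos t.2 with h | h
        · rw [h, Nat.coprime_zero_right] at k4; omega
        · exact h
      exact mem_cv2 hb k3 k2 k4 hH
    · intro t ht t' ht' h
      have ht1 : t ∈ SS T := ht
      have ht1' : t' ∈ SS T := ht'
      unfold SS at ht1 ht1'
      rw [mem_sigma, mem_Icc, mem_filter, mem_range] at ht1 ht1'
      obtain ⟨⟨k1, k2⟩, k3, k4⟩ := ht1
      obtain ⟨⟨k1', k2'⟩, k3', k4'⟩ := ht1'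
      have hb : 1 ≤ t.2 := by
        rcases Nat.eq_zero_or_pos t.2 with h | h
        · rw [h, Nat.coprime_zero_right] at k4; omega
        · exact h
      have hb' : 1 ≤ t'.2 := by
        rcases Nat.eq_zero_or_pos t'.2 with h | h
        · rw [h, Nat.coprime_zero_right] at k4'; omega
        · exact h
      have h' : c2 (t.1, t.2) = c2 (t'.1, t'.2) := h
      simp only [c2, Prod.mk.injEq] at h'
      obtain ⟨e1, e2⟩ := c2_inj (by exact_mod_cast hb) (by exact_mod_cast k3)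
        (by exact_mod_cast hb') (by exact_mod_cast k3') h'.1 h'.2
      have e1' : t.1 = t'.1 := by exact_mod_cast e1
      have e2' : t.2 = t'.2 := by exact_mod_cast e2
      exact Sigma.ext e1' (heq_of_eq e2')
  have h2 := card_SS T hT
  have h3 : (T : ℝ) ^ 2 ≤ 24 * ((SS T).card : ℝ) := by exact_mod_cast h2
  have h4 : ((SS T).card : ℝ) ≤ ((Cv 2 H).card : ℝ) := by exact_mod_cast h1
  linarith

end Pool.Agent.H457.B
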