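import Mathlib
import Pool.Graph.R_seed8.H373R2.T7.LamMaj
import Pool.Graph.R_seed8.W586.RK.UB

set_option autoImplicit false

/-! Sums of real characters over the primes of an interval, from Siegel-Walfisz. -/

namespace Pool.Agent.H457.A

open Finset Filter Pool.Agent.W262.RK Pool.Agent.W586.RK.UB

/-- Siegel-Walfisz for primes -/
lemma sw_pi (U K : ℕ) : ∃ y0 : ℕ, ∀ y : ℕ, y0 ≤ y → ∀ q : ℕ, 1 ≤ q → (q : ℝ) ≤ Real.log y ^ K →
    ∀ c : ℕ, c.Coprime q → |H343E.piAP y q c - H343E.pi1 y / (Nat.totient q : ℝ)| ≤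
      y / Real.log y ^ U := by
  obtain ⟨B, X0, h0⟩ := H343E.primes_of U (H343E.unsmoothed (U + 2))
  obtain ⟨x1, h1⟩ := Pool.Agent.H373R2.T7.ev_log' (2 * K + B) 1
  obtain ⟨x2, h2⟩ := Pool.Agent.H373R2.T7.ev_L' 1
  refine ⟨max (max X0 x1) (max x2 1), fun y hy q hq hqy c hcop => ?_⟩
  have hy0 : X0 ≤ y := le_trans (le_trans (le_max_left _ _) (le_max_left _ _)) hy
  have hy1 : x1 ≤ y := le_trans (le_trans (le_max_right _ _) (le_max_left _ _)) hy
  have hy2 : x2 ≤ y := le_trans (le_trans (le_max_left _ _) (le_max_right _ _)) hy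
  have hy3 : 1 ≤ y := le_trans (le_trans (le_max_right _ _) (le_max_right _ _)) hy
  have hyR : (1 : ℝ) ≤ y := by exact_mod_cast hy3
  have hL := h2 y hy2
  have hL0 : 0 < Real.log y := by linarith
  have hA := h1 y hy1
  rw [one_mul, pow_add, pow_mul'] at hA
  have hsq : √(y : ℝ) ≤ y := by
    rw [Real.sqrt_le_left (by positivity)]
    nlinarith
  have hq1 : (1 : ℝ) ≤ q := by exact_mod_cast hq
  have hD2 : (q : ℝ) ^ 2 ≤ 1 * y / Real.log y ^ B := by
    rw [le_div_iff₀ (by positivity), one_mul]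
    refine le_trans ?_ (hA.trans hsq)
    gcongr
  have hD1 : (q : ℝ) ≤ y / Real.log y ^ B := by
    rw [one_mul] at hD2
    refine le_trans ?_ hD2
    nlinarith
  have hcc : (c % q).Coprime q := by
    unfold Nat.Coprime
    rw [(Nat.mod_modEq c q).gcd_eq]
    exact hcop
  have h4 := h0 y hy0 1 le_rfl q hD1 hD2 (fun q' => if q' = q then {c % q} else ∅)
    ⟨fun q' a ha => by
      split_ifs at ha with hh
      · rw [mem_singleton] at ha
        rw [ha, hh]
        exact ⟨Nat.mod_lt _ (by omega), hcc⟩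
      · simp at ha, fun q' => by
      split_ifs <;> simp⟩
  rw [one_mul] at h4
  refine le_trans ?_ h4
  have h5 := single_le_sum (f := fun q' => ∑ a ∈ (if q' = q then ({c % q} : Finset ℕ) else ∅),
    |H343E.piAP y q' a - H343E.pi1 y / (Nat.totient q' : ℝ)|)
    (s := Icc 1 q) (fun i _ => sum_nonneg (fun _ _ => abs_nonneg _)) (mem_Icc.2 ⟨hq, le_rfl⟩)
  refine le_trans (le_of_eq ?_) h5
  simp only [if_true, sum_singleton]
  have e1 : H343E.piAP y q c = H343E.piAP y q (c % q) := by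
    unfold H343E.piAP
    congr 2
    apply filter_congr
    intro n _
    unfold Nat.ModEq
    rw [Nat.mod_mod]
  rw [e1]

/-- the sum of a character over the primes -/
lemma char_pi {f : ℕ → ℝ} {q : ℕ} (hq : 1 ≤ q) (hf1 : ∀ n, |f n| ≤ 1)
    (hper : Function.Periodic f q) (hz : ∑ n ∈ range q, f n = 0)
    (hcop : ∀ n, f n ≠ 0 → n.Coprime q) {x : ℕ} {η : ℝ}
    (hsw : ∀ c : ℕ, c.Coprime q → |H343E.piAP x q c - H343E.pi1 x / (Nat.totient q : ℝ)| ≤ η)
    (hη : 0 ≤ η) :
    |∑ p ∈ (Icc 1 x).filter Nat.Prime, f p| ≤ q * η := by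
  have h1 : ∑ p ∈ (Icc 1 x).filter Nat.Prime, f p =
      ∑ a ∈ range q, f a * H343E.piAP x q a := by
    have h2 : ∀ p ∈ (Icc 1 x).filter Nat.Prime, p % q ∈ range q := fun p _ =>
      mem_range.2 (Nat.mod_lt _ (by omega))
    rw [← sum_fiberwise_of_maps_to h2]
    refine sum_congr rfl fun a ha => ?_
    rw [mem_range] at ha
    have h3 : ∀ p ∈ ((Icc 1 x).filter Nat.Prime).filter (fun p => p % q = a), f p = f a := by
      intro p hp
      rw [mem_filter] at hp
      rw [← hp.2]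
      exact (hper.map_mod_nat p).symm
    rw [sum_congr rfl h3, sum_const, nsmul_eq_mul, mul_comm]
    congr 1
    unfold H343E.piAP
    rw [filter_filter]
    norm_cast
    congr 1
    apply filter_congr
    intro n _
    unfold Nat.ModEq
    rw [Nat.mod_eq_of_lt ha]
  have h4 : ∑ a ∈ range q, f a * H343E.piAP x q a =
      ∑ a ∈ range q, f a * (H343E.piAP x q a - H343E.pi1 x / (Nat.totient q : ℝ)) := by
    have h5 : ∀ a, f a * (H343E.piAP x q a - H343E.pi1 x / (Nat.totient q : ℝ)) =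
        f a * H343E.piAP x q a - f a * (H343E.pi1 x / (Nat.totient q : ℝ)) := fun a => by ring
    simp only [h5]
    rw [sum_sub_distrib, ← sum_mul, hz, zero_mul, sub_zero]
  rw [h1, h4]
  refine (abs_sum_le_sum_abs _ _).trans ?_
  calc ∑ a ∈ range q, |f a * (H343E.piAP x q a - H343E.pi1 x / (Nat.totient q : ℝ))|
      ≤ ∑ a ∈ range q, η := by
        refine sum_le_sum fun a _ => ?_
        by_cases h : f a = 0
        · rw [h, zero_mul, abs_zero]
          exact hη
        · rw [abs_mul]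
          calc _ ≤ 1 * η := mul_le_mul (hf1 a) (hsw a (hcop a h)) (abs_nonneg _) zero_le_one
            _ = η := one_mul _
    _ = q * η := by simp

/-- partial summation -/
lemma psum {a : ℕ → ℝ} {u v : ℕ} {η : ℝ} (c : ℕ) (hcu : 2 * c + 2 ≤ u) (huv : u ≤ v)
    (hη : 0 ≤ η) (hA : ∀ n, u ≤ n → n ≤ v → |∑ m ∈ Icc 1 n, a m| ≤ η * n) :
    |∑ n ∈ Ioc u v, a n / ((n : ℝ) - c)| ≤ η * (8 + 4 * Real.log v) := by
  set A : ℕ → ℝ := fun n => ∑ m ∈ Icc 1 n, a m with hAdef
  have hstep : ∀ n, A (n + 1) = A n + a (n + 1) := by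
    intro n
    rw [hAdef]
    simp only
    rw [← Finset.insert_Icc_right_eq_Icc_add_one (by omega), sum_insert (by simp)]
    ring
  have hg : ∀ n : ℕ, u ≤ n → (0 : ℝ) < (n : ℝ) - c ∧ (n : ℝ) ≤ 2 * ((n : ℝ) - c) := by
    intro n hn
    have h1 : (2 * c + 2 : ℝ) ≤ n := by exact_mod_cast hcu.trans hn
    have h2 : (0 : ℝ) ≤ c := Nat.cast_nonneg c
    constructor <;> linarith
  -- the identity
  have hid : ∀ n, u ≤ n → n ≤ v → ∃ E : ℝ, ∑ m ∈ Ioc u n, a m / ((m : ℝ) - c) =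
      A n / ((n : ℝ) - c) - A u / ((u : ℝ) - c) + E ∧
      |E| ≤ η * ∑ m ∈ Ioc u n, 4 / (m : ℝ) := by
    intro n hn
    induction n, hn using Nat.le_induction with
    | base => intro _; exact ⟨0, by simp, by simp⟩
    | succ n hn ih =>
      intro hnv
      obtain ⟨E, hE1, hE2⟩ := ih (by omega)
      obtain ⟨g1, g2⟩ := hg n hn
      obtain ⟨g3, g4⟩ := hg (n + 1) (by omega)
      have hI : Ioc u (n + 1) = insert (n + 1) (Ioc u n) := by
        ext x
        simp only [mem_Ioc, mem_insert]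
        omega
      have hni : n + 1 ∉ Ioc u n := by simp
      refine ⟨E + A n * (1 / ((n : ℝ) - c) - 1 / (((n + 1 : ℕ) : ℝ) - c)), ?_, ?_⟩
      · rw [hI, sum_insert hni, hE1, hstep n]
        have e1 := g1.ne'
        have e2 := g3.ne'
        field_simp
        ring
      · rw [hI, sum_insert hni, mul_add]
        have h1 : |A n * (1 / ((n : ℝ) - c) - 1 / (((n + 1 : ℕ) : ℝ) - c))| ≤
            η * (4 / ((n + 1 : ℕ) : ℝ)) := by
          have h2 : 1 / ((n : ℝ) - c) - 1 / (((n + 1 : ℕ) : ℝ) - c) =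
              1 / (((n : ℝ) - c) * (((n + 1 : ℕ) : ℝ) - c)) := by
            push_cast at g3 ⊢
            have e1 := g1.ne'
            have e2 := g3.ne'
            field_simp
            ring
          rw [h2, abs_mul, abs_of_pos (by positivity : (0 : ℝ) <
            1 / (((n : ℝ) - c) * (((n + 1 : ℕ) : ℝ) - c)))]
          have h3 := hA n hn (by omega)
          have h5 : (n : ℝ) * (1 / (((n : ℝ) - c) * (((n + 1 : ℕ) : ℝ) - c))) ≤
              2 / ((n + 1 : ℕ) : ℝ) * 2 := by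
            have hn1 : (0 : ℝ) < ((n + 1 : ℕ) : ℝ) := by positivity
            rw [mul_one_div, div_le_iff₀ (by positivity), div_mul_eq_mul_div, div_mul_eq_mul_div,
              le_div_iff₀ hn1]
            nlinarith
          have h6 : (n : ℝ) * (1 / (((n : ℝ) - c) * (((n + 1 : ℕ) : ℝ) - c))) ≤
              4 / ((n + 1 : ℕ) : ℝ) := h5.trans (le_of_eq (by ring))
          calc |A n| * (1 / (((n : ℝ) - c) * (((n + 1 : ℕ) : ℝ) - c)))
              ≤ (η * n) * (1 / (((n : ℝ) - c) * (((n + 1 : ℕ) : ℝ) - c))) :=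
                mul_le_mul_of_nonneg_right h3 (by positivity)
            _ = η * (n * (1 / (((n : ℝ) - c) * (((n + 1 : ℕ) : ℝ) - c)))) := by ring
            _ ≤ _ := mul_le_mul_of_nonneg_left h6 hη
        calc |E + A n * (1 / ((n : ℝ) - c) - 1 / (((n + 1 : ℕ) : ℝ) - c))| ≤ |E| +
            |A n * (1 / ((n : ℝ) - c) - 1 / (((n + 1 : ℕ) : ℝ) - c))| := abs_add_le _ _
          _ ≤ η * (4 / ((n + 1 : ℕ) : ℝ)) + η * ∑ m ∈ Ioc u n, 4 / (m : ℝ) := by linarith
  obtain ⟨E, hE1, hE2⟩ := hid v huv le_rfl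
  have hbd : ∀ n, u ≤ n → n ≤ v → |A n / ((n : ℝ) - c)| ≤ 2 * η := by
    intro n hn hnv
    obtain ⟨g1, g2⟩ := hg n hn
    rw [abs_div, abs_of_pos g1, div_le_iff₀ g1]
    have := hA n hn hnv
    nlinarith
  have h1 := hbd v huv le_rfl
  have h2 := hbd u le_rfl huv
  have h3 : ∑ m ∈ Ioc u v, 4 / (m : ℝ) ≤ 4 * (1 + Real.log v) := by
    have h4 : ∑ m ∈ Ioc u v, 4 / (m : ℝ) = 4 * ∑ m ∈ Ioc u v, (m : ℝ)⁻¹ := by
      rw [mul_sum]
      exact sum_congr rfl fun m _ => by ring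
    rw [h4]
    apply mul_le_mul_of_nonneg_left _ (by norm_num)
    have h5 : ∑ m ∈ Ioc u v, (m : ℝ)⁻¹ ≤ ∑ m ∈ Icc 1 v, (m : ℝ)⁻¹ := by
      apply sum_le_sum_of_subset_of_nonneg
      · intro m hm
        rw [mem_Ioc] at hm
        exact mem_Icc.2 ⟨by omega, hm.2⟩
      · intro m _ _
        positivity
    refine h5.trans ?_
    have h6 := harmonic_le_one_add_log v
    rw [harmonic_eq_sum_Icc] at h6
    push_cast at h6
    exact h6
  rw [hE1]
  have h7 : |A v / ((v : ℝ) - c) - A u / ((u : ℝ) - c) + E| ≤ 2 * η + 2 * η + |E| := by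
    refine (abs_add_le _ _).trans ?_
    have := abs_sub (A v / ((v : ℝ) - c)) (A u / ((u : ℝ) - c))
    linarith
  refine h7.trans ?_
  have h8 := hE2.trans (mul_le_mul_of_nonneg_left h3 hη)
  nlinarith

end Pool.Agent.H457.A
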