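import Pool.Agent.H457.A.NE1
import Pool.Graph.R_seed8.W262.RK.SymL

set_option autoImplicit false

/-! Sums of the real characters over the primes of an interval: uniform bound. -/

namespace Pool.Agent.H457.A

open Finset Filter Pool.Agent.W262.RK Pool.Agent.W586.RK.UB

lemma ff_cop {κ : ℤ} {r : ℕ} {e : Bool} {n : ℕ} (hr : r ≠ 0)
    (h : ff κ r e n ≠ 0) : n.Coprime (4 * κ.natAbs * r) := by
  rw [ff_apply] at h
  by_cases hodd : Odd n
  · rw [if_pos hodd] at h
    have h1 : Jr n r ≠ 0 := fun h' => h (by rw [h', zero_mul, zero_mul])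
    have h2 : Jr κ n ≠ 0 := fun h' => h (by rw [h', mul_zero, zero_mul])
    have hn0 : n ≠ 0 := by rintro rfl; simp at hodd
    have c1 : n.Coprime 4 := by
      have : n.Coprime 2 := hodd.coprime_two_right
      exact Nat.Coprime.pow_right 2 this
    have c2 : n.Coprime κ.natAbs := by
      by_contra hc
      apply h2
      unfold Jr
      have : jacobiSym κ n = 0 := by
        rw [jacobiSym.eq_zero_iff]
        refine ⟨hn0, ?_⟩
        rw [Int.gcd_comm]
        intro h'
        apply hc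
        unfold Nat.Coprime
        rw [← h']
        simp [Int.gcd]
      rw [this]
      simp
    have c3 : n.Coprime r := by
      by_contra hc
      exact h1 (Jr_eq_zero hr hc)
    exact (c1.mul_right c2).mul_right c3
  · rw [if_neg hodd] at h
    exact absurd rfl h

/-- **Prime sums of real characters.** -/
theorem ff_psum (κ : ℤ) (hκ : κ ≠ 0) (c A' B : ℕ) : ∀ᶠ y : ℕ in atTop, ∀ (r : ℕ) (e : Bool),
    1 ≤ r → (r : ℝ) ≤ Real.log y ^ A' →
    (∃ n0 : ℕ, n0.Coprime (4 * κ.natAbs * r) ∧ ff κ r e n0 = -1) →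
    ∀ u v : ℕ, Real.exp (√(Real.log y)) ≤ u → v ≤ y →
    |∑ p ∈ (Ioc u v).filter Nat.Prime, ff κ r e p / ((p : ℝ) - c)| ≤ 1 / Real.log y ^ B := by
  set K := 2 * A' + 2 with hK
  set U := 2 * (A' + B + 3) with hU
  obtain ⟨y0, hsw⟩ := sw_pi U K
  have hlog : Tendsto (fun y : ℕ => Real.log y) atTop atTop :=
    Real.tendsto_log_atTop.comp tendsto_natCast_atTop_atTop
  have hsq : Tendsto (fun y : ℕ => Real.exp (√(Real.log y))) atTop atTop :=
    Real.tendsto_exp_atTop.comp (Real.tendsto_sqrt_atTop.comp hlog)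
  filter_upwards [hlog.eventually_ge_atTop (4 * (κ.natAbs : ℝ)), hlog.eventually_ge_atTop 12,
    hsq.eventually_ge_atTop ((y0 : ℝ) + 2 * c + 2)] with y hy1 hy2 hy3
  intro r e hr1 hr hex u v hu hv
  set l := Real.log y with hl
  have hl0 : 0 < l := by linarith
  have huR : ((y0 : ℝ) + 2 * c + 2) ≤ u := hy3.trans hu
  have hu1 : y0 + 2 * c + 2 ≤ u := by exact_mod_cast huR
  rcases Nat.lt_or_ge v u with hvu | huv
  · rw [Ioc_eq_empty (by omega), filter_empty, sum_empty, abs_zero]
    positivity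
  set lam := √l with hlam
  have hlam0 : 0 < lam := Real.sqrt_pos.2 hl0
  have hlam2 : lam ^ 2 = l := Real.sq_sqrt hl0.le
  have hlogn : ∀ n : ℕ, u ≤ n → lam ≤ Real.log n := by
    intro n hn
    have hn0 : (0 : ℝ) < n := by exact_mod_cast (by omega : 0 < n)
    rw [Real.le_log_iff_exp_le hn0]
    exact hu.trans (by exact_mod_cast hn)
  have hκ0 : 0 < κ.natAbs := Int.natAbs_pos.2 hκ
  set q := 4 * κ.natAbs * r with hq
  have hq1 : 1 ≤ q := Nat.one_le_iff_ne_zero.2 (by positivity)
  have hqR : (q : ℝ) ≤ l ^ (A' + 1) := by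
    rw [hq]
    push_cast
    calc (4 * κ.natAbs * r : ℝ) ≤ l * l ^ A' :=
          mul_le_mul hy1 hr (Nat.cast_nonneg _) hl0.le
      _ = l ^ (A' + 1) := by ring
  have hqK : ∀ n : ℕ, u ≤ n → (q : ℝ) ≤ Real.log n ^ K := by
    intro n hn
    calc (q : ℝ) ≤ l ^ (A' + 1) := hqR
      _ = lam ^ K := by rw [← hlam2, ← pow_mul, hK]; ring_nf
      _ ≤ Real.log n ^ K := pow_le_pow_left₀ hlam0.le (hlogn n hn) K
  obtain ⟨n0, hn0, hn01⟩ := hex
  have hz0 : ∑ n ∈ range q, ff κ r e n = 0 :=
    sum_period (by omega) (ff_per κ r e) hn0 (fun n => by rw [map_mul, hn01]; ring)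
  set η : ℝ := 1 / l ^ (B + 2) with hη
  have hη0 : 0 ≤ η := by positivity
  have hA : ∀ n, u ≤ n → n ≤ v →
      |∑ m ∈ Icc 1 n, (if m.Prime then ff κ r e m else 0)| ≤ η * n := by
    intro n hn hnv
    rw [← sum_filter]
    have hLn := hlogn n hn
    have hLn0 : 0 < Real.log n := by linarith
    have h1 := char_pi (f := fun m => ff κ r e m) hq1 (ff_abs κ r e) (ff_per κ r e) hz0
      (fun m hm => ff_cop (by omega) hm) (x := n) (η := n / Real.log n ^ U)
      (fun c' hc' => hsw n (by omega) q hq1 (hqK n hn) c' hc') (by positivity)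
    refine h1.trans ?_
    have h2 : lam ^ U ≤ Real.log n ^ U := pow_le_pow_left₀ hlam0.le hLn U
    have h3 : lam ^ U = l ^ (A' + B + 3) := by rw [← hlam2, ← pow_mul]
    rw [h3] at h2
    have hn0 : (0 : ℝ) ≤ n := Nat.cast_nonneg n
    calc (q : ℝ) * (n / Real.log n ^ U) ≤ l ^ (A' + 1) * (n / l ^ (A' + B + 3)) := by
          apply mul_le_mul hqR _ (by positivity) (by positivity)
          exact div_le_div_of_nonneg_left hn0 (by positivity) h2
      _ = η * n := by
          rw [hη, show A' + B + 3 = (A' + 1) + (B + 2) by ring, pow_add l (A' + 1)]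
          field_simp
  have h1 := psum (a := fun m => if m.Prime then ff κ r e m else 0) (u := u) (v := v) (η := η) c
    (by omega) huv hη0 hA
  have h2 : ∑ p ∈ (Ioc u v).filter Nat.Prime, ff κ r e p / ((p : ℝ) - c) =
      ∑ n ∈ Ioc u v, (if n.Prime then ff κ r e n else 0) / ((n : ℝ) - c) := by
    rw [sum_filter]
    refine sum_congr rfl fun n _ => ?_
    split_ifs
    · rfl
    · rw [zero_div]
  rw [h2]
  refine h1.trans ?_
  have hlv : Real.log v ≤ l := by
    have hv0 : (0 : ℝ) < v := by exact_mod_cast (by omega : 0 < v)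
    exact Real.log_le_log hv0 (by exact_mod_cast hv)
  have h3 : 8 + 4 * Real.log v ≤ l ^ 2 := by nlinarith
  calc η * (8 + 4 * Real.log v) ≤ η * l ^ 2 := mul_le_mul_of_nonneg_left h3 hη0
    _ = 1 / l ^ B := by
      rw [hη, pow_add]
      field_simp

end Pool.Agent.H457.A
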