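import Pool.Agent.H457.A.NE2
import Pool.Agent.H457.A.ATt4

set_option autoImplicit false
set_option linter.unusedSectionVars false

/-! Splitting off the largest prime factor. -/

namespace Pool.Agent.H457.A

open Finset Filter Pool.Agent.W262.RK

lemma mem_dv_iff {z y m : ℕ} : m ∈ (PP z y).divisors ↔
    Squarefree m ∧ m.primeFactors ⊆ PS z y := by
  constructor
  · intro h
    refine ⟨dv_squarefree h, ?_⟩
    rw [← PP_primeFactors z y]
    exact Nat.primeFactors_mono (Nat.dvd_of_mem_divisors h) (PP_ne_zero _ _)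
  · rintro ⟨h1, h2⟩
    rw [Nat.mem_divisors]
    refine ⟨?_, PP_ne_zero _ _⟩
    rw [← Nat.prod_primeFactors_of_squarefree h1]
    exact Finset.prod_dvd_prod_of_subset _ _ _ h2

/-- the pairs (cofactor, largest prime) -/
def Pz (z y : ℕ) : Finset (ℕ × ℕ) :=
  ((PP z y).divisors ×ˢ PS z y).filter (fun q => ∀ r ∈ q.1.primeFactors, r < q.2)

/-- the largest prime factor -/
def mxp (m : ℕ) : ℕ := m.primeFactors.sup id

lemma mxp_mem {m : ℕ} (h : 1 < m) : mxp m ∈ m.primeFactors := by
  have hne : m.primeFactors.Nonempty := Nat.nonempty_primeFactors.2 h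
  unfold mxp
  have h1 := Finset.exists_mem_eq_sup m.primeFactors hne id
  obtain ⟨p, hp, he⟩ := h1
  rw [he]
  exact hp

lemma le_mxp {m p : ℕ} (h : p ∈ m.primeFactors) : p ≤ mxp m :=
  Finset.le_sup (f := id) h

/-- splitting off the largest prime factor -/
lemma sum_split (z y : ℕ) (F : ℕ → ℝ) (hF : F 1 = 0) :
    ∑ m ∈ (PP z y).divisors, F m = ∑ q ∈ Pz z y, F (q.1 * q.2) := by
  have h0 : ∑ m ∈ (PP z y).divisors, F m =
      ∑ m ∈ (PP z y).divisors.filter (fun m => m ≠ 1), F m := by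
    rw [sum_filter]
    refine sum_congr rfl fun m _ => ?_
    split_ifs with h
    · rfl
    · rw [not_not.1 h, hF]
  rw [h0]
  symm
  have hkey : ∀ q ∈ Pz z y, mxp (q.1 * q.2) = q.2 ∧ (q.1 * q.2) / q.2 = q.1 ∧
      q.1 * q.2 ∈ (PP z y).divisors ∧ q.1 * q.2 ≠ 1 := by
    rintro ⟨m, p⟩ hq
    unfold Pz at hq
    rw [mem_filter, mem_product] at hq
    obtain ⟨⟨hm, hp⟩, hlt⟩ := hq
    simp only at hm hp hlt ⊢
    have hpp : p.Prime := (mem_PS.1 hp).2
    have hm0 : m ≠ 0 := dv_ne_zero hm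
    have hpf : (m * p).primeFactors = m.primeFactors ∪ {p} := by
      rw [Nat.primeFactors_mul hm0 hpp.ne_zero, hpp.primeFactors]
    have hcop : m.Coprime p := by
      rw [Nat.coprime_comm, hpp.coprime_iff_not_dvd]
      intro hd
      exact absurd (hlt p (Nat.mem_primeFactors.2 ⟨hpp, hd, hm0⟩)) (lt_irrefl _)
    refine ⟨?_, Nat.mul_div_cancel _ hpp.pos, ?_, ?_⟩
    · unfold mxp
      rw [hpf, sup_union, sup_singleton]
      apply sup_eq_right.2
      apply Finset.sup_le
      intro r hr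
      exact (hlt r hr).le
    · rw [mem_dv_iff] at hm ⊢
      refine ⟨(Nat.squarefree_mul_iff.2 ⟨hcop, hm.1, hpp.squarefree⟩), ?_⟩
      rw [hpf]
      exact union_subset hm.2 (singleton_subset_iff.2 hp)
    · intro h
      have := Nat.eq_one_of_mul_eq_one_left h
      exact hpp.ne_one this
  refine sum_nbij' (fun q => q.1 * q.2) (fun m => (m / mxp m, mxp m)) ?_ ?_ ?_ ?_ ?_
  · intro q hq
    obtain ⟨-, -, h3, h4⟩ := hkey q hq
    exact mem_filter.2 ⟨h3, h4⟩
  · intro m hm
    rw [mem_filter] at hm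
    obtain ⟨hm, hm1⟩ := hm
    have hm0 : m ≠ 0 := dv_ne_zero hm
    have hP := mxp_mem (m := m) (by omega)
    have hsq := dv_squarefree hm
    obtain ⟨hPp, hPd, -⟩ := Nat.mem_primeFactors.1 hP
    have hdvd : m / mxp m ∣ m := Nat.div_dvd_of_dvd hPd
    unfold Pz
    rw [mem_filter, mem_product]
    simp only
    refine ⟨⟨?_, (mem_dv_iff.1 hm).2 hP⟩, ?_⟩
    · rw [mem_dv_iff] at hm ⊢
      exact ⟨hsq.squarefree_of_dvd hdvd,
        (Nat.primeFactors_mono hdvd hm0).trans hm.2⟩
    · intro r hr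
      have h1 : r ∈ m.primeFactors := Nat.primeFactors_mono hdvd hm0 hr
      have h2 := le_mxp h1
      rcases h2.lt_or_eq with h | h
      · exact h
      · exfalso
        rw [h] at hr
        have h3 : mxp m ∣ m / mxp m := (Nat.mem_primeFactors.1 hr).2.1
        have h4 : mxp m * mxp m ∣ m := by
          have := Nat.mul_dvd_mul_left (mxp m) h3
          rwa [Nat.mul_div_cancel' hPd] at this
        have h5 := hsq _ h4
        exact hPp.not_isUnit h5
  · intro q hq
    obtain ⟨h1, h2, -, -⟩ := hkey q hq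
    rw [h1, h2]
  · intro m hm
    rw [mem_filter] at hm
    have hm0 : m ≠ 0 := dv_ne_zero hm.1
    have hP := mxp_mem (m := m) (by omega)
    exact Nat.div_mul_cancel (Nat.mem_primeFactors.1 hP).2.1
  · intro q _
    rfl

end Pool.Agent.H457.A
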