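import Pool.Agent.H457.A.NE3

set_option autoImplicit false
set_option linter.unusedSectionVars false

/-! The sum over one large variable with a nonprincipal character and a condition on the number of
the prime factors: the part with two large prime factors. -/

namespace Pool.Agent.H457.A

open Finset Filter Pool.Agent.W262.RK Pool.Agent.W262.RK.AT Pool.Agent.W655.RK
open Pool.Agent.W586.RK.UB (ff ff_apply ff_abs)

variable {ι J : Type} [Fintype ι] [DecidableEq ι] [Fintype J] [DecidableEq J]

variable {w : ι → ℝ} {L : ι → ι → Bool} {κ : ι → ℤ} {c z : ℕ} {C : ℝ}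

/-- the sign of the character -/
def tt (L : ι → ι → Bool) (i : ι) (e : ι → ℕ) : Bool :=
  decide (Odd ((univ.erase i).filter (fun a => L a i = true ∧ e a % 4 = 3)).card)

lemma XX_char' (L : ι → ι → Bool) (i : ι) (e : ι → ℕ) (he : ∀ b, Odd (e b)) (m : ℕ) (hm : Odd m)
    (hc : ∀ b, b ≠ i → m.Coprime (e b)) :
    XX L i e m = Jr m (lk L i e) * x4 (tt L i e) m := by
  have key : ∀ s : Finset ι, s ⊆ univ.erase i →
      ∏ b ∈ s, ((if L i b then Jr m (e b) else 1) * (if L b i then Jr (e b) m else 1)) =
        Jr m (∏ b ∈ s.filter (fun b => L i b ≠ L b i), e b) *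
          x4 (decide (Odd (s.filter (fun a => L a i = true ∧ e a % 4 = 3)).card)) m := by
    intro s
    induction s using Finset.induction_on with
    | empty =>
      intro _
      simp [Jr_one_right, x4]
    | insert a s ha ih =>
      intro hs
      have ht := ih ((subset_insert a s).trans hs)
      have hai : a ≠ i := (mem_erase.1 (hs (mem_insert_self a s))).1
      have hP : ∏ b ∈ s.filter (fun b => L i b ≠ L b i), e b ≠ 0 :=
        prod_ne_zero_iff.2 fun b _ => (he b).pos.ne'
      have hpar : decide (Odd ((insert a s).filter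
          (fun a => L a i = true ∧ e a % 4 = 3)).card) =
          xor (L a i && decide (e a % 4 = 3))
            (decide (Odd (s.filter (fun a => L a i = true ∧ e a % 4 = 3)).card)) := by
        rw [filter_insert]
        by_cases h : L a i = true ∧ e a % 4 = 3
        · rw [if_pos h, card_insert_of_notMem (fun h' => ha (mem_filter.1 h').1), h.1,
            decide_eq_true h.2]
          by_cases ho : Odd (s.filter (fun a => L a i = true ∧ e a % 4 = 3)).card
          · have : ¬ Odd ((s.filter (fun a => L a i = true ∧ e a % 4 = 3)).card + 1) := by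
              rw [Nat.odd_add_one, not_not]
              exact ho
            rw [decide_eq_false this, decide_eq_true ho]
            rfl
          · have : Odd ((s.filter (fun a => L a i = true ∧ e a % 4 = 3)).card + 1) := by
              rw [Nat.odd_add_one]
              exact ho
            rw [decide_eq_true this, decide_eq_false ho]
            rfl
        · rw [if_neg h]
          have h2 : (L a i && decide (e a % 4 = 3)) = false := by
            rw [Bool.eq_false_iff]
            intro h3
            rw [Bool.and_eq_true, decide_eq_true_eq] at h3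
            exact h h3
          rw [h2, Bool.false_xor]
      rw [hpar, prod_insert ha, ht, filter_insert]
      have hrec := recip (he a) hm
      have hsq := Pool.Agent.W262.RK.Jr_sq (hc a hai)
      rw [← x4_mul hm]
      rcases h1 : L i a with _ | _ <;> rcases h2 : L a i with _ | _
      · simp [x4]
      · simp only [Bool.false_eq_true, if_false, if_true, one_mul, ne_eq, not_false_eq_true,
          Bool.true_and]
        rw [prod_insert (by simp [ha]), Jr_mul_right _ (he a).pos.ne' hP, hrec]
        ring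
      · simp only [Bool.false_eq_true, if_false, if_true, mul_one, ne_eq, not_false_eq_true,
          Bool.false_and, reduceCtorEq]
        rw [prod_insert (by simp [ha]), Jr_mul_right _ (he a).pos.ne' hP]
        simp only [x4, Bool.false_eq_true, if_false]
        ring
      · simp only [if_true, ne_eq, not_true_eq_false, if_false, Bool.true_and]
        rw [hrec]
        linear_combination (x4 (decide (e a % 4 = 3)) m *
          (Jr m (∏ b ∈ s.filter (fun b => L i b ≠ L b i), e b) *
            x4 (decide (Odd (s.filter (fun a => L a i = true ∧ e a % 4 = 3)).card)) m)) * hsq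
  exact key _ (Subset.refl _)

/-- the summand as a function of one variable, the character is explicit -/
lemma HH_update' {y : ℕ} (i : ι)
    (hL : L i i = false) (hz : 2 ≤ z) {e : ι → ℕ} (he : ∀ b, e b ∈ (PP z y).divisors) :
    (∀ m, HH w L κ c (Function.update e i m) = 0) ∨
      ∀ m ∈ (PP z y).divisors,
      HH w L κ c (Function.update e i m) =
        if m.Coprime (∏ b ∈ univ.erase i, e b) then
          ((∏ b ∈ univ.erase i, gw (w b) c (e b)) * RR L κ i e) *
            (gw (w i) c m * ff (κ i) (lk L i e) (tt L i e) m) else 0 := by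
  classical
  by_cases hcop : ∀ a b, a ≠ i → b ≠ i → a ≠ b → (e a).Coprime (e b)
  · right
    have ht := XX_char' L i e (fun b => dv_odd hz (he b))
    intro m hm
    have hiff : m.Coprime (∏ b ∈ univ.erase i, e b) ↔ ∀ b, b ≠ i → m.Coprime (e b) := by
      rw [Nat.coprime_prod_right_iff]
      simp
    have hiff2 : (∀ a b, a ≠ b → (Function.update e i m a).Coprime (Function.update e i m b)) ↔
        ∀ b, b ≠ i → m.Coprime (e b) := by
      constructor
      · intro h b hb
        have := h i b (Ne.symm hb)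
        rwa [Function.update_self, Function.update_of_ne hb] at this
      · intro h a b hab
        by_cases ha : a = i
        · subst ha
          rw [Function.update_self, Function.update_of_ne (Ne.symm hab)]
          exact h b (Ne.symm hab)
        · by_cases hb : b = i
          · subst hb
            rw [Function.update_self, Function.update_of_ne ha]
            exact (h a ha).symm
          · rw [Function.update_of_ne ha, Function.update_of_ne hb]
            exact hcop a b ha hb hab
    unfold HH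
    by_cases h : ∀ b, b ≠ i → m.Coprime (e b)
    · rw [if_pos (hiff2.2 h), if_pos (hiff.2 h), sym_update L κ i hL, ht m (dv_odd hz hm) h,
        ← mul_prod_erase univ _ (mem_univ i), Function.update_self]
      have : ∏ b ∈ univ.erase i, gw (w b) c (Function.update e i m b) =
          ∏ b ∈ univ.erase i, gw (w b) c (e b) := by
        apply prod_congr rfl
        intro b hb
        rw [Function.update_of_ne (mem_erase.1 hb).1]
      rw [this, ff_apply, if_pos (dv_odd hz hm)]
      ring
    · rw [if_neg (fun h' => h (hiff2.1 h')), if_neg (fun h' => h (hiff.1 h'))]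
  · left
    intro m
    unfold HH
    rw [if_neg]
    intro h
    apply hcop
    intro a b ha hb hab
    have := h a b hab
    rwa [Function.update_of_ne ha, Function.update_of_ne hb] at this

/-- the inner sum over the largest prime factor -/
lemma inner_p {f : ℕ → ℝ} (hf1 : ∀ n, |f n| ≤ 1) (hz : 2 * c + 2 ≤ z) {y V Y : ℕ} {x δ : ℝ}
    (hx : 0 < x)
    (hps : ∀ u v : ℕ, x ≤ u → v ≤ y →
      |∑ p ∈ (Ioc u v).filter Nat.Prime, f p / ((p : ℝ) - c)| ≤ δ)
    {R N : ℕ} (hR : R ≠ 0) (hN : R.primeFactors.card ≤ N) {m : ℕ} (hm : m ∈ (PP z y).divisors)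
    (hxm : x ≤ mxp m) :
    |∑ p ∈ (PS z y).filter (fun p => ∀ r ∈ m.primeFactors, r < p),
      (if (V < m * p ∧ m * p ≤ Y) ∧ p.Coprime R then f p / ((p : ℝ) - c) else 0)| ≤
      δ + N * (2 / x) := by
  classical
  have hm0 : 0 < m := dv_pos hm
  set u := max z (max (mxp m) (V / m)) with hu
  set v := min y (Y / m) with hv
  have hI : ((PS z y).filter (fun p => ∀ r ∈ m.primeFactors, r < p)).filter
      (fun p => V < m * p ∧ m * p ≤ Y) = (Ioc u v).filter Nat.Prime := by
    ext p
    simp only [mem_filter, mem_PS, mem_Ioc]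
    have h1 : (∀ r ∈ m.primeFactors, r < p) ∧ z < p ↔ mxp m < p ∧ z < p := by
      constructor
      · rintro ⟨h, h'⟩
        refine ⟨?_, h'⟩
        unfold mxp
        rw [Finset.sup_lt_iff (by simp only [Nat.bot_eq_zero]; omega)]
        exact h
      · rintro ⟨h, h'⟩
        exact ⟨fun r hr => lt_of_le_of_lt (le_mxp hr) h, h'⟩
    have h2 : V < m * p ↔ V / m < p := by
      rw [Nat.div_lt_iff_lt_mul hm0, mul_comm]
    have h3 : m * p ≤ Y ↔ p ≤ Y / m := by
      rw [Nat.le_div_iff_mul_le hm0, mul_comm]
    rw [h2, h3, hu, hv]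
    simp only [max_lt_iff, le_min_iff]
    constructor
    · rintro ⟨⟨⟨⟨a1, a2⟩, a3⟩, a4⟩, a5, a6⟩
      exact ⟨⟨⟨a1, (h1.1 ⟨a4, a1⟩).1, a5⟩, a2, a6⟩, a3⟩
    · rintro ⟨⟨⟨a1, a2, a5⟩, a3, a6⟩, a4⟩
      exact ⟨⟨⟨⟨a1, a3⟩, a4⟩, (h1.2 ⟨a2, a1⟩).1⟩, a5, a6⟩
  have hsum : ∑ p ∈ (PS z y).filter (fun p => ∀ r ∈ m.primeFactors, r < p),
      (if (V < m * p ∧ m * p ≤ Y) ∧ p.Coprime R then f p / ((p : ℝ) - c) else 0) =
      ∑ p ∈ (Ioc u v).filter Nat.Prime, f p / ((p : ℝ) - c) -
      ∑ p ∈ ((Ioc u v).filter Nat.Prime).filter (fun p => ¬ p.Coprime R),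
        f p / ((p : ℝ) - c) := by
    have h1 := sum_filter_add_sum_filter_not ((Ioc u v).filter Nat.Prime)
      (fun p => p.Coprime R) (fun p => f p / ((p : ℝ) - c))
    have h2 : ∑ p ∈ (PS z y).filter (fun p => ∀ r ∈ m.primeFactors, r < p),
        (if (V < m * p ∧ m * p ≤ Y) ∧ p.Coprime R then f p / ((p : ℝ) - c) else 0) =
        ∑ p ∈ ((Ioc u v).filter Nat.Prime).filter (fun p => p.Coprime R),
          f p / ((p : ℝ) - c) := by
      rw [← hI, ← sum_filter]
      congr 1
      ext p
      simp only [mem_filter]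
      tauto
    rw [h2]
    linarith
  rw [hsum]
  have hux : x ≤ (u : ℝ) := by
    refine hxm.trans ?_
    exact_mod_cast (le_max_left (mxp m) (V / m)).trans (le_max_right z _)
  have h1 := hps u v hux (min_le_left _ _)
  have h2 : |∑ p ∈ ((Ioc u v).filter Nat.Prime).filter (fun p => ¬ p.Coprime R),
      f p / ((p : ℝ) - c)| ≤ N * (2 / x) := by
    refine (abs_sum_le_sum_abs _ _).trans ?_
    have h3 : ∀ p ∈ ((Ioc u v).filter Nat.Prime).filter (fun p => ¬ p.Coprime R),
        |f p / ((p : ℝ) - c)| ≤ 2 / x := by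
      intro p hp
      rw [mem_filter, mem_filter, mem_Ioc] at hp
      obtain ⟨⟨⟨hup, -⟩, -⟩, -⟩ := hp
      have hzp : z < p := lt_of_le_of_lt (le_max_left _ _) hup
      have h4 : (2 * c + 2 : ℝ) ≤ p := by exact_mod_cast (by omega : 2 * c + 2 ≤ p)
      have hc0 : (0 : ℝ) ≤ c := Nat.cast_nonneg c
      have h5 : (0 : ℝ) < (p : ℝ) - c := by linarith
      have h6 : x ≤ (p : ℝ) := hux.trans (by exact_mod_cast hup.le)
      rw [abs_div, abs_of_pos h5, div_le_div_iff₀ h5 hx]
      have h7 := hf1 p
      nlinarith [abs_nonneg (f p)]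
    refine (sum_le_sum h3).trans ?_
    rw [sum_const, nsmul_eq_mul]
    apply mul_le_mul_of_nonneg_right _ (by positivity)
    have h4 : (((Ioc u v).filter Nat.Prime).filter (fun p => ¬ p.Coprime R)).card ≤ N := by
      refine le_trans (card_le_card ?_) hN
      intro p hp
      rw [mem_filter, mem_filter] at hp
      rw [Nat.mem_primeFactors]
      refine ⟨hp.1.2, ?_, hR⟩
      by_contra hd
      exact hp.2 ((hp.1.2.coprime_iff_not_dvd).2 hd)
    exact_mod_cast h4
  exact (abs_sub _ _).trans (add_le_add h1 h2)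

lemma om_mul {m p : ℕ} (hm : m ≠ 0) (hp : p.Prime) (h : ∀ r ∈ m.primeFactors, r < p) :
    om (m * p) = om m + 1 := by
  unfold om
  rw [Nat.primeFactors_mul hm hp.ne_zero, hp.primeFactors, card_union_of_disjoint, card_singleton]
  rw [disjoint_singleton_right]
  intro h'
  exact lt_irrefl _ (h p h')

lemma gw_mul {w : ℝ} {c m p : ℕ} (hm : m ≠ 0) (hp : p.Prime) (h : ∀ r ∈ m.primeFactors, r < p) :
    gw w c (m * p) = gw w c m * (w / ((p : ℝ) - c)) := by
  unfold gw
  rw [Nat.primeFactors_mul hm hp.ne_zero, hp.primeFactors, prod_union, prod_singleton]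
  rw [disjoint_singleton_right]
  intro h'
  exact lt_irrefl _ (h p h')

open Classical in
/-- the part with two large prime factors -/
lemma large_part (hB : Bd w κ c z C) (hz : 2 * c + 2 ≤ z) (i : ι) (hL : L i i = false)
    {y V Y : ℕ} (hy : z < y) {x δ : ℝ} (hx : 0 < x) (hδ : 0 ≤ δ) {e : ι → ℕ}
    (he : ∀ b, e b ∈ (PP z y).divisors)
    (hps : ∀ u v : ℕ, x ≤ u → v ≤ y →
      |∑ p ∈ (Ioc u v).filter Nat.Prime,
        ff (κ i) (lk L i e) (tt L i e) p / ((p : ℝ) - c)| ≤ δ)
    {N : ℕ} (hN : (∏ b ∈ univ.erase i, e b).primeFactors.card ≤ N) (Q : ℕ → Prop) :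
    |∑ m ∈ (PP z y).divisors.filter (fun m => x ≤ mxp m),
      ∑ p ∈ (PS z y).filter (fun p => ∀ r ∈ m.primeFactors, r < p),
      (if (V < m * p ∧ m * p ≤ Y) ∧ Q (om (m * p)) then
        HH w L κ c (Function.update e i (m * p)) else 0)| ≤
      (∏ b ∈ univ.erase i, gw (w b) c (e b)) * ((C * Real.log y) * (δ + N * (2 / x))) := by
  have hcz : c ≤ z := by omega
  have hC0 : 0 ≤ C := zero_le_one.trans hB.C1
  have hly := one_le_log hB.z2 hy
  have hP0 : 0 ≤ ∏ b ∈ univ.erase i, gw (w b) c (e b) :=
    prod_nonneg fun b _ => gw_nonneg (hB.w0 b).le hcz (he b)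
  have hE0 : 0 ≤ δ + N * (2 / x) := by positivity
  rcases HH_update' (w := w) (κ := κ) (c := c) i hL hB.z2 he with h | h
  · simp only [h, ite_self, sum_const_zero, abs_zero]
    have : 0 ≤ C * Real.log y := by nlinarith
    positivity
  set R := ∏ b ∈ univ.erase i, e b with hR
  set P := ∏ b ∈ univ.erase i, gw (w b) c (e b) with hP
  set f := ff (κ i) (lk L i e) (tt L i e) with hf
  have hR0 : R ≠ 0 := prod_ne_zero_iff.2 fun b _ => dv_ne_zero (he b)
  have hin : ∀ m ∈ (PP z y).divisors.filter (fun m => x ≤ mxp m),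
      |∑ p ∈ (PS z y).filter (fun p => ∀ r ∈ m.primeFactors, r < p),
      (if (V < m * p ∧ m * p ≤ Y) ∧ Q (om (m * p)) then
        HH w L κ c (Function.update e i (m * p)) else 0)| ≤
      P * (gw (w i) c m * hh m) * (δ + N * (2 / x)) := by
    intro m hm
    rw [mem_filter] at hm
    obtain ⟨hm, hxm⟩ := hm
    have hm0 : m ≠ 0 := dv_ne_zero hm
    have hg0 := gw_nonneg (hB.w0 i).le hcz hm
    have h1 : ∀ p ∈ (PS z y).filter (fun p => ∀ r ∈ m.primeFactors, r < p),
        (if (V < m * p ∧ m * p ≤ Y) ∧ Q (om (m * p)) then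
        HH w L κ c (Function.update e i (m * p)) else 0) =
        (if Q (om m + 1) ∧ m.Coprime R then (P * RR L κ i e * (gw (w i) c m * f m)) * w i else 0) *
        (if (V < m * p ∧ m * p ≤ Y) ∧ p.Coprime R then f p / ((p : ℝ) - c) else 0) := by
      intro p hp
      rw [mem_filter] at hp
      obtain ⟨hp1, hlt⟩ := hp
      have hpp : p.Prime := (mem_PS.1 hp1).2
      have hmp : m * p ∈ (PP z y).divisors := by
        have hcop : m.Coprime p := by
          rw [Nat.coprime_comm, hpp.coprime_iff_not_dvd]
          intro hd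
          exact absurd (hlt p (Nat.mem_primeFactors.2 ⟨hpp, hd, hm0⟩)) (lt_irrefl _)
        rw [mem_dv_iff] at hm ⊢
        refine ⟨(Nat.squarefree_mul_iff.2 ⟨hcop, hm.1, hpp.squarefree⟩), ?_⟩
        rw [Nat.primeFactors_mul hm0 hpp.ne_zero, hpp.primeFactors]
        exact union_subset hm.2 (singleton_subset_iff.2 hp1)
      have hcm : (m * p).Coprime R ↔ m.Coprime R ∧ p.Coprime R := Nat.coprime_mul_iff_left
      rw [om_mul hm0 hpp hlt, h _ hmp, gw_mul hm0 hpp hlt, map_mul]
      simp only [hcm]
      by_cases a1 : V < m * p ∧ m * p ≤ Y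
      · by_cases a2 : Q (om m + 1)
        · by_cases a3 : m.Coprime R
          · by_cases a4 : p.Coprime R
            · rw [if_pos ⟨a1, a2⟩, if_pos ⟨a3, a4⟩, if_pos ⟨a2, a3⟩, if_pos ⟨a1, a4⟩]
              ring
            · rw [if_pos ⟨a1, a2⟩, if_neg (fun h' => a4 h'.2),
                if_neg (fun h' : (V < m * p ∧ m * p ≤ Y) ∧ p.Coprime R => a4 h'.2), mul_zero]
          · rw [if_pos ⟨a1, a2⟩, if_neg (fun h' => a3 h'.1), if_neg (fun h' => a3 h'.2),
              zero_mul]
        · rw [if_neg (fun h' => a2 h'.2), if_neg (fun h' => a2 h'.1), zero_mul]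
      · rw [if_neg (fun h' => a1 h'.1),
          if_neg (fun h' : (V < m * p ∧ m * p ≤ Y) ∧ p.Coprime R => a1 h'.1), mul_zero]
    rw [sum_congr rfl h1, ← mul_sum, abs_mul]
    have h2 := inner_p (f := f) (ff_abs _ _ _) hz (V := V) (Y := Y) hx hps hR0 hN hm hxm
    have h3 : |if Q (om m + 1) ∧ m.Coprime R then
        (P * RR L κ i e * (gw (w i) c m * f m)) * w i else 0| ≤ P * (gw (w i) c m * hh m) := by
      have h4 : gw (w i) c m ≤ gw (w i) c m * hh m := gw_le_hh hB i hm
      split_ifs
      · rw [abs_mul, abs_mul, abs_mul, abs_mul, abs_of_nonneg hP0, abs_of_nonneg hg0,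
          abs_of_pos (hB.w0 i)]
        have a1 := abs_RR_le L κ i e
        have a2 := ff_abs (κ i) (lk L i e) (tt L i e) m
        have a3 := hB.w1 i
        have a4 : P * |RR L κ i e| ≤ P * 1 := mul_le_mul_of_nonneg_left a1 hP0
        have a5 : gw (w i) c m * |f m| ≤ gw (w i) c m * 1 := mul_le_mul_of_nonneg_left a2 hg0
        calc P * |RR L κ i e| * (gw (w i) c m * |f m|) * w i
            ≤ (P * 1) * (gw (w i) c m * 1) * 1 := by
              apply mul_le_mul (mul_le_mul a4 a5 (by positivity) (by positivity)) (by linarith)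
                (hB.w0 i).le (by positivity)
          _ = P * gw (w i) c m := by ring
          _ ≤ _ := mul_le_mul_of_nonneg_left h4 hP0
      · rw [abs_zero]
        exact mul_nonneg hP0 (hg0.trans h4)
    exact mul_le_mul h3 h2 (abs_nonneg _) ((abs_nonneg _).trans h3)
  refine (abs_sum_le_sum_abs _ _).trans ((sum_le_sum hin).trans ?_)
  rw [← sum_mul, ← mul_sum, mul_assoc]
  apply mul_le_mul_of_nonneg_left _ hP0
  apply mul_le_mul_of_nonneg_right _ hE0
  calc ∑ m ∈ (PP z y).divisors.filter (fun m => x ≤ mxp m), gw (w i) c m * hh m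
      ≤ ∑ m ∈ (PP z y).divisors, gw (w i) c m * hh m := by
        apply sum_le_sum_of_subset_of_nonneg (filter_subset _ _)
        intro m hm _
        exact mul_nonneg (gw_nonneg (hB.w0 i).le hcz hm) (hh_nonneg _)
    _ ≤ C * (Real.log y) ^ (w i) := hB.F1 i y hy
    _ ≤ C * Real.log y := by
        apply mul_le_mul_of_nonneg_left _ hC0
        calc (Real.log y) ^ (w i) ≤ (Real.log y) ^ (1 : ℝ) :=
              Real.rpow_le_rpow_of_exponent_le hly (by have := hB.w1 i; linarith)
          _ = Real.log y := Real.rpow_one _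

end Pool.Agent.H457.A
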