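import Pool.Agent.H457.A.NE4

set_option autoImplicit false
set_option linter.unusedSectionVars false

/-! The sign condition. -/

namespace Pool.Agent.H457.A

open Finset Filter Pool.Agent.W262.RK Pool.Agent.W262.RK.AT Pool.Agent.W655.RK
open Pool.Agent.W586.RK.UB (ff ff_apply ff_abs ff_exists)

variable {ι : Type} [Fintype ι] [DecidableEq ι]

/-- the sign condition for the case of equality -/
structure TC (L : ι → ι → Bool) (κ : ι → ℤ) (T : Finset ι) (g : ι → Bool) : Prop where
  LT : ∀ l ∈ T, ∀ l' ∈ T, L l l' = false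
  ev : ∀ a, a ∉ T → Even (T.filter (fun l => L a l = true)).card
  sq : ∀ l ∈ T, if g l then IsSquare (-κ l) else IsSquare (κ l)
  odd : Odd (T.filter (fun l => g l = true)).card

lemma cast_odd (n : ℕ) : (n : ZMod 2) = if Odd n then 1 else 0 := by
  split_ifs with h
  · exact (ZMod.natCast_eq_one_iff_odd).2 h
  · rw [Nat.not_odd_iff_even] at h
    exact (ZMod.natCast_eq_zero_iff_even).2 h

/-- one of the characters is not principal -/
lemma TC.ex {L : ι → ι → Bool} {κ : ι → ℤ} {T : Finset ι} {g : ι → Bool} (h : TC L κ T g)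
    (e : ι → ℕ) : ∃ l ∈ T, xor (g l) (tt L l e) = true := by
  classical
  by_contra hcon
  push Not at hcon
  have h1 : ∀ l ∈ T, g l = tt L l e := by
    intro l hl
    have := hcon l hl
    revert this
    cases g l <;> cases tt L l e <;> simp
  have h2 : ((T.filter (fun l => g l = true)).card : ZMod 2) = 1 :=
    (ZMod.natCast_eq_one_iff_odd).2 h.odd
  have h3 : ((T.filter (fun l => g l = true)).card : ZMod 2) =
      ∑ l ∈ T, (((univ.erase l).filter (fun a => L a l = true ∧ e a % 4 = 3)).card : ZMod 2) := by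
    rw [card_filter]
    push_cast
    refine sum_congr rfl fun l hl => ?_
    rw [cast_odd, h1 l hl]
    unfold tt
    by_cases ho : Odd ((univ.erase l).filter (fun a => L a l = true ∧ e a % 4 = 3)).card
    · rw [decide_eq_true ho, if_pos rfl, if_pos ho]
    · rw [decide_eq_false ho, if_neg (by simp), if_neg ho]
  have h4 : ∑ l ∈ T, (((univ.erase l).filter (fun a => L a l = true ∧ e a % 4 = 3)).card : ZMod 2) =
      ∑ l ∈ T, ∑ a : ι, (if (a ∉ T ∧ e a % 4 = 3) ∧ L a l = true then (1 : ZMod 2) else 0) := by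
    refine sum_congr rfl fun l hl => ?_
    rw [card_filter]
    push_cast
    have e1 : ∑ a ∈ univ.erase l, (if L a l = true ∧ e a % 4 = 3 then (1 : ZMod 2) else 0) =
        ∑ a ∈ univ.erase l, (if (a ∉ T ∧ e a % 4 = 3) ∧ L a l = true then (1 : ZMod 2) else 0) := by
      refine sum_congr rfl fun a _ => ?_
      by_cases ha : a ∈ T
      · rw [h.LT a ha l hl]
        simp
      · simp only [ha, not_false_eq_true, true_and, and_comm]
    rw [e1, ← add_sum_erase univ _ (mem_univ l)]
    simp [hl]
  have h5 : ∑ l ∈ T, ∑ a : ι, (if (a ∉ T ∧ e a % 4 = 3) ∧ L a l = true then (1 : ZMod 2) else 0) =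
      0 := by
    rw [sum_comm]
    refine sum_eq_zero fun a _ => ?_
    by_cases ha : a ∉ T ∧ e a % 4 = 3
    · simp only [ha, not_false_eq_true, and_self, true_and]
      have h6 := h.ev a ha.1
      have h7 : ((T.filter (fun l => L a l = true)).card : ZMod 2) = 0 :=
        (ZMod.natCast_eq_zero_iff_even).2 h6
      rw [card_filter] at h7
      push_cast at h7
      exact h7
    · refine sum_eq_zero fun l _ => ?_
      rw [if_neg]
      rintro ⟨h', -⟩
      exact ha h'
  rw [h3, h4, h5] at h2
  exact absurd h2 (by decide)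

lemma ff_one_exists {κ : ℤ} (hκ : κ ≠ 0) {g t : Bool} (hx : xor g t = true)
    (hs : if g then IsSquare (-κ) else IsSquare κ) :
    ∃ n0 : ℕ, n0.Coprime (4 * κ.natAbs * 1) ∧ ff κ 1 t n0 = -1 := by
  have hκ0 : 0 < κ.natAbs := Int.natAbs_pos.2 hκ
  set n0 := 4 * κ.natAbs - 1 with hn0
  have hmod : n0 % 4 = 3 := by omega
  have hodd : Odd n0 := by rw [Nat.odd_iff]; omega
  have hcop : n0.Coprime (4 * κ.natAbs) := by
    have h1 : 4 * κ.natAbs = n0 + 1 := by omega
    rw [h1]
    exact Nat.coprime_self_add_right.2 (Nat.coprime_one_right n0)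
  have hcopκ : n0.Coprime κ.natAbs := Nat.Coprime.coprime_mul_left_right hcop
  have hx4 : ((ZMod.χ₄ (n0 : ZMod 4) : ℤ) : ℝ) = -1 := by
    rw [ZMod.χ₄_nat_three_mod_four hmod]
    norm_num
  refine ⟨n0, by rw [mul_one]; exact hcop, ?_⟩
  rw [ff_apply, if_pos hodd]
  have hJ1 : Jr (n0 : ℤ) 1 = 1 := Jr_one_right _
  rw [hJ1, one_mul]
  have hsq : ∀ s : ℤ, s.natAbs ∣ κ.natAbs → jacobiSym (s * s) n0 = 1 := by
    intro s hs'
    rw [jacobiSym.mul_left, ← sq]
    apply jacobiSym.sq_one
    have : s.natAbs.Coprime n0 := (Nat.Coprime.coprime_dvd_right hs' hcopκ).symm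
    exact this
  cases g with
  | true =>
    have ht : t = false := by
      revert hx
      cases t <;> simp
    subst ht
    simp only [if_true] at hs
    obtain ⟨s, hs⟩ := hs
    have hκs : κ = -1 * (s * s) := by linarith
    have hd : s.natAbs ∣ κ.natAbs := by
      rw [hκs, Int.natAbs_mul, Int.natAbs_mul]
      exact ⟨s.natAbs, by simp⟩
    have h1 : Jr κ n0 = -1 := by
      unfold Jr
      rw [hκs, jacobiSym.mul_left, hsq s hd, mul_one, jacobiSym.at_neg_one hodd,
        ZMod.χ₄_nat_three_mod_four hmod]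
      norm_num
    rw [h1]
    simp [x4]
  | false =>
    have ht : t = true := by
      revert hx
      cases t <;> simp
    subst ht
    simp only [Bool.false_eq_true, if_false] at hs
    obtain ⟨s, hs⟩ := hs
    have hd : s.natAbs ∣ κ.natAbs := by
      rw [hs, Int.natAbs_mul]
      exact ⟨s.natAbs, rfl⟩
    have h1 : Jr κ n0 = 1 := by
      unfold Jr
      rw [hs, hsq s hd]
      norm_num
    rw [h1, one_mul]
    unfold x4
    rw [if_pos rfl]
    exact hx4

end Pool.Agent.H457.A
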