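import Pool.Agent.H457.A.NE5

set_option autoImplicit false
set_option linter.unusedSectionVars false

/-! The case of equality: estimates for one index. -/

namespace Pool.Agent.H457.A

open Finset Filter Pool.Agent.W262.RK Pool.Agent.W262.RK.AT Pool.Agent.W655.RK
open Pool.Agent.W586.RK.UB (ff ff_apply ff_abs ff_exists)

variable {ι J : Type} [Fintype ι] [DecidableEq ι] [Fintype J] [DecidableEq J]

variable {w : ι → ℝ} {L : ι → ι → Bool} {κ : ι → ℤ} {c z : ℕ} {C : ℝ}

lemma one_mem_cell (z y V Y : ℕ) : 1 ∈ cell z y V Y 0 := by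
  unfold cell cl
  rw [mem_filter]
  exact ⟨one_mem_dv z y, by simp⟩

/-- the other variables -/
lemma others_le {c z : ℕ} (hz : 2 * c + 2 ≤ z) (u : ι → ℝ) (hu : ∀ i, 0 ≤ u i) (A : ℕ)
    (π : ι → Fin 4) (h3 : ∀ k, π k ≠ 3) (l : ι) {a : ℝ}
    (ha : ∑ k ∈ (univ.filter (fun k => π k = 2)).erase l, u k < a) :
    ∃ C' : ℝ, 0 ≤ C' ∧ ∀ y, z < y →
      ∏ b ∈ univ.erase l, ∑ m ∈ cell z y (VV A (Real.log y)) (YY A (Real.log y)) (π b),
        gw (u b) c m ≤ C' * (Real.log y) ^ a := by
  have h3' : ∀ k, Function.update π l 0 k ≠ 3 := by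
    intro k
    by_cases hk : k = l
    · subst hk
      rw [Function.update_self]
      decide
    · rw [Function.update_of_ne hk]
      exact h3 k
  have hset : univ.filter (fun k => Function.update π l 0 k = 2) =
      (univ.filter (fun k => π k = 2)).erase l := by
    ext k
    simp only [mem_filter, mem_univ, true_and, mem_erase]
    by_cases hk : k = l
    · subst hk
      rw [Function.update_self]
      simp
    · rw [Function.update_of_ne hk]
      simp [hk]
  obtain ⟨C', hC'⟩ := cells_prod hz u hu A (Function.update π l 0) h3' (a := a) (by rwa [hset])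
  refine ⟨|C'|, abs_nonneg _, fun y hy => ?_⟩
  have hz2 : 2 ≤ z := by omega
  have hly := one_le_log hz2 hy
  have h1 := hC' y hy
  have hl0 : 0 ≤ (Real.log y) ^ a := Real.rpow_nonneg (by linarith) _
  refine le_trans ?_ (h1.trans (mul_le_mul_of_nonneg_right (le_abs_self C') hl0))
  have hnn : ∀ b, 0 ≤ ∑ m ∈ cell z y (VV A (Real.log y)) (YY A (Real.log y)) (π b),
      gw (u b) c m := fun b =>
    sum_nonneg fun m hm => gw_nonneg (hu b) (by omega) (cell_sub _ _ _ _ _ hm)
  rw [← mul_prod_erase univ (fun i => ∑ m ∈ cell z y (VV A (Real.log y)) (YY A (Real.log y))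
    (Function.update π l 0 i), gw (u i) c m) (mem_univ l), Function.update_self]
  have h2 : ∏ b ∈ univ.erase l, ∑ m ∈ cell z y (VV A (Real.log y)) (YY A (Real.log y))
      (Function.update π l 0 b), gw (u b) c m =
      ∏ b ∈ univ.erase l, ∑ m ∈ cell z y (VV A (Real.log y)) (YY A (Real.log y)) (π b),
        gw (u b) c m := by
    refine prod_congr rfl fun b hb => ?_
    rw [Function.update_of_ne (mem_erase.1 hb).1]
  rw [h2]
  apply le_mul_of_one_le_left (prod_nonneg fun b _ => hnn b)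
  have h4 := single_le_sum (f := fun m => gw (u l) c m)
    (s := cell z y (VV A (Real.log y)) (YY A (Real.log y)) 0)
    (fun m hm => gw_nonneg (hu l) (by omega) (cell_sub _ _ _ _ _ hm)) (one_mem_cell _ _ _ _)
  rw [gw_one] at h4
  exact h4

/-- the pairs with the cofactor having small prime factors only -/
lemma smooth_part (c : ℕ) {z : ℕ} (hz : 2 * c + 2 ≤ z) {u : ℝ} (hu : 0 ≤ u) {τ : ℝ}
    (hτ : 0 < τ) :
    ∃ C' : ℝ, 0 ≤ C' ∧ ∀ᶠ y : ℕ in atTop,
      ∑ m ∈ (PP z y).divisors.filter (fun m => ¬ Real.exp (√(Real.log y)) ≤ mxp m),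
        ∑ p ∈ (PS z y).filter (fun p => ∀ r ∈ m.primeFactors, r < p), gw u c (m * p) ≤
        C' * (Real.log y) ^ (u / 2 + τ) := by
  obtain ⟨B, hB0, hB⟩ := gb c
  obtain ⟨C0, hC0, hmer⟩ := mertens
  refine ⟨Real.exp (u * B) * (2 * u * (1 / τ + C0)), by positivity, ?_⟩
  have hlog : Tendsto (fun y : ℕ => Real.log y) atTop atTop :=
    Real.tendsto_log_atTop.comp tendsto_natCast_atTop_atTop
  have hsq : Tendsto (fun y : ℕ => Real.exp (√(Real.log y))) atTop atTop :=
    Real.tendsto_exp_atTop.comp (Real.tendsto_sqrt_atTop.comp hlog)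
  filter_upwards [hsq.eventually_ge_atTop ((z : ℝ) + 2), eventually_gt_atTop z] with y hx hy
  have hz2 : 2 ≤ z := by omega
  have hly := one_le_log hz2 hy
  have hly0 : 0 < Real.log y := by linarith
  set l := Real.log y with hl
  set x := Real.exp (√l) with hxdef
  set x' := ⌊x⌋₊ with hx'
  have hx0 : 0 < x := Real.exp_pos _
  have hzx : z < x' := by
    rw [hx', Nat.lt_iff_add_one_le, Nat.le_floor_iff hx0.le]
    push_cast
    linarith
  have hlx' : Real.log x' ≤ √l := by
    have h1 : (x' : ℝ) ≤ x := Nat.floor_le hx0.le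
    have h2 : (0 : ℝ) < x' := by exact_mod_cast (by omega : 0 < x')
    calc Real.log x' ≤ Real.log x := Real.log_le_log h2 h1
      _ = √l := by rw [hxdef, Real.log_exp]
  have hlx0 : 0 ≤ Real.log x' := Real.log_natCast_nonneg _
  have hgn : ∀ m ∈ (PP z y).divisors, 0 ≤ gw u c m := fun m hm => gw_nonneg hu (by omega) hm
  have hS0 : 0 ≤ ∑ p ∈ PS z y, u / ((p : ℝ) - c) := sum_nonneg fun p hp => by
    have h1 := (mem_PS.1 hp).1.1
    have h2 : (c : ℝ) < p := by exact_mod_cast (by omega : c < p)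
    exact div_nonneg hu (by linarith)
  have hS1 : ∑ p ∈ PS z y, u / ((p : ℝ) - c) ≤ 2 * u * (1 / τ + C0) * l ^ τ := by
    have h1 : ∑ p ∈ PS z y, u / ((p : ℝ) - c) ≤ 2 * u * ∑ p ∈ PS z y, (1 : ℝ) / p := by
      rw [mul_sum]
      refine sum_le_sum fun p hp => ?_
      have h1 := (mem_PS.1 hp).1.1
      have h2 : (2 * c + 2 : ℝ) ≤ p := by exact_mod_cast (by omega : 2 * c + 2 ≤ p)
      have hc0 : (0 : ℝ) ≤ c := Nat.cast_nonneg c
      have h3 : (0 : ℝ) < (p : ℝ) - c := by linarith
      have h4 : (0 : ℝ) < p := by linarith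
      rw [mul_one_div, div_le_div_iff₀ h3 h4]
      nlinarith
    refine h1.trans ?_
    have h2 := hmer z y (by omega)
    have h3 : Real.log l ≤ l ^ τ / τ := Real.log_le_rpow_div hly0.le hτ
    have h4 : 1 ≤ l ^ τ := Real.one_le_rpow hly hτ.le
    have h5 : Real.log l + C0 ≤ (1 / τ + C0) * l ^ τ := by
      have : C0 ≤ C0 * l ^ τ := le_mul_of_one_le_right hC0 h4
      calc Real.log l + C0 ≤ l ^ τ / τ + C0 * l ^ τ := by linarith
        _ = _ := by ring
    calc 2 * u * ∑ p ∈ PS z y, (1 : ℝ) / p ≤ 2 * u * ((1 / τ + C0) * l ^ τ) :=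
          mul_le_mul_of_nonneg_left (h2.trans h5) (by positivity)
      _ = _ := by ring
  calc ∑ m ∈ (PP z y).divisors.filter (fun m => ¬ x ≤ mxp m),
        ∑ p ∈ (PS z y).filter (fun p => ∀ r ∈ m.primeFactors, r < p), gw u c (m * p)
      ≤ ∑ m ∈ (PP z y).divisors.filter (fun m => ¬ x ≤ mxp m),
        gw u c m * ∑ p ∈ PS z y, u / ((p : ℝ) - c) := by
        refine sum_le_sum fun m hm => ?_
        have hm' := (mem_filter.1 hm).1
        have h1 : ∑ p ∈ (PS z y).filter (fun p => ∀ r ∈ m.primeFactors, r < p),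
            gw u c (m * p) = gw u c m *
            ∑ p ∈ (PS z y).filter (fun p => ∀ r ∈ m.primeFactors, r < p), u / ((p : ℝ) - c) := by
          rw [mul_sum]
          refine sum_congr rfl fun p hp => ?_
          rw [mem_filter] at hp
          exact gw_mul (dv_ne_zero hm') (mem_PS.1 hp.1).2 hp.2
        rw [h1]
        apply mul_le_mul_of_nonneg_left _ (hgn m hm')
        apply sum_le_sum_of_subset_of_nonneg (filter_subset _ _)
        intro p hp _
        have h1 := (mem_PS.1 hp).1.1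
        have h2 : (c : ℝ) < p := by exact_mod_cast (by omega : c < p)
        exact div_nonneg hu (by linarith)
    _ = (∑ m ∈ (PP z y).divisors.filter (fun m => ¬ x ≤ mxp m), gw u c m) *
        ∑ p ∈ PS z y, u / ((p : ℝ) - c) := by rw [sum_mul]
    _ ≤ (Real.exp (u * B) * l ^ (u / 2)) * (2 * u * (1 / τ + C0) * l ^ τ) := by
        apply mul_le_mul _ hS1 hS0 (by positivity)
        have h1 : (PP z y).divisors.filter (fun m => ¬ x ≤ mxp m) ⊆ (PP z x').divisors := by
          intro m hm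
          rw [mem_filter] at hm
          obtain ⟨hm, hx⟩ := hm
          rw [mem_dv_iff] at hm ⊢
          refine ⟨hm.1, fun p hp => ?_⟩
          have h2 := mem_PS.1 (hm.2 hp)
          rw [mem_PS]
          refine ⟨⟨h2.1.1, ?_⟩, h2.2⟩
          rw [hx', Nat.le_floor_iff hx0.le]
          have h3 : (p : ℝ) ≤ mxp m := by exact_mod_cast le_mxp hp
          linarith
        have h2 : ∑ m ∈ (PP z y).divisors.filter (fun m => ¬ x ≤ mxp m), gw u c m ≤
            ∑ m ∈ (PP z x').divisors, gw u c m :=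
          sum_le_sum_of_subset_of_nonneg h1 fun m hm _ => gw_nonneg hu (by omega) hm
        refine h2.trans (((hB z hz u hu).F1 x' hzx).trans ?_)
        apply mul_le_mul_of_nonneg_left _ (Real.exp_pos _).le
        calc (Real.log x') ^ u ≤ (√l) ^ u := Real.rpow_le_rpow hlx0 hlx' hu
          _ = l ^ (u / 2) := by
            rw [Real.sqrt_eq_rpow, ← Real.rpow_mul hly0.le]
            congr 1
            ring
    _ = Real.exp (u * B) * (2 * u * (1 / τ + C0)) * (l ^ (u / 2) * l ^ τ) := by ring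
    _ = _ := by rw [← Real.rpow_add hly0]

lemma exp_sqrt_ge (k : ℕ) {l : ℝ} (hl : 0 < l) :
    l ^ k / (2 * k).factorial ≤ Real.exp (√l) := by
  have h1 := Real.pow_div_factorial_le_exp (√l) (Real.sqrt_nonneg _) (2 * k)
  rw [pow_mul, Real.sq_sqrt hl.le] at h1
  exact h1

end Pool.Agent.H457.A
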