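import Pool.Agent.H457.A.NE6

set_option autoImplicit false
set_option linter.unusedSectionVars false

/-! The case of equality: one index. -/

namespace Pool.Agent.H457.A

open Finset Filter Pool.Agent.W262.RK Pool.Agent.W262.RK.AT Pool.Agent.W655.RK
open Pool.Agent.W586.RK.UB (ff ff_apply ff_abs ff_exists)

variable {ι J : Type} [Fintype ι] [DecidableEq ι] [Fintype J] [DecidableEq J]

variable {w : ι → ℝ} {L : ι → ι → Bool} {κ : ι → ℤ} {c z : ℕ} {C : ℝ}

lemma Om_update (pi : ι → J) (l : ι) (e : ι → ℕ) (m : ℕ) (j : J) :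
    Om pi (Function.update e l m) j =
      (if pi l = j then om m else 0) +
        ∑ b ∈ (univ.filter (fun b => pi b = j)).erase l, om (e b) := by
  unfold Om
  by_cases h : pi l = j
  · have hl : l ∈ univ.filter (fun b => pi b = j) := mem_filter.2 ⟨mem_univ _, h⟩
    rw [if_pos h, ← add_sum_erase _ _ hl, Function.update_self]
    congr 1
    refine sum_congr rfl fun b hb => ?_
    rw [Function.update_of_ne (mem_erase.1 hb).1]
  · have hl : l ∉ univ.filter (fun b => pi b = j) := fun h' => h (mem_filter.1 h').2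
    rw [if_neg h, zero_add, erase_eq_of_notMem hl]
    refine sum_congr rfl fun b hb => ?_
    rw [Function.update_of_ne]
    rintro rfl
    exact hl hb

open Classical in
/-- the sum over one variable, for fixed other variables -/
lemma one_e (hB : Bd w κ c z C) (hz : 2 * c + 2 ≤ z) (l : ι) (hL : L l l = false)
    (pi : ι → J) (ε : ℝ) (θ : J → ℝ) (hθ : ∀ j, 0 < θ j)
    {y V Y : ℕ} (hy : z < y) (hV : 1 ≤ V) {x δ : ℝ} (hx : 0 < x) (hδ : 0 ≤ δ) {e : ι → ℕ}
    (he : ∀ b, e b ∈ (PP z y).divisors)
    (hps : ∀ u v : ℕ, x ≤ u → v ≤ y →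
      |∑ p ∈ (Ioc u v).filter Nat.Prime,
        ff (κ l) (lk L l e) (tt L l e) p / ((p : ℝ) - c)| ≤ δ)
    {N : ℕ} (hN : (∏ b ∈ univ.erase l, e b).primeFactors.card ≤ N) :
    |∑ m ∈ lg z y V Y, HT w L κ c pi ε (Real.log y) (Function.update e l m)| ≤
      (∏ b ∈ univ.erase l, gw (w b) c (e b)) * ((C * Real.log y) * (δ + N * (2 / x))) +
      (∏ b ∈ univ.erase l, gw (w b * θ (pi b)) c (e b)) *
        ((∑ m ∈ (PP z y).divisors.filter (fun m => ¬ x ≤ mxp m),
          ∑ p ∈ (PS z y).filter (fun p => ∀ r ∈ m.primeFactors, r < p),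
            gw (w l * θ (pi l)) c (m * p)) *
          (Real.log y) ^ (∑ j, (-Real.log (θ j) + ε * |Real.log (θ j)|))) := by
  have hcz : c ≤ z := by omega
  have hly := one_le_log hB.z2 hy
  set l0 := Real.log y with hl0
  have hl00 : 0 < l0 := by linarith
  set e0 := ∑ j, (-Real.log (θ j) + ε * |Real.log (θ j)|) with he0
  set Q : ℕ → Prop := fun n => Ty ε l0 (fun j => (if pi l = j then n else 0) +
        ∑ b ∈ (univ.filter (fun b => pi b = j)).erase l, om (e b)) with hQ
  have hTy : ∀ m, Ty ε l0 (Om pi (Function.update e l m)) ↔ Q (om m) := by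
    intro m
    rw [hQ]
    simp only
    have : Om pi (Function.update e l m) = fun j => (if pi l = j then om m else 0) +
        ∑ b ∈ (univ.filter (fun b => pi b = j)).erase l, om (e b) :=
      funext fun j => Om_update pi l e m j
    rw [this]
  set F : ℕ → ℝ := fun m => if (V < m ∧ m ≤ Y) ∧ Q (om m) then
    HH w L κ c (Function.update e l m) else 0 with hF
  have h1 : ∑ m ∈ lg z y V Y, HT w L κ c pi ε l0 (Function.update e l m) =
      ∑ m ∈ (PP z y).divisors, F m := by
    unfold lg
    rw [sum_filter]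
    refine sum_congr rfl fun m _ => ?_
    rw [hF]
    simp only
    by_cases a1 : V < m ∧ m ≤ Y
    · rw [if_pos a1]
      unfold HT
      by_cases a2 : Q (om m)
      · rw [if_pos ((hTy m).2 a2), if_pos ⟨a1, a2⟩]
      · rw [if_neg (fun h => a2 ((hTy m).1 h)), if_neg (fun h => a2 h.2)]
    · rw [if_neg a1, if_neg (fun h => a1 h.1)]
  have hF1 : F 1 = 0 := by
    rw [hF]
    simp only
    rw [if_neg]
    rintro ⟨⟨h, -⟩, -⟩
    omega
  have h2 : ∑ q ∈ Pz z y, F (q.1 * q.2) = ∑ m ∈ (PP z y).divisors,
      ∑ p ∈ (PS z y).filter (fun p => ∀ r ∈ m.primeFactors, r < p), F (m * p) := by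
    unfold Pz
    rw [sum_filter, sum_product]
    refine sum_congr rfl fun m _ => ?_
    rw [sum_filter]
  rw [h1, sum_split z y F hF1, h2, ← sum_filter_add_sum_filter_not (PP z y).divisors
    (fun m => x ≤ mxp m)]
  refine (abs_add_le _ _).trans (add_le_add ?_ ?_)
  · exact large_part hB hz l hL hy hx hδ he hps hN Q
  · refine (abs_sum_le_sum_abs _ _).trans ?_
    rw [← mul_assoc, mul_sum, sum_mul]
    refine sum_le_sum fun m hm => ?_
    have hm' := (mem_filter.1 hm).1
    rw [mul_sum, sum_mul]
    refine (abs_sum_le_sum_abs _ _).trans (sum_le_sum fun p hp => ?_)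
    rw [mem_filter] at hp
    obtain ⟨hp1, hlt⟩ := hp
    have hm0 := dv_ne_zero hm'
    have hpp : p.Prime := (mem_PS.1 hp1).2
    have hmp : m * p ∈ (PP z y).divisors := by
      have hcop : m.Coprime p := by
        rw [Nat.coprime_comm, hpp.coprime_iff_not_dvd]
        intro hd
        exact absurd (hlt p (Nat.mem_primeFactors.2 ⟨hpp, hd, hm0⟩)) (lt_irrefl _)
      rw [mem_dv_iff] at hm' ⊢
      refine ⟨(Nat.squarefree_mul_iff.2 ⟨hcop, hm'.1, hpp.squarefree⟩), ?_⟩
      rw [Nat.primeFactors_mul hm0 hpp.ne_zero, hpp.primeFactors]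
      exact union_subset hm'.2 (singleton_subset_iff.2 hp1)
    have hu0 : ∀ b, 0 ≤ w b * θ (pi b) := fun b => mul_nonneg (hB.w0 b).le (hθ _).le
    have hdv : ∀ b, Function.update e l (m * p) b ∈ (PP z y).divisors := by
      intro b
      by_cases hb : b = l
      · subst hb
        rw [Function.update_self]
        exact hmp
      · rw [Function.update_of_ne hb]
        exact he b
    have hprod : (∏ b ∈ univ.erase l, gw (w b * θ (pi b)) c (e b)) *
        gw (w l * θ (pi l)) c (m * p) =
        (∏ b, gw (w b) c (Function.update e l (m * p) b)) *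
          ∏ j, θ j ^ Om pi (Function.update e l (m * p)) j := by
      rw [prod_theta, ← prod_mul_distrib]
      simp only [← gw_theta]
      rw [← mul_prod_erase univ _ (mem_univ l), Function.update_self, mul_comm]
      congr 1
      refine prod_congr rfl fun b hb => ?_
      rw [Function.update_of_ne (mem_erase.1 hb).1]
    have hnn : 0 ≤ (∏ b ∈ univ.erase l, gw (w b * θ (pi b)) c (e b)) *
        gw (w l * θ (pi l)) c (m * p) :=
      mul_nonneg (prod_nonneg fun b _ => gw_nonneg (hu0 b) hcz (he b))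
        (gw_nonneg (hu0 l) hcz hmp)
    have hl0e : 0 ≤ l0 ^ e0 := Real.rpow_nonneg hl00.le _
    rw [hF]
    simp only
    split_ifs with hc
    · have hT := (hTy (m * p)).2 hc.2
      have h3 := ty_one_le hly hT θ hθ
      have h4 := abs_HH_le (L := L) (κ := κ) (fun i => (hB.w0 i).le) hcz hdv
      have h5 : 0 ≤ ∏ b, gw (w b) c (Function.update e l (m * p) b) :=
        prod_nonneg fun b _ => gw_nonneg (hB.w0 b).le hcz (hdv b)
      rw [hprod]
      calc |HH w L κ c (Function.update e l (m * p))|
          ≤ (∏ b, gw (w b) c (Function.update e l (m * p) b)) * 1 := by rw [mul_one]; exact h4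
        _ ≤ (∏ b, gw (w b) c (Function.update e l (m * p) b)) *
            ((∏ j, θ j ^ Om pi (Function.update e l (m * p)) j) * l0 ^ e0) :=
            mul_le_mul_of_nonneg_left h3 h5
        _ = _ := by ring
    · rw [abs_zero]
      exact mul_nonneg hnn hl0e

end Pool.Agent.H457.A
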