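import Pool.Agent.H457.A.NE7

set_option autoImplicit false
set_option linter.unusedSectionVars false

/-! The case of equality: one index, the sum over the other variables. -/

namespace Pool.Agent.H457.A

open Finset Filter Pool.Agent.W262.RK Pool.Agent.W262.RK.AT Pool.Agent.W655.RK
open Pool.Agent.W586.RK.UB (ff ff_apply ff_abs ff_exists)

variable {ι J : Type} [Fintype ι] [DecidableEq ι] [Fintype J] [DecidableEq J]

variable {w : ι → ℝ} {L : ι → ι → Bool} {κ : ι → ℤ} {c z : ℕ} {C : ℝ}

lemma card_pf_le {s : Finset ι} {e : ι → ℕ} {K : ℕ} (he : ∀ b ∈ s, e b ≠ 0)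
    (hK : ∀ b ∈ s, om (e b) ≤ K) : (∏ b ∈ s, e b).primeFactors.card ≤ s.card * K := by
  induction s using Finset.induction_on with
  | empty => simp
  | insert a s ha ih =>
    rw [prod_insert ha, Nat.primeFactors_mul (he a (mem_insert_self a s))
      (prod_ne_zero_iff.2 fun b hb => he b (mem_insert_of_mem hb)), card_insert_of_notMem ha]
    have h1 := ih (fun b hb => he b (mem_insert_of_mem hb)) (fun b hb => hK b (mem_insert_of_mem hb))
    have h2 := hK a (mem_insert_self a s)
    have h3 := card_union_le (e a).primeFactors (∏ b ∈ s, e b).primeFactors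
    unfold om at h2
    calc _ ≤ _ := h3
      _ ≤ K + s.card * K := Nat.add_le_add h2 h1
      _ = (s.card + 1) * K := by ring

lemma log_pow_le_aux {A M : ℕ} {l : ℝ} (hl5 : 5 ≤ l) : ((VV A l : ℕ) : ℝ) ^ M ≤ l ^ ((A + 1) * M) := by
  have hl : 1 ≤ l := by linarith
  rw [pow_mul]
  apply pow_le_pow_left₀ (Nat.cast_nonneg _)
  calc ((VV A l : ℕ) : ℝ) ≤ 5 * l ^ A := VV_le hl
    _ ≤ l * l ^ A := mul_le_mul_of_nonneg_right hl5 (by positivity)
    _ = l ^ (A + 1) := by ring

open Classical in
/-- the sum over one index -/
lemma one_index (hB : Bd w κ c z C) (hz : 2 * c + 2 ≤ z) (hκ0 : ∀ i, κ i ≠ 0)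
    (hκz : ∀ i, (κ i).natAbs ≤ z) (A : ℕ) (pi : ι → J) (ε : ℝ) (θ : J → ℝ) (hθ : ∀ j, 0 < θ j)
    (π : ι → Fin 4) (h3 : ∀ k, π k ≠ 3) (i : ι) (hi : π i = 2) (hL : L i i = false)
    (hun : ∀ k, π k = 2 → L i k = L k i) (g : Bool)
    (hg : if g then IsSquare (-κ i) else IsSquare (κ i)) {a : ℝ} (ha0 : 0 ≤ a)
    (ha : ∑ j, (xw w pi (univ.filter (fun k => π k = 2)) j * θ j - Real.log (θ j) +
      ε * |Real.log (θ j)|) - w i * θ (pi i) / 2 < a) :
    ∃ C' : ℝ, 0 ≤ C' ∧ ∀ᶠ y : ℕ in atTop,
      ∑ e ∈ (Fintype.piFinset (Function.update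
        (fun b => cell z y (VV A (Real.log y)) (YY A (Real.log y)) (π b)) i {1})).filter
          (fun e => xor g (tt L i e) = true),
        |∑ m ∈ lg z y (VV A (Real.log y)) (YY A (Real.log y)),
          HT w L κ c pi ε (Real.log y) (Function.update e i m)| ≤ C' * (Real.log y) ^ a := by
  have hcz : c ≤ z := by omega
  have hC0 : 0 ≤ C := zero_le_one.trans hB.C1
  set U := univ.filter (fun k => π k = 2) with hU
  set e0 := ∑ j, (-Real.log (θ j) + ε * |Real.log (θ j)|) with he0
  set u : ι → ℝ := fun b => w b * θ (pi b) with hu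
  have hu0 : ∀ b, 0 ≤ u b := fun b => mul_nonneg (hB.w0 b).le (hθ _).le
  have hiU : i ∈ U := mem_filter.2 ⟨mem_univ i, hi⟩
  have hSU : ∑ k ∈ U, u k = ∑ j, xw w pi U j * θ j := sum_xw_theta w pi U θ
  have hSe : ∑ k ∈ U.erase i, u k = ∑ k ∈ U, u k - u i := by
    rw [← add_sum_erase U u hiU]
    ring
  have hsplit : ∑ j, (xw w pi U j * θ j - Real.log (θ j) + ε * |Real.log (θ j)|) =
      ∑ k ∈ U, u k + e0 := by
    rw [hSU, he0, ← sum_add_distrib]
    exact sum_congr rfl fun j _ => by ring
  set s := a - (∑ k ∈ U, u k + e0 - u i / 2) with hs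
  have hs0 : 0 < s := by
    rw [hs]
    rw [hsplit] at ha
    have : w i * θ (pi i) = u i := rfl
    rw [this] at ha
    linarith
  obtain ⟨Co, hCo0, hCo⟩ := others_le hz u hu0 A π h3 i
    (a := ∑ k ∈ U.erase i, u k + s / 2) (by rw [← hU]; linarith)
  obtain ⟨Cs, hCs0, hCs⟩ := smooth_part c hz (hu0 i) (τ := s / 2) (by linarith)
  set M := Fintype.card ι with hM
  set B := M + 1 with hBdef
  have hps0 := ff_psum (κ i) (hκ0 i) c ((A + 1) * M) B
  set K3 : ℝ := 4 * M * (A + 3) * (2 * (B + 2)).factorial with hK3
  have hK30 : 0 ≤ K3 := by positivity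
  refine ⟨C ^ B * (1 + K3) + Co * Cs, by positivity, ?_⟩
  have hlog : Tendsto (fun y : ℕ => Real.log y) atTop atTop :=
    Real.tendsto_log_atTop.comp tendsto_natCast_atTop_atTop
  filter_upwards [hCs, hps0, eventually_gt_atTop z, hlog.eventually_ge_atTop 5]
    with y hsm hps hy hl5
  have hly := one_le_log hB.z2 hy
  have hly0 : 0 < Real.log y := by linarith
  have hothers := hCo y hy
  set l := Real.log y with hl
  set V := VV A l with hV
  set Y := YY A l with hY
  set t : ι → Finset ℕ := fun b => cell z y V Y (π b) with ht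
  set x := Real.exp (√l) with hx
  have hx0 : 0 < x := Real.exp_pos _
  have hV3 : 3 ≤ V := three_le_VV A l
  have hVY : V ≤ Y := VV_le_YY A l
  have htsub : ∀ b, t b ⊆ (PP z y).divisors := fun b => cell_sub _ _ _ _ _
  set N := M * Nat.log 2 Y with hN
  have hNx : (N : ℝ) * (2 / x) ≤ K3 / l ^ B := by
    have h1 : (N : ℝ) ≤ M * (2 * ((A + 3) * l ^ 2)) := by
      rw [hN]
      push_cast
      apply mul_le_mul_of_nonneg_left _ (Nat.cast_nonneg _)
      have h2 := natlog_le (Y := Y) (by omega)
      have h3 : Real.log Y ≤ (A + 3) * l ^ 2 := log_YY_le hly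
      linarith
    have h2 := exp_sqrt_ge (B + 2) hly0
    have h4 : (0 : ℝ) < ((2 * (B + 2)).factorial : ℝ) := by exact_mod_cast Nat.factorial_pos _
    have h5 : 2 / x ≤ 2 * (2 * (B + 2)).factorial / l ^ (B + 2) := by
      rw [div_le_div_iff₀ hx0 (by positivity)]
      rw [div_le_iff₀ h4] at h2
      linarith
    calc (N : ℝ) * (2 / x) ≤ (M * (2 * ((A + 3) * l ^ 2))) *
          (2 * (2 * (B + 2)).factorial / l ^ (B + 2)) :=
          mul_le_mul h1 h5 (by positivity) (by positivity)
      _ = K3 / l ^ B := by
          rw [hK3, pow_add]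
          field_simp
          ring
  have hδ0 : (0 : ℝ) ≤ 1 / l ^ B := by positivity
  set E := 1 / l ^ B + N * (2 / x) with hE
  have hE0 : 0 ≤ E := by positivity
  have hEle : E ≤ (1 + K3) / l ^ B := by
    rw [hE, add_div]
    linarith
  set Sm := ∑ m ∈ (PP z y).divisors.filter (fun m => ¬ x ≤ mxp m),
        ∑ p ∈ (PS z y).filter (fun p => ∀ r ∈ m.primeFactors, r < p), gw (u i) c (m * p) with hSm
  -- for fixed other variables
  have hstep : ∀ e ∈ (Fintype.piFinset (Function.update t i {1})).filter
      (fun e => xor g (tt L i e) = true),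
      |∑ m ∈ lg z y V Y, HT w L κ c pi ε l (Function.update e i m)| ≤
      (∏ b ∈ univ.erase i, gw (w b) c (e b)) * ((C * l) * E) +
      (∏ b ∈ univ.erase i, gw (u b) c (e b)) * (Sm * l ^ e0) := by
    intro e he
    rw [mem_filter, Fintype.mem_piFinset] at he
    obtain ⟨he, hxor⟩ := he
    have hmem : ∀ b, b ≠ i → e b ∈ t b := by
      intro b hb
      have := he b
      rwa [Function.update_of_ne hb] at this
    have hdv : ∀ b, e b ∈ (PP z y).divisors := by
      intro b
      by_cases hb : b = i
      · subst hb
        have := he b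
        rw [Function.update_self, mem_singleton] at this
        rw [this]
        exact one_mem_dv z y
      · exact htsub b (hmem b hb)
    have hSm0 : 0 ≤ Sm := by
      rw [hSm]
      refine sum_nonneg fun m hm => sum_nonneg fun p hp => ?_
      have hm' := (mem_filter.1 hm).1
      rw [mem_filter] at hp
      rw [gw_mul (dv_ne_zero hm') (mem_PS.1 hp.1).2 hp.2]
      have h1 := (mem_PS.1 hp.1).1.1
      have h2 : (c : ℝ) < p := by exact_mod_cast (by omega : c < p)
      exact mul_nonneg (gw_nonneg (hu0 i) hcz hm') (div_nonneg (hu0 i) (by linarith))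
    have hb0 : 0 ≤ (∏ b ∈ univ.erase i, gw (w b) c (e b)) * ((C * l) * E) +
      (∏ b ∈ univ.erase i, gw (u b) c (e b)) * (Sm * l ^ e0) := by
      have h1 : 0 ≤ ∏ b ∈ univ.erase i, gw (w b) c (e b) :=
        prod_nonneg fun b _ => gw_nonneg (hB.w0 b).le hcz (hdv b)
      have h2 : 0 ≤ ∏ b ∈ univ.erase i, gw (u b) c (e b) :=
        prod_nonneg fun b _ => gw_nonneg (hu0 b) hcz (hdv b)
      have h3 : 0 ≤ l ^ e0 := Real.rpow_nonneg hly0.le _
      positivity
    by_cases hcop : ∀ a b, a ≠ i → b ≠ i → a ≠ b → (e a).Coprime (e b)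
    · have hlk1 : 1 ≤ lk L i e := by
        unfold lk
        exact Nat.one_le_iff_ne_zero.2 (prod_ne_zero_iff.2 fun b _ => dv_ne_zero (hdv b))
      have hsq : Squarefree (lk L i e) := by
        unfold lk
        apply squarefree_prod
        · intro b _
          exact dv_squarefree (hdv b)
        · intro a ha b hb hab
          exact hcop a b (mem_erase.1 (mem_filter.1 ha).1).1 (mem_erase.1 (mem_filter.1 hb).1).1 hab
      have hlkV : lk L i e ≤ V ^ M := by
        unfold lk
        calc ∏ b ∈ (univ.erase i).filter (fun b => L i b ≠ L b i), e b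
            ≤ ∏ b ∈ (univ.erase i).filter (fun b => L i b ≠ L b i), V := by
              refine prod_le_prod' fun b hb => ?_
              rw [mem_filter, mem_erase] at hb
              have hm := hmem b hb.1.1
              have h2 : π b ≠ 2 := fun h => hb.2 (hun b h)
              have : π b = 0 ∨ π b = 1 := by
                have h3b := h3 b
                revert h2 h3b
                generalize π b = r
                revert r
                decide
              rw [ht] at hm
              simp only at hm
              rcases this with h | h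
              · rw [h] at hm
                have := cell_zero hm
                omega
              · rw [h] at hm
                exact (cell_one hm).2
          _ = V ^ ((univ.erase i).filter (fun b => L i b ≠ L b i)).card := by rw [prod_const]
          _ ≤ V ^ M := Nat.pow_le_pow_right (by omega)
              ((card_le_card (subset_univ _)).trans (le_of_eq card_univ))
      have hlkR : ((lk L i e : ℕ) : ℝ) ≤ l ^ ((A + 1) * M) := by
        calc ((lk L i e : ℕ) : ℝ) ≤ ((V ^ M : ℕ) : ℝ) := by exact_mod_cast hlkV
          _ = ((V : ℕ) : ℝ) ^ M := by push_cast; rfl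
          _ ≤ _ := log_pow_le_aux hl5
      have hwit : ∃ n0 : ℕ, n0.Coprime (4 * (κ i).natAbs * lk L i e) ∧
          ff (κ i) (lk L i e) (tt L i e) n0 = -1 := by
        rcases Nat.lt_or_ge 1 (lk L i e) with h | h
        · exact ff_exists (κ i) z (lk L i e) (tt L i e) (hκ0 i) hB.z2 (hκz i) h hsq
            (fun p hp hpr => lk_primes hdv hp hpr)
        · have h1 : lk L i e = 1 := le_antisymm h hlk1
          rw [h1]
          exact ff_one_exists (hκ0 i) hxor hg
      have hp := hps (lk L i e) (tt L i e) hlk1 hlkR hwit
      have hNb : (∏ b ∈ univ.erase i, e b).primeFactors.card ≤ N := by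
        refine (card_pf_le (K := Nat.log 2 Y) (fun b _ => dv_ne_zero (hdv b)) fun b hb => ?_).trans ?_
        · have hm := hmem b (mem_erase.1 hb).1
          refine om_le_log (dv_pos (hdv b)) ?_
          have h3b := h3 b
          have : π b = 0 ∨ π b = 1 ∨ π b = 2 := by
            revert h3b
            generalize π b = r
            revert r
            decide
          rw [ht] at hm
          simp only at hm
          rcases this with h | h | h
          · rw [h] at hm
            have := cell_zero hm
            omega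
          · rw [h] at hm
            have := cell_one hm
            omega
          · rw [h, cell_two (by omega)] at hm
            exact (mem_filter.1 hm).2.2
        · exact Nat.mul_le_mul_right _ ((card_le_card (erase_subset _ _)).trans (le_of_eq card_univ))
      exact one_e hB hz i hL pi ε θ hθ hy (by omega) hx0 hδ0 hdv hp hNb
    · have h0 : ∀ m, HT w L κ c pi ε l (Function.update e i m) = 0 := by
        intro m
        unfold HT
        have : HH w L κ c (Function.update e i m) = 0 := by
          unfold HH
          rw [if_neg]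
          intro h
          apply hcop
          intro a b ha hb hab
          have := h a b hab
          rwa [Function.update_of_ne ha, Function.update_of_ne hb] at this
        rw [this, ite_self]
      simp only [h0, sum_const_zero, abs_zero]
      exact hb0
  refine (sum_le_sum hstep).trans ?_
  have hnn : ∀ e ∈ Fintype.piFinset (Function.update t i {1}), ∀ b, e b ∈ (PP z y).divisors := by
    intro e he b
    rw [Fintype.mem_piFinset] at he
    have := he b
    by_cases hb : b = i
    · subst hb
      rw [Function.update_self, mem_singleton] at this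
      rw [this]
      exact one_mem_dv z y
    · rw [Function.update_of_ne hb] at this
      exact htsub b this
  have hSm0 : 0 ≤ Sm := by
    rw [hSm]
    refine sum_nonneg fun m hm => sum_nonneg fun p hp => ?_
    have hm' := (mem_filter.1 hm).1
    rw [mem_filter] at hp
    rw [gw_mul (dv_ne_zero hm') (mem_PS.1 hp.1).2 hp.2]
    have h1 := (mem_PS.1 hp.1).1.1
    have h2 : (c : ℝ) < p := by exact_mod_cast (by omega : c < p)
    exact mul_nonneg (gw_nonneg (hu0 i) hcz hm') (div_nonneg (hu0 i) (by linarith))
  have hl0e : 0 ≤ l ^ e0 := Real.rpow_nonneg hly0.le _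
  calc _ ≤ ∑ e ∈ Fintype.piFinset (Function.update t i {1}),
          ((∏ b ∈ univ.erase i, gw (w b) c (e b)) * ((C * l) * E) +
          (∏ b ∈ univ.erase i, gw (u b) c (e b)) * (Sm * l ^ e0)) := by
        apply sum_le_sum_of_subset_of_nonneg (filter_subset _ _)
        intro e he _
        have h1 : 0 ≤ ∏ b ∈ univ.erase i, gw (w b) c (e b) :=
          prod_nonneg fun b _ => gw_nonneg (hB.w0 b).le hcz (hnn e he b)
        have h2 : 0 ≤ ∏ b ∈ univ.erase i, gw (u b) c (e b) :=
          prod_nonneg fun b _ => gw_nonneg (hu0 b) hcz (hnn e he b)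
        positivity
    _ = (∏ b ∈ univ.erase i, ∑ m ∈ t b, gw (w b) c m) * ((C * l) * E) +
        (∏ b ∈ univ.erase i, ∑ m ∈ t b, gw (u b) c m) * (Sm * l ^ e0) := by
        rw [sum_add_distrib, ← sum_mul, ← sum_mul, sum_others i t (fun b m => gw (w b) c m),
          sum_others i t (fun b m => gw (u b) c m)]
    _ ≤ C ^ B * (1 + K3) + Co * Cs * l ^ a := by
        have hprod1 : ∏ b ∈ univ.erase i, ∑ m ∈ t b, gw (w b) c m ≤ (C * l) ^ M := by
          have hCl : 1 ≤ C * l := by nlinarith [hB.C1]
          calc ∏ b ∈ univ.erase i, ∑ m ∈ t b, gw (w b) c m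
              ≤ ∏ b ∈ univ.erase i, (C * l) := by
                apply Finset.prod_le_prod
                · intro b _
                  exact sum_nonneg fun m hm => gw_nonneg (hB.w0 b).le hcz (htsub b hm)
                · intro b _
                  refine le_trans ?_ (cs_any hB hy V Y b (π b))
                  exact sum_le_sum fun m hm => gw_le_hh hB b (htsub b hm)
            _ = (C * l) ^ (univ.erase i).card := by rw [prod_const]
            _ ≤ (C * l) ^ M := by
                apply pow_le_pow_right₀ hCl
                exact (card_le_card (erase_subset _ _)).trans (le_of_eq card_univ)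
        apply add_le_add
        · calc (∏ b ∈ univ.erase i, ∑ m ∈ t b, gw (w b) c m) * ((C * l) * E)
              ≤ (C * l) ^ M * ((C * l) * ((1 + K3) / l ^ B)) := by
                apply mul_le_mul hprod1 _ (by positivity) (by positivity)
                exact mul_le_mul_of_nonneg_left hEle (by positivity)
            _ = C ^ B * (1 + K3) := by
                rw [hBdef, mul_pow, pow_succ, pow_succ]
                field_simp
        · have h1 : ∏ b ∈ univ.erase i, ∑ m ∈ t b, gw (u b) c m ≤
              Co * l ^ (∑ k ∈ U.erase i, u k + s / 2) := hothers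
          have h2 : Sm ≤ Cs * l ^ (u i / 2 + s / 2) := hsm
          calc (∏ b ∈ univ.erase i, ∑ m ∈ t b, gw (u b) c m) * (Sm * l ^ e0)
              ≤ (Co * l ^ (∑ k ∈ U.erase i, u k + s / 2)) *
                ((Cs * l ^ (u i / 2 + s / 2)) * l ^ e0) := by
                apply mul_le_mul h1 (mul_le_mul_of_nonneg_right h2 hl0e)
                  (mul_nonneg hSm0 hl0e)
                exact mul_nonneg hCo0 (Real.rpow_nonneg hly0.le _)
            _ = Co * Cs * (l ^ (∑ k ∈ U.erase i, u k + s / 2) * (l ^ (u i / 2 + s / 2) *
                l ^ e0)) := by ring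
            _ = Co * Cs * l ^ a := by
                rw [← Real.rpow_add hly0, ← Real.rpow_add hly0]
                congr 2
                rw [hSe, hs]
                ring
    _ ≤ (C ^ B * (1 + K3) + Co * Cs) * l ^ a := by
        have h1 : 1 ≤ l ^ a := Real.one_le_rpow hly ha0
        have h2 : C ^ B * (1 + K3) ≤ C ^ B * (1 + K3) * l ^ a :=
          le_mul_of_one_le_right (by positivity) h1
        rw [add_mul]
        linarith

end Pool.Agent.H457.A
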