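import Pool.Agent.H457.A.NE8

set_option autoImplicit false
set_option linter.unusedSectionVars false

/-! The case of equality. -/

namespace Pool.Agent.H457.A

open Finset Filter Pool.Agent.W262.RK Pool.Agent.W262.RK.AT Pool.Agent.W655.RK
open Pool.Agent.W586.RK.UB (ff ff_apply ff_abs ff_exists)

variable {ι J : Type} [Fintype ι] [DecidableEq ι] [Fintype J] [DecidableEq J]

variable {w : ι → ℝ} {L : ι → ι → Bool} {κ : ι → ℤ} {c z : ℕ} {C : ℝ}

lemma tt_rs {T : Finset ι} (hLT : ∀ l ∈ T, ∀ l' ∈ T, L l l' = false) {l : ι} (hl : l ∈ T)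
    (e : ι → ℕ) : tt L l (fun b => if b ∈ T then 1 else e b) = tt L l e := by
  unfold tt
  congr 3
  refine filter_congr fun a _ => ?_
  by_cases ha : a ∈ T
  · rw [hLT a ha l hl]
    simp
  · simp only [if_neg ha]

/-- **The case of equality.** -/
lemma ne_case (hB : Bd w κ c z C) (hz : 2 * c + 2 ≤ z) (hκ0 : ∀ i, κ i ≠ 0)
    (hκz : ∀ i, (κ i).natAbs ≤ z) (hL : ∀ i, L i i = false) (A : ℕ) (pi : ι → J) (ε : ℝ)
    (θ : J → ℝ) (hθ : ∀ j, 0 < θ j) (π : ι → Fin 4) (h3 : ∀ k, π k ≠ 3)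
    (hl : ∀ i j, π i = 2 → π j = 2 → L i j = L j i) {T : Finset ι} {g : ι → Bool}
    (hT : TC L κ T g) (hT2 : ∀ l ∈ T, π l = 2) {a : ℝ} (ha0 : 0 ≤ a)
    (ha : ∀ l ∈ T, ∑ j, (xw w pi (univ.filter (fun k => π k = 2)) j * θ j - Real.log (θ j) +
      ε * |Real.log (θ j)|) - w l * θ (pi l) / 2 < a) :
    ∃ C' : ℝ, 0 ≤ C' ∧ ∀ᶠ y : ℕ in atTop,
      |∑ d ∈ Fintype.piFinset (fun b => cell z y (VV A (Real.log y)) (YY A (Real.log y)) (π b)),
        HT w L κ c pi ε (Real.log y) d| ≤ C' * (Real.log y) ^ a := by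
  classical
  choose f hfT hfx using fun e => hT.ex e
  set rs : (ι → ℕ) → (ι → ℕ) := fun d b => if b ∈ T then 1 else d b with hrs
  set sel : (ι → ℕ) → ι := fun d => f (rs d) with hsel
  have hone : ∀ l : ι, ∃ C' : ℝ, 0 ≤ C' ∧ (l ∈ T → ∀ᶠ y : ℕ in atTop,
      ∑ e ∈ (Fintype.piFinset (Function.update
        (fun b => cell z y (VV A (Real.log y)) (YY A (Real.log y)) (π b)) l {1})).filter
          (fun e => xor (g l) (tt L l e) = true),
        |∑ m ∈ lg z y (VV A (Real.log y)) (YY A (Real.log y)),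
          HT w L κ c pi ε (Real.log y) (Function.update e l m)| ≤ C' * (Real.log y) ^ a) := by
    intro l
    by_cases hlT : l ∈ T
    · obtain ⟨C', hC', h⟩ := one_index (L := L) hB hz hκ0 hκz A pi ε θ hθ π h3 l (hT2 l hlT) (hL l)
        (fun k hk => hl l k (hT2 l hlT) hk) (g l) (hT.sq l hlT) ha0 (ha l hlT)
      exact ⟨C', hC', fun _ => h⟩
    · exact ⟨0, le_rfl, fun h => absurd h hlT⟩
  choose C' hC'0 hC' using hone
  refine ⟨∑ l ∈ T, C' l, sum_nonneg fun l _ => hC'0 l, ?_⟩
  have hev : ∀ᶠ y : ℕ in atTop, ∀ l ∈ T,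
      ∑ e ∈ (Fintype.piFinset (Function.update
        (fun b => cell z y (VV A (Real.log y)) (YY A (Real.log y)) (π b)) l {1})).filter
          (fun e => xor (g l) (tt L l e) = true),
        |∑ m ∈ lg z y (VV A (Real.log y)) (YY A (Real.log y)),
          HT w L κ c pi ε (Real.log y) (Function.update e l m)| ≤ C' l * (Real.log y) ^ a :=
    (Finset.eventually_all T).2 fun l hl => hC' l hl
  filter_upwards [hev] with y hy
  set l0 := Real.log y with hl0
  set V := VV A l0 with hV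
  set Y := YY A l0 with hY
  set t : ι → Finset ℕ := fun b => cell z y V Y (π b) with ht
  have hV3 : 3 ≤ V := three_le_VV A l0
  have h1 : ∑ d ∈ Fintype.piFinset t, HT w L κ c pi ε l0 d =
      ∑ l ∈ T, ∑ d ∈ Fintype.piFinset t, (if sel d = l then HT w L κ c pi ε l0 d else 0) := by
    rw [sum_comm]
    refine sum_congr rfl fun d _ => ?_
    rw [sum_ite_eq T (sel d) (fun _ => HT w L κ c pi ε l0 d), if_pos (hfT (rs d))]
  rw [h1, sum_mul]
  refine (abs_sum_le_sum_abs _ _).trans (sum_le_sum fun l hlT => ?_)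
  refine le_trans ?_ (hy l hlT)
  have hself : ∀ (e : ι → ℕ) (m : ℕ), sel (Function.update e l m) = sel e := by
    intro e m
    rw [hsel]
    simp only
    congr 1
    rw [hrs]
    funext b
    simp only
    by_cases hb : b ∈ T
    · rw [if_pos hb, if_pos hb]
    · rw [if_neg hb, if_neg hb, Function.update_of_ne]
      rintro rfl
      exact hb hlT
  rw [sum_update t l, sum_filter]
  refine (abs_sum_le_sum_abs _ _).trans (sum_le_sum fun e _ => ?_)
  simp only [hself]
  have htl : t l = lg z y V Y := by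
    rw [ht]
    simp only
    rw [hT2 l hlT]
    exact cell_two (by omega)
  rw [htl]
  by_cases hs : sel e = l
  · have hx : xor (g l) (tt L l e) = true := by
      have h2 := hfx (rs e)
      have h4 : f (rs e) = l := hs
      rw [h4, hrs] at h2
      rwa [tt_rs hT.LT hlT] at h2
    rw [if_pos hx]
    simp only [hs, if_true]
    exact le_rfl
  · simp only [hs, if_false, sum_const_zero, abs_zero]
    split_ifs
    · exact abs_nonneg _
    · exact le_rfl

end Pool.Agent.H457.A
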