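import Pool.Agent.H457.A.T1d
import Pool.Agent.H457.A.T1i
import Pool.Graph.R_seed8.W262.SH.Fam
import Pool.Graph.R_seed8.W131.SH.Locl2
import Pool.Graph.R_seed8.W839.SH.Desc5

set_option autoImplicit false
set_option linter.unusedSectionVars false

/-! The curves `y² = x (x - D a) (x - D b)`, with `a`, `b` coprime: the bound of the number of the
Selmer pairs. -/

namespace Pool.Agent.H457.A

open Finset Pool.Agent.W262.RK Pool.Agent.W307.RT Pool.Agent.W29.RT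
open Pool.Agent.W45.RT (splitSum S1_mem S2_mem S1_mul_S2)
open Pool.Agent.W262.SH (SelS LocSol DESC5 LOCL2)

theorem desc5 : DESC5 := Pool.Agent.W839.SH.desc5 Pool.Agent.W131.SH.good2

variable {σ τ : ℤ} {D z y : ℕ}

/-- the number of the Selmer pairs is bounded by the local count -/
lemma sel3 (hσ : σ = 1 ∨ σ = -1) (hτ : τ = 1 ∨ τ = -1) (hD : 0 < D) (hz : 2 * D + 8 ≤ z)
    {t : ℕ × ℕ} (ht : t.1.Coprime t.2) (h0 : ∀ j, F3 σ τ t j ≠ 0) {X k : ℕ}
    (hb : ∀ j, (F3 σ τ t j).natAbs ≤ X ^ 2) (hy : 1 ≤ y) (hk : X < (y + 1) ^ k) :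
    (SelS (D * F3 σ τ t 0) (D * F3 σ τ t 1)).Finite ∧
    (SelS (D * F3 σ τ t 0) (D * F3 σ τ t 1)).ncard ≤
      4 ^ (sm3 σ τ z t + om D + 3) * 2 ^ (12 * k) * 4 ^ (∑ j, om (S2 z y (F3 σ τ t) j)) *
        NL (∏ j, S1 z y (F3 σ τ t) j) (LLg (LC4 cls3 (fun _ => true) (ka3 D τ))
          (S1 z y (F3 σ τ t)) (ng3 t (S1 z y (F3 σ τ t)))) := by
  have hD0 : (D : ℤ) ≠ 0 := by exact_mod_cast hD.ne'
  set s := S1 z y (F3 σ τ t) with hs
  have hG := gd3 hσ hτ (by omega : 8 ≤ z) ht h0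
  have hmem : s ∈ Tup (Fin 3) z y := S1_mem hG
  have hmd : ∏ j, s j ∣ PP z y := Tup_prod_dvd hmem
  have hsne : ∏ j, s j ≠ 0 := prod_ne_zero_iff.2 fun l _ => (Tup_pos hmem l).ne'
  have hPSof : ∀ p : ℕ, p.Prime → p ∣ ∏ j, s j → p ∈ PS z y := fun p hp h =>
    (prime_dvd_PP hp).1 (h.trans hmd)
  have hodd : ∀ p : ℕ, p.Prime → p ∣ ∏ j, s j → p ≠ 2 := by
    intro p hp h
    have h1 := (mem_PS.1 (hPSof p hp h)).1.1
    omega
  have hB := bg3 hσ hτ (by omega : 8 ≤ z)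
  -- the primes do not divide the second coordinate
  have hjof : ∀ p : ℕ, p.Prime → p ∣ ∏ j, s j → ∃ j, p ∣ s j := fun p hp h => by
    obtain ⟨j, -, hj⟩ := (hp.prime.dvd_finsetProd_iff _).1 h
    exact ⟨j, hj⟩
  have hFof : ∀ (p : ℕ) (j : Fin 3), p.Prime → p ∣ s j → p ∈ PS z y ∧ (p : ℤ) ∣ F3 σ τ t j ∧
      ¬ (p : ℤ) ^ 2 ∣ F3 σ τ t j := fun p j hp h => (dvd_S1 hp).1 h
  have hwof : ∀ p : ℕ, p.Prime → p ∣ ∏ j, s j → ¬ p ∣ t.2 := by
    intro p hp h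
    obtain ⟨j, hj⟩ := hjof p hp h
    obtain ⟨h1, h2, -⟩ := hFof p j hp hj
    exact un_of hB ht hp (mem_PS.1 h1).1.1 h2
  have hκof : ∀ p : ℕ, p.Prime → p ∣ ∏ j, s j → ∀ j, ¬ (p : ℤ) ∣ ka3 D τ j 0 := by
    intro p hp h j hd
    have h1 := (mem_PS.1 (hPSof p hp h)).1.1
    have h2 := Nat.le_of_dvd (Int.natAbs_pos.2 (ka3_ne hD hτ j 0)) (Int.natCast_dvd.1 hd)
    have h3 : (ka3 D τ j 0).natAbs ≤ 2 * D := by
      refine le_trans ?_ (ka3_le (D := D) hτ j)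
      have q1 := Int.natAbs_pos.2 (ka3_ne hD hτ j 1)
      have q2 := Int.natAbs_pos.2 (ka3_ne hD hτ j 2)
      rw [mul_assoc]
      exact Nat.le_mul_of_pos_right _ (by positivity)
    omega
  -- the condition with the modified constants
  set κ' : Fin 3 → Fin 3 → ℤ := fun j _ => ka3 D τ j 0 * t.2 with hκ'
  have hnκ : ∀ p : ℕ, p.Prime → p ∣ ∏ j, s j → ∀ j k, ¬ (p : ℤ) ∣ κ' j k := by
    intro p hp h j k hd
    have hpi : Prime (p : ℤ) := Nat.prime_iff_prime_int.1 hp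
    rcases hpi.dvd_or_dvd hd with h1 | h1
    · exact hκof p hp h j h1
    · exact hwof p hp h (by exact_mod_cast h1)
  have hLeq : ∀ p : ℕ, p.Prime → p ∣ ∏ j, s j → ∀ v w h g,
      (LLg (LC4 cls3 (fun _ => true) (ka3 D τ)) s (ng3 t s) p v w h g ↔
        LLs cls3 κ' s ∅ p v w h g) := by
    intro p hp hpd v w h g
    have hdec : decide (p ∈ ng3 t s) = decide (jacobiSym (t.2 : ℤ) p = -1) := by
      apply decide_eq_decide.2
      unfold ng3
      rw [mem_filter]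
      exact ⟨fun h => h.2, fun h => ⟨Nat.mem_primeFactors.2 ⟨hp, hpd, hsne⟩, h⟩⟩
    have hE : decide (p ∈ (∅ : Finset ℕ)) = false := by simp
    unfold LLg LLs
    rw [hdec, hE]
    refine forall_congr' fun j => imp_congr_right fun hj => ?_
    exact LC_eq (ka3 D τ) j hp (hwof p hp hpd) (hκof p hp hpd j) v w h g
  have hNL : NL (∏ j, s j) (LLg (LC4 cls3 (fun _ => true) (ka3 D τ)) s (ng3 t s)) =
      NL (∏ j, s j) (LLs cls3 κ' s ∅) := by
    classical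
    unfold NL
    congr 1
    apply filter_congr
    intro d _
    refine forall_congr' fun p => imp_congr_right fun hp => ?_
    exact hLeq p (Nat.prime_of_mem_primeFactors hp) (Nat.dvd_of_mem_primeFactors hp) _ _ _ _
  rw [hNL]
  have hAB : (D : ℤ) * F3 σ τ t 0 ≠ D * F3 σ τ t 1 := by
    intro h
    have h1 := mul_left_cancel₀ hD0 h
    apply h0 2
    rw [F3_2, h1, sub_self]
  have hd := desc5 (∏ j, s j) (LLs cls3 κ' s ∅)
    (D * F3 σ τ t 0) (D * F3 σ τ t 1) (mul_ne_zero hD0 (h0 0)) (mul_ne_zero hD0 (h0 1)) hAB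
    (by
      rw [← Nat.not_even_iff_odd, even_iff_two_dvd]
      intro h
      exact hodd 2 Nat.prime_two h rfl)
    ((PP_squarefree z y).squarefree_of_dvd hmd)
    (fun p hp hpd => ⟨fun j hj =>
        (Pool.Agent.W342.RK2.xcl _ _ _ p hp (hodd p hp hpd) (hnκ p hp hpd j)).1,
      fun a1 b1 c1 d1 a2 b2 c2 d2 e1 e2 j hj =>
        (Pool.Agent.W342.RK2.xcl _ _ _ p hp (hodd p hp hpd) (hnκ p hp hpd j)).2
          a1 b1 c1 d1 a2 b2 c2 d2 (e1 j hj) (e2 j hj)⟩)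
    (fun p hp hpd e1 e2 he1 he2 hls j hj => by
      have hpp : p.Prime := Fact.out
      obtain ⟨h1, h2, h3⟩ := hFof p j hpp hj
      have hzp := (mem_PS.1 h1).1.1
      have hE : decide (p ∈ (∅ : Finset ℕ)) = false := by simp
      rw [hE]
      exact Pool.Agent.W131.SH.locl2 (cls3 j) (κ' j) false p _ _ (hodd p hpp hpd)
        (hnκ p hpp hpd j) (locH3 hσ hτ hD hz ht hpp hzp h2 h3) e1 e2 he1 he2 hls)
  refine ⟨hd.1, hd.2.trans (Nat.mul_le_mul_right _ ?_)⟩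
  have hc := bad3 (σ := σ) (τ := τ) (D := D) (z := z) h0 hD hy hb hk
  rw [← hs] at hc
  calc 4 ^ (((2 * (D * F3 σ τ t 0) * (D * F3 σ τ t 1) *
        (D * F3 σ τ t 0 - D * F3 σ τ t 1)).natAbs.primeFactors.filter
          (fun q => ¬ q ∣ ∏ j, s j)).card + 2)
      ≤ 4 ^ ((sm3 σ τ z t + om D + 3) + 6 * k + ∑ j, om (S2 z y (F3 σ τ t) j)) :=
        Nat.pow_le_pow_right (by norm_num) (by omega)
    _ = _ := by
        rw [pow_add, pow_add]
        congr 2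
        rw [show (4 : ℕ) = 2 ^ 2 by norm_num, ← pow_mul]
        congr 1
        ring

end Pool.Agent.H457.A
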