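import Pool.Agent.H457.A.S1d
import Pool.Graph.R_pool_sql_team_seeded_f72693b1.W262.SH.Kum
import Pool.Graph.R_pool_sql_team_seeded_f72693b1.W177.SH.Div
import Pool.Graph.R_pool_sql_team_seeded_f72693b1.W333.SH.Dup
import Pool.Graph.R_pool_sql_team_seeded_f72693b1.W782.SH.LocX
import Pool.Graph.R_pool_sql_team_seeded_f72693b1.W334.SH.Sh1
import Pool.Graph.R_pool_sql_team_seeded_f72693b1.W338.SH.Sh2

set_option autoImplicit false
set_option linter.unusedSectionVars false

/-! The curves `y² = x (x - D a) (x - D b)`, with `a`, `b` coprime: the family, for the number of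
the Selmer pairs. -/

namespace Pool.Agent.H457.A

open Finset Pool.Agent.W262.RK Pool.Agent.W307.RT Pool.Agent.W29.RT
open Pool.Agent.W45.RT (splitSum S1_mem S2_mem S1_mul_S2)
open Pool.Agent.W262.SH (SelS SH1 SH2 wt wt_le E Sha selS_finite)

theorem sh1 : SH1 := Pool.Agent.W334.SH.sh1 Pool.Agent.W262.SH.kum
  (Pool.Agent.W782.SH.locx Pool.Agent.W333.SH.dup)

theorem sh2 : SH2 := Pool.Agent.W338.SH.sh2 Pool.Agent.W177.SH.div

open scoped Classical in
lemma sha_fin {A B : ℤ} (hA : A ≠ 0) (hB : B ≠ 0) (hAB : A ≠ B) :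
    Finite {c : Sha (E A B) // c + c = 0} :=
  (sh2 A B hA hB hAB (sh1 A B hA hB hAB (selS_finite desc5 hA hB hAB)).1).1

lemma wt_ge {A B : ℤ} (hA : A ≠ 0) (hB : B ≠ 0) (hAB : A ≠ B) : 1 ≤ wt A B := by
  classical
  have hf := sha_fin hA hB hAB
  have : Nonempty {c : Sha (E A B) // c + c = 0} := ⟨⟨0, by simp⟩⟩
  have h1 : 1 ≤ Nat.card {c : Sha (E A B) // c + c = 0} := Nat.card_pos
  have h2 : (1 : ℝ) ≤ Nat.card {c : Sha (E A B) // c + c = 0} := by exact_mod_cast h1
  have h3 : (1 : ℝ) ≤ (2 : ℝ) ^ Module.finrank ℤ (E A B).toAffine.Point :=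
    one_le_pow₀ (by norm_num)
  unfold wt
  nlinarith

lemma ncard_pos {A B : ℤ} (hA : A ≠ 0) (hB : B ≠ 0) (hAB : A ≠ B) : (SelS A B).ncard ≠ 0 := by
  intro h
  have h1 := wt_ge hA hB hAB
  have h2 := wt_le desc5 sh1 sh2 hA hB hAB
  rw [h] at h2
  norm_num at h2
  linarith

/-- the logarithm of the number of the Selmer pairs -/
noncomputable def rk3S (σ τ : ℤ) (D : ℕ) (t : ℕ × ℕ) : ℕ :=
  Nat.log 2 (SelS (D * F3 σ τ t 0) (D * F3 σ τ t 1)).ncard

variable {σ τ : ℤ} {D z a0 : ℕ} {C0 : ℝ} {K y0 : ℕ}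

lemma fam3S (hCN : CN C0 K y0) (hσ : σ = 1 ∨ σ = -1) (hτ : τ = 1 ∨ τ = -1) (hD : 0 < D)
    (hz : 2 * D + 8 ≤ z) :
    Fam cls3 (fun _ => true) (ka3 D τ) z (TX3 σ τ z a0) (F3 σ τ) ng3 (rk3S σ τ D)
      (fun X : ℕ => (X : ℝ) ^ 2) (C0 * (Real.log z) ^ 3 + 1) K y0 (a0 + om D + 3) 12 := by
  have hB := bg3 hσ hτ (by omega : 8 ≤ z)
  have hlogz : 0 ≤ Real.log z := Real.log_natCast_nonneg z
  have hcz : 3 ≤ z := by omega
  exact
    { S0 := fun X => by positivity
      C0 := by have := hCN.h0; positivity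
      card := by
        intro X
        have h1 : (TX3 σ τ z a0 X).card ≤ X * X := by
          refine (card_le_card (filter_subset _ _)).trans ?_
          rw [card_product]
          simp
        have h2 : ((TX3 σ τ z a0 X).card : ℝ) ≤ (X : ℝ) ^ 2 := by
          rw [sq]
          exact_mod_cast h1
        have h3 : (0 : ℝ) ≤ (X : ℝ) ^ 2 := by positivity
        have h4 : 0 ≤ C0 * (Real.log z) ^ 3 := by have := hCN.h0; positivity
        nlinarith
      good := by
        intro X t ht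
        unfold TX3 at ht
        rw [mem_filter] at ht
        exact gd3 hσ hτ (by omega) ht.2.1 ht.2.2.1
      neg_sub := by
        intro t s
        rw [PF_true]
        exact filter_subset _ _
      cnt := by
        intro X y Y hy0 hzy hyX s hs v hv u hu h8 E T' hT' hω
        rw [PF_true]
        have h1 := hCN.h (al3 σ) (be3 τ) z hB (by simp; omega) X y Y hy0 hzy hyX s hs v hv u hu h8 E
        have h2 : T' ⊆ TS (al3 σ) (be3 τ) z y X s v u E := by
          intro t ht
          have h3 := hT' ht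
          obtain ⟨e1, e2, e3, e4⟩ := hω t ht
          unfold TX3 at h3
          rw [mem_filter] at h3
          refine mem_TS h3.1 h3.2.1 e1 e2 e3 fun p hp => ?_
          have hpp := Nat.prime_of_mem_primeFactors hp
          obtain ⟨j, -, hj⟩ := (hpp.prime.dvd_finsetProd_iff _).1 (Nat.dvd_of_mem_primeFactors hp)
          have hw : ¬ p ∣ t.2 := by
            have h4 : p ∣ S1 z y (F3 σ τ t) j := by rw [e1]; exact hj
            obtain ⟨h5, h6, -⟩ := (dvd_S1 hpp).1 h4
            exact un_of hB h3.2.1 hpp (mem_PS.1 h5).1.1 h6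
          split_ifs with hE
          · rw [← e4] at hE
            unfold ng3 at hE
            exact (mem_filter.1 hE).2
          · rcases jac_pm hpp hw with h | h
            · exact h
            · exfalso
              apply hE
              rw [← e4]
              unfold ng3
              exact mem_filter.2 ⟨hp, h⟩
        have h3 : (T'.card : ℝ) ≤ _ := le_trans (by exact_mod_cast card_le_card h2) h1
        refine h3.trans ?_
        rw [Fintype.card_fin]
        have hg : 0 ≤ (X : ℝ) ^ 2 * (1 / 2) ^ (∏ j, s j).primeFactors.card *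
            (∏ j, gw 1 3 (s j)) * (∏ j, gw 1 3 (v j) / v j) * (∏ j, 1 / (u j : ℝ)) /
              (Real.log y) ^ 3 := by
          apply div_nonneg _ (pow_nonneg (Real.log_natCast_nonneg _) _)
          refine mul_nonneg (mul_nonneg (mul_nonneg (by positivity)
            (prod_nonneg fun j _ => gw_nn hcz hs j)) (prod_nonneg fun j _ =>
              div_nonneg (gw_nn hcz hv j) (Nat.cast_nonneg _)))
            (prod_nonneg fun j _ => by positivity)
        have e1 : C0 * (Real.log z) ^ 3 * X ^ 2 * (1 / 2) ^ (∏ j, s j).primeFactors.card *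
            (∏ j, gw 1 3 (s j)) * (∏ j, gw 1 3 (v j) / v j) * (∏ j, 1 / (u j : ℝ)) /
              (Real.log y) ^ 3 = (C0 * (Real.log z) ^ 3) * ((X : ℝ) ^ 2 *
            (1 / 2) ^ (∏ j, s j).primeFactors.card * (∏ j, gw 1 3 (s j)) *
            (∏ j, gw 1 3 (v j) / v j) * (∏ j, 1 / (u j : ℝ)) / (Real.log y) ^ 3) := by ring
        have e2 : (C0 * (Real.log z) ^ 3 + 1) * (X : ℝ) ^ 2 *
            (1 / 2) ^ (∏ j, s j).primeFactors.card *
            (∏ j, gw 1 3 (s j)) * (∏ j, gw 1 3 (v j) / v j) * (∏ j, 1 / (u j : ℝ)) /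
              (Real.log y) ^ 3 = (C0 * (Real.log z) ^ 3 + 1) * ((X : ℝ) ^ 2 *
            (1 / 2) ^ (∏ j, s j).primeFactors.card * (∏ j, gw 1 3 (s j)) *
            (∏ j, gw 1 3 (v j) / v j) * (∏ j, 1 / (u j : ℝ)) / (Real.log y) ^ 3) := by ring
        rw [e1, e2]
        exact mul_le_mul_of_nonneg_right (by linarith) hg
      rank := by
        intro X y k' hy hzy hXy t ht
        unfold TX3 at ht
        rw [mem_filter] at ht
        obtain ⟨ht1, htc, ht0, htX, hta⟩ := ht
        have hD0 : (D : ℤ) ≠ 0 := by exact_mod_cast hD.ne'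
        have hne : (SelS (D * F3 σ τ t 0) (D * F3 σ τ t 1)).ncard ≠ 0 := by
          refine ncard_pos (mul_ne_zero hD0 (ht0 0)) (mul_ne_zero hD0 (ht0 1)) ?_
          intro h
          have h1 := mul_left_cancel₀ hD0 h
          apply ht0 2
          rw [F3_2, h1, sub_self]
        have hr := (Nat.pow_log_le_self 2 hne).trans
          (sel3 (z := z) (y := y) hσ hτ hD hz htc ht0 htX hy hXy).2
        have hr' : ((2 ^ rk3S σ τ D t : ℕ) : ℝ) ≤
            ((4 ^ (a0 + om D + 3) * 2 ^ (12 * k') * 4 ^ (∑ j, om (S2 z y (F3 σ τ t) j)) *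
            NL (∏ j, S1 z y (F3 σ τ t) j) (LLg (LC4 cls3 (fun _ => true) (ka3 D τ))
              (S1 z y (F3 σ τ t)) (ng3 t (S1 z y (F3 σ τ t)))) : ℕ) : ℝ) := by
          have h1 : 2 ^ rk3S σ τ D t ≤
            4 ^ (a0 + om D + 3) * 2 ^ (12 * k') * 4 ^ (∑ j, om (S2 z y (F3 σ τ t) j)) *
            NL (∏ j, S1 z y (F3 σ τ t) j) (LLg (LC4 cls3 (fun _ => true) (ka3 D τ))
              (S1 z y (F3 σ τ t)) (ng3 t (S1 z y (F3 σ τ t)))) := by
            refine hr.trans (Nat.mul_le_mul_right _ (Nat.mul_le_mul_right _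
              (Nat.mul_le_mul_right _ ?_)))
            exact Nat.pow_le_pow_right (by norm_num) (by omega)
          exact_mod_cast h1
        push_cast at hr'
        exact hr' }

end Pool.Agent.H457.A
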