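import Pool.Agent.H457.A.S1e

set_option autoImplicit false
set_option linter.unusedSectionVars false

/-! All the pairs: the tail, for the number of the Selmer pairs. -/

namespace Pool.Agent.H457.A

open Finset Pool.Agent.W262.RK Pool.Agent.W307.RT Pool.Agent.W29.RT
open Pool.Agent.W262.SH (SelS)

/-- the logarithm of the number of the Selmer pairs of `y² = x (x - A) (x - B)` -/
noncomputable def rkES (p : ℤ × ℤ) : ℕ := Nat.log 2 (SelS p.1 p.2).ncard

/-- the pairs with many Selmer pairs -/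
noncomputable def SRS (r T : ℕ) : Finset (ℤ × ℤ) :=
  (Icc (-(T : ℤ)) T ×ˢ Icc (-(T : ℤ)) T).filter (fun p : ℤ × ℤ =>
    p.1 ≠ 0 ∧ p.2 ≠ 0 ∧ p.1 ≠ p.2 ∧ r ≤ rkES p)

open Classical in
/-- the members with a fixed greatest common divisor -/
noncomputable def GDS (r T : ℕ) (q : ℕ × ℤ × ℤ) : Finset (ℤ × ℤ) :=
  ((TA3 q.2.1 q.2.2 (3 * T / q.1)).filter (fun t => r ≤ rk3S q.2.1 q.2.2 q.1 t)).image
    (fun t => ((q.1 : ℤ) * F3 q.2.1 q.2.2 t 0, (q.1 : ℤ) * F3 q.2.1 q.2.2 t 1))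

lemma coverS (r T D1 : ℕ) : SRS r T ⊆ ((Icc 1 D1 ×ˢ sgs).biUnion (GDS r T) ∪
    (Icc (D1 + 1) T).biUnion (fun D => MD T D ×ˢ MD T D)) ∪
    (Icc (-(T : ℤ)) T).image (fun a => (a, 2 * a)) := by
  classical
  rintro ⟨A, B⟩ h
  unfold SRS at h
  rw [mem_filter, mem_product, mem_Icc, mem_Icc] at h
  obtain ⟨⟨⟨hA1, hA2⟩, hB1, hB2⟩, hA0, hB0, hAB, hr⟩ := h
  simp only at hA1 hA2 hB1 hB2 hA0 hB0 hAB
  rw [mem_union, mem_union, mem_biUnion, mem_biUnion, mem_image]
  by_cases h2 : B = 2 * A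
  · right
    exact ⟨A, mem_Icc.2 ⟨hA1, hA2⟩, by rw [h2]⟩
  set D : ℕ := Int.gcd A B with hD
  have hDpos : 0 < D := Int.gcd_pos_of_ne_zero_left B hA0
  have hDz : (0 : ℤ) < D := by exact_mod_cast hDpos
  obtain ⟨a, ha⟩ : (D : ℤ) ∣ A := Int.gcd_dvd_left A B
  obtain ⟨b, hb⟩ : (D : ℤ) ∣ B := Int.gcd_dvd_right A B
  have hcop : Int.gcd a b = 1 := by
    have h3 : Int.gcd (D * a) (D * b) = D * Int.gcd a b := by
      rw [Int.gcd_mul_left, Int.natAbs_natCast]
    rw [← ha, ← hb, ← hD] at h3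
    have h4 : D * 1 = D * Int.gcd a b := by rw [mul_one]; exact h3
    exact (Nat.eq_of_mul_eq_mul_left hDpos h4).symm
  rcases Nat.lt_or_ge D1 D with hDD | hDD
  · left; right
    have hDT : D ≤ T := by
      have h3 : D ≤ A.natAbs := Nat.le_of_dvd (Int.natAbs_pos.2 hA0)
        (Int.natCast_dvd.1 ⟨a, ha⟩)
      omega
    refine ⟨D, mem_Icc.2 ⟨hDD, hDT⟩, ?_⟩
    unfold MD
    rw [mem_product, mem_filter, mem_filter, mem_Icc, mem_Icc]
    exact ⟨⟨⟨hA1, hA2⟩, hA0, a, ha⟩, ⟨hB1, hB2⟩, hB0, b, hb⟩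
  · left; left
    have ha0 : a ≠ 0 := by rintro rfl; exact hA0 (by rw [ha, mul_zero])
    have hb0 : b ≠ 0 := by rintro rfl; exact hB0 (by rw [hb, mul_zero])
    have hw0 : b - 2 * a ≠ 0 := by
      intro h3
      apply h2
      rw [ha, hb]
      have : b = 2 * a := by linarith
      rw [this]
      ring
    set σ : ℤ := Int.sign a with hσ
    set τ : ℤ := Int.sign (b - 2 * a) with hτ
    have hσ1 : σ = 1 ∨ σ = -1 := by
      rcases lt_trichotomy a 0 with h | h | h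
      · exact Or.inr (Int.sign_eq_neg_one_of_neg h)
      · exact absurd h ha0
      · exact Or.inl (Int.sign_eq_one_of_pos h)
    have hτ1 : τ = 1 ∨ τ = -1 := by
      rcases lt_trichotomy (b - 2 * a) 0 with h | h | h
      · exact Or.inr (Int.sign_eq_neg_one_of_neg h)
      · exact absurd h hw0
      · exact Or.inl (Int.sign_eq_one_of_pos h)
    have ea : σ * (a.natAbs : ℤ) = a := Int.sign_mul_natAbs a
    have eb : τ * ((b - 2 * a).natAbs : ℤ) = b - 2 * a := Int.sign_mul_natAbs _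
    set t : ℕ × ℕ := (a.natAbs, (b - 2 * a).natAbs) with ht
    have hF0 : F3 σ τ t 0 = a := by rw [F3_0, ht]; exact ea
    have hF1 : F3 σ τ t 1 = b := by
      rw [F3_1, ht]
      simp only
      rw [mul_assoc, ea, eb]
      ring
    have hF2 : F3 σ τ t 2 = a - b := by rw [F3_2, hF0, hF1]
    refine ⟨(D, σ, τ), ?_, ?_⟩
    · rw [mem_product, mem_Icc, mem_sgs]
      exact ⟨⟨hDpos, hDD⟩, hσ1, hτ1⟩
    · unfold GDS
      rw [mem_image]
      refine ⟨t, ?_, ?_⟩
      · rw [mem_filter]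
        unfold TA3 rk3S
        rw [mem_filter, mem_product, mem_Icc, mem_Icc]
        simp only
        have h3 : D * a.natAbs ≤ T := by
          have h4 : A.natAbs ≤ T := by omega
          rw [ha, Int.natAbs_mul, Int.natAbs_natCast] at h4
          exact h4
        have h5 : D * (b - 2 * a).natAbs ≤ 3 * T := by
          have h4 : (B - 2 * A).natAbs ≤ 3 * T := by omega
          have e : B - 2 * A = D * (b - 2 * a) := by rw [ha, hb]; ring
          rw [e, Int.natAbs_mul, Int.natAbs_natCast] at h4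
          exact h4
        refine ⟨⟨⟨⟨Int.natAbs_pos.2 ha0, ?_⟩, Int.natAbs_pos.2 hw0, ?_⟩, ?_, ?_⟩, ?_⟩
        · rw [Nat.le_div_iff_mul_le hDpos, mul_comm]
          exact h3.trans (by omega)
        · rw [Nat.le_div_iff_mul_le hDpos, mul_comm]
          exact h5
        · show Nat.gcd a.natAbs (b - 2 * a).natAbs = 1
          rw [← Int.gcd_eq_natAbs_gcd_natAbs]
          have e : Int.gcd a (b - 2 * a) = Int.gcd a b := by
            have : b - 2 * a = b + a * (-2) := by ring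
            rw [this]
            exact Int.gcd_add_mul_left_right a b (-2)
          rw [e, hcop]
        · intro j
          fin_cases j
          · show F3 σ τ t 0 ≠ 0
            rw [hF0]; exact ha0
          · show F3 σ τ t 1 ≠ 0
            rw [hF1]; exact hb0
          · show F3 σ τ t 2 ≠ 0
            rw [hF2]
            intro h6
            apply hAB
            rw [ha, hb]
            have : a = b := by linarith
            rw [this]
        · rw [hF0, hF1, ← ha, ← hb]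
          exact hr
      · simp only
        rw [hF0, hF1, ← ha, ← hb]

lemma card_coverS (r T D1 : ℕ) : (SRS r T).card ≤
    ∑ q ∈ Icc 1 D1 ×ˢ sgs, ((TA3 q.2.1 q.2.2 (3 * T / q.1)).filter
      (fun t => r ≤ rk3S q.2.1 q.2.2 q.1 t)).card +
    ∑ D ∈ Icc (D1 + 1) T, (2 * (T / D)) * (2 * (T / D)) + (2 * T + 1) := by
  classical
  refine (card_le_card (coverS r T D1)).trans ((card_union_le _ _).trans
    (add_le_add ((card_union_le _ _).trans (add_le_add ?_ ?_)) ?_))
  · refine card_biUnion_le.trans (sum_le_sum fun q _ => ?_)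
    unfold GDS
    exact card_image_le
  · refine card_biUnion_le.trans (sum_le_sum fun D hD => ?_)
    rw [card_product]
    have h1 := card_MD T D (by rw [mem_Icc] at hD; omega)
    exact Nat.mul_le_mul h1 h1
  · refine card_image_le.trans ?_
    rw [Int.card_Icc]
    omega

open Classical in
/-- the bound for a fixed greatest common divisor -/
lemma perDS : ∃ C c : ℝ, 0 < C ∧ 0 < c ∧ c ≤ 1 / 128 ∧ ∃ r0 : ℕ, 1024 ≤ r0 ∧ ∀ r : ℕ, r0 ≤ r →
    ∀ D : ℕ, 1 ≤ D → D ≤ r ^ (r / 64) → ∀ σ τ : ℤ, (σ = 1 ∨ σ = -1) → (τ = 1 ∨ τ = -1) →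
    ∀ᶠ X : ℕ in Filter.atTop,
      (((TA3 σ τ X).filter (fun t => r ≤ rk3S σ τ D t)).card : ℝ) ≤
        C * Real.exp (-(c * (r * Real.log r))) * X ^ 2 := by
  obtain ⟨C0, K, y0, hCN⟩ := cn_exists
  obtain ⟨Ct, ct, hCt, hct, habs⟩ := abs_tail (Fin 3) K 12
  obtain ⟨Cs, hCs, hsm⟩ := small3 hCN
  set c1 : ℕ := 20 + y0 with hc1
  obtain ⟨r0, hr0⟩ := cf_le hCt hct hCN.h0 hCs c1 (by omega)
  refine ⟨Ct * (C0 + 1) + Cs, min (ct / 2) (1 / 128), ?_, ?_, min_le_right _ _,
    max 1024 r0, le_max_left _ _, ?_⟩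
  · have := hCN.h0
    positivity
  · exact lt_min (by positivity) (by norm_num)
  intro r hr D hD hD1 σ τ hσ hτ
  have hr1 : 1024 ≤ r := (le_max_left _ _).trans hr
  have hr2 : r0 ≤ r := (le_max_right _ _).trans hr
  set z : ℕ := c1 * D with hz
  have hz1 : 2 * D + 8 ≤ z := by rw [hz, hc1]; nlinarith
  have hz2 : 11 ≤ z := by rw [hz, hc1]; nlinarith
  have hz3 : y0 ≤ z := by rw [hz, hc1]; nlinarith
  set a0 : ℕ := r / 32 with ha0
  have hom := om_le hr1 hD hD1
  have hF := fam3S (a0 := a0) hCN hσ hτ (D := D) (z := z) hD hz1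
  have h1 := habs cls3 (fun _ => true) (ka3 D τ) z (ℕ × ℕ) (TX3 σ τ z a0) (F3 σ τ) ng3
    (rk3S σ τ D) (fun X : ℕ => (X : ℝ) ^ 2) (C0 * (Real.log z) ^ 3 + 1) y0 (a0 + om D + 3) tri3
    (by simp; omega) (fun j i => ka3_ne hD hτ j i)
    (fun j => (ka3_le hτ j).trans (by omega)) hF r (by omega)
  have hsq1 : (1 : ℝ) ≤ Real.sqrt r := by
    rw [Real.one_le_sqrt]
    exact_mod_cast (by omega : 1 ≤ r)
  filter_upwards [h1, Filter.eventually_ge_atTop (z ^ K), Filter.eventually_ge_atTop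
    ((PP 10 z) ^ 24), Filter.eventually_ge_atTop 3] with X hX1 hX2 hX3 hX4
  have h2 := hsm σ τ hσ hτ z hz2 hz3 (Real.sqrt r) hsq1 a0 X hX2 hX3 hX4
  have hsub : (TA3 σ τ X).filter (fun t => r ≤ rk3S σ τ D t) ⊆
      (TX3 σ τ z a0 X).filter (fun t => r ≤ rk3S σ τ D t) ∪
      (TA3 σ τ X).filter (fun t => a0 < sm3 σ τ z t) := by
    intro t ht
    rw [mem_filter] at ht
    rw [mem_union, mem_filter, mem_filter]
    by_cases h : a0 < sm3 σ τ z t
    · exact Or.inr ⟨ht.1, h⟩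
    · left
      refine ⟨?_, ht.2⟩
      have h3 := ht.1
      unfold TA3 at h3
      unfold TX3
      rw [mem_filter] at h3 ⊢
      exact ⟨h3.1, h3.2.1, h3.2.2, fun j => F3_le hσ hτ hX4 h3.1 j, not_lt.1 h⟩
  have h3 : (((TA3 σ τ X).filter (fun t => r ≤ rk3S σ τ D t)).card : ℝ) ≤
      ((TX3 σ τ z a0 X).filter (fun t => r ≤ rk3S σ τ D t)).card +
      ((TA3 σ τ X).filter (fun t => a0 < sm3 σ τ z t)).card := by
    exact_mod_cast (card_le_card hsub).trans (card_union_le _ _)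
  have h4 := hr0 r D hr2 hD hD1
  rw [← hz] at h4
  have hXn : (0 : ℝ) ≤ (X : ℝ) ^ 2 := by positivity
  calc (((TA3 σ τ X).filter (fun t => r ≤ rk3S σ τ D t)).card : ℝ)
      ≤ Ct * (C0 * (Real.log z) ^ 3 + 1) * Real.exp (-(ct * (r * Real.log r))) * (X : ℝ) ^ 2 +
        Cs * Real.exp (Cs * Real.sqrt r) * (Real.log z) ^ (3 * Real.sqrt r) *
          (1 / Real.sqrt r) ^ (a0 - 10) * (X : ℝ) ^ 2 := h3.trans (add_le_add hX1 h2)
    _ = cf Ct ct C0 Cs r z * (X : ℝ) ^ 2 := by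
        unfold cf
        ring
    _ ≤ _ := mul_le_mul_of_nonneg_right h4 hXn

/-- the tail of the number of the Selmer pairs over all the pairs -/
theorem pairs_tailS : ∃ C c : ℝ, 0 < C ∧ 0 < c ∧ ∀ r : ℕ, ∀ᶠ T : ℕ in Filter.atTop,
    ((SRS r T).card : ℝ) ≤ C * Real.exp (-(c * (r * Real.log r))) * T ^ 2 := by
  classical
  obtain ⟨C1, c, hC1, hc, hc128, r0, hr0, hper⟩ := perDS
  set C2 : ℝ := 72 * C1 + 5 with hC2
  refine ⟨C2 + 9 * Real.exp (c * (r0 * Real.log r0)), c, by positivity, hc, fun r => ?_⟩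
  rcases Nat.lt_or_ge r r0 with hrr | hrr
  · -- small `r`
    filter_upwards [Filter.eventually_ge_atTop 1] with T hT
    have hTr : (1 : ℝ) ≤ T := by exact_mod_cast hT
    have h1 : ((SRS r T).card : ℝ) ≤ 9 * (T : ℝ) ^ 2 := by
      have h2 : (SRS r T).card ≤ (2 * T + 1) * (2 * T + 1) := by
        unfold SRS
        refine (card_le_card (filter_subset _ _)).trans ?_
        rw [card_product, Int.card_Icc]
        have : ((T : ℤ) + 1 - -(T : ℤ)).toNat = 2 * T + 1 := by omega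
        rw [this]
      have h3 : ((SRS r T).card : ℝ) ≤ (2 * T + 1) * (2 * T + 1) := by exact_mod_cast h2
      nlinarith
    refine h1.trans ?_
    have h2 : (r : ℝ) * Real.log r ≤ r0 * Real.log r0 := by
      rcases Nat.eq_zero_or_pos r with h | h
      · subst h
        simp only [Nat.cast_zero, Real.log_zero, mul_zero]
        exact mul_nonneg (Nat.cast_nonneg _) (Real.log_natCast_nonneg _)
      · have hr1 : (0 : ℝ) < r := by exact_mod_cast h
        have hr2 : (r : ℝ) ≤ r0 := by exact_mod_cast hrr.le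
        exact mul_le_mul hr2 (Real.log_le_log hr1 hr2) (Real.log_natCast_nonneg _)
          (Nat.cast_nonneg _)
    have h3 : 9 ≤ (C2 + 9 * Real.exp (c * (r0 * Real.log r0))) *
        Real.exp (-(c * (r * Real.log r))) := by
      calc (9 : ℝ) = 9 * Real.exp (c * (r * Real.log r)) * Real.exp (-(c * (r * Real.log r))) := by
            rw [mul_assoc, ← Real.exp_add]; simp
        _ ≤ _ := by
            apply mul_le_mul_of_nonneg_right _ (Real.exp_pos _).le
            have := Real.exp_le_exp.2 (mul_le_mul_of_nonneg_left h2 hc.le)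
            have h5 : 0 < C2 := by positivity
            linarith
    exact mul_le_mul_of_nonneg_right h3 (by positivity)
  · -- large `r`
    set D1 : ℕ := r ^ (r / 64) with hD1
    have hr1 : 1024 ≤ r := hr0.trans hrr
    have hD1pos : 0 < D1 := by positivity
    set E : ℝ := Real.exp (-(c * (r * Real.log r))) with hE
    have hE0 : 0 < E := Real.exp_pos _
    have hev : ∀ᶠ T : ℕ in Filter.atTop, ∀ q ∈ Icc 1 D1 ×ˢ sgs,
        (((TA3 q.2.1 q.2.2 (3 * T / q.1)).filter (fun t => r ≤ rk3S q.2.1 q.2.2 q.1 t)).card : ℝ) ≤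
          C1 * E * ((3 * T / q.1 : ℕ) : ℝ) ^ 2 := by
      rw [Filter.eventually_all_finset]
      intro q hq
      rw [mem_product, mem_Icc, mem_sgs] at hq
      have h1 := hper r hrr q.1 hq.1.1 hq.1.2 q.2.1 q.2.2 hq.2.1 hq.2.2
      have h2 : Filter.Tendsto (fun T : ℕ => 3 * T / q.1) Filter.atTop Filter.atTop := by
        have h3 : Filter.Tendsto (fun T : ℕ => T / q.1) Filter.atTop Filter.atTop :=
          Filter.tendsto_atTop_atTop.2 fun b => ⟨b * q.1, fun T hT =>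
            (Nat.le_div_iff_mul_le (by omega)).2 hT⟩
        have h4 : Filter.Tendsto (fun T : ℕ => 3 * T) Filter.atTop Filter.atTop :=
          Filter.tendsto_atTop_atTop.2 fun b => ⟨b, fun T hT => by omega⟩
        exact h3.comp h4
      exact h2.eventually h1
    filter_upwards [hev, Filter.eventually_ge_atTop ⌈3 / E⌉₊, Filter.eventually_ge_atTop 1]
      with T hT1 hT2 hT3
    have hTr : (1 : ℝ) ≤ T := by exact_mod_cast hT3
    have hT2' : 3 ≤ E * T := by
      have : 3 / E ≤ T := (Nat.le_ceil _).trans (by exact_mod_cast hT2)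
      rw [div_le_iff₀ hE0] at this
      linarith
    have hcard : ((SRS r T).card : ℝ) ≤
        ∑ q ∈ Icc 1 D1 ×ˢ sgs, (((TA3 q.2.1 q.2.2 (3 * T / q.1)).filter
          (fun t => r ≤ rk3S q.2.1 q.2.2 q.1 t)).card : ℝ) +
        ∑ D ∈ Icc (D1 + 1) T, (2 * ((T / D : ℕ) : ℝ)) * (2 * ((T / D : ℕ) : ℝ)) + (2 * T + 1) := by
      exact_mod_cast card_coverS r T D1
    -- the first sum
    have s1 : ∑ q ∈ Icc 1 D1 ×ˢ sgs, (((TA3 q.2.1 q.2.2 (3 * T / q.1)).filter
          (fun t => r ≤ rk3S q.2.1 q.2.2 q.1 t)).card : ℝ) ≤ 72 * C1 * E * (T : ℝ) ^ 2 := by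
      have h1 : ∀ q ∈ Icc 1 D1 ×ˢ sgs, (((TA3 q.2.1 q.2.2 (3 * T / q.1)).filter
          (fun t => r ≤ rk3S q.2.1 q.2.2 q.1 t)).card : ℝ) ≤
          9 * C1 * E * (T : ℝ) ^ 2 * (1 / (q.1 : ℝ) ^ 2) := by
        intro q hq
        refine (hT1 q hq).trans ?_
        rw [mem_product, mem_Icc] at hq
        have hq0 : (0 : ℝ) < q.1 := by exact_mod_cast hq.1.1
        have h2 : ((3 * T / q.1 : ℕ) : ℝ) ≤ 3 * T / q.1 := by
          have := Nat.cast_div_le (α := ℝ) (m := 3 * T) (n := q.1)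
          push_cast at this
          exact this
        have h3 : ((3 * T / q.1 : ℕ) : ℝ) ^ 2 ≤ (3 * T / q.1) ^ 2 :=
          pow_le_pow_left₀ (Nat.cast_nonneg _) h2 2
        calc C1 * E * ((3 * T / q.1 : ℕ) : ℝ) ^ 2 ≤ C1 * E * (3 * T / q.1) ^ 2 :=
              mul_le_mul_of_nonneg_left h3 (by positivity)
          _ = _ := by
              field_simp
              ring
      refine (sum_le_sum h1).trans ?_
      rw [← mul_sum, sum_product]
      have h2 : ∑ D ∈ Icc 1 D1, ∑ _ε ∈ sgs, (1 : ℝ) / (D : ℝ) ^ 2 =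
          4 * ∑ D ∈ Icc 1 D1, (1 : ℝ) / (D : ℝ) ^ 2 := by
        rw [mul_sum]
        refine sum_congr rfl fun D _ => ?_
        rw [sum_const, nsmul_eq_mul]
        have : sgs.card = 4 := by decide
        rw [this]
        norm_num
      have h3 : ∑ D ∈ Icc 1 D1, ∑ ε ∈ sgs, (1 : ℝ) / ((((D, ε) : ℕ × ℤ × ℤ).1 : ℕ) : ℝ) ^ 2 =
          ∑ D ∈ Icc 1 D1, ∑ _ε ∈ sgs, (1 : ℝ) / (D : ℝ) ^ 2 := rfl
      rw [h3, h2]
      have h4 := sum_sq1 D1
      have h5 : 0 ≤ 9 * C1 * E * (T : ℝ) ^ 2 := by positivity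
      nlinarith
    -- the second sum
    have s2 : ∑ D ∈ Icc (D1 + 1) T, (2 * ((T / D : ℕ) : ℝ)) * (2 * ((T / D : ℕ) : ℝ)) ≤
        4 * E * (T : ℝ) ^ 2 := by
      have h1 : ∀ D ∈ Icc (D1 + 1) T, (2 * ((T / D : ℕ) : ℝ)) * (2 * ((T / D : ℕ) : ℝ)) ≤
          4 * (T : ℝ) ^ 2 * (1 / (D : ℝ) ^ 2) := by
        intro D hD
        rw [mem_Icc] at hD
        have hD0 : (0 : ℝ) < D := by exact_mod_cast (by omega : 0 < D)
        have h2 : ((T / D : ℕ) : ℝ) ≤ T / D := Nat.cast_div_le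
        have h3 : ((T / D : ℕ) : ℝ) ^ 2 ≤ (T / D) ^ 2 :=
          pow_le_pow_left₀ (Nat.cast_nonneg _) h2 2
        calc (2 * ((T / D : ℕ) : ℝ)) * (2 * ((T / D : ℕ) : ℝ)) = 4 * ((T / D : ℕ) : ℝ) ^ 2 := by ring
          _ ≤ 4 * (T / D) ^ 2 := by linarith
          _ = _ := by
              field_simp
      refine (sum_le_sum h1).trans ?_
      rw [← mul_sum]
      have h2 := sum_sq2 hD1pos T
      have hrpos : (0 : ℝ) < r := by exact_mod_cast (by omega : 0 < r)
      have h3 : (1 : ℝ) / D1 ≤ E := by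
        have e1 : (D1 : ℝ) = Real.exp (((r / 64 : ℕ) : ℝ) * Real.log r) := by
          rw [hD1]
          push_cast
          rw [mul_comm, ← Real.rpow_def_of_pos hrpos, Real.rpow_natCast]
        rw [e1, one_div, ← Real.exp_neg, hE]
        apply Real.exp_le_exp.2
        have h4 : r ≤ 64 * (r / 64) + 63 := by omega
        have h5 : (r : ℝ) ≤ 64 * ((r / 64 : ℕ) : ℝ) + 63 := by exact_mod_cast h4
        have h6 : (1024 : ℝ) ≤ r := by exact_mod_cast hr1
        have h7 : (r : ℝ) / 128 ≤ ((r / 64 : ℕ) : ℝ) := by linarith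
        have h8 : 0 ≤ Real.log r := Real.log_natCast_nonneg r
        have h9 : (r : ℝ) / 128 * Real.log r ≤ ((r / 64 : ℕ) : ℝ) * Real.log r :=
          mul_le_mul_of_nonneg_right h7 h8
        have h10 : c * (r * Real.log r) ≤ 1 / 128 * (r * Real.log r) :=
          mul_le_mul_of_nonneg_right hc128 (by positivity)
        linarith
      have h4 : 0 ≤ 4 * (T : ℝ) ^ 2 := by positivity
      calc 4 * (T : ℝ) ^ 2 * ∑ D ∈ Icc (D1 + 1) T, 1 / (D : ℝ) ^ 2 ≤ 4 * (T : ℝ) ^ 2 * E :=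
            mul_le_mul_of_nonneg_left (h2.trans h3) h4
        _ = _ := by ring
    -- the last term
    have s3 : 2 * (T : ℝ) + 1 ≤ E * (T : ℝ) ^ 2 := by nlinarith
    have hpos : 0 ≤ 9 * Real.exp (c * (r0 * Real.log r0)) * E * (T : ℝ) ^ 2 := by positivity
    calc ((SRS r T).card : ℝ) ≤ 72 * C1 * E * (T : ℝ) ^ 2 + 4 * E * (T : ℝ) ^ 2 +
          E * (T : ℝ) ^ 2 := hcard.trans (add_le_add (add_le_add s1 s2) s3)
      _ = C2 * E * (T : ℝ) ^ 2 := by rw [hC2]; ring
      _ ≤ C2 * E * (T : ℝ) ^ 2 + 9 * Real.exp (c * (r0 * Real.log r0)) * E * (T : ℝ) ^ 2 := by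
          linarith
      _ = _ := by ring

end Pool.Agent.H457.A
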