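import Pool.Agent.H457.A.VIso
import Pool.Graph.R_seed8.W262.SH.Stm
import Pool.Graph.R_pool_sql_team_seeded_f72693b1.W262.SH.DefB

/-! Changes of variables and the Tate-Shafarevich groups over number fields. The proofs follow
`Pool.Agent.H905.SH.ShaIso`, for the field of the rational numbers. -/

set_option autoImplicit false

namespace Pool.Agent.H457.V

open WeierstrassCurve Pool.Agent.W262.SH

open scoped Classical

variable {W W' : WeierstrassCurve ℚ} {u r : ℚ}

/-- the isomorphism on the points over `L` -/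
noncomputable def VC.T (h : VC W W' u r) (L : Type) [Field L] [Algebra ℚ L] : Pt W' L ≃+ Pt W L :=
  (h.base L).equiv

lemma VC.T_act (h : VC W W' u r) {F L : Type} [Field F] [Field L] [Algebra ℚ F] [Algebra ℚ L]
    (φ : F →ₐ[ℚ] L) (P : Pt W' F) : h.T L (act W' φ P) = act W φ (h.T F P) := by
  match P with
  | 0 =>
    show h.T L (act W' φ 0) = act W φ (h.T F 0)
    rw [map_zero, map_zero, map_zero, map_zero]
  | .some x y hn =>
    show (Affine.Point.some _ _ _ : Pt W L) = Affine.Point.some _ _ _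
    rw [Affine.Point.some.injEq]
    constructor
    · simp only [map_add, map_mul, map_pow, AlgHom.commutes]
    · simp only [map_mul, map_pow, AlgHom.commutes]

variable (L : IntermediateField ℚ QB)

/-- locally trivial cocycles -/
lemma VC.locK_iff (h : VC W W' u r) (K : Type) [Field K] [Algebra ℚ K]
    (f : L.fixingSubgroup → Pt W' QB) :
    LocTrivK W' L K f ↔ LocTrivK W L K (fun σ => h.T QB (f σ)) := by
  unfold LocTrivK
  refine forall_congr' fun ι => ?_
  constructor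
  · rintro ⟨P, hP⟩
    refine ⟨h.T _ P, fun τ σ hc => ?_⟩
    rw [← h.T_act, hP τ σ hc, map_sub, h.T_act]
  · rintro ⟨P, hP⟩
    obtain ⟨Q, rfl⟩ := (h.T _).surjective P
    refine ⟨Q, fun τ σ hc => ?_⟩
    apply (h.T _).injective
    rw [map_sub, h.T_act, h.T_act]
    exact hP τ σ hc

lemma VC.cocK_iff (h : VC W W' u r) (f : L.fixingSubgroup → Pt W' QB) :
    (IsLocallyConstant f ∧ ∀ σ τ, f (σ * τ) = f σ + act W' (σ : QB ≃ₐ[ℚ] QB).toAlgHom (f τ)) ↔
    (IsLocallyConstant (fun σ => h.T QB (f σ)) ∧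
      ∀ σ τ, h.T QB (f (σ * τ)) = h.T QB (f σ) +
        act W (σ : QB ≃ₐ[ℚ] QB).toAlgHom (h.T QB (f τ))) := by
  refine and_congr ⟨fun hf => ?_, fun hf => ?_⟩ ?_
  · exact hf.comp (h.T QB)
  · have := hf.comp (h.T QB).symm
    have e : ((h.T QB).symm ∘ fun σ => h.T QB (f σ)) = f := by
      funext σ
      simp
    rw [e] at this
    exact this
  · refine forall_congr' fun σ => forall_congr' fun τ => ?_
    rw [← h.T_act, ← map_add]
    exact (h.T QB).injective.eq_iff.symm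

lemma VC.cobK_iff (h : VC W W' u r) (f : L.fixingSubgroup → Pt W' QB) :
    (∃ P, ∀ σ, f σ = act W' (σ : QB ≃ₐ[ℚ] QB).toAlgHom P - P) ↔
    (∃ P, ∀ σ, h.T QB (f σ) = act W (σ : QB ≃ₐ[ℚ] QB).toAlgHom P - P) := by
  constructor
  · rintro ⟨P, hP⟩
    refine ⟨h.T _ P, fun σ => ?_⟩
    rw [← h.T_act, hP σ, map_sub]
  · rintro ⟨P, hP⟩
    obtain ⟨Q, rfl⟩ := (h.T _).surjective P
    refine ⟨Q, fun σ => ?_⟩
    apply (h.T _).injective
    rw [map_sub, h.T_act]
    exact hP σ

/-- the isomorphism on the functions -/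
noncomputable def VC.E0 (h : VC W W' u r) :
    (L.fixingSubgroup → Pt W' QB) ≃+ (L.fixingSubgroup → Pt W QB) :=
  AddEquiv.piCongrRight fun _ => h.T QB

lemma VC.mem_sha (h : VC W W' u r) (f : L.fixingSubgroup → Pt W' QB) :
    f ∈ shaCocK W' L ↔ h.E0 L f ∈ shaCocK W L := by
  show ((IsLocallyConstant f ∧
      ∀ σ τ, f (σ * τ) = f σ + act W' (σ : QB ≃ₐ[ℚ] QB).toAlgHom (f τ)) ∧
      (∀ (p : ℕ) [Fact p.Prime], LocTrivK W' L ℚ_[p] f) ∧ LocTrivK W' L ℝ f) ↔
    ((IsLocallyConstant (fun σ => h.T QB (f σ)) ∧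
      ∀ σ τ, h.T QB (f (σ * τ)) = h.T QB (f σ) +
        act W (σ : QB ≃ₐ[ℚ] QB).toAlgHom (h.T QB (f τ))) ∧
      (∀ (p : ℕ) [Fact p.Prime], LocTrivK W L ℚ_[p] (fun σ => h.T QB (f σ))) ∧
      LocTrivK W L ℝ (fun σ => h.T QB (f σ)))
  rw [← h.cocK_iff, ← h.locK_iff L ℝ]
  simp only [← h.locK_iff L]

lemma VC.mem_cob (h : VC W W' u r) (f : L.fixingSubgroup → Pt W' QB) :
    f ∈ cobK W' L ↔ h.E0 L f ∈ cobK W L := h.cobK_iff L f

/-- the isomorphism on the cocycles -/
noncomputable def VC.E1 (h : VC W W' u r) : shaCocK W' L ≃+ shaCocK W L where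
  toFun x := ⟨h.E0 L x.1, (h.mem_sha L x.1).1 x.2⟩
  invFun x := ⟨(h.E0 L).symm x.1, (h.mem_sha L _).2 (by rw [AddEquiv.apply_symm_apply]; exact x.2)⟩
  left_inv x := by ext1; simp
  right_inv x := by ext1; simp
  map_add' x y := by ext1; simp

/-- the isomorphism on the Tate-Shafarevich groups -/
noncomputable def VC.E2 (h : VC W W' u r) : ShaK W' L ≃+ ShaK W L :=
  QuotientAddGroup.congr _ _ (h.E1 L) (by
    ext x
    rw [AddSubgroup.mem_map]
    constructor
    · rintro ⟨y, hy, rfl⟩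
      rw [AddSubgroup.mem_addSubgroupOf] at hy ⊢
      exact (h.mem_cob L _).1 hy
    · intro hx
      refine ⟨(h.E1 L).symm x, ?_, by simp⟩
      rw [AddSubgroup.mem_addSubgroupOf] at hx ⊢
      rw [h.mem_cob]
      have e : h.E0 L (((h.E1 L).symm x : shaCocK W' L) : L.fixingSubgroup → Pt W' QB) = x.1 := by
        have := congrArg Subtype.val ((h.E1 L).apply_symm_apply x)
        exact this
      rw [e]
      exact hx)

/-- the subgroups of the Tate-Shafarevich group are invariant -/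
lemma VC.has_iff (h : VC W W' u r) (q s : ℕ) :
    (∃ j : (Fin s → ZMod q) →+ ShaK W L, Function.Injective j) ↔
    (∃ j : (Fin s → ZMod q) →+ ShaK W' L, Function.Injective j) := by
  constructor
  · rintro ⟨j, hj⟩
    exact ⟨((h.E2 L).symm : ShaK W L →+ ShaK W' L).comp j,
      (h.E2 L).symm.injective.comp hj⟩
  · rintro ⟨j, hj⟩
    exact ⟨((h.E2 L) : ShaK W' L →+ ShaK W L).comp j, (h.E2 L).injective.comp hj⟩

lemma VC.shaN_iff (h : VC W W' u r) (q s : ℕ) :
    Has (ShaN W L) q s ↔ ∃ j : (Fin s → ZMod q) →+ ShaK W' L, Function.Injective j := by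
  rw [has_shaN]
  exact h.has_iff L q s

lemma VC.rk_eq (h : VC W W' u r) : Module.finrank ℤ (Pt W L) = Module.finrank ℤ (Pt W' L) :=
  (LinearEquiv.finrank_eq (h.T L).toIntLinearEquiv).symm

end Pool.Agent.H457.V
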