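import Pool.Agent.H457.A.S1g
import Pool.Agent.H457.A.VSha
import Pool.Graph.R_pool_sql_team_seeded_f72693b1.W262.SH.FamB
import Pool.Graph.R_pool_sql_team_seeded_f72693b1.W756.SH.Twi
import Pool.Graph.R_pool_sql_team_seeded_f72693b1.W736.SH.PHI
import Pool.Graph.R_pool_sql_team_seeded_f72693b1.W654.SHB.Rkk
import Pool.Graph.R_pool_sql_team_seeded_f72693b1.W305.SH.Abs
import Pool.Graph.R_pool_sql_team_seeded_f72693b1.W352.SH.Grp

set_option autoImplicit false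

/-! The pairs, over multiquadratic fields. -/

namespace Pool.Agent.H457.A

open Finset
open Pool.Agent.W262.SH (SelS wt wt_le wt_nonneg E Sha selS_finite TWI PHI RKK ShaK Pt KD QB ptB rkN rkN_eq)

theorem twi : TWI := Pool.Agent.W756.SH.Twi.twi

theorem phi : PHI := Pool.Agent.W736.SH.PHI.phi Pool.Agent.W305.SH.absc twi

theorem rkk : RKK := Pool.Agent.W654.SHB.rkk twi

open scoped Classical in
/-- the rank over `K` and the Tate-Shafarevich group over `K` of `y² = x (x - A) (x - B)` -/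
def QK {l : ℕ} (D : Fin l → ℤ) (r : ℕ) (p : ℤ × ℤ) : Prop :=
  ∃ s : ℕ, r ≤ rkN (E p.1 p.2) (KD D) + s ∧
    ∃ j : (Fin s → ZMod (2 ^ (l + 1))) →+ ShaK (E p.1 p.2) (KD D), Function.Injective j

lemma pow_aux {n r l : ℕ} (hr : r ≤ n) {x : ℝ} (hx : (2 : ℝ) ^ ((n : ℝ) / 2 ^ l) ≤ x) :
    (2 : ℝ) ^ (r / 2 ^ l) ≤ x := by
  refine le_trans ?_ hx
  rw [← Real.rpow_natCast]
  apply Real.rpow_le_rpow_of_exponent_le (by norm_num)
  rw [le_div_iff₀ (by positivity)]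
  have h8 : r / 2 ^ l * 2 ^ l ≤ n := (Nat.div_mul_le_self r (2 ^ l)).trans hr
  exact_mod_cast h8

/-- one of the twists has many Selmer pairs -/
lemma QK_sel {l : ℕ} {D : Fin l → ℤ} (hD : ∀ i, D i ≠ 0) {r : ℕ} {p : ℤ × ℤ} (h1 : p.1 ≠ 0)
    (h2 : p.2 ≠ 0) (h3 : p.1 ≠ p.2) (h : QK D r p) :
    ∃ S : Finset (Fin l), r / 2 ^ l ≤
      Nat.log 2 (SelS ((∏ i ∈ S, D i) * p.1) ((∏ i ∈ S, D i) * p.2)).ncard := by
  classical
  obtain ⟨s, hr, j, hj⟩ := h
  have hS0 : ∀ S : Finset (Fin l), (∏ i ∈ S, D i) ≠ 0 := fun S =>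
    prod_ne_zero_iff.2 fun i _ => hD i
  have hp := ptB desc5 sh1 sh2 phi Pool.Agent.W352.SH.grp rkk D h1 h2 h3 hD s j hj
  by_contra hcon
  push Not at hcon
  set ρ := r / 2 ^ l with hρ
  have hlt : ∀ S : Finset (Fin l), wt ((∏ i ∈ S, D i) * p.1) ((∏ i ∈ S, D i) * p.2) <
      (2 : ℝ) ^ ρ := by
    intro S
    have a1 := mul_ne_zero (hS0 S) h1
    have a2 := mul_ne_zero (hS0 S) h2
    have a3 : (∏ i ∈ S, D i) * p.1 ≠ (∏ i ∈ S, D i) * p.2 := fun h =>
      h3 (mul_left_cancel₀ (hS0 S) h)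
    refine (wt_le desc5 sh1 sh2 a1 a2 a3).trans_lt ?_
    have h4 := (Nat.log_lt_iff_lt_pow (by norm_num) (ncard_pos a1 a2 a3)).1 (hcon S)
    exact_mod_cast h4
  have h5 : (2 ^ l : ℝ)⁻¹ * ∑ S : Finset (Fin l), wt ((∏ i ∈ S, D i) * p.1)
      ((∏ i ∈ S, D i) * p.2) < (2 : ℝ) ^ ρ := by
    have h6 : ∑ S : Finset (Fin l), wt ((∏ i ∈ S, D i) * p.1) ((∏ i ∈ S, D i) * p.2) <
        ∑ _S : Finset (Fin l), (2 : ℝ) ^ ρ :=
      sum_lt_sum_of_nonempty univ_nonempty fun S _ => hlt S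
    rw [sum_const, card_univ, Fintype.card_finset, Fintype.card_fin, nsmul_eq_mul] at h6
    push_cast at h6
    rw [inv_mul_lt_iff₀ (by positivity)]
    exact h6
  refine absurd (pow_aux (le_of_le_of_eq hr ?_) hp) (not_le.2 h5)
  exact congrArg (· + s) (rkN_eq _ _ _ _)

open scoped Classical in
/-- the pairs with large rank or large Tate-Shafarevich group over `K` -/
noncomputable def SMK {l : ℕ} (D : Fin l → ℤ) (r T : ℕ) : Finset (ℤ × ℤ) :=
  (Icc (-(T : ℤ)) T ×ˢ Icc (-(T : ℤ)) T).filter (fun p : ℤ × ℤ =>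
    p.1 ≠ 0 ∧ p.2 ≠ 0 ∧ p.1 ≠ p.2 ∧ QK D r p)

lemma card_SMK {l : ℕ} {D : Fin l → ℤ} (hD : ∀ i, D i ≠ 0) (r T : ℕ) :
    (SMK D r T).card ≤ ∑ S : Finset (Fin l), (SRS (r / 2 ^ l) ((∏ i ∈ S, D i).natAbs * T)).card := by
  classical
  have hS0 : ∀ S : Finset (Fin l), (∏ i ∈ S, D i) ≠ 0 := fun S =>
    prod_ne_zero_iff.2 fun i _ => hD i
  set f : Finset (Fin l) → ℤ × ℤ → ℤ × ℤ := fun S p =>
    ((∏ i ∈ S, D i) * p.1, (∏ i ∈ S, D i) * p.2) with hf
  have hinj : ∀ S, Function.Injective (f S) := by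
    rintro S ⟨a, b⟩ ⟨a', b'⟩ h
    simp only [hf, Prod.mk.injEq] at h
    exact Prod.ext (mul_left_cancel₀ (hS0 S) h.1) (mul_left_cancel₀ (hS0 S) h.2)
  have hsub : SMK D r T ⊆ univ.biUnion (fun S : Finset (Fin l) => (SMK D r T).filter
      (fun p => f S p ∈ SRS (r / 2 ^ l) ((∏ i ∈ S, D i).natAbs * T))) := by
    intro p hp
    rw [mem_biUnion]
    have hp' := hp
    unfold SMK at hp'
    rw [mem_filter, mem_product, mem_Icc, mem_Icc] at hp'
    obtain ⟨⟨⟨b1, b2⟩, b3, b4⟩, h1, h2, h3, h4⟩ := hp'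
    obtain ⟨S, hS⟩ := QK_sel hD h1 h2 h3 h4
    refine ⟨S, mem_univ _, mem_filter.2 ⟨hp, ?_⟩⟩
    have hbd : ∀ x : ℤ, -(T : ℤ) ≤ x → x ≤ T →
        -((((∏ i ∈ S, D i).natAbs * T : ℕ) : ℤ)) ≤ (∏ i ∈ S, D i) * x ∧
        (∏ i ∈ S, D i) * x ≤ (((∏ i ∈ S, D i).natAbs * T : ℕ) : ℤ) := by
      intro x hx1 hx2
      rw [← abs_le, abs_mul, Nat.cast_mul, Int.natCast_natAbs]
      exact mul_le_mul_of_nonneg_left (abs_le.2 ⟨hx1, hx2⟩) (abs_nonneg _)
    unfold SRS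
    rw [mem_filter, mem_product, mem_Icc, mem_Icc]
    exact ⟨⟨hbd _ b1 b2, hbd _ b3 b4⟩, mul_ne_zero (hS0 S) h1, mul_ne_zero (hS0 S) h2,
      fun h => h3 (mul_left_cancel₀ (hS0 S) h), hS⟩
  refine (card_le_card hsub).trans (card_biUnion_le.trans (sum_le_sum fun S _ => ?_))
  apply card_le_card_of_injOn (f S)
  · intro p hp
    exact (mem_filter.1 (mem_coe.1 hp)).2
  · exact (hinj S).injOn

/-- comparison of the exponentials -/
lemma exp_cmp (l : ℕ) {c : ℝ} (hc : 0 < c) : ∃ M : ℝ, 1 ≤ M ∧ ∀ r : ℕ,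
    Real.exp (-(c * (((r / 2 ^ l : ℕ) : ℝ) * Real.log ((r / 2 ^ l : ℕ) : ℝ)))) ≤
      M * Real.exp (-(c / 2 ^ (l + 2) * (r * Real.log r))) := by
  set R : ℕ := 2 ^ (2 * l + 2) with hR
  refine ⟨Real.exp (c / 2 ^ (l + 2) * (R * Real.log R)), ?_, fun r => ?_⟩
  · rw [Real.one_le_exp_iff]
    have := Real.log_natCast_nonneg R
    positivity
  set ρ : ℕ := r / 2 ^ l with hρ
  rw [← Real.exp_add]
  apply Real.exp_le_exp.2
  have hRl : 0 ≤ Real.log (R : ℝ) := Real.log_natCast_nonneg R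
  have hρl : 0 ≤ Real.log (ρ : ℝ) := Real.log_natCast_nonneg ρ
  have hrl : 0 ≤ Real.log (r : ℝ) := Real.log_natCast_nonneg r
  have hcl : 0 < c / 2 ^ (l + 2) := by positivity
  rcases Nat.lt_or_ge r R with h | h
  · have h1 : (r : ℝ) * Real.log r ≤ R * Real.log R := by
      rcases Nat.eq_zero_or_pos r with h0 | h0
      · rw [h0]
        simp only [Nat.cast_zero, Real.log_zero, mul_zero]
        positivity
      · have hr1 : (0 : ℝ) < r := by exact_mod_cast h0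
        have hr2 : (r : ℝ) ≤ R := by exact_mod_cast h.le
        exact mul_le_mul hr2 (Real.log_le_log hr1 hr2) hrl (Nat.cast_nonneg _)
    have h2 : 0 ≤ c * (ρ * Real.log ρ) := by positivity
    have h3 := mul_le_mul_of_nonneg_left h1 hcl.le
    linarith
  · -- `ρ ≥ r / 2 ^ (l + 1)`
    have hr0 : 0 < r := lt_of_lt_of_le (by positivity) h
    have hrr : (0 : ℝ) < r := by exact_mod_cast hr0
    have h1 : r ≤ 2 ^ (l + 1) * ρ := by
      have a1 : 2 ^ l ≤ r := le_trans (Nat.pow_le_pow_right (by norm_num) (by omega)) h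
      have a2 : 1 ≤ ρ := (Nat.one_le_div_iff (by positivity)).2 a1
      have a3 : r < 2 ^ l * (ρ + 1) := by
        rw [mul_comm]
        exact Nat.lt_mul_of_div_lt (by rw [← hρ]; omega) (by positivity)
      have a4 : 2 ^ l * (ρ + 1) ≤ 2 ^ (l + 1) * ρ := by
        rw [pow_succ, mul_assoc]
        exact Nat.mul_le_mul_left _ (by omega)
      omega
    have h2 : (r : ℝ) / 2 ^ (l + 1) ≤ ρ := by
      rw [div_le_iff₀ (by positivity), mul_comm]
      exact_mod_cast h1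
    have h3 : Real.log r / 2 ≤ Real.log ρ := by
      have a1 : Real.log ((r : ℝ) / 2 ^ (l + 1)) ≤ Real.log ρ :=
        Real.log_le_log (by positivity) h2
      rw [Real.log_div hrr.ne' (by positivity), Real.log_pow] at a1
      have a2 : Real.log (R : ℝ) ≤ Real.log r :=
        Real.log_le_log (by rw [hR]; positivity) (by exact_mod_cast h)
      rw [hR] at a2
      push_cast at a2
      rw [Real.log_pow] at a2
      push_cast at a1 a2
      linarith
    have h4 : 1 / 2 ^ (l + 2) * (r * Real.log r) ≤ ρ * Real.log ρ := by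
      calc 1 / 2 ^ (l + 2) * (r * Real.log r) = (r / 2 ^ (l + 1)) * (Real.log r / 2) := by
            rw [pow_succ 2 (l + 1)]
            field_simp
        _ ≤ ρ * Real.log ρ := mul_le_mul h2 h3 (by positivity) (Nat.cast_nonneg _)
    have h5 : c / 2 ^ (l + 2) * (r * Real.log r) ≤ c * (ρ * Real.log ρ) := by
      calc c / 2 ^ (l + 2) * (r * Real.log r) = c * (1 / 2 ^ (l + 2) * (r * Real.log r)) := by ring
        _ ≤ _ := mul_le_mul_of_nonneg_left h4 hc.le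
    have h6 : 0 ≤ c / 2 ^ (l + 2) * (R * Real.log R) := by positivity
    linarith

/-- the tail over multiquadratic fields -/
theorem pairs_tailK (l : ℕ) : ∃ C c : ℝ, 0 < C ∧ 0 < c ∧ ∀ D : Fin l → ℤ, (∀ i, D i ≠ 0) →
    ∀ r : ℕ, ∀ᶠ T : ℕ in Filter.atTop,
    ((SMK D r T).card : ℝ) ≤
      C * (∏ i, (D i : ℝ) ^ 2) * Real.exp (-(c * (r * Real.log r))) * T ^ 2 := by
  classical
  obtain ⟨C, c, hC, hc, h⟩ := pairs_tailS
  obtain ⟨M, hM, hMr⟩ := exp_cmp l hc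
  refine ⟨2 ^ l * C * M, c / 2 ^ (l + 2), by positivity, by positivity, fun D hD r => ?_⟩
  have hS0 : ∀ S : Finset (Fin l), 0 < (∏ i ∈ S, D i).natAbs := fun S =>
    Int.natAbs_pos.2 (prod_ne_zero_iff.2 fun i _ => hD i)
  have hev : ∀ᶠ T : ℕ in Filter.atTop, ∀ S ∈ (univ : Finset (Finset (Fin l))),
      ((SRS (r / 2 ^ l) ((∏ i ∈ S, D i).natAbs * T)).card : ℝ) ≤
        C * Real.exp (-(c * (((r / 2 ^ l : ℕ) : ℝ) * Real.log ((r / 2 ^ l : ℕ) : ℝ)))) *
          (((∏ i ∈ S, D i).natAbs * T : ℕ) : ℝ) ^ 2 := by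
    rw [Filter.eventually_all_finset]
    intro S _
    have h1 : Filter.Tendsto (fun T : ℕ => (∏ i ∈ S, D i).natAbs * T) Filter.atTop
        Filter.atTop :=
      Filter.tendsto_atTop_atTop.2 fun b => ⟨b, fun T hT =>
        hT.trans (Nat.le_mul_of_pos_left _ (hS0 S))⟩
    exact h1.eventually (h (r / 2 ^ l))
  filter_upwards [hev] with T hT
  have h1 : ((SMK D r T).card : ℝ) ≤ ∑ S : Finset (Fin l),
      ((SRS (r / 2 ^ l) ((∏ i ∈ S, D i).natAbs * T)).card : ℝ) := by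
    exact_mod_cast card_SMK hD r T
  have hP : ∀ S : Finset (Fin l), (((∏ i ∈ S, D i).natAbs : ℕ) : ℝ) ^ 2 ≤ ∏ i, (D i : ℝ) ^ 2 := by
    intro S
    have e1 : (((∏ i ∈ S, D i).natAbs : ℕ) : ℝ) ^ 2 = ∏ i ∈ S, (D i : ℝ) ^ 2 := by
      rw [Nat.cast_natAbs, Int.cast_abs, sq_abs]
      push_cast
      rw [prod_pow]
    rw [e1]
    have e2 : ∀ i, (1 : ℝ) ≤ (D i : ℝ) ^ 2 := by
      intro i
      have h3 : (1 : ℤ) ≤ (D i) ^ 2 := by
        have := sq_pos_of_pos (abs_pos.2 (hD i))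
        rw [sq_abs] at this
        omega
      exact_mod_cast h3
    rw [← prod_mul_prod_compl S]
    apply le_mul_of_one_le_right (prod_nonneg fun i _ => by positivity)
    calc (1 : ℝ) = ∏ _i ∈ Sᶜ, (1 : ℝ) := by rw [prod_const_one]
      _ ≤ _ := prod_le_prod (fun i _ => zero_le_one) fun i _ => e2 i
  set P : ℝ := ∏ i, (D i : ℝ) ^ 2 with hPd
  have hP0 : 0 ≤ P := prod_nonneg fun i _ => by positivity
  set e0 : ℝ := Real.exp (-(c * (((r / 2 ^ l : ℕ) : ℝ) * Real.log ((r / 2 ^ l : ℕ) : ℝ)))) with he0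
  have he00 : 0 < e0 := Real.exp_pos _
  calc ((SMK D r T).card : ℝ) ≤ ∑ S : Finset (Fin l),
      ((SRS (r / 2 ^ l) ((∏ i ∈ S, D i).natAbs * T)).card : ℝ) := h1
    _ ≤ ∑ _S : Finset (Fin l), C * e0 * (P * (T : ℝ) ^ 2) := by
        refine sum_le_sum fun S _ => (hT S (mem_univ _)).trans ?_
        apply mul_le_mul_of_nonneg_left _ (by positivity)
        push_cast
        rw [mul_pow]
        apply mul_le_mul_of_nonneg_right _ (by positivity)
        have := hP S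
        push_cast at this
        exact this
    _ = 2 ^ l * C * P * e0 * (T : ℝ) ^ 2 := by
        rw [sum_const, card_univ, Fintype.card_finset, Fintype.card_fin, nsmul_eq_mul]
        push_cast
        ring
    _ ≤ 2 ^ l * C * P * (M * Real.exp (-(c / 2 ^ (l + 2) * (r * Real.log r)))) * (T : ℝ) ^ 2 := by
        apply mul_le_mul_of_nonneg_right _ (by positivity)
        exact mul_le_mul_of_nonneg_left (hMr r) (by positivity)
    _ = _ := by ring

end Pool.Agent.H457.A
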