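import Pool.Agent.H457.A.S2a
import Pool.Agent.H457.A.Par2
import Pool.Agent.H457.A.Low2

/-!
# The curves over `ℚ` with full rational 2-torsion, by height: from the pairs to the curves
-/

set_option autoImplicit false

namespace Pool.Agent.H457.A

open Finset Filter Pool.Agent.W262.RK Pool.Agent.W307.RT
open Pool.Agent.H457.B (Rel2 F2 F2_rel core2 rel2_unique rel2_bound)
open Pool.Agent.H457.V (VC)
open Pool.Agent.W262.SH (E ShaN ShaK KD Has rkN QB Pt ptGrp)

open Classical in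
/-- the curves with the property `P` -/
noncomputable def CP (P : ℤ × ℤ → Prop) (H : ℕ) : Finset (ℤ × ℤ) := (Cv 2 H).filter P

open Classical in
/-- the pairs with the property `Q` -/
noncomputable def PQ (Q : ℤ × ℤ → Prop) (T : ℕ) : Finset (ℤ × ℤ) :=
  (Icc (-(T : ℤ)) T ×ˢ Icc (-(T : ℤ)) T).filter (fun p : ℤ × ℤ =>
    p.1 ≠ 0 ∧ p.2 ≠ 0 ∧ p.1 ≠ p.2 ∧ Q p)

/-- from the pairs to the curves -/
theorem height_of : ∃ K0 : ℝ, 0 < K0 ∧ ∀ P Q : ℤ × ℤ → Prop,
    (∀ c ab : ℤ × ℤ, Rel2 c ab → P c → Q ab) → ∀ B : ℝ, 0 ≤ B →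
    (∀ᶠ T : ℕ in atTop, ((PQ Q T).card : ℝ) ≤ B * (T : ℝ) ^ 2) →
    ∀ᶠ H : ℕ in atTop, ((CP P H).card : ℝ) ≤ K0 * B * (Cv 2 H).card := by
  classical
  obtain ⟨c1, C1, T0, hc1, hlow⟩ := Pool.Agent.H457.B.low2
  set C0 := 54 + 1 with hC0
  set D := C0 * C1 + 1 with hD
  have hD1 : 1 ≤ D := by omega
  have hDR : (0 : ℝ) < D := by exact_mod_cast hD1
  refine ⟨(2 * (D : ℝ)) ^ 2 / c1, by positivity, fun P Q hPQ B hB hb => ?_⟩
  obtain ⟨M, hM⟩ := eventually_atTop.1 hb
  filter_upwards [eventually_ge_atTop ((M + D * (T0 + 1) + 1) ^ 6)] with H hH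
  set T := Nat.findGreatest (fun t => t ^ 6 ≤ C0 * H) (C0 * H) with hT
  have hle : ∀ x : ℕ, x ^ 6 ≤ C0 * H → x ≤ T := by
    intro x hx
    apply Nat.le_findGreatest
    · exact (Nat.le_self_pow (by omega) x).trans hx
    · exact hx
  have hTk : T ^ 6 ≤ C0 * H := by
    have : (fun t => t ^ 6 ≤ C0 * H) T :=
      Nat.findGreatest_spec (P := fun t => t ^ 6 ≤ C0 * H) (Nat.zero_le _)
        (by rw [zero_pow (by omega)]; exact Nat.zero_le _)
    exact this
  have hTM : M + D * (T0 + 1) + 1 ≤ T := by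
    apply hle
    exact hH.trans (Nat.le_mul_of_pos_left _ (by omega))
  -- the map into the pairs
  have hcard : (CP P H).card ≤ (PQ Q T).card := by
    apply card_le_card_of_injOn F2
    · intro x hx
      rw [Finset.mem_coe, CP, mem_filter] at hx
      obtain ⟨hx1, hx2⟩ := hx
      simp only [Cv, Finset.mem_filter] at hx1
      obtain ⟨-, hDx, hHx, -, -, hTx⟩ := hx1
      have rr := F2_rel (core2 hDx hTx)
      change Rel2 x (F2 x) at rr
      obtain ⟨a4, a5⟩ := rel2_bound (A := x.1) (B := x.2) rr hHx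
      have hq := hPQ x (F2 x) rr hx2
      have b1 : (F2 x).1.natAbs ≤ T :=
        hle _ (a4.trans (Nat.mul_le_mul_right _ (by omega)))
      have b2 : (F2 x).2.natAbs ≤ T :=
        hle _ (a5.trans (Nat.mul_le_mul_right _ (by omega)))
      rw [Finset.mem_coe, PQ, mem_filter, mem_product, mem_Icc, mem_Icc]
      obtain ⟨e1, e2, h1, n12, n13, n23, -, -⟩ := rr
      refine ⟨⟨⟨by omega, by omega⟩, ⟨by omega, by omega⟩⟩, ?_, ?_, ?_, hq⟩
      · rw [h1]
        simp only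
        intro h
        apply n12
        linarith
      · rw [h1]
        simp only
        intro h
        apply n13
        linarith
      · rw [h1]
        simp only
        intro h
        apply n23
        linarith
    · intro x hx y hy hxy
      rw [Finset.mem_coe, CP, mem_filter] at hx hy
      have hx1 := hx.1
      have hy1 := hy.1
      simp only [Cv, Finset.mem_filter] at hx1 hy1
      obtain ⟨-, hDx, -, -, -, hTx⟩ := hx1
      obtain ⟨-, hDy, -, -, -, hTy⟩ := hy1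
      have r := F2_rel (core2 hDx hTx)
      have r' := F2_rel (core2 hDy hTy)
      change Rel2 x (F2 x) at r
      change Rel2 y (F2 y) at r'
      rw [← hxy] at r'
      exact rel2_unique r r'
  have h1 : ((CP P H).card : ℝ) ≤ B * (T : ℝ) ^ 2 :=
    le_trans (by exact_mod_cast hcard) (hM T (by omega))
  set T' := T / D with hT'
  have hT'0 : T0 + 1 ≤ T' := by
    rw [hT', Nat.le_div_iff_mul_le hD1, mul_comm]
    omega
  have h2 : T' * D ≤ T := Nat.div_mul_le_self T D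
  have h3 : C1 * T' ^ 6 ≤ H := by
    have a1 : (T' * D) ^ 6 ≤ C0 * H := (Nat.pow_le_pow_left h2 6).trans hTk
    rw [mul_pow] at a1
    have a2 : D ≤ D ^ 6 := Nat.le_self_pow (by omega) D
    have a3 : T' ^ 6 * (C0 * C1) ≤ C0 * H :=
      (Nat.mul_le_mul_left _ (by omega : C0 * C1 ≤ D ^ 6)).trans a1
    have a4 : C0 * (C1 * T' ^ 6) ≤ C0 * H := by
      calc C0 * (C1 * T' ^ 6) = T' ^ 6 * (C0 * C1) := by ring
        _ ≤ _ := a3
    exact Nat.le_of_mul_le_mul_left a4 (by omega)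
  have h4 := hlow T' H (by omega) h3
  have h5 : T ≤ 2 * D * T' := by
    have a1 : T < D * (T' + 1) := by
      rw [mul_comm]
      exact Nat.lt_mul_of_div_lt (by rw [← hT']; omega) hD1
    have a2 : D * (T' + 1) ≤ 2 * D * T' := by nlinarith
    omega
  have h6 : (T : ℝ) ≤ 2 * D * T' := by exact_mod_cast h5
  calc _ ≤ B * (T : ℝ) ^ 2 := h1
    _ ≤ B * (2 * D * T') ^ 2 := by
      apply mul_le_mul_of_nonneg_left _ hB
      exact pow_le_pow_left₀ (Nat.cast_nonneg T) h6 2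
    _ = (2 * (D : ℝ)) ^ 2 / c1 * B * (c1 * (T' : ℝ) ^ 2) := by
      field_simp
    _ ≤ _ := mul_le_mul_of_nonneg_left h4 (by positivity)

/-- the change of variables -/
lemma rel_vc {c ab : ℤ × ℤ} (h : Rel2 c ab) :
    ∃ u r : ℚ, VC (Sh c.1 c.2) (E ab.1 ab.2) u r := by
  obtain ⟨A, B⟩ := c
  obtain ⟨e1, e2, h1, -, -, -, hA, hB⟩ := h
  subst h1
  change A = _ at hA
  change B = _ at hB
  refine ⟨1, e1, one_ne_zero, rfl, rfl, rfl, rfl, ?_, ?_, ?_⟩
  · simp only [E, Sh]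
    push_cast
    ring
  · simp only [E, Sh]
    rw [hA]
    push_cast
    ring
  · simp only [E, Sh]
    rw [hA, hB]
    push_cast
    ring

/-- the tail over multiquadratic fields, by height -/
theorem height_tailK (l : ℕ) : ∃ C c : ℝ, 0 < C ∧ 0 < c ∧ ∀ D : Fin l → ℤ, (∀ i, D i ≠ 0) →
    ∀ r : ℕ, ∀ᶠ H : ℕ in atTop,
    ((CP (fun e => ∃ s : ℕ, Has (ShaN (Sh e.1 e.2) (KD D)) (2 ^ (l + 1)) s ∧
        r ≤ rkN (Sh e.1 e.2) (KD D) + s) H).card : ℝ) ≤
      C * (∏ i, (D i : ℝ) ^ 2) * Real.exp (-(c * (r * Real.log r))) * (Cv 2 H).card := by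
  classical
  obtain ⟨C, c, hC, hc, h⟩ := pairs_tailK l
  obtain ⟨K0, hK0, hK⟩ := height_of
  refine ⟨K0 * C, c, by positivity, hc, fun D hD r => ?_⟩
  have h1 := hK (fun e => ∃ s : ℕ, Has (ShaN (Sh e.1 e.2) (KD D)) (2 ^ (l + 1)) s ∧
        r ≤ rkN (Sh e.1 e.2) (KD D) + s) (QK D r) (by
      rintro e ab hrel ⟨s, hs, hr⟩
      obtain ⟨u, w, hv⟩ := rel_vc hrel
      refine ⟨s, ?_, (hv.shaN_iff (KD D) _ _).1 hs⟩
      have e1 : rkN (Sh e.1 e.2) (KD D) = rkN (E ab.1 ab.2) (KD D) := by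
        unfold rkN
        exact hv.rk_eq (KD D)
      rw [← e1]
      exact hr)
    (C * (∏ i, (D i : ℝ) ^ 2) * Real.exp (-(c * (r * Real.log r))))
    (mul_nonneg (mul_nonneg hC.le (prod_nonneg fun i _ => by positivity)) (Real.exp_pos _).le)
    (h D hD r)
  filter_upwards [h1] with H hH
  refine hH.trans (le_of_eq (by ring))

end Pool.Agent.H457.A
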