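import Pool.Agent.H457.A.Fin3
import Pool.Graph.R_seed8.W216.RT.AVH
import Pool.Graph.R_seed8.W340.RT.SVR2
import Pool.Graph.R_seed8.W29.RT.CNT2
import Pool.Graph.R_seed8.W372.RK2.CNT4

set_option autoImplicit false
set_option linter.unusedSectionVars false

/-! The average of a multiplicative function close to one, with prescribed quadratic symbols. -/

namespace Pool.Agent.H457.A

open Finset

/-- the prescribed symbols -/
def SgP (P E : Finset ℕ) (v : ℕ) : Prop := ∀ p ∈ P, jacobiSym (v : ℤ) p = if p ∈ E then -1 else 1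

instance (P E : Finset ℕ) (v : ℕ) : Decidable (SgP P E v) := by unfold SgP; infer_instance

lemma jac_pm {p : ℕ} (hp : p.Prime) {d : ℕ} (h : ¬ p ∣ d) :
    jacobiSym (d : ℤ) p = 1 ∨ jacobiSym (d : ℤ) p = -1 := by
  have : NeZero p := ⟨hp.ne_zero⟩
  rcases jacobiSym.trichotomy (d : ℤ) p with h1 | h1 | h1
  · exfalso
    rw [jacobiSym.eq_zero_iff_not_coprime] at h1
    apply h1
    rw [Int.gcd_natCast_natCast]
    exact ((hp.coprime_iff_not_dvd).2 h).symm
  · exact Or.inl h1
  · exact Or.inr h1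

/-- the count of the multiples of `d` -/
lemma cnt_class {P : Finset ℕ} (hP : ∀ p ∈ P, p.Prime ∧ p ≠ 2) (E : Finset ℕ) {d : ℕ} (hd : 0 < d)
    (X : ℕ) : (((Icc 1 X).filter (fun v => d ∣ v ∧ SgP P E v)).card : ℝ) ≤
      (1 / 2) ^ P.card * ((X : ℝ) / d + ((∏ p ∈ P, p : ℕ) : ℝ)) := by
  classical
  set M := ∏ p ∈ P, p with hM
  have hMpos : 0 < M := prod_pos fun p hp => (hP p hp).1.pos
  by_cases hcop : ∃ p ∈ P, p ∣ d
  · obtain ⟨p, hp, hpd⟩ := hcop
    have : (Icc 1 X).filter (fun v => d ∣ v ∧ SgP P E v) = ∅ := by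
      rw [filter_eq_empty_iff]
      rintro v _ ⟨h1, h2⟩
      have h3 := h2 p hp
      have h4 : jacobiSym (v : ℤ) p = 0 := by
        have : NeZero p := ⟨(hP p hp).1.ne_zero⟩
        rw [jacobiSym.eq_zero_iff_not_coprime, Int.gcd_natCast_natCast]
        intro h5
        have h6 := Nat.dvd_gcd (hpd.trans h1) dvd_rfl
        rw [h5] at h6
        exact (hP p hp).1.one_lt.ne' (Nat.dvd_one.1 h6)
      rw [h4] at h3
      split_ifs at h3
      all_goals norm_num at h3
    rw [this, card_empty, Nat.cast_zero]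
    positivity
  · push Not at hcop
    -- the quotients
    set e : ℕ → ℤ := fun p => jacobiSym (d : ℤ) p * (if p ∈ E then -1 else 1) with he
    have he1 : ∀ p ∈ P, e p = 1 ∨ e p = -1 := by
      intro p hp
      rw [he]
      rcases jac_pm (hP p hp).1 (hcop p hp) with h | h <;> simp only [h] <;> split_ifs <;> simp
    set W : ℕ → Finset ℕ := fun p => (range p).filter (fun x : ℕ => jacobiSym x p = e p) with hW
    set Y := X / d with hY
    set S : Finset ℕ := (Icc 1 Y).filter (fun v : ℕ => ∀ p ∈ P, jacobiSym (v : ℤ) p = e p) with hS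
    have hcard1 : ((Icc 1 X).filter (fun v => d ∣ v ∧ SgP P E v)).card ≤ S.card := by
      apply card_le_card_of_injOn (fun v => v / d)
      · intro v hv
        have hv' := mem_filter.1 (mem_coe.1 hv)
        obtain ⟨h1, ⟨q, hq⟩, h3⟩ := hv'
        rw [mem_coe, hS, mem_filter, mem_Icc]
        have hvd : v / d = q := by rw [hq, Nat.mul_div_cancel_left _ hd]
        have h4 := mem_Icc.1 h1
        have hq0 : 0 < q := by
          rcases Nat.eq_zero_or_pos q with h | h
          · subst h; omega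
          · exact h
        refine ⟨⟨by simp only [hvd]; omega, Nat.div_le_div_right h4.2⟩, fun p hp => ?_⟩
        simp only [hvd]
        have h5 := h3 p hp
        rw [hq, Nat.cast_mul, jacobiSym.mul_left] at h5
        rw [he]
        simp only
        rw [← h5, ← mul_assoc]
        have h6 : jacobiSym (d : ℤ) p * jacobiSym (d : ℤ) p = 1 := by
          rcases jac_pm (hP p hp).1 (hcop p hp) with h | h <;> rw [h] <;> norm_num
        rw [h6, one_mul]
      · intro a ha b hb hab
        have ha' := (mem_filter.1 (mem_coe.1 ha)).2.1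
        have hb' := (mem_filter.1 (mem_coe.1 hb)).2.1
        simp only at hab
        rw [← Nat.div_mul_cancel ha', ← Nat.div_mul_cancel hb', hab]
    -- the residues
    have hcard2 : S.card ≤ (Y / M + 1) * (Fintype.piFinset (fun p : P => W p.1)).card := by
      apply card_le_mul_card_image_of_maps_to (f := fun v => fun p : P => v % p.1)
      · intro v hv
        rw [hS, mem_filter] at hv
        rw [Fintype.mem_piFinset]
        rintro ⟨p, hp⟩
        rw [hW]
        simp only
        rw [mem_filter, mem_range]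
        refine ⟨Nat.mod_lt _ (hP p hp).1.pos, ?_⟩
        rw [← hv.2 p hp, Int.natCast_mod, ← jacobiSym.mod_left]
      · intro φ _
        rcases (S.filter (fun v => (fun p : P => v % p.1) = φ)).eq_empty_or_nonempty with h | ⟨r, hr⟩
        · rw [h, card_empty]; exact Nat.zero_le _
        · have hmaps : ∀ v ∈ S.filter (fun v => (fun p : P => v % p.1) = φ),
              v ≡ r [MOD M] ∧ v ≤ Y := by
            intro v hv
            rw [mem_filter] at hv hr
            refine ⟨?_, (mem_Icc.1 (mem_filter.1 hv.1).1).2⟩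
            rw [hM]
            rw [Nat.modEq_iff_dvd, Nat.cast_prod]
            apply Finset.prod_dvd_of_coprime
            · intro p hp q hq hpq
              exact Nat.isCoprime_iff_coprime.2
                ((Nat.coprime_primes (hP p hp).1 (hP q hq).1).2 hpq)
            · intro p hp
              rw [← Nat.modEq_iff_dvd]
              have h1 := congrFun hv.2 ⟨p, hp⟩
              have h2 := congrFun hr.2 ⟨p, hp⟩
              exact h1.trans h2.symm
          have hcl : (S.filter (fun v => (fun p : P => v % p.1) = φ)).card ≤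
              (range (Y / M + 1)).card := by
            apply card_le_card_of_injOn (fun v => v / M)
            · intro v hv
              rw [mem_coe, mem_range]
              have := (hmaps v (mem_coe.1 hv)).2
              exact Nat.lt_succ_of_le (Nat.div_le_div_right this)
            · intro a ha b hb hab
              have h1 : a % M = r % M := (hmaps a (mem_coe.1 ha)).1
              have h2 : b % M = r % M := (hmaps b (mem_coe.1 hb)).1
              simp only at hab
              rw [← Nat.mod_add_div a M, ← Nat.mod_add_div b M, h1, h2, hab]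
          rwa [card_range] at hcl
    have hW2 : ((Fintype.piFinset (fun p : P => W p.1)).card : ℝ) ≤ (1 / 2) ^ P.card * M := by
      rw [Fintype.card_piFinset]
      have h0 : ∏ p : P, (W p.1).card = ∏ p ∈ P, (W p).card :=
        prod_coe_sort P (fun p => (W p).card)
      rw [h0, Nat.cast_prod]
      have h1 : ∀ p ∈ P, (((W p).card : ℕ) : ℝ) ≤ (1 / 2) * (p : ℝ) := by
        intro p hp
        have h2 := Pool.Agent.W372.RK2.card_W (hP p hp).1 (hP p hp).2 (e p) (he1 p hp)
        have h3 : 2 * (W p).card ≤ p := by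
          rw [hW]
          simp only
          omega
        have h4 : (2 : ℝ) * ((W p).card : ℝ) ≤ p := by exact_mod_cast h3
        linarith
      refine (prod_le_prod (fun _ _ => Nat.cast_nonneg _) h1).trans ?_
      rw [prod_mul_distrib, prod_const, hM, Nat.cast_prod]
    have hMr : (0 : ℝ) < M := by exact_mod_cast hMpos
    have hYr : ((Y / M + 1 : ℕ) : ℝ) ≤ (X : ℝ) / d / M + 1 := by
      push_cast
      have h1 : ((Y / M : ℕ) : ℝ) ≤ (Y : ℝ) / M := Nat.cast_div_le
      have h2 : (Y : ℝ) ≤ (X : ℝ) / d := Nat.cast_div_le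
      have h3 : (Y : ℝ) / M ≤ (X : ℝ) / d / M := div_le_div_of_nonneg_right h2 hMr.le
      linarith
    calc (((Icc 1 X).filter (fun v => d ∣ v ∧ SgP P E v)).card : ℝ) ≤ S.card := by
          exact_mod_cast hcard1
      _ ≤ ((Y / M + 1 : ℕ) : ℝ) * (Fintype.piFinset (fun p : P => W p.1)).card := by
          exact_mod_cast hcard2
      _ ≤ ((X : ℝ) / d / M + 1) * ((1 / 2) ^ P.card * M) :=
          mul_le_mul hYr hW2 (Nat.cast_nonneg _) (by positivity)
      _ = _ := by
          field_simp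

/-- the average with prescribed symbols -/
theorem avs (c z : ℕ) (hz : 2 * c + 2 ≤ z) : ∃ C : ℝ, 0 ≤ C ∧ ∀ (X : ℕ) (P E : Finset ℕ),
    (∀ p ∈ P, p.Prime ∧ p ≠ 2) → (∏ p ∈ P, p) ^ 2 ≤ X →
    ∑ v ∈ (Icc 1 X).filter (SgP P E), ∏ p ∈ v.primeFactors.filter (fun p => z < p),
      (p : ℝ) / ((p : ℝ) - c) ≤ C * X * (1 / 2) ^ P.card := by
  classical
  have hsq : Summable (fun n : ℕ => 1 / (n : ℝ) ^ (3 / 2 : ℝ)) :=
    Real.summable_one_div_nat_rpow.2 (by norm_num)
  set S2 : ℝ := ∑' n : ℕ, 1 / (n : ℝ) ^ (3 / 2 : ℝ) with hS2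
  refine ⟨2 * Real.exp (2 * c * S2), by positivity, ?_⟩
  intro X P E hP hPX
  set Pr : Finset ℕ := (Icc 1 X).filter (fun p => p.Prime ∧ z < p) with hPr
  set g : ℕ → ℝ := fun p => (c : ℝ) / ((p : ℝ) - c) with hg
  set M := ∏ p ∈ P, p with hM
  have hpc : ∀ p ∈ Pr, (p : ℝ) / 2 ≤ (p : ℝ) - c ∧ 0 < (p : ℝ) := by
    intro p hp
    rw [hPr, mem_filter] at hp
    have h1 : 2 * c + 2 < p := lt_of_le_of_lt hz hp.2.2
    have h2 : 2 * (c : ℝ) + 2 < p := by exact_mod_cast h1
    have h3 : (0 : ℝ) ≤ c := Nat.cast_nonneg c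
    exact ⟨by linarith, by linarith⟩
  have hg0 : ∀ p ∈ Pr, 0 ≤ g p := by
    intro p hp
    have := hpc p hp
    exact div_nonneg (Nat.cast_nonneg c) (by linarith)
  have hexp : ∀ v ∈ (Icc 1 X).filter (SgP P E), ∏ p ∈ v.primeFactors.filter (fun p => z < p),
      (p : ℝ) / ((p : ℝ) - c) = ∑ T ∈ Pr.powerset,
        if T ⊆ v.primeFactors.filter (fun p => z < p) then ∏ p ∈ T, g p else 0 := by
    intro v hv
    rw [mem_filter, mem_Icc] at hv
    have hsub : v.primeFactors.filter (fun p => z < p) ⊆ Pr := by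
      intro p hp
      rw [mem_filter, Nat.mem_primeFactors] at hp
      rw [hPr, mem_filter, mem_Icc]
      have := Nat.le_of_dvd (by omega) hp.1.2.1
      exact ⟨⟨hp.1.1.one_le, by omega⟩, hp.1.1, hp.2⟩
    have h1 : ∏ p ∈ v.primeFactors.filter (fun p => z < p), (p : ℝ) / ((p : ℝ) - c)
        = ∏ p ∈ v.primeFactors.filter (fun p => z < p), (1 + g p) := by
      apply prod_congr rfl
      intro p hp
      have h2 := hpc p (hsub hp)
      have h3 : (p : ℝ) - c ≠ 0 := by
        have := h2.1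
        have := h2.2
        linarith
      simp only [hg]
      field_simp
      ring
    rw [h1, prod_one_add, ← sum_filter]
    apply sum_congr _ (fun _ _ => rfl)
    ext T
    simp only [mem_powerset, mem_filter]
    exact ⟨fun h => ⟨h.trans hsub, h⟩, fun h => h.2⟩
  rw [sum_congr rfl hexp, sum_comm]
  have hT : ∀ T ∈ Pr.powerset, (∑ v ∈ (Icc 1 X).filter (SgP P E),
      if T ⊆ v.primeFactors.filter (fun p => z < p) then ∏ p ∈ T, g p else 0)
      ≤ 2 * X * (1 / 2) ^ P.card * ∏ p ∈ T, (g p / (p : ℝ) ^ (1 / 2 : ℝ)) := by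
    intro T hT
    rw [mem_powerset] at hT
    rw [← sum_filter, sum_const, nsmul_eq_mul]
    have hG0 : 0 ≤ ∏ p ∈ T, g p := prod_nonneg fun p hp => hg0 p (hT hp)
    set d := ∏ p ∈ T, p with hd
    have hdpos : 0 < d := prod_pos fun p hp => ((mem_filter.1 (hT hp)).2.1).pos
    have hdr : (1 : ℝ) ≤ d := by exact_mod_cast hdpos
    have hdp : ((d : ℕ) : ℝ) ^ (1 / 2 : ℝ) = ∏ p ∈ T, (p : ℝ) ^ (1 / 2 : ℝ) := by
      rw [hd, Nat.cast_prod]
      exact (Real.finsetProd_rpow T _ (fun _ _ => Nat.cast_nonneg _) _).symm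
    have hdh : 0 < (d : ℝ) ^ (1 / 2 : ℝ) := Real.rpow_pos_of_pos (by linarith) _
    have hcard : ((((Icc 1 X).filter (SgP P E)).filter
        (fun v => T ⊆ v.primeFactors.filter (fun p => z < p))).card : ℝ)
        ≤ 2 * X * (1 / 2) ^ P.card / (d : ℝ) ^ (1 / 2 : ℝ) := by
      have hsub : ((Icc 1 X).filter (SgP P E)).filter
          (fun v => T ⊆ v.primeFactors.filter (fun p => z < p)) ⊆
          (Icc 1 X).filter (fun v => d ∣ v ∧ SgP P E v) := by
        intro v hv
        rw [mem_filter, mem_filter] at hv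
        rw [mem_filter]
        refine ⟨hv.1.1, ?_, hv.1.2⟩
        apply prod_primes_dvd
        · intro p hp
          exact ((mem_filter.1 (hT hp)).2.1).prime
        · intro p hp
          have := hv.2 hp
          rw [mem_filter, Nat.mem_primeFactors] at this
          exact this.1.2.1
      rcases Nat.lt_or_ge X d with hXd | hXd
      · have : (Icc 1 X).filter (fun v => d ∣ v ∧ SgP P E v) = ∅ := by
          rw [filter_eq_empty_iff]
          rintro v hv ⟨h1, -⟩
          rw [mem_Icc] at hv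
          have := Nat.le_of_dvd (by omega) h1
          omega
        rw [this] at hsub
        rw [subset_empty.1 hsub, card_empty, Nat.cast_zero]
        positivity
      · refine le_trans (by exact_mod_cast card_le_card hsub) ((cnt_class hP E hdpos X).trans ?_)
        have hXr : (d : ℝ) ≤ X := by exact_mod_cast hXd
        have hX0 : (0 : ℝ) < X := by linarith
        have h1 : (X : ℝ) / d ≤ X / (d : ℝ) ^ (1 / 2 : ℝ) := by
          apply div_le_div_of_nonneg_left hX0.le hdh
          calc (d : ℝ) ^ (1 / 2 : ℝ) ≤ (d : ℝ) ^ (1 : ℝ) :=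
                Real.rpow_le_rpow_of_exponent_le hdr (by norm_num)
            _ = d := Real.rpow_one _
        have h2 : (M : ℝ) ≤ X / (d : ℝ) ^ (1 / 2 : ℝ) := by
          rw [le_div_iff₀ hdh]
          have h3 : (M : ℝ) ≤ (X : ℝ) ^ (1 / 2 : ℝ) := by
            rw [← Real.sqrt_eq_rpow]
            apply Real.le_sqrt_of_sq_le
            exact_mod_cast hPX
          have h4 : (d : ℝ) ^ (1 / 2 : ℝ) ≤ (X : ℝ) ^ (1 / 2 : ℝ) :=
            Real.rpow_le_rpow (by linarith) hXr (by norm_num)
          calc (M : ℝ) * (d : ℝ) ^ (1 / 2 : ℝ) ≤ (X : ℝ) ^ (1 / 2 : ℝ) * (X : ℝ) ^ (1 / 2 : ℝ) :=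
                mul_le_mul h3 h4 hdh.le (by positivity)
            _ = X := by
                rw [← Real.rpow_add hX0]
                norm_num
        calc (1 / 2) ^ P.card * ((X : ℝ) / d + (M : ℝ)) ≤
              (1 / 2) ^ P.card * (X / (d : ℝ) ^ (1 / 2 : ℝ) + X / (d : ℝ) ^ (1 / 2 : ℝ)) := by
              apply mul_le_mul_of_nonneg_left _ (by positivity)
              linarith
          _ = _ := by ring
    calc ((((Icc 1 X).filter (SgP P E)).filter
        (fun v => T ⊆ v.primeFactors.filter (fun p => z < p))).card : ℝ) * ∏ p ∈ T, g p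
        ≤ (2 * X * (1 / 2) ^ P.card / (d : ℝ) ^ (1 / 2 : ℝ)) * ∏ p ∈ T, g p :=
          mul_le_mul_of_nonneg_right hcard hG0
      _ = 2 * X * (1 / 2) ^ P.card * ∏ p ∈ T, (g p / (p : ℝ) ^ (1 / 2 : ℝ)) := by
          have e : ∏ p ∈ T, (g p / (p : ℝ) ^ (1 / 2 : ℝ)) =
              (∏ p ∈ T, g p) / ∏ p ∈ T, (p : ℝ) ^ (1 / 2 : ℝ) :=
            prod_div_distrib g (fun p : ℕ => (p : ℝ) ^ (1 / 2 : ℝ))
          rw [e, ← hdp]
          ring
  refine (sum_le_sum hT).trans ?_
  rw [← mul_sum, ← prod_one_add]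
  have hfac : ∀ p ∈ Pr, 1 + g p / (p : ℝ) ^ (1 / 2 : ℝ) ≤
      Real.exp (2 * c * (1 / (p : ℝ) ^ (3 / 2 : ℝ))) := by
    intro p hp
    have h2 := hpc p hp
    have hpp : 0 < (p : ℝ) ^ (1 / 2 : ℝ) := Real.rpow_pos_of_pos h2.2 _
    have h3 : g p / (p : ℝ) ^ (1 / 2 : ℝ) ≤ 2 * c * (1 / (p : ℝ) ^ (3 / 2 : ℝ)) := by
      simp only [hg]
      have h4 : (c : ℝ) / ((p : ℝ) - c) ≤ c / ((p : ℝ) / 2) := by
        apply div_le_div_of_nonneg_left (Nat.cast_nonneg c) (by linarith [h2.2]) h2.1
      have h5 : (p : ℝ) ^ (3 / 2 : ℝ) = p * (p : ℝ) ^ (1 / 2 : ℝ) := by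
        rw [show (3 / 2 : ℝ) = 1 + 1 / 2 by norm_num, Real.rpow_add h2.2, Real.rpow_one]
      calc (c : ℝ) / ((p : ℝ) - c) / (p : ℝ) ^ (1 / 2 : ℝ) ≤
            c / ((p : ℝ) / 2) / (p : ℝ) ^ (1 / 2 : ℝ) := div_le_div_of_nonneg_right h4 hpp.le
        _ = 2 * c * (1 / (p : ℝ) ^ (3 / 2 : ℝ)) := by
            rw [h5]
            have := h2.2.ne'
            field_simp
    have h4 := Real.add_one_le_exp (2 * c * (1 / (p : ℝ) ^ (3 / 2 : ℝ)))
    linarith
  have hprod : ∏ p ∈ Pr, (1 + g p / (p : ℝ) ^ (1 / 2 : ℝ)) ≤ Real.exp (2 * c * S2) := by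
    calc ∏ p ∈ Pr, (1 + g p / (p : ℝ) ^ (1 / 2 : ℝ)) ≤
          ∏ p ∈ Pr, Real.exp (2 * c * (1 / (p : ℝ) ^ (3 / 2 : ℝ))) := by
          apply prod_le_prod
          · intro p hp
            have := hg0 p hp
            have := (hpc p hp).2
            positivity
          · exact hfac
      _ = Real.exp (∑ p ∈ Pr, 2 * c * (1 / (p : ℝ) ^ (3 / 2 : ℝ))) := (Real.exp_sum _ _).symm
      _ ≤ Real.exp (2 * c * S2) := by
          apply Real.exp_le_exp.2
          rw [← mul_sum]
          apply mul_le_mul_of_nonneg_left _ (by positivity)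
          exact hsq.sum_le_tsum Pr (fun n _ => by positivity)
  calc _ ≤ 2 * (X : ℝ) * (1 / 2) ^ P.card * Real.exp (2 * c * S2) :=
        mul_le_mul_of_nonneg_left hprod (by positivity)
    _ = _ := by ring

end Pool.Agent.H457.A
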