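import Pool.Agent.H457.A.T1a

set_option autoImplicit false
set_option linter.unusedSectionVars false

/-! The number of coprime pairs with given small prime factors of the values of the forms and given
quadratic symbols of the second coordinate; uniform in `z`. Adapted from `Pool.Agent.W29.RT`. -/

namespace Pool.Agent.H457.A

open Finset Pool.Agent.W262.RK Pool.Agent.W307.RT Pool.Agent.W29.RT
open Pool.Agent.W372.RK2 (mj mj_primes prod_gw)

lemma prod_le_sup {g : ℕ → ℝ} {A B : Finset ℕ} (h : A ⊆ B) (hg : ∀ p ∈ B, 1 ≤ g p) :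
    ∏ p ∈ A, g p ≤ ∏ p ∈ B, g p := by
  classical
  rw [← prod_sdiff h]
  apply le_mul_of_one_le_left
  · exact prod_nonneg fun p hp => zero_le_one.trans (hg p (h hp))
  · calc (1 : ℝ) = ∏ p ∈ B \ A, (1 : ℝ) := by simp
      _ ≤ _ := prod_le_prod (fun _ _ => zero_le_one) fun p hp => hg p (mem_sdiff.1 hp).1

lemma prod_union_le {g : ℕ → ℝ} {A B : Finset ℕ} (hg : ∀ p ∈ A ∪ B, 1 ≤ g p) :
    ∏ p ∈ A ∪ B, g p ≤ (∏ p ∈ A, g p) * ∏ p ∈ B, g p := by
  classical
  rw [← union_sdiff_self_eq_union, prod_union disjoint_sdiff]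
  apply mul_le_mul_of_nonneg_left
  · exact prod_le_sup sdiff_subset fun p hp => hg p (mem_union_right _ hp)
  · exact prod_nonneg fun p hp => zero_le_one.trans (hg p (mem_union_left _ hp))

variable {J : Type} [Fintype J] [DecidableEq J]

/-- the counted pairs -/
def TS (α β : J → ℤ) (z y X : ℕ) (s v u : J → ℕ) (E : Finset ℕ) : Finset (ℕ × ℕ) :=
  (Icc 1 X ×ˢ Icc 1 X).filter (fun t : ℕ × ℕ => t.1.Coprime t.2 ∧
      S1 z y (fv α β (t.1 : ℤ) (t.2 : ℤ)) = s ∧ S2 z y (fv α β (t.1 : ℤ) (t.2 : ℤ)) = v ∧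
      (∀ j, (u j : ℤ) ∣ fv α β (t.1 : ℤ) (t.2 : ℤ) j) ∧ SgP (∏ j, s j).primeFactors E t.2)

/-- two forms have no common large prime factor -/
lemma un_fv {α β : J → ℤ} {z : ℕ} (hB : Bg α β z) (t w : ℕ) (htw : t.Coprime w) (p : ℕ)
    (hp : p.Prime) (hzp : z < p) (j l : J) (hj : (p : ℤ) ∣ fv α β (t : ℤ) (w : ℤ) j)
    (hl : (p : ℤ) ∣ fv α β (t : ℤ) (w : ℤ) l) : j = l := by
  by_contra hne
  have hw := un_of hB htw hp hzp hj
  have h1 : Res α β j l * (w : ℤ) =
      α j * fv α β (t : ℤ) (w : ℤ) l - α l * fv α β (t : ℤ) (w : ℤ) j := by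
    unfold Res fv
    ring
  have h3 : (p : ℤ) ∣ Res α β j l * (w : ℤ) := by
    rw [h1]
    exact dvd_sub (hl.mul_left _) (hj.mul_left _)
  have hpI : Prime (p : ℤ) := Nat.prime_iff_prime_int.1 hp
  rcases hpI.dvd_or_dvd h3 with h | h
  · exact (hB.2 p hp hzp).2 j l hne h
  · exact hw (Int.natCast_dvd_natCast.1 h)

/-- the signed count -/
theorem cnts (J : Type) [Fintype J] [DecidableEq J] : ∃ (C0 : ℝ) (K y0 : ℕ), 0 ≤ C0 ∧ 1 ≤ K ∧
    ∀ (α β : J → ℤ) (z : ℕ), Bg α β z → 2 * Fintype.card J + 2 < z → ∀ X y Y : ℕ, y0 ≤ y →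
    z < y → y ^ K ≤ X → ∀ s ∈ Tup J z y, ∀ v ∈ Tup J z y, ∀ u ∈ Tup J y Y,
    (∏ j, s j * v j * u j) ^ 8 ≤ X → ∀ E : Finset ℕ,
    ((TS α β z y X s v u E).card : ℝ) ≤ C0 * (Real.log z) ^ (Fintype.card J) * X ^ 2 *
      (1 / 2) ^ (∏ j, s j).primeFactors.card * (∏ j, gw 1 (Fintype.card J) (s j)) *
        (∏ j, gw 1 (Fintype.card J) (v j) / v j) * (∏ j, 1 / (u j : ℝ)) /
        (Real.log y) ^ (Fintype.card J) := by
  set N := Fintype.card J with hN
  set z0 : ℕ := 2 * N + 2 with hz0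
  obtain ⟨C, K, y0, hC, hK, hSV⟩ := Pool.Agent.W340.RT.SVR2.svr2 J z0 le_rfl
  obtain ⟨CA, hCA, hav⟩ := avs N z0 le_rfl
  obtain ⟨B, hB0, hGB⟩ := gb N
  refine ⟨C * CA * Real.exp (N * B), K, y0, by positivity, hK, ?_⟩
  intro α β z hB hzz X y Y hy0 hzy hX s hs v hv u hu hsvu E
  have hs' := (Pool.Agent.W372.RK2.mem_Tup'.1 hs).1
  have hv' := (Pool.Agent.W372.RK2.mem_Tup'.1 hv).1
  have hu' := (Pool.Agent.W372.RK2.mem_Tup'.1 hu).1
  have hz : 2 ≤ z := by omega
  have hc : N ≤ z := by omega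
  have hlog : 0 ≤ (Real.log y) ^ N := pow_nonneg (Real.log_natCast_nonneg y) _
  have hlogz : 0 ≤ (Real.log z) ^ N := pow_nonneg (Real.log_natCast_nonneg z) _
  have hgs : ∀ j, 0 ≤ gw 1 N (s j) := fun j => gw_nonneg zero_le_one hc (hs' j)
  have hgv : ∀ j, 0 ≤ gw 1 N (v j) := fun j => gw_nonneg zero_le_one hc (hv' j)
  set T := TS α β z y X s v u E with hT
  set Ps := (∏ j, s j).primeFactors with hPs
  have hgood : ∀ t ∈ T, G2 z y s v u (fv α β (t.1 : ℤ) (t.2 : ℤ)) := by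
    intro t ht
    rw [hT] at ht
    unfold TS at ht
    rw [mem_filter] at ht
    exact ⟨ht.2.2.1, ht.2.2.2.1, ht.2.2.2.2.1, fun p hp hzp j l h h' =>
      un_fv hB t.1 t.2 ht.2.1 p hp hzp j l h h'⟩
  have hmemT : ∀ t ∈ T, t.1 ∈ Icc 1 X ∧ t.2 ∈ (Icc 1 X).filter (SgP Ps E) := by
    intro t ht
    rw [hT] at ht
    unfold TS at ht
    rw [mem_filter, mem_product] at ht
    exact ⟨ht.1.1, mem_filter.2 ⟨ht.1.2, ht.2.2.2.2.2⟩⟩
  rcases T.eq_empty_or_nonempty with hTe | ⟨t0, ht0⟩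
  · rw [hTe, card_empty, Nat.cast_zero]
    apply div_nonneg _ hlog
    have h1 : 0 ≤ ∏ j, gw 1 N (s j) := prod_nonneg fun j _ => hgs j
    have h2 : 0 ≤ ∏ j, gw 1 N (v j) / v j :=
      prod_nonneg fun j _ => div_nonneg (hgv j) (Nat.cast_nonneg _)
    have h3 : 0 ≤ ∏ j, 1 / (u j : ℝ) := prod_nonneg fun j _ => by positivity
    positivity
  set m := ∏ j, mj c0 s v u j with hm
  have hmj1 : ∀ j, 1 ≤ mj c0 s v u j := by
    intro j
    rw [mj_eq]
    have h1 := dv_pos (hs' j)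
    have h2 := dv_pos (hv' j)
    have h3 := dv_pos (hu' j)
    exact Nat.succ_le_of_lt (by positivity)
  have hm1 : 1 ≤ m := Nat.succ_le_of_lt (prod_pos fun j _ => hmj1 j)
  have hm4 : m ^ 4 ≤ X := by
    refine le_trans ?_ hsvu
    have h1 : m ≤ (∏ j, s j * v j * u j) ^ 2 := by
      rw [← prod_pow]
      apply prod_le_prod'
      intro j _
      rw [mj_eq]
      have h1 := dv_pos (hs' j)
      have h3 := dv_pos (hu' j)
      calc s j * v j ^ 2 * u j ≤ (s j * s j) * v j ^ 2 * (u j * u j) := by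
            apply Nat.mul_le_mul
            · apply Nat.mul_le_mul_right
              nlinarith
            · nlinarith
        _ = (s j * v j * u j) ^ 2 := by ring
    calc m ^ 4 ≤ ((∏ j, s j * v j * u j) ^ 2) ^ 4 := Nat.pow_le_pow_left h1 4
      _ = (∏ j, s j * v j * u j) ^ 8 := by rw [← pow_mul]
  have hsq := hgood t0 ht0
  -- the primes of the tuple
  have hPsp : ∀ p ∈ Ps, p.Prime ∧ z < p := by
    intro p hp
    have hpp := Nat.prime_of_mem_primeFactors hp
    obtain ⟨j, -, h⟩ := (hpp.prime.dvd_finsetProd_iff _).1 (Nat.dvd_of_mem_primeFactors hp)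
    exact ⟨hpp, (dv_prime (hs' j) hpp h).1⟩
  have hPsX : (∏ p ∈ Ps, p) ^ 2 ≤ X := by
    have h1 : ∏ p ∈ Ps, p ≤ ∏ j, s j :=
      Nat.le_of_dvd (prod_pos fun j _ => dv_pos (hs' j)) (Nat.prod_primeFactors_dvd _)
    have h2 : ∏ j, s j ≤ ∏ j, s j * v j * u j := by
      apply prod_le_prod'
      intro j _
      have h2 := dv_pos (hv' j)
      have h3 := dv_pos (hu' j)
      rw [mul_assoc]
      exact Nat.le_mul_of_pos_right _ (by positivity)
    have h3 : 1 ≤ ∏ j, s j * v j * u j := Nat.succ_le_of_lt (prod_pos fun j _ => by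
      have h1 := dv_pos (hs' j)
      have h2 := dv_pos (hv' j)
      have h3 := dv_pos (hu' j)
      positivity)
    calc (∏ p ∈ Ps, p) ^ 2 ≤ (∏ j, s j * v j * u j) ^ 2 := Nat.pow_le_pow_left (h1.trans h2) 2
      _ ≤ (∏ j, s j * v j * u j) ^ 8 := Nat.pow_le_pow_right h3 (by norm_num)
      _ ≤ X := hsvu
  -- factors
  set g : ℕ → ℝ := fun p => (p : ℝ) / ((p : ℝ) - N) with hg
  have hg1 : ∀ p, z0 < p → 1 ≤ g p := by
    intro p hp
    have h1 : (N : ℝ) < p := by exact_mod_cast (by omega : N < p)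
    rw [hg]
    simp only
    rw [le_div_iff₀ (by linarith)]
    have : (0 : ℝ) ≤ N := Nat.cast_nonneg _
    linarith
  set Gm : ℝ := ∏ p ∈ m.primeFactors.filter (fun p => p ∈ PS z y), g p with hGm
  have hGm0 : 0 ≤ Gm := prod_nonneg fun p hp =>
    zero_le_one.trans (hg1 p (by have := (mem_PS.1 (mem_filter.1 hp).2).1.1; omega))
  set Z : ℕ := PP z0 z with hZ
  have hZ0 : Z ≠ 0 := PP_ne_zero _ _
  have hZp : Z.primeFactors = PS z0 z := PP_primeFactors z0 z
  set GZ : ℝ := ∏ p ∈ PS z0 z, g p with hGZ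
  have hGZ0 : 0 ≤ GZ := prod_nonneg fun p hp =>
    zero_le_one.trans (hg1 p (mem_PS.1 hp).1.1)
  have hGZle : GZ ≤ Real.exp (N * B) * (Real.log z) ^ N := by
    have h1 := (hGB z0 le_rfl N (Nat.cast_nonneg _)).F1 z hzz
    rw [Real.rpow_natCast] at h1
    refine le_trans (le_of_eq ?_) h1
    have h2 : ∑ d ∈ (PP z0 z).divisors, gw (N : ℝ) N d =
        ∏ p ∈ PS z0 z, (1 + (N : ℝ) / ((p : ℝ) - N)) := by
      unfold PP gw
      exact Pool.Agent.W655.RK.sum_mult (PS z0 z) (fun p hp => (mem_PS.1 hp).2)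
        (fun p => (N : ℝ) / ((p : ℝ) - N))
    rw [h2, hGZ]
    refine prod_congr rfl fun p hp => ?_
    have h3 : (N : ℝ) < p := by
      have := (mem_PS.1 hp).1.1
      exact_mod_cast (by omega : N < p)
    have h4 : (p : ℝ) - N ≠ 0 := by
      have : 0 < (p : ℝ) - N := by linarith
      exact this.ne'
    rw [hg]
    simp only
    field_simp
    ring
  -- the primes of the modulus are large
  have hmz : ∀ p : ℕ, p.Prime → p ∣ m → z < p := by
    intro p hp h
    rw [hm] at h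
    obtain ⟨j, -, hj⟩ := (hp.prime.dvd_finsetProd_iff _).1 h
    exact (hsq.fmj hu hzy hp hj).1
  have hmul : ∀ w : ℕ, w ≠ 0 → ∏ p ∈ (m * w * Z).primeFactors.filter (fun p => p ∈ PS z0 y), g p ≤
      Gm * (∏ p ∈ w.primeFactors.filter (fun p => z0 < p), g p) * GZ := by
    intro w hw
    have e1 : (m * w * Z).primeFactors.filter (fun p => p ∈ PS z0 y) ⊆
        (m.primeFactors.filter (fun p => p ∈ PS z y) ∪ w.primeFactors.filter (fun p => z0 < p)) ∪
          PS z0 z := by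
      intro p hp
      rw [Nat.primeFactors_mul (mul_ne_zero (by omega) hw) hZ0,
        Nat.primeFactors_mul (by omega) hw, mem_filter, mem_union, mem_union] at hp
      rw [mem_union, mem_union, mem_filter, mem_filter]
      obtain ⟨hp1, hp2⟩ := hp
      rcases hp1 with (h | h) | h
      · left; left
        refine ⟨h, ?_⟩
        rw [mem_PS]
        have h5 := mem_PS.1 hp2
        exact ⟨⟨hmz p h5.2 (Nat.dvd_of_mem_primeFactors h), h5.1.2⟩, h5.2⟩
      · left; right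
        exact ⟨h, (mem_PS.1 hp2).1.1⟩
      · right
        rw [hZp] at h
        exact h
    have hg1' : ∀ p ∈ (m.primeFactors.filter (fun p => p ∈ PS z y) ∪
        w.primeFactors.filter (fun p => z0 < p)) ∪ PS z0 z, 1 ≤ g p := by
      intro p hp
      rw [mem_union, mem_union, mem_filter, mem_filter] at hp
      apply hg1
      rcases hp with (h | h) | h
      · have := (mem_PS.1 h.2).1.1
        omega
      · exact h.2
      · exact (mem_PS.1 h).1.1
    refine (prod_le_sup e1 hg1').trans ((prod_union_le hg1').trans ?_)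
    apply mul_le_mul_of_nonneg_right _ hGZ0
    exact prod_union_le fun p hp => hg1' p (mem_union_left _ hp)
  -- bound for a fixed second variable
  have hfib : ∀ w ∈ (Icc 1 X).filter (SgP Ps E), ((T.filter (fun t : ℕ × ℕ => t.2 = w)).card : ℝ) ≤
      C * (X / m) * (Gm * (∏ p ∈ w.primeFactors.filter (fun p => z0 < p), g p) * GZ) /
        (Real.log y) ^ N := by
    intro w hw
    rw [mem_filter, mem_Icc] at hw
    have hw0 : w ≠ 0 := by omega
    have hnm : ∀ p ∈ PS z0 y, ¬ p ∣ m * w * Z → z < p := by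
      intro p hp hpm
      by_contra hcon
      apply hpm
      apply Dvd.dvd.mul_left
      have h1 : p ∈ PS z0 z := mem_PS.2 ⟨⟨(mem_PS.1 hp).1.1, by omega⟩, (mem_PS.1 hp).2⟩
      exact dvd_prod_of_mem _ h1
    have hcond : ∀ p ∈ PS z0 y, ¬ p ∣ m * w * Z → (∀ j, ¬ (p : ℤ) ∣ α j) ∧
        ∀ j l, j ≠ l → ¬ (p : ℤ) ∣ Res α (fun j => β j * (w : ℤ)) j l := by
      intro p hp hpm
      have hpp := (mem_PS.1 hp).2
      have hzp := hnm p hp hpm
      refine ⟨(hB.2 p hpp hzp).1, fun j l hjl hd => ?_⟩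
      have h1 : Res α (fun j => β j * (w : ℤ)) j l = Res α β j l * (w : ℤ) := by
        unfold Res
        ring
      rw [h1] at hd
      have hpI : Prime (p : ℤ) := Nat.prime_iff_prime_int.1 hpp
      rcases hpI.dvd_or_dvd hd with h | h
      · exact (hB.2 p hpp hzp).2 j l hjl h
      · exact hpm (((Int.natCast_dvd_natCast.1 h).mul_left _).mul_right _)
    have hbd : ∀ r : ℕ, (((Icc 1 X).filter (fun t : ℕ => t ≡ r [MOD m] ∧
        ∀ p ∈ PS z0 y, ¬ p ∣ m * w * Z →
        ∀ j, ¬ (p : ℤ) ∣ ff α (fun j => β j * (w : ℤ)) t j)).card : ℝ) ≤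
        C * (X / m) * (Gm * (∏ p ∈ w.primeFactors.filter (fun p => z0 < p), g p) * GZ) /
          (Real.log y) ^ N := by
      intro r
      refine (hSV X y hy0 (by omega) hX α (fun j => β j * (w : ℤ)) m (m * w * Z) r hm1
        (Dvd.intro _ (by ring : m * (w * Z) = m * w * Z))
        (mul_ne_zero (mul_ne_zero (by omega) hw0) hZ0) hm4 hcond).trans ?_
      apply div_le_div_of_nonneg_right _ hlog
      apply mul_le_mul_of_nonneg_left (hmul w hw0)
      positivity
    rcases (T.filter (fun t : ℕ × ℕ => t.2 = w)).eq_empty_or_nonempty with he | ⟨r, hr⟩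
    · rw [he, card_empty, Nat.cast_zero]
      exact le_trans (Nat.cast_nonneg _) (hbd 0)
    · refine le_trans ?_ (hbd r.1)
      rw [Nat.cast_le]
      apply card_le_card_of_injOn (fun t : ℕ × ℕ => t.1)
      · intro t ht
        have ht' : t ∈ T.filter (fun t : ℕ × ℕ => t.2 = w) := ht
        rw [mem_filter] at ht' hr
        have g1 := hgood t ht'.1
        have g2 := hgood r hr.1
        have htX : t.1 ∈ Icc 1 X := (hmemT t ht'.1).1
        simp only [coe_filter, Set.mem_ofPred_eq]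
        rw [ht'.2] at g1
        rw [hr.2] at g2
        refine ⟨htX, ?_, ?_⟩
        · have h1 := cong (α := α) (fun p hp hz => (hB.2 p hp hz).1) hzy hs hv hu g1 g2
            (t := (t.1 : ℤ)) (t' := (r.1 : ℤ)) (fun j => by unfold fv; ring)
          rw [← hm] at h1
          exact ((Nat.modEq_iff_dvd.2 h1)).symm
        · intro p hpP hpm j hpf
          have hp := (mem_PS.1 hpP).2
          have hzp := hnm p hpP hpm
          have hpP' : p ∈ PS z y := mem_PS.2 ⟨⟨hzp, (mem_PS.1 hpP).1.2⟩, hp⟩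
          apply hpm
          apply Dvd.dvd.mul_right
          apply Dvd.dvd.mul_right
          rw [hm]
          refine Dvd.dvd.trans ?_ (dvd_prod_of_mem _ (mem_univ j))
          rw [mj_eq]
          have hff : ff α (fun j => β j * (w : ℤ)) (t.1 : ℤ) j = fv α β (t.1 : ℤ) (w : ℤ) j := by
            unfold ff fv
            ring
          rw [hff] at hpf
          by_cases h2 : (p : ℤ) ^ 2 ∣ fv α β (t.1 : ℤ) (w : ℤ) j
          · have h3 : p ∣ v j := by
              rw [← g1.hv]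
              exact (dvd_S2 hp).2 ⟨hpP', h2⟩
            exact (((h3.pow two_ne_zero).mul_left _).mul_right _)
          · have h3 : p ∣ s j := by
              rw [← g1.hs]
              exact (dvd_S1 hp).2 ⟨hpP', hpf, h2⟩
            exact ((h3.mul_right _).mul_right _)
      · intro a ha b hb hab
        have ha' : a ∈ T.filter (fun t : ℕ × ℕ => t.2 = w) := ha
        have hb' : b ∈ T.filter (fun t : ℕ × ℕ => t.2 = w) := hb
        rw [mem_filter] at ha' hb'
        exact Prod.ext hab (ha'.2.trans hb'.2.symm)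
  have hcard : (T.card : ℝ) ≤ ∑ w ∈ (Icc 1 X).filter (SgP Ps E),
      C * (X / m) * (Gm * (∏ p ∈ w.primeFactors.filter (fun p => z0 < p), g p) * GZ) /
        (Real.log y) ^ N := by
    rw [card_eq_sum_card_fiberwise (f := fun t : ℕ × ℕ => t.2) (t := (Icc 1 X).filter (SgP Ps E))
      (fun t ht => (hmemT t ht).2)]
    rw [Nat.cast_sum]
    exact sum_le_sum fun w hw => hfib w hw
  have hsum : ∑ w ∈ (Icc 1 X).filter (SgP Ps E),
      C * (X / m) * (Gm * (∏ p ∈ w.primeFactors.filter (fun p => z0 < p), g p) * GZ) /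
        (Real.log y) ^ N ≤
      C * (X / m) * (Gm * (CA * X * (1 / 2) ^ Ps.card) * (Real.exp (N * B) * (Real.log z) ^ N)) /
        (Real.log y) ^ N := by
    rw [← sum_div, ← mul_sum, ← sum_mul, ← mul_sum]
    apply div_le_div_of_nonneg_right _ hlog
    apply mul_le_mul_of_nonneg_left _ (by positivity)
    have h1 := hav X Ps E (fun p hp => ⟨(hPsp p hp).1, by have := (hPsp p hp).2; omega⟩) hPsX
    apply mul_le_mul (mul_le_mul_of_nonneg_left h1 hGm0) hGZle hGZ0
    positivity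
  refine hcard.trans (hsum.trans ?_)
  have hGmeq : Gm = ∏ j, ((s j * gw 1 N (s j)) * (v j * gw 1 N (v j))) := prod_pr hs hv hu hsq
  have hterm : ∀ j, ((s j * gw 1 N (s j)) * (v j * gw 1 N (v j))) /
      ((mj c0 s v u j : ℕ) : ℝ) = gw 1 N (s j) *
      (gw 1 N (v j) / v j) * (1 / (u j : ℝ)) := by
    intro j
    have h1 : (s j : ℝ) ≠ 0 := Nat.cast_ne_zero.2 (dv_ne_zero (hs' j))
    have h2 : (v j : ℝ) ≠ 0 := Nat.cast_ne_zero.2 (dv_ne_zero (hv' j))
    have h3 : (u j : ℝ) ≠ 0 := Nat.cast_ne_zero.2 (dv_ne_zero (hu' j))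
    rw [mj_eq]
    rw [Nat.cast_mul, Nat.cast_mul, Nat.cast_pow]
    field_simp
  have hprod : (∏ j, ((s j * gw 1 N (s j)) * (v j * gw 1 N (v j)))) /
      (∏ j, ((mj c0 s v u j : ℕ) : ℝ)) = (∏ j, gw 1 N (s j)) *
        (∏ j, gw 1 N (v j) / v j) * (∏ j, 1 / (u j : ℝ)) := by
    rw [← prod_div_distrib, ← prod_mul_distrib, ← prod_mul_distrib]
    exact prod_congr rfl fun j _ => hterm j
  apply le_of_eq
  rw [show C * CA * Real.exp (N * B) * (Real.log z) ^ N * X ^ 2 * (1 / 2) ^ Ps.card *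
        (∏ j, gw 1 N (s j)) * (∏ j, gw 1 N (v j) / v j) * (∏ j, 1 / (u j : ℝ)) =
      C * CA * Real.exp (N * B) * (Real.log z) ^ N * X ^ 2 * (1 / 2) ^ Ps.card *
        ((∏ j, gw 1 N (s j)) * (∏ j, gw 1 N (v j) / v j) * (∏ j, 1 / (u j : ℝ))) by ring,
    ← hprod, hGmeq, hm, Nat.cast_prod]
  ring

end Pool.Agent.H457.A
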