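import Pool.Agent.H457.A.T1b
import Pool.Graph.R_seed8.W214.RK2.Desc4
import Pool.Graph.R_seed8.W342.RK2.LocL

set_option autoImplicit false
set_option linter.unusedSectionVars false

/-! The curves `y² = x (x - D a) (x - D b)`, with `a`, `b` coprime: the rank bound. -/

namespace Pool.Agent.H457.A

open Finset Pool.Agent.W262.RK Pool.Agent.W307.RT Pool.Agent.W29.RT

/-- the classes of the three forms -/
def cls3 : Fin 3 → Fin 4 := Fin.castSucc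

/-- the first coefficients -/
def al3 (σ : ℤ) : Fin 3 → ℤ := ![σ, 2 * σ, -σ]

/-- the second coefficients -/
def be3 (τ : ℤ) : Fin 3 → ℤ := ![0, τ, -τ]

/-- the values of the forms: `a`, `b`, `a - b` -/
def F3 (σ τ : ℤ) (t : ℕ × ℕ) : Fin 3 → ℤ := fv (al3 σ) (be3 τ) (t.1 : ℤ) (t.2 : ℤ)

lemma F3_0 (σ τ : ℤ) (t : ℕ × ℕ) : F3 σ τ t 0 = σ * t.1 := by
  unfold F3 fv al3 be3; simp

lemma F3_1 (σ τ : ℤ) (t : ℕ × ℕ) : F3 σ τ t 1 = 2 * σ * t.1 + τ * t.2 := by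
  unfold F3 fv al3 be3; simp

lemma F3_2 (σ τ : ℤ) (t : ℕ × ℕ) : F3 σ τ t 2 = F3 σ τ t 0 - F3 σ τ t 1 := by
  rw [F3_0, F3_1]
  unfold F3 fv al3 be3
  simp
  ring

/-- the constants -/
def ka3 (D : ℕ) (τ : ℤ) (j i : Fin 3) : ℤ :=
  if i = 0 then (if j = 1 then 2 * (D * τ) else -(D * τ)) else 1

/-- the negative primes -/
def ng3 (t : ℕ × ℕ) (s : Fin 3 → ℕ) : Finset ℕ :=
  (∏ j, s j).primeFactors.filter (fun p => jacobiSym (t.2 : ℤ) p = -1)

lemma PF_true (s : Fin 3 → ℕ) : PF (fl4 cls3 (fun _ => true)) s = (∏ j, s j).primeFactors := by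
  unfold PF fl4
  simp

variable {σ τ : ℤ} {D z : ℕ}

lemma sq_one_of (h : σ = 1 ∨ σ = -1) : σ ^ 2 = 1 := by
  rcases h with rfl | rfl <;> norm_num

lemma not_dvd_unit {p : ℕ} (hp : p.Prime) (h : σ = 1 ∨ σ = -1) : ¬ (p : ℤ) ∣ σ := by
  intro hd
  have h1 : p ∣ σ.natAbs := Int.natCast_dvd.1 hd
  have h2 : σ.natAbs = 1 := by rcases h with rfl | rfl <;> rfl
  rw [h2] at h1
  exact hp.one_lt.ne' (Nat.dvd_one.1 h1)

lemma bg3 (hσ : σ = 1 ∨ σ = -1) (hτ : τ = 1 ∨ τ = -1) (hz : 8 ≤ z) : Bg (al3 σ) (be3 τ) z := by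
  refine ⟨by simpa using hz, fun p hp hzp => ⟨fun j h => ?_, fun j l hjl h => ?_⟩⟩
  · have hpi : Prime (p : ℤ) := Nat.prime_iff_prime_int.1 hp
    unfold al3 at h
    fin_cases j
    · exact not_dvd_unit hp hσ h
    · rcases hpi.dvd_or_dvd h with h' | h'
      · have h2 : p ∣ 2 := by exact_mod_cast h'
        have := Nat.le_of_dvd (by norm_num) h2
        omega
      · exact not_dvd_unit hp hσ h'
    · exact not_dvd_unit hp hσ ((dvd_neg).1 h)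
  · have hst : σ * τ = 1 ∨ σ * τ = -1 := by
      rcases hσ with rfl | rfl <;> rcases hτ with rfl | rfl <;> simp
    have hall : Res (al3 σ) (be3 τ) j l = σ * τ ∨ Res (al3 σ) (be3 τ) j l = -(σ * τ) := by
      unfold Res al3 be3
      fin_cases j <;> fin_cases l <;> simp at hjl ⊢ <;> first
        | (left; ring1)
        | (right; ring1)
    rcases hall with h1 | h1
    · rw [h1] at h
      exact not_dvd_unit hp hst h
    · rw [h1] at h
      exact not_dvd_unit hp hst ((dvd_neg).1 h)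

lemma ka3_ne (hD : 0 < D) (hτ : τ = 1 ∨ τ = -1) (j i : Fin 3) : ka3 D τ j i ≠ 0 := by
  have h1 : (D : ℤ) * τ ≠ 0 := by
    apply mul_ne_zero
    · exact_mod_cast hD.ne'
    · rcases hτ with rfl | rfl <;> norm_num
  unfold ka3
  split_ifs
  · exact mul_ne_zero two_ne_zero h1
  · exact neg_ne_zero.2 h1
  · norm_num

lemma ka3_le (hτ : τ = 1 ∨ τ = -1) (j : Fin 3) :
    (ka3 D τ j 0).natAbs * (ka3 D τ j 1).natAbs * (ka3 D τ j 2).natAbs ≤ 2 * D := by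
  have h1 : ((D : ℤ) * τ).natAbs = D := by
    rw [Int.natAbs_mul, Int.natAbs_natCast]
    rcases hτ with rfl | rfl <;> simp
  have e1 : ka3 D τ j 1 = 1 := by unfold ka3; simp
  have e2 : ka3 D τ j 2 = 1 := by unfold ka3; simp
  rw [e1, e2]
  unfold ka3
  rw [if_pos rfl]
  split_ifs
  · rw [Int.natAbs_mul, h1]
    simp
  · rw [Int.natAbs_neg, h1]
    simp
    omega

/-- the symbol of the first constant times the second coordinate, and the local condition -/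
lemma LC_eq (κ : Fin 3 → Fin 3 → ℤ) (j : Fin 3) {p : ℕ} (hp : p.Prime)
    {w : ℕ} (hw : ¬ p ∣ w) (hκ : ¬ (p : ℤ) ∣ κ j 0) (v w' h g : Bool) :
    LC4 cls3 (fun _ => true) κ j (decide (jacobiSym (w : ℤ) p = -1)) p v w' h g ↔
      LL (cls3 j) (fun _ => κ j 0 * w) false p v w' h g := by
  have hsg : sg0 p (κ j 0 * w) = xor (decide (jacobiSym (w : ℤ) p = -1)) (sg0 p (κ j 0)) := by
    unfold sg0
    rw [jacobiSym.mul_left]
    have h1 := jac_pm hp hw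
    have h2 : jacobiSym (κ j 0) p = 1 ∨ jacobiSym (κ j 0) p = -1 := by
      have : NeZero p := ⟨hp.ne_zero⟩
      rcases jacobiSym.trichotomy (κ j 0) p with h1 | h1 | h1
      · exfalso
        rw [jacobiSym.eq_zero_iff_not_coprime] at h1
        apply h1
        rw [Int.gcd_eq_natAbs, Int.natAbs_natCast]
        exact ((hp.coprime_iff_not_dvd).2 fun h => hκ (Int.natCast_dvd.2 h)).symm
      · exact Or.inl h1
      · exact Or.inr h1
    rcases h1 with h1 | h1 <;> rcases h2 with h2 | h2 <;> rw [h1, h2] <;> decide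
  unfold LC4 LF LL
  have hc : cls3 j = 0 ∨ cls3 j = 1 ∨ cls3 j = 2 := by
    fin_cases j
    · exact Or.inl rfl
    · exact Or.inr (Or.inl rfl)
    · exact Or.inr (Or.inr rfl)
  rcases hc with h | h | h
  · rw [if_pos h, if_pos h, hsg, Bool.true_and]
  · have h0 : cls3 j ≠ 0 := by rw [h]; decide
    rw [if_neg h0, if_pos h, if_neg h0, if_pos h, hsg, Bool.true_and]
  · have h0 : cls3 j ≠ 0 := by rw [h]; decide
    have h1 : cls3 j ≠ 1 := by rw [h]; decide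
    rw [if_neg h0, if_neg h1, if_pos h, if_neg h0, if_neg h1, if_pos h, hsg, Bool.true_and]

lemma jac_sq {p : ℕ} (hp : p.Prime) {x : ℤ} (hx : ¬ (p : ℤ) ∣ x) : jacobiSym (x ^ 2) p = 1 := by
  apply jacobiSym.sq_one'
  rw [← Int.isCoprime_iff_gcd_eq_one]
  exact IsCoprime.symm ((Prime.coprime_iff_not_dvd (Nat.prime_iff_prime_int.1 hp)).2 hx)

/-- the local hypotheses at a prime of the `j`-th form -/
lemma locH3 (hσ : σ = 1 ∨ σ = -1) (hτ : τ = 1 ∨ τ = -1) (hD : 0 < D) (hz : 2 * D + 8 ≤ z)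
    {t : ℕ × ℕ} (ht : t.1.Coprime t.2) {p : ℕ} (hp : p.Prime) (hzp : z < p) {j : Fin 3}
    (hj : (p : ℤ) ∣ F3 σ τ t j) (hj2 : ¬ (p : ℤ) ^ 2 ∣ F3 σ τ t j) :
    LocH (cls3 j) (fun _ => ka3 D τ j 0 * t.2) false p (D * F3 σ τ t 0) (D * F3 σ τ t 1) := by
  have hpi : Prime (p : ℤ) := Nat.prime_iff_prime_int.1 hp
  have hB := bg3 hσ hτ (by omega : 8 ≤ z)
  have hpD : ¬ (p : ℤ) ∣ D := by
    intro h
    have h1 : p ∣ D := by exact_mod_cast h
    have := Nat.le_of_dvd hD h1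
    omega
  have hun := fun l (h : (p : ℤ) ∣ F3 σ τ t l) => un_fv hB t.1 t.2 ht p hp hzp j l hj h
  have hw : ¬ (p : ℤ) ∣ t.2 := by
    intro h
    exact un_of hB ht hp hzp hj (by exact_mod_cast h)
  have hp2 : ¬ (p : ℤ) ∣ 2 := by
    intro h
    have h1 : p ∣ 2 := by exact_mod_cast h
    have := Nat.le_of_dvd (by norm_num) h1
    omega
  have hD1 : ∀ l, ¬ (p : ℤ) ∣ F3 σ τ t l → ¬ (p : ℤ) ∣ (D : ℤ) * F3 σ τ t l := fun l h h' =>
    (hpi.dvd_or_dvd h').elim hpD h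
  have hD2 : ¬ (p : ℤ) ^ 2 ∣ (D : ℤ) * F3 σ τ t j := by
    intro h
    apply hj2
    have hco : IsCoprime ((p : ℤ) ^ 2) (D : ℤ) :=
      IsCoprime.pow_left ((Prime.coprime_iff_not_dvd hpi).2 hpD)
    exact hco.dvd_of_dvd_mul_left h
  have hτ0 : ¬ (p : ℤ) ∣ τ := not_dvd_unit hp hτ
  have hDw : ¬ (p : ℤ) ∣ (D : ℤ) * τ * t.2 := by
    intro h
    rcases hpi.dvd_or_dvd h with h | h
    · rcases hpi.dvd_or_dvd h with h | h
      · exact hpD h
      · exact hτ0 h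
    · exact hw h
  have hτsq := sq_one_of hτ
  fin_cases j
  · -- the class 0
    simp only [Fin.zero_eta] at hj hj2 hun hD2 ⊢
    have h1 : ¬ (p : ℤ) ∣ F3 σ τ t 1 := fun h => absurd (hun 1 h) (by decide)
    refine ⟨hj.mul_left _, hD2, hD1 1 h1, ?_⟩
    have hmod : ka3 D τ 0 0 * t.2 * (-((D : ℤ) * F3 σ τ t 1)) ≡ (D * τ * t.2) ^ 2 [ZMOD p] := by
      rw [Int.modEq_iff_dvd, F3_1]
      rw [F3_0] at hj
      have e : (D * τ * t.2) ^ 2 - ka3 D τ 0 0 * t.2 * (-((D : ℤ) * (2 * σ * t.1 + τ * t.2))) =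
          (σ * t.1) * (-(2 * (D : ℤ) ^ 2 * τ * t.2)) := by
        unfold ka3
        simp
        ring
      rw [e]
      exact hj.mul_right _
    rw [jacobiSym.mod_left' hmod]
    exact jac_sq hp hDw
  · -- the class 1
    simp only [Fin.mk_one] at hj hj2 hun hD2 ⊢
    have h0 : ¬ (p : ℤ) ∣ F3 σ τ t 0 := fun h => absurd (hun 0 h) (by decide)
    have hcl : LocH (cls3 1) (fun _ => ka3 D τ 1 0 * t.2) false p (D * F3 σ τ t 0)
        (D * F3 σ τ t 1) = ((p : ℤ) ∣ D * F3 σ τ t 1 ∧ ¬ (p : ℤ) ^ 2 ∣ D * F3 σ τ t 1 ∧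
          ¬ (p : ℤ) ∣ D * F3 σ τ t 0 ∧
          jacobiSym (ka3 D τ 1 0 * t.2 * (-(D * F3 σ τ t 0))) p = 1) := rfl
    rw [hcl]
    refine ⟨hj.mul_left _, hD2, hD1 0 h0, ?_⟩
    have hmod : ka3 D τ 1 0 * t.2 * (-((D : ℤ) * F3 σ τ t 0)) ≡ (D * τ * t.2) ^ 2 [ZMOD p] := by
      rw [Int.modEq_iff_dvd, F3_0]
      rw [F3_1] at hj
      have e : (D * τ * t.2) ^ 2 - ka3 D τ 1 0 * t.2 * (-((D : ℤ) * (σ * t.1))) =
          (2 * σ * t.1 + τ * t.2) * ((D : ℤ) ^ 2 * τ * t.2) := by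
        unfold ka3
        simp
        ring
      rw [e]
      exact hj.mul_right _
    rw [jacobiSym.mod_left' hmod]
    exact jac_sq hp hDw
  · -- the class 2
    have hj' : (p : ℤ) ∣ F3 σ τ t 2 := hj
    have hj2' : ¬ (p : ℤ) ^ 2 ∣ F3 σ τ t 2 := hj2
    have h0 : ¬ (p : ℤ) ∣ F3 σ τ t 0 := fun h => absurd (hun 0 h) (by decide)
    have hD2' : ¬ (p : ℤ) ^ 2 ∣ (D : ℤ) * F3 σ τ t 2 := hD2
    have hcl : LocH (cls3 2) (fun _ => ka3 D τ 2 0 * t.2) false p (D * F3 σ τ t 0)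
        (D * F3 σ τ t 1) = ((p : ℤ) ∣ D * F3 σ τ t 0 - D * F3 σ τ t 1 ∧
          ¬ (p : ℤ) ^ 2 ∣ D * F3 σ τ t 0 - D * F3 σ τ t 1 ∧
          ¬ (p : ℤ) ∣ D * F3 σ τ t 0 ∧
          jacobiSym (ka3 D τ 2 0 * t.2 * (D * F3 σ τ t 0)) p = 1) := rfl
    show LocH (cls3 2) (fun _ => ka3 D τ 2 0 * t.2) false p (D * F3 σ τ t 0) (D * F3 σ τ t 1)
    rw [hcl]
    have e2 : (D : ℤ) * F3 σ τ t 0 - D * F3 σ τ t 1 = D * F3 σ τ t 2 := by
      rw [F3_2]
      ring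
    rw [e2]
    refine ⟨hj'.mul_left _, hD2', hD1 0 h0, ?_⟩
    have hmod : ka3 D τ 2 0 * t.2 * ((D : ℤ) * F3 σ τ t 0) ≡ (D * τ * t.2) ^ 2 [ZMOD p] := by
      rw [Int.modEq_iff_dvd, F3_0]
      rw [F3_2, F3_0, F3_1] at hj'
      have e : (D * τ * t.2) ^ 2 - ka3 D τ 2 0 * t.2 * ((D : ℤ) * (σ * t.1)) =
          (σ * t.1 - (2 * σ * t.1 + τ * t.2)) * (-((D : ℤ) ^ 2 * τ * t.2)) := by
        unfold ka3
        simp
        ring
      rw [e]
      exact hj'.mul_right _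
    rw [jacobiSym.mod_left' hmod]
    exact jac_sq hp hDw

end Pool.Agent.H457.A
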