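import Pool.Agent.H457.A.T1c

set_option autoImplicit false
set_option linter.unusedSectionVars false

/-! The curves `y² = x (x - D a) (x - D b)`, with `a`, `b` coprime: the rank bound. -/

namespace Pool.Agent.H457.A

open Finset Pool.Agent.W262.RK Pool.Agent.W307.RT Pool.Agent.W29.RT
open Pool.Agent.W45.RT (splitSum S1_mem S2_mem S1_mul_S2)

variable {σ τ : ℤ} {D z y : ℕ}

/-- the number of the small primes of the values -/
def sm3 (σ τ : ℤ) (z : ℕ) (t : ℕ × ℕ) : ℕ :=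
  ((∏ j, F3 σ τ t j).natAbs.primeFactors.filter (fun q => q ≤ z)).card

lemma gd3 (hσ : σ = 1 ∨ σ = -1) (hτ : τ = 1 ∨ τ = -1) (hz : 8 ≤ z) {t : ℕ × ℕ}
    (ht : t.1.Coprime t.2) (h0 : ∀ j, F3 σ τ t j ≠ 0) : Gd z (F3 σ τ t) :=
  ⟨h0, fun p hp hzp j l hjl h => hjl (un_fv (bg3 hσ hτ hz) t.1 t.2 ht p hp hzp j l h.1 h.2)⟩

lemma bad3 {t : ℕ × ℕ} (h0 : ∀ j, F3 σ τ t j ≠ 0) (hD : 0 < D) {X k : ℕ} (hy : 1 ≤ y)
    (hb : ∀ j, (F3 σ τ t j).natAbs ≤ X ^ 2) (hk : X < (y + 1) ^ k) :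
    ((2 * (D * F3 σ τ t 0) * (D * F3 σ τ t 1) * (D * F3 σ τ t 0 - D * F3 σ τ t 1)).natAbs.primeFactors.filter
        (fun q => ¬ q ∣ ∏ j, S1 z y (F3 σ τ t) j)).card ≤
      sm3 σ τ z t + om D + 1 + 3 * (2 * k) + ∑ j, om (S2 z y (F3 σ τ t) j) := by
  classical
  have e2 : (D : ℤ) * F3 σ τ t 0 - D * F3 σ τ t 1 = D * F3 σ τ t 2 := by
    rw [F3_2]
    ring
  rw [e2]
  have hD0 : (D : ℤ) ≠ 0 := by exact_mod_cast hD.ne'
  have hsub : ((2 * (D * F3 σ τ t 0) * (D * F3 σ τ t 1) *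
      (D * F3 σ τ t 2)).natAbs.primeFactors.filter (fun q => ¬ q ∣ ∏ j, S1 z y (F3 σ τ t) j)) ⊆
      ((((∏ j, F3 σ τ t j).natAbs.primeFactors.filter (fun q => q ≤ z) ∪ D.primeFactors) ∪ {2}) ∪
        univ.biUnion (fun j => (F3 σ τ t j).natAbs.primeFactors.filter (y < ·))) ∪
        univ.biUnion (fun j => (S2 z y (F3 σ τ t) j).primeFactors) := by
    intro q hq
    rw [mem_filter] at hq
    have hp := Nat.prime_of_mem_primeFactors hq.1
    have hdv := Nat.dvd_of_mem_primeFactors hq.1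
    rw [mem_union, mem_union, mem_union, mem_union, mem_filter, mem_singleton]
    have hqi : Prime (q : ℤ) := Nat.prime_iff_prime_int.1 hp
    have hdv2 : (q : ℤ) ∣ 2 * (D * F3 σ τ t 0) * (D * F3 σ τ t 1) * (D * F3 σ τ t 2) :=
      Int.natCast_dvd.2 hdv
    have hk : (q : ℤ) ∣ 2 ∨ (q : ℤ) ∣ D ∨ ∃ k, (q : ℤ) ∣ F3 σ τ t k := by
      rcases hqi.dvd_or_dvd hdv2 with h1 | h1
      · rcases hqi.dvd_or_dvd h1 with h2 | h2
        · rcases hqi.dvd_or_dvd h2 with h3 | h3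
          · exact Or.inl h3
          · rcases hqi.dvd_or_dvd h3 with h4 | h4
            · exact Or.inr (Or.inl h4)
            · exact Or.inr (Or.inr ⟨0, h4⟩)
        · rcases hqi.dvd_or_dvd h2 with h4 | h4
          · exact Or.inr (Or.inl h4)
          · exact Or.inr (Or.inr ⟨1, h4⟩)
      · rcases hqi.dvd_or_dvd h1 with h4 | h4
        · exact Or.inr (Or.inl h4)
        · exact Or.inr (Or.inr ⟨2, h4⟩)
    rcases hk with h | h | ⟨l, hl⟩
    · left; left; right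
      have h4 : q ∣ 2 := by exact_mod_cast h
      exact (Nat.prime_dvd_prime_iff_eq hp Nat.prime_two).1 h4
    · left; left; left; right
      have h4 : q ∣ D := by exact_mod_cast h
      exact Nat.mem_primeFactors.2 ⟨hp, h4, hD.ne'⟩
    · rcases Nat.lt_or_ge z q with hzq | hzq
      swap
      · left; left; left; left
        refine ⟨Nat.mem_primeFactors.2 ⟨hp, ?_, ?_⟩, hzq⟩
        · rw [← Int.natCast_dvd]
          exact hl.trans (dvd_prod_of_mem _ (mem_univ l))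
        · exact Int.natAbs_ne_zero.2 (prod_ne_zero_iff.2 fun j _ => h0 j)
      rcases Nat.lt_or_ge y q with hyq | hyq
      · left; right
        rw [mem_biUnion]
        refine ⟨l, mem_univ _, ?_⟩
        rw [mem_filter, Nat.mem_primeFactors]
        exact ⟨⟨hp, Int.natCast_dvd.1 hl, Int.natAbs_ne_zero.2 (h0 l)⟩, hyq⟩
      · right
        have hPS : q ∈ PS z y := mem_PS.2 ⟨⟨hzq, hyq⟩, hp⟩
        rw [mem_biUnion]
        refine ⟨l, mem_univ _, ?_⟩
        have hsq : (q : ℤ) ^ 2 ∣ F3 σ τ t l := by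
          by_contra hcon
          apply hq.2
          refine dvd_trans ?_ (dvd_prod_of_mem _ (mem_univ l))
          exact dvd_prod_of_mem _ (mem_filter.2 ⟨hPS, hl, hcon⟩)
        rw [Nat.mem_primeFactors]
        refine ⟨hp, dvd_prod_of_mem _ (mem_filter.2 ⟨hPS, hsq⟩), ?_⟩
        exact prod_ne_zero_iff.2 fun p hp => (mem_PS.1 (mem_filter.1 hp).1).2.ne_zero
  have hone : ∀ j, ((F3 σ τ t j).natAbs.primeFactors.filter (y < ·)).card ≤ 2 * k := by
    intro j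
    set S := (F3 σ τ t j).natAbs.primeFactors.filter (y < ·) with hS
    have h1 : (y + 1) ^ S.card ≤ ∏ q ∈ S, q :=
      Finset.pow_card_le_prod _ _ _ (fun q hq => by
        have := (mem_filter.1 hq).2
        omega)
    have h2 : ∏ q ∈ S, q ∣ (F3 σ τ t j).natAbs :=
      (prod_dvd_prod_of_subset _ _ _ (filter_subset _ _)).trans (Nat.prod_primeFactors_dvd _)
    have h3 : ∏ q ∈ S, q ≤ (F3 σ τ t j).natAbs :=
      Nat.le_of_dvd (Nat.pos_of_ne_zero (Int.natAbs_ne_zero.2 (h0 j))) h2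
    have h4 : (y + 1) ^ S.card < (y + 1) ^ (2 * k) := by
      calc (y + 1) ^ S.card ≤ X ^ 2 := h1.trans (h3.trans (hb j))
        _ < ((y + 1) ^ k) ^ 2 := Nat.pow_lt_pow_left hk (by norm_num)
        _ = (y + 1) ^ (2 * k) := by rw [← pow_mul, mul_comm]
    exact ((Nat.pow_lt_pow_iff_right (by omega)).1 h4).le
  have hc1 := card_union_le (((∏ j, F3 σ τ t j).natAbs.primeFactors.filter (fun q => q ≤ z) ∪
    D.primeFactors) ∪ {2} ∪ univ.biUnion (fun j => (F3 σ τ t j).natAbs.primeFactors.filter (y < ·)))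
    (univ.biUnion (fun j => (S2 z y (F3 σ τ t) j).primeFactors))
  have hc2 := card_union_le (((∏ j, F3 σ τ t j).natAbs.primeFactors.filter (fun q => q ≤ z) ∪
    D.primeFactors) ∪ {2}) (univ.biUnion (fun j => (F3 σ τ t j).natAbs.primeFactors.filter (y < ·)))
  have hc3 := card_union_le ((∏ j, F3 σ τ t j).natAbs.primeFactors.filter (fun q => q ≤ z) ∪
    D.primeFactors) {2}
  have hc4 := card_union_le ((∏ j, F3 σ τ t j).natAbs.primeFactors.filter (fun q => q ≤ z))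
    D.primeFactors
  have hc5 : (univ.biUnion (fun j => (F3 σ τ t j).natAbs.primeFactors.filter (y < ·))).card ≤
      3 * (2 * k) := by
    refine card_biUnion_le.trans ((sum_le_sum fun j _ => hone j).trans ?_)
    rw [sum_const, card_univ, smul_eq_mul, Fintype.card_fin]
  have hc6 : (univ.biUnion (fun j => (S2 z y (F3 σ τ t) j).primeFactors)).card ≤
      ∑ j, om (S2 z y (F3 σ τ t) j) := card_biUnion_le
  have hc7 := card_le_card hsub
  rw [card_singleton] at hc3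
  unfold sm3 om at *
  omega

/-- the rank is bounded by the local count -/
lemma rank3 (hσ : σ = 1 ∨ σ = -1) (hτ : τ = 1 ∨ τ = -1) (hD : 0 < D) (hz : 2 * D + 8 ≤ z)
    {t : ℕ × ℕ} (ht : t.1.Coprime t.2) (h0 : ∀ j, F3 σ τ t j ≠ 0) {X k : ℕ}
    (hb : ∀ j, (F3 σ τ t j).natAbs ≤ X ^ 2) (hy : 1 ≤ y) (hk : X < (y + 1) ^ k) :
    2 ^ Module.finrank ℤ (EAB (D * F3 σ τ t 0) (D * F3 σ τ t 1)).toAffine.Point ≤
      4 ^ (sm3 σ τ z t + om D + 3) * 2 ^ (12 * k) * 4 ^ (∑ j, om (S2 z y (F3 σ τ t) j)) *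
        NL (∏ j, S1 z y (F3 σ τ t) j) (LLg (LC4 cls3 (fun _ => true) (ka3 D τ))
          (S1 z y (F3 σ τ t)) (ng3 t (S1 z y (F3 σ τ t)))) := by
  have hD0 : (D : ℤ) ≠ 0 := by exact_mod_cast hD.ne'
  set s := S1 z y (F3 σ τ t) with hs
  have hG := gd3 hσ hτ (by omega : 8 ≤ z) ht h0
  have hmem : s ∈ Tup (Fin 3) z y := S1_mem hG
  have hmd : ∏ j, s j ∣ PP z y := Tup_prod_dvd hmem
  have hsne : ∏ j, s j ≠ 0 := prod_ne_zero_iff.2 fun l _ => (Tup_pos hmem l).ne'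
  have hPSof : ∀ p : ℕ, p.Prime → p ∣ ∏ j, s j → p ∈ PS z y := fun p hp h =>
    (prime_dvd_PP hp).1 (h.trans hmd)
  have hodd : ∀ p : ℕ, p.Prime → p ∣ ∏ j, s j → p ≠ 2 := by
    intro p hp h
    have h1 := (mem_PS.1 (hPSof p hp h)).1.1
    omega
  have hB := bg3 hσ hτ (by omega : 8 ≤ z)
  -- the primes do not divide the second coordinate
  have hjof : ∀ p : ℕ, p.Prime → p ∣ ∏ j, s j → ∃ j, p ∣ s j := fun p hp h => by
    obtain ⟨j, -, hj⟩ := (hp.prime.dvd_finsetProd_iff _).1 h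
    exact ⟨j, hj⟩
  have hFof : ∀ (p : ℕ) (j : Fin 3), p.Prime → p ∣ s j → p ∈ PS z y ∧ (p : ℤ) ∣ F3 σ τ t j ∧
      ¬ (p : ℤ) ^ 2 ∣ F3 σ τ t j := fun p j hp h => (dvd_S1 hp).1 h
  have hwof : ∀ p : ℕ, p.Prime → p ∣ ∏ j, s j → ¬ p ∣ t.2 := by
    intro p hp h
    obtain ⟨j, hj⟩ := hjof p hp h
    obtain ⟨h1, h2, -⟩ := hFof p j hp hj
    exact un_of hB ht hp (mem_PS.1 h1).1.1 h2
  have hκof : ∀ p : ℕ, p.Prime → p ∣ ∏ j, s j → ∀ j, ¬ (p : ℤ) ∣ ka3 D τ j 0 := by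
    intro p hp h j hd
    have h1 := (mem_PS.1 (hPSof p hp h)).1.1
    have h2 := Nat.le_of_dvd (Int.natAbs_pos.2 (ka3_ne hD hτ j 0)) (Int.natCast_dvd.1 hd)
    have h3 : (ka3 D τ j 0).natAbs ≤ 2 * D := by
      refine le_trans ?_ (ka3_le (D := D) hτ j)
      have q1 := Int.natAbs_pos.2 (ka3_ne hD hτ j 1)
      have q2 := Int.natAbs_pos.2 (ka3_ne hD hτ j 2)
      rw [mul_assoc]
      exact Nat.le_mul_of_pos_right _ (by positivity)
    omega
  -- the condition with the modified constants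
  set κ' : Fin 3 → Fin 3 → ℤ := fun j _ => ka3 D τ j 0 * t.2 with hκ'
  have hnκ : ∀ p : ℕ, p.Prime → p ∣ ∏ j, s j → ∀ j k, ¬ (p : ℤ) ∣ κ' j k := by
    intro p hp h j k hd
    have hpi : Prime (p : ℤ) := Nat.prime_iff_prime_int.1 hp
    rcases hpi.dvd_or_dvd hd with h1 | h1
    · exact hκof p hp h j h1
    · exact hwof p hp h (by exact_mod_cast h1)
  have hLeq : ∀ p : ℕ, p.Prime → p ∣ ∏ j, s j → ∀ v w h g,
      (LLg (LC4 cls3 (fun _ => true) (ka3 D τ)) s (ng3 t s) p v w h g ↔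
        LLs cls3 κ' s ∅ p v w h g) := by
    intro p hp hpd v w h g
    have hdec : decide (p ∈ ng3 t s) = decide (jacobiSym (t.2 : ℤ) p = -1) := by
      apply decide_eq_decide.2
      unfold ng3
      rw [mem_filter]
      exact ⟨fun h => h.2, fun h => ⟨Nat.mem_primeFactors.2 ⟨hp, hpd, hsne⟩, h⟩⟩
    have hE : decide (p ∈ (∅ : Finset ℕ)) = false := by simp
    unfold LLg LLs
    rw [hdec, hE]
    refine forall_congr' fun j => imp_congr_right fun hj => ?_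
    exact LC_eq (ka3 D τ) j hp (hwof p hp hpd) (hκof p hp hpd j) v w h g
  have hNL : NL (∏ j, s j) (LLg (LC4 cls3 (fun _ => true) (ka3 D τ)) s (ng3 t s)) =
      NL (∏ j, s j) (LLs cls3 κ' s ∅) := by
    classical
    unfold NL
    congr 1
    apply filter_congr
    intro d _
    refine forall_congr' fun p => imp_congr_right fun hp => ?_
    exact hLeq p (Nat.prime_of_mem_primeFactors hp) (Nat.dvd_of_mem_primeFactors hp) _ _ _ _
  rw [hNL]
  have hAB : (D : ℤ) * F3 σ τ t 0 ≠ D * F3 σ τ t 1 := by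
    intro h
    have h1 := mul_left_cancel₀ hD0 h
    apply h0 2
    rw [F3_2, h1, sub_self]
  have hd := Pool.Agent.W214.RK2.desc4 (∏ j, s j) (LLs cls3 κ' s ∅)
    (D * F3 σ τ t 0) (D * F3 σ τ t 1) (mul_ne_zero hD0 (h0 0)) (mul_ne_zero hD0 (h0 1)) hAB
    (by
      rw [← Nat.not_even_iff_odd, even_iff_two_dvd]
      intro h
      exact hodd 2 Nat.prime_two h rfl)
    ((PP_squarefree z y).squarefree_of_dvd hmd)
    (fun p hp hpd => ⟨fun j hj =>
        (Pool.Agent.W342.RK2.xcl _ _ _ p hp (hodd p hp hpd) (hnκ p hp hpd j)).1,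
      fun a1 b1 c1 d1 a2 b2 c2 d2 e1 e2 j hj =>
        (Pool.Agent.W342.RK2.xcl _ _ _ p hp (hodd p hp hpd) (hnκ p hp hpd j)).2
          a1 b1 c1 d1 a2 b2 c2 d2 (e1 j hj) (e2 j hj)⟩)
    (fun p hp hpd x x' hx' hcurve e1 e2 he1 he2 hsq1 hsq2 j hj => by
      have hpp : p.Prime := Fact.out
      obtain ⟨h1, h2, h3⟩ := hFof p j hpp hj
      have hzp := (mem_PS.1 h1).1.1
      have hE : decide (p ∈ (∅ : Finset ℕ)) = false := by simp
      rw [hE]
      refine Pool.Agent.W342.RK2.locl (cls3 j) (κ' j) false p _ _ (hodd p hpp hpd)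
        (hnκ p hpp hpd j) (locH3 hσ hτ hD hz ht hpp hzp h2 h3) x x' hx' ?_ e1 e2 he1 he2 hsq1 ?_
      · exact hcurve
      · exact hsq2)
  refine hd.trans (Nat.mul_le_mul_right _ ?_)
  have hc := bad3 (σ := σ) (τ := τ) (D := D) (z := z) h0 hD hy hb hk
  rw [← hs] at hc
  calc 4 ^ (((2 * (D * F3 σ τ t 0) * (D * F3 σ τ t 1) *
        (D * F3 σ τ t 0 - D * F3 σ τ t 1)).natAbs.primeFactors.filter
          (fun q => ¬ q ∣ ∏ j, s j)).card + 2)
      ≤ 4 ^ ((sm3 σ τ z t + om D + 3) + 6 * k + ∑ j, om (S2 z y (F3 σ τ t) j)) :=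
        Nat.pow_le_pow_right (by norm_num) (by omega)
    _ = _ := by
        rw [pow_add, pow_add]
        congr 2
        rw [show (4 : ℕ) = 2 ^ 2 by norm_num, ← pow_mul]
        congr 1
        ring

end Pool.Agent.H457.A
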