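import Pool.Agent.H457.A.T1d

set_option autoImplicit false
set_option linter.unusedSectionVars false

/-! The curves `y² = x (x - D a) (x - D b)`, with `a`, `b` coprime: the family. -/

namespace Pool.Agent.H457.A

open Finset Pool.Agent.W262.RK Pool.Agent.W307.RT Pool.Agent.W29.RT
open Pool.Agent.W45.RT (splitSum S1_mem S2_mem S1_mul_S2)

lemma mem_TS {J : Type} [Fintype J] [DecidableEq J] {α β : J → ℤ} {z y X : ℕ} {s v u : J → ℕ}
    {E : Finset ℕ} {t : ℕ × ℕ} (h1 : t ∈ Icc 1 X ×ˢ Icc 1 X) (h2 : t.1.Coprime t.2)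
    (h3 : S1 z y (fv α β (t.1 : ℤ) (t.2 : ℤ)) = s) (h4 : S2 z y (fv α β (t.1 : ℤ) (t.2 : ℤ)) = v)
    (h5 : ∀ j, (u j : ℤ) ∣ fv α β (t.1 : ℤ) (t.2 : ℤ) j)
    (h6 : SgP (∏ j, s j).primeFactors E t.2) : t ∈ TS α β z y X s v u E := by
  unfold TS
  exact mem_filter.2 ⟨h1, h2, h3, h4, h5, h6⟩

/-- the rank of the member -/
noncomputable def rk3 (σ τ : ℤ) (D : ℕ) (t : ℕ × ℕ) : ℕ :=
  Module.finrank ℤ (EAB (D * F3 σ τ t 0) (D * F3 σ τ t 1)).toAffine.Point

/-- the members -/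
def TX3 (σ τ : ℤ) (z a0 X : ℕ) : Finset (ℕ × ℕ) :=
  (Icc 1 X ×ˢ Icc 1 X).filter (fun t : ℕ × ℕ => t.1.Coprime t.2 ∧ (∀ j, F3 σ τ t j ≠ 0) ∧
    (∀ j, (F3 σ τ t j).natAbs ≤ X ^ 2) ∧ sm3 σ τ z t ≤ a0)

lemma tri3 : Tri cls3 := by
  left
  unfold nc cls3
  decide

/-- the constants of the count -/
structure CN (C0 : ℝ) (K y0 : ℕ) : Prop where
  h0 : 0 ≤ C0
  h1 : 1 ≤ K
  h : ∀ (α β : Fin 3 → ℤ) (z : ℕ), Bg α β z → 2 * Fintype.card (Fin 3) + 2 < z → ∀ X y Y : ℕ,
    y0 ≤ y → z < y → y ^ K ≤ X → ∀ s ∈ Tup (Fin 3) z y, ∀ v ∈ Tup (Fin 3) z y,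
    ∀ u ∈ Tup (Fin 3) y Y, (∏ j, s j * v j * u j) ^ 8 ≤ X → ∀ E : Finset ℕ,
    ((TS α β z y X s v u E).card : ℝ) ≤ C0 * (Real.log z) ^ (Fintype.card (Fin 3)) * X ^ 2 *
      (1 / 2) ^ (∏ j, s j).primeFactors.card * (∏ j, gw 1 (Fintype.card (Fin 3)) (s j)) *
        (∏ j, gw 1 (Fintype.card (Fin 3)) (v j) / v j) * (∏ j, 1 / (u j : ℝ)) /
        (Real.log y) ^ (Fintype.card (Fin 3))

lemma cn_exists : ∃ (C0 : ℝ) (K y0 : ℕ), CN C0 K y0 := by
  obtain ⟨C0, K, y0, h0, h1, h⟩ := cnts (Fin 3)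
  exact ⟨C0, K, y0, h0, h1, h⟩

variable {σ τ : ℤ} {D z a0 : ℕ} {C0 : ℝ} {K y0 : ℕ}

lemma fam3 (hCN : CN C0 K y0) (hσ : σ = 1 ∨ σ = -1) (hτ : τ = 1 ∨ τ = -1) (hD : 0 < D)
    (hz : 2 * D + 8 ≤ z) :
    Fam cls3 (fun _ => true) (ka3 D τ) z (TX3 σ τ z a0) (F3 σ τ) ng3 (rk3 σ τ D)
      (fun X : ℕ => (X : ℝ) ^ 2) (C0 * (Real.log z) ^ 3 + 1) K y0 (a0 + om D + 3) 12 := by
  have hB := bg3 hσ hτ (by omega : 8 ≤ z)
  have hlogz : 0 ≤ Real.log z := Real.log_natCast_nonneg z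
  have hcz : 3 ≤ z := by omega
  exact
    { S0 := fun X => by positivity
      C0 := by have := hCN.h0; positivity
      card := by
        intro X
        have h1 : (TX3 σ τ z a0 X).card ≤ X * X := by
          refine (card_le_card (filter_subset _ _)).trans ?_
          rw [card_product]
          simp
        have h2 : ((TX3 σ τ z a0 X).card : ℝ) ≤ (X : ℝ) ^ 2 := by
          rw [sq]
          exact_mod_cast h1
        have h3 : (0 : ℝ) ≤ (X : ℝ) ^ 2 := by positivity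
        have h4 : 0 ≤ C0 * (Real.log z) ^ 3 := by have := hCN.h0; positivity
        nlinarith
      good := by
        intro X t ht
        unfold TX3 at ht
        rw [mem_filter] at ht
        exact gd3 hσ hτ (by omega) ht.2.1 ht.2.2.1
      neg_sub := by
        intro t s
        rw [PF_true]
        exact filter_subset _ _
      cnt := by
        intro X y Y hy0 hzy hyX s hs v hv u hu h8 E T' hT' hω
        rw [PF_true]
        have h1 := hCN.h (al3 σ) (be3 τ) z hB (by simp; omega) X y Y hy0 hzy hyX s hs v hv u hu h8 E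
        have h2 : T' ⊆ TS (al3 σ) (be3 τ) z y X s v u E := by
          intro t ht
          have h3 := hT' ht
          obtain ⟨e1, e2, e3, e4⟩ := hω t ht
          unfold TX3 at h3
          rw [mem_filter] at h3
          refine mem_TS h3.1 h3.2.1 e1 e2 e3 fun p hp => ?_
          have hpp := Nat.prime_of_mem_primeFactors hp
          obtain ⟨j, -, hj⟩ := (hpp.prime.dvd_finsetProd_iff _).1 (Nat.dvd_of_mem_primeFactors hp)
          have hw : ¬ p ∣ t.2 := by
            have h4 : p ∣ S1 z y (F3 σ τ t) j := by rw [e1]; exact hj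
            obtain ⟨h5, h6, -⟩ := (dvd_S1 hpp).1 h4
            exact un_of hB h3.2.1 hpp (mem_PS.1 h5).1.1 h6
          split_ifs with hE
          · rw [← e4] at hE
            unfold ng3 at hE
            exact (mem_filter.1 hE).2
          · rcases jac_pm hpp hw with h | h
            · exact h
            · exfalso
              apply hE
              rw [← e4]
              unfold ng3
              exact mem_filter.2 ⟨hp, h⟩
        have h3 : (T'.card : ℝ) ≤ _ := le_trans (by exact_mod_cast card_le_card h2) h1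
        refine h3.trans ?_
        rw [Fintype.card_fin]
        have hg : 0 ≤ (X : ℝ) ^ 2 * (1 / 2) ^ (∏ j, s j).primeFactors.card *
            (∏ j, gw 1 3 (s j)) * (∏ j, gw 1 3 (v j) / v j) * (∏ j, 1 / (u j : ℝ)) /
              (Real.log y) ^ 3 := by
          apply div_nonneg _ (pow_nonneg (Real.log_natCast_nonneg _) _)
          refine mul_nonneg (mul_nonneg (mul_nonneg (by positivity)
            (prod_nonneg fun j _ => gw_nn hcz hs j)) (prod_nonneg fun j _ =>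
              div_nonneg (gw_nn hcz hv j) (Nat.cast_nonneg _)))
            (prod_nonneg fun j _ => by positivity)
        have e1 : C0 * (Real.log z) ^ 3 * X ^ 2 * (1 / 2) ^ (∏ j, s j).primeFactors.card *
            (∏ j, gw 1 3 (s j)) * (∏ j, gw 1 3 (v j) / v j) * (∏ j, 1 / (u j : ℝ)) /
              (Real.log y) ^ 3 = (C0 * (Real.log z) ^ 3) * ((X : ℝ) ^ 2 *
            (1 / 2) ^ (∏ j, s j).primeFactors.card * (∏ j, gw 1 3 (s j)) *
            (∏ j, gw 1 3 (v j) / v j) * (∏ j, 1 / (u j : ℝ)) / (Real.log y) ^ 3) := by ring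
        have e2 : (C0 * (Real.log z) ^ 3 + 1) * (X : ℝ) ^ 2 *
            (1 / 2) ^ (∏ j, s j).primeFactors.card *
            (∏ j, gw 1 3 (s j)) * (∏ j, gw 1 3 (v j) / v j) * (∏ j, 1 / (u j : ℝ)) /
              (Real.log y) ^ 3 = (C0 * (Real.log z) ^ 3 + 1) * ((X : ℝ) ^ 2 *
            (1 / 2) ^ (∏ j, s j).primeFactors.card * (∏ j, gw 1 3 (s j)) *
            (∏ j, gw 1 3 (v j) / v j) * (∏ j, 1 / (u j : ℝ)) / (Real.log y) ^ 3) := by ring
        rw [e1, e2]
        exact mul_le_mul_of_nonneg_right (by linarith) hg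
      rank := by
        intro X y k' hy hzy hXy t ht
        unfold TX3 at ht
        rw [mem_filter] at ht
        obtain ⟨ht1, htc, ht0, htX, hta⟩ := ht
        have hr := rank3 hσ hτ hD hz htc ht0 htX hy hXy
        have hr' : ((2 ^ rk3 σ τ D t : ℕ) : ℝ) ≤
            ((4 ^ (a0 + om D + 3) * 2 ^ (12 * k') * 4 ^ (∑ j, om (S2 z y (F3 σ τ t) j)) *
            NL (∏ j, S1 z y (F3 σ τ t) j) (LLg (LC4 cls3 (fun _ => true) (ka3 D τ))
              (S1 z y (F3 σ τ t)) (ng3 t (S1 z y (F3 σ τ t)))) : ℕ) : ℝ) := by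
          have h1 : 2 ^ rk3 σ τ D t ≤
            4 ^ (a0 + om D + 3) * 2 ^ (12 * k') * 4 ^ (∑ j, om (S2 z y (F3 σ τ t) j)) *
            NL (∏ j, S1 z y (F3 σ τ t) j) (LLg (LC4 cls3 (fun _ => true) (ka3 D τ))
              (S1 z y (F3 σ τ t)) (ng3 t (S1 z y (F3 σ τ t)))) := by
            refine hr.trans (Nat.mul_le_mul_right _ (Nat.mul_le_mul_right _
              (Nat.mul_le_mul_right _ ?_)))
            exact Nat.pow_le_pow_right (by norm_num) (by omega)
          exact_mod_cast h1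
        push_cast at hr'
        exact hr' }

/-- all the pairs -/
def TA3 (σ τ : ℤ) (X : ℕ) : Finset (ℕ × ℕ) :=
  (Icc 1 X ×ˢ Icc 1 X).filter (fun t : ℕ × ℕ => t.1.Coprime t.2 ∧ ∀ j, F3 σ τ t j ≠ 0)

lemma F3_le (hσ : σ = 1 ∨ σ = -1) (hτ : τ = 1 ∨ τ = -1) {X : ℕ} (hX : 3 ≤ X) {t : ℕ × ℕ}
    (ht : t ∈ Icc 1 X ×ˢ Icc 1 X) (j : Fin 3) : (F3 σ τ t j).natAbs ≤ X ^ 2 := by
  rw [mem_product, mem_Icc, mem_Icc] at ht
  have hs : σ.natAbs = 1 := by rcases hσ with rfl | rfl <;> rfl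
  have htt : τ.natAbs = 1 := by rcases hτ with rfl | rfl <;> rfl
  have h0 : (F3 σ τ t 0).natAbs ≤ X := by
    rw [F3_0, Int.natAbs_mul, hs, one_mul, Int.natAbs_natCast]
    exact ht.1.2
  have h1 : (F3 σ τ t 1).natAbs ≤ 3 * X := by
    rw [F3_1]
    refine (Int.natAbs_add_le _ _).trans ?_
    rw [Int.natAbs_mul, Int.natAbs_mul, Int.natAbs_mul, hs, htt, Int.natAbs_natCast,
      Int.natAbs_natCast]
    simp
    omega
  have h2 : (F3 σ τ t 2).natAbs ≤ 3 * X := by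
    have e : F3 σ τ t 2 = -(σ * t.1 + τ * t.2) := by
      rw [F3_2, F3_0, F3_1]
      ring
    rw [e, Int.natAbs_neg]
    refine (Int.natAbs_add_le _ _).trans ?_
    rw [Int.natAbs_mul, Int.natAbs_mul, hs, htt, Int.natAbs_natCast, Int.natAbs_natCast]
    omega
  have h3 : 3 * X ≤ X ^ 2 := by
    rw [sq]
    exact Nat.mul_le_mul_right X hX
  fin_cases j
  · exact le_trans h0 (le_trans (by omega) h3)
  · exact h1.trans h3
  · exact h2.trans h3

/-- the prime factors at most `10` and the others -/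
lemma sm3_le (σ τ : ℤ) (z : ℕ) (t : ℕ × ℕ) :
    sm3 σ τ z t ≤ 10 + (∑ j, om (S1 10 z (F3 σ τ t) j) + ∑ j, om (S2 10 z (F3 σ τ t) j)) := by
  classical
  have hsub : (∏ j, F3 σ τ t j).natAbs.primeFactors.filter (fun q => q ≤ z) ⊆
      Icc 1 10 ∪ (univ.biUnion (fun j => (S1 10 z (F3 σ τ t) j).primeFactors) ∪
        univ.biUnion (fun j => (S2 10 z (F3 σ τ t) j).primeFactors)) := by
    intro q hq
    rw [mem_filter] at hq
    have hp := Nat.prime_of_mem_primeFactors hq.1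
    have hdv := Nat.dvd_of_mem_primeFactors hq.1
    have hqi : Prime (q : ℤ) := Nat.prime_iff_prime_int.1 hp
    rw [mem_union, mem_union, mem_biUnion, mem_biUnion, mem_Icc]
    rcases Nat.lt_or_ge 10 q with h10 | h10
    · right
      obtain ⟨l, -, hl⟩ := (hqi.dvd_finsetProd_iff _).1 (Int.natCast_dvd.2 hdv)
      have hPS : q ∈ PS 10 z := mem_PS.2 ⟨⟨h10, hq.2⟩, hp⟩
      by_cases h2 : (q : ℤ) ^ 2 ∣ F3 σ τ t l
      · right
        refine ⟨l, mem_univ _, Nat.mem_primeFactors.2 ⟨hp, (dvd_S2 hp).2 ⟨hPS, h2⟩, ?_⟩⟩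
        exact prod_ne_zero_iff.2 fun p hp => (mem_PS.1 (mem_filter.1 hp).1).2.ne_zero
      · left
        refine ⟨l, mem_univ _, Nat.mem_primeFactors.2 ⟨hp, (dvd_S1 hp).2 ⟨hPS, hl, h2⟩, ?_⟩⟩
        exact prod_ne_zero_iff.2 fun p hp => (mem_PS.1 (mem_filter.1 hp).1).2.ne_zero
    · left
      exact ⟨hp.one_lt.le, h10⟩
  have h1 := card_le_card hsub
  have h2 := card_union_le (Icc 1 10) (univ.biUnion (fun j => (S1 10 z (F3 σ τ t) j).primeFactors) ∪
        univ.biUnion (fun j => (S2 10 z (F3 σ τ t) j).primeFactors))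
  have h3 := card_union_le (univ.biUnion (fun j => (S1 10 z (F3 σ τ t) j).primeFactors))
        (univ.biUnion (fun j => (S2 10 z (F3 σ τ t) j).primeFactors))
  have h4 : (univ.biUnion (fun j => (S1 10 z (F3 σ τ t) j).primeFactors)).card ≤
      ∑ j, om (S1 10 z (F3 σ τ t) j) := card_biUnion_le
  have h5 : (univ.biUnion (fun j => (S2 10 z (F3 σ τ t) j).primeFactors)).card ≤
      ∑ j, om (S2 10 z (F3 σ τ t) j) := card_biUnion_le
  have h6 : (Icc 1 10).card = 10 := by simp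
  unfold sm3
  omega

end Pool.Agent.H457.A
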