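import Pool.Agent.H457.A.T1e

set_option autoImplicit false
set_option linter.unusedSectionVars false

/-! The curves `y² = x (x - D a) (x - D b)`, with `a`, `b` coprime: the small primes. -/

namespace Pool.Agent.H457.A

open Finset Pool.Agent.W262.RK Pool.Agent.W307.RT Pool.Agent.W29.RT
open Pool.Agent.W45.RT (splitSum S1_mem S2_mem S1_mul_S2)

variable {σ τ : ℤ} {D z a0 : ℕ} {C0 : ℝ} {K y0 : ℕ}

open Classical in
/-- few pairs have many small primes -/
lemma small3 (hCN : CN C0 K y0) : ∃ Cs : ℝ, 0 < Cs ∧ ∀ (σ τ : ℤ), (σ = 1 ∨ σ = -1) →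
    (τ = 1 ∨ τ = -1) → ∀ z : ℕ, 11 ≤ z → y0 ≤ z → ∀ w0 : ℝ, 1 ≤ w0 → ∀ a0 X : ℕ,
    z ^ K ≤ X → (PP 10 z) ^ 24 ≤ X → 3 ≤ X →
    (((TA3 σ τ X).filter (fun t => a0 < sm3 σ τ z t)).card : ℝ) ≤
      Cs * Real.exp (Cs * w0) * (Real.log z) ^ (3 * w0) * (1 / w0) ^ (a0 - 10) * X ^ 2 := by
  obtain ⟨B, hB0, hGB⟩ := gb 3
  have hC0 := hCN.h0
  set Cc : ℝ := C0 * (Real.log ((10 : ℕ) : ℝ)) ^ 3 + 1 with hCc
  have hl10 : 0 ≤ Real.log ((10 : ℕ) : ℝ) := Real.log_natCast_nonneg 10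
  have hCc0 : 0 < Cc := by positivity
  refine ⟨Cc + (3 * B + 6), by positivity, ?_⟩
  intro σ τ hσ hτ z hz hy0z w0 hw0 a0 X hzX hPX hX3
  have hF := fam3 (a0 := 10) hCN hσ hτ (D := 1) (z := 10) (by norm_num) (by norm_num)
  have hzr : (11 : ℝ) ≤ z := by exact_mod_cast hz
  have hlz : 1 ≤ Real.log z := by
    rw [Real.le_log_iff_exp_le (by linarith)]
    have := Real.exp_one_lt_d9
    linarith
  have hw00 : 0 < w0 := by linarith
  have hg := hF.group (by simp) (X := X) (y := z) hy0z (by omega) hzX (fun _ => True)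
    (fun s _ => w0 ^ (∑ j, om (s j))) (fun v => w0 ^ (∑ j, om (v j)))
    (fun s E => by positivity) (fun v => by positivity)
  simp only [Fintype.card_fin] at hg
  -- the sum over `s`
  have hs : ∑ s ∈ (Tup (Fin 3) 10 z).filter (fun _ => True), (∏ j, gw 1 3 (s j)) *
        ((1 / 2) ^ (PF (fl4 cls3 (fun _ => true)) s).card *
          ∑ E ∈ (PF (fl4 cls3 (fun _ => true)) s).powerset, w0 ^ (∑ j, om (s j))) ≤
      (Real.exp (w0 * B) * (Real.log z) ^ w0) ^ 3 := by
    have h1 : ∀ s : Fin 3 → ℕ, (∏ j, gw 1 3 (s j)) *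
        ((1 / 2) ^ (PF (fl4 cls3 (fun _ => true)) s).card *
          ∑ E ∈ (PF (fl4 cls3 (fun _ => true)) s).powerset, w0 ^ (∑ j, om (s j))) =
        ∏ j, gw w0 3 (s j) := by
      intro s
      rw [sum_const, card_powerset, nsmul_eq_mul, ← mul_assoc ((1 / 2 : ℝ) ^ _)]
      push_cast
      rw [← mul_pow]
      norm_num
      rw [← prod_pow_eq_pow_sum, ← prod_mul_distrib]
      refine prod_congr rfl fun j _ => ?_
      have := gw_theta 1 w0 3 (s j)
      rw [one_mul] at this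
      rw [this]
    rw [sum_congr rfl fun s _ => h1 s]
    have h2 : ∑ s ∈ (Tup (Fin 3) 10 z).filter (fun _ => True), ∏ j, gw w0 3 (s j) ≤
        ∑ s ∈ Fintype.piFinset (fun _ : Fin 3 => (PP 10 z).divisors), ∏ j, gw w0 3 (s j) := by
      apply sum_le_sum_of_subset_of_nonneg
      · intro s hs
        rw [mem_filter] at hs
        exact Fintype.mem_piFinset.2 (Pool.Agent.W372.RK2.mem_Tup'.1 hs.1).1
      · intro s hs _
        rw [Fintype.mem_piFinset] at hs
        exact prod_nonneg fun j _ => gw_nonneg hw00.le (by norm_num) (hs j)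
    refine h2.trans ?_
    rw [← prod_univ_sum (fun _ : Fin 3 => (PP 10 z).divisors) (fun _ m => gw w0 3 m), prod_const,
      card_univ, Fintype.card_fin]
    apply pow_le_pow_left₀
    · exact sum_nonneg fun m hm => gw_nonneg hw00.le (by norm_num) hm
    · exact (hGB 10 (by norm_num) w0 hw00.le).F1 z (by omega)
  have hv : ∑ v ∈ Tup (Fin 3) 10 z, w0 ^ (∑ j, om (v j)) * ∏ j, (gw 1 3 (v j) / v j) ≤
      Real.exp (3 * (2 * w0)) := by
    have h1 := sumV (J := Fin 3) 10 (by simp) w0 hw00.le z (by omega)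
    rw [Fintype.card_fin] at h1
    refine le_trans (le_of_eq ?_) h1
    refine sum_congr rfl fun v _ => ?_
    rw [prod_mul_distrib, prod_pow_eq_pow_sum]
  have hv0 : 0 ≤ ∑ v ∈ Tup (Fin 3) 10 z, w0 ^ (∑ j, om (v j)) * ∏ j, (gw 1 3 (v j) / v j) :=
    sum_nonneg fun v hv => mul_nonneg (by positivity)
      (prod_nonneg fun j _ => div_nonneg (gw_nn (by norm_num) hv j) (Nat.cast_nonneg _))
  have hW0 : 0 ≤ Cc * (X : ℝ) ^ 2 / (Real.log z) ^ 3 := by positivity
  have htot : ∑ ω ∈ (TX3 σ τ 10 10 X).filter (fun ω => (∏ j, rp 10 z (F3 σ τ ω j)) ^ 8 ≤ X ∧ True),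
      w0 ^ (∑ j, om (S1 10 z (F3 σ τ ω) j)) * w0 ^ (∑ j, om (S2 10 z (F3 σ τ ω) j)) ≤
      Cc * (X : ℝ) ^ 2 * Real.exp ((3 * B + 6) * w0) * (Real.log z) ^ (3 * w0) := by
    refine hg.trans ?_
    have h3 : (Real.exp (w0 * B) * (Real.log z) ^ w0) ^ 3 = Real.exp (3 * B * w0) *
        (Real.log z) ^ (3 * w0) := by
      rw [mul_pow, ← Real.exp_nat_mul, ← Real.rpow_natCast, ← Real.rpow_mul (by linarith)]
      congr 1
      · congr 1
        push_cast
        ring
      · congr 1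
        push_cast
        ring
    rw [h3] at hs
    calc _ ≤ Cc * (X : ℝ) ^ 2 / (Real.log z) ^ 3 * (Real.exp (3 * B * w0) *
          (Real.log z) ^ (3 * w0)) * Real.exp (3 * (2 * w0)) := by
          apply mul_le_mul (mul_le_mul_of_nonneg_left hs hW0) hv hv0
          positivity
      _ ≤ Cc * (X : ℝ) ^ 2 / 1 * (Real.exp (3 * B * w0) *
          (Real.log z) ^ (3 * w0)) * Real.exp (3 * (2 * w0)) := by
          apply mul_le_mul_of_nonneg_right _ (Real.exp_pos _).le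
          apply mul_le_mul_of_nonneg_right
          · apply div_le_div_of_nonneg_left (by positivity) one_pos
            exact one_le_pow₀ hlz
          · positivity
      _ = Cc * (X : ℝ) ^ 2 * (Real.exp (3 * B * w0) * Real.exp (3 * (2 * w0))) *
          (Real.log z) ^ (3 * w0) := by ring
      _ = _ := by
          rw [← Real.exp_add]
          congr 3
          ring
  -- Markov
  have hsub : (TA3 σ τ X).filter (fun t => a0 < sm3 σ τ z t) ⊆
      (TX3 σ τ 10 10 X).filter (fun ω => (∏ j, rp 10 z (F3 σ τ ω j)) ^ 8 ≤ X ∧ True) := by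
    intro t ht
    rw [mem_filter] at ht
    obtain ⟨ht1, -⟩ := ht
    unfold TA3 at ht1
    rw [mem_filter] at ht1
    obtain ⟨h1, h2, h3⟩ := ht1
    rw [mem_filter]
    refine ⟨?_, ?_, trivial⟩
    · unfold TX3
      rw [mem_filter]
      refine ⟨h1, h2, h3, fun j => F3_le hσ hτ hX3 h1 j, ?_⟩
      unfold sm3
      have h4 : (∏ j, F3 σ τ t j).natAbs.primeFactors.filter (fun q => q ≤ 10) ⊆ Icc 1 10 := by
        intro q hq
        rw [mem_filter] at hq
        rw [mem_Icc]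
        exact ⟨(Nat.prime_of_mem_primeFactors hq.1).one_lt.le, hq.2⟩
      have h5 := card_le_card h4
      simpa using h5
    · have hpos : 0 < PP 10 z := Nat.pos_of_ne_zero (PP_ne_zero _ _)
      have h4 : ∏ j, rp 10 z (F3 σ τ t j) ≤ ∏ _j : Fin 3, PP 10 z :=
        prod_le_prod' fun j _ => Nat.le_of_dvd hpos (rp_dvd _ _ _)
      rw [prod_const, card_univ, Fintype.card_fin] at h4
      calc (∏ j, rp 10 z (F3 σ τ t j)) ^ 8 ≤ ((PP 10 z) ^ 3) ^ 8 := Nat.pow_le_pow_left h4 8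
        _ = (PP 10 z) ^ 24 := by rw [← pow_mul]
        _ ≤ X := hPX
  calc (((TA3 σ τ X).filter (fun t => a0 < sm3 σ τ z t)).card : ℝ)
      = ∑ t ∈ (TA3 σ τ X).filter (fun t => a0 < sm3 σ τ z t), (1 : ℝ) := by
        rw [sum_const, nsmul_eq_mul, mul_one]
    _ ≤ ∑ t ∈ (TA3 σ τ X).filter (fun t => a0 < sm3 σ τ z t), (1 / w0) ^ (a0 - 10) *
        (w0 ^ (∑ j, om (S1 10 z (F3 σ τ t) j)) * w0 ^ (∑ j, om (S2 10 z (F3 σ τ t) j))) := by
        refine sum_le_sum fun t ht => ?_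
        rw [mem_filter] at ht
        have h1 := sm3_le σ τ z t
        have h2 : a0 - 10 ≤ ∑ j, om (S1 10 z (F3 σ τ t) j) + ∑ j, om (S2 10 z (F3 σ τ t) j) := by
          omega
        rw [← pow_add]
        have h3 := pow_le_pow_right₀ hw0 h2
        have h4 : (1 / w0) ^ (a0 - 10) * w0 ^ (a0 - 10) = 1 := by
          rw [← mul_pow, one_div, inv_mul_cancel₀ hw00.ne', one_pow]
        have h5 : 0 ≤ (1 / w0) ^ (a0 - 10) := by positivity
        exact h4.symm.le.trans (mul_le_mul_of_nonneg_left h3 h5)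
    _ = (1 / w0) ^ (a0 - 10) * ∑ t ∈ (TA3 σ τ X).filter (fun t => a0 < sm3 σ τ z t),
        (w0 ^ (∑ j, om (S1 10 z (F3 σ τ t) j)) * w0 ^ (∑ j, om (S2 10 z (F3 σ τ t) j))) := by
        rw [mul_sum]
    _ ≤ (1 / w0) ^ (a0 - 10) *
        (Cc * (X : ℝ) ^ 2 * Real.exp ((3 * B + 6) * w0) * (Real.log z) ^ (3 * w0)) := by
        apply mul_le_mul_of_nonneg_left _ (by positivity)
        refine le_trans ?_ htot
        exact sum_le_sum_of_subset_of_nonneg hsub fun t _ _ => by positivity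
    _ ≤ _ := by
        have h1 : Real.exp ((3 * B + 6) * w0) ≤ Real.exp ((Cc + (3 * B + 6)) * w0) := by
          apply Real.exp_le_exp.2
          apply mul_le_mul_of_nonneg_right _ hw00.le
          linarith
        have h2 : Cc ≤ Cc + (3 * B + 6) := by linarith
        have h3 : Cc * Real.exp ((3 * B + 6) * w0) ≤
            (Cc + (3 * B + 6)) * Real.exp ((Cc + (3 * B + 6)) * w0) :=
          mul_le_mul h2 h1 (Real.exp_pos _).le (by positivity)
        have h4 : 0 ≤ (1 / w0) ^ (a0 - 10) * (X : ℝ) ^ 2 * (Real.log z) ^ (3 * w0) := by positivity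
        calc _ = ((1 / w0) ^ (a0 - 10) * (X : ℝ) ^ 2 * (Real.log z) ^ (3 * w0)) *
              (Cc * Real.exp ((3 * B + 6) * w0)) := by ring
          _ ≤ ((1 / w0) ^ (a0 - 10) * (X : ℝ) ^ 2 * (Real.log z) ^ (3 * w0)) *
              ((Cc + (3 * B + 6)) * Real.exp ((Cc + (3 * B + 6)) * w0)) :=
              mul_le_mul_of_nonneg_left h3 h4
          _ = _ := by ring

end Pool.Agent.H457.A
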