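import Pool.Agent.H457.A.T1f

set_option autoImplicit false
set_option linter.unusedSectionVars false

/-! All the pairs: the decomposition by the greatest common divisor. -/

namespace Pool.Agent.H457.A

open Finset Pool.Agent.W262.RK Pool.Agent.W307.RT Pool.Agent.W29.RT

/-- the rank of `y² = x (x - A) (x - B)` -/
noncomputable def rkE (p : ℤ × ℤ) : ℕ := Module.finrank ℤ (EAB p.1 p.2).toAffine.Point

/-- the pairs of rank at least `r` -/
noncomputable def SR (r T : ℕ) : Finset (ℤ × ℤ) :=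
  (Icc (-(T : ℤ)) T ×ˢ Icc (-(T : ℤ)) T).filter (fun p : ℤ × ℤ =>
    p.1 ≠ 0 ∧ p.2 ≠ 0 ∧ p.1 ≠ p.2 ∧ r ≤ rkE p)

/-- the signs -/
def sgs : Finset (ℤ × ℤ) := {(1, 1), (1, -1), (-1, 1), (-1, -1)}

lemma mem_sgs {q : ℤ × ℤ} : q ∈ sgs ↔ (q.1 = 1 ∨ q.1 = -1) ∧ (q.2 = 1 ∨ q.2 = -1) := by
  obtain ⟨a, b⟩ := q
  unfold sgs
  simp only [mem_insert, mem_singleton, Prod.mk.injEq]
  tauto

/-- the multiples of `D` -/
noncomputable def MD (T D : ℕ) : Finset ℤ := (Icc (-(T : ℤ)) T).filter (fun a => a ≠ 0 ∧ (D : ℤ) ∣ a)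

lemma card_MD (T D : ℕ) (hD : 0 < D) : (MD T D).card ≤ 2 * (T / D) := by
  have hDz : (0 : ℤ) < D := by exact_mod_cast hD
  have h1 : (MD T D).card ≤ ((Icc (-((T / D : ℕ) : ℤ)) ((T / D : ℕ) : ℤ)).erase 0).card := by
    apply card_le_card_of_injOn (fun a => a / (D : ℤ))
    · intro a ha
      have ha' := mem_coe.1 ha
      unfold MD at ha'
      rw [mem_filter, mem_Icc] at ha'
      obtain ⟨⟨h1, h2⟩, h3, q, hq⟩ := ha'
      have e : a / (D : ℤ) = q := by rw [hq]; exact Int.mul_ediv_cancel_left _ hDz.ne'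
      simp only [e]
      rw [mem_coe, mem_erase, mem_Icc]
      have hq0 : q ≠ 0 := by
        rintro rfl
        exact h3 (by rw [hq]; simp)
      have h4 : q.natAbs * D ≤ T := by
        have h5 : a.natAbs ≤ T := by omega
        rw [hq, Int.natAbs_mul, Int.natAbs_natCast, mul_comm] at h5
        exact h5
      have h5 : q.natAbs ≤ T / D := (Nat.le_div_iff_mul_le hD).2 h4
      exact ⟨hq0, by omega, by omega⟩
    · intro a ha b hb hab
      have ha' := (mem_filter.1 (mem_coe.1 ha)).2.2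
      have hb' := (mem_filter.1 (mem_coe.1 hb)).2.2
      simp only at hab
      rw [← Int.ediv_mul_cancel ha', ← Int.ediv_mul_cancel hb', hab]
  refine h1.trans ?_
  generalize T / D = q
  rw [card_erase_of_mem (by rw [mem_Icc]; omega), Int.card_Icc]
  omega

open Classical in
/-- the members with a fixed greatest common divisor -/
noncomputable def GD (r T : ℕ) (q : ℕ × ℤ × ℤ) : Finset (ℤ × ℤ) :=
  ((TA3 q.2.1 q.2.2 (3 * T / q.1)).filter (fun t => r ≤ rk3 q.2.1 q.2.2 q.1 t)).image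
    (fun t => ((q.1 : ℤ) * F3 q.2.1 q.2.2 t 0, (q.1 : ℤ) * F3 q.2.1 q.2.2 t 1))

lemma cover (r T D1 : ℕ) : SR r T ⊆ ((Icc 1 D1 ×ˢ sgs).biUnion (GD r T) ∪
    (Icc (D1 + 1) T).biUnion (fun D => MD T D ×ˢ MD T D)) ∪
    (Icc (-(T : ℤ)) T).image (fun a => (a, 2 * a)) := by
  classical
  rintro ⟨A, B⟩ h
  unfold SR at h
  rw [mem_filter, mem_product, mem_Icc, mem_Icc] at h
  obtain ⟨⟨⟨hA1, hA2⟩, hB1, hB2⟩, hA0, hB0, hAB, hr⟩ := h
  simp only at hA1 hA2 hB1 hB2 hA0 hB0 hAB
  rw [mem_union, mem_union, mem_biUnion, mem_biUnion, mem_image]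
  by_cases h2 : B = 2 * A
  · right
    exact ⟨A, mem_Icc.2 ⟨hA1, hA2⟩, by rw [h2]⟩
  set D : ℕ := Int.gcd A B with hD
  have hDpos : 0 < D := Int.gcd_pos_of_ne_zero_left B hA0
  have hDz : (0 : ℤ) < D := by exact_mod_cast hDpos
  obtain ⟨a, ha⟩ : (D : ℤ) ∣ A := Int.gcd_dvd_left A B
  obtain ⟨b, hb⟩ : (D : ℤ) ∣ B := Int.gcd_dvd_right A B
  have hcop : Int.gcd a b = 1 := by
    have h3 : Int.gcd (D * a) (D * b) = D * Int.gcd a b := by
      rw [Int.gcd_mul_left, Int.natAbs_natCast]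
    rw [← ha, ← hb, ← hD] at h3
    have h4 : D * 1 = D * Int.gcd a b := by rw [mul_one]; exact h3
    exact (Nat.eq_of_mul_eq_mul_left hDpos h4).symm
  rcases Nat.lt_or_ge D1 D with hDD | hDD
  · left; right
    have hDT : D ≤ T := by
      have h3 : D ≤ A.natAbs := Nat.le_of_dvd (Int.natAbs_pos.2 hA0)
        (Int.natCast_dvd.1 ⟨a, ha⟩)
      omega
    refine ⟨D, mem_Icc.2 ⟨hDD, hDT⟩, ?_⟩
    unfold MD
    rw [mem_product, mem_filter, mem_filter, mem_Icc, mem_Icc]
    exact ⟨⟨⟨hA1, hA2⟩, hA0, a, ha⟩, ⟨hB1, hB2⟩, hB0, b, hb⟩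
  · left; left
    have ha0 : a ≠ 0 := by rintro rfl; exact hA0 (by rw [ha, mul_zero])
    have hb0 : b ≠ 0 := by rintro rfl; exact hB0 (by rw [hb, mul_zero])
    have hw0 : b - 2 * a ≠ 0 := by
      intro h3
      apply h2
      rw [ha, hb]
      have : b = 2 * a := by linarith
      rw [this]
      ring
    set σ : ℤ := Int.sign a with hσ
    set τ : ℤ := Int.sign (b - 2 * a) with hτ
    have hσ1 : σ = 1 ∨ σ = -1 := by
      rcases lt_trichotomy a 0 with h | h | h
      · exact Or.inr (Int.sign_eq_neg_one_of_neg h)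
      · exact absurd h ha0
      · exact Or.inl (Int.sign_eq_one_of_pos h)
    have hτ1 : τ = 1 ∨ τ = -1 := by
      rcases lt_trichotomy (b - 2 * a) 0 with h | h | h
      · exact Or.inr (Int.sign_eq_neg_one_of_neg h)
      · exact absurd h hw0
      · exact Or.inl (Int.sign_eq_one_of_pos h)
    have ea : σ * (a.natAbs : ℤ) = a := Int.sign_mul_natAbs a
    have eb : τ * ((b - 2 * a).natAbs : ℤ) = b - 2 * a := Int.sign_mul_natAbs _
    set t : ℕ × ℕ := (a.natAbs, (b - 2 * a).natAbs) with ht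
    have hF0 : F3 σ τ t 0 = a := by rw [F3_0, ht]; exact ea
    have hF1 : F3 σ τ t 1 = b := by
      rw [F3_1, ht]
      simp only
      rw [mul_assoc, ea, eb]
      ring
    have hF2 : F3 σ τ t 2 = a - b := by rw [F3_2, hF0, hF1]
    refine ⟨(D, σ, τ), ?_, ?_⟩
    · rw [mem_product, mem_Icc, mem_sgs]
      exact ⟨⟨hDpos, hDD⟩, hσ1, hτ1⟩
    · unfold GD
      rw [mem_image]
      refine ⟨t, ?_, ?_⟩
      · rw [mem_filter]
        unfold TA3 rk3
        rw [mem_filter, mem_product, mem_Icc, mem_Icc]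
        simp only
        have h3 : D * a.natAbs ≤ T := by
          have h4 : A.natAbs ≤ T := by omega
          rw [ha, Int.natAbs_mul, Int.natAbs_natCast] at h4
          exact h4
        have h5 : D * (b - 2 * a).natAbs ≤ 3 * T := by
          have h4 : (B - 2 * A).natAbs ≤ 3 * T := by omega
          have e : B - 2 * A = D * (b - 2 * a) := by rw [ha, hb]; ring
          rw [e, Int.natAbs_mul, Int.natAbs_natCast] at h4
          exact h4
        refine ⟨⟨⟨⟨Int.natAbs_pos.2 ha0, ?_⟩, Int.natAbs_pos.2 hw0, ?_⟩, ?_, ?_⟩, ?_⟩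
        · rw [Nat.le_div_iff_mul_le hDpos, mul_comm]
          exact h3.trans (by omega)
        · rw [Nat.le_div_iff_mul_le hDpos, mul_comm]
          exact h5
        · show Nat.gcd a.natAbs (b - 2 * a).natAbs = 1
          rw [← Int.gcd_eq_natAbs_gcd_natAbs]
          have e : Int.gcd a (b - 2 * a) = Int.gcd a b := by
            have : b - 2 * a = b + a * (-2) := by ring
            rw [this]
            exact Int.gcd_add_mul_left_right a b (-2)
          rw [e, hcop]
        · intro j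
          fin_cases j
          · show F3 σ τ t 0 ≠ 0
            rw [hF0]; exact ha0
          · show F3 σ τ t 1 ≠ 0
            rw [hF1]; exact hb0
          · show F3 σ τ t 2 ≠ 0
            rw [hF2]
            intro h6
            apply hAB
            rw [ha, hb]
            have : a = b := by linarith
            rw [this]
        · rw [hF0, hF1, ← ha, ← hb]
          exact hr
      · simp only
        rw [hF0, hF1, ← ha, ← hb]

lemma card_cover (r T D1 : ℕ) : (SR r T).card ≤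
    ∑ q ∈ Icc 1 D1 ×ˢ sgs, ((TA3 q.2.1 q.2.2 (3 * T / q.1)).filter
      (fun t => r ≤ rk3 q.2.1 q.2.2 q.1 t)).card +
    ∑ D ∈ Icc (D1 + 1) T, (2 * (T / D)) * (2 * (T / D)) + (2 * T + 1) := by
  classical
  refine (card_le_card (cover r T D1)).trans ((card_union_le _ _).trans
    (add_le_add ((card_union_le _ _).trans (add_le_add ?_ ?_)) ?_))
  · refine card_biUnion_le.trans (sum_le_sum fun q _ => ?_)
    unfold GD
    exact card_image_le
  · refine card_biUnion_le.trans (sum_le_sum fun D hD => ?_)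
    rw [card_product]
    have h1 := card_MD T D (by rw [mem_Icc] at hD; omega)
    exact Nat.mul_le_mul h1 h1
  · refine card_image_le.trans ?_
    rw [Int.card_Icc]
    omega

end Pool.Agent.H457.A
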