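import Pool.Agent.H457.A.T1g

set_option autoImplicit false
set_option linter.unusedSectionVars false

/-! All the pairs: the tail. -/

namespace Pool.Agent.H457.A

open Finset Pool.Agent.W262.RK Pool.Agent.W307.RT Pool.Agent.W29.RT

/-- the number of prime factors of a number that is not too large -/
lemma om_le {r D : ℕ} (hr : 1024 ≤ r) (hD : 0 < D) (hD1 : D ≤ r ^ (r / 64)) : 16 * om D ≤ r := by
  set q := Nat.sqrt r with hq
  have h1 : q * q ≤ r := Nat.sqrt_le r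
  have h2 : r < (q + 1) * (q + 1) := Nat.lt_succ_sqrt r
  have h3 : 32 ≤ q := Nat.le_sqrt.2 (by omega)
  set S := D.primeFactors.filter (fun p => ¬ p ≤ q) with hS
  have h4 : (q + 1) ^ S.card ≤ ∏ p ∈ S, p :=
    Finset.pow_card_le_prod _ _ _ (fun p hp => by
      have := (mem_filter.1 hp).2
      omega)
  have h5 : ∏ p ∈ S, p ≤ D := Nat.le_of_dvd hD
    ((prod_dvd_prod_of_subset _ _ _ (filter_subset _ _)).trans (Nat.prod_primeFactors_dvd _))
  have h6 : r ^ (r / 64) ≤ (q + 1) ^ (2 * (r / 64)) := by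
    calc r ^ (r / 64) ≤ ((q + 1) * (q + 1)) ^ (r / 64) := Nat.pow_le_pow_left h2.le _
      _ = (q + 1) ^ (2 * (r / 64)) := by rw [← sq, ← pow_mul]
  have h7 : S.card ≤ 2 * (r / 64) :=
    (Nat.pow_le_pow_iff_right (by omega)).1 (h4.trans (h5.trans (hD1.trans h6)))
  have h8 : (D.primeFactors.filter (fun p => p ≤ q)).card ≤ q := by
    have h9 : D.primeFactors.filter (fun p => p ≤ q) ⊆ Icc 1 q := by
      intro p hp
      rw [mem_filter] at hp
      rw [mem_Icc]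
      exact ⟨(Nat.prime_of_mem_primeFactors hp.1).one_lt.le, hp.2⟩
    simpa using card_le_card h9
  have h10 : om D = (D.primeFactors.filter (fun p => p ≤ q)).card + S.card :=
    (card_filter_add_card_filter_not _).symm
  have h11 : 32 * q ≤ r := by nlinarith
  omega

/-- the coefficient of the bound -/
noncomputable def cf (Ct ct C0 Cs : ℝ) (r z : ℕ) : ℝ :=
  Ct * (C0 * (Real.log z) ^ 3 + 1) * Real.exp (-(ct * (r * Real.log r))) +
    Cs * Real.exp (Cs * Real.sqrt r) * (Real.log z) ^ (3 * Real.sqrt r) *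
      (1 / Real.sqrt r) ^ (r / 32 - 10)

lemma cf_le {Ct ct C0 Cs : ℝ} (hCt : 0 < Ct) (hct : 0 < ct) (hC0 : 0 ≤ C0) (hCs : 0 < Cs)
    (c1 : ℕ) (hc1 : 20 ≤ c1) : ∃ r0 : ℕ, ∀ r D : ℕ, r0 ≤ r → 1 ≤ D → D ≤ r ^ (r / 64) →
    cf Ct ct C0 Cs r (c1 * D) ≤ (Ct * (C0 + 1) + Cs) *
      Real.exp (-(min (ct / 2) (1 / 128) * (r * Real.log r))) := by
  refine ⟨⌈max (max 1024 (Real.log c1)) (max (12 / ct) ((128 * (Cs + 12)) ^ 2))⌉₊,
    fun r D hr hD hD1 => ?_⟩
  set ρ : ℝ := (r : ℝ) with hρ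
  have hmax : max (max 1024 (Real.log c1)) (max (12 / ct) ((128 * (Cs + 12)) ^ 2)) ≤ ρ :=
    (Nat.le_ceil _).trans (Nat.cast_le.2 hr)
  have h1 : (1024 : ℝ) ≤ ρ := (le_max_left _ _).trans ((le_max_left _ _).trans hmax)
  have h2 : Real.log c1 ≤ ρ := (le_max_right _ _).trans ((le_max_left _ _).trans hmax)
  have h3 : 12 / ct ≤ ρ := (le_max_left _ _).trans ((le_max_right _ _).trans hmax)
  have h4 : (128 * (Cs + 12)) ^ 2 ≤ ρ := (le_max_right _ _).trans ((le_max_right _ _).trans hmax)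
  have hρ0 : 0 < ρ := by linarith
  set ℓ := Real.log ρ with hℓ
  set s := Real.sqrt ρ with hs
  have hss : s * s = ρ := Real.mul_self_sqrt hρ0.le
  have hℓ1 : 1 ≤ ℓ := by
    rw [hℓ, Real.le_log_iff_exp_le hρ0]
    have := Real.exp_one_lt_d9
    linarith
  have hℓρ : ℓ ≤ ρ := by
    have := Real.log_le_sub_one_of_pos hρ0
    linarith
  have hs128 : 128 * (Cs + 12) ≤ s := by
    rw [hs]
    apply Real.le_sqrt_of_sq_le
    exact h4
  have hs1 : 1 ≤ s := by linarith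
  have hs0 : 0 < s := by linarith
  have hlogs : Real.log s = ℓ / 2 := by rw [hs, Real.log_sqrt hρ0.le]
  -- the logarithm of `z`
  have hc1r : (20 : ℝ) ≤ c1 := by exact_mod_cast hc1
  have hDr : (1 : ℝ) ≤ D := by exact_mod_cast hD
  have hzr : (20 : ℝ) ≤ ((c1 * D : ℕ) : ℝ) := by
    push_cast
    nlinarith
  have hlz1 : 1 ≤ Real.log ((c1 * D : ℕ) : ℝ) := by
    rw [Real.le_log_iff_exp_le (by linarith)]
    have := Real.exp_one_lt_d9
    linarith
  have h64 : ((r / 64 : ℕ) : ℝ) ≤ ρ / 64 := Nat.cast_div_le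
  have hlz : Real.log ((c1 * D : ℕ) : ℝ) ≤ ρ ^ 2 := by
    have e1 : Real.log ((c1 * D : ℕ) : ℝ) = Real.log c1 + Real.log D := by
      push_cast
      exact Real.log_mul (by linarith) (by linarith)
    have e2 : Real.log D ≤ ρ / 64 * ℓ := by
      calc Real.log D ≤ Real.log ((r ^ (r / 64) : ℕ) : ℝ) :=
            Real.log_le_log (by linarith) (by exact_mod_cast hD1)
        _ = ((r / 64 : ℕ) : ℝ) * ℓ := by
            push_cast
            rw [Real.log_pow]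
        _ ≤ ρ / 64 * ℓ := mul_le_mul_of_nonneg_right h64 (by linarith)
    rw [e1]
    nlinarith
  set lz := Real.log ((c1 * D : ℕ) : ℝ) with hlzd
  have hrl : 0 ≤ ρ * ℓ := by positivity
  set cn := min (ct / 2) (1 / 128) with hcn
  -- the first term
  have t1 : Ct * (C0 * lz ^ 3 + 1) * Real.exp (-(ct * (ρ * ℓ))) ≤
      Ct * (C0 + 1) * Real.exp (-(cn * (ρ * ℓ))) := by
    have e1 : lz ^ 3 ≤ ρ ^ 6 := by
      calc lz ^ 3 ≤ (ρ ^ 2) ^ 3 := pow_le_pow_left₀ (by linarith) hlz 3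
        _ = ρ ^ 6 := by ring
    have e2 : (1 : ℝ) ≤ ρ ^ 6 := one_le_pow₀ (by linarith)
    have e3 : C0 * lz ^ 3 + 1 ≤ (C0 + 1) * ρ ^ 6 := by nlinarith
    have e4 : ρ ^ 6 = Real.exp (6 * ℓ) := by
      rw [hℓ, ← Real.log_rpow hρ0, Real.exp_log (by positivity)]
      norm_cast
    have e5 : ρ ^ 6 * Real.exp (-(ct * (ρ * ℓ))) ≤ Real.exp (-(cn * (ρ * ℓ))) := by
      rw [e4, ← Real.exp_add]
      apply Real.exp_le_exp.2
      have g1 : cn * (ρ * ℓ) ≤ ct / 2 * (ρ * ℓ) := mul_le_mul_of_nonneg_right (min_le_left _ _) hrl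
      have g2 : 12 ≤ ρ * ct := by rwa [div_le_iff₀ hct] at h3
      have g3 : 6 * ℓ ≤ ct / 2 * (ρ * ℓ) := by nlinarith
      linarith
    calc Ct * (C0 * lz ^ 3 + 1) * Real.exp (-(ct * (ρ * ℓ))) ≤
          Ct * ((C0 + 1) * ρ ^ 6) * Real.exp (-(ct * (ρ * ℓ))) := by gcongr
      _ = Ct * (C0 + 1) * (ρ ^ 6 * Real.exp (-(ct * (ρ * ℓ)))) := by ring
      _ ≤ _ := mul_le_mul_of_nonneg_left e5 (by positivity)
  -- the second term
  have t2 : Cs * Real.exp (Cs * s) * lz ^ (3 * s) * (1 / s) ^ (r / 32 - 10) ≤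
      Cs * Real.exp (-(cn * (ρ * ℓ))) := by
    have e1 : lz ^ (3 * s) ≤ Real.exp (6 * s * ℓ) := by
      calc lz ^ (3 * s) ≤ (ρ ^ 2) ^ (3 * s) := Real.rpow_le_rpow (by linarith) hlz (by positivity)
        _ = Real.exp (6 * s * ℓ) := by
            rw [Real.rpow_def_of_pos (by positivity), Real.log_pow]
            congr 1
            push_cast
            ring
    have e2 : (1 / s) ^ (r / 32 - 10) ≤ Real.exp (-((ρ / 32 - 11) * (ℓ / 2))) := by
      have g1 : (1 / s) ^ (r / 32 - 10) = Real.exp (-(((r / 32 - 10 : ℕ) : ℝ) * (ℓ / 2))) := by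
        rw [one_div, inv_pow, Real.exp_neg, ← hlogs, mul_comm, ← Real.rpow_def_of_pos hs0,
          Real.rpow_natCast]
      rw [g1]
      apply Real.exp_le_exp.2
      have g2 : ρ / 32 - 11 ≤ ((r / 32 - 10 : ℕ) : ℝ) := by
        have g3 : r ≤ 32 * (r / 32 - 10) + 352 := by omega
        have g4 : ρ ≤ 32 * ((r / 32 - 10 : ℕ) : ℝ) + 352 := by
          rw [hρ]
          exact_mod_cast g3
        linarith
      have g3 : (ρ / 32 - 11) * (ℓ / 2) ≤ ((r / 32 - 10 : ℕ) : ℝ) * (ℓ / 2) :=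
        mul_le_mul_of_nonneg_right g2 (by linarith)
      linarith
    have e3 : Real.exp (Cs * s) * Real.exp (6 * s * ℓ) * Real.exp (-((ρ / 32 - 11) * (ℓ / 2))) ≤
        Real.exp (-(cn * (ρ * ℓ))) := by
      rw [← Real.exp_add, ← Real.exp_add]
      apply Real.exp_le_exp.2
      have g1 : cn * (ρ * ℓ) ≤ 1 / 128 * (ρ * ℓ) := mul_le_mul_of_nonneg_right (min_le_right _ _) hrl
      have hsl : 1 ≤ s * ℓ := by nlinarith
      have g2 : Cs * s ≤ Cs * (s * ℓ) := by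
        apply mul_le_mul_of_nonneg_left _ hCs.le
        nlinarith
      have g3 : 11 / 2 * ℓ ≤ 6 * (s * ℓ) := by nlinarith
      have g4 : (Cs + 12) * (s * ℓ) ≤ 1 / 128 * (ρ * ℓ) := by
        rw [← hss]
        have g5 : 128 * (Cs + 12) * (s * ℓ) ≤ s * (s * ℓ) :=
          mul_le_mul_of_nonneg_right hs128 (by linarith)
        linarith
      nlinarith
    calc Cs * Real.exp (Cs * s) * lz ^ (3 * s) * (1 / s) ^ (r / 32 - 10) ≤
          Cs * Real.exp (Cs * s) * Real.exp (6 * s * ℓ) *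
            Real.exp (-((ρ / 32 - 11) * (ℓ / 2))) := by
          gcongr
      _ = Cs * (Real.exp (Cs * s) * Real.exp (6 * s * ℓ) *
            Real.exp (-((ρ / 32 - 11) * (ℓ / 2)))) := by ring
      _ ≤ _ := mul_le_mul_of_nonneg_left e3 hCs.le
  unfold cf
  calc _ ≤ Ct * (C0 + 1) * Real.exp (-(cn * (ρ * ℓ))) + Cs * Real.exp (-(cn * (ρ * ℓ))) :=
        add_le_add t1 t2
    _ = _ := by ring

open Classical in
/-- the bound for a fixed greatest common divisor -/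
lemma perD : ∃ C c : ℝ, 0 < C ∧ 0 < c ∧ c ≤ 1 / 128 ∧ ∃ r0 : ℕ, 1024 ≤ r0 ∧ ∀ r : ℕ, r0 ≤ r →
    ∀ D : ℕ, 1 ≤ D → D ≤ r ^ (r / 64) → ∀ σ τ : ℤ, (σ = 1 ∨ σ = -1) → (τ = 1 ∨ τ = -1) →
    ∀ᶠ X : ℕ in Filter.atTop,
      (((TA3 σ τ X).filter (fun t => r ≤ rk3 σ τ D t)).card : ℝ) ≤
        C * Real.exp (-(c * (r * Real.log r))) * X ^ 2 := by
  obtain ⟨C0, K, y0, hCN⟩ := cn_exists
  obtain ⟨Ct, ct, hCt, hct, habs⟩ := abs_tail (Fin 3) K 12
  obtain ⟨Cs, hCs, hsm⟩ := small3 hCN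
  set c1 : ℕ := 20 + y0 with hc1
  obtain ⟨r0, hr0⟩ := cf_le hCt hct hCN.h0 hCs c1 (by omega)
  refine ⟨Ct * (C0 + 1) + Cs, min (ct / 2) (1 / 128), ?_, ?_, min_le_right _ _,
    max 1024 r0, le_max_left _ _, ?_⟩
  · have := hCN.h0
    positivity
  · exact lt_min (by positivity) (by norm_num)
  intro r hr D hD hD1 σ τ hσ hτ
  have hr1 : 1024 ≤ r := (le_max_left _ _).trans hr
  have hr2 : r0 ≤ r := (le_max_right _ _).trans hr
  set z : ℕ := c1 * D with hz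
  have hz1 : 2 * D + 8 ≤ z := by rw [hz, hc1]; nlinarith
  have hz2 : 11 ≤ z := by rw [hz, hc1]; nlinarith
  have hz3 : y0 ≤ z := by rw [hz, hc1]; nlinarith
  set a0 : ℕ := r / 32 with ha0
  have hom := om_le hr1 hD hD1
  have hF := fam3 (a0 := a0) hCN hσ hτ (D := D) (z := z) hD hz1
  have h1 := habs cls3 (fun _ => true) (ka3 D τ) z (ℕ × ℕ) (TX3 σ τ z a0) (F3 σ τ) ng3
    (rk3 σ τ D) (fun X : ℕ => (X : ℝ) ^ 2) (C0 * (Real.log z) ^ 3 + 1) y0 (a0 + om D + 3) tri3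
    (by simp; omega) (fun j i => ka3_ne hD hτ j i)
    (fun j => (ka3_le hτ j).trans (by omega)) hF r (by omega)
  have hsq1 : (1 : ℝ) ≤ Real.sqrt r := by
    rw [Real.one_le_sqrt]
    exact_mod_cast (by omega : 1 ≤ r)
  filter_upwards [h1, Filter.eventually_ge_atTop (z ^ K), Filter.eventually_ge_atTop
    ((PP 10 z) ^ 24), Filter.eventually_ge_atTop 3] with X hX1 hX2 hX3 hX4
  have h2 := hsm σ τ hσ hτ z hz2 hz3 (Real.sqrt r) hsq1 a0 X hX2 hX3 hX4
  have hsub : (TA3 σ τ X).filter (fun t => r ≤ rk3 σ τ D t) ⊆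
      (TX3 σ τ z a0 X).filter (fun t => r ≤ rk3 σ τ D t) ∪
      (TA3 σ τ X).filter (fun t => a0 < sm3 σ τ z t) := by
    intro t ht
    rw [mem_filter] at ht
    rw [mem_union, mem_filter, mem_filter]
    by_cases h : a0 < sm3 σ τ z t
    · exact Or.inr ⟨ht.1, h⟩
    · left
      refine ⟨?_, ht.2⟩
      have h3 := ht.1
      unfold TA3 at h3
      unfold TX3
      rw [mem_filter] at h3 ⊢
      exact ⟨h3.1, h3.2.1, h3.2.2, fun j => F3_le hσ hτ hX4 h3.1 j, not_lt.1 h⟩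
  have h3 : (((TA3 σ τ X).filter (fun t => r ≤ rk3 σ τ D t)).card : ℝ) ≤
      ((TX3 σ τ z a0 X).filter (fun t => r ≤ rk3 σ τ D t)).card +
      ((TA3 σ τ X).filter (fun t => a0 < sm3 σ τ z t)).card := by
    exact_mod_cast (card_le_card hsub).trans (card_union_le _ _)
  have h4 := hr0 r D hr2 hD hD1
  rw [← hz] at h4
  have hXn : (0 : ℝ) ≤ (X : ℝ) ^ 2 := by positivity
  calc (((TA3 σ τ X).filter (fun t => r ≤ rk3 σ τ D t)).card : ℝ)
      ≤ Ct * (C0 * (Real.log z) ^ 3 + 1) * Real.exp (-(ct * (r * Real.log r))) * (X : ℝ) ^ 2 +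
        Cs * Real.exp (Cs * Real.sqrt r) * (Real.log z) ^ (3 * Real.sqrt r) *
          (1 / Real.sqrt r) ^ (a0 - 10) * (X : ℝ) ^ 2 := h3.trans (add_le_add hX1 h2)
    _ = cf Ct ct C0 Cs r z * (X : ℝ) ^ 2 := by
        unfold cf
        ring
    _ ≤ _ := mul_le_mul_of_nonneg_right h4 hXn

end Pool.Agent.H457.A
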