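import Pool.Agent.H457.A.T1i
import Pool.Agent.H457.A.Par2
import Pool.Agent.H457.A.Low2

/-!
# The tail of the rank over all elliptic curves over `ℚ` with full rational 2-torsion, by height
-/

set_option autoImplicit false

namespace Pool.Agent.H457.A

open Finset Filter Pool.Agent.W262.RK Pool.Agent.W307.RT

open Classical in
/-- the curves of rank at least `r` -/
noncomputable def CR (r H : ℕ) : Finset (ℤ × ℤ) :=
  (Cv 2 H).filter (fun c => r ≤ Module.finrank ℤ (Sh c.1 c.2).toAffine.Point)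

theorem height_tail : ∃ C c : ℝ, 0 < C ∧ 0 < c ∧ ∀ r : ℕ, ∀ᶠ H : ℕ in atTop,
    ((CR r H).card : ℝ) ≤ C * Real.exp (-(c * (r * Real.log r))) * (Cv 2 H).card := by
  classical
  obtain ⟨C0', F, hF⟩ := Pool.Agent.H457.B.par2
  obtain ⟨c1, C1, T0, hc1, hlow⟩ := Pool.Agent.H457.B.low2
  obtain ⟨C, c, hC, hc, hb⟩ := pairs_tail
  set C0 := C0' + 1 with hC0
  set D := C0 * C1 + 1 with hD
  have hD1 : 1 ≤ D := by omega
  have hDR : (0 : ℝ) < D := by exact_mod_cast hD1
  refine ⟨C * (2 * (D : ℝ)) ^ 2 / c1, c, by positivity, hc, fun r => ?_⟩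
  obtain ⟨M, hM⟩ := eventually_atTop.1 (hb r)
  filter_upwards [eventually_ge_atTop ((M + D * (T0 + 1) + 1) ^ 6)] with H hH
  set T := Nat.findGreatest (fun t => t ^ 6 ≤ C0 * H) (C0 * H) with hT
  have hle : ∀ x : ℕ, x ^ 6 ≤ C0 * H → x ≤ T := by
    intro x hx
    apply Nat.le_findGreatest
    · exact (Nat.le_self_pow (by omega) x).trans hx
    · exact hx
  have hTk : T ^ 6 ≤ C0 * H := by
    have : (fun t => t ^ 6 ≤ C0 * H) T :=
      Nat.findGreatest_spec (P := fun t => t ^ 6 ≤ C0 * H) (Nat.zero_le _)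
        (by rw [zero_pow (by omega)]; exact Nat.zero_le _)
    exact this
  have hTM : M + D * (T0 + 1) + 1 ≤ T := by
    apply hle
    exact hH.trans (Nat.le_mul_of_pos_left _ (by omega))
  -- the map into the pairs
  have hcard : (CR r H).card ≤ (SR r T).card := by
    apply card_le_card_of_injOn F
    · intro x hx
      rw [Finset.mem_coe, CR, mem_filter] at hx
      obtain ⟨hx1, hx2⟩ := hx
      obtain ⟨a1, a2, a3, a4, a5, a6⟩ := (hF H).2 x hx1
      have b1 : (F x).1.natAbs ≤ T :=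
        hle _ (a4.trans (Nat.mul_le_mul_right _ (by omega)))
      have b2 : (F x).2.natAbs ≤ T :=
        hle _ (a5.trans (Nat.mul_le_mul_right _ (by omega)))
      rw [Finset.mem_coe, SR, mem_filter, mem_product, mem_Icc, mem_Icc]
      refine ⟨⟨⟨by omega, by omega⟩, ⟨by omega, by omega⟩⟩, a1, a2, a3, ?_⟩
      rw [rkE, ← a6]
      exact hx2
    · intro x hx y hy hxy
      rw [Finset.mem_coe, CR, mem_filter] at hx hy
      exact (hF H).1 hx.1 hy.1 hxy
  have h1 : ((CR r H).card : ℝ) ≤ C * Real.exp (-(c * (r * Real.log r))) * (T : ℝ) ^ 2 :=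
    le_trans (by exact_mod_cast hcard) (hM T (by omega))
  set T' := T / D with hT'
  have hT'0 : T0 + 1 ≤ T' := by
    rw [hT', Nat.le_div_iff_mul_le hD1, mul_comm]
    omega
  have h2 : T' * D ≤ T := Nat.div_mul_le_self T D
  have h3 : C1 * T' ^ 6 ≤ H := by
    have a1 : (T' * D) ^ 6 ≤ C0 * H := (Nat.pow_le_pow_left h2 6).trans hTk
    rw [mul_pow] at a1
    have a2 : D ≤ D ^ 6 := Nat.le_self_pow (by omega) D
    have a3 : T' ^ 6 * (C0 * C1) ≤ C0 * H :=
      (Nat.mul_le_mul_left _ (by omega : C0 * C1 ≤ D ^ 6)).trans a1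
    have a4 : C0 * (C1 * T' ^ 6) ≤ C0 * H := by
      calc C0 * (C1 * T' ^ 6) = T' ^ 6 * (C0 * C1) := by ring
        _ ≤ _ := a3
    exact Nat.le_of_mul_le_mul_left a4 (by omega)
  have h4 := hlow T' H (by omega) h3
  have h5 : T ≤ 2 * D * T' := by
    have a1 : T < D * (T' + 1) := by
      rw [mul_comm]
      exact Nat.lt_mul_of_div_lt (by rw [← hT']; omega) hD1
    have a2 : D * (T' + 1) ≤ 2 * D * T' := by nlinarith
    omega
  have h6 : (T : ℝ) ≤ 2 * D * T' := by exact_mod_cast h5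
  set E := Real.exp (-(c * (r * Real.log r))) with hE
  have hE0 : 0 < E := Real.exp_pos _
  calc _ ≤ C * E * (T : ℝ) ^ 2 := h1
    _ ≤ C * E * (2 * D * T') ^ 2 := by
      apply mul_le_mul_of_nonneg_left _ (by positivity)
      exact pow_le_pow_left₀ (Nat.cast_nonneg T) h6 2
    _ = C * (2 * (D : ℝ)) ^ 2 / c1 * E * (c1 * (T' : ℝ) ^ 2) := by
      field_simp
    _ ≤ _ := mul_le_mul_of_nonneg_left h4 (by positivity)

end Pool.Agent.H457.A
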