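import Pool.Agent.H457.A.Fin3
import Pool.Graph.R_seed8.W262.RK.F4c
import Pool.Graph.R_seed8.W358.RK2.SVR

set_option autoImplicit false
set_option linter.unusedSectionVars false

/-! The tail of the rank in one-parameter families. -/

namespace Pool.Agent.H457.A

open Finset Pool.Agent.W262.RK Pool.Agent.W307.RT

variable {J : Type} [Fintype J] [DecidableEq J]

lemma LC4_false (cls : J → Fin 4) (κ : J → Fin 3 → ℤ) (s : J → ℕ) (E : Finset ℕ) :
    LLg (LC4 cls (fun _ => false) κ) s E = LLs cls κ s E := by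
  funext p v w h g
  unfold LLg LLs LC4
  simp only [LF_false]

lemma PF_false (cls : J → Fin 4) (s : J → ℕ) : PF (fl4 cls (fun _ => false)) s = P3 cls s := by
  unfold PF P3 fl4
  simp only [Bool.or_false, decide_eq_true_eq]

/-- the members of the family -/
def TX1 (α β : J → ℤ) (X : ℕ) : Finset ℕ :=
  (Icc 1 X).filter (fun t : ℕ => (∀ j, ff α β t j ≠ 0) ∧ ∀ j, (ff α β t j).natAbs ≤ X ^ 2)

open Classical in
/-- the tail for positive parameters -/
theorem one_tail (cls : J → Fin 4) (hT : Tri cls) (a : Fin 3 → ℤ) (α β : J → ℤ)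
    (ha : ∀ k, a k ≠ 0) (hα : ∀ j, α j ≠ 0) (hR : ∀ j l, j ≠ l → Res α β j l ≠ 0)
    (hF : ∀ t : ℤ, F4 cls a α β t 0 - F4 cls a α β t 1 = F4 cls a α β t 2) :
    ∃ C c : ℝ, 0 < C ∧ 0 < c ∧ ∀ r : ℕ, ∀ᶠ X : ℕ in Filter.atTop,
      (((Icc 1 X).filter (fun t : ℕ => (∀ j, ff α β t j ≠ 0) ∧ r ≤ Module.finrank ℤ
        (EAB (F4 cls a α β t 0) (F4 cls a α β t 1)).toAffine.Point)).card : ℝ) ≤
        C * Real.exp (-(c * (r * Real.log r))) * X := by
  set κ := kap4 cls a α β with hκdef
  have hκ0 : ∀ j k, κ j k ≠ 0 := kap4_ne cls a α β hα ha hR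
  set N := Fintype.card J with hN
  set z : ℕ := (2 * N + 2) + ∑ k, (a k).natAbs + ∑ j, (α j).natAbs +
    ∑ j, ∑ l, (Res α β j l).natAbs +
    ∑ j, (κ j 0).natAbs * (κ j 1).natAbs * (κ j 2).natAbs with hz
  have hB : Big4 a α β z := by
    refine ⟨⟨by omega, fun p hp hzp => ⟨fun j h => ?_, fun j l hjl h => ?_⟩⟩,
      fun p hp hzp k h => ?_⟩
    · have h1 := Nat.le_of_dvd (Int.natAbs_pos.2 (hα j)) (Int.natCast_dvd.1 h)
      have h2 := single_le_sum (f := fun j => (α j).natAbs) (fun _ _ => Nat.zero_le _) (mem_univ j)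
      omega
    · have h1 := Nat.le_of_dvd (Int.natAbs_pos.2 (hR j l hjl)) (Int.natCast_dvd.1 h)
      have h2 := single_le_sum (f := fun l => (Res α β j l).natAbs) (fun _ _ => Nat.zero_le _)
        (mem_univ l)
      have h3 := single_le_sum (f := fun j => ∑ l, (Res α β j l).natAbs) (fun _ _ => Nat.zero_le _)
        (mem_univ j)
      omega
    · have h1 := Nat.le_of_dvd (Int.natAbs_pos.2 (ha k)) (Int.natCast_dvd.1 h)
      have h2 := single_le_sum (f := fun k => (a k).natAbs) (fun _ _ => Nat.zero_le _) (mem_univ k)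
      omega
  have hκP : ∀ j, (κ j 0).natAbs * (κ j 1).natAbs * (κ j 2).natAbs ≤ z := by
    intro j
    have h2 := single_le_sum (f := fun j => (κ j 0).natAbs * (κ j 1).natAbs * (κ j 2).natAbs)
      (fun _ _ => Nat.zero_le _) (mem_univ j)
    omega
  have hκz : ∀ j k, (κ j k).natAbs ≤ z := by
    intro j k
    refine le_trans ?_ (hκP j)
    have h0 := Int.natAbs_pos.2 (hκ0 j 0)
    have h1 := Int.natAbs_pos.2 (hκ0 j 1)
    have h2 := Int.natAbs_pos.2 (hκ0 j 2)
    fin_cases k
    · simp only [Fin.zero_eta]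
      rw [mul_assoc]
      exact Nat.le_mul_of_pos_right _ (by positivity)
    · simp only [Fin.mk_one]
      rw [mul_comm (κ j 0).natAbs, mul_assoc]
      exact Nat.le_mul_of_pos_right _ (by positivity)
    · show (κ j 2).natAbs ≤ _
      exact Nat.le_mul_of_pos_left _ (by positivity)
  obtain ⟨C1, K0, y0, hC1, hK0, hcnt⟩ := Pool.Agent.W372.RK2.cnt4_of Pool.Agent.W358.RK2.svr
    J α β cls z hB.1
  obtain ⟨C, c, hC, hc, hmain⟩ := abs_tail J K0 (4 * N)
  set Cc : ℝ := C1 + 1 with hCc
  have hFam : Fam cls (fun _ => false) κ z (TX1 α β) (fun t : ℕ => ff α β t)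
      (fun t s => neg3 cls α β t s) (fun t : ℕ => Module.finrank ℤ
        (EAB (F4 cls a α β t 0) (F4 cls a α β t 1)).toAffine.Point) (fun X : ℕ => (X : ℝ)) Cc K0
        y0 (z + 2) (4 * N) :=
    { S0 := fun X => Nat.cast_nonneg X
      C0 := by positivity
      card := by
        intro X
        have h1 : (TX1 α β X).card ≤ X := by
          refine (card_le_card (filter_subset _ _)).trans ?_
          simp
        have h2 : ((TX1 α β X).card : ℝ) ≤ X := by exact_mod_cast h1
        have h3 : (0 : ℝ) ≤ X := Nat.cast_nonneg X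
        nlinarith
      good := by
        intro X t ht
        unfold TX1 at ht
        rw [mem_filter] at ht
        exact ⟨ht.2.1, fun p hp hzp j l hjl h => bg_not_dvd hB.1 hp hzp hjl h.1 h.2⟩
      neg_sub := by
        intro t s
        rw [PF_false]
        exact filter_subset _ _
      cnt := by
        intro X y Y hy0 hzy hyX s hs v hv u hu h8 E T' hT' hω
        rw [PF_false]
        have h1 := hcnt X y Y hy0 hzy hyX s hs v hv u hu h8 E
        have h2 : T' ⊆ (Icc 1 X).filter (fun t : ℕ => s1 α β z y t = s ∧ s2 α β z y t = v ∧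
            (∀ j, (u j : ℤ) ∣ ff α β t j) ∧ neg3 cls α β t s = E) := by
          intro t ht
          have h3 := hT' ht
          unfold TX1 at h3
          rw [mem_filter] at h3 ⊢
          exact ⟨h3.1, hω t ht⟩
        have h3 : (T'.card : ℝ) ≤ _ := le_trans (by exact_mod_cast card_le_card h2) h1
        refine h3.trans ?_
        have hcz : N ≤ z := by omega
        have hg : 0 ≤ (X : ℝ) * (1 / 2) ^ (P3 cls s).card * (∏ j, gw 1 N (s j)) *
            (∏ j, gw 1 N (v j) / v j) * (∏ j, 1 / (u j : ℝ)) / (Real.log y) ^ N := by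
          apply div_nonneg _ (pow_nonneg (Real.log_natCast_nonneg _) _)
          refine mul_nonneg (mul_nonneg (mul_nonneg (by positivity)
            (prod_nonneg fun j _ => gw_nn hcz hs j)) (prod_nonneg fun j _ =>
              div_nonneg (gw_nn hcz hv j) (Nat.cast_nonneg _)))
            (prod_nonneg fun j _ => by positivity)
        have e1 : C1 * X * (1 / 2) ^ (P3 cls s).card * (∏ j, gw 1 N (s j)) *
            (∏ j, gw 1 N (v j) / v j) * (∏ j, 1 / (u j : ℝ)) / (Real.log y) ^ N =
            C1 * ((X : ℝ) * (1 / 2) ^ (P3 cls s).card * (∏ j, gw 1 N (s j)) *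
            (∏ j, gw 1 N (v j) / v j) * (∏ j, 1 / (u j : ℝ)) / (Real.log y) ^ N) := by ring
        have e2 : Cc * X * (1 / 2) ^ (P3 cls s).card * (∏ j, gw 1 N (s j)) *
            (∏ j, gw 1 N (v j) / v j) * (∏ j, 1 / (u j : ℝ)) / (Real.log y) ^ N =
            Cc * ((X : ℝ) * (1 / 2) ^ (P3 cls s).card * (∏ j, gw 1 N (s j)) *
            (∏ j, gw 1 N (v j) / v j) * (∏ j, 1 / (u j : ℝ)) / (Real.log y) ^ N) := by ring
        rw [e1, e2]
        exact mul_le_mul_of_nonneg_right (by rw [hCc]; linarith) hg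
      rank := by
        intro X y k' hy hzy hXy t ht
        unfold TX1 at ht
        rw [mem_filter] at ht
        obtain ⟨ht1, ht0, htX⟩ := ht
        have hX1 : 1 ≤ X := (mem_Icc.1 ht1).1.trans (mem_Icc.1 ht1).2
        have hr := rank4 Pool.Agent.W214.RK2.desc4 Pool.Agent.W342.RK2.xcl
          Pool.Agent.W342.RK2.locl (cls := cls) (X := X) (y := y) (k := k') hB ha hκ0 hκz (hF t) ht0 htX
          hX1 hy hXy
        rw [LC4_false]
        have e : (2 : ℝ) ^ (4 * N * k') = (16 ^ N) ^ k' := by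
          rw [← pow_mul, show (16 : ℝ) = 2 ^ 4 by norm_num, ← pow_mul]
          congr 1
          ring
        rw [e]
        have hr' : ((2 ^ Module.finrank ℤ
            (EAB (F4 cls a α β t 0) (F4 cls a α β t 1)).toAffine.Point : ℕ) : ℝ) ≤
            ((4 ^ (z + 2) * (16 ^ Fintype.card J) ^ k' *
            4 ^ (∑ j, (s2 α β z y t j).primeFactors.card) *
            NL (∏ j, s1 α β z y t j) (LLs cls (kap4 cls a α β) (s1 α β z y t)
            (neg3 cls α β t (s1 α β z y t))) : ℕ) : ℝ) := by exact_mod_cast hr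
        push_cast at hr'
        exact hr' }
  -- the constants for the small `r`
  set r1 : ℕ := 8 * (z + 2) with hr1
  set C' : ℝ := C * Cc + Real.exp (c * (r1 * Real.log r1)) with hC'
  have hCc0 : 0 < Cc := by positivity
  refine ⟨C', c, by positivity, hc, fun r => ?_⟩
  rcases Nat.lt_or_ge r r1 with hrr | hrr
  · filter_upwards with X
    have h1 : (((Icc 1 X).filter (fun t : ℕ => (∀ j, ff α β t j ≠ 0) ∧ r ≤ Module.finrank ℤ
        (EAB (F4 cls a α β t 0) (F4 cls a α β t 1)).toAffine.Point)).card : ℝ) ≤ X := by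
      have : ((Icc 1 X).filter (fun t : ℕ => (∀ j, ff α β t j ≠ 0) ∧ r ≤ Module.finrank ℤ
        (EAB (F4 cls a α β t 0) (F4 cls a α β t 1)).toAffine.Point)).card ≤ X := by
        refine (card_le_card (filter_subset _ _)).trans ?_
        simp
      exact_mod_cast this
    refine h1.trans ?_
    have h2 : (r : ℝ) * Real.log r ≤ r1 * Real.log r1 := by
      rcases Nat.eq_zero_or_pos r with h | h
      · subst h
        simp only [Nat.cast_zero, Real.log_zero, mul_zero]
        exact mul_nonneg (Nat.cast_nonneg _) (Real.log_natCast_nonneg _)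
      · have hr1 : (0 : ℝ) < r := by exact_mod_cast h
        have hr2 : (r : ℝ) ≤ r1 := by exact_mod_cast hrr.le
        exact mul_le_mul hr2 (Real.log_le_log hr1 hr2) (Real.log_natCast_nonneg _)
          (Nat.cast_nonneg _)
    have h3 : 1 ≤ C' * Real.exp (-(c * (r * Real.log r))) := by
      calc (1 : ℝ) = Real.exp (c * (r * Real.log r)) * Real.exp (-(c * (r * Real.log r))) := by
            rw [← Real.exp_add]; simp
        _ ≤ _ := by
            apply mul_le_mul_of_nonneg_right _ (Real.exp_pos _).le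
            have := Real.exp_le_exp.2 (mul_le_mul_of_nonneg_left h2 hc.le)
            have h5 : 0 < C * Cc := by positivity
            rw [hC']
            linarith
    have h4 : (0 : ℝ) ≤ X := Nat.cast_nonneg X
    nlinarith
  · have hm := hmain cls (fun _ => false) κ z ℕ (TX1 α β) (fun t : ℕ => ff α β t)
      (fun t s => neg3 cls α β t s) (fun t : ℕ => Module.finrank ℤ
        (EAB (F4 cls a α β t 0) (F4 cls a α β t 1)).toAffine.Point) (fun X : ℕ => (X : ℝ)) Cc
        y0 (z + 2) hT (by omega) hκ0 hκP hFam r hrr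
    filter_upwards [hm, Filter.eventually_ge_atTop
      (∑ j, ((α j).natAbs + (β j).natAbs) + 1)] with X hX hXge
    have h1 : (Icc 1 X).filter (fun t : ℕ => (∀ j, ff α β t j ≠ 0) ∧ r ≤ Module.finrank ℤ
        (EAB (F4 cls a α β t 0) (F4 cls a α β t 1)).toAffine.Point) ⊆
        (TX1 α β X).filter (fun t : ℕ => r ≤ Module.finrank ℤ
        (EAB (F4 cls a α β t 0) (F4 cls a α β t 1)).toAffine.Point) := by
      intro t ht
      unfold TX1
      rw [mem_filter] at ht
      rw [mem_filter, mem_filter]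
      refine ⟨⟨ht.1, ht.2.1, fun j => ?_⟩, ht.2.2⟩
      unfold ff
      have h3 := Int.natAbs_add_le (α j * (t : ℤ)) (β j)
      rw [Int.natAbs_mul, Int.natAbs_natCast] at h3
      have h4 := single_le_sum (f := fun j => (α j).natAbs + (β j).natAbs)
        (fun _ _ => Nat.zero_le _) (mem_univ j)
      have h5 := (mem_Icc.1 ht.1).2
      have h6 : (α j).natAbs + (β j).natAbs ≤ X := by
        omega
      nlinarith [Nat.zero_le (α j).natAbs, Nat.zero_le (β j).natAbs,
        Nat.mul_le_mul_left (α j).natAbs h5, Nat.mul_le_mul_right X h6,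
        Nat.le_mul_of_pos_right (β j).natAbs (show 0 < X by omega)]
    have h2 : (((Icc 1 X).filter (fun t : ℕ => (∀ j, ff α β t j ≠ 0) ∧ r ≤ Module.finrank ℤ
        (EAB (F4 cls a α β t 0) (F4 cls a α β t 1)).toAffine.Point)).card : ℝ) ≤
        ((TX1 α β X).filter (fun t : ℕ => r ≤ Module.finrank ℤ
        (EAB (F4 cls a α β t 0) (F4 cls a α β t 1)).toAffine.Point)).card := by
      exact_mod_cast card_le_card h1
    refine h2.trans (hX.trans ?_)
    apply mul_le_mul_of_nonneg_right _ (Nat.cast_nonneg _)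
    apply mul_le_mul_of_nonneg_right _ (Real.exp_pos _).le
    rw [hC']
    have := Real.exp_pos (c * (r1 * Real.log r1))
    linarith

end Pool.Agent.H457.A
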