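import Pool.Agent.H457.A.T2a
import Pool.Graph.R_seed8.W261.RT.Iso

set_option autoImplicit false
set_option linter.unusedSectionVars false

/-! The tail of the rank in one-parameter families: polynomials with rational roots. -/

namespace Pool.Agent.H457.A

open Finset Polynomial Pool.Agent.W262.RK Pool.Agent.W307.RT

/-- `y² = x (x - A) (x - B)` over `ℚ` -/
def EQ (A B : ℚ) : WeierstrassCurve ℚ := ⟨0, -(A + B), 0, A * B, 0⟩

lemma rank_scale (A B M : ℚ) (hM : M ≠ 0) :
    Module.finrank ℤ (EQ (M ^ 2 * A) (M ^ 2 * B)).toAffine.Point =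
      Module.finrank ℤ (EQ A B).toAffine.Point := by
  obtain ⟨e⟩ := Pool.Agent.W261.RT.iso (-(A + B)) (A * B) 0 0 (1 / M) (one_div_ne_zero hM)
  have h1 : (⟨0, (-(A + B) + 3 * 0) / (1 / M) ^ 2, 0,
      (A * B + 2 * 0 * (-(A + B)) + 3 * 0 ^ 2) / (1 / M) ^ 4,
      (0 + 0 * (A * B) + 0 ^ 2 * (-(A + B)) + 0 ^ 3) / (1 / M) ^ 6⟩ : WeierstrassCurve ℚ) =
      EQ (M ^ 2 * A) (M ^ 2 * B) := by
    unfold EQ
    congr 1
    · field_simp
      ring
    · field_simp
      ring
    · simp
  rw [h1] at e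
  exact (e.toIntLinearEquiv.finrank_eq).symm

lemma EAB_eq (A B : ℤ) : EAB A B = EQ A B := rfl

variable {D P Q : ℚ[X]}

/-- the root of two factors -/
lemma no_common {W f g : ℚ[X]} (hsq : Squarefree W) (h : f * g ∣ W) {q : ℚ}
    (hf : f.eval q = 0) (hg : g.eval q = 0) : False := by
  have h1 : (X - C q) ∣ f := dvd_iff_isRoot.2 hf
  have h2 : (X - C q) ∣ g := dvd_iff_isRoot.2 hg
  have h3 := hsq _ ((mul_dvd_mul h1 h2).trans h)
  exact not_isUnit_X_sub_C q h3

/-- the class of a root -/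
noncomputable def clsP (D P Q : ℚ[X]) (q : ℚ) : Fin 4 :=
  if D.eval q = 0 then 3 else if P.eval q = 0 then 0 else if Q.eval q = 0 then 1 else 2

/-- the three polynomials -/
noncomputable def GP (P Q : ℚ[X]) (k : Fin 3) : ℚ[X] :=
  if k = 0 then P else if k = 1 then Q else P - Q

lemma GP_dvd (k : Fin 3) : D * GP P Q k ∣ D * P * Q * (P - Q) := by
  unfold GP
  fin_cases k
  · exact ⟨Q * (P - Q), by simp; ring⟩
  · exact ⟨P * (P - Q), by simp; ring⟩
  · exact ⟨P * Q, by simp; ring⟩

lemma cls_val (d p q r : ℚ) (h1 : d = 0 → p = 0 → False) (h2 : d = 0 → q = 0 → False)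
    (h3 : d = 0 → r = 0 → False) (h4 : p = 0 → q = 0 → False) (h5 : p = 0 → r = 0 → False)
    (h6 : q = 0 → r = 0 → False) (h : ((d = 0 ∨ p = 0) ∨ q = 0) ∨ r = 0) (k : Fin 3) :
    (((if d = 0 then (3 : Fin 4) else if p = 0 then 0 else if q = 0 then 1 else 2) =
      k.castSucc) ∨ ((if d = 0 then (3 : Fin 4) else if p = 0 then 0 else
      if q = 0 then 1 else 2) = 3)) ↔ (d = 0 ∨ (if k = 0 then p else if k = 1 then q else r) = 0) := by
  by_cases a : d = 0
  · have b : p ≠ 0 := fun h => h1 a h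
    have c : q ≠ 0 := fun h => h2 a h
    have e : r ≠ 0 := fun h => h3 a h
    simp [a]
  · by_cases b : p = 0
    · have c : q ≠ 0 := fun h => h4 b h
      have e : r ≠ 0 := fun h => h5 b h
      fin_cases k <;> simp [a, b, c, e]
    · by_cases c : q = 0
      · have e : r ≠ 0 := fun h => h6 c h
        fin_cases k <;> simp [a, b, c, e]
      · have e : r = 0 := by
          rcases h with ((h | h) | h) | h
          · exact absurd h a
          · exact absurd h b
          · exact absurd h c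
          · exact h
        fin_cases k <;> simp [a, b, c, e]

lemma cls_iff (hsq : Squarefree (D * P * Q * (P - Q))) {q : ℚ}
    (hq : (D * P * Q * (P - Q)).eval q = 0) (k : Fin 3) :
    (clsP D P Q q = k.castSucc ∨ clsP D P Q q = 3) ↔ (D * GP P Q k).eval q = 0 := by
  have h1 : D.eval q = 0 → P.eval q = 0 → False := fun h h' =>
    no_common hsq ⟨Q * (P - Q), by ring⟩ h h'
  have h2 : D.eval q = 0 → Q.eval q = 0 → False := fun h h' =>
    no_common hsq ⟨P * (P - Q), by ring⟩ h h'
  have h3 : D.eval q = 0 → (P - Q).eval q = 0 → False := fun h h' =>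
    no_common hsq ⟨P * Q, by ring⟩ h h'
  have h4 : P.eval q = 0 → Q.eval q = 0 → False := fun h h' =>
    no_common hsq ⟨D * (P - Q), by ring⟩ h h'
  have h5 : P.eval q = 0 → (P - Q).eval q = 0 → False := fun h h' =>
    no_common hsq ⟨D * Q, by ring⟩ h h'
  have h6 : Q.eval q = 0 → (P - Q).eval q = 0 → False := fun h h' =>
    no_common hsq ⟨D * P, by ring⟩ h h'
  rw [eval_mul, eval_mul, eval_mul, mul_eq_zero, mul_eq_zero, mul_eq_zero] at hq
  have h := cls_val _ _ _ _ h1 h2 h3 h4 h5 h6 hq k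
  rw [eval_mul, mul_eq_zero]
  unfold clsP GP
  rw [h]
  split_ifs <;> rfl

/-- the index set: the roots -/
abbrev JP (D P Q : ℚ[X]) : Type := {q : ℚ // q ∈ (D * P * Q * (P - Q)).roots.toFinset}

lemma JP_eval (l : JP D P Q) : (D * P * Q * (P - Q)).eval l.1 = 0 := by
  have := l.2
  rw [Multiset.mem_toFinset, mem_roots'] at this
  exact this.2

lemma evalk (hs : (D * P * Q * (P - Q)).Splits) (hsq : Squarefree (D * P * Q * (P - Q)))
    (k : Fin 3) (t : ℚ) :
    (D * GP P Q k).eval t = (D * GP P Q k).leadingCoeff *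
      ∏ l ∈ fs (fun l : JP D P Q => clsP D P Q l.1) k, (t - l.1) := by
  classical
  have hW : D * P * Q * (P - Q) ≠ 0 := hsq.ne_zero
  have hd := GP_dvd (D := D) (P := P) (Q := Q) k
  have hne : D * GP P Q k ≠ 0 := fun h => hW (by rw [h] at hd; exact zero_dvd_iff.1 hd)
  have hs' := hs.of_dvd hW hd
  have hsq' := hsq.squarefree_of_dvd hd
  have hnd : (D * GP P Q k).roots.Nodup :=
    nodup_roots (PerfectField.separable_iff_squarefree.2 hsq')
  rw [hs'.eval_eq_prod_roots t]
  congr 1
  have h1 : ((D * GP P Q k).roots.map (fun a => t - a)).prod =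
      ∏ a ∈ (D * GP P Q k).roots.toFinset, (t - a) := by
    rw [Finset.prod, Multiset.toFinset_val, hnd.dedup]
  rw [h1]
  symm
  refine Finset.prod_bij (fun l _ => l.1) ?_ ?_ ?_ (fun _ _ => rfl)
  · intro l hl
    rw [Multiset.mem_toFinset, mem_roots']
    refine ⟨hne, ?_⟩
    unfold fs at hl
    rw [mem_filter] at hl
    exact (cls_iff hsq (JP_eval l) k).1 hl.2
  · intro l _ l' _ h
    exact Subtype.ext h
  · intro q hq
    rw [Multiset.mem_toFinset, mem_roots'] at hq
    have hq2 : (D * P * Q * (P - Q)).eval q = 0 := by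
      obtain ⟨g, hg⟩ := hd
      rw [hg, eval_mul]
      have := hq.2
      rw [IsRoot.def] at this
      rw [this, zero_mul]
    refine ⟨⟨q, ?_⟩, ?_, rfl⟩
    · rw [Multiset.mem_toFinset, mem_roots']
      exact ⟨hW, hq2⟩
    · unfold fs
      rw [mem_filter]
      exact ⟨mem_univ _, (cls_iff hsq hq2 k).2 hq.2⟩

lemma nc_eq (hs : (D * P * Q * (P - Q)).Splits) (hsq : Squarefree (D * P * Q * (P - Q)))
    (k : Fin 3) :
    nc (fun l : JP D P Q => clsP D P Q l.1) k.castSucc = (GP P Q k).natDegree := by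
  classical
  have hW : D * P * Q * (P - Q) ≠ 0 := hsq.ne_zero
  have hd : GP P Q k ∣ D * P * Q * (P - Q) := (Dvd.intro_left _ rfl).trans
    (GP_dvd (D := D) (P := P) (Q := Q) k)
  have hne : GP P Q k ≠ 0 := fun h => hW (by rw [h] at hd; exact zero_dvd_iff.1 hd)
  have hs' := hs.of_dvd hW hd
  have hsq' := hsq.squarefree_of_dvd hd
  have hnd : (GP P Q k).roots.Nodup :=
    nodup_roots (PerfectField.separable_iff_squarefree.2 hsq')
  rw [hs'.natDegree_eq_card_roots, ← Multiset.toFinset_card_of_nodup hnd]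
  unfold nc
  have hk3 : k.castSucc ≠ (3 : Fin 4) := by
    clear * -
    revert k
    decide
  refine Finset.card_bij (fun l _ => l.1) ?_ ?_ ?_
  · intro l hl
    rw [mem_filter] at hl
    rw [Multiset.mem_toFinset, mem_roots']
    refine ⟨hne, ?_⟩
    have h1 := (cls_iff hsq (JP_eval l) k).1 (Or.inl hl.2)
    rw [eval_mul, mul_eq_zero] at h1
    rcases h1 with h1 | h1
    · exfalso
      have h2 : clsP D P Q l.1 = 3 := by unfold clsP; rw [if_pos h1]
      exact hk3 (hl.2.symm.trans h2)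
    · exact h1
  · intro l _ l' _ h
    exact Subtype.ext h
  · intro q hq
    rw [Multiset.mem_toFinset, mem_roots'] at hq
    have hq0 : (GP P Q k).eval q = 0 := hq.2
    have hq1 : (D * GP P Q k).eval q = 0 := by rw [eval_mul, hq0, mul_zero]
    have hq2 : (D * P * Q * (P - Q)).eval q = 0 := by
      obtain ⟨g, hg⟩ := hd
      rw [hg, eval_mul, hq0, zero_mul]
    refine ⟨⟨q, ?_⟩, ?_, rfl⟩
    · rw [Multiset.mem_toFinset, mem_roots']
      exact ⟨hW, hq2⟩
    · rw [mem_filter]
      refine ⟨mem_univ _, ?_⟩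
      rcases (cls_iff hsq hq2 k).2 hq1 with h | h
      · exact h
      · exfalso
        have hD : D.eval q = 0 := by
          by_contra hD
          unfold clsP at h
          rw [if_neg hD] at h
          split_ifs at h
          all_goals exact absurd h (by decide)
        exact no_common hsq (GP_dvd (D := D) (P := P) (Q := Q) k) hD hq0

lemma tri_of (hs : (D * P * Q * (P - Q)).Splits) (hsq : Squarefree (D * P * Q * (P - Q)))
    (hdeg : (P.natDegree = 0 ∧ Q.natDegree = 0) ∨
      (0 < P.natDegree ∧ 0 < Q.natDegree ∧ 0 < (P - Q).natDegree)) :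
    Tri (fun l : JP D P Q => clsP D P Q l.1) := by
  have e0 := nc_eq hs hsq 0
  have e1 := nc_eq hs hsq 1
  have e2 := nc_eq hs hsq 2
  have g0 : GP P Q 0 = P := rfl
  have g1 : GP P Q 1 = Q := rfl
  have g2 : GP P Q 2 = P - Q := rfl
  rw [g0] at e0
  rw [g1] at e1
  rw [g2] at e2
  have c0 : (0 : Fin 3).castSucc = (0 : Fin 4) := rfl
  have c1 : (1 : Fin 3).castSucc = (1 : Fin 4) := rfl
  have c2 : (2 : Fin 3).castSucc = (2 : Fin 4) := rfl
  rw [c0] at e0
  rw [c1] at e1
  rw [c2] at e2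
  unfold Tri
  rw [e0, e1, e2]
  have d2 : (P - Q).natDegree ≤ max P.natDegree Q.natDegree := natDegree_sub_le P Q
  have d0 : P.natDegree ≤ max (P - Q).natDegree Q.natDegree := by
    have := natDegree_add_le (P - Q) Q
    rwa [sub_add_cancel] at this
  have d1 : Q.natDegree ≤ max P.natDegree (P - Q).natDegree := by
    have := natDegree_sub_le P (P - Q)
    rwa [sub_sub_cancel] at this
  rcases hdeg with ⟨h0, h1⟩ | ⟨h0, h1, h2⟩
  · right
    rw [h0, h1, max_self] at d2
    exact ⟨h0, h1, by omega⟩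
  · left
    rcases le_max_iff.1 d0 with h | h <;> rcases le_max_iff.1 d1 with h' | h' <;>
      rcases le_max_iff.1 d2 with h'' | h'' <;> omega

end Pool.Agent.H457.A
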