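import Pool.Agent.H457.A.T2b

set_option autoImplicit false
set_option linter.unusedSectionVars false

/-! The tail of the rank in one-parameter families: the theorem. -/

namespace Pool.Agent.H457.A

open Finset Polynomial Pool.Agent.W262.RK Pool.Agent.W307.RT

variable {D P Q : ℚ[X]}

/-- the product of the denominators of the roots -/
noncomputable def dj (D P Q : ℚ[X]) : ℤ := ∏ l : JP D P Q, (l.1.den : ℤ)

/-- the leading coefficients -/
noncomputable def lcP (D P Q : ℚ[X]) (k : Fin 3) : ℚ := (D * GP P Q k).leadingCoeff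

/-- the product of the denominators of the leading coefficients -/
noncomputable def dl (D P Q : ℚ[X]) : ℤ := ∏ k : Fin 3, ((lcP D P Q k).den : ℤ)

/-- the integral leading coefficients -/
noncomputable def aP (D P Q : ℚ[X]) (k : Fin 3) : ℤ :=
  (lcP D P Q k).num * (∏ j ∈ univ.erase k, ((lcP D P Q j).den : ℤ)) * dl D P Q * dj D P Q *
    ∏ l ∈ univ \ fs (fun l : JP D P Q => clsP D P Q l.1) k, (l.1.den : ℤ)

lemma F4_eq (hs : (D * P * Q * (P - Q)).Splits) (hsq : Squarefree (D * P * Q * (P - Q)))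
    (k : Fin 3) (t : ℤ) :
    ((F4 (fun l : JP D P Q => clsP D P Q l.1) (aP D P Q) (fun l => (l.1.den : ℤ))
      (fun l => -l.1.num) t k : ℤ) : ℚ) =
      ((dl D P Q * dj D P Q : ℤ) : ℚ) ^ 2 * (D * GP P Q k).eval (t : ℚ) := by
  classical
  rw [evalk hs hsq k]
  unfold F4 aP ff
  set S := fs (fun l : JP D P Q => clsP D P Q l.1) k with hS
  push_cast
  have h1 : ∀ l : JP D P Q, ((l.1.den : ℚ) * (t : ℚ) + -(l.1.num : ℚ)) =
      (l.1.den : ℚ) * ((t : ℚ) - l.1) := by
    intro l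
    have h2 : (l.1.den : ℚ) * l.1 = l.1.num := by
      rw [mul_comm]
      exact Rat.mul_den_eq_num l.1
    linear_combination h2
  rw [prod_congr rfl fun l _ => h1 l, prod_mul_distrib]
  have h2 : (∏ l ∈ univ \ S, (l.1.den : ℚ)) * ∏ l ∈ S, (l.1.den : ℚ) =
      ∏ l : JP D P Q, (l.1.den : ℚ) := prod_sdiff (subset_univ S)
  have h3 : ((lcP D P Q k).num : ℚ) * (∏ j ∈ univ.erase k, ((lcP D P Q j).den : ℚ)) =
      lcP D P Q k * ∏ j, ((lcP D P Q j).den : ℚ) := by
    rw [← mul_prod_erase univ _ (mem_univ k), ← mul_assoc, Rat.mul_den_eq_num]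
  have h4 : ((dj D P Q : ℤ) : ℚ) = ∏ l : JP D P Q, (l.1.den : ℚ) := by
    unfold dj
    push_cast
    rfl
  have h5 : ((dl D P Q : ℤ) : ℚ) = ∏ j, ((lcP D P Q j).den : ℚ) := by
    unfold dl
    push_cast
    rfl
  calc ((lcP D P Q k).num : ℚ) * (∏ j ∈ univ.erase k, ((lcP D P Q j).den : ℚ)) *
        (dl D P Q : ℚ) * (dj D P Q : ℚ) * (∏ l ∈ univ \ S, (l.1.den : ℚ)) *
        ((∏ l ∈ S, (l.1.den : ℚ)) * ∏ l ∈ S, ((t : ℚ) - l.1))
      = (((lcP D P Q k).num : ℚ) * (∏ j ∈ univ.erase k, ((lcP D P Q j).den : ℚ))) *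
        (dl D P Q : ℚ) * (dj D P Q : ℚ) * ((∏ l ∈ univ \ S, (l.1.den : ℚ)) *
        (∏ l ∈ S, (l.1.den : ℚ))) * ∏ l ∈ S, ((t : ℚ) - l.1) := by ring
    _ = (lcP D P Q k * (dl D P Q : ℚ)) *
        (dl D P Q : ℚ) * (dj D P Q : ℚ) * (dj D P Q : ℚ) * ∏ l ∈ S, ((t : ℚ) - l.1) := by
        rw [h3, h2, ← h4, ← h5]
    _ = _ := by
        unfold lcP
        ring

lemma M_ne : ((dl D P Q * dj D P Q : ℤ) : ℚ) ≠ 0 := by
  have h : dl D P Q * dj D P Q ≠ 0 := by
    unfold dl dj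
    refine mul_ne_zero (prod_ne_zero_iff.2 fun k _ => ?_) (prod_ne_zero_iff.2 fun l _ => ?_)
    · exact_mod_cast (lcP D P Q k).den_nz
    · exact_mod_cast l.1.den_nz
  exact_mod_cast h

open Classical in
/-- the tail for positive parameters -/
theorem poly_half (D P Q : ℚ[X]) (hs : (D * P * Q * (P - Q)).Splits)
    (hsq : Squarefree (D * P * Q * (P - Q)))
    (hdeg : (P.natDegree = 0 ∧ Q.natDegree = 0) ∨
      (0 < P.natDegree ∧ 0 < Q.natDegree ∧ 0 < (P - Q).natDegree)) :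
    ∃ C c : ℝ, 0 < C ∧ 0 < c ∧ ∀ r : ℕ, ∀ᶠ X : ℕ in Filter.atTop,
      (((Icc 1 X).filter (fun t : ℕ => (D * P * Q * (P - Q)).eval (t : ℚ) ≠ 0 ∧
        r ≤ Module.finrank ℤ
        (EQ (D.eval (t : ℚ) * P.eval (t : ℚ)) (D.eval (t : ℚ) * Q.eval (t : ℚ))).toAffine.Point)).card : ℝ) ≤
        C * Real.exp (-(c * (r * Real.log r))) * X := by
  set cls : JP D P Q → Fin 4 := fun l => clsP D P Q l.1 with hcls
  set a := aP D P Q with ha
  set α : JP D P Q → ℤ := fun l => (l.1.den : ℤ) with hα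
  set β : JP D P Q → ℤ := fun l => -l.1.num with hβ
  have hW : D * P * Q * (P - Q) ≠ 0 := hsq.ne_zero
  have hlc : ∀ k, lcP D P Q k ≠ 0 := by
    intro k
    have hd := GP_dvd (D := D) (P := P) (Q := Q) k
    exact leadingCoeff_ne_zero.2 fun h => hW (by rw [h] at hd; exact zero_dvd_iff.1 hd)
  have hdl : dl D P Q ≠ 0 := by
    unfold dl
    refine prod_ne_zero_iff.2 fun k _ => ?_
    exact_mod_cast (lcP D P Q k).den_nz
  have hdj : dj D P Q ≠ 0 := by
    unfold dj
    refine prod_ne_zero_iff.2 fun l _ => ?_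
    exact_mod_cast l.1.den_nz
  have hane : ∀ k, a k ≠ 0 := by
    intro k
    rw [ha]
    unfold aP
    refine mul_ne_zero (mul_ne_zero (mul_ne_zero (mul_ne_zero ?_ ?_) hdl) hdj) ?_
    · exact Rat.num_ne_zero.2 (hlc k)
    · refine prod_ne_zero_iff.2 fun k _ => ?_
      exact_mod_cast (lcP D P Q k).den_nz
    · refine prod_ne_zero_iff.2 fun l _ => ?_
      exact_mod_cast l.1.den_nz
  have hαne : ∀ j, α j ≠ 0 := by
    intro l
    show (l.1.den : ℤ) ≠ 0
    exact_mod_cast l.1.den_nz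
  have hR : ∀ j l, j ≠ l → Res α β j l ≠ 0 := by
    intro j l hjl h
    apply hjl
    apply Subtype.ext
    unfold Res at h
    simp only [hα, hβ] at h
    have h1 : (j.1.num : ℤ) * l.1.den = l.1.num * j.1.den := by linarith
    exact Rat.eq_iff_mul_eq_mul.2 h1
  have hM : ∀ (k : Fin 3) (t : ℤ), ((F4 cls a α β t k : ℤ) : ℚ) =
      ((dl D P Q * dj D P Q : ℤ) : ℚ) ^ 2 * (D * GP P Q k).eval (t : ℚ) := fun k t =>
    F4_eq hs hsq k t
  have hF : ∀ t : ℤ, F4 cls a α β t 0 - F4 cls a α β t 1 = F4 cls a α β t 2 := by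
    intro t
    have h1 : ((F4 cls a α β t 0 - F4 cls a α β t 1 : ℤ) : ℚ) = (F4 cls a α β t 2 : ℤ) := by
      rw [Int.cast_sub, hM, hM, hM]
      have e0 : GP P Q 0 = P := rfl
      have e1 : GP P Q 1 = Q := rfl
      have e2 : GP P Q 2 = P - Q := rfl
      rw [e0, e1, e2, eval_mul, eval_mul, eval_mul, eval_sub]
      ring
    exact_mod_cast h1
  obtain ⟨C, c, hC, hc, hmain⟩ := one_tail cls (tri_of hs hsq hdeg) a α β hane hαne hR hF
  refine ⟨C, c, hC, hc, fun r => ?_⟩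
  filter_upwards [hmain r] with X hX
  refine le_trans ?_ hX
  have hsub : (Icc 1 X).filter (fun t : ℕ => (D * P * Q * (P - Q)).eval (t : ℚ) ≠ 0 ∧
        r ≤ Module.finrank ℤ
        (EQ (D.eval (t : ℚ) * P.eval (t : ℚ)) (D.eval (t : ℚ) * Q.eval (t : ℚ))).toAffine.Point) ⊆
      (Icc 1 X).filter (fun t : ℕ => (∀ j, ff α β t j ≠ 0) ∧ r ≤ Module.finrank ℤ
        (EAB (F4 cls a α β t 0) (F4 cls a α β t 1)).toAffine.Point) := by
    intro t ht
    rw [mem_filter] at ht ⊢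
    obtain ⟨ht1, ht2, ht3⟩ := ht
    refine ⟨ht1, fun l h => ht2 ?_, ?_⟩
    · have h1 : (t : ℚ) = l.1 := by
        unfold ff at h
        simp only [hα, hβ] at h
        have h2 : (l.1.den : ℚ) * (t : ℚ) = l.1.num := by
          have h3 : ((l.1.den : ℤ) * (t : ℤ) + -l.1.num : ℤ) = 0 := h
          have h4 : ((l.1.den : ℤ) * (t : ℤ) : ℤ) = l.1.num := by linarith
          exact_mod_cast h4
        rw [← Rat.mul_den_eq_num l.1, mul_comm] at h2
        exact mul_right_cancel₀ (by exact_mod_cast l.1.den_nz) h2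
      rw [h1]
      exact JP_eval l
    · have e : EAB (F4 cls a α β t 0) (F4 cls a α β t 1) =
          EQ (((dl D P Q * dj D P Q : ℤ) : ℚ) ^ 2 * (D.eval (t : ℚ) * P.eval (t : ℚ)))
            (((dl D P Q * dj D P Q : ℤ) : ℚ) ^ 2 * (D.eval (t : ℚ) * Q.eval (t : ℚ))) := by
        rw [EAB_eq, hM, hM]
        have e0 : GP P Q 0 = P := rfl
        have e1 : GP P Q 1 = Q := rfl
        rw [e0, e1, eval_mul, eval_mul, Int.cast_natCast]
      rw [e, rank_scale _ _ _ M_ne]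
      exact ht3
  exact_mod_cast card_le_card hsub

open Classical in
/-- **The tail of the rank in one-parameter families.** -/
theorem poly_tail (D P Q : ℚ[X]) (hs : (D * P * Q * (P - Q)).Splits)
    (hsq : Squarefree (D * P * Q * (P - Q)))
    (hdeg : (P.natDegree = 0 ∧ Q.natDegree = 0) ∨
      (0 < P.natDegree ∧ 0 < Q.natDegree ∧ 0 < (P - Q).natDegree)) :
    ∃ C c : ℝ, 0 < C ∧ 0 < c ∧ ∀ r : ℕ, ∀ᶠ X : ℕ in Filter.atTop,
      (((Icc (-(X : ℤ)) X).filter (fun t : ℤ => (D * P * Q * (P - Q)).eval (t : ℚ) ≠ 0 ∧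
        r ≤ Module.finrank ℤ
        (EQ (D.eval (t : ℚ) * P.eval (t : ℚ)) (D.eval (t : ℚ) * Q.eval (t : ℚ))).toAffine.Point)).card : ℝ) ≤
        C * Real.exp (-(c * (r * Real.log r))) * X := by
  obtain ⟨C1, c1, hC1, hc1, h1⟩ := poly_half D P Q hs hsq hdeg
  -- the negative parameters
  set φ : ℚ[X] := -Polynomial.X with hφ
  have hev : ∀ (f : ℚ[X]) (t : ℚ), (f.comp φ).eval t = f.eval (-t) := by
    intro f t
    rw [eval_comp, hφ, eval_neg, eval_X]
  have hcomp : D.comp φ * P.comp φ * Q.comp φ * (P.comp φ - Q.comp φ) =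
      (D * P * Q * (P - Q)).comp φ := by
    rw [mul_comp, mul_comp, mul_comp, sub_comp]
  have hnd : ∀ f : ℚ[X], (f.comp φ).natDegree = f.natDegree := by
    intro f
    rw [natDegree_comp, hφ, natDegree_neg, natDegree_X, mul_one]
  have hinv : ∀ f : ℚ[X], (f.comp φ).comp φ = f := by
    intro f
    rw [comp_assoc, hφ]
    simp
  have hsq' : Squarefree (D.comp φ * P.comp φ * Q.comp φ * (P.comp φ - Q.comp φ)) := by
    rw [hcomp]
    intro g hg
    have h2 : g.comp φ * g.comp φ ∣ D * P * Q * (P - Q) := by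
      obtain ⟨q, hq⟩ := hg
      refine ⟨q.comp φ, ?_⟩
      rw [← mul_comp, ← mul_comp, ← hq, hinv]
    have h3 := hsq _ h2
    rw [isUnit_iff_degree_eq_zero] at h3 ⊢
    have h4 : (g.comp φ).degree = g.degree := by
      have hg0 : g ≠ 0 := by
        rintro rfl
        rw [zero_comp, degree_zero] at h3
        exact absurd h3 (by decide)
      have hg1 : g.comp φ ≠ 0 := by
        intro h
        apply hg0
        rw [← hinv g, h, zero_comp]
      rw [degree_eq_natDegree hg0, degree_eq_natDegree hg1, hnd]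
    rw [← h4]
    exact h3
  have hs' : (D.comp φ * P.comp φ * Q.comp φ * (P.comp φ - Q.comp φ)).Splits := by
    rw [hcomp, hφ]
    exact hs.comp_neg_X
  have hdeg' : ((P.comp φ).natDegree = 0 ∧ (Q.comp φ).natDegree = 0) ∨
      (0 < (P.comp φ).natDegree ∧ 0 < (Q.comp φ).natDegree ∧
        0 < (P.comp φ - Q.comp φ).natDegree) := by
    rw [← sub_comp, hnd, hnd, hnd]
    exact hdeg
  obtain ⟨C2, c2, hC2, hc2, h2⟩ := poly_half (D.comp φ) (P.comp φ) (Q.comp φ) hs' hsq' hdeg'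
  set c := min c1 c2 with hc
  refine ⟨C1 + C2 + 1, c, by positivity, lt_min hc1 hc2, fun r => ?_⟩
  set E : ℝ := Real.exp (-(c * (r * Real.log r))) with hE
  have hrl : 0 ≤ (r : ℝ) * Real.log r := mul_nonneg (Nat.cast_nonneg _) (Real.log_natCast_nonneg _)
  have hE1 : Real.exp (-(c1 * (r * Real.log r))) ≤ E := by
    rw [hE]
    apply Real.exp_le_exp.2
    have := mul_le_mul_of_nonneg_right (min_le_left c1 c2) hrl
    linarith
  have hE2 : Real.exp (-(c2 * (r * Real.log r))) ≤ E := by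
    rw [hE]
    apply Real.exp_le_exp.2
    have := mul_le_mul_of_nonneg_right (min_le_right c1 c2) hrl
    linarith
  have hE0 : 0 < E := Real.exp_pos _
  filter_upwards [h1 r, h2 r, Filter.eventually_ge_atTop ⌈1 / E⌉₊] with X hX1 hX2 hX3
  have hX3' : 1 ≤ E * X := by
    have : 1 / E ≤ X := (Nat.le_ceil _).trans (by exact_mod_cast hX3)
    rw [div_le_iff₀ hE0] at this
    linarith
  set S := (Icc (-(X : ℤ)) X).filter (fun t : ℤ => (D * P * Q * (P - Q)).eval (t : ℚ) ≠ 0 ∧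
        r ≤ Module.finrank ℤ
        (EQ (D.eval (t : ℚ) * P.eval (t : ℚ)) (D.eval (t : ℚ) * Q.eval (t : ℚ))).toAffine.Point)
    with hS
  set S1' := (Icc 1 X).filter (fun t : ℕ => (D * P * Q * (P - Q)).eval (t : ℚ) ≠ 0 ∧
        r ≤ Module.finrank ℤ
        (EQ (D.eval (t : ℚ) * P.eval (t : ℚ)) (D.eval (t : ℚ) * Q.eval (t : ℚ))).toAffine.Point)
    with hS1
  set S2' := (Icc 1 X).filter (fun t : ℕ =>
        (D.comp φ * P.comp φ * Q.comp φ * (P.comp φ - Q.comp φ)).eval (t : ℚ) ≠ 0 ∧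
        r ≤ Module.finrank ℤ (EQ ((D.comp φ).eval (t : ℚ) * (P.comp φ).eval (t : ℚ))
          ((D.comp φ).eval (t : ℚ) * (Q.comp φ).eval (t : ℚ))).toAffine.Point)
    with hS2
  have hsub : S ⊆ (S1'.image (fun t : ℕ => (t : ℤ)) ∪ S2'.image (fun t : ℕ => -(t : ℤ))) ∪ {0} := by
    intro t ht
    rw [hS, mem_filter, mem_Icc] at ht
    obtain ⟨ht1, ht2, ht3⟩ := ht
    rw [mem_union, mem_union, mem_image, mem_image, mem_singleton]
    rcases lt_trichotomy t 0 with h | h | h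
    · left; right
      have e1 : -((t.natAbs : ℕ) : ℤ) = t := by omega
      have e2 : -((t.natAbs : ℕ) : ℚ) = (t : ℚ) := by
        rw [← Int.cast_natCast, ← Int.cast_neg, e1]
      refine ⟨t.natAbs, ?_, e1⟩
      rw [hS2, mem_filter, mem_Icc, hcomp, hev, hev, hev, hev, e2]
      exact ⟨by omega, ht2, ht3⟩
    · right; exact h
    · left; left
      have e1 : ((t.natAbs : ℕ) : ℤ) = t := by omega
      have e2 : ((t.natAbs : ℕ) : ℚ) = (t : ℚ) := by
        rw [← Int.cast_natCast, e1]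
      refine ⟨t.natAbs, ?_, e1⟩
      rw [hS1, mem_filter, mem_Icc, e2]
      exact ⟨by omega, ht2, ht3⟩
  have hcard : (S.card : ℝ) ≤ S1'.card + S2'.card + 1 := by
    have h3 := (card_le_card hsub).trans ((card_union_le _ _).trans
      (Nat.add_le_add_right (card_union_le _ _) _))
    have h4 := card_image_le (s := S1') (f := fun t : ℕ => (t : ℤ))
    have h5 := card_image_le (s := S2') (f := fun t : ℕ => -(t : ℤ))
    have h6 : S.card ≤ S1'.card + S2'.card + 1 := by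
      rw [card_singleton] at h3
      omega
    exact_mod_cast h6
  have hXn : (0 : ℝ) ≤ X := Nat.cast_nonneg X
  have g1 : (S1'.card : ℝ) ≤ C1 * E * X := hX1.trans
    (mul_le_mul_of_nonneg_right (mul_le_mul_of_nonneg_left hE1 hC1.le) hXn)
  have g2 : (S2'.card : ℝ) ≤ C2 * E * X := hX2.trans
    (mul_le_mul_of_nonneg_right (mul_le_mul_of_nonneg_left hE2 hC2.le) hXn)
  calc (S.card : ℝ) ≤ C1 * E * X + C2 * E * X + E * X := by linarith
    _ = _ := by ring

end Pool.Agent.H457.A
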