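import Pool.Graph.R_seed8.W45.RT.ANT
import Pool.Graph.R_seed8.W591.RK2.RVRU
import Pool.Graph.R_seed8.W358.RK2.GR
import Pool.Agent.H457.A.ATt1

set_option autoImplicit false
set_option linter.unusedSectionVars false

/-! Sums over tuples of divisors with Rankin's trick, the dependence on the exponent is explicit. -/

namespace Pool.Agent.H457.A

open Finset Pool.Agent.W262.RK Pool.Agent.W591.RK2

lemma rvE (J : Type) [Fintype J] [DecidableEq J] (z : ℕ) (lam : ℝ)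
    (hz : 2 * Fintype.card J + 2 ≤ z) (hlam : 0 ≤ lam) (y : ℕ) (hy : z < y) :
    ∑ v ∈ Tup J z y, (∏ j, 4 ^ (v j).primeFactors.card * (gw 1 (Fintype.card J) (v j) / v j)) *
      (∏ j, (v j : ℝ)) ^ (lam / Real.log y) ≤
      Real.exp (Fintype.card J * (8 * Real.exp lam)) := by
  set c := Fintype.card J with hc
  have hy3 : 3 ≤ y := by omega
  have hyr : (3 : ℝ) ≤ y := by exact_mod_cast hy3
  have hl : 0 < Real.log y := Real.log_pos (by linarith)
  set δ := lam / Real.log y with hδ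
  have hδ0 : 0 ≤ δ := div_nonneg hlam hl.le
  set h : ℕ → ℝ := fun p => (4 * ((1 / ((p : ℝ) - c)) / p)) * (p : ℝ) ^ δ with hh
  have hpc : ∀ p ∈ PS z y, (p : ℝ) / 2 ≤ (p : ℝ) - c ∧ (0 : ℝ) < p := by
    intro p hp
    have h1 := (mem_PS.1 hp).1.1
    have h2 : 2 * (c : ℝ) ≤ p := by exact_mod_cast (by omega : 2 * c ≤ p)
    have h3 : (0 : ℝ) < p := by exact_mod_cast (mem_PS.1 hp).2.pos
    exact ⟨by linarith, h3⟩
  have hnn : ∀ p ∈ PS z y, 0 ≤ h p := by
    intro p hp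
    obtain ⟨h1, h2⟩ := hpc p hp
    have h3 : 0 < (p : ℝ) - c := by linarith
    simp only [hh]
    positivity
  have e : ∀ v ∈ Tup J z y, (∏ j, 4 ^ (v j).primeFactors.card * (gw 1 c (v j) / v j)) *
      (∏ j, (v j : ℝ)) ^ δ = ∏ j, ∏ p ∈ (v j).primeFactors, h p := by
    intro v hv
    rw [← term hv δ]
    congr 1
    refine prod_congr rfl fun j _ => ?_
    have h1 : ∏ p ∈ (v j).primeFactors, ((1 / ((p : ℝ) - c)) / p) =
        (∏ p ∈ (v j).primeFactors, 1 / ((p : ℝ) - c)) / ∏ p ∈ (v j).primeFactors, (p : ℝ) :=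
      prod_div_distrib _ _
    rw [prod_mul_distrib, prod_const, h1, ← cast_eq (dv_squarefree (mem_Tup' hv j))]
    rfl
  rw [sum_congr rfl e]
  refine (gen J z y h hnn).trans (Real.exp_le_exp.2 (mul_le_mul_of_nonneg_left ?_ (Nat.cast_nonneg _)))
  have hb : ∀ p ∈ PS z y, h p ≤ 8 * Real.exp lam * (1 / (p : ℝ) ^ 2) := by
    intro p hp
    obtain ⟨h1, h2⟩ := hpc p hp
    have h3 : 0 < (p : ℝ) - c := by linarith
    have h4 : (p : ℝ) ^ δ ≤ Real.exp lam := by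
      have h5 : (p : ℝ) ≤ y := by exact_mod_cast (mem_PS.1 hp).1.2
      calc (p : ℝ) ^ δ ≤ (y : ℝ) ^ δ := Real.rpow_le_rpow h2.le h5 hδ0
        _ = Real.exp lam := by
          rw [Real.rpow_def_of_pos (by linarith), hδ]
          congr 1
          field_simp
    have h6 : 4 * ((1 / ((p : ℝ) - c)) / p) ≤ 8 * (1 / (p : ℝ) ^ 2) := by
      have h7 : 1 / ((p : ℝ) - c) ≤ 2 / p := by
        rw [div_le_div_iff₀ h3 h2]
        linarith
      have h8 : (1 / ((p : ℝ) - c)) / p ≤ (2 / p) / p := div_le_div_of_nonneg_right h7 h2.le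
      have h9 : (2 / (p : ℝ)) / p = 2 * (1 / (p : ℝ) ^ 2) := by
        field_simp
      linarith
    calc h p ≤ (8 * (1 / (p : ℝ) ^ 2)) * Real.exp lam :=
          mul_le_mul h6 h4 (by positivity) (by positivity)
      _ = _ := by ring
  calc ∑ p ∈ PS z y, h p ≤ ∑ p ∈ PS z y, 8 * Real.exp lam * (1 / (p : ℝ) ^ 2) := sum_le_sum hb
    _ = 8 * Real.exp lam * ∑ p ∈ PS z y, 1 / (p : ℝ) ^ 2 := by rw [mul_sum]
    _ ≤ 8 * Real.exp lam * 1 :=
        mul_le_mul_of_nonneg_left (sum_sq_le z y (by omega)) (by positivity)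
    _ = _ := mul_one _

lemma ruE : ∃ C : ℝ, 0 ≤ C ∧ ∀ (J : Type) [Fintype J] [DecidableEq J] (lam : ℝ), 0 ≤ lam →
    ∀ y Y : ℕ, 3 ≤ y → Y ≤ (y + 1) ^ 2 →
    ∑ u ∈ Tup J y Y, (∏ j, 1 / (u j : ℝ)) * (∏ j, (u j : ℝ)) ^ (lam / Real.log y) ≤
      Real.exp (Fintype.card J * (Real.exp (3 * lam) * C)) := by
  obtain ⟨C', hC'⟩ := sum_inv_le
  obtain ⟨C, hCdef⟩ : ∃ C, C = max C' 0 := ⟨_, rfl⟩
  have hC : ∀ y Y : ℕ, 3 ≤ y → Y ≤ (y + 1) ^ 2 → ∑ p ∈ PS y Y, 1 / (p : ℝ) ≤ C :=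
    fun y Y h1 h2 => (hC' y Y h1 h2).trans (by rw [hCdef]; exact le_max_left _ _)
  refine ⟨C, by rw [hCdef]; exact le_max_right _ _, fun J _ _ lam hlam y Y hy hY => ?_⟩
  have hyr : (3 : ℝ) ≤ y := by exact_mod_cast hy
  have hl : 0 < Real.log y := Real.log_pos (by linarith)
  set δ := lam / Real.log y with hδ
  have hδ0 : 0 ≤ δ := div_nonneg hlam hl.le
  set h : ℕ → ℝ := fun p => (1 / (p : ℝ)) * (p : ℝ) ^ δ with hh
  have hnn : ∀ p ∈ PS y Y, 0 ≤ h p := by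
    intro p hp
    simp only [hh]
    positivity
  have e : ∀ u ∈ Tup J y Y, (∏ j, 1 / (u j : ℝ)) * (∏ j, (u j : ℝ)) ^ δ =
      ∏ j, ∏ p ∈ (u j).primeFactors, h p := by
    intro u hu
    rw [← term hu δ]
    congr 1
    refine prod_congr rfl fun j _ => ?_
    rw [prod_div_distrib, prod_const_one, ← cast_eq (dv_squarefree (mem_Tup' hu j))]
  rw [sum_congr rfl e]
  refine (gen J y Y h hnn).trans (Real.exp_le_exp.2 (mul_le_mul_of_nonneg_left ?_ (Nat.cast_nonneg _)))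
  have hb : ∀ p ∈ PS y Y, h p ≤ Real.exp (3 * lam) * (1 / (p : ℝ)) := by
    intro p hp
    have h2 : (0 : ℝ) < p := by exact_mod_cast (mem_PS.1 hp).2.pos
    have h4 : (p : ℝ) ^ δ ≤ Real.exp (3 * lam) := by
      have h5 : (p : ℝ) ≤ (((y + 1) ^ 2 : ℕ) : ℝ) := by
        exact_mod_cast (mem_PS.1 hp).1.2.trans hY
      calc (p : ℝ) ^ δ ≤ ((((y + 1) ^ 2 : ℕ) : ℝ)) ^ δ := Real.rpow_le_rpow h2.le h5 hδ0
        _ ≤ Real.exp (3 * lam) := by
          rw [Real.rpow_def_of_pos (by positivity)]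
          refine Real.exp_le_exp.2 ?_
          calc Real.log (((y + 1) ^ 2 : ℕ) : ℝ) * δ ≤ 3 * Real.log y * δ :=
                mul_le_mul_of_nonneg_right (log_bd y hy) hδ0
            _ = 3 * lam := by
                rw [hδ]
                field_simp
    calc h p ≤ (1 / (p : ℝ)) * Real.exp (3 * lam) :=
          mul_le_mul_of_nonneg_left h4 (by positivity)
      _ = _ := mul_comm _ _
  calc ∑ p ∈ PS y Y, h p ≤ ∑ p ∈ PS y Y, Real.exp (3 * lam) * (1 / (p : ℝ)) := sum_le_sum hb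
    _ = Real.exp (3 * lam) * ∑ p ∈ PS y Y, 1 / (p : ℝ) := by rw [mul_sum]
    _ ≤ Real.exp (3 * lam) * C := mul_le_mul_of_nonneg_left (hC y Y hy hY) (by positivity)



lemma mlog : ∃ C : ℝ, 0 ≤ C ∧ ∀ z y : ℕ, 1 ≤ y →
    ∑ p ∈ PS z y, Real.log p / (p : ℝ) ≤ Real.log y + C := by
  obtain ⟨C, hC⟩ := Pool.Agent.Helper256.KM.mertens_log
  refine ⟨|C|, abs_nonneg _, fun z y hy => ?_⟩
  have h1 : ∑ p ∈ PS z y, Real.log p / (p : ℝ) ≤
      ∑ p ∈ (Finset.Icc 1 y).filter Nat.Prime, Real.log p / p := by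
    refine sum_le_sum_of_subset_of_nonneg ?_ fun p _ _ =>
      div_nonneg (Real.log_natCast_nonneg p) (Nat.cast_nonneg _)
    intro p hp
    have := mem_PS.1 hp
    exact mem_filter.2 ⟨mem_Icc.2 ⟨this.2.one_lt.le, this.1.2⟩, this.2⟩
  have h2 := (abs_le.1 (hC y hy)).2
  have h3 := le_abs_self C
  linarith

lemma exp_conv {lam x : ℝ} (_hlam : 0 ≤ lam) (hx0 : 0 ≤ x) (hx1 : x ≤ 1) :
    Real.exp (lam * x) ≤ 1 + x * Real.exp lam := by
  have h := convexOn_exp.2 (Set.mem_univ 0) (Set.mem_univ lam) (by linarith : 0 ≤ 1 - x) hx0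
    (by ring)
  simp only [smul_eq_mul, mul_zero, zero_add, Real.exp_zero, mul_one] at h
  rw [mul_comm x lam] at h
  linarith

/-- the sum over the divisors of the first kind -/
lemma rsE (c : ℕ) : ∃ B : ℝ, 0 ≤ B ∧ ∀ (J : Type) [Fintype J] [DecidableEq J] (z : ℕ) (lam : ℝ),
    2 * c + 2 ≤ z → 0 ≤ lam → ∀ y : ℕ, z < y →
    ∑ s ∈ Tup J z y, (∏ j, gw 1 c (s j)) * (∏ j, (s j : ℝ)) ^ (lam / Real.log y) ≤
      Real.exp (Fintype.card J * (B * Real.exp lam)) * (Real.log y) ^ (Fintype.card J) := by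
  obtain ⟨C0, hC0, hmer⟩ := Pool.Agent.W655.RK.mertens
  obtain ⟨K, hK, hsq⟩ := Pool.Agent.W655.RK.sum_inv_sq
  obtain ⟨C3, hC3, hml⟩ := mlog
  refine ⟨C0 + (1 + C3) + 4 * c * K, by positivity, fun J _ _ z lam hz hlam y hy => ?_⟩
  have hy3 : 3 ≤ y := by omega
  have hyr : (3 : ℝ) ≤ y := by exact_mod_cast hy3
  have hly1 : 1 ≤ Real.log y := by
    rw [Real.le_log_iff_exp_le (by linarith)]
    have := Real.exp_one_lt_d9
    linarith
  have hl : 0 < Real.log y := by linarith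
  set δ := lam / Real.log y with hδ
  have hδ0 : 0 ≤ δ := div_nonneg hlam hl.le
  have hc0 : (0 : ℝ) ≤ c := Nat.cast_nonneg c
  have hp3 : ∀ p ∈ PS z y, (2 * c + 3 : ℝ) ≤ p := fun p hp => by
    have := (mem_PS.1 hp).1.1
    exact_mod_cast (by omega : 2 * c + 3 ≤ p)
  set h : ℕ → ℝ := fun p => (1 / ((p : ℝ) - c)) * (p : ℝ) ^ δ with hh
  have hnn : ∀ p ∈ PS z y, 0 ≤ h p := by
    intro p hp
    have h1 := hp3 p hp
    have h2 : 0 < (p : ℝ) - c := by linarith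
    simp only [hh]
    positivity
  have e : ∀ s ∈ Tup J z y, (∏ j, gw 1 c (s j)) * (∏ j, (s j : ℝ)) ^ δ =
      ∏ j, ∏ p ∈ (s j).primeFactors, h p := by
    intro s hs
    rw [← term hs δ]
    rfl
  rw [sum_congr rfl e]
  refine (gen J z y h hnn).trans ?_
  have hexp1 : 1 ≤ Real.exp lam := Real.one_le_exp hlam
  have hb : ∀ p ∈ PS z y, h p ≤ 1 / (p : ℝ) + Real.exp lam * ((Real.log p / p) / Real.log y) +
      4 * c * Real.exp lam * (1 / (p : ℝ) ^ 2) := by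
    intro p hp
    have h1 := hp3 p hp
    have hp0 : (0 : ℝ) < p := by linarith
    have hpc : (0 : ℝ) < (p : ℝ) - c := by linarith
    set x := Real.log p / Real.log y with hx
    have hlp : 0 ≤ Real.log p := Real.log_natCast_nonneg p
    have hx0 : 0 ≤ x := div_nonneg hlp hl.le
    have hx1 : x ≤ 1 := by
      rw [hx, div_le_one hl]
      exact Real.log_le_log hp0 (by exact_mod_cast (mem_PS.1 hp).1.2)
    have h2 : (p : ℝ) ^ δ = Real.exp (lam * x) := by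
      rw [Real.rpow_def_of_pos hp0, hδ, hx]
      congr 1
      field_simp
    have h3 := exp_conv hlam hx0 hx1
    have h4 : 1 / ((p : ℝ) - c) ≤ 1 / (p : ℝ) + 2 * c * (1 / (p : ℝ) ^ 2) := by
      have e : 1 / (p : ℝ) + 2 * c * (1 / (p : ℝ) ^ 2) = (p + 2 * c) / p ^ 2 := by
        field_simp
      rw [e, div_le_div_iff₀ hpc (by positivity)]
      nlinarith
    simp only [hh]
    rw [h2]
    have h5 : (Real.log p / (p : ℝ)) / Real.log y = (1 / (p : ℝ)) * x := by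
      rw [hx]
      field_simp
    rw [h5]
    have h6 : 0 ≤ 2 * c * (1 / (p : ℝ) ^ 2) := by positivity
    have h7 : 1 + x * Real.exp lam ≤ 2 * Real.exp lam := by nlinarith
    calc 1 / ((p : ℝ) - c) * Real.exp (lam * x)
        ≤ (1 / (p : ℝ) + 2 * c * (1 / (p : ℝ) ^ 2)) * (1 + x * Real.exp lam) :=
          mul_le_mul h4 h3 (Real.exp_pos _).le (by positivity)
      _ = 1 / (p : ℝ) + Real.exp lam * (1 / (p : ℝ) * x) +
          2 * c * (1 / (p : ℝ) ^ 2) * (1 + x * Real.exp lam) := by ring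
      _ ≤ 1 / (p : ℝ) + Real.exp lam * (1 / (p : ℝ) * x) +
          2 * c * (1 / (p : ℝ) ^ 2) * (2 * Real.exp lam) := by
          have := mul_le_mul_of_nonneg_left h7 h6
          linarith
      _ = _ := by ring
  have hsum : ∑ p ∈ PS z y, h p ≤ Real.log (Real.log y) +
      (C0 + (1 + C3) + 4 * c * K) * Real.exp lam := by
    have h1 := sum_le_sum hb
    rw [sum_add_distrib, sum_add_distrib, ← mul_sum, ← mul_sum, ← sum_div] at h1
    have h2 := hmer z y (by omega)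
    have h3 := hml z y (by omega)
    have h4 := hsq (PS z y)
    have h5 : (∑ p ∈ PS z y, Real.log p / (p : ℝ)) / Real.log y ≤ 1 + C3 := by
      rw [div_le_iff₀ hl]
      nlinarith
    have h6 : Real.exp lam * ((∑ p ∈ PS z y, Real.log p / (p : ℝ)) / Real.log y) ≤
        Real.exp lam * (1 + C3) := mul_le_mul_of_nonneg_left h5 (Real.exp_pos _).le
    have h7 : 4 * c * Real.exp lam * ∑ p ∈ PS z y, 1 / (p : ℝ) ^ 2 ≤ 4 * c * Real.exp lam * K :=
      mul_le_mul_of_nonneg_left h4 (by positivity)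
    have h8 : C0 ≤ C0 * Real.exp lam := le_mul_of_one_le_right hC0 hexp1
    nlinarith
  have hfin : (Fintype.card J : ℝ) * ∑ p ∈ PS z y, h p ≤
      Fintype.card J * Real.log (Real.log y) +
      Fintype.card J * ((C0 + (1 + C3) + 4 * c * K) * Real.exp lam) := by
    rw [← mul_add]
    exact mul_le_mul_of_nonneg_left hsum (Nat.cast_nonneg _)
  refine (Real.exp_le_exp.2 hfin).trans (le_of_eq ?_)
  rw [add_comm, Real.exp_add]
  congr 1
  rw [mul_comm, Real.exp_mul, Real.exp_log hl, Real.rpow_natCast]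

end Pool.Agent.H457.A
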