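import Pool.Agent.H457.A.Tail1

set_option autoImplicit false
set_option linter.unusedSectionVars false

/-! The values with a large smooth part are rare. Adapted from `Pool.Agent.W45.RT.ant_of`. -/

namespace Pool.Agent.H457.A

open Finset Pool.Agent.W262.RK Pool.Agent.W307.RT
open Pool.Agent.W45.RT (lev rpG_mem S1_mem S2_mem S1_mul_S2)

/-- the count bound at the point `X` -/
def CB {J : Type} [Fintype J] [DecidableEq J] {Ω : Type} (z K0 y0 X : ℕ) (C SX : ℝ)
    (TX : Finset Ω) (f : Ω → J → ℤ) : Prop :=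
  ∀ y Y : ℕ, y0 ≤ y → z < y → y ^ K0 ≤ X → ∀ s ∈ Tup J z y, ∀ v ∈ Tup J z y, ∀ u ∈ Tup J y Y,
    (∏ j, s j * v j * u j) ^ 8 ≤ X → ∀ T' : Finset Ω, T' ⊆ TX →
    (∀ ω ∈ T', S1 z y (f ω) = s ∧ S2 z y (f ω) = v ∧ ∀ j, (u j : ℤ) ∣ f ω j) →
    (T'.card : ℝ) ≤ C * SX * (∏ j, gw 1 (Fintype.card J) (s j)) *
      (∏ j, gw 1 (Fintype.card J) (v j) / v j) * (∏ j, 1 / (u j : ℝ)) /
      (Real.log y) ^ (Fintype.card J)

/-- the threshold -/
def Xt (z y0 K : ℕ) : ℕ := (y0 + z + 3) ^ K + (PP z ((y0 + z + 3) ^ 2)) ^ 8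

/-- the smooth part is rarely large -/
theorem tail (J : Type) [Fintype J] [DecidableEq J] : ∃ B : ℝ, 0 ≤ B ∧ ∀ (z : ℕ),
    2 * Fintype.card J + 2 ≤ z → ∀ (Ω : Type) (TX : Finset Ω) (f : Ω → J → ℤ) (SX C : ℝ)
    (K0 y0 X K : ℕ), 0 ≤ SX → 0 ≤ C → (∀ ω ∈ TX, Gd z (f ω)) → CB z K0 y0 X C SX TX f →
    K0 + 16 ≤ K → Xt z y0 K ≤ X →
    ((TX.filter (fun ω => X < (∏ j, rp z (yy K X 0) (f ω j)) ^ 8)).card : ℝ) ≤
      C * SX * Real.exp (B * K - K * Real.log K / 24) := by
  classical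
  obtain ⟨B1, hB10, hB1⟩ := rsE (Fintype.card J)
  obtain ⟨B3, hB30, hB3⟩ := ruE
  set N := Fintype.card J with hN
  have hN0 : (0 : ℝ) ≤ N := Nat.cast_nonneg N
  refine ⟨N * (B1 + 8 + B3) * Real.exp 48, by positivity, fun z hz Ω TX f SX C K0 y0 X K hSX hC hG hCB hK
    hX => ?_⟩
  have hK1 : 1 ≤ K := by omega
  have hKr : (16 : ℝ) ≤ K := by exact_mod_cast (by omega : 16 ≤ K)
  have hlK : 2 ≤ Real.log K := by
    rw [Real.le_log_iff_exp_le (by linarith)]
    have h1 : Real.exp 2 = Real.exp 1 * Real.exp 1 := by rw [← Real.exp_add]; norm_num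
    have h2 := Real.exp_one_lt_d9
    have h3 := Real.exp_pos 1
    rw [h1]
    nlinarith
  set lam : ℝ := Real.log K / 3 with hlam
  have hlam0 : 0 ≤ lam := by rw [hlam]; linarith
  have he3 : Real.exp (3 * lam) = K := by
    rw [hlam, mul_div_cancel₀ _ (by norm_num : (3 : ℝ) ≠ 0), Real.exp_log (by linarith)]
  have he1 : Real.exp lam ≤ K := by
    rw [← he3]
    exact Real.exp_le_exp.2 (by linarith)
  -- the weights for the general lemma
  set lam' : ℝ := lam + 16 with hlam'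
  set Ys : ℕ := y0 + z + 3 with hYs
  set M : ℕ := PP z (Ys ^ 2) with hM
  have hX0 : Ys ^ K + M ^ 8 ≤ X := hX
  have hX1 : 1 ≤ X := le_trans (Nat.one_le_pow _ _ (by omega)) ((Nat.le_add_right _ _).trans hX0)
  -- the last level
  have hex : ∃ i, yy K X (i + 1) < Ys := by
    refine ⟨X, ?_⟩
    by_contra hcon
    have h1 : 2 ≤ yy K X (X + 1) := by omega
    have h2 := (yy_pow hK1 hX1 (X + 1)).2
    have h3 : 2 ^ X ≤ (yy K X (X + 1)) ^ (K * 2 ^ (X + 1)) := by
      refine (Nat.pow_le_pow_left h1 X).trans (Nat.pow_le_pow_right (by omega) ?_)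
      have h4 : X < 2 ^ X := Nat.lt_two_pow_self
      have h5 : 2 ^ (X + 1) = 2 * 2 ^ X := by rw [pow_succ, mul_comm]
      nlinarith
    have h4 : X < 2 ^ X := Nat.lt_two_pow_self
    exact absurd (h3.trans h2) (not_le.2 h4)
  set I := Nat.find hex with hI
  have hI1 : yy K X (I + 1) < Ys := Nat.find_spec hex
  have hIge : ∀ i, i ≤ I → Ys ≤ yy K X i := by
    intro i hi
    rcases Nat.eq_zero_or_pos i with h | h
    · subst h
      apply le_yy hK1
      rw [pow_zero, mul_one]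
      exact le_trans (Nat.le_add_right _ _) hX0
    · have h2 := Nat.find_min hex (m := i - 1) (by omega)
      rw [show i - 1 + 1 = i by omega] at h2
      omega
  -- the level sets
  set Ti : ℕ → Finset Ω := fun i => TX.filter (fun t : Ω =>
      (∏ j, rp z (yy K X (i + 1)) (f t j)) ^ 8 ≤ X ∧
      X < (∏ j, rp z (yy K X i) (f t j)) ^ 8) with hTi
  have hlast : ∀ t ∈ TX, (∏ j, rp z (yy K X I) (f t j)) ^ 8 ≤ X := by
    intro t ht
    have h1 : ∏ j, rp z (yy K X I) (f t j) ∣ PP z (yy K X I) :=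
      Tup_prod_dvd (rpG_mem (hG t ht) le_rfl)
    have h2 : yy K X I ≤ Ys ^ 2 :=
      (yy_sq hK1 hX1 I).le.trans (Nat.pow_le_pow_left (by omega) 2)
    have h3 : PP z (yy K X I) ∣ M := by
      apply prod_dvd_prod_of_subset
      intro p hp
      rw [mem_PS] at hp ⊢
      exact ⟨⟨hp.1.1, hp.1.2.trans h2⟩, hp.2⟩
    have h4 : ∏ j, rp z (yy K X I) (f t j) ≤ M :=
      Nat.le_of_dvd (Nat.pos_of_ne_zero (PP_ne_zero _ _)) (h1.trans h3)
    have h5 := Nat.pow_le_pow_left h4 8
    exact h5.trans (le_trans (Nat.le_add_left _ _) hX0)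
  have hcov : TX.filter (fun ω => X < (∏ j, rp z (yy K X 0) (f ω j)) ^ 8) ⊆
      (range I).biUnion Ti := by
    intro t ht
    rw [mem_filter] at ht
    have hex2 : ∃ i, (∏ j, rp z (yy K X i) (f t j)) ^ 8 ≤ X := ⟨I, hlast t ht.1⟩
    have hle : Nat.find hex2 ≤ I := Nat.find_min' hex2 (hlast t ht.1)
    rcases Nat.eq_zero_or_pos (Nat.find hex2) with h | h
    · exfalso
      have := Nat.find_spec hex2
      rw [h] at this
      omega
    · rw [mem_biUnion]
      refine ⟨Nat.find hex2 - 1, mem_range.2 (by omega), ?_⟩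
      rw [hTi, mem_filter, show Nat.find hex2 - 1 + 1 = Nat.find hex2 by omega]
      refine ⟨ht.1, Nat.find_spec hex2, ?_⟩
      have := Nat.find_min hex2 (m := Nat.find hex2 - 1) (by omega)
      omega
  -- the constants
  set D : ℝ := Real.exp (lam / 16) with hD
  have hD1 : 1 ≤ D := Real.one_le_exp (by positivity)
  have hlogD : Real.log D = lam / 16 := by rw [hD, Real.log_exp]
  have hlamD : lam' = 16 * (Real.log D + 1) := by rw [hlogD, hlam']; ring
  have hlam'0 : 0 ≤ lam' := by rw [hlam']; linarith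
  have hcz : N ≤ z := by omega
  set A1 : ℝ := Real.exp (N * (B1 * Real.exp lam')) with hA1
  set A2 : ℝ := Real.exp (N * (8 * Real.exp lam')) with hA2
  set A3 : ℝ := Real.exp (N * (Real.exp (3 * lam') * B3)) with hA3
  have h1 : ∀ y, z < y → ∑ s ∈ Tup J z y, (fun _ => (1 : ℝ)) s *
      (∏ j, gw 1 (Fintype.card J) (s j)) * (∏ j, (s j : ℝ)) ^ (lam' / Real.log y) ≤
      A1 * (Real.log y) ^ (Fintype.card J) := by
    intro y hy
    simp only [one_mul]
    exact hB1 J z lam' hz hlam'0 y hy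
  have h2 : ∀ y, z < y → ∑ v ∈ Tup J z y, bV (Fintype.card J) v *
      (∏ j, (v j : ℝ)) ^ (lam' / Real.log y) ≤ A2 := fun y hy => rvE J z lam' hz hlam'0 y hy
  have h3 : ∀ y Y : ℕ, 3 ≤ y → Y ≤ (y + 1) ^ 2 → ∑ u ∈ Tup J y Y, (∏ j, 1 / (u j : ℝ)) *
      (∏ j, (u j : ℝ)) ^ (lam' / Real.log y) ≤ A3 := fun y Y h h' => hB3 J lam' hlam'0 y Y h h'
  have hTb : ∀ i ∈ range I, ((Ti i).card : ℝ) ≤ C * SX * (A1 * A2 * A3) *
      Real.exp (-(K * Real.log K / 24)) * (1 / 2) ^ (i + 1) := by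
    intro i hi
    rw [mem_range] at hi
    have hz0 := hIge (i + 1) (by omega)
    have hp := yy_pow hK1 hX1 (i + 1)
    have hp' := yy_pow hK1 hX1 i
    have hk1 : K ≤ K * 2 ^ (i + 1) := Nat.le_mul_of_pos_right _ (by positivity)
    have hk2 : K ≤ K * 2 ^ i := Nat.le_mul_of_pos_right _ (by positivity)
    set k := K * 2 ^ (i + 1) with hk
    have hDk : 0 < D ^ k := by positivity
    have hlev := lev (J := J) (Ω := Ω) (f := f) (z := z) (G := fun _ => (1 : ℝ))
      (R := fun _ => (1 : ℝ)) (X := X) (y := yy K X (i + 1)) (Y := yy K X i) (k := k) (TX := TX)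
      (SX := SX) hSX hz (C := C / D ^ k) (D := D) (A1 := A1) (A2 := A2) (A3 := A3) (lam := lam')
      hG (fun _ => zero_le_one) (fun _ => zero_le_one) (by positivity) hD1 (Real.exp_pos _).le
      (Real.exp_pos _).le Pool.Agent.W358.RK2.gr hlamD h1 h2 h3
      (by
        intro s hs v hv u hu hsvu T' hT' hω
        rw [sum_const, nsmul_eq_mul, mul_one]
        refine (hCB (yy K X (i + 1)) (yy K X i) (by omega) (by omega)
          (le_trans (Nat.pow_le_pow_right hp.1 (by omega)) hp.2) s hs v hv u hu hsvu T' hT'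
          hω).trans ?_
        have e : C / D ^ k * D ^ k = C := by field_simp
        rw [e, one_mul]
        have hgs : 0 ≤ ∏ j, gw 1 (Fintype.card J) (s j) := prod_nonneg fun j _ => gw_nn hcz hs j
        have hgv : ∏ j, gw 1 (Fintype.card J) (v j) / v j ≤
            ∏ j, 4 ^ (v j).primeFactors.card * (gw 1 (Fintype.card J) (v j) / v j) := by
          apply prod_le_prod
          · intro j _
            exact div_nonneg (gw_nn hcz hv j) (Nat.cast_nonneg _)
          · intro j _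
            apply le_mul_of_one_le_left (div_nonneg (gw_nn hcz hv j) (Nat.cast_nonneg _))
            exact one_le_pow₀ (by norm_num)
        have hu0 : 0 ≤ ∏ j, 1 / (u j : ℝ) := prod_nonneg fun j _ => by positivity
        apply div_le_div_of_nonneg_right _ (pow_nonneg (Real.log_natCast_nonneg _) _)
        apply mul_le_mul_of_nonneg_right _ hu0
        exact mul_le_mul_of_nonneg_left hgv (by positivity))
      (by omega) (by omega) hp.2 (yy_anti hK1 hX1 i) (yy_sq hK1 hX1 i).le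
      (le_trans (Nat.pow_le_pow_right hp'.1 (by omega)) hp'.2)
    rw [sum_const, nsmul_eq_mul, mul_one] at hlev
    refine hlev.trans ?_
    have hk2K : (2 * K : ℝ) ≤ k := by
      rw [hk]
      have : 2 * K ≤ K * 2 ^ (i + 1) := by
        rw [pow_succ]
        nlinarith [Nat.one_le_two_pow (n := i)]
      exact_mod_cast this
    have hDk' : (D ^ k)⁻¹ ≤ Real.exp (-(K * Real.log K / 24)) := by
      rw [← Real.exp_log hDk, ← Real.exp_neg, Real.log_pow, hlogD]
      apply Real.exp_le_exp.2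
      have : (2 * K : ℝ) * (lam / 16) ≤ k * (lam / 16) :=
        mul_le_mul_of_nonneg_right hk2K (by positivity)
      rw [hlam] at this ⊢
      nlinarith
    have hek : Real.exp (-(k : ℝ)) ≤ (1 / 2) ^ (i + 1) := by
      have h4 : ((i + 1 : ℕ) : ℝ) ≤ k := by
        have h5 : i + 1 < 2 ^ (i + 1) := Nat.lt_two_pow_self
        have h6 : i + 1 ≤ K * 2 ^ (i + 1) := by nlinarith
        exact_mod_cast h6
      calc Real.exp (-(k : ℝ)) ≤ Real.exp (-((i + 1 : ℕ) : ℝ)) := Real.exp_le_exp.2 (by linarith)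
        _ = (Real.exp (-1)) ^ (i + 1) := by rw [← Real.exp_nat_mul]; congr 1; ring
        _ ≤ (1 / 2) ^ (i + 1) := by
            apply pow_le_pow_left₀ (Real.exp_pos _).le
            rw [Real.exp_neg, ← one_div]
            apply one_div_le_one_div_of_le (by norm_num)
            have := Real.exp_one_gt_d9
            linarith
    calc C / D ^ k * A1 * A2 * A3 * SX * Real.exp (-(k : ℝ))
        = C * SX * (A1 * A2 * A3) * (D ^ k)⁻¹ * Real.exp (-(k : ℝ)) := by
          rw [div_eq_mul_inv]; ring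
      _ ≤ C * SX * (A1 * A2 * A3) * Real.exp (-(K * Real.log K / 24)) * (1 / 2) ^ (i + 1) := by
          gcongr
  have hgeo : ∑ i ∈ range I, ((1 : ℝ) / 2) ^ (i + 1) ≤ 1 := by
    have h5 : ∑ i ∈ range I, ((1 : ℝ) / 2) ^ (i + 1) = 1 / 2 * ∑ i ∈ range I, ((1 : ℝ) / 2) ^ i := by
      rw [mul_sum]
      exact sum_congr rfl fun i _ => by rw [pow_succ]; ring
    rw [h5, geom_sum_eq (by norm_num)]
    have h1 : (0 : ℝ) ≤ (1 / 2 : ℝ) ^ I := by positivity
    have h6 : ((1 / 2 : ℝ) ^ I - 1) / (1 / 2 - 1) ≤ 2 := by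
      rw [div_le_iff_of_neg (by norm_num)]
      linarith
    linarith
  have hAAA : A1 * A2 * A3 ≤ Real.exp (N * (B1 + 8 + B3) * Real.exp 48 * K) := by
    rw [hA1, hA2, hA3, ← Real.exp_add, ← Real.exp_add]
    apply Real.exp_le_exp.2
    have e1 : Real.exp lam' ≤ Real.exp 48 * K := by
      rw [hlam', Real.exp_add, mul_comm]
      exact mul_le_mul (Real.exp_le_exp.2 (by norm_num)) he1 (Real.exp_pos _).le
        (Real.exp_pos _).le
    have e3 : Real.exp (3 * lam') = Real.exp 48 * K := by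
      rw [hlam', mul_add, Real.exp_add, he3, mul_comm]
      norm_num
    rw [e3]
    have g1 := mul_le_mul_of_nonneg_left (mul_le_mul_of_nonneg_left e1 hB10) hN0
    have g2 := mul_le_mul_of_nonneg_left
      (mul_le_mul_of_nonneg_left e1 (by norm_num : (0 : ℝ) ≤ 8)) hN0
    nlinarith
  calc ((TX.filter (fun ω => X < (∏ j, rp z (yy K X 0) (f ω j)) ^ 8)).card : ℝ)
      ≤ (((range I).biUnion Ti).card : ℝ) := by exact_mod_cast card_le_card hcov
    _ ≤ ∑ i ∈ range I, ((Ti i).card : ℝ) := by exact_mod_cast card_biUnion_le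
    _ ≤ ∑ i ∈ range I, C * SX * (A1 * A2 * A3) *
        Real.exp (-(K * Real.log K / 24)) * (1 / 2) ^ (i + 1) := sum_le_sum hTb
    _ = C * SX * (A1 * A2 * A3) * Real.exp (-(K * Real.log K / 24)) *
        ∑ i ∈ range I, (1 / 2) ^ (i + 1) := by rw [mul_sum]
    _ ≤ C * SX * (Real.exp (N * (B1 + 8 + B3) * Real.exp 48 * K)) *
        Real.exp (-(K * Real.log K / 24)) * 1 := by
        gcongr
    _ = _ := by
        rw [mul_one, mul_assoc, ← Real.exp_add]
        congr 2

end Pool.Agent.H457.A
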